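import Pool.Agent.CB.CDefs
import Pool.Agent.MX.Basic

/-!
# CB-BallM: one-dimensional marginals of the uniform measure on the ball

Identify `V (k+1)` with `ℝ × V k` (volume preserving; `EuclideanSpace.volume_preserving_...`,
`MeasurableEquiv.piFinSuccAbove`, `volume_preserving_piFinSuccAbove`). The slice of the unit ball at first coordinate `t`
is a ball of radius `√(1-t^2)` in `V k`, of volume `(1-t^2)^(k/2) * volume (ball 0 1)`
(`Measure.addHaar_ball`), empty for `|t| ≥ 1`.
-/

set_option autoImplicit false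

open MeasureTheory Set
open scoped ENNReal NNReal

namespace Pool.Agent.CB

/-- first coordinate and the others -/
private noncomputable def spl (k : ℕ) : V (k + 1) ≃ᵐ ℝ × V k :=
  ((MeasurableEquiv.toLp 2 (Fin (k + 1) → ℝ)).symm.trans
    (MeasurableEquiv.piFinSuccAbove (fun _ => ℝ) 0)).trans
      ((MeasurableEquiv.refl ℝ).prodCongr (MeasurableEquiv.toLp 2 (Fin k → ℝ)))

private theorem spl_fst {k : ℕ} (u : V (k + 1)) : (spl k u).1 = u 0 := rfl

private theorem spl_snd {k : ℕ} (u : V (k + 1)) (i : Fin k) : (spl k u).2 i = u i.succ := rfl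

private theorem mp_spl (k : ℕ) : MeasurePreserving (spl k) volume volume := by
  have h1 := EuclideanSpace.volume_preserving_symm_measurableEquiv_toLp (Fin (k + 1))
  have h2 := volume_preserving_piFinSuccAbove (fun _ : Fin (k + 1) => ℝ) 0
  have h3 := (MeasurePreserving.id (volume : Measure ℝ)).prod
    (EuclideanSpace.volume_preserving_symm_measurableEquiv_toLp (Fin k)).symm
  exact (h1.trans h2).trans h3

private theorem spl_ball {k : ℕ} (u : V (k + 1)) :
    u ∈ Metric.ball (0 : V (k + 1)) 1 ↔ spl k u ∈ {p : ℝ × V k | p.1 ^ 2 + ‖p.2‖ ^ 2 < 1} := by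
  have h1 : ‖u‖ ^ 2 = (spl k u).1 ^ 2 + ‖(spl k u).2‖ ^ 2 := by
    rw [EuclideanSpace.norm_sq_eq, EuclideanSpace.norm_sq_eq, Fin.sum_univ_succ, spl_fst]
    simp [spl_snd]
  rw [mem_ball_zero_iff, mem_ofPred_eq, ← h1]
  constructor
  · intro h
    have := norm_nonneg u
    nlinarith
  · intro h
    have := norm_nonneg u
    nlinarith

private theorem vol_ball_pos (s : ℕ) : 0 < (volume (Metric.ball (0 : V s) 1)).toReal :=
  ENNReal.toReal_pos (Metric.measure_ball_pos _ _ one_pos).ne' measure_ball_lt_top.ne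

theorem isProb_Ub (s : ℕ) : IsProbabilityMeasure (Ub s) := by
  constructor
  unfold Ub MX.unif
  rw [Measure.smul_apply, Measure.restrict_apply MeasurableSet.univ, Set.univ_inter, smul_eq_mul]
  exact ENNReal.inv_mul_cancel (Metric.measure_ball_pos _ _ one_pos).ne' measure_ball_lt_top.ne

theorem ball_marginal (k : ℕ) :
    ∃ κ : ℝ, 0 < κ ∧ ∀ h : ℝ → ℝ, Continuous h →
      ∫ u, h (u 0) ∂(Ub (k + 1)) =
        κ * ∫ t in (-1 : ℝ)..1, h t * (1 - t ^ 2) ^ ((k : ℝ) / 2) := by
  obtain ⟨c, hc⟩ : ∃ c, c = (volume (Metric.ball (0 : V k) 1)).toReal := ⟨_, rfl⟩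
  obtain ⟨d, hd⟩ : ∃ d, d = (volume (Metric.ball (0 : V (k + 1)) 1)).toReal := ⟨_, rfl⟩
  have hcpos : 0 < c := hc ▸ vol_ball_pos k
  have hdpos : 0 < d := hd ▸ vol_ball_pos (k + 1)
  obtain ⟨S, hS⟩ : ∃ S, S = {p : ℝ × V k | p.1 ^ 2 + ‖p.2‖ ^ 2 < 1} := ⟨_, rfl⟩
  have hSo : IsOpen S := by
    rw [hS]
    exact isOpen_lt (by fun_prop) continuous_const
  have hSm : MeasurableSet S := hSo.measurableSet
  -- the slices
  have hslice : ∀ t : ℝ, (volume {y : V k | (t, y) ∈ S}).toReal
      = if t ∈ Ioo (-1 : ℝ) 1 then (1 - t ^ 2) ^ ((k : ℝ) / 2) * c else 0 := by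
    intro t
    by_cases ht : t ∈ Ioo (-1 : ℝ) 1
    · have h1 : 0 < 1 - t ^ 2 := by nlinarith [ht.1, ht.2]
      have h2 : {y : V k | (t, y) ∈ S} = Metric.ball (0 : V k) (Real.sqrt (1 - t ^ 2)) := by
        ext y
        rw [mem_ball_zero_iff, mem_ofPred_eq, hS, mem_ofPred_eq,
          Real.lt_sqrt (norm_nonneg y)]
        constructor <;> intro h <;> linarith
      rw [h2, Measure.addHaar_ball_of_pos _ _ (Real.sqrt_pos.2 h1), ENNReal.toReal_mul, ← hc,
        ENNReal.toReal_ofReal (by positivity), if_pos ht]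
      congr 1
      rw [finrank_euclideanSpace, Fintype.card_fin, Real.sqrt_eq_rpow, ← Real.rpow_natCast,
        ← Real.rpow_mul h1.le]
      congr 1
      ring
    · have h2 : {y : V k | (t, y) ∈ S} = ∅ := by
        ext y
        simp only [mem_ofPred_eq, mem_empty_iff_false, iff_false]
        rw [hS, mem_ofPred_eq]
        intro h
        apply ht
        have h3 : t ^ 2 < 1 := by nlinarith [norm_nonneg y]
        rw [sq_lt_one_iff_abs_lt_one, abs_lt] at h3
        exact h3
      rw [h2, measure_empty, ENNReal.toReal_zero, if_neg ht]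
  refine ⟨d⁻¹ * c, by positivity, fun h hh => ?_⟩
  -- reduction to the product space
  have e1 : ∫ u, h (u 0) ∂(Ub (k + 1)) = d⁻¹ * ∫ p in S, h p.1 := by
    unfold Ub MX.unif
    rw [integral_smul_measure, ENNReal.toReal_inv, ← hd, smul_eq_mul]
    congr 1
    have h1 : Metric.ball (0 : V (k + 1)) 1 = spl k ⁻¹' S := by
      ext u
      rw [mem_preimage, hS]
      exact spl_ball u
    rw [h1, ← (mp_spl k).setIntegral_preimage_emb (spl k).measurableEmbedding (fun p => h p.1) S]
    rfl
  have hvS : (volume : Measure (ℝ × V k)) S < ∞ := by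
    have h1 : Metric.ball (0 : V (k + 1)) 1 = spl k ⁻¹' S := by
      ext u
      rw [mem_preimage, hS]
      exact spl_ball u
    rw [← (mp_spl k).measure_preimage hSm.nullMeasurableSet, ← h1]
    exact measure_ball_lt_top
  obtain ⟨B, hB⟩ : ∃ B, ∀ t ∈ Icc (-1 : ℝ) 1, |h t| ≤ B := by
    obtain ⟨x, _, hx⟩ := isCompact_Icc.exists_isMaxOn (f := fun t => |h t|)
      (⟨0, by norm_num, by norm_num⟩ : (Icc (-1 : ℝ) 1).Nonempty) hh.abs.continuousOn
    exact ⟨|h x|, fun t ht => hx ht⟩
  have hint : Integrable (S.indicator (fun p : ℝ × V k => h p.1)) volume := by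
    rw [integrable_indicator_iff hSm]
    refine Measure.integrableOn_of_bounded (M := B) hvS.ne (by fun_prop) ?_
    refine (ae_restrict_iff' hSm).2 (Filter.Eventually.of_forall fun p hp => ?_)
    rw [Real.norm_eq_abs]
    refine hB _ ?_
    rw [hS, mem_ofPred_eq] at hp
    have h3 : p.1 ^ 2 < 1 := by nlinarith [norm_nonneg p.2]
    rw [sq_lt_one_iff_abs_lt_one, abs_lt] at h3
    exact ⟨h3.1.le, h3.2.le⟩
  have e2 : ∫ p in S, h p.1 = ∫ t, h t * (volume {y : V k | (t, y) ∈ S}).toReal := by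
    rw [← integral_indicator hSm]
    rw [Measure.volume_eq_prod] at hint ⊢
    rw [integral_prod _ hint]
    congr 1
    funext t
    have h1 : (fun y : V k => S.indicator (fun p : ℝ × V k => h p.1) (t, y))
        = {y : V k | (t, y) ∈ S}.indicator (fun _ => h t) := by
      funext y
      by_cases hy : (t, y) ∈ S
      · rw [indicator_of_mem hy, indicator_of_mem (by exact hy)]
      · rw [indicator_of_notMem hy, indicator_of_notMem (by exact hy)]
    have h2 : MeasurableSet {y : V k | (t, y) ∈ S} := measurable_prodMk_left hSm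
    rw [h1, integral_indicator h2, setIntegral_const, smul_eq_mul, mul_comm]
    rfl
  rw [e1, e2, mul_assoc]
  congr 1
  simp only [hslice]
  rw [intervalIntegral.integral_of_le (by norm_num), integral_Ioc_eq_integral_Ioo,
    ← integral_const_mul, ← integral_indicator measurableSet_Ioo]
  congr 1
  funext t
  by_cases ht : t ∈ Ioo (-1 : ℝ) 1
  · rw [indicator_of_mem ht, if_pos ht]
    ring
  · rw [indicator_of_notMem ht, if_neg ht, mul_zero]

end Pool.Agent.CB
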