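import Pool.Agent.CB.CDefs
import Pool.Agent.MX.Basic

/-!
# CB-IsoPos: isotropic position

The covariance matrix `A i j = ∫ y i * y j d(unif K)` is symmetric and positive definite: for `v ≠ 0`,
`v^T A v = ∫ (∑ v i * y i)^2 > 0` because `K` contains an open ball and the hyperplane
`{∑ v i y i = 0}` has measure zero (or: the integrand is continuous, nonnegative, and positive on a
nonempty open subset of the interior of `K`). So `A = Bᵀ * B` with `B` invertible
(`Matrix.posSemidef_iff_eq_conjTranspose_mul_self`, `Matrix.PosDef`), and `T y = (Bᵀ)⁻¹ y`. Then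
`∫ ⟨ξ, T y⟩^2 = ξ^T (Bᵀ)⁻¹ A B⁻¹ ξ = ‖ξ‖^2`. All integrands are continuous and `K` is bounded, so
they are integrable. Or choose an orthonormal basis for the inner product
`(u, v) ↦ ∫ (∑ u i y i)(∑ v i y i)`. `MX.unif K = (volume K)⁻¹ • volume.restrict K`.
-/

set_option autoImplicit false

open MeasureTheory Set
open scoped ENNReal NNReal

namespace Pool.Agent.CB

open scoped MatrixOrder in
private lemma exists_root {n : ℕ} {A : Matrix (Fin n) (Fin n) ℝ} (hA : A.PosDef) :
    ∃ B : Matrix (Fin n) (Fin n) ℝ, A = B.transpose * B := by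
  obtain ⟨y, hy⟩ := CStarAlgebra.nonneg_iff_eq_star_mul_self.mp hA.posSemidef.nonneg
  refine ⟨y, ?_⟩
  rw [hy]
  rfl

theorem exists_iso {n : ℕ} {K : Set (Fin n → ℝ)} (hK : IsCompact K)
    (hi : (interior K).Nonempty) :
    ∃ T : (Fin n → ℝ) ≃L[ℝ] V n, (∀ ξ : V n, Integrable (fun y => inner ℝ ξ (T y) ^ 2) (MX.unif K)) ∧
      ∀ ξ : V n, ∫ y, inner ℝ ξ (T y) ^ 2 ∂(MX.unif K) = ‖ξ‖ ^ 2 := by
  have hvol0 : volume K ≠ 0 := by
    have h1 := isOpen_interior.measure_pos (volume : Measure (Fin n → ℝ)) hi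
    exact (lt_of_lt_of_le h1 (measure_mono interior_subset)).ne'
  have hvolfin : volume K ≠ ∞ := hK.measure_lt_top.ne
  -- continuous functions are integrable
  have hint : ∀ f : (Fin n → ℝ) → ℝ, Continuous f → Integrable f (MX.unif K) := by
    intro f hf
    unfold MX.unif
    exact (hf.continuousOn.integrableOn_compact hK).smul_measure (ENNReal.inv_ne_top.mpr hvol0)
  -- covariance matrix
  set A : Matrix (Fin n) (Fin n) ℝ := Matrix.of fun i j => ∫ y, y i * y j ∂(MX.unif K) with hA
  have hquad : ∀ u : Fin n → ℝ, ∫ y, (∑ i, u i * y i) ^ 2 ∂(MX.unif K) = u ⬝ᵥ A.mulVec u := by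
    intro u
    have h1 : ∀ y : Fin n → ℝ, (∑ i, u i * y i) ^ 2 = ∑ i, ∑ j, (u i * u j) * (y i * y j) := by
      intro y
      rw [sq, Finset.sum_mul_sum]
      refine Finset.sum_congr rfl fun i _ => Finset.sum_congr rfl fun j _ => ?_
      ring
    simp_rw [h1]
    have hi1 : ∀ i j, Integrable (fun y : Fin n → ℝ => (u i * u j) * (y i * y j)) (MX.unif K) := by
      intro i j
      apply hint
      fun_prop
    rw [integral_finsetSum _ (fun i _ => integrable_finsetSum _ fun j _ => hi1 i j)]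
    have h2 : u ⬝ᵥ A.mulVec u = ∑ i, u i * ∑ j, (∫ y, y i * y j ∂(MX.unif K)) * u j := rfl
    rw [h2]
    refine Finset.sum_congr rfl fun i _ => ?_
    rw [integral_finsetSum _ (fun j _ => hi1 i j), Finset.mul_sum]
    refine Finset.sum_congr rfl fun j _ => ?_
    rw [integral_const_mul]
    ring
  have hpos : ∀ u : Fin n → ℝ, u ≠ 0 → 0 < ∫ y, (∑ i, u i * y i) ^ 2 ∂(MX.unif K) := by
    intro u hu
    have hnn : 0 ≤ ∫ y, (∑ i, u i * y i) ^ 2 ∂(MX.unif K) := integral_nonneg fun y => sq_nonneg _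
    rcases hnn.lt_or_eq with h | h
    · exact h
    exfalso
    have hcont : Continuous fun y : Fin n → ℝ => (∑ i, u i * y i) ^ 2 := by fun_prop
    have h2 := (integral_eq_zero_iff_of_nonneg (fun y => sq_nonneg _) (hint _ hcont)).mp h.symm
    have h3 : ∀ᵐ y ∂(volume.restrict K), (∑ i, u i * y i) ^ 2 = 0 := by
      have h4 : ∀ᵐ y ∂((volume K)⁻¹ • (volume.restrict K)), (∑ i, u i * y i) ^ 2 = 0 := h2
      rw [ae_iff] at h4 ⊢
      rw [Measure.smul_apply, smul_eq_mul, mul_eq_zero] at h4
      rcases h4 with h4 | h4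
      · exact absurd h4 (ENNReal.inv_ne_zero.mpr hvolfin)
      · exact h4
    set O : Set (Fin n → ℝ) := interior K ∩ {y | (∑ i, u i * y i) ^ 2 ≠ 0} with hO
    have hOopen : IsOpen O := isOpen_interior.inter (isOpen_ne.preimage hcont)
    have hOzero : volume O = 0 := by
      rw [ae_iff] at h3
      have h5 : MeasurableSet {y : Fin n → ℝ | ¬(∑ i, u i * y i) ^ 2 = 0} :=
        (isOpen_ne.preimage hcont).measurableSet
      rw [Measure.restrict_apply h5] at h3
      refine measure_mono_null ?_ h3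
      intro y hy
      exact ⟨hy.2, interior_subset hy.1⟩
    have hOempty : O = ∅ := (hOopen.measure_eq_zero_iff volume).mp hOzero
    have hz : ∀ y ∈ interior K, ∑ i, u i * y i = 0 := by
      intro y hy
      by_contra hc
      have : y ∈ O := ⟨hy, pow_ne_zero 2 hc⟩
      rw [hOempty] at this
      exact this
    obtain ⟨y₀, hy₀⟩ := hi
    have hline : Continuous fun t : ℝ => y₀ + t • u := by fun_prop
    have hev : ∀ᶠ t in nhdsWithin (0 : ℝ) {0}ᶜ, y₀ + t • u ∈ interior K := by
      apply nhdsWithin_le_nhds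
      apply hline.continuousAt.eventually_mem
      rw [zero_smul, add_zero]
      exact isOpen_interior.mem_nhds hy₀
    obtain ⟨t, ht, ht0⟩ := (hev.and self_mem_nhdsWithin).exists
    have e1 := hz _ ht
    have e2 := hz _ hy₀
    have e3 : ∑ i, u i * (y₀ + t • u) i = ∑ i, u i * y₀ i + t * ∑ i, u i * u i := by
      rw [Finset.mul_sum, ← Finset.sum_add_distrib]
      refine Finset.sum_congr rfl fun i _ => ?_
      simp only [Pi.add_apply, Pi.smul_apply, smul_eq_mul]
      ring
    rw [e3, e2, zero_add] at e1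
    have e4 : ∑ i, u i * u i = 0 := (mul_eq_zero.mp e1).resolve_left ht0
    apply hu
    funext i
    have e5 := (Finset.sum_eq_zero_iff_of_nonneg (fun i _ => mul_self_nonneg (u i))).mp e4 i
      (Finset.mem_univ i)
    exact mul_self_eq_zero.mp e5
  have hAsymm : A.IsHermitian := by
    rw [Matrix.IsHermitian.ext_iff]
    intro i j
    simp only [hA, Matrix.of_apply, star_trivial]
    refine integral_congr_ae (Filter.Eventually.of_forall fun y => ?_)
    ring
  have hApd : A.PosDef := by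
    apply Matrix.PosDef.of_dotProduct_mulVec_pos hAsymm
    intro x hx
    rw [star_trivial, ← hquad x]
    exact hpos x hx
  obtain ⟨B, hB⟩ := exists_root hApd
  have hdet : IsUnit B.det := by
    have h1 : 0 < A.det := hApd.det_pos
    rw [hB, Matrix.det_mul, Matrix.det_transpose] at h1
    apply IsUnit.mk0
    intro h
    rw [h] at h1
    simp at h1
  have hBi1 : B * B⁻¹ = 1 := Matrix.mul_nonsing_inv B hdet
  have hBi2 : B⁻¹ * B = 1 := Matrix.nonsing_inv_mul B hdet
  set C : Matrix (Fin n) (Fin n) ℝ := (B⁻¹).transpose with hC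
  have h1 : B.transpose * C = 1 := by
    rw [hC, ← Matrix.transpose_mul, hBi2, Matrix.transpose_one]
  have h2 : C * B.transpose = 1 := by
    rw [hC, ← Matrix.transpose_mul, hBi1, Matrix.transpose_one]
  set T : (Fin n → ℝ) ≃L[ℝ] V n := (Matrix.toLin'OfInv h1 h2).toContinuousLinearEquiv.trans
    (EuclideanSpace.equiv (Fin n) ℝ).symm with hT
  have hTy : ∀ y i, T y i = C.mulVec y i := by
    intro y i
    rfl
  have hin : ∀ (ξ : V n) (y : Fin n → ℝ), inner ℝ ξ (T y) =
      ∑ j, (B⁻¹).mulVec (fun i => ξ i) j * y j := by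
    intro ξ y
    have e1 : inner ℝ ξ (T y) = ∑ i, ξ i * C.mulVec y i := by
      rw [PiLp.inner_apply]
      refine Finset.sum_congr rfl fun i _ => ?_
      rw [hTy]
      simp [mul_comm]
    rw [e1]
    have e2 : ∑ i, ξ i * C.mulVec y i = (fun i => ξ i) ⬝ᵥ C.mulVec y := rfl
    rw [e2, Matrix.dotProduct_mulVec, hC, Matrix.vecMul_transpose]
    rfl
  refine ⟨T, fun ξ => ?_, fun ξ => ?_⟩
  · apply hint
    have : Continuous fun y : Fin n → ℝ => T y := T.continuous
    fun_prop
  · simp_rw [hin ξ]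
    rw [hquad, hB, ← Matrix.mulVec_mulVec, Matrix.dotProduct_mulVec, Matrix.vecMul_transpose,
      Matrix.mulVec_mulVec, hBi1, Matrix.one_mulVec, EuclideanSpace.norm_sq_eq]
    unfold dotProduct
    refine Finset.sum_congr rfl fun i _ => ?_
    rw [Real.norm_eq_abs, sq_abs, sq]

end Pool.Agent.CB
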