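import Pool.Agent.CB.LCu
import Pool.Agent.CB.IsoPos

/-!
# CB-GenIso: isotropic position in a general finite-dimensional space

* `unif_map`: `volume.map T = c • volume` with `0 < c < ∞` (`T` is a linear homeomorphism: `Measure.map` of a Haar measure is a Haar
  measure, `isAddHaarMeasure_map`, `Measure.isAddHaarMeasure_eq_smul`), so
  `(volume K)⁻¹ • volume.restrict K` is mapped to `(volume (T '' K))⁻¹ • volume.restrict (T '' K)`.
* `lc_unif_gen`, `exists_iso_gen`: choose `T0 : E ≃L[ℝ] (Fin N → ℝ)`, `N = finrank` (`ContinuousLinearEquiv.ofFinrankEq`), use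
  `lc_unif`, `exists_iso` for `T0 '' K`, and `LC.map` for `T0⁻¹`.
* `integrable_sq`: a linear functional is bounded on the compact set `K`.
-/

set_option autoImplicit false
set_option linter.unusedSectionVars false

open MeasureTheory Set
open scoped ENNReal NNReal

namespace Pool.Agent.CB

variable {E : Type} [NormedAddCommGroup E] [NormedSpace ℝ E] [FiniteDimensional ℝ E]
  [MeasureSpace E] [BorelSpace E] [Measure.IsAddHaarMeasure (volume : Measure E)]

theorem unif_map {F : Type} [NormedAddCommGroup F] [NormedSpace ℝ F] [FiniteDimensional ℝ F]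
    [MeasureSpace F] [BorelSpace F] [Measure.IsAddHaarMeasure (volume : Measure F)]
    (T : E ≃L[ℝ] F) {K : Set E} (hK : MeasurableSet K) :
    (MX.unif K).map T = MX.unif (T '' K) := by
  have hhaar : Measure.IsAddHaarMeasure ((volume : Measure E).map T) :=
    T.isAddHaarMeasure_map volume
  obtain ⟨c, hc0, hct, hc⟩ : ∃ c : ℝ≥0∞, c ≠ 0 ∧ c ≠ ∞ ∧
      (volume : Measure E).map T = c • (volume : Measure F) := by
    have : ProperSpace F := FiniteDimensional.proper_real F
    refine ⟨(Measure.addHaarScalarFactor ((volume : Measure E).map T) (volume : Measure F) : ℝ≥0∞),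
      ?_, ENNReal.coe_ne_top, ?_⟩
    · exact ENNReal.coe_ne_zero.mpr (Measure.addHaarScalarFactor_pos_of_isAddHaarMeasure _ _).ne'
    · exact Measure.isAddLeftInvariant_eq_smul _ _
  have hTm : Measurable T := T.continuous.measurable
  have hpre : T ⁻¹' (T '' K) = K := preimage_image_eq K T.injective
  have hTK : MeasurableSet (T '' K) := by
    have h1 : T '' K = T.symm ⁻¹' K := by
      ext x
      constructor
      · rintro ⟨y, hy, rfl⟩
        simpa using hy
      · intro hx
        exact ⟨T.symm x, hx, by simp⟩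
    rw [h1]
    exact T.symm.continuous.measurable hK
  have hvol : volume K = c * volume (T '' K) := by
    have h1 : (volume : Measure E).map T (T '' K) = volume K := by
      rw [Measure.map_apply hTm hTK, hpre]
    rw [← h1, hc, Measure.smul_apply, smul_eq_mul]
  unfold MX.unif
  rw [Measure.map_smul, hvol]
  have h2 : (volume.restrict K).map T = c • (volume.restrict (T '' K)) := by
    have h3 := Measure.restrict_map (μ := (volume : Measure E)) hTm hTK
    rw [hpre] at h3
    rw [← h3, hc, Measure.restrict_smul]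
  rw [h2, smul_smul, ENNReal.mul_inv (Or.inl hc0) (Or.inl hct), mul_comm c⁻¹, mul_assoc,
    ENNReal.inv_mul_cancel hc0 hct, mul_one]

private theorem exists_coord (E : Type) [NormedAddCommGroup E] [NormedSpace ℝ E]
    [FiniteDimensional ℝ E] : ∃ N : ℕ, Nonempty (E ≃L[ℝ] (Fin N → ℝ)) := by
  refine ⟨Module.finrank ℝ E, ⟨ContinuousLinearEquiv.ofFinrankEq ?_⟩⟩
  simp

private theorem meas_image {F : Type} [NormedAddCommGroup F] [NormedSpace ℝ F]
    [MeasurableSpace F] [BorelSpace F] (T : E ≃L[ℝ] F) {K : Set E} (hK : MeasurableSet K) :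
    MeasurableSet (T '' K) := by
  have h1 : T '' K = T.symm ⁻¹' K := by
    ext x
    constructor
    · rintro ⟨y, hy, rfl⟩
      simpa using hy
    · intro hx
      exact ⟨T.symm x, hx, by simp⟩
  rw [h1]
  exact T.symm.continuous.measurable hK

theorem lc_unif_gen {K : Set E} (hK : MeasurableSet K) (hc : Convex ℝ K) :
    LC (MX.unif K) := by
  obtain ⟨N, ⟨T⟩⟩ := exists_coord E
  have hTK : MeasurableSet (T '' K) := meas_image T hK
  have h1 : LC (MX.unif (T '' K)) := by
    refine lc_unif hTK ?_
    exact hc.linear_image (T : E →L[ℝ] (Fin N → ℝ)).toLinearMap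
  have h2 := LC.map h1 (T.symm : (Fin N → ℝ) →L[ℝ] E).toLinearMap T.symm.continuous.measurable
  have h3 : (MX.unif (T '' K)).map T.symm = MX.unif K := by
    rw [unif_map T.symm hTK]
    congr 1
    rw [image_image]
    simp
  have h4 : (MX.unif (T '' K)).map (T.symm : (Fin N → ℝ) →L[ℝ] E).toLinearMap = MX.unif K := h3
  rw [h4] at h2
  exact h2

theorem isProb_unif {K : Set E} (hK : IsCompact K) (hi : (interior K).Nonempty) :
    IsProbabilityMeasure (MX.unif K) := by
  have hvol0 : volume K ≠ 0 := by
    have h1 := isOpen_interior.measure_pos (volume : Measure E) hi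
    exact (lt_of_lt_of_le h1 (measure_mono interior_subset)).ne'
  have hvolfin : volume K ≠ ∞ := hK.measure_lt_top.ne
  refine ⟨?_⟩
  unfold MX.unif
  rw [Measure.smul_apply, Measure.restrict_apply_univ, smul_eq_mul,
    ENNReal.inv_mul_cancel hvol0 hvolfin]

theorem integrable_sq {K : Set E} (hK : IsCompact K) (hi : (interior K).Nonempty)
    (f : E →ₗ[ℝ] ℝ) : Integrable (fun y => f y ^ 2) (MX.unif K) := by
  have hvol0 : volume K ≠ 0 := by
    have h1 := isOpen_interior.measure_pos (volume : Measure E) hi
    exact (lt_of_lt_of_le h1 (measure_mono interior_subset)).ne'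
  have hf : Continuous fun y => f y ^ 2 := (f.continuous_of_finiteDimensional).pow 2
  unfold MX.unif
  exact (hf.continuousOn.integrableOn_compact hK).smul_measure (ENNReal.inv_ne_top.mpr hvol0)

theorem exists_iso_gen {K : Set E} (hK : IsCompact K) (hi : (interior K).Nonempty) :
    ∃ (N : ℕ) (T : E ≃L[ℝ] V N),
      ∀ ξ : V N, ∫ y, inner ℝ ξ (T y) ^ 2 ∂(MX.unif K) = ‖ξ‖ ^ 2 := by
  obtain ⟨N, ⟨S⟩⟩ := exists_coord E
  have hSK : IsCompact (S '' K) := hK.image S.continuous
  have hSi : (interior (S '' K)).Nonempty := by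
    have h1 : S.toHomeomorph '' interior K = interior (S.toHomeomorph '' K) :=
      S.toHomeomorph.image_interior K
    have h2 : (S.toHomeomorph '' interior K).Nonempty := hi.image _
    rw [h1] at h2
    exact h2
  obtain ⟨T, _, hT⟩ := exists_iso hSK hSi
  refine ⟨N, S.trans T, fun ξ => ?_⟩
  rw [← hT ξ, ← unif_map S hK.measurableSet]
  rw [integral_map S.continuous.measurable.aemeasurable]
  · rfl
  · exact (((continuous_const.inner T.continuous).pow 2).measurable).aestronglyMeasurable

/-- A linear bijection preserving `K` preserves the uniform measure. -/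
theorem unif_pres {K : Set E} (hK : IsCompact K) (hi : (interior K).Nonempty)
    (u : E →ₗ[ℝ] E) (w : E →ₗ[ℝ] E) (huw : ∀ x, u (w x) = x) (hu : ∀ x ∈ K, u x ∈ K)
    (hw : ∀ x ∈ K, w x ∈ K) : (MX.unif K).map u = MX.unif K := by
  have hsurj : Function.Surjective u := fun x => ⟨w x, huw x⟩
  have hinj : Function.Injective u := LinearMap.injective_iff_surjective.mpr hsurj
  set U : E ≃L[ℝ] E := (LinearEquiv.ofBijective u ⟨hinj, hsurj⟩).toContinuousLinearEquiv with hU
  have hUu : (U : E → E) = u := by
    funext x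
    rw [hU]
    rfl
  have h1 := unif_map U hK.measurableSet
  rw [hUu] at h1
  rw [h1]
  congr 1
  ext x
  constructor
  · rintro ⟨y, hy, rfl⟩
    exact hu y hy
  · intro hx
    exact ⟨w x, hw x hx, huw x⟩

end Pool.Agent.CB
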