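import Pool.Agent.CB.OrbDefs
import Pool.Agent.CB.GenIso

/-!
# CB-BlockR: block-radial bodies have the orbit property

`E = ∀ j, Fin (d j) → ℝ`, `K` is invariant under maps preserving all block norms `∑ i, x j i ^2`, and `k + 1 ≤ d j` for all `j`. Let
`f y = ∑ j, ∑ i, F j i * y j i` be a functional (coefficients `F j i = f (Pi.single j (Pi.single i 1))`), `ρ j = √(∑ i, F j i^2)`.
For every `j` choose an orthonormal family `w j 0, …, w j k` of `ℝ^(d j)` with `ρ j • w j 0 = F j` (extend; if `F j = 0` any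
orthonormal family). Put `v i y = ∑ j, ρ j * ⟨w j i, y j⟩`, `κ = 1`, `ζ = 0`; `v 0 = f`. For a unit vector `a` and every `j` the
vectors `w j 0` and `∑ a i • w j i` are unit vectors, so there is a linear isometry (reflection) `R j` of `ℝ^(d j)`, `R j = (R j)⁻¹ = (R j)ᵀ`, with
`R j (w j 0) = ∑ a i w j i`; `g y j = R j (y j)`: `v 0 (g y) = ∑ ρ j ⟨w j 0, R j (y j)⟩ = ∑ ρ j ⟨R j (w j 0), y j⟩`.
`g` preserves `K` (`unif_pres`, with `w = g`), so `μ.map g = μ`. Work with `EuclideanSpace ℝ (Fin (d j))` and `WithLp.toLp`.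
-/

set_option autoImplicit false

open MeasureTheory Set
open scoped ENNReal NNReal

namespace Pool.Agent.CB

private theorem blockR_family {k d : ℕ} (hd : k + 1 ≤ d) (F : V d) :
    ∃ (ρ : ℝ) (w : Fin (k + 1) → V d), Orthonormal ℝ w ∧ ρ • w 0 = F := by
  obtain ⟨e, ρ, he, heF⟩ : ∃ (e : V d) (ρ : ℝ), ‖e‖ = 1 ∧ ρ • e = F := by
    by_cases hF : F = 0
    · refine ⟨EuclideanSpace.single ⟨0, by omega⟩ 1, 0, by simp, by simp [hF]⟩
    · have hn : ‖F‖ ≠ 0 := norm_ne_zero_iff.2 hF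
      refine ⟨‖F‖⁻¹ • F, ‖F‖, ?_, ?_⟩
      · rw [norm_smul, norm_inv, norm_norm, inv_mul_cancel₀ hn]
      · rw [smul_smul, mul_inv_cancel₀ hn, one_smul]
  have hv : Orthonormal ℝ (({⟨0, by omega⟩} : Set (Fin d)).domRestrict fun _ => e) := by
    constructor
    · intro i
      exact he
    · intro i j hij
      exfalso
      apply hij
      have h1 := i.2
      have h2 := j.2
      rw [Set.mem_singleton_iff] at h1 h2
      exact Subtype.ext (h1.trans h2.symm)
  obtain ⟨b, hb⟩ := hv.exists_orthonormalBasis_extension_of_card_eq (by simp)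
  refine ⟨ρ, fun i => b (Fin.castLE hd i), ?_, ?_⟩
  · exact b.orthonormal.comp _ (Fin.castLE_injective hd)
  · have h1 : b (Fin.castLE hd 0) = e := by
      have h2 : (Fin.castLE hd 0 : Fin d) = ⟨0, by omega⟩ := by
        ext
        simp
      rw [h2]
      exact hb _ (by simp)
    show ρ • b (Fin.castLE hd 0) = F
    rw [h1]
    exact heF

private theorem blockR_refl {d : ℕ} (x y : V d) (h : ‖x‖ = ‖y‖) :
    ∃ R : V d ≃ₗᵢ[ℝ] V d, R x = y ∧ (∀ z, R (R z) = z) ∧ ∀ u v, inner ℝ u (R v) = inner ℝ (R u) v := by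
  refine ⟨(ℝ ∙ (x - y))ᗮ.reflection, Submodule.reflection_sub h,
    fun z => Submodule.reflection_reflection _ z, fun u v => ?_⟩
  rw [← (ℝ ∙ (x - y))ᗮ.reflection.inner_map_map u, Submodule.reflection_reflection]

theorem orb_block {k l : ℕ} {d : Fin l → ℕ} (hd : ∀ j, k + 1 ≤ d j)
    {K : Set (∀ j, Fin (d j) → ℝ)} (hK : IsCompact K) (hi : (interior K).Nonempty)
    (hr : ∀ x ∈ K, ∀ y : ∀ j, Fin (d j) → ℝ, (∀ j, ∑ i, y j i ^ 2 = ∑ i, x j i ^ 2) → y ∈ K) :
    OrbE k (MX.unif K) := by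
  intro f hf
  let F : ∀ j, V (d j) := fun j => WithLp.toLp 2 fun i => f (Pi.single j (Pi.single i 1))
  choose ρ w hw hwF using fun j => blockR_family (hd j) (F j)
  let v : Fin (k + 1) → (∀ j, Fin (d j) → ℝ) →ₗ[ℝ] ℝ := fun i =>
    ∑ j, ρ j • ((innerₛₗ ℝ (w j i)) ∘ₗ (WithLp.linearEquiv 2 ℝ (Fin (d j) → ℝ)).symm.toLinearMap ∘ₗ
      LinearMap.proj j)
  have hv : ∀ i y, v i y = ∑ j, ρ j * inner ℝ (w j i) (WithLp.toLp 2 (y j)) := by
    intro i y
    simp [v, LinearMap.sum_apply]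
  have hfF : ∀ y, f y = ∑ j, inner ℝ (F j) (WithLp.toLp 2 (y j)) := by
    intro y
    have h1 : f y = ∑ j, f (Pi.single j (y j)) := by
      rw [← map_sum, Finset.univ_sum_single]
    rw [h1]
    refine Finset.sum_congr rfl fun j _ => ?_
    have h2 := LinearMap.pi_apply_eq_sum_univ (f ∘ₗ LinearMap.single ℝ (fun j => Fin (d j) → ℝ) j)
      (y j)
    simp only [LinearMap.comp_apply, LinearMap.single_apply] at h2
    rw [h2, PiLp.inner_apply]
    refine Finset.sum_congr rfl fun i _ => ?_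
    have h3 : (fun j => if i = j then (1 : ℝ) else 0) = Pi.single i 1 := by
      ext m
      rw [Pi.single_apply]
      simp [eq_comm]
    rw [h3]
    simp only [F, smul_eq_mul, RCLike.inner_apply, conj_trivial]
  have hv0 : ∀ y, f y = v 0 y := by
    intro y
    rw [hv, hfF]
    refine Finset.sum_congr rfl fun j _ => ?_
    rw [← hwF j, real_inner_smul_left]
  refine ⟨1, v, 0, by norm_num, le_refl _, ?_, ?_, ?_, ?_⟩
  · intro y
    rw [hv0]
    simp
  · rw [← hf]
    simp only [hv0]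
  · simp
  · intro a ha
    have hnorm : ∀ j, ‖w j 0‖ = ‖∑ i, a i • w j i‖ := by
      intro j
      rw [(hw j).1 0]
      have h1 : ‖∑ i, a i • w j i‖ ^ 2 = 1 := by
        rw [← real_inner_self_eq_norm_sq, (hw j).inner_sum]
        have h2 : ‖a‖ ^ 2 = 1 := by rw [ha]; norm_num
        rw [EuclideanSpace.norm_sq_eq] at h2
        rw [← h2]
        refine Finset.sum_congr rfl fun i _ => ?_
        rw [Real.norm_eq_abs, sq_abs]
        simp [sq]
      have h3 := norm_nonneg (∑ i, a i • w j i)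
      nlinarith
    choose R hR hRR hRi using fun j => blockR_refl _ _ (hnorm j)
    let g : (∀ j, Fin (d j) → ℝ) →ₗ[ℝ] (∀ j, Fin (d j) → ℝ) := LinearMap.pi fun j =>
      (WithLp.linearEquiv 2 ℝ (Fin (d j) → ℝ)).toLinearMap ∘ₗ (R j).toLinearEquiv.toLinearMap ∘ₗ
        (WithLp.linearEquiv 2 ℝ (Fin (d j) → ℝ)).symm.toLinearMap ∘ₗ LinearMap.proj j
    have hg : ∀ y j, WithLp.toLp 2 (g y j) = R j (WithLp.toLp 2 (y j)) := by
      intro y j
      rfl
    have hgg : ∀ y, g (g y) = y := by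
      intro y
      funext j
      have h1 : WithLp.toLp 2 (g (g y) j) = WithLp.toLp 2 (y j) := by
        rw [hg, hg, hRR]
      exact (WithLp.toLp_injective 2) h1
    have hgK : ∀ x ∈ K, g x ∈ K := by
      intro x hx
      refine hr x hx _ fun j => ?_
      have h1 : ∀ z : Fin (d j) → ℝ, ∑ i, z i ^ 2 = ‖(WithLp.toLp 2 z : V (d j))‖ ^ 2 := by
        intro z
        rw [EuclideanSpace.norm_sq_eq]
        refine Finset.sum_congr rfl fun i _ => ?_
        rw [Real.norm_eq_abs, sq_abs]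
      rw [h1, h1, hg, LinearIsometryEquiv.norm_map]
    refine ⟨g, unif_pres hK hi g g hgg hgK hgK, ?_, fun y => rfl⟩
    intro y
    simp only [hv]
    have h1 : ∀ j, inner ℝ (w j 0) (WithLp.toLp 2 (g y j)) =
        ∑ i, a i * inner ℝ (w j i) (WithLp.toLp 2 (y j)) := by
      intro j
      rw [hg, hRi, hR, sum_inner]
      refine Finset.sum_congr rfl fun i _ => ?_
      rw [real_inner_smul_left]
    simp only [h1, Finset.mul_sum]
    rw [Finset.sum_comm]
    refine Finset.sum_congr rfl fun j _ => Finset.sum_congr rfl fun i _ => ?_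
    ring

end Pool.Agent.CB
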