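import Pool.Agent.CB.Defs

/-!
# Project CB: definitions for the convex part

`LC ν`: multiplicative Brunn-Minkowski inequality for midpoints.
`Rad s σ`: rotation invariant log-concave probability measures on `V s` with covariance the identity.
`RD s G`: radial log-concave densities on `V s`.
`Ub s`: the uniform measure on the unit ball.
`phk k x = ∫ cos (x * u 0) dU(u)`, `U` uniform on the unit ball of `V (k+1)`.
-/

set_option autoImplicit false

open MeasureTheory Set
open scoped ENNReal NNReal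

namespace Pool.Agent.CB

/-- Multiplicative Brunn-Minkowski inequality for midpoints. -/
def LC {E : Type} [AddCommGroup E] [Module ℝ E] [MeasurableSpace E] (ν : Measure E) : Prop :=
  ∀ A B C : Set E, MeasurableSet A → MeasurableSet B → MeasurableSet C →
    (∀ a ∈ A, ∀ b ∈ B, (1 / 2 : ℝ) • (a + b) ∈ C) → ν A * ν B ≤ ν C ^ 2

/-- Rotation invariant log-concave probability measures with covariance the identity. -/
structure Rad (s : ℕ) (σ : Measure (V s)) : Prop where
  prob : IsProbabilityMeasure σ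
  lc : LC σ
  inv : ∀ O : V s ≃ₗᵢ[ℝ] V s, σ.map O = σ
  mom : ∫⁻ w, ‖w‖ₑ ^ (2 : ℝ) ∂σ = s

/-- Radial log-concave densities. -/
structure RD (s : ℕ) (G : V s → ℝ) : Prop where
  meas : Measurable G
  nonneg : ∀ v, 0 ≤ G v
  rad : ∀ v w, ‖v‖ = ‖w‖ → G v = G w
  mid : ∀ v w, G v * G w ≤ G ((1 / 2 : ℝ) • (v + w)) ^ 2
  mass : ∫⁻ v, ENNReal.ofReal (G v) = 1
  mom0 : (s : ℝ≥0∞) ≤ ∫⁻ v, ‖v‖ₑ ^ (2 : ℝ) * ENNReal.ofReal (G v)
  mom1 : ∫⁻ v, ‖v‖ₑ ^ (2 : ℝ) * ENNReal.ofReal (G v) ≤ (s : ℝ≥0∞) + 1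

/-- The density of `σ` smoothed by the uniform measure on the ball of radius `ε`. -/
noncomputable def Gd {s : ℕ} (σ : Measure (V s)) (ε : ℝ) (v : V s) : ℝ :=
  (σ (Metric.ball v ε)).toReal / (volume (Metric.ball (0 : V s) ε)).toReal

/-- The uniform measure on the unit ball. -/
noncomputable def Ub (s : ℕ) : Measure (V s) := MX.unif (Metric.ball (0 : V s) 1)

/-- The Fourier transform of the uniform measure on the unit ball of `V (k+1)`. -/
noncomputable def phk (k : ℕ) (x : ℝ) : ℝ := ∫ u, Real.cos (x * u 0) ∂(Ub (k + 1))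

/-- A probability measure on the radii representing the density `G` as a mixture of balls. -/
structure Mix {s : ℕ} (G : V s → ℝ) (τ : Measure ℝ) : Prop where
  prob : IsProbabilityMeasure τ
  pos : τ (Iic 0) = 0
  eq : ∀ F : V s → ℝ≥0∞, Measurable F →
    ∫⁻ v, F v * ENNReal.ofReal (G v) = ∫⁻ b, ∫⁻ u, F (b • u) ∂(Ub s) ∂τ

/-- The normalised situation: `ν` is symmetric, log-concave, isotropic, invariant under the
anticommuting orthogonal complex structures `J i` and their unit linear combinations. -/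
structure CN (k : ℕ) {n : ℕ} (ν : Measure (V n)) (J : Fin k → V n →ₗ[ℝ] V n) : Prop where
  sym : SymP ν
  lc : LC ν
  int : ∀ ξ : V n, Integrable (fun y => inner ℝ ξ y ^ 2) ν
  iso : ∀ ξ : V n, ∫ y, inner ℝ ξ y ^ 2 ∂ν = ‖ξ‖ ^ 2
  sq : ∀ i x, J i (J i x) = -x
  anti : ∀ i j, i ≠ j → ∀ x, J i (J j x) = -J j (J i x)
  skew : ∀ i x y, inner ℝ (J i x) y = -inner ℝ x (J i y)
  inv : ∀ (a0 : ℝ) (a : Fin k → ℝ), a0 ^ 2 + ∑ i, a i ^ 2 = 1 →
    ν.map (fun y => a0 • y + ∑ i, a i • J i y) = ν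

/-- The projection to the span of `ξ, J i ξ`. -/
noncomputable def Pm {k n : ℕ} (J : Fin k → V n →ₗ[ℝ] V n) (ξ : V n) (y : V n) : V (k + 1) :=
  WithLp.toLp 2 (Fin.cons (inner ℝ ξ y) fun i => inner ℝ (J i ξ) y)

/-- Anticommuting complex structures on a vector space. -/
structure Cliff {E : Type} [AddCommGroup E] [Module ℝ E] (k : ℕ) (J : Fin k → E →ₗ[ℝ] E) :
    Prop where
  sq : ∀ i x, J i (J i x) = -x
  anti : ∀ i j, i ≠ j → ∀ x, J i (J j x) = -J j (J i x)

end Pool.Agent.CB
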