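import Pool.Agent.CB.CDefs

/-!
# CB-CliA: unit elements preserve the uniform measure

* `cliff_mul`: `(a0 - ∑ a i J i) (a0 + ∑ a i J i) x = x` if `a0^2 + ∑ a i^2 = 1` (the mixed terms cancel by
  `anti`).
* `unif_inv`: the linear map `u = a0 + ∑ a i J i` maps `K` into `K`, its inverse `a0 - ∑ a i J i` too (`hinv` with
  `-a`), so `u '' K = K`; hence `|det u| * volume K = volume K` (`Measure.addHaar_image_linearMap`),
  `0 < volume K < ∞`, `|det u| = 1`, so `u` preserves
  the volume (`MeasureTheory.Measure.map_linearMap_addHaar_eq_smul_addHaar`) and `unif K`.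
-/

set_option autoImplicit false

open MeasureTheory Set
open scoped ENNReal NNReal

namespace Pool.Agent.CB

private theorem double_sum {E : Type} [AddCommGroup E] [Module ℝ E] {k : ℕ}
    {J : Fin k → E →ₗ[ℝ] E} (hJ : Cliff k J) (a : Fin k → ℝ) (x : E) :
    ∑ i, ∑ j, (a i * a j) • J i (J j x) = -((∑ i, a i ^ 2) • x) := by
  have h1 : ∑ i, ∑ j, (a i * a j) • J i (J j x) + ∑ i, ∑ j, (a i * a j) • J j (J i x) =
      (-2 : ℝ) • ((∑ i, a i ^ 2) • x) := by
    rw [← Finset.sum_add_distrib]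
    have h2 : ∀ i ∈ (Finset.univ : Finset (Fin k)),
        (∑ j, (a i * a j) • J i (J j x) + ∑ j, (a i * a j) • J j (J i x)) =
        (-2 * a i ^ 2) • x := by
      intro i _
      rw [← Finset.sum_add_distrib]
      rw [Finset.sum_eq_single i]
      · rw [hJ.sq i x]
        module
      · intro j _ hji
        rw [hJ.anti i j (Ne.symm hji) x]
        module
      · intro h
        exact absurd (Finset.mem_univ i) h
    rw [Finset.sum_congr rfl h2, ← Finset.sum_smul, ← Finset.mul_sum, mul_smul]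
  have h3 : ∑ i, ∑ j, (a i * a j) • J j (J i x) = ∑ i, ∑ j, (a i * a j) • J i (J j x) := by
    rw [Finset.sum_comm]
    refine Finset.sum_congr rfl fun i _ => Finset.sum_congr rfl fun j _ => ?_
    rw [mul_comm]
  rw [h3] at h1
  have h4 : (2 : ℝ) • ∑ i, ∑ j, (a i * a j) • J i (J j x) =
      (-2 : ℝ) • ((∑ i, a i ^ 2) • x) := by
    rw [← h1, two_smul]
  have h5 : ∑ i, ∑ j, (a i * a j) • J i (J j x) =
      (1 / 2 : ℝ) • ((2 : ℝ) • ∑ i, ∑ j, (a i * a j) • J i (J j x)) := by
    rw [smul_smul]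
    norm_num
  rw [h5, h4, smul_smul]
  module

theorem cliff_mul {E : Type} [AddCommGroup E] [Module ℝ E] {k : ℕ} {J : Fin k → E →ₗ[ℝ] E}
    (hJ : Cliff k J) {a0 : ℝ} {a : Fin k → ℝ} (ha : a0 ^ 2 + ∑ i, a i ^ 2 = 1) (x : E) :
    a0 • (a0 • x + ∑ j, a j • J j x) - ∑ i, a i • J i (a0 • x + ∑ j, a j • J j x) = x := by
  have h1 : ∑ i, a i • J i (a0 • x + ∑ j, a j • J j x) =
      a0 • (∑ j, a j • J j x) + ∑ i, ∑ j, (a i * a j) • J i (J j x) := by
    rw [Finset.smul_sum, ← Finset.sum_add_distrib]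
    refine Finset.sum_congr rfl fun i _ => ?_
    rw [map_add, map_smul, map_sum, smul_add, Finset.smul_sum]
    congr 1
    · rw [smul_smul, smul_smul, mul_comm]
    · refine Finset.sum_congr rfl fun j _ => ?_
      rw [map_smul, smul_smul]
  rw [h1, double_sum hJ a x]
  have h2 : x = (a0 ^ 2 + ∑ i, a i ^ 2) • x := by rw [ha, one_smul]
  nth_rewrite 5 [h2]
  module

private theorem cliff_mul' {E : Type} [AddCommGroup E] [Module ℝ E] {k : ℕ}
    {J : Fin k → E →ₗ[ℝ] E}
    (hJ : Cliff k J) {a0 : ℝ} {a : Fin k → ℝ} (ha : a0 ^ 2 + ∑ i, a i ^ 2 = 1) (x : E) :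
    a0 • (a0 • x - ∑ j, a j • J j x) + ∑ i, a i • J i (a0 • x - ∑ j, a j • J j x) = x := by
  have ha' : a0 ^ 2 + ∑ i, (fun i => -a i) i ^ 2 = 1 := by
    simpa using ha
  have h := cliff_mul hJ ha' x
  simp only [neg_smul, Finset.sum_neg_distrib, sub_neg_eq_add] at h
  rw [← sub_eq_add_neg] at h
  exact h

theorem unif_inv {k n : ℕ} {J : Fin k → (Fin n → ℝ) →ₗ[ℝ] (Fin n → ℝ)} (hJ : Cliff k J)
    {K : Set (Fin n → ℝ)} (hK : IsCompact K) (hi : (interior K).Nonempty)
    (hinv : ∀ (a0 : ℝ) (a : Fin k → ℝ), a0 ^ 2 + ∑ i, a i ^ 2 = 1 →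
      ∀ x ∈ K, a0 • x + ∑ i, a i • J i x ∈ K)
    {a0 : ℝ} {a : Fin k → ℝ} (ha : a0 ^ 2 + ∑ i, a i ^ 2 = 1) :
    (MX.unif K).map (fun y => a0 • y + ∑ i, a i • J i y) = MX.unif K := by
  let u : (Fin n → ℝ) →ₗ[ℝ] (Fin n → ℝ) := a0 • LinearMap.id + ∑ i, a i • J i
  let w : (Fin n → ℝ) →ₗ[ℝ] (Fin n → ℝ) := a0 • LinearMap.id - ∑ i, a i • J i
  have hu : ∀ x, u x = a0 • x + ∑ i, a i • J i x := by
    intro x
    simp [u, LinearMap.sum_apply]
  have hw : ∀ x, w x = a0 • x - ∑ i, a i • J i x := by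
    intro x
    simp [w, LinearMap.sum_apply]
  have hwu : ∀ x, w (u x) = x := by
    intro x
    rw [hw, hu]
    exact cliff_mul hJ ha x
  have huw : ∀ x, u (w x) = x := by
    intro x
    rw [hu, hw]
    exact cliff_mul' hJ ha x
  let e : (Fin n → ℝ) ≃ₗ[ℝ] (Fin n → ℝ) := LinearEquiv.ofLinearMap u w
    (LinearMap.ext huw) (LinearMap.ext hwu)
  have hefun : (fun y => a0 • y + ∑ i, a i • J i y) = (e : (Fin n → ℝ) → (Fin n → ℝ)) := by
    funext y
    exact (hu y).symm
  have heK : (e : (Fin n → ℝ) → (Fin n → ℝ)) ⁻¹' K = K := by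
    ext x
    constructor
    · intro hx
      have h1 : w (u x) ∈ K := by
        rw [hw]
        have h2 := hinv a0 (fun i => -a i) (by simpa using ha) (u x) hx
        simp only [neg_smul, Finset.sum_neg_distrib] at h2
        rw [← sub_eq_add_neg] at h2
        exact h2
      rw [hwu] at h1
      exact h1
    · intro hx
      show u x ∈ K
      rw [hu]
      exact hinv a0 a ha x hx
  have hvol0 : volume K ≠ 0 := by
    intro h0
    have h1 : volume (interior K) = 0 := measure_mono_null interior_subset h0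
    exact (isOpen_interior.measure_pos volume hi).ne' h1
  have hvolt : volume K ≠ ∞ := hK.measure_lt_top.ne
  have hemap : Measure.map (e : (Fin n → ℝ) → (Fin n → ℝ)) volume =
      (volume : Measure (Fin n → ℝ)) := by
    have h1 := Measure.map_linearMap_addHaar_eq_smul_addHaar
      (volume : Measure (Fin n → ℝ)) (f := u) (by
        have h2 : IsUnit (LinearMap.det u) := by
          have h3 := LinearEquiv.isUnit_det' e
          exact h3
        exact h2.ne_zero)
    have h4 : Measure.map (e : (Fin n → ℝ) → (Fin n → ℝ)) volume =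
        ENNReal.ofReal |(LinearMap.det u)⁻¹| • (volume : Measure (Fin n → ℝ)) := h1
    have hme : Measurable (e : (Fin n → ℝ) → (Fin n → ℝ)) :=
      (LinearMap.continuous_of_finiteDimensional u).measurable
    have h5 : Measure.map (e : (Fin n → ℝ) → (Fin n → ℝ)) volume K = volume K := by
      rw [Measure.map_apply hme hK.measurableSet, heK]
    rw [h4] at h5
    rw [Measure.smul_apply, smul_eq_mul] at h5
    have h6 : ENNReal.ofReal |(LinearMap.det u)⁻¹| = 1 := by
      have h7 : ENNReal.ofReal |(LinearMap.det u)⁻¹| * volume K = 1 * volume K := by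
        rw [h5, one_mul]
      exact (ENNReal.mul_left_inj hvol0 hvolt).1 h7
    rw [h4, h6, one_smul]
  rw [hefun]
  unfold MX.unif
  have hme : Measurable (e : (Fin n → ℝ) → (Fin n → ℝ)) :=
      (LinearMap.continuous_of_finiteDimensional u).measurable
  rw [Measure.map_smul]
  congr 1
  have h8 := Measure.restrict_map (μ := (volume : Measure (Fin n → ℝ))) hme hK.measurableSet
  rw [heK, hemap] at h8
  exact h8.symm

end Pool.Agent.CB
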