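import Mathlib

/-!
# CB-CliM: Clifford matrices

Induction on `k`, `D ↦ 2 D`: `J' i = fromBlocks (J i) 0 0 (-J i)` for `i < k`, `J' k = fromBlocks 0 (-1) 1 0`, reindexed by
`finSumFinEquiv : Fin D ⊕ Fin D ≃ Fin (D + D)`.
-/

set_option autoImplicit false

namespace Pool.Agent.CB

open Matrix in
private theorem exists_clifford_aux (k : ℕ) :
    ∃ (n : Type) (_ : Fintype n) (_ : DecidableEq n) (_ : Nonempty n)
      (J : Fin k → Matrix n n ℝ),
      (∀ i, (J i).transpose = -J i) ∧ (∀ i, J i * J i = -1) ∧
      ∀ i j, i ≠ j → J i * J j = -(J j * J i) := by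
  induction k with
  | zero => exact ⟨Unit, inferInstance, inferInstance, inferInstance, fun i => i.elim0,
      fun i => i.elim0, fun i => i.elim0, fun i => i.elim0⟩
  | succ k ih =>
    obtain ⟨n, _, _, _, J, h1, h2, h3⟩ := ih
    have a1 : ∀ i, fromBlocks (J i) 0 0 (-J i) * fromBlocks 0 (-1) 1 0
        = -(fromBlocks 0 (-1) 1 0 * fromBlocks (J i) 0 0 (-J i)) := by
      intro i
      rw [fromBlocks_multiply, fromBlocks_multiply, fromBlocks_neg]
      simp
    refine ⟨n ⊕ n, inferInstance, inferInstance, inferInstance,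
      Fin.cons (fromBlocks 0 (-1) 1 0) (fun i => fromBlocks (J i) 0 0 (-J i)), ?_, ?_, ?_⟩
    · refine Fin.cases ?_ ?_
      · rw [Fin.cons_zero, fromBlocks_transpose, fromBlocks_neg]
        simp
      · intro i
        rw [Fin.cons_succ, fromBlocks_transpose, fromBlocks_neg]
        simp [h1]
    · refine Fin.cases ?_ ?_
      · rw [Fin.cons_zero, fromBlocks_multiply, ← fromBlocks_one, fromBlocks_neg]
        simp
      · intro i
        rw [Fin.cons_succ, fromBlocks_multiply, ← fromBlocks_one, fromBlocks_neg]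
        simp [h2]
    · refine Fin.cases ?_ ?_
      · refine Fin.cases ?_ ?_
        · intro h
          exact absurd rfl h
        · intro j _
          rw [Fin.cons_zero, Fin.cons_succ, a1, neg_neg]
      · intro i
        refine Fin.cases ?_ ?_
        · intro _
          rw [Fin.cons_zero, Fin.cons_succ, a1]
        · intro j hij
          have hij' : i ≠ j := fun h => hij (by rw [h])
          rw [Fin.cons_succ, Fin.cons_succ, fromBlocks_multiply, fromBlocks_multiply,
            fromBlocks_neg]
          simp [h3 i j hij']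

theorem exists_clifford (k : ℕ) :
    ∃ (D : ℕ) (J : Fin k → Matrix (Fin D) (Fin D) ℝ), 1 ≤ D ∧
      (∀ i, (J i).transpose = -J i) ∧ (∀ i, J i * J i = -1) ∧
      ∀ i j, i ≠ j → J i * J j = -(J j * J i) := by
  obtain ⟨n, _, _, _, J, h1, h2, h3⟩ := exists_clifford_aux k
  refine ⟨Fintype.card n, fun i => Matrix.reindexAlgEquiv ℝ ℝ (Fintype.equivFin n) (J i),
    Fintype.card_pos, ?_, ?_, ?_⟩
  · intro i
    change (Matrix.reindex (Fintype.equivFin n) (Fintype.equivFin n) (J i)).transpose
      = -(Matrix.reindexAlgEquiv ℝ ℝ (Fintype.equivFin n) (J i))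
    rw [Matrix.transpose_reindex, h1, ← map_neg]
    rfl
  · intro i
    rw [← map_mul, h2, map_neg, map_one]
  · intro i j hij
    rw [← map_mul, ← map_mul, ← map_neg, h3 i j hij]

end Pool.Agent.CB
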