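import Pool.Agent.CB.LCu
import Pool.Agent.CB.IsoPos
import Pool.Agent.CB.CliA

/-!
# CB-CliN: normalisation of bodies with Clifford symmetry

`T` from `exists_iso`, `ν = (unif K).map T`, `J' i = T ∘ J i ∘ T⁻¹`. `LC`: `lc_unif`, `LC.map`.
`int`, `iso`: `integral_map`. `u' = a0 + ∑ a i J' i = T u T⁻¹`, so `ν.map u' = ν` by `unif_inv` (`Measure.map_map`). With
`w = LinearMap.adjoint u'`: `‖w ξ‖^2 = ∫ ⟨w ξ, y⟩^2 dν = ∫ ⟨ξ, u' y⟩^2 dν = ∫ ⟨ξ, y⟩^2 dν = ‖ξ‖^2`. For `u' = J' i`
(`a0 = 0`, `a = Pi.single i 1`): `w` is a linear isometry of a finite-dimensional space, so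
`adjoint w ∘ w = id`, i.e. `J' i (w x) = x`, hence `w x = - J' i (J' i (w x)) = -J' i x`, which is `skew`.
Symmetry of `ν`: `a0 = -1`, `a = 0`. `isProb`: `0 < volume K < ∞`.
-/

set_option autoImplicit false

open MeasureTheory Set
open scoped ENNReal NNReal

namespace Pool.Agent.CB

private theorem prob_unif {n : ℕ} {K : Set (Fin n → ℝ)} (hK : IsCompact K)
    (hi : (interior K).Nonempty) : IsProbabilityMeasure (MX.unif K) := by
  constructor
  have h0 : volume K ≠ 0 := by
    intro h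
    have h1 : volume (interior K) ≤ volume K := measure_mono interior_subset
    have h2 : 0 < volume (interior K) := isOpen_interior.measure_pos volume hi
    rw [h] at h1
    exact absurd (lt_of_lt_of_le h2 h1) (lt_irrefl _)
  have ht : volume K ≠ ∞ := hK.measure_lt_top.ne
  unfold MX.unif
  rw [Measure.smul_apply, Measure.restrict_apply_univ, smul_eq_mul]
  exact ENNReal.inv_mul_cancel h0 ht

private theorem skew_of {n : ℕ} {ν : Measure (V n)}
    (iso : ∀ ξ : V n, ∫ y, inner ℝ ξ y ^ 2 ∂ν = ‖ξ‖ ^ 2) (U : V n →ₗ[ℝ] V n)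
    (hU : ν.map (fun y => U y) = ν) (hsq : ∀ x, U (U x) = -x) (x y : V n) :
    inner ℝ (U x) y = -inner ℝ x (U y) := by
  have hUc : Continuous (fun y : V n => U y) := U.continuous_of_finiteDimensional
  have hnorm : ∀ ξ : V n, ‖LinearMap.adjoint U ξ‖ = ‖ξ‖ := by
    intro ξ
    have h1 : ‖LinearMap.adjoint U ξ‖ ^ 2 = ‖ξ‖ ^ 2 := by
      rw [← iso (LinearMap.adjoint U ξ), ← iso ξ]
      conv_rhs => rw [← hU]
      have hm : AEStronglyMeasurable (fun y : V n => (inner ℝ ξ y : ℝ) ^ 2)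
          (ν.map (fun y => U y)) :=
        ((continuous_const.inner continuous_id).pow 2).aestronglyMeasurable
      rw [integral_map hUc.measurable.aemeasurable hm]
      refine integral_congr_ae (Filter.Eventually.of_forall fun z => ?_)
      dsimp only
      rw [LinearMap.adjoint_inner_left]
    have h2 := abs_eq_abs.2 (sq_eq_sq_iff_eq_or_eq_neg.1 h1)
    rwa [abs_of_nonneg (norm_nonneg _), abs_of_nonneg (norm_nonneg _)] at h2
  let W : V n →ₗᵢ[ℝ] V n := ⟨LinearMap.adjoint U, hnorm⟩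
  have hW : ∀ b, U (LinearMap.adjoint U b) = b := by
    intro b
    refine ext_inner_left ℝ fun a => ?_
    rw [← LinearMap.adjoint_inner_left]
    exact W.inner_map_map a b
  have hw : ∀ b, LinearMap.adjoint U b = -U b := by
    intro b
    have h1 := hsq (LinearMap.adjoint U b)
    rw [hW] at h1
    rw [h1, neg_neg]
  rw [← LinearMap.adjoint_inner_right, hw, inner_neg_right]

theorem exists_CN {k n : ℕ} {J : Fin k → (Fin n → ℝ) →ₗ[ℝ] (Fin n → ℝ)} (hJ : Cliff k J)
    {K : Set (Fin n → ℝ)} (hK : IsCompact K) (hc : Convex ℝ K) (hi : (interior K).Nonempty)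
    (hinv : ∀ (a0 : ℝ) (a : Fin k → ℝ), a0 ^ 2 + ∑ i, a i ^ 2 = 1 →
      ∀ x ∈ K, a0 • x + ∑ i, a i • J i x ∈ K) :
    ∃ (T : (Fin n → ℝ) ≃L[ℝ] V n) (J' : Fin k → V n →ₗ[ℝ] V n),
      CN k ((MX.unif K).map T) J' := by
  obtain ⟨T, hT1, hT2⟩ := exists_iso hK hi
  set J' : Fin k → V n →ₗ[ℝ] V n := fun i =>
    ((T : (Fin n → ℝ) ≃ₗ[ℝ] V n) : (Fin n → ℝ) →ₗ[ℝ] V n) ∘ₗ J i ∘ₗ
      ((T.symm : V n ≃ₗ[ℝ] (Fin n → ℝ)) : V n →ₗ[ℝ] (Fin n → ℝ)) with hJ'
  have hJa : ∀ i y, J' i y = T (J i (T.symm y)) := fun i y => rfl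
  have hTm : Measurable (T : (Fin n → ℝ) → V n) := T.continuous.measurable
  have hprob : IsProbabilityMeasure (MX.unif K) := prob_unif hK hi
  have hprob2 : IsProbabilityMeasure ((MX.unif K).map T) :=
    Measure.isProbabilityMeasure_map hTm.aemeasurable
  have hcont : ∀ ξ : V n, Continuous (fun y : V n => (inner ℝ ξ y : ℝ) ^ 2) := fun ξ =>
    (continuous_const.inner continuous_id).pow 2
  have hint : ∀ ξ : V n, Integrable (fun y => inner ℝ ξ y ^ 2) ((MX.unif K).map T) := by
    intro ξ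
    rw [integrable_map_measure (hcont ξ).aestronglyMeasurable hTm.aemeasurable]
    exact hT1 ξ
  have hiso : ∀ ξ : V n, ∫ y, inner ℝ ξ y ^ 2 ∂((MX.unif K).map T) = ‖ξ‖ ^ 2 := by
    intro ξ
    rw [integral_map hTm.aemeasurable (hcont ξ).aestronglyMeasurable]
    exact hT2 ξ
  have hu : ∀ (a0 : ℝ) (a : Fin k → ℝ), a0 ^ 2 + ∑ i, a i ^ 2 = 1 →
      ((MX.unif K).map T).map (fun y => a0 • y + ∑ i, a i • J' i y) = (MX.unif K).map T := by
    intro a0 a ha
    have hc1 : Continuous (fun y : V n => a0 • y + ∑ i, a i • J' i y) := by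
      refine (continuous_const_smul a0).add (continuous_finsetSum _ fun i _ => ?_)
      exact (J' i).continuous_of_finiteDimensional.const_smul (a i)
    have hc2 : Continuous (fun y : Fin n → ℝ => a0 • y + ∑ i, a i • J i y) := by
      refine (continuous_const_smul a0).add (continuous_finsetSum _ fun i _ => ?_)
      exact (J i).continuous_of_finiteDimensional.const_smul (a i)
    rw [Measure.map_map hc1.measurable hTm]
    have e : (fun y : V n => a0 • y + ∑ i, a i • J' i y) ∘ T =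
        T ∘ (fun y : Fin n → ℝ => a0 • y + ∑ i, a i • J i y) := by
      funext y
      simp only [Function.comp_apply, hJa, ContinuousLinearEquiv.symm_apply_apply, map_add,
        map_smul, map_sum]
    rw [e, ← Measure.map_map hTm hc2.measurable, unif_inv hJ hK hi hinv ha]
  have hsq : ∀ i x, J' i (J' i x) = -x := by
    intro i x
    rw [hJa, hJa, ContinuousLinearEquiv.symm_apply_apply, hJ.sq, map_neg,
      ContinuousLinearEquiv.apply_symm_apply]
  refine ⟨T, J', ⟨hprob2, ?_⟩, ?_, hint, hiso, hsq, ?_, ?_, hu⟩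
  · have h1 := hu (-1) (fun _ => 0) (by simp)
    have e : (fun y : V n => (-1 : ℝ) • y + ∑ i, (0 : ℝ) • J' i y) = fun y => -y := by
      funext y
      simp
    rwa [e] at h1
  · exact (lc_unif hK.measurableSet hc).map
      ((T : (Fin n → ℝ) ≃ₗ[ℝ] V n) : (Fin n → ℝ) →ₗ[ℝ] V n) hTm
  · intro i j hij x
    rw [hJa, hJa, hJa, hJa, ContinuousLinearEquiv.symm_apply_apply,
      ContinuousLinearEquiv.symm_apply_apply, hJ.anti i j hij, map_neg]
  · intro i x y
    refine skew_of hiso (J' i) ?_ (hsq i) x y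
    have h1 := hu 0 (Pi.single i 1) (by
      rw [Finset.sum_eq_single i]
      · simp
      · intro j _ hj
        rw [Pi.single_eq_of_ne hj]
        ring
      · intro h
        exact absurd (Finset.mem_univ i) h)
    have e : (fun y : V n => (0 : ℝ) • y + ∑ j, (Pi.single i (1 : ℝ) : Fin k → ℝ) j • J' j y) =
        fun y => J' i y := by
      funext y
      rw [zero_smul, zero_add, Finset.sum_eq_single i]
      · rw [Pi.single_eq_same, one_smul]
      · intro j _ hj
        rw [Pi.single_eq_of_ne hj, zero_smul]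
      · intro h
        exact absurd (Finset.mem_univ i) h
    rwa [e] at h1

end Pool.Agent.CB
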