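import Pool.Agent.CB.LCu

/-!
# CB-CliR: the two-dimensional (or `(k+1)`-dimensional) marginals are radial

`⟨x, Pm J ξ y⟩ = x 0 ⟨ξ, y⟩ + ∑ x (i+1) ⟨J i ξ, y⟩ = ⟨x 0 ξ + ∑ x (i+1) J i ξ, y⟩`; for `x = r a`, `a` a unit vector,
this is `r ⟨ξ, (a 0 - ∑ a (i+1) J i) y⟩` by `skew`, which has the same law under `ν` as `r ⟨ξ, y⟩` by `inv`.
So the characteristic function of `σ = ν.map (Pm J ξ)` is a function of `‖x‖` only, and `σ.map O` has the
same characteristic function as `σ` for every isometry `O` (`Measure.ext_of_charFun`).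
`mom`: `‖Pm J ξ y‖^2 = ⟨ξ, y⟩^2 + ∑ ⟨J i ξ, y⟩^2` (`EuclideanSpace.norm_sq_eq`, `Fin.sum_univ_succ`), and
`‖J i ξ‖ = ‖ξ‖ = 1` by `skew` and `sq`.
-/

set_option autoImplicit false

open MeasureTheory Set
open scoped ENNReal NNReal

namespace Pool.Agent.CB

/-- `Pm` as a linear map -/
private noncomputable def PmL {k n : ℕ} (J : Fin k → V n →ₗ[ℝ] V n) (ξ : V n) :
    V n →ₗ[ℝ] V (k + 1) where
  toFun := Pm J ξ
  map_add' x y := by
    ext i
    refine Fin.cases ?_ (fun j => ?_) i
    · simp [Pm, inner_add_right]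
    · simp [Pm, inner_add_right]
  map_smul' a x := by
    ext i
    refine Fin.cases ?_ (fun j => ?_) i
    · simp [Pm, inner_smul_right]
    · simp [Pm, inner_smul_right]

theorem measurable_Pm {k n : ℕ} (J : Fin k → V n →ₗ[ℝ] V n) (ξ : V n) :
    Measurable (Pm J ξ) :=
  (PmL J ξ).continuous_of_finiteDimensional.measurable

private theorem inner_Pm {k n : ℕ} (J : Fin k → V n →ₗ[ℝ] V n) (ξ y : V n) (x : V (k + 1)) :
    inner ℝ (Pm J ξ y) x = x 0 * inner ℝ ξ y + ∑ i : Fin k, x i.succ * inner ℝ (J i ξ) y := by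
  rw [PiLp.inner_apply, Fin.sum_univ_succ]
  simp [Pm]

private theorem normsq_Pm {k n : ℕ} (J : Fin k → V n →ₗ[ℝ] V n) (ξ y : V n) :
    ‖Pm J ξ y‖ ^ 2 = inner ℝ ξ y ^ 2 + ∑ i : Fin k, inner ℝ (J i ξ) y ^ 2 := by
  rw [EuclideanSpace.norm_sq_eq, Fin.sum_univ_succ]
  simp [Pm]

theorem rad_Pm {k n : ℕ} {ν : Measure (V n)} {J : Fin k → V n →ₗ[ℝ] V n} (h : CN k ν J)
    {ξ : V n} (hξ : ‖ξ‖ = 1) : Rad (k + 1) (ν.map (Pm J ξ)) := by
  have hprob := h.sym.prob
  have hm := measurable_Pm J ξ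
  have hJm : ∀ i, Measurable (J i) := fun i =>
    (J i).continuous_of_finiteDimensional.measurable
  have hσ : IsProbabilityMeasure (ν.map (Pm J ξ)) := Measure.isProbabilityMeasure_map hm.aemeasurable
  have hJn : ∀ i, ‖J i ξ‖ = 1 := by
    intro i
    have h1 : ‖J i ξ‖ ^ 2 = 1 := by
      rw [← real_inner_self_eq_norm_sq, h.skew, h.sq, inner_neg_right, neg_neg,
        real_inner_self_eq_norm_sq, hξ, one_pow]
    have h2 := norm_nonneg (J i ξ)
    nlinarith
  -- characteristic function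
  have key : ∀ x : V (k + 1), charFun (ν.map (Pm J ξ)) x
      = ∫ y, Complex.exp ((‖x‖ * inner ℝ ξ y : ℝ) * Complex.I) ∂ν := by
    intro x
    rw [charFun_apply, integral_map hm.aemeasurable (by fun_prop)]
    simp only [inner_Pm]
    by_cases hx : x = 0
    · subst hx
      simp
    · have hR : 0 < ‖x‖ := norm_pos_iff.2 hx
      have hunit : (x 0 / ‖x‖) ^ 2 + ∑ i : Fin k, (-(x i.succ / ‖x‖)) ^ 2 = 1 := by
        have h1 : ‖x‖ ^ 2 = x 0 ^ 2 + ∑ i : Fin k, x i.succ ^ 2 := by
          rw [EuclideanSpace.norm_sq_eq, Fin.sum_univ_succ]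
          simp
        have h2 : ∑ i : Fin k, (-(x i.succ / ‖x‖)) ^ 2 = (∑ i : Fin k, x i.succ ^ 2) / ‖x‖ ^ 2 := by
          rw [Finset.sum_div]
          exact Finset.sum_congr rfl fun i _ => by rw [neg_sq, div_pow]
        rw [h2, div_pow, ← add_div, ← h1, div_self (by positivity)]
      have hinv := h.inv _ _ hunit
      have hTm : Measurable (fun y : V n => (x 0 / ‖x‖) • y + ∑ i : Fin k,
          (-(x i.succ / ‖x‖)) • J i y) := by
        have : ∀ i, Continuous (J i) := fun i => (J i).continuous_of_finiteDimensional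
        fun_prop
      conv_rhs => rw [← hinv]
      rw [integral_map hTm.aemeasurable (by fun_prop)]
      congr 1
      funext y
      congr 2
      have h3 : inner ℝ ξ ((x 0 / ‖x‖) • y + ∑ i : Fin k, (-(x i.succ / ‖x‖)) • J i y)
          = (x 0 / ‖x‖) * inner ℝ ξ y + ∑ i : Fin k, (x i.succ / ‖x‖) * inner ℝ (J i ξ) y := by
        rw [inner_add_right, inner_smul_right, inner_sum]
        congr 1
        refine Finset.sum_congr rfl fun i _ => ?_
        rw [inner_smul_right, h.skew]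
        ring
      rw [h3, mul_add, Finset.mul_sum]
      have h4 : ‖x‖ * (x 0 / ‖x‖ * inner ℝ ξ y) = x 0 * inner ℝ ξ y := by field_simp
      have h5 : ∀ i : Fin k, ‖x‖ * (x i.succ / ‖x‖ * inner ℝ (J i ξ) y)
          = x i.succ * inner ℝ (J i ξ) y := by intro i; field_simp
      simp only [h4, h5]
  refine ⟨hσ, h.lc.map (PmL J ξ) hm, fun O => ?_, ?_⟩
  · have hOm : Measurable O := O.continuous.measurable
    have : IsProbabilityMeasure ((ν.map (Pm J ξ)).map O) :=
      Measure.isProbabilityMeasure_map hOm.aemeasurable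
    refine Measure.ext_of_charFun ?_
    funext x
    have h1 : charFun ((ν.map (Pm J ξ)).map O) x = charFun (ν.map (Pm J ξ)) (O.symm x) := by
      rw [charFun_apply, integral_map hOm.aemeasurable (by fun_prop), charFun_apply]
      congr 1
      funext w
      have : inner ℝ (O w) x = inner ℝ w (O.symm x) := by
        conv_lhs => rw [← O.apply_symm_apply x]
        exact O.inner_map_map _ _
      rw [this]
    rw [h1, key, key, O.symm.norm_map]
  · rw [lintegral_map (by fun_prop) hm]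
    have h1 : ∀ y, ‖Pm J ξ y‖ₑ ^ (2 : ℝ) = ENNReal.ofReal (‖Pm J ξ y‖ ^ 2) := by
      intro y
      rw [← ofReal_norm, ENNReal.ofReal_rpow_of_nonneg (norm_nonneg _) (by norm_num)]
      norm_num
    simp only [h1]
    have hi : Integrable (fun y => ‖Pm J ξ y‖ ^ 2) ν := by
      simp only [normsq_Pm]
      exact (h.int ξ).add (integrable_finsetSum _ fun i _ => h.int (J i ξ))
    rw [← ofReal_integral_eq_lintegral_ofReal hi (Filter.Eventually.of_forall fun y => sq_nonneg _)]
    have h2 : ∫ y, ‖Pm J ξ y‖ ^ 2 ∂ν = (k + 1 : ℕ) := by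
      simp only [normsq_Pm]
      rw [integral_add (h.int ξ) (integrable_finsetSum _ fun i _ => h.int (J i ξ)),
        integral_finsetSum _ (fun i _ => h.int (J i ξ)), h.iso, hξ]
      simp only [h.iso, hJn]
      simp [add_comm]
    rw [h2, ENNReal.ofReal_natCast]

end Pool.Agent.CB
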