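import Pool.Agent.CB.DecB
import Pool.Agent.CB.CliR

/-!
# CB-DecC: decay for normalised measures with radial marginals

For `ξ ≠ 0`, `e = ξ/‖ξ‖`, `σ = ν.map P`: `ft ν (c • ξ) = ∫ cos (c ‖ξ‖ ⟨e, y⟩) dν = ∫ cos (c ‖ξ‖ w 0) dσ(w)`,
`w 0 = inner ℝ (EuclideanSpace.single 0 1) w`; `dec_Rad` with `r = ‖ξ‖` gives `d1`, `d2`. `ξ = 0`: in `d2` all terms are `1`
and the alternating sum of binomials vanishes (`N ≥ 1`). `d0`: `|1 - cos x| ≤ |x|`,
`∫ |⟨ξ, y⟩| ≤ (∫ ⟨ξ, y⟩^2)^(1/2) = ‖ξ‖`.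
-/

set_option autoImplicit false

open MeasureTheory Set
open scoped ENNReal NNReal

namespace Pool.Agent.CB

private theorem dc_dif_const {N : ℕ} (hN : 1 ≤ N) (c : ℝ) : dif N (fun _ => c) = 0 := by
  unfold dif
  rw [← Finset.sum_mul]
  have h := Int.alternating_sum_range_choose_of_ne (n := N) (by omega)
  have h2 : (∑ i ∈ Finset.range (N + 1), (-1 : ℝ) ^ i * (N.choose i : ℝ)) = 0 := by
    have := congrArg (Int.cast : ℤ → ℝ) h
    push_cast at this
    exact this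
  rw [h2, zero_mul]

private theorem dc_abs_cos_sub_one (x : ℝ) : |Real.cos x - 1| ≤ |x| := by
  have h := Real.abs_sin_sub_sin_le x 0
  have h1 : |Real.cos x - Real.cos 0| ≤ |x - 0| := Real.abs_cos_sub_cos_le x 0
  simpa using h1

theorem dec_of_rad {k N : ℕ} (hk : 1 ≤ k) (hN : ((k : ℝ) + 2) / 2 ≤ N)
    (hN' : (N : ℝ) ≤ ((k : ℝ) + 2) / 2 + 1) :
    ∃ K : ℝ, 0 < K ∧ ∀ (n : ℕ) (ν : Measure (V n)), SymP ν →
      (∀ ξ : V n, Integrable (fun y => inner ℝ ξ y ^ 2) ν) →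
      (∀ ξ : V n, ∫ y, inner ℝ ξ y ^ 2 ∂ν = ‖ξ‖ ^ 2) →
      (∀ ξ : V n, ‖ξ‖ = 1 → ∃ P : V n → V (k + 1), Measurable P ∧
        (∀ y, P y 0 = inner ℝ ξ y) ∧ Rad (k + 1) (ν.map P)) →
      Dec (((k : ℝ) + 2) / 2) N K ν := by
  obtain ⟨K, hK, h⟩ := dec_Rad hk hN hN'
  refine ⟨max K 1, lt_of_lt_of_le hK (le_max_left _ _), fun n ν hs hint hiso hP => ?_⟩
  have hN1 : 1 ≤ N := by
    have : (0 : ℝ) < N := by
      have : (0 : ℝ) ≤ k := Nat.cast_nonneg k
      linarith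
    exact_mod_cast this
  haveI := hs.prob
  -- the formula for the Fourier transform
  have key : ∀ ξ : V n, ξ ≠ 0 → ∃ σ : Measure (V (k + 1)), Rad (k + 1) σ ∧ ∀ c : ℝ,
      ft ν (c • ξ) =
        ∫ w, Real.cos (c * ‖ξ‖ * inner ℝ (EuclideanSpace.single (0 : Fin (k + 1)) (1 : ℝ)) w) ∂σ := by
    intro ξ hξ
    have hn : 0 < ‖ξ‖ := norm_pos_iff.2 hξ
    obtain ⟨P, hPm, hP0, hPr⟩ := hP (‖ξ‖⁻¹ • ξ) (by
      rw [norm_smul, norm_inv, norm_norm, inv_mul_cancel₀ hn.ne'])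
    refine ⟨ν.map P, hPr, fun c => ?_⟩
    rw [integral_map hPm.aemeasurable]
    · unfold ft
      refine integral_congr_ae (Filter.Eventually.of_forall fun y => ?_)
      simp only
      congr 1
      rw [EuclideanSpace.inner_single_left, hP0 y, inner_smul_left, inner_smul_left]
      simp only [conj_trivial, map_one, one_mul, map_inv₀]
      field_simp
    · refine Continuous.aestronglyMeasurable ?_
      fun_prop
  refine ⟨hs, ?_, ?_, ?_⟩
  · -- d0
    intro ξ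
    by_cases hξ : ξ = 0
    · subst hξ
      unfold ft
      simp
    have hn : 0 < ‖ξ‖ := norm_pos_iff.2 hξ
    have hci : Integrable (fun y => Real.cos (inner ℝ ξ y)) ν := by
      refine Integrable.of_bound (C := 1) ?_ (Filter.Eventually.of_forall fun y => ?_)
      · exact Continuous.aestronglyMeasurable (by fun_prop)
      · rw [Real.norm_eq_abs]; exact Real.abs_cos_le_one _
    have h1 : ft ν ξ - 1 = ∫ y, (Real.cos (inner ℝ ξ y) - 1) ∂ν := by
      unfold ft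
      rw [integral_sub hci (integrable_const _)]
      simp
    rw [h1]
    have h2 : Integrable (fun y => (inner ℝ ξ y ^ 2 / ‖ξ‖ + ‖ξ‖) / 2) ν := by
      have := (((hint ξ).div_const ‖ξ‖).add (integrable_const ‖ξ‖)).div_const 2
      exact this
    calc |∫ y, (Real.cos (inner ℝ ξ y) - 1) ∂ν|
        ≤ ∫ y, |Real.cos (inner ℝ ξ y) - 1| ∂ν := by
          have := norm_integral_le_integral_norm (μ := ν) (fun y => Real.cos (inner ℝ ξ y) - 1)
          simpa [Real.norm_eq_abs] using this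
      _ ≤ ∫ y, (inner ℝ ξ y ^ 2 / ‖ξ‖ + ‖ξ‖) / 2 ∂ν := by
          refine integral_mono (hci.sub (integrable_const _)).abs h2 fun y => ?_
          simp only
          refine (dc_abs_cos_sub_one _).trans ?_
          have h3 : 0 ≤ (|inner ℝ ξ y| - ‖ξ‖) ^ 2 := sq_nonneg _
          have h4 : |(inner ℝ ξ y : ℝ)| ^ 2 = (inner ℝ ξ y : ℝ) ^ 2 := sq_abs _
          rw [le_div_iff₀ (by norm_num), ← sub_nonneg]
          have h5 : (inner ℝ ξ y : ℝ) ^ 2 / ‖ξ‖ + ‖ξ‖ - |(inner ℝ ξ y : ℝ)| * 2 =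
              (|(inner ℝ ξ y : ℝ)| - ‖ξ‖) ^ 2 / ‖ξ‖ := by
            rw [← h4]
            field_simp
            ring
          rw [h5]
          positivity
      _ = ‖ξ‖ := by
          rw [integral_div, integral_add ((hint ξ).div_const _) (integrable_const _), integral_div,
            hiso ξ]
          simp only [integral_const, probReal_univ, one_smul, smul_eq_mul]
          field_simp
          ring
      _ ≤ max K 1 * ‖ξ‖ := by
          have := le_max_right K 1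
          nlinarith
  · -- d1
    intro ξ hξ
    have hn : 0 < ‖ξ‖ := norm_pos_iff.2 hξ
    obtain ⟨σ, hσ, hf⟩ := key ξ hξ
    have h1 := (h σ hσ (EuclideanSpace.single 0 1) (by simp)).1 ‖ξ‖ hn
    have h2 := hf 1
    rw [one_smul, one_mul] at h2
    rw [h2]
    refine h1.trans ?_
    gcongr
    exact le_max_left _ _
  · -- d2
    intro ξ t ht0 ht1
    by_cases hξ : ξ = 0
    · subst hξ
      simp only [smul_zero]
      rw [dc_dif_const hN1, abs_zero]
      have : 0 ≤ bet (((k : ℝ) + 2) / 2) N ‖(0 : V n)‖ := by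
        unfold bet
        simp
      positivity
    have hn : 0 < ‖ξ‖ := norm_pos_iff.2 hξ
    obtain ⟨σ, hσ, hf⟩ := key ξ hξ
    have h1 := (h σ hσ (EuclideanSpace.single 0 1) (by simp)).2 ‖ξ‖ hn.le t ht0 ht1
    have h2 : (fun i : ℕ => ft ν (Real.exp (i * t) • ξ)) = fun i : ℕ =>
        ∫ w, Real.cos (Real.exp (i * t) * ‖ξ‖ *
          inner ℝ (EuclideanSpace.single (0 : Fin (k + 1)) (1 : ℝ)) w) ∂σ := by
      funext i
      exact hf _
    rw [h2]
    refine h1.trans ?_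
    have hb : 0 ≤ bet (((k : ℝ) + 2) / 2) N ‖ξ‖ := by
      unfold bet
      split_ifs
      · exact hn.le
      · positivity
    gcongr
    exact le_max_left _ _

theorem dec_CN {k N : ℕ} (hk : 1 ≤ k) (hN : ((k : ℝ) + 2) / 2 ≤ N)
    (hN' : (N : ℝ) ≤ ((k : ℝ) + 2) / 2 + 1) :
    ∃ K : ℝ, 0 < K ∧ ∀ (n : ℕ) (ν : Measure (V n)) (J : Fin k → V n →ₗ[ℝ] V n), CN k ν J →
      Dec (((k : ℝ) + 2) / 2) N K ν := by
  obtain ⟨K, hK, h⟩ := dec_of_rad hk hN hN'
  refine ⟨K, hK, fun n ν J hν => h n ν hν.sym hν.int hν.iso fun ξ hξ => ?_⟩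
  refine ⟨Pm J ξ, measurable_Pm J ξ, fun y => ?_, rad_Pm hν hξ⟩
  simp [Pm]

end Pool.Agent.CB
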