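import Pool.Agent.CB.Main
import Pool.Agent.CB.DecC
import Pool.Agent.CB.CliN
import Pool.Agent.MX.Push
import Pool.Agent.MX.Conv2

/-!
# CB-Cor: the maximal theorem for bodies with Clifford symmetry

`p > 1 + 1/(k+2)`: `a = (k+2)/2` satisfies `1 < 2 a (p-1)`. `N = ⌈a⌉₊`. From `exists_CN`, `dec_CN`, `criterion`:
`BddF p C ((unif K).map T)`. Push forward by `T⁻¹` (`MX.bddF_map`): `BddF p C (unif K)`; `MX.bdd_of_bddF`
(`K` is star-shaped around `0`: convex and symmetric, so `0 ∈ K`).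
-/

set_option autoImplicit false

open MeasureTheory Set
open scoped ENNReal NNReal

namespace Pool.Agent.CB

/-- Transference from the normalised image of a body to the body. -/
theorem bdd_of_map {E : Type} [NormedAddCommGroup E] [NormedSpace ℝ E] [FiniteDimensional ℝ E]
    [MeasureSpace E] [BorelSpace E] [Measure.IsAddHaarMeasure (volume : Measure E)] {N : ℕ}
    {p : ℝ} (hp : 0 < p) {C : ℝ≥0∞} {K : Set E} (hK : IsCompact K) (hc : Convex ℝ K)
    (hi : (interior K).Nonempty) (h0 : (0 : E) ∈ K) (T : E ≃L[ℝ] V N)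
    (h : MX.BddF p C ((MX.unif K).map T)) : MX.Bdd p C K := by
  have hv0 : volume K ≠ 0 := by
    have h1 : 0 < volume (interior K) := isOpen_interior.measure_pos _ hi
    exact (h1.trans_le (measure_mono interior_subset)).ne'
  have hv1 : volume K ≠ ∞ := hK.measure_lt_top.ne
  haveI : IsFiniteMeasure (MX.unif K) := by
    refine ⟨?_⟩
    simp only [MX.unif, Measure.smul_apply, Measure.restrict_apply MeasurableSet.univ, univ_inter,
      smul_eq_mul]
    exact ENNReal.mul_lt_top (ENNReal.inv_lt_top.2 (pos_iff_ne_zero.2 hv0)) hv1.lt_top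
  have hTm : Measurable T := T.continuous.measurable
  haveI : IsFiniteMeasure ((MX.unif K).map T) := inferInstance
  obtain ⟨R, hR⟩ : ∃ R : ℝ, ∀ y ∈ K, ‖T y‖ ≤ R := by
    obtain ⟨R, hR⟩ := (hK.image T.continuous).isBounded.exists_norm_le
    exact ⟨R, fun y hy => hR _ (mem_image_of_mem _ hy)⟩
  have hbd : ((MX.unif K).map T) {y | R < ‖y‖} = 0 := by
    rw [Measure.map_apply hTm (measurableSet_lt measurable_const measurable_norm)]
    have : (MX.unif K) (T ⁻¹' {y | R < ‖y‖}) = (volume K)⁻¹ * volume (T ⁻¹' {y | R < ‖y‖} ∩ K) := by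
      simp only [MX.unif, Measure.smul_apply, smul_eq_mul]
      rw [Measure.restrict_apply]
      exact hTm (measurableSet_lt measurable_const measurable_norm)
    rw [this]
    have h2 : T ⁻¹' {y | R < ‖y‖} ∩ K = ∅ := by
      ext y
      simp only [mem_inter_iff, mem_preimage, mem_setOf_eq, mem_empty_iff_false, iff_false,
        not_and]
      intro h1 h2
      exact absurd (hR y h2) (not_le.2 h1)
    rw [h2, measure_empty, mul_zero]
  have h3 := MX.bddF_map (T.symm : V N →L[ℝ] E).toLinearMap hp hbd h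
  have h4 : ((MX.unif K).map T).map (T.symm : V N →L[ℝ] E).toLinearMap = MX.unif K := by
    rw [Measure.map_map _ hTm]
    · have : (⇑(T.symm : V N →L[ℝ] E).toLinearMap ∘ ⇑T) = id := by
        funext y
        simp
      rw [this, Measure.map_id]
    · exact (T.symm : V N →L[ℝ] E).continuous.measurable
  rw [h4] at h3
  refine MX.bdd_of_bddF hp hv0 hv1 (fun y hy s hs0 hs1 => ?_) h3
  have h5 := hc hy h0 hs0 (sub_nonneg.2 hs1) (by ring)
  simpa using h5

/-- The criterion for normalised measures with Fourier decay of order `(k+2)/2`. -/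
theorem rg_k {k : ℕ} (hk : 1 ≤ k) {p K : ℝ} (hK : 0 ≤ K) (hp : 1 + 1 / ((k : ℝ) + 2) < p)
    (hp2 : p ≤ 2) : Rg (((k : ℝ) + 2) / 2) ⌈((k : ℝ) + 2) / 2⌉₊ K p := by
  have hk0 : (1 : ℝ) ≤ k := by exact_mod_cast hk
  refine criterion hK (by linarith) (Nat.le_ceil _) ?_ hp2
  have h1 : 1 / ((k : ℝ) + 2) < p - 1 := by linarith
  rw [div_lt_iff₀ (by linarith)] at h1
  linarith

theorem cliff_bdd {k : ℕ} (hk : 1 ≤ k) {p : ℝ} (hp : 1 + 1 / ((k : ℝ) + 2) < p) (hp2 : p ≤ 2) :
    ∃ C : ℝ≥0, ∀ (n : ℕ) (J : Fin k → (Fin n → ℝ) →ₗ[ℝ] (Fin n → ℝ)), Cliff k J →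
      ∀ K : Set (Fin n → ℝ), IsCompact K → Convex ℝ K → (interior K).Nonempty →
      (∀ (a0 : ℝ) (a : Fin k → ℝ), a0 ^ 2 + ∑ i, a i ^ 2 = 1 →
        ∀ x ∈ K, a0 • x + ∑ i, a i • J i x ∈ K) →
      MX.Bdd p (C : ℝ≥0∞) K := by
  have hk0 : (1 : ℝ) ≤ k := by exact_mod_cast hk
  have hp0 : 0 < p := by
    have : 0 < 1 / ((k : ℝ) + 2) := by positivity
    linarith
  obtain ⟨K0, hK0, hdec⟩ := dec_CN hk (N := ⌈((k : ℝ) + 2) / 2⌉₊) (Nat.le_ceil _)
    (Nat.ceil_lt_add_one (by linarith)).le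
  obtain ⟨C, hC⟩ := rg_k hk hK0.le hp hp2
  refine ⟨C, fun n J hJ K hK hc hi hinv => ?_⟩
  obtain ⟨T, J', hCN⟩ := exists_CN hJ hK hc hi hinv
  have h1 := hC n _ (hdec n _ J' hCN)
  refine bdd_of_map hp0 hK hc hi ?_ T h1
  obtain ⟨x, hx⟩ := hi
  have hx' := interior_subset hx
  have h2 := hinv (-1) 0 (by simp) x hx'
  simp only [neg_smul, one_smul, Pi.zero_apply, zero_smul, Finset.sum_const_zero, add_zero] at h2
  have h3 := hc hx' h2 (a := 1 / 2) (b := 1 / 2) (by norm_num) (by norm_num) (by norm_num)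
  simpa using h3

end Pool.Agent.CB
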