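import Pool.Agent.CB.CDefs
import Pool.Agent.MX.Basic

/-!
# CB-RadS: smoothing of radial measures

Let `U` be the uniform measure on `ball 0 ε`, `c = volume (ball 0 ε)`. For measurable `F ≥ 0`:
`∫⁻ v, F v * ofReal (Gd σ ε v) = c⁻¹ ∫⁻ v ∫⁻ w, F v * 1_{‖v - w‖ < ε} dσ(w) dv
   = ∫⁻ w, c⁻¹ ∫⁻ u in ball 0 ε, F (w + u) du dσ(w)` (Tonelli, translation): `lintegral_Gd`.
* `meas`: `v ↦ σ (ball v ε)` is lower semicontinuous, or `∫⁻ w, indicator ... dσ` jointly measurable.
* `rad`: if `‖v‖ = ‖w‖` there is a linear isometry `O` with `O v = w`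
  (`reflection_sub`), and `O⁻¹ (ball w ε) = ball v ε`.
* `mid`: `LC` with balls: the midpoint of points of `ball v ε` and `ball w ε` is in the ball around the midpoint.
* `mass`, `mom0`, `mom1`: `lintegral_Gd` with `F = 1`, `F = ‖·‖^2`;
  `∫ ‖w + u‖^2 dU(u) = ‖w‖^2 + ∫ ‖u‖^2 dU` lies in `[‖w‖^2, ‖w‖^2 + 1]` for `ε ≤ 1` (`∫ u dU = 0` by symmetry).
* `smooth_close`: `|cos (r ⟨e, w + u⟩) - cos (r ⟨e, w⟩)| ≤ r ε`.
-/

set_option autoImplicit false

open MeasureTheory Set
open scoped ENNReal NNReal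

namespace Pool.Agent.CB

variable {s : ℕ}

private theorem ball_pos {ε : ℝ} (hε : 0 < ε) :
    (volume (Metric.ball (0 : V s) ε)) ≠ 0 := (Metric.measure_ball_pos volume 0 hε).ne'

private theorem ball_top (ε : ℝ) : (volume (Metric.ball (0 : V s) ε)) ≠ ∞ :=
  measure_ball_lt_top.ne

private theorem prob_unif {ε : ℝ} (hε : 0 < ε) :
    IsProbabilityMeasure (MX.unif (Metric.ball (0 : V s) ε)) := by
  refine ⟨?_⟩
  unfold MX.unif
  rw [Measure.smul_apply, smul_eq_mul, Measure.restrict_apply_univ]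
  exact ENNReal.inv_mul_cancel (ball_pos hε) (ball_top ε)

theorem measurable_Gd {σ : Measure (V s)} [IsProbabilityMeasure σ] (ε : ℝ) :
    Measurable (Gd σ ε) := by
  unfold Gd
  refine Measurable.div_const ?_ _
  refine Measurable.ennreal_toReal ?_
  have hS : MeasurableSet {p : V s × V s | dist p.2 p.1 < ε} :=
    (isOpen_lt (continuous_snd.dist continuous_fst) continuous_const).measurableSet
  have h := measurable_measure_prodMk_left (ν := σ) hS
  exact h

private theorem ofReal_Gd {σ : Measure (V s)} [IsProbabilityMeasure σ] {ε : ℝ} (hε : 0 < ε)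
    (v : V s) : ENNReal.ofReal (Gd σ ε v) =
      (volume (Metric.ball (0 : V s) ε))⁻¹ * σ (Metric.ball v ε) := by
  unfold Gd
  rw [ENNReal.ofReal_div_of_pos (ENNReal.toReal_pos (ball_pos hε) (ball_top ε)),
    ENNReal.ofReal_toReal (measure_ne_top _ _), ENNReal.ofReal_toReal (ball_top ε),
    ENNReal.div_eq_inv_mul]

theorem lintegral_Gd {σ : Measure (V s)} [IsProbabilityMeasure σ] {ε : ℝ} (hε : 0 < ε)
    {F : V s → ℝ≥0∞} (hF : Measurable F) :
    ∫⁻ v, F v * ENNReal.ofReal (Gd σ ε v) =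
      ∫⁻ w, ∫⁻ u, F (w + u) ∂(MX.unif (Metric.ball (0 : V s) ε)) ∂σ := by
  have hmeas : Measurable (Function.uncurry fun v w : V s => (Metric.ball w ε).indicator F v) := by
    have hS : MeasurableSet {p : V s × V s | dist p.1 p.2 < ε} :=
      (isOpen_lt (continuous_fst.dist continuous_snd) continuous_const).measurableSet
    have h : (Function.uncurry fun v w : V s => (Metric.ball w ε).indicator F v) =
        {p : V s × V s | dist p.1 p.2 < ε}.indicator (fun p => F p.1) := by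
      funext p
      by_cases hp : dist p.1 p.2 < ε
      · have h1 : p.1 ∈ Metric.ball p.2 ε := hp
        have h2 : p ∈ {p : V s × V s | dist p.1 p.2 < ε} := hp
        simp only [Function.uncurry]
        rw [indicator_of_mem h1, indicator_of_mem h2]
      · have h1 : p.1 ∉ Metric.ball p.2 ε := hp
        have h2 : p ∉ {p : V s × V s | dist p.1 p.2 < ε} := hp
        simp only [Function.uncurry]
        rw [indicator_of_notMem h1, indicator_of_notMem h2]
    rw [h]
    exact (hF.comp measurable_fst).indicator hS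
  have h1 : ∀ v, F v * ENNReal.ofReal (Gd σ ε v) =
      (volume (Metric.ball (0 : V s) ε))⁻¹ * ∫⁻ w, (Metric.ball w ε).indicator F v ∂σ := by
    intro v
    rw [ofReal_Gd hε]
    have h2 : σ (Metric.ball v ε) = ∫⁻ w, (Metric.ball v ε).indicator 1 w ∂σ :=
      (lintegral_indicator_one Metric.isOpen_ball.measurableSet).symm
    have h3 : ∫⁻ w, (Metric.ball w ε).indicator F v ∂σ = F v * σ (Metric.ball v ε) := by
      rw [h2, ← lintegral_const_mul _ (measurable_one.indicator Metric.isOpen_ball.measurableSet)]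
      refine lintegral_congr fun w => ?_
      by_cases hw : w ∈ Metric.ball v ε
      · rw [indicator_of_mem (Metric.mem_ball_comm.1 hw), indicator_of_mem hw, Pi.one_apply, mul_one]
      · rw [indicator_of_notMem (fun h => hw (Metric.mem_ball_comm.1 h)), indicator_of_notMem hw,
          mul_zero]
    rw [h3]
    ring
  simp_rw [h1]
  rw [lintegral_const_mul' _ _ (ENNReal.inv_ne_top.2 (ball_pos hε)),
    lintegral_lintegral_swap hmeas.aemeasurable,
    ← lintegral_const_mul' _ _ (ENNReal.inv_ne_top.2 (ball_pos hε))]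
  refine lintegral_congr fun w => ?_
  rw [MX.lintegral_unif]
  congr 1
  rw [← lintegral_indicator Metric.isOpen_ball.measurableSet,
    ← lintegral_add_left_eq_self (μ := (volume : Measure (V s)))
      (fun v => (Metric.ball w ε).indicator F v) w]
  refine lintegral_congr fun u => ?_
  by_cases hu : u ∈ Metric.ball (0 : V s) ε
  · have h2 : w + u ∈ Metric.ball w ε := by
      rw [mem_ball_iff_norm] at hu ⊢
      simpa using hu
    rw [indicator_of_mem hu, indicator_of_mem h2]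
  · have h2 : w + u ∉ Metric.ball w ε := by
      rw [mem_ball_iff_norm] at hu ⊢
      simpa using hu
    rw [indicator_of_notMem hu, indicator_of_notMem h2]

private theorem lintegral_neg_unif {ε : ℝ} (f : V s → ℝ≥0∞) :
    ∫⁻ u, f (-u) ∂(MX.unif (Metric.ball (0 : V s) ε)) =
      ∫⁻ u, f u ∂(MX.unif (Metric.ball (0 : V s) ε)) := by
  rw [MX.lintegral_unif, MX.lintegral_unif]
  congr 1
  rw [← lintegral_indicator Metric.isOpen_ball.measurableSet,
    ← lintegral_indicator Metric.isOpen_ball.measurableSet,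
    ← lintegral_neg_eq_self (μ := (volume : Measure (V s)))
      (fun v => (Metric.ball (0 : V s) ε).indicator f v)]
  refine lintegral_congr fun u => ?_
  by_cases hu : u ∈ Metric.ball (0 : V s) ε
  · have h2 : -u ∈ Metric.ball (0 : V s) ε := by
      rw [mem_ball_iff_norm] at hu ⊢
      simpa using hu
    rw [indicator_of_mem hu, indicator_of_mem h2]
  · have h2 : -u ∉ Metric.ball (0 : V s) ε := by
      rw [mem_ball_iff_norm] at hu ⊢
      simpa using hu
    rw [indicator_of_notMem hu, indicator_of_notMem h2]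

private theorem parall (w u : V s) :
    ‖w + u‖ₑ ^ (2 : ℝ) + ‖w + -u‖ₑ ^ (2 : ℝ) = 2 * (‖w‖ₑ ^ (2 : ℝ) + ‖u‖ₑ ^ (2 : ℝ)) := by
  have h : ∀ x : V s, ‖x‖ₑ ^ (2 : ℝ) = ENNReal.ofReal (‖x‖ ^ 2) := by
    intro x
    rw [← ofReal_norm, ENNReal.ofReal_rpow_of_nonneg (norm_nonneg _) (by norm_num)]
    norm_num
  have h2 : ENNReal.ofReal 2 = (2 : ℝ≥0∞) := ENNReal.ofReal_ofNat 2
  have h3 : ‖w + u‖ ^ 2 + ‖w + -u‖ ^ 2 = 2 * (‖w‖ ^ 2 + ‖u‖ ^ 2) := by
    have h4 := parallelogram_law_with_norm ℝ w u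
    rw [← sub_eq_add_neg]
    nlinarith [h4]
  calc ‖w + u‖ₑ ^ (2 : ℝ) + ‖w + -u‖ₑ ^ (2 : ℝ)
      = ENNReal.ofReal (‖w + u‖ ^ 2) + ENNReal.ofReal (‖w + -u‖ ^ 2) := by rw [h, h]
    _ = ENNReal.ofReal (‖w + u‖ ^ 2 + ‖w + -u‖ ^ 2) :=
        (ENNReal.ofReal_add (by positivity) (by positivity)).symm
    _ = ENNReal.ofReal (2 * (‖w‖ ^ 2 + ‖u‖ ^ 2)) := by rw [h3]
    _ = ENNReal.ofReal 2 * ENNReal.ofReal (‖w‖ ^ 2 + ‖u‖ ^ 2) :=
        ENNReal.ofReal_mul (by norm_num)
    _ = 2 * (‖w‖ₑ ^ (2 : ℝ) + ‖u‖ₑ ^ (2 : ℝ)) := by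
        rw [h2, ENNReal.ofReal_add (by positivity) (by positivity), h w, h u]

private theorem inner_mom {ε : ℝ} (hε : 0 < ε) (w : V s) :
    ∫⁻ u, ‖w + u‖ₑ ^ (2 : ℝ) ∂(MX.unif (Metric.ball (0 : V s) ε)) =
      ‖w‖ₑ ^ (2 : ℝ) + ∫⁻ u, ‖u‖ₑ ^ (2 : ℝ) ∂(MX.unif (Metric.ball (0 : V s) ε)) := by
  have := prob_unif (s := s) hε
  have h1 := lintegral_neg_unif (s := s) (ε := ε) (fun u => ‖w + u‖ₑ ^ (2 : ℝ))
  have hm : Measurable fun u : V s => ‖w + u‖ₑ ^ (2 : ℝ) := by fun_prop
  have hm2 : Measurable fun u : V s => ‖u‖ₑ ^ (2 : ℝ) := by fun_prop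
  have h2 : ∫⁻ u, ‖w + u‖ₑ ^ (2 : ℝ) ∂(MX.unif (Metric.ball (0 : V s) ε)) +
      ∫⁻ u, ‖w + u‖ₑ ^ (2 : ℝ) ∂(MX.unif (Metric.ball (0 : V s) ε)) =
      2 * (‖w‖ₑ ^ (2 : ℝ) + ∫⁻ u, ‖u‖ₑ ^ (2 : ℝ) ∂(MX.unif (Metric.ball (0 : V s) ε))) := by
    nth_rewrite 2 [← h1]
    rw [← lintegral_add_left hm]
    simp_rw [parall]
    rw [lintegral_const_mul _ (by fun_prop), lintegral_add_right _ hm2, lintegral_const,
      measure_univ, mul_one]
  rw [← two_mul] at h2
  exact (ENNReal.mul_right_inj (by norm_num) (by norm_num)).1 h2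

private theorem small_mom {ε : ℝ} (hε : 0 < ε) (hε1 : ε ≤ 1) :
    ∫⁻ u, ‖u‖ₑ ^ (2 : ℝ) ∂(MX.unif (Metric.ball (0 : V s) ε)) ≤ 1 := by
  rw [MX.lintegral_unif]
  have h1 : ∫⁻ u in Metric.ball (0 : V s) ε, ‖u‖ₑ ^ (2 : ℝ) ≤
      ∫⁻ u in Metric.ball (0 : V s) ε, 1 := by
    refine setLIntegral_mono' Metric.isOpen_ball.measurableSet fun u hu => ?_
    rw [mem_ball_zero_iff] at hu
    have h2 : ‖u‖ₑ ≤ 1 := by
      rw [← ofReal_norm]
      exact ENNReal.ofReal_le_one.2 (hu.le.trans hε1)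
    calc ‖u‖ₑ ^ (2 : ℝ) ≤ 1 ^ (2 : ℝ) := ENNReal.rpow_le_rpow h2 (by norm_num)
      _ = 1 := ENNReal.one_rpow _
  calc _ ≤ (volume (Metric.ball (0 : V s) ε))⁻¹ * ∫⁻ u in Metric.ball (0 : V s) ε, 1 := by gcongr
    _ = 1 := by
      rw [lintegral_one, Measure.restrict_apply_univ]
      exact ENNReal.inv_mul_cancel (ball_pos hε) (ball_top ε)

private theorem mom_Gd {σ : Measure (V s)} (hσ : Rad s σ) {ε : ℝ} (hε : 0 < ε) :
    ∫⁻ v, ‖v‖ₑ ^ (2 : ℝ) * ENNReal.ofReal (Gd σ ε v) =
      (s : ℝ≥0∞) + ∫⁻ u, ‖u‖ₑ ^ (2 : ℝ) ∂(MX.unif (Metric.ball (0 : V s) ε)) := by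
  have := hσ.prob
  rw [lintegral_Gd hε (by fun_prop)]
  simp_rw [inner_mom hε]
  rw [lintegral_add_left (by fun_prop), hσ.mom, lintegral_const, measure_univ, mul_one]

theorem rd_Gd {σ : Measure (V s)} (hσ : Rad s σ) {ε : ℝ} (hε : 0 < ε) (hε1 : ε ≤ 1) :
    RD s (Gd σ ε) := by
  have := hσ.prob
  refine ⟨measurable_Gd ε, fun v => div_nonneg ENNReal.toReal_nonneg ENNReal.toReal_nonneg,
    ?_, ?_, ?_, ?_, ?_⟩
  · intro v w hvw
    unfold Gd
    let O : V s ≃ₗᵢ[ℝ] V s := (ℝ ∙ (v - w))ᗮ.reflection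
    have hO : O v = w := Submodule.reflection_sub hvw
    have h1 : σ (Metric.ball w ε) = σ (Metric.ball v ε) := by
      have h2 : (σ.map O) (Metric.ball w ε) = σ (Metric.ball v ε) := by
        rw [Measure.map_apply O.continuous.measurable Metric.isOpen_ball.measurableSet]
        congr 1
        rw [O.preimage_ball, ← hO, O.symm_apply_apply]
      rw [← h2, hσ.inv O]
    rw [h1]
  · intro v w
    unfold Gd
    have h1 := hσ.lc (Metric.ball v ε) (Metric.ball w ε)
      (Metric.ball ((1 / 2 : ℝ) • (v + w)) ε) Metric.isOpen_ball.measurableSet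
      Metric.isOpen_ball.measurableSet Metric.isOpen_ball.measurableSet (by
        intro a ha b hb
        rw [mem_ball_iff_norm] at ha hb ⊢
        have h2 : (1 / 2 : ℝ) • (a + b) - (1 / 2 : ℝ) • (v + w) =
            (1 / 2 : ℝ) • ((a - v) + (b - w)) := by
          rw [← smul_sub]
          congr 1
          abel
        rw [h2, norm_smul]
        have h3 := norm_add_le (a - v) (b - w)
        rw [Real.norm_of_nonneg (by norm_num : (0 : ℝ) ≤ 1 / 2)]
        linarith)
    have h4 := ENNReal.toReal_mono (by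
      exact ENNReal.pow_ne_top (measure_ne_top _ _)) h1
    rw [ENNReal.toReal_mul, ENNReal.toReal_pow] at h4
    rw [div_mul_div_comm, div_pow, sq (volume (Metric.ball (0 : V s) ε)).toReal]
    exact div_le_div_of_nonneg_right h4 (by positivity)
  · have h := lintegral_Gd (σ := σ) hε (F := fun _ => 1) measurable_const
    have := prob_unif (s := s) hε
    simp only [one_mul, lintegral_const, measure_univ, mul_one] at h
    exact h
  · rw [mom_Gd hσ hε]
    exact le_self_add
  · rw [mom_Gd hσ hε]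
    gcongr
    exact small_mom hε hε1

private theorem withDensity_Gd {σ : Measure (V s)} [IsProbabilityMeasure σ] {ε : ℝ} (hε : 0 < ε) :
    (volume : Measure (V s)).withDensity (fun v => ENNReal.ofReal (Gd σ ε v)) =
      (σ.prod (MX.unif (Metric.ball (0 : V s) ε))).map (fun z => z.1 + z.2) := by
  have := prob_unif (s := s) hε
  have hadd : Measurable fun z : V s × V s => z.1 + z.2 := measurable_fst.add measurable_snd
  ext A hA
  rw [withDensity_apply _ hA, Measure.map_apply hadd hA, Measure.prod_apply (hadd hA)]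
  have h := lintegral_Gd (σ := σ) hε (F := A.indicator 1) (measurable_one.indicator hA)
  have h1 : ∫⁻ v, A.indicator 1 v * ENNReal.ofReal (Gd σ ε v) =
      ∫⁻ v in A, ENNReal.ofReal (Gd σ ε v) := by
    rw [← lintegral_indicator hA]
    refine lintegral_congr fun v => ?_
    by_cases hv : v ∈ A
    · rw [indicator_of_mem hv, indicator_of_mem hv, Pi.one_apply, one_mul]
    · rw [indicator_of_notMem hv, indicator_of_notMem hv, zero_mul]
  rw [← h1, h]
  refine lintegral_congr fun w => ?_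
  have h2 : MeasurableSet (Prod.mk w ⁻¹' ((fun z : V s × V s => z.1 + z.2) ⁻¹' A)) :=
    measurable_prodMk_left (hadd hA)
  rw [← lintegral_indicator_one h2]
  rfl

theorem smooth_close {σ : Measure (V s)} [IsProbabilityMeasure σ] {ε : ℝ} (hε : 0 < ε)
    {e : V s} (he : ‖e‖ = 1) {r : ℝ} (hr : 0 ≤ r) :
    |(∫ v, Real.cos (r * inner ℝ e v) * Gd σ ε v) - ∫ w, Real.cos (r * inner ℝ e w) ∂σ| ≤
      r * ε := by
  have := prob_unif (s := s) hε
  have hm := measurable_Gd (σ := σ) ε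
  have hnn : ∀ v, 0 ≤ Gd σ ε v := fun v => div_nonneg ENNReal.toReal_nonneg ENNReal.toReal_nonneg
  have hc : Measurable fun v : V s => Real.cos (r * inner ℝ e v) := by fun_prop
  have h1 : ∫ v, Real.cos (r * inner ℝ e v) * Gd σ ε v =
      ∫ z : V s × V s, Real.cos (r * inner ℝ e (z.1 + z.2))
        ∂(σ.prod (MX.unif (Metric.ball (0 : V s) ε))) := by
    have h2 := integral_withDensity_eq_integral_toReal_smul (μ := (volume : Measure (V s)))
      hm.ennreal_ofReal (Filter.Eventually.of_forall fun _ => ENNReal.ofReal_lt_top)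
      (fun v => Real.cos (r * inner ℝ e v))
    rw [withDensity_Gd hε, integral_map (by fun_prop) hc.aestronglyMeasurable] at h2
    rw [h2]
    refine integral_congr_ae (Filter.Eventually.of_forall fun v => ?_)
    simp only [smul_eq_mul]
    rw [ENNReal.toReal_ofReal (hnn v), mul_comm]
  have h3 : ∫ w, Real.cos (r * inner ℝ e w) ∂σ =
      ∫ z : V s × V s, Real.cos (r * inner ℝ e z.1)
        ∂(σ.prod (MX.unif (Metric.ball (0 : V s) ε))) := by
    have h4 := integral_fun_fst (μ := σ) (ν := MX.unif (Metric.ball (0 : V s) ε))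
      (fun w => Real.cos (r * inner ℝ e w))
    rw [h4]
    simp
  have hb : ∀ g : V s × V s → ℝ, Measurable g → (∀ z, |g z| ≤ 1) →
      Integrable g (σ.prod (MX.unif (Metric.ball (0 : V s) ε))) := by
    intro g hg hg1
    refine Integrable.of_bound hg.aestronglyMeasurable 1 (Filter.Eventually.of_forall fun z => ?_)
    rw [Real.norm_eq_abs]
    exact hg1 z
  rw [h1, h3, ← integral_sub
    (hb _ (by fun_prop) fun z => Real.abs_cos_le_one _)
    (hb _ (by fun_prop) fun z => Real.abs_cos_le_one _)]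
  have hae : ∀ᵐ z ∂(σ.prod (MX.unif (Metric.ball (0 : V s) ε))), ‖z.2‖ < ε := by
    have h5 : ∀ᵐ u ∂(MX.unif (Metric.ball (0 : V s) ε)), ‖u‖ < ε := by
      have h6 : ∀ᵐ u ∂((volume : Measure (V s)).restrict (Metric.ball (0 : V s) ε)), ‖u‖ < ε := by
        filter_upwards [ae_restrict_mem Metric.isOpen_ball.measurableSet] with u hu
        exact mem_ball_zero_iff.1 hu
      exact Measure.ae_smul_measure h6 _
    exact (Measure.quasiMeasurePreserving_snd (μ := σ)).ae h5
  have h7 := norm_integral_le_of_norm_le_const (μ := σ.prod (MX.unif (Metric.ball (0 : V s) ε)))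
    (f := fun z => Real.cos (r * inner ℝ e (z.1 + z.2)) - Real.cos (r * inner ℝ e z.1))
    (C := r * ε) (by
      filter_upwards [hae] with z hz
      rw [Real.norm_eq_abs]
      have h8 : |Real.cos (r * inner ℝ e (z.1 + z.2)) - Real.cos (r * inner ℝ e z.1)| ≤
          |r * inner ℝ e (z.1 + z.2) - r * inner ℝ e z.1| := by
        have h9 := Real.lipschitzWith_cos.dist_le_mul (r * inner ℝ e (z.1 + z.2))
          (r * inner ℝ e z.1)
        simpa [Real.dist_eq] using h9
      refine h8.trans ?_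
      rw [← mul_sub, inner_add_right, add_sub_cancel_left, abs_mul, abs_of_nonneg hr]
      refine mul_le_mul_of_nonneg_left ?_ hr
      refine (abs_real_inner_le_norm e z.2).trans ?_
      rw [he, one_mul]
      exact hz.le)
  rw [Real.norm_eq_abs] at h7
  refine h7.trans ?_
  rw [probReal_univ, mul_one]

end Pool.Agent.CB
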