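import Pool.Agent.CB.R2Mom
import Pool.Agent.CB.RadS

/-!
# CB-R2S: smoothing of the measures `Rad2`

As in `RadS.lean`. `lintegral_Gd2`: Tonelli. `rad`: reflections (`reflection_sub`) in the first factor. `mid`: `LC` with
`A = ball v ε ×ˢ ball c ε`, `B = ball w ε ×ˢ ball c ε`. `marg`: `G1 = Gd (σ.map Prod.fst) ε`,
`∫⁻ c, σ (ball v ε ×ˢ ball c ε) dc = 2 ε σ (ball v ε ×ˢ univ)` (Tonelli); `rd_Gd`, `rad2_fst`. Moments:
`‖v + u‖^M ≤ 2^M (‖v‖^M + 1)` for `‖u‖ ≤ 1`, `rad2_moments`. `smooth_close2`: `|cos| ` is Lipschitz, `κ ≤ 1`.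
-/

set_option autoImplicit false

open MeasureTheory Set
open scoped ENNReal NNReal

namespace Pool.Agent.CB

section general

variable {E : Type} [NormedAddCommGroup E] [NormedSpace ℝ E] [FiniteDimensional ℝ E]
  [MeasureSpace E] [BorelSpace E] [Measure.IsAddHaarMeasure (volume : Measure E)]

private theorem gball_pos {ε : ℝ} (hε : 0 < ε) :
    (volume (Metric.ball (0 : E) ε)) ≠ 0 := (Metric.measure_ball_pos volume 0 hε).ne'

private theorem gball_top (ε : ℝ) : (volume (Metric.ball (0 : E) ε)) ≠ ∞ := by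
  have hprop : ProperSpace E := FiniteDimensional.proper ℝ E
  exact measure_ball_lt_top.ne

private theorem gprob_unif {ε : ℝ} (hε : 0 < ε) :
    IsProbabilityMeasure (MX.unif (Metric.ball (0 : E) ε)) := by
  refine ⟨?_⟩
  unfold MX.unif
  rw [Measure.smul_apply, smul_eq_mul, Measure.restrict_apply_univ]
  exact ENNReal.inv_mul_cancel (gball_pos hε) (gball_top ε)

private theorem glintegral {σ : Measure E} [IsProbabilityMeasure σ] {ε : ℝ} (hε : 0 < ε)
    {F : E → ℝ≥0∞} (hF : Measurable F) :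
    ∫⁻ v, F v * ((volume (Metric.ball (0 : E) ε))⁻¹ * σ (Metric.ball v ε)) =
      ∫⁻ w, ∫⁻ u, F (w + u) ∂(MX.unif (Metric.ball (0 : E) ε)) ∂σ := by
  have hprop : ProperSpace E := FiniteDimensional.proper ℝ E
  have hmeas : Measurable (Function.uncurry fun v w : E => (Metric.ball w ε).indicator F v) := by
    have hS : MeasurableSet {p : E × E | dist p.1 p.2 < ε} :=
      (isOpen_lt (continuous_fst.dist continuous_snd) continuous_const).measurableSet
    have h : (Function.uncurry fun v w : E => (Metric.ball w ε).indicator F v) =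
        {p : E × E | dist p.1 p.2 < ε}.indicator (fun p => F p.1) := by
      funext p
      by_cases hp : dist p.1 p.2 < ε
      · have h1 : p.1 ∈ Metric.ball p.2 ε := hp
        have h2 : p ∈ {p : E × E | dist p.1 p.2 < ε} := hp
        simp only [Function.uncurry]
        rw [indicator_of_mem h1, indicator_of_mem h2]
      · have h1 : p.1 ∉ Metric.ball p.2 ε := hp
        have h2 : p ∉ {p : E × E | dist p.1 p.2 < ε} := hp
        simp only [Function.uncurry]
        rw [indicator_of_notMem h1, indicator_of_notMem h2]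
    rw [h]
    exact (hF.comp measurable_fst).indicator hS
  have h1 : ∀ v, F v * ((volume (Metric.ball (0 : E) ε))⁻¹ * σ (Metric.ball v ε)) =
      (volume (Metric.ball (0 : E) ε))⁻¹ * ∫⁻ w, (Metric.ball w ε).indicator F v ∂σ := by
    intro v
    have h2 : σ (Metric.ball v ε) = ∫⁻ w, (Metric.ball v ε).indicator 1 w ∂σ :=
      (lintegral_indicator_one Metric.isOpen_ball.measurableSet).symm
    have h3 : ∫⁻ w, (Metric.ball w ε).indicator F v ∂σ = F v * σ (Metric.ball v ε) := by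
      rw [h2, ← lintegral_const_mul _ (measurable_one.indicator Metric.isOpen_ball.measurableSet)]
      refine lintegral_congr fun w => ?_
      by_cases hw : w ∈ Metric.ball v ε
      · rw [indicator_of_mem (Metric.mem_ball_comm.1 hw), indicator_of_mem hw, Pi.one_apply, mul_one]
      · rw [indicator_of_notMem (fun h => hw (Metric.mem_ball_comm.1 h)), indicator_of_notMem hw,
          mul_zero]
    rw [h3]
    ring
  simp_rw [h1]
  rw [lintegral_const_mul' _ _ (ENNReal.inv_ne_top.2 (gball_pos hε)),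
    lintegral_lintegral_swap hmeas.aemeasurable,
    ← lintegral_const_mul' _ _ (ENNReal.inv_ne_top.2 (gball_pos hε))]
  refine lintegral_congr fun w => ?_
  rw [MX.lintegral_unif]
  congr 1
  rw [← lintegral_indicator Metric.isOpen_ball.measurableSet,
    ← lintegral_add_left_eq_self (μ := (volume : Measure E))
      (fun v => (Metric.ball w ε).indicator F v) w]
  refine lintegral_congr fun u => ?_
  by_cases hu : u ∈ Metric.ball (0 : E) ε
  · have h2 : w + u ∈ Metric.ball w ε := by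
      rw [mem_ball_iff_norm] at hu ⊢
      simpa using hu
    rw [indicator_of_mem hu, indicator_of_mem h2]
  · have h2 : w + u ∉ Metric.ball w ε := by
      rw [mem_ball_iff_norm] at hu ⊢
      simpa using hu
    rw [indicator_of_notMem hu, indicator_of_notMem h2]

end general

private instance haarVR (k : ℕ) :
    Measure.IsAddHaarMeasure (volume : Measure (V (k + 1) × ℝ)) := by
  rw [Measure.volume_eq_prod]
  infer_instance

private theorem vball {k : ℕ} {ε : ℝ} :
    volume (Metric.ball (0 : V (k + 1) × ℝ) ε) =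
      volume (Metric.ball (0 : V (k + 1)) ε) * ENNReal.ofReal (2 * ε) := by
  have h : Metric.ball (0 : V (k + 1) × ℝ) ε =
      Metric.ball (0 : V (k + 1)) ε ×ˢ Metric.ball (0 : ℝ) ε := (ball_prod_same 0 0 ε).symm
  rw [h, Measure.volume_eq_prod, Measure.prod_prod, Real.volume_ball]

private theorem unif_prod {k : ℕ} {ε : ℝ} (hε : 0 < ε) :
    MX.unif (Metric.ball (0 : V (k + 1) × ℝ) ε) =
      (MX.unif (Metric.ball (0 : V (k + 1)) ε)).prod (MX.unif (Metric.ball (0 : ℝ) ε)) := by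
  have h : Metric.ball (0 : V (k + 1) × ℝ) ε =
      Metric.ball (0 : V (k + 1)) ε ×ˢ Metric.ball (0 : ℝ) ε := (ball_prod_same 0 0 ε).symm
  have h1 : volume (Metric.ball (0 : V (k + 1) × ℝ) ε) =
      volume (Metric.ball (0 : V (k + 1)) ε) * volume (Metric.ball (0 : ℝ) ε) := by
    rw [vball, Real.volume_ball]
  have h2 := gball_pos (E := V (k + 1)) hε
  have h3 := gball_top (E := V (k + 1)) ε
  unfold MX.unif
  rw [Measure.prod_smul_left, Measure.prod_smul_right, Measure.prod_restrict, ← h,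
    ← Measure.volume_eq_prod, h1, smul_smul, ENNReal.mul_inv (Or.inl h2) (Or.inl h3)]

private theorem ofReal_Gd2 {k : ℕ} {σ : Measure (V (k + 1) × ℝ)} [IsProbabilityMeasure σ] {ε : ℝ}
    (hε : 0 < ε) (z : V (k + 1) × ℝ) :
    ENNReal.ofReal (Gd2 σ ε z) =
      (volume (Metric.ball (0 : V (k + 1) × ℝ) ε))⁻¹ * σ (Metric.ball z ε) := by
  have h2 := gball_pos (E := V (k + 1)) hε
  have h3 := gball_top (E := V (k + 1)) ε
  have h4 : Metric.ball z ε = Metric.ball z.1 ε ×ˢ Metric.ball z.2 ε :=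
    (ball_prod_same z.1 z.2 ε).symm
  have h5 : 0 < (volume (Metric.ball (0 : V (k + 1)) ε)).toReal * (2 * ε) :=
    mul_pos (ENNReal.toReal_pos h2 h3) (by linarith)
  unfold Gd2
  rw [ENNReal.ofReal_div_of_pos h5, ENNReal.ofReal_toReal (measure_ne_top _ _),
    ENNReal.ofReal_mul ENNReal.toReal_nonneg, ENNReal.ofReal_toReal h3, ← vball, ← h4,
    ENNReal.div_eq_inv_mul]

theorem lintegral_Gd2 {k : ℕ} {σ : Measure (V (k + 1) × ℝ)} [IsProbabilityMeasure σ] {ε : ℝ}
    (hε : 0 < ε) {F : V (k + 1) × ℝ → ℝ≥0∞} (hF : Measurable F) :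
    ∫⁻ z, F z * ENNReal.ofReal (Gd2 σ ε z) =
      ∫⁻ z, ∫⁻ u, F (z + u) ∂((MX.unif (Metric.ball (0 : V (k + 1)) ε)).prod
        (MX.unif (Metric.ball (0 : ℝ) ε))) ∂σ := by
  rw [← unif_prod hε, ← glintegral hε hF]
  refine lintegral_congr fun z => ?_
  rw [ofReal_Gd2 hε]

private theorem measurable_Gd2 {k : ℕ} {σ : Measure (V (k + 1) × ℝ)} [IsProbabilityMeasure σ]
    (ε : ℝ) : Measurable (Gd2 σ ε) := by
  unfold Gd2
  refine Measurable.div_const ?_ _
  refine Measurable.ennreal_toReal ?_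
  have hS : MeasurableSet {p : (V (k + 1) × ℝ) × (V (k + 1) × ℝ) | dist p.2 p.1 < ε} :=
    (isOpen_lt (continuous_snd.dist continuous_fst) continuous_const).measurableSet
  have h := measurable_measure_prodMk_left (ν := σ) hS
  have h1 : (fun z : V (k + 1) × ℝ => σ (Metric.ball z.1 ε ×ˢ Metric.ball z.2 ε)) =
      fun z => σ (Prod.mk z ⁻¹' {p : (V (k + 1) × ℝ) × (V (k + 1) × ℝ) | dist p.2 p.1 < ε}) := by
    funext z
    rw [ball_prod_same]
    rfl
  rw [h1]
  exact h

private theorem mom_aux {a b : ℝ≥0∞} (hb : b ≤ 1) (M : ℕ) : (a + b) ^ M ≤ 2 ^ M * (a ^ M + 1) := by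
  rcases le_total a 1 with h | h
  · calc (a + b) ^ M ≤ (1 + 1) ^ M := by gcongr
      _ = 2 ^ M * 1 := by rw [one_add_one_eq_two, mul_one]
      _ ≤ 2 ^ M * (a ^ M + 1) := by gcongr; exact le_add_self
  · calc (a + b) ^ M ≤ (a + a) ^ M := by gcongr; exact hb.trans h
      _ = 2 ^ M * a ^ M := by rw [← two_mul, mul_pow]
      _ ≤ 2 ^ M * (a ^ M + 1) := by gcongr; exact le_self_add

private theorem ae_small {k : ℕ} {ε : ℝ} (hε : 0 < ε) :
    ∀ᵐ u ∂((MX.unif (Metric.ball (0 : V (k + 1)) ε)).prod (MX.unif (Metric.ball (0 : ℝ) ε))),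
      ‖u.1‖ < ε ∧ ‖u.2‖ < ε := by
  rw [← unif_prod hε]
  have h6 : ∀ᵐ u ∂((volume : Measure (V (k + 1) × ℝ)).restrict (Metric.ball 0 ε)),
      ‖u.1‖ < ε ∧ ‖u.2‖ < ε := by
    filter_upwards [ae_restrict_mem Metric.isOpen_ball.measurableSet] with u hu
    have h := mem_ball_zero_iff.1 hu
    rw [Prod.norm_def, max_lt_iff] at h
    exact h
  exact Measure.ae_smul_measure h6 _

private theorem mom_gen {k : ℕ} {σ : Measure (V (k + 1) × ℝ)} [IsProbabilityMeasure σ] {ε : ℝ}
    (hε : 0 < ε) (hε1 : ε ≤ 1) (M : ℕ) {N : V (k + 1) × ℝ → ℝ≥0∞} (hN : Measurable N)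
    (hadd : ∀ z u, N (z + u) ≤ N z + N u) (hs : ∀ u, ‖u.1‖ < ε ∧ ‖u.2‖ < ε → N u ≤ 1)
    {C : ℝ≥0} (hC : ∫⁻ z, N z ^ M ∂σ ≤ C) :
    ∫⁻ z, N z ^ M * ENNReal.ofReal (Gd2 σ ε z) ≤ ((2 ^ M * (C + 1) : ℝ≥0) : ℝ≥0∞) := by
  have i1 := gprob_unif (E := V (k + 1)) hε
  have i2 := gprob_unif (E := ℝ) hε
  rw [lintegral_Gd2 hε (hN.pow_const M)]
  calc ∫⁻ z, ∫⁻ u, N (z + u) ^ M ∂((MX.unif (Metric.ball (0 : V (k + 1)) ε)).prod
        (MX.unif (Metric.ball (0 : ℝ) ε))) ∂σ
      ≤ ∫⁻ z, 2 ^ M * (N z ^ M + 1) ∂σ := by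
        refine lintegral_mono fun z => ?_
        calc ∫⁻ u, N (z + u) ^ M ∂((MX.unif (Metric.ball (0 : V (k + 1)) ε)).prod
              (MX.unif (Metric.ball (0 : ℝ) ε)))
            ≤ ∫⁻ u, 2 ^ M * (N z ^ M + 1) ∂((MX.unif (Metric.ball (0 : V (k + 1)) ε)).prod
              (MX.unif (Metric.ball (0 : ℝ) ε))) := by
              refine lintegral_mono_ae ?_
              filter_upwards [ae_small (k := k) hε] with u hu
              refine le_trans ?_ (mom_aux (hs u hu) M)
              gcongr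
              exact hadd z u
          _ = 2 ^ M * (N z ^ M + 1) := by
              rw [lintegral_const, measure_univ, mul_one]
    _ = 2 ^ M * (∫⁻ z, N z ^ M ∂σ + 1) := by
        rw [lintegral_const_mul _ ((hN.pow_const M).add_const 1), lintegral_add_left (hN.pow_const M),
          lintegral_const, measure_univ, mul_one]
    _ ≤ 2 ^ M * (C + 1) := by gcongr
    _ = ((2 ^ M * (C + 1) : ℝ≥0) : ℝ≥0∞) := by push_cast; rfl

private theorem marg_Gd2 {k : ℕ} {σ : Measure (V (k + 1) × ℝ)} [IsProbabilityMeasure σ] {ε : ℝ}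
    (hε : 0 < ε) (v : V (k + 1)) :
    ENNReal.ofReal (Gd (σ.map Prod.fst) ε v) = ∫⁻ c, ENNReal.ofReal (Gd2 σ ε (v, c)) := by
  have h2 := gball_pos (E := V (k + 1)) hε
  have h3 := gball_top (E := V (k + 1)) ε
  have hp : IsProbabilityMeasure (σ.map Prod.fst) :=
    Measure.isProbabilityMeasure_map measurable_fst.aemeasurable
  have e1 : ENNReal.ofReal (Gd (σ.map Prod.fst) ε v) =
      (volume (Metric.ball (0 : V (k + 1)) ε))⁻¹ * σ (Metric.ball v ε ×ˢ univ) := by
    unfold Gd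
    rw [ENNReal.ofReal_div_of_pos (ENNReal.toReal_pos h2 h3),
      ENNReal.ofReal_toReal (measure_ne_top _ _), ENNReal.ofReal_toReal h3,
      ENNReal.div_eq_inv_mul, Measure.map_apply measurable_fst Metric.isOpen_ball.measurableSet]
    congr 2
    ext z
    simp
  have hmB : ∀ c : ℝ, MeasurableSet (Metric.ball v ε ×ˢ Metric.ball c ε : Set (V (k + 1) × ℝ)) :=
    fun c => Metric.isOpen_ball.measurableSet.prod Metric.isOpen_ball.measurableSet
  have hmU : MeasurableSet (Metric.ball v ε ×ˢ univ : Set (V (k + 1) × ℝ)) :=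
    Metric.isOpen_ball.measurableSet.prod MeasurableSet.univ
  have hS : MeasurableSet {p : ℝ × (V (k + 1) × ℝ) | p.2 ∈ (Metric.ball v ε ×ˢ univ :
      Set (V (k + 1) × ℝ)) ∧ dist p.2.2 p.1 < ε} := by
    refine (hmU.preimage measurable_snd).inter ?_
    exact (isOpen_lt ((continuous_snd.comp continuous_snd).dist continuous_fst)
      continuous_const).measurableSet
  have hmeas : Measurable (Function.uncurry fun (c : ℝ) (z : V (k + 1) × ℝ) =>
      (Metric.ball v ε ×ˢ Metric.ball c ε : Set (V (k + 1) × ℝ)).indicator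
        (fun _ => (1 : ℝ≥0∞)) z) := by
    have h : (Function.uncurry fun (c : ℝ) (z : V (k + 1) × ℝ) =>
        (Metric.ball v ε ×ˢ Metric.ball c ε : Set (V (k + 1) × ℝ)).indicator
          (fun _ => (1 : ℝ≥0∞)) z) =
        {p : ℝ × (V (k + 1) × ℝ) | p.2 ∈ (Metric.ball v ε ×ˢ univ :
          Set (V (k + 1) × ℝ)) ∧ dist p.2.2 p.1 < ε}.indicator (fun _ => 1) := by
      funext p
      obtain ⟨c, z⟩ := p
      by_cases hz : z ∈ (Metric.ball v ε ×ˢ Metric.ball c ε : Set (V (k + 1) × ℝ))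
      · have h5 : ((c, z) : ℝ × (V (k + 1) × ℝ)) ∈
            {p : ℝ × (V (k + 1) × ℝ) | p.2 ∈ (Metric.ball v ε ×ˢ univ :
            Set (V (k + 1) × ℝ)) ∧ dist p.2.2 p.1 < ε} := ⟨⟨hz.1, mem_univ _⟩, hz.2⟩
        simp only [Function.uncurry]
        rw [indicator_of_mem hz, indicator_of_mem h5]
      · have h5 : ((c, z) : ℝ × (V (k + 1) × ℝ)) ∉
            {p : ℝ × (V (k + 1) × ℝ) | p.2 ∈ (Metric.ball v ε ×ˢ univ :
            Set (V (k + 1) × ℝ)) ∧ dist p.2.2 p.1 < ε} := fun h => hz ⟨h.1.1, h.2⟩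
        simp only [Function.uncurry]
        rw [indicator_of_notMem hz, indicator_of_notMem h5]
    rw [h]
    exact measurable_const.indicator hS
  have e2 : ∫⁻ c : ℝ, σ (Metric.ball v ε ×ˢ Metric.ball c ε) =
      ENNReal.ofReal (2 * ε) * σ (Metric.ball v ε ×ˢ univ) := by
    have e3 : ∀ c : ℝ, σ (Metric.ball v ε ×ˢ Metric.ball c ε) =
        ∫⁻ z, (Metric.ball v ε ×ˢ Metric.ball c ε : Set (V (k + 1) × ℝ)).indicator
          (fun _ => (1 : ℝ≥0∞)) z ∂σ := fun c => by
      rw [lintegral_indicator (hmB c), lintegral_one, Measure.restrict_apply_univ]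
    simp_rw [e3]
    rw [lintegral_lintegral_swap hmeas.aemeasurable]
    have e4 : ∀ z : V (k + 1) × ℝ, ∫⁻ c : ℝ,
        (Metric.ball v ε ×ˢ Metric.ball c ε : Set (V (k + 1) × ℝ)).indicator
          (fun _ => (1 : ℝ≥0∞)) z = (Metric.ball v ε ×ˢ univ : Set (V (k + 1) × ℝ)).indicator
          (fun _ => ENNReal.ofReal (2 * ε)) z := by
      intro z
      by_cases hz : z.1 ∈ Metric.ball v ε
      · have h5 : z ∈ (Metric.ball v ε ×ˢ univ : Set (V (k + 1) × ℝ)) := ⟨hz, mem_univ _⟩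
        rw [indicator_of_mem h5]
        have h6 : (fun c : ℝ => (Metric.ball v ε ×ˢ Metric.ball c ε :
            Set (V (k + 1) × ℝ)).indicator (fun _ => (1 : ℝ≥0∞)) z) =
            (Metric.ball z.2 ε).indicator (fun _ => 1) := by
          funext c
          by_cases hc : c ∈ Metric.ball z.2 ε
          · have h7 : z ∈ (Metric.ball v ε ×ˢ Metric.ball c ε : Set (V (k + 1) × ℝ)) :=
              ⟨hz, Metric.mem_ball_comm.1 hc⟩
            rw [indicator_of_mem hc, indicator_of_mem h7]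
          · have h7 : z ∉ (Metric.ball v ε ×ˢ Metric.ball c ε : Set (V (k + 1) × ℝ)) :=
              fun h => hc (Metric.mem_ball_comm.1 h.2)
            rw [indicator_of_notMem hc, indicator_of_notMem h7]
        rw [h6, lintegral_indicator Metric.isOpen_ball.measurableSet, lintegral_one,
          Measure.restrict_apply_univ, Real.volume_ball]
      · have h5 : z ∉ (Metric.ball v ε ×ˢ univ : Set (V (k + 1) × ℝ)) := fun h => hz h.1
        rw [indicator_of_notMem h5]
        have h6 : (fun c : ℝ => (Metric.ball v ε ×ˢ Metric.ball c ε :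
            Set (V (k + 1) × ℝ)).indicator (fun _ => (1 : ℝ≥0∞)) z) = fun _ => 0 := by
          funext c
          have h7 : z ∉ (Metric.ball v ε ×ˢ Metric.ball c ε : Set (V (k + 1) × ℝ)) :=
            fun h => hz h.1
          rw [indicator_of_notMem h7]
        rw [h6, lintegral_zero]
    simp_rw [e4]
    rw [lintegral_indicator hmU, lintegral_const, Measure.restrict_apply_univ]
  have e5 : ∀ c : ℝ, ENNReal.ofReal (Gd2 σ ε (v, c)) =
      (volume (Metric.ball (0 : V (k + 1) × ℝ) ε))⁻¹ *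
        σ (Metric.ball v ε ×ˢ Metric.ball c ε) := by
    intro c
    rw [ofReal_Gd2 hε, ← ball_prod_same v c ε]
  have h6 : ENNReal.ofReal (2 * ε) ≠ 0 := by
    rw [Ne, ENNReal.ofReal_eq_zero]
    linarith
  have h8 : ENNReal.ofReal (2 * ε) ≠ ∞ := ENNReal.ofReal_ne_top
  have h7 := gball_pos (E := V (k + 1) × ℝ) hε
  simp_rw [e5]
  rw [lintegral_const_mul' _ _ (ENNReal.inv_ne_top.2 h7), e2, e1, vball,
    ENNReal.mul_inv (Or.inl h2) (Or.inl h3), mul_assoc, ← mul_assoc (ENNReal.ofReal (2 * ε))⁻¹,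
    ENNReal.inv_mul_cancel h6 h8, one_mul]

theorem rd2_Gd2 (k : ℕ) :
    ∃ Cm : ℕ → ℝ≥0, ∀ σ : Measure (V (k + 1) × ℝ), Rad2 k σ → ∀ ε : ℝ, 0 < ε → ε ≤ 1 →
      RD2 k Cm (Gd2 σ ε) := by
  obtain ⟨Cm, hCm⟩ := rad2_moments k
  refine ⟨fun M => 2 ^ M * (Cm M + 1), ?_⟩
  intro σ hσ ε hε hε1
  have := hσ.prob
  have hmB : ∀ (v : V (k + 1)) (c : ℝ), MeasurableSet
      (Metric.ball v ε ×ˢ Metric.ball c ε : Set (V (k + 1) × ℝ)) :=
    fun v c => Metric.isOpen_ball.measurableSet.prod Metric.isOpen_ball.measurableSet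
  refine ⟨measurable_Gd2 ε, ?_, ?_, ?_, ?_, ?_, ?_, ?_⟩
  · intro z
    unfold Gd2
    positivity
  · intro v w c hvw
    unfold Gd2
    let O : V (k + 1) ≃ₗᵢ[ℝ] V (k + 1) := (ℝ ∙ (v - w))ᗮ.reflection
    have hO : O v = w := Submodule.reflection_sub hvw
    have hOm : Measurable fun z : V (k + 1) × ℝ => (O z.1, z.2) :=
      (O.continuous.measurable.comp measurable_fst).prodMk measurable_snd
    have h1 : σ (Metric.ball w ε ×ˢ Metric.ball c ε) =
        σ (Metric.ball v ε ×ˢ Metric.ball c ε) := by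
      have h2 : (σ.map (fun z => (O z.1, z.2))) (Metric.ball w ε ×ˢ Metric.ball c ε) =
          σ (Metric.ball v ε ×ˢ Metric.ball c ε) := by
        rw [Measure.map_apply hOm (hmB w c)]
        congr 1
        ext z
        have h3 : O z.1 ∈ Metric.ball w ε ↔ z.1 ∈ Metric.ball v ε := by
          have h4 := O.preimage_ball w ε
          rw [← hO, O.symm_apply_apply, hO] at h4
          rw [← h4]
          rfl
        constructor
        · rintro ⟨h5, h6⟩
          exact ⟨h3.1 h5, h6⟩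
        · rintro ⟨h5, h6⟩
          exact ⟨h3.2 h5, h6⟩
      rw [← h2, hσ.inv O]
    change (σ (Metric.ball v ε ×ˢ Metric.ball c ε)).toReal / _ =
      (σ (Metric.ball w ε ×ˢ Metric.ball c ε)).toReal / _
    rw [h1]
  · intro v w c
    have h1 := hσ.lc (Metric.ball v ε ×ˢ Metric.ball c ε) (Metric.ball w ε ×ˢ Metric.ball c ε)
      (Metric.ball ((1 / 2 : ℝ) • (v + w)) ε ×ˢ Metric.ball c ε) (hmB _ _) (hmB _ _) (hmB _ _) (by
        intro a ha b hb
        obtain ⟨ha1, ha2⟩ := ha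
        obtain ⟨hb1, hb2⟩ := hb
        rw [mem_ball_iff_norm] at ha1 ha2 hb1 hb2
        refine ⟨?_, ?_⟩
        · rw [mem_ball_iff_norm]
          have h2 : ((1 / 2 : ℝ) • (a + b)).1 - (1 / 2 : ℝ) • (v + w) =
              (1 / 2 : ℝ) • ((a.1 - v) + (b.1 - w)) := by
            rw [Prod.smul_fst, Prod.fst_add, ← smul_sub]
            congr 1
            abel
          rw [h2, norm_smul]
          have h3 := norm_add_le (a.1 - v) (b.1 - w)
          rw [Real.norm_of_nonneg (by norm_num : (0 : ℝ) ≤ 1 / 2)]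
          linarith
        · rw [mem_ball_iff_norm]
          have h2 : ((1 / 2 : ℝ) • (a + b)).2 - c =
              (1 / 2 : ℝ) • ((a.2 - c) + (b.2 - c)) := by
            rw [Prod.smul_snd, Prod.snd_add]
            simp only [smul_eq_mul]
            ring
          rw [h2, norm_smul]
          have h3 := norm_add_le (a.2 - c) (b.2 - c)
          rw [Real.norm_of_nonneg (by norm_num : (0 : ℝ) ≤ 1 / 2)]
          linarith)
    have h4 := ENNReal.toReal_mono (by
      exact ENNReal.pow_ne_top (measure_ne_top _ _)) h1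
    rw [ENNReal.toReal_mul, ENNReal.toReal_pow] at h4
    unfold Gd2
    rw [div_mul_div_comm, div_pow,
      sq ((volume (Metric.ball (0 : V (k + 1)) ε)).toReal * (2 * ε))]
    exact div_le_div_of_nonneg_right h4 (by positivity)
  · have h := lintegral_Gd2 (σ := σ) hε (F := fun _ => 1) measurable_const
    have i1 := gprob_unif (E := V (k + 1)) hε
    have i2 := gprob_unif (E := ℝ) hε
    simp only [one_mul, lintegral_const, measure_univ, mul_one] at h
    exact h
  · exact ⟨Gd (σ.map Prod.fst) ε, rd_Gd (rad2_fst hσ) hε hε1, fun v => marg_Gd2 hε v⟩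
  · intro M
    refine mom_gen hε hε1 M (N := fun z => ‖z.1‖ₑ) (by fun_prop) ?_ ?_ ((hCm σ hσ M).1)
    · intro z u
      exact enorm_add_le _ _
    · intro u hu
      rw [← ofReal_norm]
      exact ENNReal.ofReal_le_one.2 (hu.1.le.trans hε1)
  · intro M
    refine mom_gen hε hε1 M (N := fun z => ‖z.2‖ₑ) (by fun_prop) ?_ ?_ ((hCm σ hσ M).2)
    · intro z u
      exact enorm_add_le _ _
    · intro u hu
      rw [← ofReal_norm]
      exact ENNReal.ofReal_le_one.2 (hu.2.le.trans hε1)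

private theorem withDensity_Gd2 {k : ℕ} {σ : Measure (V (k + 1) × ℝ)} [IsProbabilityMeasure σ]
    {ε : ℝ} (hε : 0 < ε) :
    (volume : Measure (V (k + 1) × ℝ)).withDensity (fun v => ENNReal.ofReal (Gd2 σ ε v)) =
      (σ.prod ((MX.unif (Metric.ball (0 : V (k + 1)) ε)).prod
        (MX.unif (Metric.ball (0 : ℝ) ε)))).map (fun z => z.1 + z.2) := by
  have i1 := gprob_unif (E := V (k + 1)) hε
  have i2 := gprob_unif (E := ℝ) hε
  have hadd : Measurable fun z : (V (k + 1) × ℝ) × (V (k + 1) × ℝ) => z.1 + z.2 :=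
    measurable_fst.add measurable_snd
  ext A hA
  rw [withDensity_apply _ hA, Measure.map_apply hadd hA, Measure.prod_apply (hadd hA)]
  have h := lintegral_Gd2 (σ := σ) hε (F := A.indicator 1) (measurable_one.indicator hA)
  have h1 : ∫⁻ v, A.indicator 1 v * ENNReal.ofReal (Gd2 σ ε v) =
      ∫⁻ v in A, ENNReal.ofReal (Gd2 σ ε v) := by
    rw [← lintegral_indicator hA]
    refine lintegral_congr fun v => ?_
    by_cases hv : v ∈ A
    · rw [indicator_of_mem hv, indicator_of_mem hv, Pi.one_apply, one_mul]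
    · rw [indicator_of_notMem hv, indicator_of_notMem hv, zero_mul]
  rw [← h1, h]
  refine lintegral_congr fun w => ?_
  have h2 : MeasurableSet (Prod.mk w ⁻¹' ((fun z : (V (k + 1) × ℝ) × (V (k + 1) × ℝ) =>
      z.1 + z.2) ⁻¹' A)) := measurable_prodMk_left (hadd hA)
  rw [← lintegral_indicator_one h2]
  rfl

theorem smooth_close2 {k : ℕ} {σ : Measure (V (k + 1) × ℝ)} [IsProbabilityMeasure σ] {ε : ℝ}
    (hε : 0 < ε) {κ : ℝ} (hκ : 0 ≤ κ) (hκ1 : κ ≤ 1) {r : ℝ} (hr : 0 ≤ r) :
    |(∫ z, Real.cos (r * (κ * z.1 0 + z.2)) * Gd2 σ ε z) -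
      (∫ z, Real.cos (r * (κ * z.1 0 + z.2)) ∂σ)| ≤ r * (2 * ε) := by
  have i1 := gprob_unif (E := V (k + 1)) hε
  have i2 := gprob_unif (E := ℝ) hε
  have hm := measurable_Gd2 (σ := σ) ε
  have hnn : ∀ v, 0 ≤ Gd2 σ ε v := fun v => by unfold Gd2; positivity
  have hcc : Continuous fun z : V (k + 1) × ℝ => Real.cos (r * (κ * z.1 0 + z.2)) := by fun_prop
  have hc := hcc.measurable
  have hadd : Measurable fun z : (V (k + 1) × ℝ) × (V (k + 1) × ℝ) => z.1 + z.2 :=
    measurable_fst.add measurable_snd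
  have h1 : ∫ z, Real.cos (r * (κ * z.1 0 + z.2)) * Gd2 σ ε z =
      ∫ z : (V (k + 1) × ℝ) × (V (k + 1) × ℝ),
        Real.cos (r * (κ * (z.1 + z.2).1 0 + (z.1 + z.2).2))
        ∂(σ.prod ((MX.unif (Metric.ball (0 : V (k + 1)) ε)).prod
          (MX.unif (Metric.ball (0 : ℝ) ε)))) := by
    have h2 := integral_withDensity_eq_integral_toReal_smul
      (μ := (volume : Measure (V (k + 1) × ℝ)))
      hm.ennreal_ofReal (Filter.Eventually.of_forall fun _ => ENNReal.ofReal_lt_top)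
      (fun z => Real.cos (r * (κ * z.1 0 + z.2)))
    rw [withDensity_Gd2 hε, integral_map hadd.aemeasurable hc.aestronglyMeasurable] at h2
    rw [h2]
    refine integral_congr_ae (Filter.Eventually.of_forall fun v => ?_)
    simp only [smul_eq_mul]
    rw [ENNReal.toReal_ofReal (hnn v), mul_comm]
  have h3 : ∫ z, Real.cos (r * (κ * z.1 0 + z.2)) ∂σ =
      ∫ z : (V (k + 1) × ℝ) × (V (k + 1) × ℝ), Real.cos (r * (κ * z.1.1 0 + z.1.2))
        ∂(σ.prod ((MX.unif (Metric.ball (0 : V (k + 1)) ε)).prod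
          (MX.unif (Metric.ball (0 : ℝ) ε)))) := by
    have h4 := integral_fun_fst (μ := σ) (ν := (MX.unif (Metric.ball (0 : V (k + 1)) ε)).prod
          (MX.unif (Metric.ball (0 : ℝ) ε)))
      (fun z => Real.cos (r * (κ * z.1 0 + z.2)))
    rw [h4]
    simp
  have hb : ∀ g : (V (k + 1) × ℝ) × (V (k + 1) × ℝ) → ℝ, Measurable g → (∀ z, |g z| ≤ 1) →
      Integrable g (σ.prod ((MX.unif (Metric.ball (0 : V (k + 1)) ε)).prod
          (MX.unif (Metric.ball (0 : ℝ) ε)))) := by
    intro g hg hg1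
    refine Integrable.of_bound hg.aestronglyMeasurable 1 (Filter.Eventually.of_forall fun z => ?_)
    rw [Real.norm_eq_abs]
    exact hg1 z
  have hi1 : Integrable (fun z : (V (k + 1) × ℝ) × (V (k + 1) × ℝ) =>
      Real.cos (r * (κ * (z.1 + z.2).1 0 + (z.1 + z.2).2)))
      (σ.prod ((MX.unif (Metric.ball (0 : V (k + 1)) ε)).prod
          (MX.unif (Metric.ball (0 : ℝ) ε)))) :=
    hb _ (hc.comp hadd) fun z => Real.abs_cos_le_one _
  have hi2 : Integrable (fun z : (V (k + 1) × ℝ) × (V (k + 1) × ℝ) =>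
      Real.cos (r * (κ * z.1.1 0 + z.1.2)))
      (σ.prod ((MX.unif (Metric.ball (0 : V (k + 1)) ε)).prod
          (MX.unif (Metric.ball (0 : ℝ) ε)))) :=
    hb _ (hc.comp measurable_fst) fun z => Real.abs_cos_le_one _
  rw [h1, h3, ← integral_sub hi1 hi2]
  have hae : ∀ᵐ z ∂(σ.prod ((MX.unif (Metric.ball (0 : V (k + 1)) ε)).prod
          (MX.unif (Metric.ball (0 : ℝ) ε)))), ‖z.2.1‖ < ε ∧ ‖z.2.2‖ < ε :=
    (Measure.quasiMeasurePreserving_snd (μ := σ)).ae (ae_small (k := k) hε)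
  have h7 := norm_integral_le_of_norm_le_const
    (μ := σ.prod ((MX.unif (Metric.ball (0 : V (k + 1)) ε)).prod
          (MX.unif (Metric.ball (0 : ℝ) ε))))
    (f := fun z => Real.cos (r * (κ * (z.1 + z.2).1 0 + (z.1 + z.2).2)) -
      Real.cos (r * (κ * z.1.1 0 + z.1.2)))
    (C := r * (2 * ε)) (by
      filter_upwards [hae] with z hz
      rw [Real.norm_eq_abs]
      have h8 : |Real.cos (r * (κ * (z.1 + z.2).1 0 + (z.1 + z.2).2)) -
          Real.cos (r * (κ * z.1.1 0 + z.1.2))| ≤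
          |r * (κ * (z.1 + z.2).1 0 + (z.1 + z.2).2) - r * (κ * z.1.1 0 + z.1.2)| := by
        have h9 := Real.lipschitzWith_cos.dist_le_mul
          (r * (κ * (z.1 + z.2).1 0 + (z.1 + z.2).2)) (r * (κ * z.1.1 0 + z.1.2))
        simpa [Real.dist_eq] using h9
      refine h8.trans ?_
      have h10 : r * (κ * (z.1 + z.2).1 0 + (z.1 + z.2).2) - r * (κ * z.1.1 0 + z.1.2) =
          r * (κ * z.2.1 0 + z.2.2) := by
        simp only [Prod.fst_add, Prod.snd_add, PiLp.add_apply]
        ring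
      rw [h10, abs_mul, abs_of_nonneg hr]
      refine mul_le_mul_of_nonneg_left ?_ hr
      have h11 : |z.2.1 0| ≤ ε := by
        have := PiLp.norm_apply_le z.2.1 0
        rw [Real.norm_eq_abs] at this
        exact this.trans hz.1.le
      have h12 : |z.2.2| ≤ ε := hz.2.le
      have h13 : |κ * z.2.1 0| ≤ ε := by
        rw [abs_mul, abs_of_nonneg hκ]
        calc κ * |z.2.1 0| ≤ 1 * |z.2.1 0| := by gcongr
          _ ≤ ε := by rw [one_mul]; exact h11
      refine (abs_add_le _ _).trans ?_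
      linarith)
  rw [Real.norm_eq_abs] at h7
  refine h7.trans ?_
  rw [probReal_univ, mul_one]

end Pool.Agent.CB
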