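import Pool.Agent.CB.Dec2A
import Pool.Agent.CB.R2S

/-!
# CB-Dec2B: decay for the measures `Rad2`

Apply `dec_RD2` to `Gd2 σ ε` (`rd2_Gd2`) and let `ε → 0` (`smooth_close2`).
-/

set_option autoImplicit false

open MeasureTheory Set
open scoped ENNReal NNReal

namespace Pool.Agent.CB

private theorem le_of_eps2 {x y c : ℝ} (hc : 0 ≤ c)
    (h : ∀ ε : ℝ, 0 < ε → ε ≤ 1 → x ≤ y + c * ε) : x ≤ y := by
  refine le_of_forall_pos_le_add fun δ hδ => ?_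
  have h1 : 0 < min 1 (δ / (c + 1)) := lt_min one_pos (by positivity)
  refine (h _ h1 (min_le_left _ _)).trans ?_
  have h2 : c * min 1 (δ / (c + 1)) ≤ c * (δ / (c + 1)) :=
    mul_le_mul_of_nonneg_left (min_le_right _ _) hc
  have h3 : c * (δ / (c + 1)) ≤ δ := by
    rw [mul_div_assoc', div_le_iff₀ (by positivity)]
    nlinarith
  linarith

private theorem dif_sub_le2 {N : ℕ} (φ ψ : ℕ → ℝ) (b : ℕ → ℝ)
    (h : ∀ i ∈ Finset.range (N + 1), |φ i - ψ i| ≤ b i) :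
    |dif N φ| ≤ |dif N ψ| + ∑ i ∈ Finset.range (N + 1), (N.choose i : ℝ) * b i := by
  have h1 : dif N φ = dif N ψ +
      ∑ i ∈ Finset.range (N + 1), (-1 : ℝ) ^ i * (N.choose i : ℝ) * (φ i - ψ i) := by
    unfold dif
    rw [← Finset.sum_add_distrib]
    refine Finset.sum_congr rfl fun i _ => ?_
    ring
  rw [h1]
  refine (abs_add_le _ _).trans (add_le_add_right ?_ _)
  refine (Finset.abs_sum_le_sum_abs _ _).trans (Finset.sum_le_sum fun i hi => ?_)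
  rw [abs_mul, abs_mul, abs_pow, abs_neg, abs_one, one_pow, one_mul, Nat.abs_cast]
  exact mul_le_mul_of_nonneg_left (h i hi) (Nat.cast_nonneg _)

theorem dec_Rad2 {k N : ℕ} (hk : 1 ≤ k) (hN : ((k : ℝ) + 2) / 2 ≤ N) :
    ∃ K : ℝ, 0 < K ∧ ∀ (σ : Measure (V (k + 1) × ℝ)), Rad2 k σ → ∀ κ : ℝ, 1 / 2 ≤ κ → κ ≤ 1 →
      (∀ r : ℝ, 0 < r →
        |∫ z, Real.cos (r * (κ * z.1 0 + z.2)) ∂σ| ≤ K * r ^ (-(((k : ℝ) + 2) / 2))) ∧
      ∀ r : ℝ, 0 ≤ r → ∀ h : ℝ, 0 ≤ h → h ≤ 1 →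
        |dif N (fun i => ∫ z, Real.cos (Real.exp (i * h) * r * (κ * z.1 0 + z.2)) ∂σ)| ≤
          K * h ^ N * bet (((k : ℝ) + 2) / 2) N r := by
  obtain ⟨Cm, hCm⟩ := rd2_Gd2 k
  obtain ⟨K, hK, hdec⟩ := dec_RD2 hk hN Cm
  refine ⟨K, hK, fun σ hσ κ hκ hκ1 => ⟨fun r hr => ?_, fun r hr h hh0 hh1 => ?_⟩⟩
  · have := hσ.prob
    refine le_of_eps2 (c := 2 * r) (by positivity) fun ε hε hε1 => ?_
    have h1 := (hdec (Gd2 σ ε) (hCm σ hσ ε hε hε1) κ hκ hκ1).1 r hr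
    have h2 := smooth_close2 (σ := σ) hε (κ := κ) (by linarith) hκ1 hr.le
    have h4 := abs_sub_abs_le_abs_sub (∫ z, Real.cos (r * (κ * z.1 0 + z.2)) ∂σ)
      (∫ z, Real.cos (r * (κ * z.1 0 + z.2)) * Gd2 σ ε z)
    rw [abs_sub_comm (∫ z, Real.cos (r * (κ * z.1 0 + z.2)) ∂σ)] at h4
    have h5 : r * (2 * ε) = 2 * r * ε := by ring
    linarith
  · have := hσ.prob
    refine le_of_eps2 (c := ∑ i ∈ Finset.range (N + 1),
      (N.choose i : ℝ) * (Real.exp (i * h) * r * 2)) (Finset.sum_nonneg fun i _ => by positivity)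
      fun ε hε hε1 => ?_
    have h1 := (hdec (Gd2 σ ε) (hCm σ hσ ε hε hε1) κ hκ hκ1).2 r hr h hh0 hh1
    have h2 := dif_sub_le2 (N := N)
      (fun i => ∫ z, Real.cos (Real.exp (i * h) * r * (κ * z.1 0 + z.2)) ∂σ)
      (fun i => ∫ z, Real.cos (Real.exp (i * h) * r * (κ * z.1 0 + z.2)) * Gd2 σ ε z)
      (fun i => Real.exp (i * h) * r * (2 * ε)) (fun i _ => by
        rw [abs_sub_comm]
        exact smooth_close2 (σ := σ) hε (by linarith) hκ1 (by positivity))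
    refine h2.trans (add_le_add h1 (le_of_eq ?_))
    rw [Finset.sum_mul]
    refine Finset.sum_congr rfl fun i _ => ?_
    ring

end Pool.Agent.CB
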