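import Pool.Agent.CB.Defs

/-!
# CB-ExtA: lower semicontinuous functions are suprema of continuous functions with compact support

Inf-convolution: `v m x = ⨅ y, min (g y) m + m * ‖x - y‖` (values in `[0, m]`, `m`-Lipschitz, increasing in `m`,
`v m x → g x`: if `a < g x` then `g > a` on a ball of radius `δ` around `x`, so
`v m x ≥ min a m` as soon as `m δ ≥ a`); times the continuous cut-off
`χ m x = max 0 (min 1 (m + 1 - ‖x‖))` (increasing in `m`, compact support, equal to `1` for
`‖x‖ ≤ m`). `u m x = v m x * χ m x`. Work with real numbers (`(min (g y) m).toReal`, `ciInf`), or use Mathlib's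
results on lower semicontinuous functions in a metric space if there are any.
-/

set_option autoImplicit false

open MeasureTheory Set
open scoped ENNReal NNReal

namespace Pool.Agent.CB

variable {n : ℕ}

/-- truncated values -/
private noncomputable def tv (g : V n → ℝ≥0∞) (m : ℕ) (y : V n) : ℝ :=
  (min (g y) (m : ℝ≥0∞)).toReal

private theorem tv_nonneg (g : V n → ℝ≥0∞) (m : ℕ) (y : V n) : 0 ≤ tv g m y :=
  ENNReal.toReal_nonneg

private theorem min_ne_top (g : V n → ℝ≥0∞) (m : ℕ) (y : V n) : min (g y) (m : ℝ≥0∞) ≠ ⊤ :=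
  ne_top_of_le_ne_top (ENNReal.natCast_ne_top m) (min_le_right _ _)

private theorem tv_mono (g : V n → ℝ≥0∞) {m m' : ℕ} (h : m ≤ m') (y : V n) :
    tv g m y ≤ tv g m' y := by
  unfold tv
  refine ENNReal.toReal_mono (min_ne_top g m' y) (min_le_min le_rfl ?_)
  exact_mod_cast h

/-- inf-convolution -/
private noncomputable def ic (g : V n → ℝ≥0∞) (m : ℕ) (x : V n) : ℝ :=
  ⨅ y : V n, (tv g m y + m * dist x y)

private theorem ic_bdd (g : V n → ℝ≥0∞) (m : ℕ) (x : V n) :
    BddBelow (Set.range fun y : V n => tv g m y + m * dist x y) := by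
  refine ⟨0, ?_⟩
  rintro _ ⟨y, rfl⟩
  have := tv_nonneg g m y
  positivity

private theorem ic_le (g : V n → ℝ≥0∞) (m : ℕ) (x y : V n) :
    ic g m x ≤ tv g m y + m * dist x y := ciInf_le (ic_bdd g m x) y

private theorem le_ic {g : V n → ℝ≥0∞} {m : ℕ} {x : V n} {c : ℝ}
    (h : ∀ y, c ≤ tv g m y + m * dist x y) : c ≤ ic g m x := le_ciInf h

private theorem ic_nonneg (g : V n → ℝ≥0∞) (m : ℕ) (x : V n) : 0 ≤ ic g m x := by
  refine le_ic fun y => ?_
  have := tv_nonneg g m y
  positivity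

private theorem ic_cont (g : V n → ℝ≥0∞) (m : ℕ) : Continuous (ic g m) := by
  have h : LipschitzWith (m : ℝ≥0) (ic g m) := by
    refine LipschitzWith.of_le_add_mul (m : ℝ≥0) fun x x' => ?_
    rw [← sub_le_iff_le_add]
    refine le_ic fun y => ?_
    rw [sub_le_iff_le_add]
    refine (ic_le g m x y).trans ?_
    have h1 : dist x y ≤ dist x' y + dist x x' := by
      rw [add_comm]
      exact dist_triangle x x' y
    have h2 : (m : ℝ) * dist x y ≤ m * (dist x' y + dist x x') :=
      mul_le_mul_of_nonneg_left h1 (Nat.cast_nonneg m)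
    have h3 : (((m : ℝ≥0) : ℝ)) = (m : ℝ) := by simp
    rw [h3]
    linarith
  exact h.continuous

private theorem ic_mono (g : V n → ℝ≥0∞) {m m' : ℕ} (h : m ≤ m') (x : V n) :
    ic g m x ≤ ic g m' x := by
  refine le_ic fun y => (ic_le g m x y).trans ?_
  have h1 : (m : ℝ) ≤ m' := by exact_mod_cast h
  exact add_le_add (tv_mono g h y) (mul_le_mul_of_nonneg_right h1 dist_nonneg)

/-- cut-off -/
private noncomputable def cu (m : ℕ) (x : V n) : ℝ := max 0 (min 1 ((m : ℝ) + 1 - ‖x‖))

private theorem cu_nonneg (m : ℕ) (x : V n) : 0 ≤ cu m x := le_max_left _ _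

private theorem cu_le_one (m : ℕ) (x : V n) : cu m x ≤ 1 :=
  max_le zero_le_one (min_le_left _ _)

private theorem cu_mono {m m' : ℕ} (h : m ≤ m') (x : V n) : cu m x ≤ cu m' x := by
  have h1 : (m : ℝ) ≤ m' := by exact_mod_cast h
  exact max_le_max le_rfl (min_le_min le_rfl (by linarith))

private theorem cu_cont (m : ℕ) : Continuous (cu m : V n → ℝ) :=
  continuous_const.max (continuous_const.min (continuous_const.sub continuous_norm))

private theorem cu_eq_one {m : ℕ} {x : V n} (h : ‖x‖ ≤ m) : cu m x = 1 := by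
  unfold cu
  rw [min_eq_left (by linarith), max_eq_right zero_le_one]

private theorem cu_eq_zero {m : ℕ} {x : V n} (h : (m : ℝ) + 1 < ‖x‖) : cu m x = 0 := by
  unfold cu
  rw [max_eq_left]
  exact (min_le_right _ _).trans (by linarith)

private theorem ic_le_g (g : V n → ℝ≥0∞) (m : ℕ) (x : V n) :
    ENNReal.ofReal (ic g m x) ≤ g x := by
  have h1 := ic_le g m x x
  rw [dist_self, mul_zero, add_zero] at h1
  calc ENNReal.ofReal (ic g m x) ≤ ENNReal.ofReal (tv g m x) := ENNReal.ofReal_le_ofReal h1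
    _ = min (g x) (m : ℝ≥0∞) := ENNReal.ofReal_toReal (min_ne_top g m x)
    _ ≤ g x := min_le_left _ _

private theorem ic_large {g : V n → ℝ≥0∞} (hg : LowerSemicontinuous g) (x : V n) {a : ℝ≥0}
    (ha : (a : ℝ≥0∞) < g x) : ∃ m0 : ℕ, ∀ m, m0 ≤ m → (a : ℝ) ≤ ic g m x := by
  have h1 := hg x (a : ℝ≥0∞) ha
  obtain ⟨δ, hδ, hb⟩ := Metric.eventually_nhds_iff.1 h1
  obtain ⟨m1, hm1⟩ := exists_nat_ge ((a : ℝ) / δ)
  obtain ⟨m2, hm2⟩ := exists_nat_ge (a : ℝ)
  refine ⟨max m1 m2, fun m hm => le_ic fun y => ?_⟩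
  have e1 : (m1 : ℝ) ≤ m := by exact_mod_cast (le_max_left _ _).trans hm
  have e2 : (m2 : ℝ) ≤ m := by exact_mod_cast (le_max_right _ _).trans hm
  by_cases hy : dist y x < δ
  · have h2 : (a : ℝ≥0∞) < g y := hb hy
    have h3 : (a : ℝ≥0∞) ≤ min (g y) (m : ℝ≥0∞) := by
      refine le_min h2.le ?_
      have h4 : (a : ℝ) ≤ m := hm2.trans e2
      have h5 : a ≤ (m : ℝ≥0) := by exact_mod_cast h4
      exact_mod_cast h5
    have h4 : (a : ℝ) ≤ tv g m y := by
      unfold tv
      have h5 := ENNReal.toReal_mono (min_ne_top g m y) h3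
      simpa using h5
    have h5 : 0 ≤ (m : ℝ) * dist x y := by positivity
    linarith
  · push Not at hy
    have h2 : (a : ℝ) ≤ m * dist x y := by
      rw [dist_comm x y]
      have h3 : (a : ℝ) / δ ≤ m := hm1.trans e1
      rw [div_le_iff₀ hδ] at h3
      exact h3.trans (mul_le_mul_of_nonneg_left hy (Nat.cast_nonneg m))
    have h3 := tv_nonneg g m y
    linarith

/-- Approximation of lower semicontinuous functions from below. -/
theorem lsc_approx {g : V n → ℝ≥0∞} (hg : LowerSemicontinuous g) :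
    ∃ u : ℕ → V n → ℝ≥0, (∀ m, Continuous (u m)) ∧ (∀ m, HasCompactSupport (u m)) ∧
      Monotone u ∧ ∀ x, ⨆ m, (u m x : ℝ≥0∞) = g x := by
  refine ⟨fun m x => (ic g m x * cu m x).toNNReal, fun m => ?_, fun m => ?_, ?_, fun x => ?_⟩
  · exact continuous_real_toNNReal.comp ((ic_cont g m).mul (cu_cont m))
  · refine HasCompactSupport.intro (isCompact_closedBall (0 : V n) ((m : ℝ) + 1)) fun x hx => ?_
    have h1 : (m : ℝ) + 1 < ‖x‖ := by
      rw [mem_closedBall_zero_iff] at hx
      exact not_le.1 hx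
    simp [cu_eq_zero h1]
  · intro m m' h x
    exact Real.toNNReal_mono (mul_le_mul (ic_mono g h x) (cu_mono h x) (cu_nonneg m x)
      (ic_nonneg g m' x))
  · apply le_antisymm
    · refine iSup_le fun m => ?_
      have h1 : ic g m x * cu m x ≤ ic g m x :=
        mul_le_of_le_one_right (ic_nonneg g m x) (cu_le_one m x)
      calc (((ic g m x * cu m x).toNNReal : ℝ≥0) : ℝ≥0∞) = ENNReal.ofReal (ic g m x * cu m x) := rfl
        _ ≤ ENNReal.ofReal (ic g m x) := ENNReal.ofReal_le_ofReal h1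
        _ ≤ g x := ic_le_g g m x
    · refine le_of_forall_lt fun a ha => ?_
      obtain ⟨b, hb1, hb2⟩ := ENNReal.lt_iff_exists_nnreal_btwn.1 ha
      obtain ⟨m0, hm0⟩ := ic_large hg x hb2
      obtain ⟨m1, hm1⟩ := exists_nat_ge ‖x‖
      refine hb1.trans_le ?_
      refine le_trans ?_ (le_iSup _ (max m0 m1))
      have h1 : ‖x‖ ≤ ((max m0 m1 : ℕ) : ℝ) := by
        refine hm1.trans ?_
        exact_mod_cast le_max_right m0 m1
      have h2 : (b : ℝ) ≤ ic g (max m0 m1) x * cu (max m0 m1) x := by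
        rw [cu_eq_one h1, mul_one]
        exact hm0 _ (le_max_left _ _)
      have h3 : b ≤ (ic g (max m0 m1) x * cu (max m0 m1) x).toNNReal := by
        rw [← Real.toNNReal_coe (r := b)]
        exact Real.toNNReal_mono h2
      exact_mod_cast h3

end Pool.Agent.CB
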