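import Pool.Agent.CB.Cv
import Pool.Agent.CB.ExtA
import Pool.Agent.MX.Basic

/-!
# CB-Ext: from continuous functions with compact support to measurable functions

If `∫ f^p = ∞` (and `C ≠ 0`) nothing to prove; the case `C = 0` also follows from the argument
below. Given `ε > 0`, `exists_le_lowerSemicontinuous_lintegral_ge` applied to `f^p` gives a lower
semicontinuous `g ≥ f^p` with `∫ g ≤ ∫ f^p + ε`. By `lsc_approx` `g` is
the supremum of an increasing sequence of continuous functions `g_m` with compact support; then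
`g^(1/p) = ⨆ g_m^(1/p)`, with `g_m^(1/p)` continuous with compact support. By monotone convergence
`mx μ S (g^(1/p)) = ⨆_m mx μ S (g_m^(1/p))` (finite `S`, monotone), so
`∫ mx μ S f ^ p ≤ ∫ mx μ S (g^(1/p))^p ≤ C^p ∫ g ≤ C^p (∫ f^p + ε)`; let `ε → 0` (`C ≠ ∞`).
-/

set_option autoImplicit false

open MeasureTheory Set
open scoped ENNReal NNReal

namespace Pool.Agent.CB

variable {n : ℕ}

private theorem iSup_rpow' {y : ℝ} (hy : 0 < y) (w : ℕ → ℝ≥0∞) :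
    (⨆ m, w m) ^ y = ⨆ m, w m ^ y := by
  have h := (ENNReal.orderIsoRpow y hy).map_iSup w
  rw [ENNReal.orderIsoRpow_apply] at h
  exact h

private theorem ext_lsc {μ : Measure (V n)} [IsProbabilityMeasure μ] {p : ℝ} (hp : 1 ≤ p) {C : ℝ≥0}
    (S : Finset ℝ)
    (h : ∀ f : V n → ℝ, Continuous f → HasCompactSupport f → (∀ x, 0 ≤ f x) →
      ∫⁻ x, MX.mx μ S (fun y => ENNReal.ofReal (f y)) x ^ p ≤
        (C : ℝ≥0∞) ^ p * ∫⁻ x, ENNReal.ofReal (f x) ^ p)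
    {f g : V n → ℝ≥0∞} (hg : LowerSemicontinuous g) (hfg : ∀ x, f x ^ p ≤ g x) :
    ∫⁻ x, MX.mx μ S f x ^ p ≤ (C : ℝ≥0∞) ^ p * ∫⁻ x, g x := by
  have hp0 : 0 < p := lt_of_lt_of_le one_pos hp
  have hq0 : 0 < 1 / p := by positivity
  obtain ⟨u, hu1, hu2, hu3, hu4⟩ := lsc_approx hg
  set F : ℕ → V n → ℝ := fun m x => (u m x : ℝ) ^ (1 / p) with hF
  have hFc : ∀ m, Continuous (F m) := fun m =>
    (NNReal.continuous_coe.comp (hu1 m)).rpow_const fun x => Or.inr hq0.le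
  have hFs : ∀ m, HasCompactSupport (F m) := by
    intro m
    have h1 : F m = (fun z : ℝ≥0 => (z : ℝ) ^ (1 / p)) ∘ u m := rfl
    rw [h1]
    refine (hu2 m).comp_left ?_
    simp only [NNReal.coe_zero]
    exact Real.zero_rpow hq0.ne'
  have hF0 : ∀ m x, 0 ≤ F m x := fun m x => Real.rpow_nonneg (NNReal.coe_nonneg _) _
  have hFe : ∀ m x, ENNReal.ofReal (F m x) = (u m x : ℝ≥0∞) ^ (1 / p) := by
    intro m x
    rw [hF]
    simp only
    rw [← ENNReal.ofReal_rpow_of_nonneg (NNReal.coe_nonneg _) hq0.le, ENNReal.ofReal_coe_nnreal]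
  have hFp : ∀ m x, ENNReal.ofReal (F m x) ^ p = (u m x : ℝ≥0∞) := by
    intro m x
    rw [hFe, ← ENNReal.rpow_mul, one_div_mul_cancel hp0.ne', ENNReal.rpow_one]
  have hFm : ∀ x, Monotone fun m => ENNReal.ofReal (F m x) := by
    intro x m m' hmm
    simp only [hFe]
    exact ENNReal.rpow_le_rpow (ENNReal.coe_le_coe.mpr (hu3 hmm x)) hq0.le
  have hfF : ∀ x, f x ≤ ⨆ m, ENNReal.ofReal (F m x) := by
    intro x
    simp only [hFe]
    rw [← iSup_rpow' hq0, hu4]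
    have h1 : f x = (f x ^ p) ^ (1 / p) := by
      rw [← ENNReal.rpow_mul, mul_one_div_cancel hp0.ne', ENNReal.rpow_one]
    rw [h1]
    exact ENNReal.rpow_le_rpow (hfg x) hq0.le
  have hmeasF : ∀ m, Measurable fun y => ENNReal.ofReal (F m y) := fun m =>
    (hFc m).measurable.ennreal_ofReal
  have hmx : ∀ x, MX.mx μ S f x ≤ ⨆ m, MX.mx μ S (fun y => ENNReal.ofReal (F m y)) x := by
    intro x
    unfold MX.mx
    refine iSup₂_le fun t ht => ?_
    calc ∫⁻ y, f (x + t • y) ∂μ ≤ ∫⁻ y, ⨆ m, ENNReal.ofReal (F m (x + t • y)) ∂μ :=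
          lintegral_mono fun y => hfF _
      _ = ⨆ m, ∫⁻ y, ENNReal.ofReal (F m (x + t • y)) ∂μ := by
          refine lintegral_iSup (fun m => ?_) ?_
          · exact (hmeasF m).comp ((measurable_id.const_smul t).const_add x)
          · intro m m' hmm y
            exact hFm _ hmm
      _ ≤ _ := by
          refine iSup_mono fun m => ?_
          exact le_iSup₂_of_le (f := fun t (_ : t ∈ S) => ∫⁻ y, ENNReal.ofReal (F m (x + t • y)) ∂μ)
            t ht le_rfl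
  calc ∫⁻ x, MX.mx μ S f x ^ p
      ≤ ∫⁻ x, ⨆ m, MX.mx μ S (fun y => ENNReal.ofReal (F m y)) x ^ p := by
        refine lintegral_mono fun x => ?_
        rw [← iSup_rpow' hp0]
        exact ENNReal.rpow_le_rpow (hmx x) hp0.le
    _ = ⨆ m, ∫⁻ x, MX.mx μ S (fun y => ENNReal.ofReal (F m y)) x ^ p := by
        refine lintegral_iSup (fun m => ?_) ?_
        · exact (MX.measurable_mx μ S (hmeasF m)).pow_const _
        · intro m m' hmm x
          exact ENNReal.rpow_le_rpow (MX.mx_mono μ le_rfl (fun y => hFm y hmm) x) hp0.le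
    _ ≤ (C : ℝ≥0∞) ^ p * ∫⁻ x, g x := by
        refine iSup_le fun m => ?_
        refine (h (F m) (hFc m) (hFs m) (hF0 m)).trans ?_
        gcongr with x
        rw [hFp, ← hu4 x]
        exact le_iSup (fun m => (u m x : ℝ≥0∞)) m

theorem ext_cc {μ : Measure (V n)} [IsProbabilityMeasure μ] {p : ℝ} (hp : 1 ≤ p) {C : ℝ≥0}
    (S : Finset ℝ)
    (h : ∀ f : V n → ℝ, Continuous f → HasCompactSupport f → (∀ x, 0 ≤ f x) →
      ∫⁻ x, MX.mx μ S (fun y => ENNReal.ofReal (f y)) x ^ p ≤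
        (C : ℝ≥0∞) ^ p * ∫⁻ x, ENNReal.ofReal (f x) ^ p)
    {f : V n → ℝ≥0∞} (hf : Measurable f) :
    ∫⁻ x, MX.mx μ S f x ^ p ≤ (C : ℝ≥0∞) ^ p * ∫⁻ x, f x ^ p := by
  have hp0 : 0 < p := lt_of_lt_of_le one_pos hp
  refine ENNReal.le_of_forall_pos_le_add fun ε hε _ => ?_
  have hCp : (C : ℝ≥0∞) ^ p ≠ ∞ := ENNReal.rpow_ne_top_of_nonneg hp0.le ENNReal.coe_ne_top
  set δ : ℝ≥0∞ := (ε : ℝ≥0∞) / ((C : ℝ≥0∞) ^ p + 1) with hδ
  have hδ0 : δ ≠ 0 := by
    rw [hδ]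
    refine (ENNReal.div_pos ?_ ?_).ne'
    · exact ENNReal.coe_ne_zero.mpr hε.ne'
    · exact ENNReal.add_ne_top.mpr ⟨hCp, ENNReal.one_ne_top⟩
  obtain ⟨g, hg1, hg2, hg3⟩ := exists_le_lowerSemicontinuous_lintegral_ge volume
    (fun x => f x ^ p) (hf.pow_const p) hδ0
  refine (ext_lsc hp S h hg2 hg1).trans ?_
  calc (C : ℝ≥0∞) ^ p * ∫⁻ x, g x ≤ (C : ℝ≥0∞) ^ p * ((∫⁻ x, f x ^ p) + δ) := by
        gcongr
    _ = ((C : ℝ≥0∞) ^ p * ∫⁻ x, f x ^ p) + (C : ℝ≥0∞) ^ p * δ := mul_add _ _ _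
    _ ≤ ((C : ℝ≥0∞) ^ p * ∫⁻ x, f x ^ p) + ε := by
        gcongr
        calc (C : ℝ≥0∞) ^ p * δ ≤ ((C : ℝ≥0∞) ^ p + 1) * δ := by
              gcongr
              exact le_self_add
          _ ≤ ε := ENNReal.mul_div_le

end Pool.Agent.CB
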