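import Pool.Agent.CB.CDefs
import Pool.Agent.Helper99.TJ.PL

/-!
# CB-LCu: uniform measures on convex sets are log-concave

`Pool.Agent.Helper99.TJ.pl_fin` with `f = indicator (A ∩ K) 1`, `g = indicator (B ∩ K) 1`,
`h = indicator (C ∩ K) 1`. `LC.map`: preimages under the linear map.
-/

set_option autoImplicit false

open MeasureTheory Set
open scoped ENNReal NNReal

namespace Pool.Agent.CB

theorem lc_unif {n : ℕ} {K : Set (Fin n → ℝ)} (hK : MeasurableSet K) (hc : Convex ℝ K) :
    LC (MX.unif K) := by
  intro A B C hA hB hC h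
  have key : volume (A ∩ K) * volume (B ∩ K) ≤ volume (C ∩ K) ^ 2 := by
    have h1 := Pool.Agent.Helper99.TJ.pl_fin n (f := (A ∩ K).indicator 1)
      (g := (B ∩ K).indicator 1) (h := (C ∩ K).indicator 1)
      (measurable_one.indicator (hA.inter hK)) (measurable_one.indicator (hB.inter hK))
      (measurable_one.indicator (hC.inter hK)) (by
        intro x y
        by_cases hx : x ∈ A ∩ K
        · by_cases hy : y ∈ B ∩ K
          · have hz : (1 / 2 : ℝ) • (x + y) ∈ C ∩ K := by
              refine ⟨h x hx.1 y hy.1, ?_⟩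
              rw [smul_add]
              exact hc hx.2 hy.2 (by norm_num) (by norm_num) (by norm_num)
            rw [indicator_of_mem hx, indicator_of_mem hy, indicator_of_mem hz]
            simp
          · rw [indicator_of_notMem hy, mul_zero]
            exact zero_le
        · rw [indicator_of_notMem hx, zero_mul]
          exact zero_le)
    rw [lintegral_indicator_one (hA.inter hK), lintegral_indicator_one (hB.inter hK),
      lintegral_indicator_one (hC.inter hK)] at h1
    exact h1
  have e : ∀ S : Set (Fin n → ℝ), MeasurableSet S →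
      MX.unif K S = (volume K)⁻¹ * volume (S ∩ K) := by
    intro S hS
    unfold MX.unif
    rw [Measure.smul_apply, Measure.restrict_apply hS, smul_eq_mul]
  rw [e A hA, e B hB, e C hC]
  calc (volume K)⁻¹ * volume (A ∩ K) * ((volume K)⁻¹ * volume (B ∩ K))
      = (volume K)⁻¹ ^ 2 * (volume (A ∩ K) * volume (B ∩ K)) := by ring
    _ ≤ (volume K)⁻¹ ^ 2 * volume (C ∩ K) ^ 2 := by gcongr
    _ = ((volume K)⁻¹ * volume (C ∩ K)) ^ 2 := by ring

theorem LC.map {E F : Type} [AddCommGroup E] [Module ℝ E] [MeasurableSpace E] [AddCommGroup F]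
    [Module ℝ F] [MeasurableSpace F] {ν : Measure E} (h : LC ν) (T : E →ₗ[ℝ] F)
    (hT : Measurable T) : LC (ν.map T) := by
  intro A B C hA hB hC hABC
  rw [Measure.map_apply hT hA, Measure.map_apply hT hB, Measure.map_apply hT hC]
  refine h _ _ _ (hT hA) (hT hB) (hT hC) fun a ha b hb => ?_
  rw [mem_preimage, map_smul, map_add]
  exact hABC _ ha _ hb

end Pool.Agent.CB
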