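import Pool.Agent.CB.OrbDefs
import Pool.Agent.CB.LCu
import Pool.Agent.CB.Ext

/-!
# CB-OrbR: the marginals of a measure with the orbit property

`σ = μ.map (Pv v ζ)`. `LC.map`. `symm`: `μ` is symmetric and `Pv` is linear. Let `W = V (k+1) × ℝ`. Characteristic function
(`Measure.ext_of_charFunDual`; a continuous functional on `W` is
`(x, t) ↦ ⟨w, x⟩ + s t`): `∫ exp (i (⟨w, x⟩ + s t)) dσ = ∫ exp (i (∑ w j v j y + s ζ y)) dμ(y)`; with `w = ρ a`, `‖a‖ = 1`, `rot` gives
`∑ w j v j y + s ζ y = ρ v 0 (g y) + s ζ (g y)` and `μ.map g = μ`, so it is `∫ exp (i (‖w‖ v 0 y + s ζ y)) dμ(y)`, a function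
of `‖w‖` and `s`. Hence invariance under `(x, t) ↦ (O x, t)`. Second moments: `rot` with `a = single j 1`:
`∫ (v j)^2 dμ = ∫ (v 0)^2 dμ = 1`, and `‖toLp (v i y)‖^2 = ∑ (v i y)^2`.
-/

set_option autoImplicit false

open MeasureTheory Set
open scoped ENNReal NNReal

namespace Pool.Agent.CB

variable {E : Type} [NormedAddCommGroup E] [NormedSpace ℝ E] [FiniteDimensional ℝ E]
  [MeasurableSpace E] [BorelSpace E]

/-- `Pv` as a linear map -/
private noncomputable def PvL {k : ℕ} (v : Fin (k + 1) → E →ₗ[ℝ] ℝ) (ζ : E →ₗ[ℝ] ℝ) :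
    E →ₗ[ℝ] V (k + 1) × ℝ where
  toFun := Pv v ζ
  map_add' x y := by
    refine Prod.ext ?_ ?_
    · ext i
      simp [Pv]
    · simp [Pv]
  map_smul' a x := by
    refine Prod.ext ?_ ?_
    · ext i
      simp [Pv]
    · simp [Pv]

theorem measurable_Pv {k : ℕ} (v : Fin (k + 1) → E →ₗ[ℝ] ℝ) (ζ : E →ₗ[ℝ] ℝ) :
    Measurable (Pv v ζ) :=
  (PvL v ζ).continuous_of_finiteDimensional.measurable

private theorem normsq_Pv {k : ℕ} (v : Fin (k + 1) → E →ₗ[ℝ] ℝ) (ζ : E →ₗ[ℝ] ℝ) (y : E) :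
    ‖(Pv v ζ y).1‖ ^ 2 = ∑ i, v i y ^ 2 := by
  rw [EuclideanSpace.norm_sq_eq]
  simp [Pv]

private theorem inner_Pv {k : ℕ} (v : Fin (k + 1) → E →ₗ[ℝ] ℝ) (ζ : E →ₗ[ℝ] ℝ) (y : E)
    (w : V (k + 1)) : inner ℝ w (Pv v ζ y).1 = ∑ i, w i * v i y := by
  rw [PiLp.inner_apply]
  refine Finset.sum_congr rfl fun i _ => ?_
  simp [Pv, mul_comm]

private theorem key {k : ℕ} {μ : Measure E} {f : E →ₗ[ℝ] ℝ} {κ : ℝ}
    {v : Fin (k + 1) → E →ₗ[ℝ] ℝ} {ζ : E →ₗ[ℝ] ℝ} (h : OrbD k μ f κ v ζ) (w : V (k + 1))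
    (s : ℝ) :
    ∫ y, Complex.exp (((∑ i, w i * v i y) + s * ζ y : ℝ) * Complex.I) ∂μ =
      ∫ y, Complex.exp ((‖w‖ * v 0 y + s * ζ y : ℝ) * Complex.I) ∂μ := by
  have hv : ∀ i, Continuous (v i) := fun i => (v i).continuous_of_finiteDimensional
  have hz : Continuous ζ := ζ.continuous_of_finiteDimensional
  by_cases hw : w = 0
  · subst hw
    simp
  · have hR : 0 < ‖w‖ := norm_pos_iff.2 hw
    obtain ⟨g, hg1, hg2, hg3⟩ := h.rot (‖w‖⁻¹ • w) (by
      rw [norm_smul, norm_inv, norm_norm, inv_mul_cancel₀ hR.ne'])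
    have hgc : Continuous g := g.continuous_of_finiteDimensional
    conv_rhs => rw [← hg1]
    rw [integral_map hgc.measurable.aemeasurable (by fun_prop)]
    congr 1
    funext y
    congr 3
    rw [← hg2, hg3, Finset.mul_sum]
    congr 1
    refine Finset.sum_congr rfl fun i _ => ?_
    rw [PiLp.smul_apply, smul_eq_mul]
    field_simp

theorem rad2_Pv {k : ℕ} {μ : Measure E} [IsProbabilityMeasure μ] (hlc : LC μ)
    (hs : μ.map (fun y => -y) = μ) (hint : ∀ f : E →ₗ[ℝ] ℝ, Integrable (fun y => f y ^ 2) μ)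
    {f : E →ₗ[ℝ] ℝ} {κ : ℝ} {v : Fin (k + 1) → E →ₗ[ℝ] ℝ} {ζ : E →ₗ[ℝ] ℝ}
    (h : OrbD k μ f κ v ζ) : Rad2 k (μ.map (Pv v ζ)) := by
  have hm := measurable_Pv v ζ
  have hσ : IsProbabilityMeasure (μ.map (Pv v ζ)) :=
    Measure.isProbabilityMeasure_map hm.aemeasurable
  have hv : ∀ i, Continuous (v i) := fun i => (v i).continuous_of_finiteDimensional
  have hz : Continuous ζ := ζ.continuous_of_finiteDimensional
  have hvar : ∀ i, ∫ y, v i y ^ 2 ∂μ = 1 := by
    intro i
    obtain ⟨g, hg1, hg2, -⟩ := h.rot (EuclideanSpace.single i 1) (by simp)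
    have hgc : Continuous g := g.continuous_of_finiteDimensional
    rw [← h.var]
    conv_rhs => rw [← hg1]
    rw [integral_map hgc.measurable.aemeasurable (by fun_prop)]
    congr 1
    funext y
    rw [← hg2]
    simp [EuclideanSpace.single_apply]
  refine ⟨hσ, hlc.map (PvL v ζ) hm, ?_, fun O => ?_, ?_, ?_⟩
  · rw [Measure.map_map measurable_neg hm]
    have h1 : (fun z : V (k + 1) × ℝ => -z) ∘ Pv v ζ = Pv v ζ ∘ fun y => -y := by
      funext y
      exact ((PvL v ζ).map_neg y).symm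
    rw [h1, ← Measure.map_map hm measurable_neg, hs]
  · have hOm : Measurable (fun z : V (k + 1) × ℝ => (O z.1, z.2)) := by fun_prop
    have hp2 : IsProbabilityMeasure ((μ.map (Pv v ζ)).map (fun z => (O z.1, z.2))) :=
      Measure.isProbabilityMeasure_map hOm.aemeasurable
    refine Measure.ext_of_charFunDual ?_
    funext L
    -- representation of the functional
    set w : V (k + 1) := (InnerProductSpace.toDual ℝ (V (k + 1))).symm
      (L.comp (ContinuousLinearMap.inl ℝ (V (k + 1)) ℝ)) with hw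
    have hL : ∀ z : V (k + 1) × ℝ, L z = inner ℝ w z.1 + L (0, 1) * z.2 := by
      intro z
      have h1 : inner ℝ w z.1 = L (z.1, 0) := by
        rw [hw, InnerProductSpace.toDual_symm_apply]
        rfl
      have h2 : L (0, 1) * z.2 = L (0, z.2) := by
        have h3 : ((0 : V (k + 1)), z.2) = z.2 • ((0 : V (k + 1)), (1 : ℝ)) := by
          rw [Prod.smul_mk, smul_zero, smul_eq_mul, mul_one]
        rw [h3, map_smul, smul_eq_mul, mul_comm]
      rw [h1, h2, ← map_add, Prod.mk_add_mk, add_zero, zero_add]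
    rw [charFunDual_apply, integral_map hOm.aemeasurable (by fun_prop), charFunDual_apply,
      integral_map hm.aemeasurable (by fun_prop), integral_map hm.aemeasurable (by fun_prop)]
    have e1 : ∀ y, L (Pv v ζ y) = (∑ i, w i * v i y) + L (0, 1) * ζ y := by
      intro y
      rw [hL, inner_Pv]
      rfl
    have e2 : ∀ y, L (O (Pv v ζ y).1, (Pv v ζ y).2) =
        (∑ i, (O.symm w) i * v i y) + L (0, 1) * ζ y := by
      intro y
      rw [hL]
      have h3 : inner ℝ w (O (Pv v ζ y).1) = inner ℝ (O.symm w) (Pv v ζ y).1 := by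
        conv_lhs => rw [← O.apply_symm_apply w]
        exact O.inner_map_map _ _
      simp only
      rw [h3, inner_Pv]
      rfl
    simp only [e1, e2]
    rw [key h, key h, O.symm.norm_map]
  · rw [lintegral_map (by fun_prop) hm]
    have h1 : ∀ y, ‖(Pv v ζ y).1‖ₑ ^ (2 : ℝ) = ENNReal.ofReal (∑ i, v i y ^ 2) := by
      intro y
      rw [← ofReal_norm, ENNReal.ofReal_rpow_of_nonneg (norm_nonneg _) (by norm_num),
        ← normsq_Pv v ζ y]
      norm_num
    simp only [h1]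
    have hi : Integrable (fun y => ∑ i, v i y ^ 2) μ := integrable_finsetSum _ fun i _ => hint (v i)
    rw [← ofReal_integral_eq_lintegral_ofReal hi
      (Filter.Eventually.of_forall fun y => Finset.sum_nonneg fun i _ => sq_nonneg _)]
    have h2 : ∫ y, ∑ i, v i y ^ 2 ∂μ = (k + 1 : ℕ) := by
      rw [integral_finsetSum _ fun i _ => hint (v i)]
      simp [hvar]
    rw [h2, ENNReal.ofReal_natCast]
    push_cast
    rfl
  · rw [lintegral_map (by fun_prop) hm]
    have h1 : ∀ y, ‖(Pv v ζ y).2‖ₑ ^ (2 : ℝ) = ENNReal.ofReal (ζ y ^ 2) := by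
      intro y
      rw [← ofReal_norm, ENNReal.ofReal_rpow_of_nonneg (norm_nonneg _) (by norm_num)]
      simp [Pv]
    simp only [h1]
    rw [← ofReal_integral_eq_lintegral_ofReal (hint ζ)
      (Filter.Eventually.of_forall fun y => sq_nonneg _)]
    exact ENNReal.ofReal_le_one.2 h.var2

end Pool.Agent.CB
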