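import Pool.Agent.CB.Cor
import Pool.Agent.CB.Dec2B
import Pool.Agent.CB.OrbR
import Pool.Agent.CB.GenIso

/-!
# CB-Cor2: the maximal theorem for bodies with the orbit property

As `dec_of_rad` and `cliff_bdd` (files `DecC.lean`, `Cor.lean`). Let `T` be from `exists_iso_gen`, `ν = (unif K).map T`. For
`ξ` in `V N` of norm one, `f y = ⟨ξ, T y⟩` has variance one, `OrbE` gives `κ, v, ζ`;
`ft ν (c • ξ) = ∫ cos (c (κ v 0 y + ζ y)) d(unif K) = ∫ cos (c (κ z.1 0 + z.2)) dσ(z)`, `σ = (unif K).map (Pv v ζ)`, `rad2_Pv`,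
`dec_Rad2`. `d0` as in `dec_of_rad`. Then `rg_k`, `bdd_of_map`.
-/

set_option autoImplicit false

open MeasureTheory Set
open scoped ENNReal NNReal

namespace Pool.Agent.CB

private theorem dc2_dif_const {N : ℕ} (hN : 1 ≤ N) (c : ℝ) : dif N (fun _ => c) = 0 := by
  unfold dif
  rw [← Finset.sum_mul]
  have h := Int.alternating_sum_range_choose_of_ne (n := N) (by omega)
  have h2 : (∑ i ∈ Finset.range (N + 1), (-1 : ℝ) ^ i * (N.choose i : ℝ)) = 0 := by
    have := congrArg (Int.cast : ℤ → ℝ) h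
    push_cast at this
    exact this
  rw [h2, zero_mul]

private theorem dc2_abs_cos_sub_one (x : ℝ) : |Real.cos x - 1| ≤ |x| := by
  have h1 : |Real.cos x - Real.cos 0| ≤ |x - 0| := Real.abs_cos_sub_cos_le x 0
  simpa using h1

theorem dec_of_rad2 {k N : ℕ} (hk : 1 ≤ k) (hN : ((k : ℝ) + 2) / 2 ≤ N) :
    ∃ K : ℝ, 0 < K ∧ ∀ (n : ℕ) (ν : Measure (V n)), SymP ν →
      (∀ ξ : V n, Integrable (fun y => inner ℝ ξ y ^ 2) ν) →
      (∀ ξ : V n, ∫ y, inner ℝ ξ y ^ 2 ∂ν = ‖ξ‖ ^ 2) →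
      (∀ ξ : V n, ‖ξ‖ = 1 → ∃ (κ : ℝ) (P : V n → V (k + 1) × ℝ), 1 / 2 ≤ κ ∧ κ ≤ 1 ∧
        Measurable P ∧ (∀ y, κ * (P y).1 0 + (P y).2 = inner ℝ ξ y) ∧ Rad2 k (ν.map P)) →
      Dec (((k : ℝ) + 2) / 2) N K ν := by
  obtain ⟨K, hK, h⟩ := dec_Rad2 hk hN
  refine ⟨max K 1, lt_of_lt_of_le hK (le_max_left _ _), fun n ν hs hint hiso hP => ?_⟩
  have hN1 : 1 ≤ N := by
    have : (0 : ℝ) < N := by
      have : (0 : ℝ) ≤ k := Nat.cast_nonneg k
      linarith
    exact_mod_cast this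
  haveI := hs.prob
  -- the formula for the Fourier transform
  have key : ∀ ξ : V n, ξ ≠ 0 → ∃ (σ : Measure (V (k + 1) × ℝ)) (κ : ℝ), Rad2 k σ ∧
      1 / 2 ≤ κ ∧ κ ≤ 1 ∧ ∀ c : ℝ,
      ft ν (c • ξ) = ∫ z, Real.cos (c * ‖ξ‖ * (κ * z.1 0 + z.2)) ∂σ := by
    intro ξ hξ
    have hn : 0 < ‖ξ‖ := norm_pos_iff.2 hξ
    obtain ⟨κ, P, hκ0, hκ1, hPm, hP0, hPr⟩ := hP (‖ξ‖⁻¹ • ξ) (by
      rw [norm_smul, norm_inv, norm_norm, inv_mul_cancel₀ hn.ne'])
    refine ⟨ν.map P, κ, hPr, hκ0, hκ1, fun c => ?_⟩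
    rw [integral_map hPm.aemeasurable]
    · unfold ft
      refine integral_congr_ae (Filter.Eventually.of_forall fun y => ?_)
      simp only
      congr 1
      rw [hP0 y, inner_smul_left, inner_smul_left]
      simp only [conj_trivial]
      field_simp
    · refine Continuous.aestronglyMeasurable ?_
      have hc0 : Continuous fun z : V (k + 1) × ℝ => z.1 0 :=
        (EuclideanSpace.proj (0 : Fin (k + 1))).continuous.comp continuous_fst
      exact Real.continuous_cos.comp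
        (continuous_const.mul ((continuous_const.mul hc0).add continuous_snd))
  refine ⟨hs, ?_, ?_, ?_⟩
  · -- d0
    intro ξ
    by_cases hξ : ξ = 0
    · subst hξ
      unfold ft
      simp
    have hn : 0 < ‖ξ‖ := norm_pos_iff.2 hξ
    have hci : Integrable (fun y => Real.cos (inner ℝ ξ y)) ν := by
      refine Integrable.of_bound (C := 1) ?_ (Filter.Eventually.of_forall fun y => ?_)
      · exact Continuous.aestronglyMeasurable (by fun_prop)
      · rw [Real.norm_eq_abs]; exact Real.abs_cos_le_one _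
    have h1 : ft ν ξ - 1 = ∫ y, (Real.cos (inner ℝ ξ y) - 1) ∂ν := by
      unfold ft
      rw [integral_sub hci (integrable_const _)]
      simp
    rw [h1]
    have h2 : Integrable (fun y => (inner ℝ ξ y ^ 2 / ‖ξ‖ + ‖ξ‖) / 2) ν := by
      have := (((hint ξ).div_const ‖ξ‖).add (integrable_const ‖ξ‖)).div_const 2
      exact this
    calc |∫ y, (Real.cos (inner ℝ ξ y) - 1) ∂ν|
        ≤ ∫ y, |Real.cos (inner ℝ ξ y) - 1| ∂ν := by
          have := norm_integral_le_integral_norm (μ := ν) (fun y => Real.cos (inner ℝ ξ y) - 1)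
          simpa [Real.norm_eq_abs] using this
      _ ≤ ∫ y, (inner ℝ ξ y ^ 2 / ‖ξ‖ + ‖ξ‖) / 2 ∂ν := by
          refine integral_mono (hci.sub (integrable_const _)).abs h2 fun y => ?_
          simp only
          refine (dc2_abs_cos_sub_one _).trans ?_
          have h3 : 0 ≤ (|inner ℝ ξ y| - ‖ξ‖) ^ 2 := sq_nonneg _
          have h4 : |(inner ℝ ξ y : ℝ)| ^ 2 = (inner ℝ ξ y : ℝ) ^ 2 := sq_abs _
          rw [le_div_iff₀ (by norm_num), ← sub_nonneg]
          have h5 : (inner ℝ ξ y : ℝ) ^ 2 / ‖ξ‖ + ‖ξ‖ - |(inner ℝ ξ y : ℝ)| * 2 =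
              (|(inner ℝ ξ y : ℝ)| - ‖ξ‖) ^ 2 / ‖ξ‖ := by
            rw [← h4]
            field_simp
            ring
          rw [h5]
          positivity
      _ = ‖ξ‖ := by
          rw [integral_div, integral_add ((hint ξ).div_const _) (integrable_const _), integral_div,
            hiso ξ]
          simp only [integral_const, probReal_univ, one_smul, smul_eq_mul]
          field_simp
          ring
      _ ≤ max K 1 * ‖ξ‖ := by
          have := le_max_right K 1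
          nlinarith
  · -- d1
    intro ξ hξ
    have hn : 0 < ‖ξ‖ := norm_pos_iff.2 hξ
    obtain ⟨σ, κ, hσ, hκ0, hκ1, hf⟩ := key ξ hξ
    have h1 := (h σ hσ κ hκ0 hκ1).1 ‖ξ‖ hn
    have h2 := hf 1
    rw [one_smul, one_mul] at h2
    rw [h2]
    refine h1.trans ?_
    gcongr
    exact le_max_left _ _
  · -- d2
    intro ξ t ht0 ht1
    by_cases hξ : ξ = 0
    · subst hξ
      simp only [smul_zero]
      rw [dc2_dif_const hN1, abs_zero]
      have : 0 ≤ bet (((k : ℝ) + 2) / 2) N ‖(0 : V n)‖ := by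
        unfold bet
        simp
      positivity
    have hn : 0 < ‖ξ‖ := norm_pos_iff.2 hξ
    obtain ⟨σ, κ, hσ, hκ0, hκ1, hf⟩ := key ξ hξ
    have h1 := (h σ hσ κ hκ0 hκ1).2 ‖ξ‖ hn.le t ht0 ht1
    have h2 : (fun i : ℕ => ft ν (Real.exp (i * t) • ξ)) = fun i : ℕ =>
        ∫ z, Real.cos (Real.exp (i * t) * ‖ξ‖ * (κ * z.1 0 + z.2)) ∂σ := by
      funext i
      exact hf _
    rw [h2]
    refine h1.trans ?_
    have hb : 0 ≤ bet (((k : ℝ) + 2) / 2) N ‖ξ‖ := by
      unfold bet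
      split_ifs
      · exact hn.le
      · positivity
    gcongr
    exact le_max_left _ _

theorem orb_bdd {k : ℕ} (hk : 1 ≤ k) {p : ℝ} (hp : 1 + 1 / ((k : ℝ) + 2) < p) (hp2 : p ≤ 2) :
    ∃ C : ℝ≥0, ∀ (E : Type) [NormedAddCommGroup E] [NormedSpace ℝ E] [FiniteDimensional ℝ E]
      [MeasureSpace E] [BorelSpace E] [Measure.IsAddHaarMeasure (volume : Measure E)]
      (K : Set E), IsCompact K → Convex ℝ K → (interior K).Nonempty → (∀ x ∈ K, -x ∈ K) →
      OrbE k (MX.unif K) → MX.Bdd p (C : ℝ≥0∞) K := by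
  have hk0 : (1 : ℝ) ≤ k := by exact_mod_cast hk
  have hp0 : 0 < p := by
    have : 0 < 1 / ((k : ℝ) + 2) := by positivity
    linarith
  obtain ⟨K0, hK0, hdec⟩ := dec_of_rad2 hk (N := ⌈((k : ℝ) + 2) / 2⌉₊) (Nat.le_ceil _)
  obtain ⟨C, hC⟩ := rg_k hk hK0.le hp hp2
  refine ⟨C, fun E _ _ _ _ _ _ K hK hc hi hsym horb => ?_⟩
  obtain ⟨n, T, hT⟩ := exists_iso_gen hK hi
  haveI hprob : IsProbabilityMeasure (MX.unif K) := isProb_unif hK hi
  have hTm : Measurable (T : E → V n) := T.continuous.measurable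
  have hTsm : Measurable (T.symm : V n → E) := T.symm.continuous.measurable
  -- the functionals
  let F : V n → (E →ₗ[ℝ] ℝ) := fun ξ =>
    ((innerSL ℝ ξ).toLinearMap) ∘ₗ ((T : E ≃ₗ[ℝ] V n) : E →ₗ[ℝ] V n)
  have hF : ∀ ξ y, F ξ y = inner ℝ ξ (T y) := fun ξ y => rfl
  have hsymm : (MX.unif K).map (fun y => -y) = MX.unif K := by
    have h1 := unif_pres hK hi (-LinearMap.id : E →ₗ[ℝ] E) (-LinearMap.id : E →ₗ[ℝ] E)
      (fun x => by simp) (fun x hx => by simpa using hsym x hx)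
      (fun x hx => by simpa using hsym x hx)
    have h2 : ((-LinearMap.id : E →ₗ[ℝ] E) : E → E) = fun y => -y := by
      funext y
      simp
    rw [h2] at h1
    exact h1
  have hcinner : ∀ ξ : V n, Continuous fun y : V n => (inner ℝ ξ y : ℝ) := fun ξ =>
    continuous_const.inner continuous_id
  have hS : SymP ((MX.unif K).map T) := by
    refine ⟨Measure.isProbabilityMeasure_map hTm.aemeasurable, ?_⟩
    rw [Measure.map_map measurable_neg hTm]
    have h1 : (fun y : V n => -y) ∘ (T : E → V n) = (T : E → V n) ∘ fun y => -y := by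
      funext y
      simp
    rw [h1, ← Measure.map_map hTm measurable_neg, hsymm]
  have hsm : ∀ ξ : V n, AEStronglyMeasurable (fun y : V n => (inner ℝ ξ y : ℝ) ^ 2)
      ((MX.unif K).map T) := fun ξ => ((hcinner ξ).pow 2).aestronglyMeasurable
  have hint : ∀ ξ : V n, Integrable (fun y => (inner ℝ ξ y : ℝ) ^ 2) ((MX.unif K).map T) := by
    intro ξ
    rw [integrable_map_measure (hsm ξ) hTm.aemeasurable]
    exact integrable_sq hK hi (F ξ)
  have hiso : ∀ ξ : V n, ∫ y, (inner ℝ ξ y : ℝ) ^ 2 ∂((MX.unif K).map T) = ‖ξ‖ ^ 2 := by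
    intro ξ
    rw [integral_map hTm.aemeasurable (hsm ξ)]
    exact hT ξ
  have hD := hdec n _ hS hint hiso (fun ξ hξ => ?_)
  · have h1 := hC n _ hD
    refine bdd_of_map hp0 hK hc hi ?_ T h1
    obtain ⟨x, hx⟩ := hi
    have hx' := interior_subset hx
    have h3 := hc hx' (hsym x hx') (a := 1 / 2) (b := 1 / 2) (by norm_num) (by norm_num)
      (by norm_num)
    simpa using h3
  · have hv : ∫ y, (F ξ) y ^ 2 ∂(MX.unif K) = 1 := by
      have h1 := hT ξ
      rw [hξ, one_pow] at h1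
      exact h1
    obtain ⟨κ, v, ζ, hO⟩ := horb (F ξ) hv
    have hPm : Measurable (Pv v ζ) := measurable_Pv v ζ
    refine ⟨κ, fun y => Pv v ζ (T.symm y), hO.k0, hO.k1, hPm.comp hTsm, fun y => ?_, ?_⟩
    · have h1 := hO.split (T.symm y)
      rw [hF, ContinuousLinearEquiv.apply_symm_apply] at h1
      rw [h1]
      rfl
    · have h1 : ((MX.unif K).map T).map (fun y => Pv v ζ (T.symm y)) =
          (MX.unif K).map (Pv v ζ) := by
        have hPm2 : Measurable (fun y => Pv v ζ (T.symm y)) := hPm.comp hTsm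
        rw [Measure.map_map hPm2 hTm]
        have h2 : (fun y => Pv v ζ (T.symm y)) ∘ (T : E → V n) = Pv v ζ := by
          funext y
          simp
        rw [h2]
      rw [h1]
      exact rad2_Pv (lc_unif_gen hK.measurableSet hc) hsymm
        (fun f => integrable_sq hK hi f) hO

end Pool.Agent.CB
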