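import Pool.Agent.CB.NiceF
import Pool.Agent.MX.Cover

/-!
# CB-Cv: elementary facts on averages

For a probability measure `μ` on `V n` and `f` nice (continuous, bounded, integrable):
`cv μ f x = ∫ f (x + y) dμ(y)` is again nice; continuity by dominated convergence
(`MeasureTheory.continuous_of_dominated`, `f` is bounded), integrability by
Tonelli and translation invariance (`lintegral_add_right_eq_self`, `lintegral_lintegral_swap`),
`∫⁻ ‖cv μ f x‖ₑ^p ≤ ∫⁻ ‖f x‖ₑ^p` for `p ≥ 1` by Jensen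
(`Pool.Agent.MX.lintegral_rpow_le` in `MX/Cover.lean` is Jensen for `∫⁻`) and Tonelli.
-/

set_option autoImplicit false

open MeasureTheory Set
open scoped ENNReal NNReal

namespace Pool.Agent.CB

variable {n : ℕ}

theorem cv_dil (μ : Measure (V n)) (t : ℝ) {f : V n → ℝ} (hf : Measurable f) (x : V n) :
    cv (dil t μ) f x = ∫ y, f (x + t • y) ∂μ := by
  unfold cv dil
  exact integral_map (measurable_const_smul t).aemeasurable
    (hf.comp (measurable_const_add x)).aestronglyMeasurable

theorem cv_integrable {μ : Measure (V n)} [IsProbabilityMeasure μ] {f : V n → ℝ} (hf : Nice f)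
    (x : V n) : Integrable (fun y => f (x + y)) μ := by
  obtain ⟨C, hC⟩ := hf.bdd
  exact Integrable.of_bound (hf.cont.comp (continuous_const.add continuous_id)).aestronglyMeasurable
    C (Filter.Eventually.of_forall fun y => by
      simpa [Real.norm_eq_abs] using hC (x + y))

private theorem cv_bdd {μ : Measure (V n)} [IsProbabilityMeasure μ] {f : V n → ℝ} {C : ℝ}
    (hf : ∀ x, |f x| ≤ C) (x : V n) : |cv μ f x| ≤ C := by
  have h1 : ‖∫ y, f (x + y) ∂μ‖ ≤ C * μ.real Set.univ :=
    norm_integral_le_of_norm_le_const (Filter.Eventually.of_forall fun y => by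
      rw [Real.norm_eq_abs]
      exact hf (x + y))
  rw [Real.norm_eq_abs] at h1
  simpa [cv] using h1

private theorem cv_continuous {μ : Measure (V n)} [IsProbabilityMeasure μ] {f : V n → ℝ}
    (hf : Nice f) : Continuous (cv μ f) := by
  obtain ⟨C, hC⟩ := hf.bdd
  refine continuous_of_dominated (bound := fun _ => C) (fun x => ?_) (fun x => ?_)
    (integrable_const C) ?_
  · exact (hf.cont.comp (continuous_const.add continuous_id)).aestronglyMeasurable
  · refine Filter.Eventually.of_forall fun y => ?_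
    rw [Real.norm_eq_abs]
    exact hC (x + y)
  · refine Filter.Eventually.of_forall fun y => ?_
    exact hf.cont.comp (continuous_id.add continuous_const)

private theorem cv_rpow_le {μ : Measure (V n)} [IsProbabilityMeasure μ] {f : V n → ℝ}
    (hf : Nice f) {p : ℝ} (hp : 1 ≤ p) : ∫⁻ x, ‖cv μ f x‖ₑ ^ p ≤ ∫⁻ x, ‖f x‖ₑ ^ p := by
  have hp0 : 0 ≤ p := zero_le_one.trans hp
  have h1 : ∀ x, ‖cv μ f x‖ₑ ^ p ≤ ∫⁻ y, ‖f (x + y)‖ₑ ^ p ∂μ := by
    intro x
    have h2 : ‖cv μ f x‖ₑ ≤ ∫⁻ y, ‖f (x + y)‖ₑ ∂μ := enorm_integral_le_lintegral_enorm _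
    have hm : Measurable fun y : V n => ‖f (x + y)‖ₑ :=
      (hf.cont.comp (continuous_const.add continuous_id)).measurable.enorm
    have h3 := Pool.Agent.MX.lintegral_rpow_le μ hp (g := fun y => ‖f (x + y)‖ₑ) hm.aemeasurable
    have h4 : (μ Set.univ : ℝ≥0∞) ^ (p - 1) = 1 := by
      rw [measure_univ, ENNReal.one_rpow]
    rw [h4, one_mul] at h3
    exact (ENNReal.rpow_le_rpow h2 hp0).trans h3
  have hm2 : Measurable (Function.uncurry fun (x y : V n) => ‖f (x + y)‖ₑ ^ p) := by
    have h5 : Measurable fun q : V n × V n => f (q.1 + q.2) :=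
      (hf.cont.comp (continuous_fst.add continuous_snd)).measurable
    exact h5.enorm.pow_const p
  calc ∫⁻ x, ‖cv μ f x‖ₑ ^ p
      ≤ ∫⁻ x, ∫⁻ y, ‖f (x + y)‖ₑ ^ p ∂μ := lintegral_mono h1
    _ = ∫⁻ y, ∫⁻ x, ‖f (x + y)‖ₑ ^ p ∂volume ∂μ := lintegral_lintegral_swap hm2.aemeasurable
    _ = ∫⁻ _, (∫⁻ x, ‖f x‖ₑ ^ p ∂volume) ∂μ := by
        refine lintegral_congr fun y => ?_
        exact lintegral_add_right_eq_self (fun x => ‖f x‖ₑ ^ p) y
    _ = ∫⁻ x, ‖f x‖ₑ ^ p := by
        rw [lintegral_const, measure_univ, mul_one]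

theorem nice_cv {μ : Measure (V n)} [IsProbabilityMeasure μ] {f : V n → ℝ} (hf : Nice f) :
    Nice (cv μ f) := by
  refine ⟨cv_continuous hf, ?_, ?_, ?_⟩
  · obtain ⟨C, hC⟩ := hf.bdd
    exact ⟨C, fun x => cv_bdd hC x⟩
  · exact (cv_continuous hf).aestronglyMeasurable
  · have h1 := cv_rpow_le (μ := μ) hf le_rfl
    simp only [ENNReal.rpow_one] at h1
    exact lt_of_le_of_lt h1 hf.int.2

theorem cv_add {μ : Measure (V n)} [IsProbabilityMeasure μ] {f g : V n → ℝ} (hf : Nice f)
    (hg : Nice g) : cv μ (fun x => f x + g x) = fun x => cv μ f x + cv μ g x := by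
  funext x
  exact integral_add (cv_integrable hf x) (cv_integrable hg x)

theorem cv_sub {μ : Measure (V n)} [IsProbabilityMeasure μ] {f g : V n → ℝ} (hf : Nice f)
    (hg : Nice g) : cv μ (fun x => f x - g x) = fun x => cv μ f x - cv μ g x := by
  funext x
  exact integral_sub (cv_integrable hf x) (cv_integrable hg x)

theorem cv_const_mul {μ : Measure (V n)} (c : ℝ) (f : V n → ℝ) :
    cv μ (fun x => c * f x) = fun x => c * cv μ f x := by
  funext x
  exact integral_const_mul c _

theorem cv_nonneg {μ : Measure (V n)} {f : V n → ℝ} (hf : ∀ x, 0 ≤ f x) (x : V n) :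
    0 ≤ cv μ f x := by
  exact integral_nonneg fun y => hf (x + y)

theorem abs_cv_le {μ : Measure (V n)} (f : V n → ℝ) (x : V n) :
    |cv μ f x| ≤ cv μ (fun y => |f y|) x := by
  exact abs_integral_le_integral_abs

theorem abs_cv_le_of_bdd {μ : Measure (V n)} [IsProbabilityMeasure μ] {f : V n → ℝ} {C : ℝ}
    (hf : ∀ x, |f x| ≤ C) (x : V n) : |cv μ f x| ≤ C := by
  exact cv_bdd hf x

theorem cv_comm {μ ν : Measure (V n)} [IsProbabilityMeasure μ] [IsProbabilityMeasure ν]
    {f : V n → ℝ} (hf : Nice f) : cv μ (cv ν f) = cv ν (cv μ f) := by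
  funext x
  have h1 : Integrable (Function.uncurry fun y z => f (x + y + z)) (μ.prod ν) := by
    obtain ⟨C, hC⟩ := hf.bdd
    refine Integrable.of_bound (Continuous.aestronglyMeasurable ?_) C
      (Filter.Eventually.of_forall fun q => by
        simpa [Real.norm_eq_abs, Function.uncurry] using hC (x + q.1 + q.2))
    exact hf.cont.comp ((continuous_const.add continuous_fst).add continuous_snd)
  have h2 := integral_integral_swap h1
  unfold cv
  rw [h2]
  refine integral_congr_ae (Filter.Eventually.of_forall fun z => ?_)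
  refine integral_congr_ae (Filter.Eventually.of_forall fun y => ?_)
  change f (x + y + z) = f (x + z + y)
  rw [add_right_comm]

theorem cv_neg {μ : Measure (V n)} (f : V n → ℝ) :
    cv μ (fun x => -f x) = fun x => -cv μ f x := by
  funext x
  exact integral_neg _

/-- Link with `MX.mx`. -/
theorem enorm_cv_dil_le (μ : Measure (V n)) (t : ℝ) {f : V n → ℝ} (hf : Measurable f) (x : V n) :
    ‖cv (dil t μ) f x‖ₑ ≤ ∫⁻ y, ‖f (x + t • y)‖ₑ ∂μ := by
  rw [cv_dil μ t hf x]
  exact enorm_integral_le_lintegral_enorm _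

theorem ofReal_cv_dil {μ : Measure (V n)} [IsProbabilityMeasure μ] (t : ℝ) {f : V n → ℝ}
    (hf : Nice f) (h0 : ∀ x, 0 ≤ f x) (x : V n) :
    ENNReal.ofReal (cv (dil t μ) f x) = ∫⁻ y, ENNReal.ofReal (f (x + t • y)) ∂μ := by
  rw [cv_dil μ t hf.cont.measurable x]
  have h1 : Integrable (fun y => f (x + t • y)) μ := by
    obtain ⟨C, hC⟩ := hf.bdd
    exact Integrable.of_bound (hf.cont.comp
      (continuous_const.add (continuous_const_smul t))).aestronglyMeasurable
      C (Filter.Eventually.of_forall fun y => by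
        simpa [Real.norm_eq_abs] using hC (x + t • y))
  exact ofReal_integral_eq_lintegral_ofReal h1 (Filter.Eventually.of_forall fun y => h0 _)

theorem lintegral_cv_rpow_le {μ : Measure (V n)} [IsProbabilityMeasure μ] {f : V n → ℝ}
    (hf : Nice f) {p : ℝ} (hp : 1 ≤ p) : ∫⁻ x, ‖cv μ f x‖ₑ ^ p ≤ ∫⁻ x, ‖f x‖ₑ ^ p := by
  exact cv_rpow_le hf hp

end Pool.Agent.CB
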