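import Pool.Agent.CB.DiffD

/-!
# CB-Diff2: differences of a product

`Φ x = φ (β x) cos (c x)` (`β = κ b > 0`) has the derivatives
`Φ_j x = ∑_{i ≤ j} C(j,i) β^i D i (β x) * c^(j-i) cos (c x + (j-i) π/2)` (induction; or
`iteratedDeriv` of a product), so for `j ≤ N`, `x ≥ 0`: `|Φ_j x| ≤ 2^N A (1+β)^N (1+|c|)^N (1 + β x)^(-a)`, and
`(1 + β x)^(-a) ≤ 2^a (1 + β^(-a)) (1 + x)^(-a)` (cases `x ≤ 1`, `x > 1`). Apply `dif_bound` with constant `1` to `Φ / A'`,
`A' = 2^N A 2^a (1+β)^N (1+|c|)^N (1 + β^(-a))` (positive; if `A ≤ 0` replace `A` by `max A 1`).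
-/

set_option autoImplicit false

open MeasureTheory Set
open scoped ENNReal NNReal

namespace Pool.Agent.CB

/-- the derivatives of a product of two functions with derivatives `u j`, `v j` -/
private noncomputable def leib (u v : ℕ → ℝ → ℝ) : ℕ → ℕ → ℕ → ℝ → ℝ
  | 0, p, q => fun x => u p x * v q x
  | k + 1, p, q => fun x => leib u v k (p + 1) q x + leib u v k p (q + 1) x

private theorem leib_der {u v : ℕ → ℝ → ℝ} (hu : ∀ j x, HasDerivAt (u j) (u (j + 1) x) x)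
    (hv : ∀ j x, HasDerivAt (v j) (v (j + 1) x) x) (k : ℕ) :
    ∀ p q x, HasDerivAt (leib u v k p q) (leib u v (k + 1) p q x) x := by
  induction k with
  | zero =>
    intro p q x
    exact (hu p x).mul (hv q x)
  | succ k ih =>
    intro p q x
    exact (ih (p + 1) q x).add (ih p (q + 1) x)

private theorem leib_bound {u v : ℕ → ℝ → ℝ} {x B : ℝ} {N : ℕ}
    (h : ∀ p q, p ≤ N → q ≤ N → |u p x * v q x| ≤ B) (k : ℕ) :
    ∀ p q, p + q + k ≤ N → |leib u v k p q x| ≤ 2 ^ k * B := by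
  induction k with
  | zero =>
    intro p q hpq
    rw [pow_zero, one_mul]
    exact h p q (by omega) (by omega)
  | succ k ih =>
    intro p q hpq
    have h1 := ih (p + 1) q (by omega)
    have h2 := ih p (q + 1) (by omega)
    calc |leib u v (k + 1) p q x| ≤ |leib u v k (p + 1) q x| + |leib u v k p (q + 1) x| :=
          abs_add_le _ _
      _ ≤ 2 ^ k * B + 2 ^ k * B := add_le_add h1 h2
      _ = 2 ^ (k + 1) * B := by ring

private theorem dil_der {D : ℕ → ℝ → ℝ} (hD : ∀ j x, HasDerivAt (D j) (D (j + 1) x) x) (β : ℝ) :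
    ∀ j x, HasDerivAt (fun x => β ^ j * D j (β * x)) (β ^ (j + 1) * D (j + 1) (β * x)) x := by
  intro j x
  have h1 : HasDerivAt (fun x => β * x) β x := by
    simpa using (hasDerivAt_id x).const_mul β
  have h2 := ((hD j (β * x)).comp x h1).const_mul (β ^ j)
  refine h2.congr_deriv ?_
  ring

private theorem cos_der (c : ℝ) :
    ∀ (j : ℕ) (x : ℝ), HasDerivAt (fun x => c ^ j * Real.cos (c * x + j * (Real.pi / 2)))
      (c ^ (j + 1) * Real.cos (c * x + ((j + 1 : ℕ) : ℝ) * (Real.pi / 2))) x := by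
  intro j x
  have h1 : HasDerivAt (fun x : ℝ => c * x + j * (Real.pi / 2)) c x := by
    simpa using ((hasDerivAt_id x).const_mul c).add_const (j * (Real.pi / 2))
  have h2 := (h1.cos).const_mul (c ^ j)
  refine h2.congr_deriv ?_
  have h3 : Real.cos (c * x + ((j + 1 : ℕ) : ℝ) * (Real.pi / 2)) =
      -Real.sin (c * x + j * (Real.pi / 2)) := by
    rw [← Real.cos_add_pi_div_two]
    congr 1
    push_cast
    ring
  rw [h3]
  ring

private theorem dil_rpow {a β x : ℝ} (ha : 0 < a) (hβ : 0 < β) (hx : 0 ≤ x) :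
    (1 + β * x) ^ (-a) ≤ 2 ^ a * (1 + β ^ (-a)) * (1 + x) ^ (-a) := by
  have hβa : 0 < β ^ (-a) := Real.rpow_pos_of_pos hβ _
  have h2a : 0 < (2 : ℝ) ^ a := Real.rpow_pos_of_pos two_pos _
  have h22 : (2 : ℝ) ^ a * (2 : ℝ) ^ (-a) = 1 := by
    rw [← Real.rpow_add two_pos]; simp
  have hxa : 0 < (1 + x) ^ (-a) := Real.rpow_pos_of_pos (by linarith) _
  rcases le_or_gt x 1 with h | h
  · have h1 : (1 + β * x) ^ (-a) ≤ 1 :=
      Real.rpow_le_one_of_one_le_of_nonpos (by nlinarith) (by linarith)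
    have h2 : (2 : ℝ) ^ (-a) ≤ (1 + x) ^ (-a) :=
      Real.rpow_le_rpow_of_nonpos (by linarith) (by linarith) (by linarith)
    have h3 : 1 ≤ (2 : ℝ) ^ a * (1 + x) ^ (-a) := by
      calc (1 : ℝ) = (2 : ℝ) ^ a * (2 : ℝ) ^ (-a) := h22.symm
        _ ≤ _ := mul_le_mul_of_nonneg_left h2 h2a.le
    calc (1 + β * x) ^ (-a) ≤ 1 := h1
      _ ≤ (2 : ℝ) ^ a * (1 + x) ^ (-a) := h3
      _ ≤ (2 : ℝ) ^ a * (1 + x) ^ (-a) + 2 ^ a * β ^ (-a) * (1 + x) ^ (-a) := by
          have : 0 ≤ (2 : ℝ) ^ a * β ^ (-a) * (1 + x) ^ (-a) := by positivity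
          linarith
      _ = _ := by ring
  · have hx0 : 0 < x := by linarith
    have h1 : (1 + β * x) ^ (-a) ≤ (β * x) ^ (-a) :=
      Real.rpow_le_rpow_of_nonpos (by positivity) (by linarith) (by linarith)
    have h2 : (2 * x) ^ (-a) ≤ (1 + x) ^ (-a) :=
      Real.rpow_le_rpow_of_nonpos (by linarith) (by linarith) (by linarith)
    have e1 : (β * x) ^ (-a) = β ^ (-a) * x ^ (-a) := Real.mul_rpow hβ.le hx0.le
    have e2 : (2 * x) ^ (-a) = 2 ^ (-a) * x ^ (-a) := Real.mul_rpow two_pos.le hx0.le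
    have h3 : x ^ (-a) ≤ (2 : ℝ) ^ a * (1 + x) ^ (-a) := by
      calc x ^ (-a) = (2 : ℝ) ^ a * (2 : ℝ) ^ (-a) * x ^ (-a) := by rw [h22, one_mul]
        _ = (2 : ℝ) ^ a * (2 * x) ^ (-a) := by rw [e2]; ring
        _ ≤ _ := mul_le_mul_of_nonneg_left h2 h2a.le
    calc (1 + β * x) ^ (-a) ≤ β ^ (-a) * x ^ (-a) := by rw [← e1]; exact h1
      _ ≤ β ^ (-a) * ((2 : ℝ) ^ a * (1 + x) ^ (-a)) := mul_le_mul_of_nonneg_left h3 hβa.le
      _ ≤ β ^ (-a) * ((2 : ℝ) ^ a * (1 + x) ^ (-a)) + (2 : ℝ) ^ a * (1 + x) ^ (-a) := by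
          have : 0 ≤ (2 : ℝ) ^ a * (1 + x) ^ (-a) := by positivity
          linarith
      _ = _ := by ring

private theorem dif_smul (N : ℕ) (r : ℝ) (g : ℕ → ℝ) : dif N (fun i => r * g i) = r * dif N g := by
  unfold dif
  rw [Finset.mul_sum]
  exact Finset.sum_congr rfl fun i _ => by ring

theorem dif_bound2 {a : ℝ} {N : ℕ} (ha : 0 < a) (hN : 1 ≤ N) (haN : a ≤ N) (A : ℝ) :
    ∃ K : ℝ, 0 < K ∧ ∀ (φ : ℝ → ℝ) (D : ℕ → ℝ → ℝ), D 0 = φ →
      (∀ j x, HasDerivAt (D j) (D (j + 1) x) x) →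
      (∀ j, j ≤ N → ∀ x, 0 ≤ x → |D j x| ≤ A * (1 + x) ^ (-a)) →
      ∀ β : ℝ, 0 < β → ∀ c : ℝ, ∀ x, 0 ≤ x → ∀ h : ℝ, 0 ≤ h → h ≤ 1 →
        |dif N (fun i => φ (β * (Real.exp (i * h) * x)) * Real.cos (c * (Real.exp (i * h) * x)))| ≤
          K * h ^ N * bet a N x * ((1 + β ^ (-a)) * (1 + β) ^ N * (1 + |c|) ^ N) := by
  obtain ⟨K, hK, hdif⟩ := dif_bound ha hN haN 1
  have h2a : 0 < (2 : ℝ) ^ a := Real.rpow_pos_of_pos two_pos _
  refine ⟨K * (2 ^ N * (|A| + 1) * 2 ^ a), by positivity, ?_⟩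
  intro φ D hD0 hD hb β hβ c x hx h hh hh1
  have hA : 0 ≤ A := by
    have h1 := (abs_nonneg _).trans (hb 0 (by omega) 0 le_rfl)
    simpa using h1
  have hβa : 0 < β ^ (-a) := Real.rpow_pos_of_pos hβ _
  set W : ℝ := (1 + β ^ (-a)) * (1 + β) ^ N * (1 + |c|) ^ N with hW
  have hW0 : 0 < W := by positivity
  set A' : ℝ := 2 ^ N * (|A| + 1) * 2 ^ a * W with hA'
  have hA'0 : 0 < A' := by positivity
  let u : ℕ → ℝ → ℝ := fun j x => β ^ j * D j (β * x)
  let v : ℕ → ℝ → ℝ := fun j x => c ^ j * Real.cos (c * x + j * (Real.pi / 2))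
  have hu : ∀ j x, HasDerivAt (u j) (u (j + 1) x) x := dil_der hD β
  have hv : ∀ j x, HasDerivAt (v j) (v (j + 1) x) x := cos_der c
  let Ψ : ℕ → ℝ → ℝ := fun j x => A'⁻¹ * leib u v j 0 0 x
  have key := hdif (Ψ 0) Ψ rfl (fun j x => (leib_der hu hv j 0 0 x).const_mul A'⁻¹) ?_ x hx h hh hh1
  · have e : (fun i : ℕ => φ (β * (Real.exp (i * h) * x)) * Real.cos (c * (Real.exp (i * h) * x))) =
        fun i : ℕ => A' * Ψ 0 (Real.exp (i * h) * x) := by
      funext i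
      simp only [Ψ, leib, u, v, pow_zero, one_mul, Nat.cast_zero, zero_mul, add_zero, hD0]
      rw [mul_inv_cancel_left₀ hA'0.ne']
    rw [e, dif_smul, abs_mul, abs_of_pos hA'0]
    calc A' * |dif N fun i => Ψ 0 (Real.exp (i * h) * x)| ≤ A' * (K * h ^ N * bet a N x) :=
          mul_le_mul_of_nonneg_left key hA'0.le
      _ = _ := by rw [hA']; ring
  · intro j hj y hy
    have hy0 : 0 ≤ β * y := by positivity
    have hP : 0 ≤ (1 + β * y) ^ (-a) := Real.rpow_nonneg (by linarith) _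
    have hc1 : 1 ≤ 1 + |c| := by linarith [abs_nonneg c]
    have hβ1 : 1 ≤ 1 + β := by linarith
    have hB : ∀ p q, p ≤ N → q ≤ N →
        |u p y * v q y| ≤ ((1 + β) ^ N * (A * (1 + β * y) ^ (-a))) * (1 + |c|) ^ N := by
      intro p q hp hq
      rw [abs_mul]
      refine mul_le_mul ?_ ?_ (abs_nonneg _) (by positivity)
      · have e1 : |u p y| = β ^ p * |D p (β * y)| := by
          simp only [u]
          rw [abs_mul, abs_of_nonneg (pow_nonneg hβ.le p)]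
        rw [e1]
        refine mul_le_mul ?_ (hb p hp _ hy0) (abs_nonneg _) (by positivity)
        calc β ^ p ≤ (1 + β) ^ p := pow_le_pow_left₀ hβ.le (by linarith) p
          _ ≤ (1 + β) ^ N := pow_le_pow_right₀ hβ1 hp
      · have e1 : |v q y| = |c| ^ q * |Real.cos (c * y + q * (Real.pi / 2))| := by
          simp only [v]
          rw [abs_mul, abs_pow]
        rw [e1]
        calc |c| ^ q * |Real.cos (c * y + q * (Real.pi / 2))| ≤ |c| ^ q * 1 :=
              mul_le_mul_of_nonneg_left (Real.abs_cos_le_one _) (by positivity)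
          _ = |c| ^ q := mul_one _
          _ ≤ (1 + |c|) ^ q := pow_le_pow_left₀ (abs_nonneg _) (by linarith) q
          _ ≤ (1 + |c|) ^ N := pow_le_pow_right₀ hc1 hq
    have h1 := leib_bound hB j 0 0 (by omega)
    have h2 : (2 : ℝ) ^ j ≤ 2 ^ N := pow_le_pow_right₀ one_le_two hj
    have h3 := dil_rpow ha hβ hy
    have hAA : A ≤ |A| + 1 := by linarith [le_abs_self A]
    have h4 : |leib u v j 0 0 y| ≤ A' * (1 + y) ^ (-a) := by
      calc |leib u v j 0 0 y| ≤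
            2 ^ j * (((1 + β) ^ N * (A * (1 + β * y) ^ (-a))) * (1 + |c|) ^ N) := h1
        _ ≤ 2 ^ N * (((1 + β) ^ N * ((|A| + 1) * (2 ^ a * (1 + β ^ (-a)) * (1 + y) ^ (-a)))) *
              (1 + |c|) ^ N) := by
            gcongr
        _ = A' * (1 + y) ^ (-a) := by rw [hA', hW]; ring
    have e5 : |Ψ j y| = A'⁻¹ * |leib u v j 0 0 y| := by
      simp only [Ψ]
      rw [abs_mul, abs_of_pos (inv_pos.mpr hA'0)]
    rw [e5]
    calc A'⁻¹ * |leib u v j 0 0 y| ≤ A'⁻¹ * (A' * (1 + y) ^ (-a)) :=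
          mul_le_mul_of_nonneg_left h4 (inv_pos.mpr hA'0).le
      _ = 1 * (1 + y) ^ (-a) := by
          rw [← mul_assoc, inv_mul_cancel₀ hA'0.ne']

end Pool.Agent.CB
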