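import Pool.Agent.CB.RadB
import Pool.Agent.MX.Basic

/-!
# CB-MixM: moments of the mixing measure

`Mix.eq` with `F v = ‖v‖ₑ ^ (-a)` (`0 < a < s`): for `‖u‖ < 1` (almost everywhere for `Ub s`), `b > 0`:
`‖b • u‖^(-a) ≥ b^(-a)`, so `∫⁻ b^(-a) dτ ≤ ∫⁻ ‖v‖^(-a) G ≤ C ∫_{‖v‖ < 1} ‖v‖^(-a) dv + 1` with `C` from
`RD.exists_bound` (finite because `a < s`: `integrable_... norm_rpow`, e.g. dyadic shells, or polar coordinates; Mathlib:
`MeasureTheory.Measure.integrable_comp_mul_norm...`, `finite_integral_rpow_sub_one_...`;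
`Metric.ball` shells `2^(-j-1) ≤ ‖v‖ < 2^(-j)` give `∑ 2^((j+1) a) c 2^(-j s) < ∞`).
`F v = ‖v‖ₑ`: `∫⁻ b dτ * ∫⁻ ‖u‖ dUb ≤ ∫⁻ ‖v‖ G ≤ 1 + ∫⁻ ‖v‖^2 G ≤ s + 2`, and `∫⁻ ‖u‖ dUb > 0` is a constant
depending on `s` only.
`Mix.integral_cos`: `∫ cos (r ⟨e, v⟩) G v dv = ∫ phk k (r b) dτ(b)`: `Mix.eq` for positive and negative parts
(or for `F = ofReal (1 + cos)`), and invariance of `Ub` under isometries (there is an isometry which maps
`e` to the first basis vector, `reflection_sub`).
-/

set_option autoImplicit false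

open MeasureTheory Set
open scoped ENNReal NNReal

namespace Pool.Agent.CB

private theorem mixM_ball_pos {s : ℕ} (hs : 1 ≤ s) :
    volume (Metric.ball (0 : V s) 1) ≠ 0 ∧ volume (Metric.ball (0 : V s) 1) ≠ ⊤ := by
  have : Nonempty (Fin s) := ⟨⟨0, hs⟩⟩
  exact ⟨(Metric.measure_ball_pos _ _ one_pos).ne', measure_ball_lt_top.ne⟩

private theorem mixM_prob {s : ℕ} (hs : 1 ≤ s) : IsProbabilityMeasure (Ub s) := by
  refine ⟨?_⟩
  unfold Ub MX.unif
  rw [Measure.smul_apply, Measure.restrict_apply_univ, smul_eq_mul]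
  exact ENNReal.inv_mul_cancel (mixM_ball_pos hs).1 (mixM_ball_pos hs).2

private theorem mixM_ae {s : ℕ} (hs : 1 ≤ s) :
    ∀ᵐ u ∂(Ub s), u ≠ 0 ∧ ‖u‖ < 1 := by
  have : Nonempty (Fin s) := ⟨⟨0, hs⟩⟩
  have : Nontrivial (V s) := by
    refine ⟨⟨0, EuclideanSpace.single ⟨0, hs⟩ 1, fun h => ?_⟩⟩
    have := congrArg (fun v : V s => v ⟨0, hs⟩) h
    simp at this
  have h1 : ∀ᵐ u ∂((volume : Measure (V s)).restrict (Metric.ball (0 : V s) 1)), ‖u‖ < 1 := by
    filter_upwards [ae_restrict_mem Metric.isOpen_ball.measurableSet] with u hu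
    simpa using hu
  have h2 : ∀ᵐ u ∂((volume : Measure (V s)).restrict (Metric.ball (0 : V s) 1)), u ≠ 0 := by
    refine ae_restrict_of_ae ?_
    have : (volume : Measure (V s)) {0} = 0 := by
      exact measure_singleton 0
    filter_upwards [compl_mem_ae_iff.2 this] with u hu
    simpa using hu
  unfold Ub MX.unif
  refine Measure.ae_smul_measure ?_ _
  filter_upwards [h1, h2] with u hu1 hu2
  exact ⟨hu2, hu1⟩

private theorem mixM_fin {s : ℕ} (hs : 2 ≤ s) {a : ℝ} (has : a < s) :
    ∫⁻ v in Metric.ball (0 : V s) 1, ENNReal.ofReal (‖v‖ ^ (-a)) < ⊤ := by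
  have : Nonempty (Fin s) := ⟨⟨0, by omega⟩⟩
  have : Nontrivial (V s) := by
    refine ⟨⟨0, EuclideanSpace.single ⟨0, by omega⟩ 1, fun h => ?_⟩⟩
    have := congrArg (fun v : V s => v ⟨0, by omega⟩) h
    simp at this
  have h1 : IntegrableOn (fun y : ℝ => y ^ (Module.finrank ℝ (V s) - 1) • (fun y : ℝ => y ^ (-a)) y)
      (Ioo 0 1) := by
    have hfr : Module.finrank ℝ (V s) = s := by simp
    rw [hfr]
    have h2 : IntegrableOn (fun y : ℝ => y ^ ((s : ℝ) - 1 - a)) (Ioo 0 1) := by
      rw [intervalIntegral.integrableOn_Ioo_rpow_iff one_pos]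
      linarith
    refine h2.congr_fun (fun y hy => ?_) measurableSet_Ioo
    simp only [smul_eq_mul]
    have hy0 : 0 < y := hy.1
    have hc : ((s - 1 : ℕ) : ℝ) = (s : ℝ) - 1 := by
      rw [Nat.cast_sub (by omega)]
      simp
    rw [← Real.rpow_natCast, ← Real.rpow_add hy0, hc]
    ring_nf
  have h3 := (integrableOn_fun_norm_addHaar (volume : Measure (V s)) (f := fun y : ℝ => y ^ (-a))
    (r := 1)).2 h1
  have h4 := h3.2
  refine lt_of_le_of_lt (le_of_eq ?_) h4
  refine lintegral_congr fun v => ?_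
  rw [Real.enorm_eq_ofReal (Real.rpow_nonneg (norm_nonneg _) _)]

theorem exists_mixM {s : ℕ} (hs : 2 ≤ s) {a : ℝ} (ha : 0 < a) (has : a < s) :
    ∃ C : ℝ, 0 < C ∧ ∀ (G : V s → ℝ) (τ : Measure ℝ), RD s G → Mix G τ →
      ∫⁻ b, ENNReal.ofReal (b ^ (-a)) ∂τ ≤ ENNReal.ofReal C ∧
      ∫⁻ b, ENNReal.ofReal b ∂τ ≤ ENNReal.ofReal C := by
  have hs1 : 1 ≤ s := by omega
  have := mixM_prob hs1
  obtain ⟨C0, hC0, hbd⟩ := RD.exists_bound hs
  set I : ℝ≥0∞ := ∫⁻ v in Metric.ball (0 : V s) 1, ENNReal.ofReal (‖v‖ ^ (-a)) with hI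
  have hIf : I < ⊤ := mixM_fin hs has
  set M : ℝ≥0∞ := I * ENNReal.ofReal C0 + 1 with hM
  have hMf : M ≠ ⊤ := by
    rw [hM]
    exact ENNReal.add_ne_top.2 ⟨ENNReal.mul_ne_top hIf.ne ENNReal.ofReal_ne_top, ENNReal.one_ne_top⟩
  set m : ℝ≥0∞ := ∫⁻ u, ‖u‖ₑ ∂(Ub s) with hm
  have hm0 : m ≠ 0 := by
    intro h0
    rw [hm, lintegral_eq_zero_iff (by fun_prop)] at h0
    have h1 : ∀ᵐ u ∂(Ub s), False := by
      filter_upwards [h0, mixM_ae hs1] with u hu1 hu2
      apply hu2.1
      simpa using hu1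
    have h2 : Ub s = 0 := by
      rw [← Measure.measure_univ_eq_zero]
      rw [ae_iff] at h1
      simpa using h1
    exact IsProbabilityMeasure.ne_zero (Ub s) h2
  set M2 : ℝ≥0∞ := ((s : ℝ≥0∞) + 2) / m with hM2
  have hM2f : M2 ≠ ⊤ := by
    rw [hM2]
    exact ENNReal.div_ne_top (by simp) hm0
  refine ⟨M.toReal + M2.toReal + 1, by positivity, fun G τ hG hτ => ?_⟩
  have := hτ.prob
  have hpos : ∀ᵐ b ∂τ, 0 < b := by
    have := hτ.pos
    filter_upwards [compl_mem_ae_iff.2 this] with b hb
    simpa using hb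
  constructor
  · have hle : ∫⁻ v, ENNReal.ofReal (‖v‖ ^ (-a)) * ENNReal.ofReal (G v) ≤ M := by
      calc ∫⁻ v, ENNReal.ofReal (‖v‖ ^ (-a)) * ENNReal.ofReal (G v)
          ≤ ∫⁻ v, ((Metric.ball (0 : V s) 1).indicator
              (fun v => ENNReal.ofReal (‖v‖ ^ (-a))) v * ENNReal.ofReal C0 +
              ENNReal.ofReal (G v)) := by
            refine lintegral_mono fun v => ?_
            by_cases hv : v ∈ Metric.ball (0 : V s) 1
            · rw [indicator_of_mem hv]
              refine le_add_right ?_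
              gcongr
              exact hbd G hG v
            · rw [indicator_of_notMem hv, zero_mul, zero_add]
              have h1 : 1 ≤ ‖v‖ := by simpa using hv
              have h2 : ‖v‖ ^ (-a) ≤ 1 := Real.rpow_le_one_of_one_le_of_nonpos h1 (by linarith)
              calc ENNReal.ofReal (‖v‖ ^ (-a)) * ENNReal.ofReal (G v)
                  ≤ 1 * ENNReal.ofReal (G v) := by
                    gcongr
                    exact ENNReal.ofReal_le_one.2 h2
                _ = ENNReal.ofReal (G v) := one_mul _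
        _ = M := by
            rw [lintegral_add_right _ hG.meas.ennreal_ofReal, hG.mass,
              lintegral_mul_const _ (by measurability),
              lintegral_indicator Metric.isOpen_ball.measurableSet]
    rw [hτ.eq _ (by fun_prop)] at hle
    have h3 : ∫⁻ b, ENNReal.ofReal (b ^ (-a)) ∂τ ≤ M := by
      refine le_trans ?_ hle
      refine lintegral_mono_ae ?_
      filter_upwards [hpos] with b hb
      calc ENNReal.ofReal (b ^ (-a)) = ∫⁻ _u, ENNReal.ofReal (b ^ (-a)) ∂(Ub s) := by simp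
        _ ≤ ∫⁻ u, ENNReal.ofReal (‖b • u‖ ^ (-a)) ∂(Ub s) := by
            refine lintegral_mono_ae ?_
            filter_upwards [mixM_ae hs1] with u hu
            have hu0 : 0 < ‖u‖ := norm_pos_iff.2 hu.1
            refine ENNReal.ofReal_le_ofReal ?_
            rw [norm_smul, Real.norm_of_nonneg hb.le]
            refine Real.rpow_le_rpow_of_nonpos (by positivity) ?_ (by linarith)
            nlinarith [hu.2]
    refine h3.trans (le_trans (ENNReal.ofReal_toReal hMf).ge ?_)
    refine ENNReal.ofReal_le_ofReal ?_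
    have := ENNReal.toReal_nonneg (a := M2)
    linarith
  · have hle : ∫⁻ v, ‖v‖ₑ * ENNReal.ofReal (G v) ≤ (s : ℝ≥0∞) + 2 := by
      calc ∫⁻ v, ‖v‖ₑ * ENNReal.ofReal (G v)
          ≤ ∫⁻ v, (ENNReal.ofReal (G v) + ‖v‖ₑ ^ (2 : ℝ) * ENNReal.ofReal (G v)) := by
            refine lintegral_mono fun v => ?_
            have h1 : ‖v‖ₑ ≤ 1 + ‖v‖ₑ ^ (2 : ℝ) := by
              rcases le_total ‖v‖ₑ 1 with h | h
              · exact h.trans le_self_add
              · refine le_add_left ?_
                calc ‖v‖ₑ = ‖v‖ₑ ^ (1 : ℝ) := (ENNReal.rpow_one _).symm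
                  _ ≤ ‖v‖ₑ ^ (2 : ℝ) := ENNReal.rpow_le_rpow_of_exponent_le h (by norm_num)
            calc ‖v‖ₑ * ENNReal.ofReal (G v) ≤ (1 + ‖v‖ₑ ^ (2 : ℝ)) * ENNReal.ofReal (G v) := by
                  gcongr
              _ = _ := by ring
        _ ≤ 1 + ((s : ℝ≥0∞) + 1) := by
            rw [lintegral_add_left hG.meas.ennreal_ofReal, hG.mass]
            gcongr
            exact hG.mom1
        _ = (s : ℝ≥0∞) + 2 := by ring
    rw [hτ.eq _ (by fun_prop)] at hle
    have h3 : (∫⁻ b, ENNReal.ofReal b ∂τ) * m ≤ (s : ℝ≥0∞) + 2 := by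
      refine le_trans (le_of_eq ?_) hle
      rw [← lintegral_mul_const _ (by fun_prop)]
      refine lintegral_congr_ae ?_
      filter_upwards [hpos] with b hb
      rw [hm, ← lintegral_const_mul _ (by fun_prop)]
      refine lintegral_congr fun u => ?_
      rw [enorm_smul, Real.enorm_eq_ofReal hb.le]
    have h4 : ∫⁻ b, ENNReal.ofReal b ∂τ ≤ M2 := by
      rw [hM2, ENNReal.le_div_iff_mul_le (Or.inl hm0) (Or.inr (by simp))]
      exact h3
    refine h4.trans (le_trans (ENNReal.ofReal_toReal hM2f).ge ?_)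
    refine ENNReal.ofReal_le_ofReal ?_
    have := ENNReal.toReal_nonneg (a := M)
    linarith

private theorem mixM_rot {k : ℕ} {e : V (k + 1)} (he : ‖e‖ = 1) (x : ℝ) :
    ∫ u, Real.cos (x * inner ℝ e u) ∂(Ub (k + 1)) = phk k x := by
  set e0 : V (k + 1) := EuclideanSpace.single 0 1 with he0
  have hn : ‖e‖ = ‖e0‖ := by rw [he, he0]; simp
  set O : V (k + 1) ≃ₗᵢ[ℝ] V (k + 1) := (ℝ ∙ (e - e0))ᗮ.reflection with hO
  have hOe : O e = e0 := Submodule.reflection_sub hn
  have h1 : ∀ u, inner ℝ e u = (O u) 0 := by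
    intro u
    rw [← O.inner_map_map, hOe, he0]
    simp [EuclideanSpace.inner_single_left]
  unfold phk
  simp only [h1]
  have hmp : MeasurePreserving O (Ub (k + 1)) (Ub (k + 1)) := by
    unfold Ub MX.unif
    have h2 : MeasurePreserving O (volume : Measure (V (k + 1))) volume := O.measurePreserving
    have h3 := h2.restrict_preimage (s := Metric.ball (0 : V (k + 1)) 1)
      Metric.isOpen_ball.measurableSet
    have h4 : O ⁻¹' Metric.ball (0 : V (k + 1)) 1 = Metric.ball 0 1 := by
      ext u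
      simp
    rw [h4] at h3
    exact h3.smul_measure _
  exact hmp.integral_comp O.toHomeomorph.measurableEmbedding (fun u : V (k + 1) => Real.cos (x * u 0))

theorem Mix.integral_cos {k : ℕ} {G : V (k + 1) → ℝ} (hG : RD (k + 1) G) {τ : Measure ℝ}
    (h : Mix G τ) {e : V (k + 1)} (he : ‖e‖ = 1) (r : ℝ) :
    ∫ v, Real.cos (r * inner ℝ e v) * G v = ∫ b, phk k (r * b) ∂τ := by
  have := h.prob
  have := mixM_prob (s := k + 1) (by omega)
  have hGi : Integrable G := by
    refine ⟨hG.meas.aestronglyMeasurable, ?_⟩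
    refine lt_of_le_of_lt (le_of_eq ?_) (lt_of_le_of_lt hG.mass.le ENNReal.one_lt_top)
    refine lintegral_congr fun v => ?_
    rw [Real.enorm_eq_ofReal (hG.nonneg v)]
  have hG1 : ∫ v, G v = 1 := by
    rw [integral_eq_lintegral_of_nonneg_ae (Filter.Eventually.of_forall hG.nonneg)
      hG.meas.aestronglyMeasurable, hG.mass]
    simp
  have hcos : Measurable fun v : V (k + 1) => Real.cos (r * inner ℝ e v) := by fun_prop
  have hci : Integrable fun v => Real.cos (r * inner ℝ e v) * G v := by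
    refine hGi.bdd_mul (c := 1) hcos.aestronglyMeasurable ?_
    exact Filter.Eventually.of_forall fun v => by simpa using Real.abs_cos_le_one _
  have hF := h.eq (fun v => ENNReal.ofReal (1 + Real.cos (r * inner ℝ e v))) (by fun_prop)
  have hone : ∀ y : ℝ, 0 ≤ 1 + Real.cos y := fun y => by linarith [Real.neg_one_le_cos y]
  have hL : ∫⁻ v, ENNReal.ofReal (1 + Real.cos (r * inner ℝ e v)) * ENNReal.ofReal (G v) =
      ENNReal.ofReal (1 + ∫ v, Real.cos (r * inner ℝ e v) * G v) := by
    have h1 : (1 : ℝ) + ∫ v, Real.cos (r * inner ℝ e v) * G v =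
        ∫ v, (1 + Real.cos (r * inner ℝ e v)) * G v := by
      have h7 : ∫ v, (G v + Real.cos (r * inner ℝ e v) * G v) =
          (∫ v, G v) + ∫ v, Real.cos (r * inner ℝ e v) * G v := integral_add hGi hci
      rw [hG1] at h7
      rw [← h7]
      refine integral_congr_ae (Filter.Eventually.of_forall fun v => ?_)
      simp only
      ring
    have h2 : Integrable fun v => (1 + Real.cos (r * inner ℝ e v)) * G v := by
      refine (hGi.add hci).congr (Filter.Eventually.of_forall fun v => ?_)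
      simp only [Pi.add_apply]
      ring
    rw [h1, ofReal_integral_eq_lintegral_ofReal h2
      (Filter.Eventually.of_forall fun v => mul_nonneg (hone _) (hG.nonneg v))]
    refine lintegral_congr fun v => ?_
    rw [ENNReal.ofReal_mul (hone _)]
  have hbi : ∀ (μ : Measure ℝ) (b : ℝ), ∫⁻ u, ENNReal.ofReal
      (1 + Real.cos (r * inner ℝ e (b • u))) ∂(Ub (k + 1)) = ENNReal.ofReal (1 + phk k (r * b)) := by
    intro _ b
    have h0 : ∀ u : V (k + 1), r * inner ℝ e (b • u) = (r * b) * inner ℝ e u := by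
      intro u
      rw [real_inner_smul_right]
      ring
    simp only [h0]
    have hi : Integrable (fun u : V (k + 1) => Real.cos ((r * b) * inner ℝ e u)) (Ub (k + 1)) := by
      refine Integrable.of_bound (C := 1) ?_ ?_
      · exact Measurable.aestronglyMeasurable (by fun_prop)
      · exact Filter.Eventually.of_forall fun v => by simpa using Real.abs_cos_le_one _
    have h8 : Integrable (fun u : V (k + 1) => 1 + Real.cos ((r * b) * inner ℝ e u))
        (Ub (k + 1)) := (integrable_const 1).add hi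
    rw [← ofReal_integral_eq_lintegral_ofReal h8 (Filter.Eventually.of_forall fun v => hone _)]
    congr 1
    rw [integral_add (integrable_const 1) hi, mixM_rot he]
    simp
  have hphm : Measurable (phk k) := by
    unfold phk
    have h1 : StronglyMeasurable fun p : ℝ × V (k + 1) => Real.cos (p.1 * p.2 0) := by
      refine Measurable.stronglyMeasurable ?_
      fun_prop
    exact h1.integral_prod_right.measurable
  have hphb : ∀ x, |phk k x| ≤ 1 := by
    intro x
    unfold phk
    have := norm_integral_le_of_norm_le_const (μ := Ub (k + 1)) (C := 1)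
      (f := fun u : V (k + 1) => Real.cos (x * u 0))
      (Filter.Eventually.of_forall fun v => by simpa using Real.abs_cos_le_one _)
    simpa using this
  have hphi : Integrable (fun b => phk k (r * b)) τ := by
    refine Integrable.of_bound (C := 1) ?_ ?_
    · exact Measurable.aestronglyMeasurable (by fun_prop)
    · exact Filter.Eventually.of_forall fun v => by simpa using hphb _
  rw [hL] at hF
  simp only [hbi τ] at hF
  have h9 : Integrable (fun b : ℝ => 1 + phk k (r * b)) τ := (integrable_const 1).add hphi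
  rw [← ofReal_integral_eq_lintegral_ofReal h9
    (Filter.Eventually.of_forall fun v => by
      have := (abs_le.1 (hphb (r * v))).1
      simp only [Pi.zero_apply]
      linarith)] at hF
  rw [integral_add (integrable_const 1) hphi] at hF
  have hA : |∫ v, Real.cos (r * inner ℝ e v) * G v| ≤ 1 := by
    have h1 : |∫ v, Real.cos (r * inner ℝ e v) * G v| ≤ ∫ v, G v := by
      rw [← Real.norm_eq_abs]
      refine norm_integral_le_of_norm_le hGi (Filter.Eventually.of_forall fun v => ?_)
      rw [norm_mul, Real.norm_of_nonneg (hG.nonneg v)]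
      have := Real.abs_cos_le_one (r * inner ℝ e v)
      rw [← Real.norm_eq_abs] at this
      nlinarith [hG.nonneg v]
    rwa [hG1] at h1
  have hB : |∫ b, phk k (r * b) ∂τ| ≤ 1 := by
    have := norm_integral_le_of_norm_le_const (μ := τ) (C := 1)
      (f := fun b => phk k (r * b))
      (Filter.Eventually.of_forall fun v => by simpa using hphb _)
    simpa using this
  have h5 := (ENNReal.ofReal_eq_ofReal_iff (by linarith [(abs_le.1 hA).1])
    (by simp only [integral_const, probReal_univ, smul_eq_mul, mul_one]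
        linarith [(abs_le.1 hB).1])).1 hF
  simp only [integral_const, probReal_univ, smul_eq_mul, mul_one] at h5
  linarith

end Pool.Agent.CB
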