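import Pool.Agent.CB.OrbDefs
import Pool.Agent.CB.MixM
import Pool.Agent.CB.BallM

/-!
# CB-Mix2M: moments of the mixing measure, second version

* `mix2_fst`: `Mix G1 (τ.map Prod.fst)` for the marginal density `G1` (`Mix2.eq` with `F` depending on `z.1` only, Tonelli).
* `mix2_moments`: negative moments: `exists_mixM` for `G1` and `τ.map Prod.fst` (with exponent `a`).
  Positive moments of `b`: `Mix2.eq` with `F z = ‖z.1‖ₑ ^ M`: `∫ b^M dτ * ∫ ‖u‖^M dUb ≤ Cm M`; `∫ ‖u‖^M dUb` is a positive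
  constant. Moments of `c`: `F z = ‖z.2‖ₑ ^ M`.
-/

set_option autoImplicit false

open MeasureTheory Set
open scoped ENNReal NNReal

namespace Pool.Agent.CB

theorem mix2_fst {k : ℕ} {G : V (k + 1) × ℝ → ℝ} (hG : Measurable G) {G1 : V (k + 1) → ℝ}
    (h1 : ∀ v, ENNReal.ofReal (G1 v) = ∫⁻ c, ENNReal.ofReal (G (v, c))) {τ : Measure (ℝ × ℝ)}
    (h : Mix2 G τ) : Mix G1 (τ.map Prod.fst) := by
  have := h.prob
  have := isProb_Ub (k + 1)
  refine ⟨Measure.isProbabilityMeasure_map measurable_fst.aemeasurable, ?_, ?_⟩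
  · rw [Measure.map_apply measurable_fst measurableSet_Iic]
    exact h.pos
  · intro F hF
    have h2 := h.eq (fun z => F z.1) (hF.comp measurable_fst)
    have h3 : ∫⁻ v, F v * ENNReal.ofReal (G1 v) =
        ∫⁻ z : V (k + 1) × ℝ, F z.1 * ENNReal.ofReal (G z) := by
      rw [Measure.volume_eq_prod, lintegral_prod _ (by fun_prop)]
      refine lintegral_congr fun v => ?_
      show F v * ENNReal.ofReal (G1 v) = ∫⁻ y, F v * ENNReal.ofReal (G (v, y))
      rw [h1, lintegral_const_mul _ (by fun_prop)]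
    rw [h3, h2, lintegral_map _ measurable_fst]
    exact Measurable.lintegral_prod_right' (f := fun p : ℝ × V (k + 1) => F (p.1 • p.2))
      (by fun_prop)

private theorem mix2_ae (k : ℕ) : ∀ᵐ u ∂(Ub (k + 1)), u ≠ 0 := by
  have hnt : Nontrivial (V (k + 1)) := by
    refine ⟨⟨0, EuclideanSpace.single 0 1, fun h => ?_⟩⟩
    have := congrArg (fun v : V (k + 1) => v 0) h
    simp at this
  have : (volume : Measure (V (k + 1))) {0} = 0 := measure_singleton 0
  unfold Ub MX.unif
  refine Measure.ae_smul_measure (ae_restrict_of_ae ?_) _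
  filter_upwards [compl_mem_ae_iff.2 this] with u hu
  simpa using hu

private theorem mix2_const (k M : ℕ) : ∫⁻ u, ‖u‖ₑ ^ M ∂(Ub (k + 1)) ≠ 0 := by
  have := isProb_Ub (k + 1)
  intro h0
  rw [lintegral_eq_zero_iff (by fun_prop)] at h0
  have h1 : ∀ᵐ u ∂(Ub (k + 1)), False := by
    filter_upwards [h0, mix2_ae k] with u hu1 hu2
    apply hu2
    have h3 : ‖u‖ₑ ^ M = 0 := hu1
    have h4 := eq_zero_of_pow_eq_zero h3
    simpa using h4
  have h2 : Ub (k + 1) = 0 := by
    rw [← Measure.measure_univ_eq_zero]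
    rw [ae_iff] at h1
    simpa using h1
  exact IsProbabilityMeasure.ne_zero (Ub (k + 1)) h2

theorem mix2_moments {k : ℕ} (hk : 1 ≤ k) (Cm : ℕ → ℝ≥0) {a : ℝ} (ha : 0 < a)
    (ha1 : a < k + 1) (M : ℕ) :
    ∃ C : ℝ, 0 < C ∧ ∀ (G : V (k + 1) × ℝ → ℝ) (τ : Measure (ℝ × ℝ)), RD2 k Cm G → Mix2 G τ →
      ∫⁻ z, ENNReal.ofReal (z.1 ^ (-a)) ∂τ ≤ ENNReal.ofReal C ∧
      ∫⁻ z, ENNReal.ofReal (|z.1| ^ M) ∂τ ≤ ENNReal.ofReal C ∧
      ∫⁻ z, ENNReal.ofReal (|z.2| ^ M) ∂τ ≤ ENNReal.ofReal C := by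
  have := isProb_Ub (k + 1)
  obtain ⟨C1, hC1, hb⟩ := exists_mixM (s := k + 1) (by omega) ha (by push_cast; exact ha1)
  set m : ℝ≥0∞ := ∫⁻ u, ‖u‖ₑ ^ M ∂(Ub (k + 1)) with hm
  have hm0 : m ≠ 0 := mix2_const k M
  have hq : (Cm M : ℝ≥0∞) / m ≠ ⊤ := ENNReal.div_ne_top (by simp) hm0
  have habs : ∀ x : ℝ, ENNReal.ofReal (|x| ^ M) = ‖x‖ₑ ^ M := by
    intro x
    rw [ENNReal.ofReal_pow (abs_nonneg x), Real.enorm_eq_ofReal_abs]
  refine ⟨C1 + ((Cm M : ℝ≥0∞) / m).toReal + Cm M, by positivity, fun G τ hG hτ => ?_⟩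
  have := hτ.prob
  obtain ⟨G1, hG1, hG1m⟩ := hG.marg
  have hfst := mix2_fst hG.meas hG1m hτ
  refine ⟨?_, ?_, ?_⟩
  · have h1 := (hb G1 _ hG1 hfst).1
    rw [lintegral_map (by fun_prop) measurable_fst] at h1
    refine h1.trans (ENNReal.ofReal_le_ofReal ?_)
    have : (0 : ℝ) ≤ ((Cm M : ℝ≥0∞) / m).toReal + Cm M := by positivity
    linarith
  · have h1 := hG.momv M
    rw [hτ.eq (fun z => ‖z.1‖ₑ ^ M) (by fun_prop)] at h1
    have h2 : (∫⁻ z, ENNReal.ofReal (|z.1| ^ M) ∂τ) * m ≤ Cm M := by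
      refine le_trans (le_of_eq ?_) h1
      rw [← lintegral_mul_const _ (by fun_prop)]
      refine lintegral_congr fun z => ?_
      rw [habs, hm, ← lintegral_const_mul _ (by fun_prop)]
      refine lintegral_congr fun u => ?_
      rw [enorm_smul, mul_pow]
    have h3 : ∫⁻ z, ENNReal.ofReal (|z.1| ^ M) ∂τ ≤ (Cm M : ℝ≥0∞) / m := by
      rw [ENNReal.le_div_iff_mul_le (Or.inl hm0) (Or.inr (by simp))]
      exact h2
    refine h3.trans (le_trans (ENNReal.ofReal_toReal hq).ge ?_)
    refine ENNReal.ofReal_le_ofReal ?_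
    have : (0 : ℝ) ≤ Cm M := (Cm M).2
    linarith
  · have h1 := hG.momc M
    rw [hτ.eq (fun z => ‖z.2‖ₑ ^ M) (by fun_prop)] at h1
    have h2 : (∫⁻ z, ENNReal.ofReal (|z.2| ^ M) ∂τ) ≤ Cm M := by
      refine le_trans (le_of_eq ?_) h1
      refine lintegral_congr fun z => ?_
      simp [habs]
    refine h2.trans ?_
    have h3 : (Cm M : ℝ≥0∞) = ENNReal.ofReal (Cm M : ℝ) := (ENNReal.ofReal_coe_nnreal).symm
    have h4 : (0 : ℝ) ≤ ((Cm M : ℝ≥0∞) / m).toReal := ENNReal.toReal_nonneg
    refine h3.le.trans (ENNReal.ofReal_le_ofReal ?_)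
    linarith

private theorem mix2_sin {k : ℕ} (x : ℝ) : ∫ u, Real.sin (x * u 0) ∂(Ub (k + 1)) = 0 := by
  have hmp : MeasurePreserving (LinearIsometryEquiv.neg ℝ : V (k + 1) ≃ₗᵢ[ℝ] V (k + 1))
      (Ub (k + 1)) (Ub (k + 1)) := by
    unfold Ub MX.unif
    have h2 : MeasurePreserving (LinearIsometryEquiv.neg ℝ : V (k + 1) ≃ₗᵢ[ℝ] V (k + 1))
        (volume : Measure (V (k + 1))) volume :=
      LinearIsometryEquiv.measurePreserving _
    have h3 := h2.restrict_preimage (s := Metric.ball (0 : V (k + 1)) 1)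
      Metric.isOpen_ball.measurableSet
    have h4 : (LinearIsometryEquiv.neg ℝ : V (k + 1) ≃ₗᵢ[ℝ] V (k + 1)) ⁻¹'
        Metric.ball (0 : V (k + 1)) 1 = Metric.ball 0 1 := by
      ext u
      simp
    rw [h4] at h3
    exact h3.smul_measure _
  have h5 := hmp.integral_comp (LinearIsometryEquiv.neg ℝ : V (k + 1) ≃ₗᵢ[ℝ]
    V (k + 1)).toHomeomorph.measurableEmbedding (fun u : V (k + 1) => Real.sin (x * u 0))
  have h6 : ∫ u, Real.sin (x * u 0) ∂(Ub (k + 1)) = -∫ u, Real.sin (x * u 0) ∂(Ub (k + 1)) := by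
    conv_lhs => rw [← h5]
    rw [← integral_neg]
    refine integral_congr_ae (Filter.Eventually.of_forall fun u => ?_)
    simp
  linarith

/-- The formula for the Fourier transform. -/
theorem mix2_cos {k : ℕ} {Cm : ℕ → ℝ≥0} {G : V (k + 1) × ℝ → ℝ} (hG : RD2 k Cm G)
    {τ : Measure (ℝ × ℝ)} (h : Mix2 G τ) (κ r : ℝ) :
    ∫ z, Real.cos (r * (κ * z.1 0 + z.2)) * G z =
      ∫ z, phk k (κ * z.1 * r) * Real.cos (z.2 * r) ∂τ := by
  have := h.prob
  have := isProb_Ub (k + 1)
  have hGi : Integrable G := by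
    refine ⟨hG.meas.aestronglyMeasurable, ?_⟩
    refine lt_of_le_of_lt (le_of_eq ?_) (lt_of_le_of_lt hG.mass.le ENNReal.one_lt_top)
    refine lintegral_congr fun v => ?_
    rw [Real.enorm_eq_ofReal (hG.nonneg v)]
  have hG1 : ∫ v, G v = 1 := by
    rw [integral_eq_lintegral_of_nonneg_ae (Filter.Eventually.of_forall hG.nonneg)
      hG.meas.aestronglyMeasurable, hG.mass]
    simp
  have hcos : Measurable fun z : V (k + 1) × ℝ => Real.cos (r * (κ * z.1 0 + z.2)) := by fun_prop
  have hci : Integrable fun z : V (k + 1) × ℝ => Real.cos (r * (κ * z.1 0 + z.2)) * G z := by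
    refine hGi.bdd_mul (c := 1) hcos.aestronglyMeasurable ?_
    exact Filter.Eventually.of_forall fun v => by simpa using Real.abs_cos_le_one _
  have hF := h.eq (fun z => ENNReal.ofReal (1 + Real.cos (r * (κ * z.1 0 + z.2)))) (by fun_prop)
  have hone : ∀ y : ℝ, 0 ≤ 1 + Real.cos y := fun y => by linarith [Real.neg_one_le_cos y]
  have hL : ∫⁻ z : V (k + 1) × ℝ, ENNReal.ofReal (1 + Real.cos (r * (κ * z.1 0 + z.2))) *
      ENNReal.ofReal (G z) =
      ENNReal.ofReal (1 + ∫ z, Real.cos (r * (κ * z.1 0 + z.2)) * G z) := by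
    have h1 : (1 : ℝ) + ∫ z, Real.cos (r * (κ * z.1 0 + z.2)) * G z =
        ∫ z, (1 + Real.cos (r * (κ * z.1 0 + z.2))) * G z := by
      have h7 : ∫ z, (G z + Real.cos (r * (κ * z.1 0 + z.2)) * G z) =
          (∫ v, G v) + ∫ z, Real.cos (r * (κ * z.1 0 + z.2)) * G z := integral_add hGi hci
      rw [hG1] at h7
      rw [← h7]
      refine integral_congr_ae (Filter.Eventually.of_forall fun v => ?_)
      simp only
      ring
    have h2 : Integrable fun z : V (k + 1) × ℝ =>
        (1 + Real.cos (r * (κ * z.1 0 + z.2))) * G z := by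
      refine (hGi.add hci).congr (Filter.Eventually.of_forall fun v => ?_)
      simp only [Pi.add_apply]
      ring
    rw [h1, ofReal_integral_eq_lintegral_ofReal h2
      (Filter.Eventually.of_forall fun v => mul_nonneg (hone _) (hG.nonneg v))]
    refine lintegral_congr fun v => ?_
    rw [ENNReal.ofReal_mul (hone _)]
  have hphb : ∀ x, |phk k x| ≤ 1 := by
    intro x
    unfold phk
    have := norm_integral_le_of_norm_le_const (μ := Ub (k + 1)) (C := 1)
      (f := fun u : V (k + 1) => Real.cos (x * u 0))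
      (Filter.Eventually.of_forall fun v => by simpa using Real.abs_cos_le_one _)
    simpa using this
  have hbi : ∀ z : ℝ × ℝ, ∫⁻ u, ENNReal.ofReal
      (1 + Real.cos (r * (κ * (z.1 • u : V (k + 1)) 0 + z.2))) ∂(Ub (k + 1)) =
        ENNReal.ofReal (1 + phk k (κ * z.1 * r) * Real.cos (z.2 * r)) := by
    intro z
    have h0 : ∀ u : V (k + 1), Real.cos (r * (κ * (z.1 • u : V (k + 1)) 0 + z.2)) =
        Real.cos ((κ * z.1 * r) * u 0) * Real.cos (z.2 * r) -
          Real.sin ((κ * z.1 * r) * u 0) * Real.sin (z.2 * r) := by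
      intro u
      rw [← Real.cos_add]
      congr 1
      simp
      ring
    have hi1 : Integrable (fun u : V (k + 1) => Real.cos ((κ * z.1 * r) * u 0)) (Ub (k + 1)) := by
      refine Integrable.of_bound (C := 1) ?_ ?_
      · exact Measurable.aestronglyMeasurable (by fun_prop)
      · exact Filter.Eventually.of_forall fun v => by simpa using Real.abs_cos_le_one _
    have hi2 : Integrable (fun u : V (k + 1) => Real.sin ((κ * z.1 * r) * u 0)) (Ub (k + 1)) := by
      refine Integrable.of_bound (C := 1) ?_ ?_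
      · exact Measurable.aestronglyMeasurable (by fun_prop)
      · exact Filter.Eventually.of_forall fun v => by simpa using Real.abs_sin_le_one _
    have hi3 := hi1.mul_const (Real.cos (z.2 * r))
    have hi4 := hi2.mul_const (Real.sin (z.2 * r))
    have hi : Integrable (fun u : V (k + 1) => Real.cos (r * (κ * (z.1 • u : V (k + 1)) 0 + z.2)))
        (Ub (k + 1)) := by
      simp only [h0]
      exact hi3.sub hi4
    have h8 : Integrable (fun u : V (k + 1) =>
        1 + Real.cos (r * (κ * (z.1 • u : V (k + 1)) 0 + z.2))) (Ub (k + 1)) :=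
      (integrable_const 1).add hi
    rw [← ofReal_integral_eq_lintegral_ofReal h8 (Filter.Eventually.of_forall fun v => hone _)]
    congr 1
    rw [integral_add (integrable_const 1) hi]
    simp only [h0]
    rw [integral_sub hi3 hi4, integral_mul_const, integral_mul_const, mix2_sin]
    simp [phk]
  have hphm : Measurable (phk k) := by
    unfold phk
    have h1 : StronglyMeasurable fun p : ℝ × V (k + 1) => Real.cos (p.1 * p.2 0) := by
      refine Measurable.stronglyMeasurable ?_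
      fun_prop
    exact h1.integral_prod_right.measurable
  have hprod : ∀ z : ℝ × ℝ, |phk k (κ * z.1 * r) * Real.cos (z.2 * r)| ≤ 1 := by
    intro z
    rw [abs_mul]
    exact mul_le_one₀ (hphb _) (abs_nonneg _) (Real.abs_cos_le_one _)
  have hphi : Integrable (fun z : ℝ × ℝ => phk k (κ * z.1 * r) * Real.cos (z.2 * r)) τ := by
    refine Integrable.of_bound (C := 1) ?_ ?_
    · exact Measurable.aestronglyMeasurable (by fun_prop)
    · exact Filter.Eventually.of_forall fun v => by simpa using hprod v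
  rw [hL] at hF
  simp only [hbi] at hF
  have h9 : Integrable (fun z : ℝ × ℝ => 1 + phk k (κ * z.1 * r) * Real.cos (z.2 * r)) τ :=
    (integrable_const 1).add hphi
  rw [← ofReal_integral_eq_lintegral_ofReal h9
    (Filter.Eventually.of_forall fun v => by
      have := (abs_le.1 (hprod v)).1
      simp only [Pi.zero_apply]
      linarith)] at hF
  rw [integral_add (integrable_const 1) hphi] at hF
  have hA : |∫ z, Real.cos (r * (κ * z.1 0 + z.2)) * G z| ≤ 1 := by
    have h1 : |∫ z, Real.cos (r * (κ * z.1 0 + z.2)) * G z| ≤ ∫ v, G v := by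
      rw [← Real.norm_eq_abs]
      refine norm_integral_le_of_norm_le hGi (Filter.Eventually.of_forall fun v => ?_)
      rw [norm_mul, Real.norm_of_nonneg (hG.nonneg v)]
      have := Real.abs_cos_le_one (r * (κ * v.1 0 + v.2))
      rw [← Real.norm_eq_abs] at this
      nlinarith [hG.nonneg v]
    rwa [hG1] at h1
  have hB : |∫ z, phk k (κ * z.1 * r) * Real.cos (z.2 * r) ∂τ| ≤ 1 := by
    have := norm_integral_le_of_norm_le_const (μ := τ) (C := 1)
      (f := fun z : ℝ × ℝ => phk k (κ * z.1 * r) * Real.cos (z.2 * r))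
      (Filter.Eventually.of_forall fun v => by simpa using hprod v)
    simpa using this
  have h5 := (ENNReal.ofReal_eq_ofReal_iff (by linarith [(abs_le.1 hA).1])
    (by simp only [integral_const, probReal_univ, smul_eq_mul, mul_one]
        linarith [(abs_le.1 hB).1])).1 hF
  simp only [integral_const, probReal_univ, smul_eq_mul, mul_one] at h5
  linarith

end Pool.Agent.CB
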