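import Mathlib

/-!
# CB-Osc: an oscillatory integral

`I (m, P, β, x) = ∫_{-1}^1 P(t) cos (x t + β) (1 - t^2)^(m/2) dt` with `m ≥ -1` an integer is
`O(x^(-m/2-1))` as `x → ∞`, uniformly in the phase `β`. We index by `m + 1 = l ∈ ℕ`, exponent `(l-1)/2`.

Induction `l → l + 2`: integrate by parts (`intervalIntegral.integral_eq_sub_of_hasDerivAt_of_le` for
`P(t) (1-t^2)^((l+1)/2) sin (x t + β) / x`, continuous on `[-1,1]`, zero at the ends because `(l+1)/2 > 0`):
`I = -(1/x) ∫ Q(t) sin (x t + β) (1-t^2)^((l-1)/2)`, `Q = P' (1 - t^2) - (l+1) t P`, and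
`sin (x t + β) = cos (x t + β - π/2)`.
Base `l = 1` (exponent `0`): one integration by parts with boundary terms: `≤ (|P 1| + |P (-1)| + ∫ |P'|)/x`.
Base `l = 0` (exponent `-1/2`): the parts `1 - 1/x < |t| < 1` give at most `C x^(-1/2)` because
`(1-t^2)^(-1/2) ≤ (1-|t|)^(-1/2)`; on `|t| ≤ 1 - 1/x` integrate by parts: boundary terms
`≤ C (1/x) x^(1/2)`, and `(1/x) ∫ |d/dt (P (1-t^2)^(-1/2))| ≤ (C/x) ∫ (1-|t|)^(-3/2) ≤ C x^(-1/2)`.
-/

set_option autoImplicit false

open MeasureTheory Set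

namespace Pool.Agent.CB

private theorem ibp_bd (a b x β : ℝ) (hab : a ≤ b) (hx : 0 < x) (w w' : ℝ → ℝ)
    (hw : ∀ t ∈ Icc a b, HasDerivAt w (w' t) t) (hw' : ContinuousOn w' (Icc a b)) :
    |∫ t in a..b, w t * Real.cos (x * t + β)| ≤
      (|w a| + |w b| + ∫ t in a..b, |w' t|) / x := by
  have hI : IntervalIntegrable w' volume a b := hw'.intervalIntegrable_of_Icc hab
  have hv : ∀ t : ℝ, HasDerivAt (fun t => Real.sin (x * t + β) / x) (Real.cos (x * t + β)) t := by
    intro t
    have h1 : HasDerivAt (fun t : ℝ => x * t + β) x t := by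
      simpa using ((hasDerivAt_id t).const_mul x).add_const β
    have h2 := (h1.sin).div_const x
    have e : Real.cos (x * t + β) * x / x = Real.cos (x * t + β) := by
      field_simp
    rw [e] at h2
    exact h2
  have hc : Continuous (fun t : ℝ => Real.cos (x * t + β)) := by fun_prop
  have h := intervalIntegral.integral_mul_deriv_eq_deriv_mul (u := w)
    (v := fun t => Real.sin (x * t + β) / x) (u' := w') (v' := fun t => Real.cos (x * t + β))
    (a := a) (b := b) (by rw [uIcc_of_le hab]; exact hw) (fun t _ => hv t) hI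
    (hc.intervalIntegrable a b)
  rw [h]
  have hs : ∀ t : ℝ, |Real.sin (x * t + β) / x| ≤ 1 / x := by
    intro t
    rw [abs_div, abs_of_pos hx]
    exact div_le_div_of_nonneg_right (Real.abs_sin_le_one _) hx.le
  have h3 : |∫ t in a..b, w' t * (Real.sin (x * t + β) / x)| ≤ (∫ t in a..b, |w' t|) / x := by
    have h4 : |∫ t in a..b, w' t * (Real.sin (x * t + β) / x)| ≤ ∫ t in a..b, |w' t| * (1 / x) := by
      rw [← Real.norm_eq_abs]
      apply intervalIntegral.norm_integral_le_of_norm_le hab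
      · apply Filter.Eventually.of_forall
        intro t _
        rw [Real.norm_eq_abs, abs_mul]
        exact mul_le_mul_of_nonneg_left (hs t) (abs_nonneg _)
      · exact (hI.abs).mul_const (1 / x)
    rw [intervalIntegral.integral_mul_const] at h4
    calc _ ≤ _ := h4
      _ = _ := by ring
  have h5 : |w b * (Real.sin (x * b + β) / x)| ≤ |w b| / x := by
    rw [abs_mul]
    calc |w b| * |Real.sin (x * b + β) / x| ≤ |w b| * (1 / x) :=
          mul_le_mul_of_nonneg_left (hs b) (abs_nonneg _)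
      _ = _ := by ring
  have h6 : |w a * (Real.sin (x * a + β) / x)| ≤ |w a| / x := by
    rw [abs_mul]
    calc |w a| * |Real.sin (x * a + β) / x| ≤ |w a| * (1 / x) :=
          mul_le_mul_of_nonneg_left (hs a) (abs_nonneg _)
      _ = _ := by ring
  rw [abs_le] at h3 h5 h6 ⊢
  have e : (|w a| + |w b| + ∫ t in a..b, |w' t|) / x =
    |w a| / x + |w b| / x + (∫ t in a..b, |w' t|) / x := by ring
  rw [e]
  constructor <;> linarith [h3.1, h3.2, h5.1, h5.2, h6.1, h6.2]

/-- integrability of the weight on `[0, 1]` -/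
private theorem wt_int : IntervalIntegrable (fun t : ℝ => (1 - t ^ 2) ^ (-(1 / 2) : ℝ)) volume 0 1 := by
  have h1 : IntervalIntegrable (fun t : ℝ => (1 - t) ^ (-(1 / 2) : ℝ)) volume 0 1 := by
    have := (intervalIntegral.intervalIntegrable_rpow' (a := 0) (b := 1) (r := -(1 / 2)) (by norm_num)).comp_sub_left 1
    simpa using this.symm
  have h2 : ContinuousOn (fun t : ℝ => (1 + t) ^ (-(1 / 2) : ℝ)) (uIcc 0 1) := by
    intro t ht
    rw [uIcc_of_le zero_le_one] at ht
    apply ContinuousAt.continuousWithinAt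
    apply ContinuousAt.rpow_const (by fun_prop)
    left
    have := ht.1
    linarith
  have h3 := h1.mul_continuousOn h2
  refine h3.congr ?_
  intro t ht
  rw [uIoc_of_le zero_le_one] at ht
  show (1 - t) ^ (-(1 / 2) : ℝ) * (1 + t) ^ (-(1 / 2) : ℝ) = (1 - t ^ 2) ^ (-(1 / 2) : ℝ)
  rw [← Real.mul_rpow (by linarith [ht.2]) (by linarith [ht.1])]
  congr 1
  ring

private theorem wt_int' : IntervalIntegrable (fun t : ℝ => (1 - t ^ 2) ^ (-(1 / 2) : ℝ)) volume (-1) 1 := by
  have h1 := wt_int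
  have h2 : IntervalIntegrable (fun t : ℝ => (1 - t ^ 2) ^ (-(1 / 2) : ℝ)) volume (-1) 0 := by
    have := (h1.comp_sub_left 0).symm
    simpa using this
  exact h2.trans h1

theorem osc_int (l : ℕ) (P : Polynomial ℝ) (x β : ℝ) :
    IntervalIntegrable (fun t => P.eval t * Real.cos (x * t + β) *
      (1 - t ^ 2) ^ (((l : ℝ) - 1) / 2)) volume (-1) 1 := by
  have hc : Continuous (fun t : ℝ => P.eval t * Real.cos (x * t + β)) := by fun_prop
  rcases Nat.eq_zero_or_pos l with h | h
  · subst h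
    have e : (((0 : ℕ) : ℝ) - 1) / 2 = -(1 / 2) := by norm_num
    rw [e]
    exact wt_int'.continuousOn_mul hc.continuousOn
  · apply Continuous.intervalIntegrable
    apply hc.mul
    apply Continuous.rpow_const (by fun_prop)
    intro t
    right
    have : (1 : ℝ) ≤ l := by exact_mod_cast h
    linarith

/-- polynomials are bounded on `[-1, 1]` -/
private theorem poly_bd (P : Polynomial ℝ) : ∃ M : ℝ, 0 < M ∧ ∀ t ∈ Icc (-1 : ℝ) 1, |P.eval t| ≤ M := by
  obtain ⟨M, hM⟩ := (isCompact_Icc (a := (-1 : ℝ)) (b := 1)).exists_bound_of_continuousOn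
    (f := fun t => P.eval t) (by fun_prop)
  refine ⟨max M 1, lt_of_lt_of_le one_pos (le_max_right _ _), fun t ht => ?_⟩
  exact (hM t ht).trans (le_max_left _ _)

private theorem tail_int (δ : ℝ) : ∫ t in (1 - δ)..1, (1 - t) ^ (-(1 / 2) : ℝ) =
    2 * δ ^ (1 / 2 : ℝ) := by
  rw [intervalIntegral.integral_comp_sub_left (fun u : ℝ => u ^ (-(1 / 2) : ℝ)) 1]
  rw [integral_rpow (Or.inl (by norm_num))]
  have e : (-(1 / 2) : ℝ) + 1 = 1 / 2 := by norm_num
  rw [e]
  simp
  ring

private theorem main_int (δ : ℝ) (h0 : 0 < δ) (h1 : δ ≤ 1) :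
    ∫ t in (0 : ℝ)..(1 - δ), (1 - t) ^ (-(3 / 2) : ℝ) ≤ 2 * δ ^ (-(1 / 2) : ℝ) := by
  rw [intervalIntegral.integral_comp_sub_left (fun u : ℝ => u ^ (-(3 / 2) : ℝ)) 1]
  rw [integral_rpow]
  · have e : (-(3 / 2) : ℝ) + 1 = -(1 / 2) := by norm_num
    rw [e]
    have e2 : (1 : ℝ) - (1 - δ) = δ := by ring
    rw [e2]
    simp only [sub_zero, Real.one_rpow]
    have := Real.rpow_nonneg h0.le (-(1 / 2) : ℝ)
    rw [div_le_iff_of_neg (by norm_num)]
    nlinarith
  · right
    constructor
    · norm_num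
    · have e2 : (1 : ℝ) - (1 - δ) = δ := by ring
      rw [e2, uIcc_of_le (by linarith)]
      intro h
      linarith [h.1]

private theorem osc_half (P : Polynomial ℝ) : ∃ C : ℝ, 0 < C ∧ ∀ x : ℝ, 1 ≤ x → ∀ β : ℝ,
    |∫ t in (0 : ℝ)..1, P.eval t * Real.cos (x * t + β) * (1 - t ^ 2) ^ (-(1 / 2) : ℝ)| ≤
      C * x ^ (-(1 / 2) : ℝ) := by
  obtain ⟨M, hM, hMb⟩ := poly_bd P
  obtain ⟨M', hM', hMb'⟩ := poly_bd P.derivative
  refine ⟨2 * M + (M + M) + 2 * (M + M'), by positivity, fun x hx β => ?_⟩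
  have hx0 : 0 < x := by linarith
  set δ : ℝ := 1 / x with hδ
  have hδ0 : 0 < δ := by positivity
  have hδ1 : δ ≤ 1 := by rw [hδ, div_le_one hx0]; exact hx
  have hcc : Continuous (fun t : ℝ => P.eval t * Real.cos (x * t + β)) := by fun_prop
  have hint : IntervalIntegrable (fun t : ℝ => P.eval t * Real.cos (x * t + β) *
      (1 - t ^ 2) ^ (-(1 / 2) : ℝ)) volume 0 1 := wt_int.continuousOn_mul hcc.continuousOn
  have hi1 : IntervalIntegrable (fun t : ℝ => P.eval t * Real.cos (x * t + β) *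
      (1 - t ^ 2) ^ (-(1 / 2) : ℝ)) volume 0 (1 - δ) := by
    apply hint.mono_set
    rw [uIcc_of_le (by linarith), uIcc_of_le zero_le_one]
    exact Icc_subset_Icc le_rfl (by linarith)
  have hi2 : IntervalIntegrable (fun t : ℝ => P.eval t * Real.cos (x * t + β) *
      (1 - t ^ 2) ^ (-(1 / 2) : ℝ)) volume (1 - δ) 1 := by
    apply hint.mono_set
    rw [uIcc_of_le (by linarith), uIcc_of_le zero_le_one]
    exact Icc_subset_Icc (by linarith) le_rfl
  rw [← intervalIntegral.integral_add_adjacent_intervals hi1 hi2]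
  have hwle : ∀ t : ℝ, 0 ≤ t → t < 1 → (1 - t ^ 2) ^ (-(1 / 2) : ℝ) ≤ (1 - t) ^ (-(1 / 2) : ℝ) := by
    intro t h0 h1
    apply Real.rpow_le_rpow_of_nonpos (by linarith) (by nlinarith) (by norm_num)
  have hwle3 : ∀ t : ℝ, 0 ≤ t → t < 1 → (1 - t ^ 2) ^ (-(3 / 2) : ℝ) ≤ (1 - t) ^ (-(3 / 2) : ℝ) := by
    intro t h0 h1
    apply Real.rpow_le_rpow_of_nonpos (by linarith) (by nlinarith) (by norm_num)
  -- the tail
  have h2 : |∫ t in (1 - δ)..1, P.eval t * Real.cos (x * t + β) * (1 - t ^ 2) ^ (-(1 / 2) : ℝ)| ≤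
      2 * M * δ ^ (1 / 2 : ℝ) := by
    have hI : IntervalIntegrable (fun t : ℝ => M * (1 - t) ^ (-(1 / 2) : ℝ)) volume (1 - δ) 1 := by
      have := ((intervalIntegral.intervalIntegrable_rpow' (a := 0) (b := δ) (r := -(1 / 2))
        (by norm_num)).comp_sub_left 1).symm
      have h3 := this.const_mul M
      simpa using h3
    have h3 : |∫ t in (1 - δ)..1, P.eval t * Real.cos (x * t + β) *
        (1 - t ^ 2) ^ (-(1 / 2) : ℝ)| ≤ ∫ t in (1 - δ)..1, M * (1 - t) ^ (-(1 / 2) : ℝ) := by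
      rw [← Real.norm_eq_abs]
      apply intervalIntegral.norm_integral_le_of_norm_le (by linarith)
      · have : ∀ᵐ t : ℝ ∂volume, t ≠ 1 := by
          rw [ae_iff]; simp
        filter_upwards [this] with t ht1 ht
        have ht0 : 0 ≤ t := by linarith [ht.1]
        have ht2 : t < 1 := lt_of_le_of_ne ht.2 ht1
        rw [Real.norm_eq_abs, abs_mul, abs_mul, abs_of_nonneg (Real.rpow_nonneg (by nlinarith) _)]
        have c1 := hMb t ⟨by linarith, ht.2⟩
        have c2 := Real.abs_cos_le_one (x * t + β)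
        have c3 := hwle t ht0 ht2
        have c4 : 0 ≤ (1 - t ^ 2) ^ (-(1 / 2) : ℝ) := Real.rpow_nonneg (by nlinarith) _
        calc |P.eval t| * |Real.cos (x * t + β)| * (1 - t ^ 2) ^ (-(1 / 2) : ℝ)
            ≤ M * 1 * (1 - t ^ 2) ^ (-(1 / 2) : ℝ) :=
              mul_le_mul_of_nonneg_right (mul_le_mul c1 c2 (abs_nonneg _) hM.le) c4
          _ ≤ M * 1 * (1 - t) ^ (-(1 / 2) : ℝ) := mul_le_mul_of_nonneg_left c3 (by linarith)
          _ = _ := by ring
      · exact hI
    rw [intervalIntegral.integral_const_mul, tail_int δ] at h3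
    linarith
  -- the main part
  have h1 : |∫ t in (0 : ℝ)..(1 - δ), P.eval t * Real.cos (x * t + β) *
      (1 - t ^ 2) ^ (-(1 / 2) : ℝ)| ≤ (M + M * δ ^ (-(1 / 2) : ℝ) +
        2 * (M + M') * δ ^ (-(1 / 2) : ℝ)) / x := by
    have hpos : ∀ t ∈ Icc (0 : ℝ) (1 - δ), 0 < 1 - t ^ 2 := by
      intro t ht
      nlinarith [ht.1, ht.2]
    have hb := ibp_bd 0 (1 - δ) x β (by linarith) hx0
      (fun t => P.eval t * (1 - t ^ 2) ^ (-(1 / 2) : ℝ))
      (fun t => P.derivative.eval t * (1 - t ^ 2) ^ (-(1 / 2) : ℝ) +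
        P.eval t * (t * (1 - t ^ 2) ^ (-(3 / 2) : ℝ))) ?_ ?_
    · have e : ∫ t in (0 : ℝ)..(1 - δ), P.eval t * Real.cos (x * t + β) *
          (1 - t ^ 2) ^ (-(1 / 2) : ℝ) = ∫ t in (0 : ℝ)..(1 - δ),
          (fun t => P.eval t * (1 - t ^ 2) ^ (-(1 / 2) : ℝ)) t * Real.cos (x * t + β) := by
        apply intervalIntegral.integral_congr
        intro t _
        simp only
        ring
      rw [e]
      refine hb.trans (div_le_div_of_nonneg_right ?_ hx0.le)
      refine add_le_add (add_le_add ?_ ?_) ?_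
      · have c1 := hMb 0 ⟨by norm_num, by norm_num⟩
        simpa using c1
      · have c1 := hMb (1 - δ) ⟨by linarith, by linarith⟩
        have c3 := hwle (1 - δ) (by linarith) (by linarith)
        have e3 : (1 : ℝ) - (1 - δ) = δ := by ring
        rw [e3] at c3
        have c4 : 0 ≤ (1 - (1 - δ) ^ 2) ^ (-(1 / 2) : ℝ) :=
          Real.rpow_nonneg (hpos (1 - δ) ⟨by linarith, le_rfl⟩).le _
        show |P.eval (1 - δ) * (1 - (1 - δ) ^ 2) ^ (-(1 / 2) : ℝ)| ≤ _
        rw [abs_mul, abs_of_nonneg c4]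
        exact mul_le_mul c1 c3 c4 hM.le
      · have c0 : ∫ t in (0 : ℝ)..(1 - δ), |P.derivative.eval t * (1 - t ^ 2) ^ (-(1 / 2) : ℝ) +
            P.eval t * (t * (1 - t ^ 2) ^ (-(3 / 2) : ℝ))| ≤
            ∫ t in (0 : ℝ)..(1 - δ), (M + M') * (1 - t) ^ (-(3 / 2) : ℝ) := by
          apply intervalIntegral.integral_mono_on (by linarith)
          · apply ContinuousOn.intervalIntegrable_of_Icc (by linarith)
            apply ContinuousOn.abs
            apply ContinuousOn.add
            · apply ContinuousOn.mul (by fun_prop)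
              apply ContinuousOn.rpow_const (by fun_prop)
              intro t ht; left; exact (hpos t ht).ne'
            · apply ContinuousOn.mul (by fun_prop)
              apply ContinuousOn.mul (by fun_prop)
              apply ContinuousOn.rpow_const (by fun_prop)
              intro t ht; left; exact (hpos t ht).ne'
          · apply ContinuousOn.intervalIntegrable_of_Icc (by linarith)
            apply ContinuousOn.mul (by fun_prop)
            apply ContinuousOn.rpow_const (by fun_prop)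
            intro t ht; left
            have := ht.2
            intro h
            linarith
          · intro t ht
            have ht0 := ht.1
            have ht1 : t < 1 := by linarith [ht.2]
            have d1 := hMb' t ⟨by linarith, by linarith⟩
            have d2 := hMb t ⟨by linarith, by linarith⟩
            have d3 := hwle t ht0 ht1
            have d4 := hwle3 t ht0 ht1
            have d5 : (1 - t) ^ (-(1 / 2) : ℝ) ≤ (1 - t) ^ (-(3 / 2) : ℝ) :=
              Real.rpow_le_rpow_of_exponent_ge (by linarith) (by linarith) (by norm_num)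
            have d6 : 0 ≤ (1 - t ^ 2) ^ (-(1 / 2) : ℝ) := Real.rpow_nonneg (hpos t ht).le _
            have d7 : 0 ≤ (1 - t ^ 2) ^ (-(3 / 2) : ℝ) := Real.rpow_nonneg (hpos t ht).le _
            have d8 : 0 ≤ (1 - t) ^ (-(3 / 2) : ℝ) := Real.rpow_nonneg (by linarith) _
            calc |P.derivative.eval t * (1 - t ^ 2) ^ (-(1 / 2) : ℝ) +
                  P.eval t * (t * (1 - t ^ 2) ^ (-(3 / 2) : ℝ))|
                ≤ |P.derivative.eval t * (1 - t ^ 2) ^ (-(1 / 2) : ℝ)| +
                  |P.eval t * (t * (1 - t ^ 2) ^ (-(3 / 2) : ℝ))| := abs_add_le _ _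
              _ = |P.derivative.eval t| * (1 - t ^ 2) ^ (-(1 / 2) : ℝ) +
                  |P.eval t| * (t * (1 - t ^ 2) ^ (-(3 / 2) : ℝ)) := by
                  rw [abs_mul, abs_mul, abs_mul, abs_of_nonneg d6, abs_of_nonneg d7,
                    abs_of_nonneg ht0]
              _ ≤ M' * (1 - t) ^ (-(3 / 2) : ℝ) + M * (1 * (1 - t) ^ (-(3 / 2) : ℝ)) :=
                  add_le_add (mul_le_mul d1 (d3.trans d5) d6 hM'.le)
                    (mul_le_mul d2 (mul_le_mul ht1.le d4 d7 (by norm_num))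
                      (mul_nonneg ht0 d7) hM.le)
              _ = _ := by ring
        rw [intervalIntegral.integral_const_mul] at c0
        have c1 := main_int δ hδ0 hδ1
        calc _ ≤ _ := c0
          _ ≤ (M + M') * (2 * δ ^ (-(1 / 2) : ℝ)) := mul_le_mul_of_nonneg_left c1 (by positivity)
          _ = _ := by ring
    · intro t ht
      have hp := hpos t ht
      have q1 : HasDerivAt (fun t : ℝ => P.eval t) (P.derivative.eval t) t := P.hasDerivAt t
      have q2 : HasDerivAt (fun t : ℝ => 1 - t ^ 2) (-(2 * t)) t := by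
        have := (hasDerivAt_pow 2 t).const_sub 1
        simpa using this
      have q3 := q2.rpow_const (p := -(1 / 2)) (Or.inl hp.ne')
      have q4 := q1.mul q3
      refine q4.congr_deriv ?_
      have e : (-(1 / 2) : ℝ) - 1 = -(3 / 2) := by norm_num
      rw [e]
      ring
    · apply ContinuousOn.add
      · apply ContinuousOn.mul (by fun_prop)
        apply ContinuousOn.rpow_const (by fun_prop)
        intro t ht; left; exact (hpos t ht).ne'
      · apply ContinuousOn.mul (by fun_prop)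
        apply ContinuousOn.mul (by fun_prop)
        apply ContinuousOn.rpow_const (by fun_prop)
        intro t ht; left; exact (hpos t ht).ne'
  have e1 : δ ^ (1 / 2 : ℝ) = x ^ (-(1 / 2) : ℝ) := by
    rw [hδ, one_div, Real.inv_rpow hx0.le, Real.rpow_neg hx0.le]
  have e2 : δ ^ (-(1 / 2) : ℝ) = x ^ (1 / 2 : ℝ) := by
    rw [hδ, one_div, Real.inv_rpow hx0.le, ← Real.rpow_neg hx0.le]
    norm_num
  have e3 : x ^ (1 / 2 : ℝ) / x = x ^ (-(1 / 2) : ℝ) := by
    rw [div_eq_iff hx0.ne', ← Real.rpow_add_one hx0.ne']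
    norm_num
  have e4 : 1 / x ≤ x ^ (-(1 / 2) : ℝ) := by
    rw [one_div, ← Real.rpow_neg_one]
    exact Real.rpow_le_rpow_of_exponent_le hx (by norm_num)
  rw [e1] at h2
  rw [e2] at h1
  have e5 : (M + M * x ^ (1 / 2 : ℝ) + 2 * (M + M') * x ^ (1 / 2 : ℝ)) / x =
      M * (1 / x) + (M + 2 * (M + M')) * (x ^ (1 / 2 : ℝ) / x) := by ring
  rw [e5, e3] at h1
  have e6 : M * (1 / x) ≤ M * x ^ (-(1 / 2) : ℝ) := mul_le_mul_of_nonneg_left e4 hM.le
  refine (abs_add_le _ _).trans ?_
  calc _ ≤ _ := add_le_add h1 h2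
    _ ≤ M * x ^ (-(1 / 2) : ℝ) + (M + 2 * (M + M')) * x ^ (-(1 / 2) : ℝ) +
        2 * M * x ^ (-(1 / 2) : ℝ) := by linarith
    _ = _ := by ring

private theorem osc_zero (P : Polynomial ℝ) : ∃ C : ℝ, 0 < C ∧ ∀ x : ℝ, 1 ≤ x → ∀ β : ℝ,
    |∫ t in (-1 : ℝ)..1, P.eval t * Real.cos (x * t + β) * (1 - t ^ 2) ^ (-(1 / 2) : ℝ)| ≤
      C * x ^ (-(1 / 2) : ℝ) := by
  obtain ⟨C1, hC1, h1⟩ := osc_half P
  obtain ⟨C2, hC2, h2⟩ := osc_half (P.comp (-Polynomial.X))
  refine ⟨C1 + C2, by positivity, fun x hx β => ?_⟩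
  have hcc : Continuous (fun t : ℝ => P.eval t * Real.cos (x * t + β)) := by fun_prop
  have hint : IntervalIntegrable (fun t : ℝ => P.eval t * Real.cos (x * t + β) *
      (1 - t ^ 2) ^ (-(1 / 2) : ℝ)) volume (-1) 1 := wt_int'.continuousOn_mul hcc.continuousOn
  have hi1 : IntervalIntegrable (fun t : ℝ => P.eval t * Real.cos (x * t + β) *
      (1 - t ^ 2) ^ (-(1 / 2) : ℝ)) volume (-1) 0 := by
    apply hint.mono_set
    rw [uIcc_of_le (by norm_num), uIcc_of_le (by norm_num)]
    exact Icc_subset_Icc le_rfl (by norm_num)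
  have hi2 : IntervalIntegrable (fun t : ℝ => P.eval t * Real.cos (x * t + β) *
      (1 - t ^ 2) ^ (-(1 / 2) : ℝ)) volume 0 1 := by
    apply hint.mono_set
    rw [uIcc_of_le (by norm_num), uIcc_of_le (by norm_num)]
    exact Icc_subset_Icc (by norm_num) le_rfl
  rw [← intervalIntegral.integral_add_adjacent_intervals hi1 hi2]
  have e : ∫ t in (-1 : ℝ)..0, P.eval t * Real.cos (x * t + β) * (1 - t ^ 2) ^ (-(1 / 2) : ℝ) =
      ∫ t in (0 : ℝ)..1, (P.comp (-Polynomial.X)).eval t * Real.cos (x * t + (-β)) *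
        (1 - t ^ 2) ^ (-(1 / 2) : ℝ) := by
    have := intervalIntegral.integral_comp_neg (a := 0) (b := 1)
      (fun t : ℝ => P.eval t * Real.cos (x * t + β) * (1 - t ^ 2) ^ (-(1 / 2) : ℝ))
    rw [neg_zero] at this
    rw [← this]
    apply intervalIntegral.integral_congr
    intro t _
    have ec : Real.cos (x * (-t) + β) = Real.cos (x * t + (-β)) := by
      rw [← Real.cos_neg]
      congr 1
      ring
    simp only [Polynomial.eval_comp, Polynomial.eval_neg, Polynomial.eval_X, neg_sq]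
    rw [ec]
  rw [e]
  refine (abs_add_le _ _).trans ?_
  have := h1 x hx β
  have := h2 x hx (-β)
  linarith

private theorem osc_one (P : Polynomial ℝ) : ∃ C : ℝ, 0 < C ∧ ∀ x : ℝ, 1 ≤ x → ∀ β : ℝ,
    |∫ t in (-1 : ℝ)..1, P.eval t * Real.cos (x * t + β)| ≤ C * x ^ (-1 : ℝ) := by
  have hnn : 0 ≤ ∫ t in (-1 : ℝ)..1, |P.derivative.eval t| :=
    intervalIntegral.integral_nonneg (by norm_num) (fun _ _ => abs_nonneg _)
  refine ⟨|P.eval (-1)| + |P.eval 1| + (∫ t in (-1 : ℝ)..1, |P.derivative.eval t|) + 1,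
    by positivity, fun x hx β => ?_⟩
  have hx0 : 0 < x := by linarith
  have h := ibp_bd (-1) 1 x β (by norm_num) hx0 (fun t => P.eval t) (fun t => P.derivative.eval t)
    (fun t _ => P.hasDerivAt t) (by fun_prop)
  refine h.trans ?_
  rw [Real.rpow_neg_one, ← div_eq_mul_inv]
  apply div_le_div_of_nonneg_right _ hx0.le
  linarith

theorem osc (l : ℕ) (P : Polynomial ℝ) :
    ∃ C : ℝ, 0 < C ∧ ∀ x : ℝ, 1 ≤ x → ∀ β : ℝ,
      |∫ t in (-1 : ℝ)..1, P.eval t * Real.cos (x * t + β) * (1 - t ^ 2) ^ (((l : ℝ) - 1) / 2)| ≤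
        C * x ^ (-(((l : ℝ) - 1) / 2) - 1) := by
  induction l using Nat.twoStepInduction generalizing P with
  | zero =>
    obtain ⟨C, hC, h⟩ := osc_zero P
    refine ⟨C, hC, fun x hx β => ?_⟩
    have e : (((0 : ℕ) : ℝ) - 1) / 2 = -(1 / 2) := by norm_num
    have e2 : (-(-(1 / 2)) - 1 : ℝ) = -(1 / 2) := by norm_num
    rw [e, e2]
    exact h x hx β
  | one =>
    obtain ⟨C, hC, h⟩ := osc_one P
    refine ⟨C, hC, fun x hx β => ?_⟩
    have e : (((1 : ℕ) : ℝ) - 1) / 2 = 0 := by norm_num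
    have e2 : (-0 - 1 : ℝ) = -1 := by norm_num
    rw [e, e2]
    simp only [Real.rpow_zero, mul_one]
    exact h x hx β
  | more l ih _ =>
    set Q : Polynomial ℝ := P.derivative * (1 - Polynomial.X ^ 2) -
      Polynomial.C ((l : ℝ) + 1) * (Polynomial.X * P) with hQ
    obtain ⟨C, hC, h⟩ := ih Q
    refine ⟨C, hC, fun x hx β => ?_⟩
    have hx0 : 0 < x := by linarith
    have e : (((l + 2 : ℕ) : ℝ) - 1) / 2 = ((l : ℝ) - 1) / 2 + 1 := by push_cast; ring
    rw [e]
    set a : ℝ := ((l : ℝ) - 1) / 2 with ha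
    have ha0 : 0 < a + 1 := by
      have : (0 : ℝ) ≤ l := Nat.cast_nonneg l
      rw [ha]; linarith
    have hsin : ∀ t : ℝ, Real.sin (x * t + β) = Real.cos (x * t + (β - Real.pi / 2)) := by
      intro t
      rw [← Real.cos_sub_pi_div_two]
      congr 1
      ring
    have hq := osc_int l Q x (β - Real.pi / 2)
    have hp : IntervalIntegrable (fun t => P.eval t * Real.cos (x * t + β) *
        (1 - t ^ 2) ^ (a + 1)) volume (-1) 1 := by
      have := osc_int (l + 2) P x β
      rw [e] at this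
      exact this
    have hfd : ∫ t in (-1 : ℝ)..1, (P.eval t * Real.cos (x * t + β) * (1 - t ^ 2) ^ (a + 1) +
        (1 / x) * (Q.eval t * Real.cos (x * t + (β - Real.pi / 2)) * (1 - t ^ 2) ^ a)) = 0 := by
      have := intervalIntegral.integral_eq_sub_of_hasDerivAt_of_le (a := -1) (b := 1)
        (f := fun t : ℝ => P.eval t * (1 - t ^ 2) ^ (a + 1) * (Real.sin (x * t + β) / x))
        (f' := fun t => P.eval t * Real.cos (x * t + β) * (1 - t ^ 2) ^ (a + 1) +
          (1 / x) * (Q.eval t * Real.cos (x * t + (β - Real.pi / 2)) * (1 - t ^ 2) ^ a))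
        (by norm_num) ?_ ?_ ?_
      · rw [this]
        have z : (0 : ℝ) ^ (a + 1) = 0 := Real.zero_rpow ha0.ne'
        norm_num [z]
      · apply Continuous.continuousOn
        apply Continuous.mul
        · apply Continuous.mul (by fun_prop)
          apply Continuous.rpow_const (by fun_prop)
          intro t; right; exact ha0.le
        · fun_prop
      · intro t ht
        have hpt : 0 < 1 - t ^ 2 := by nlinarith [ht.1, ht.2]
        have q1 : HasDerivAt (fun t : ℝ => P.eval t) (P.derivative.eval t) t := P.hasDerivAt t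
        have q2 : HasDerivAt (fun t : ℝ => 1 - t ^ 2) (-(2 * t)) t := by
          have := (hasDerivAt_pow 2 t).const_sub 1
          simpa using this
        have q3 := q2.rpow_const (p := a + 1) (Or.inl hpt.ne')
        have q5 : HasDerivAt (fun t : ℝ => x * t + β) x t := by
          simpa using ((hasDerivAt_id t).const_mul x).add_const β
        have q6 := (q5.sin).div_const x
        have q4 := (q1.mul q3).mul q6
        refine q4.congr_deriv ?_
        simp only [Pi.mul_apply]
        rw [← hsin, add_sub_cancel_right, Real.rpow_add_one hpt.ne']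
        simp only [hQ, Polynomial.eval_sub, Polynomial.eval_mul, Polynomial.eval_C,
          Polynomial.eval_X, Polynomial.eval_pow, Polynomial.eval_one]
        have ea : a + 1 = ((l : ℝ) + 1) / 2 := by rw [ha]; ring
        rw [ea]
        field_simp
        ring
      · exact hp.add (hq.const_mul (1 / x))
    rw [intervalIntegral.integral_add hp (hq.const_mul (1 / x)),
      intervalIntegral.integral_const_mul] at hfd
    have e7 : ∫ t in (-1 : ℝ)..1, P.eval t * Real.cos (x * t + β) * (1 - t ^ 2) ^ (a + 1) =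
        -(1 / x * ∫ t in (-1 : ℝ)..1, Q.eval t * Real.cos (x * t + (β - Real.pi / 2)) *
          (1 - t ^ 2) ^ a) := by linarith
    rw [e7, abs_neg, abs_mul, abs_of_pos (by positivity : 0 < 1 / x)]
    have h8 := h x hx (β - Real.pi / 2)
    have e9 : x ^ (-(a + 1) - 1) = 1 / x * x ^ (-a - 1) := by
      have : -(a + 1) - 1 = (-a - 1) - 1 := by ring
      rw [this, Real.rpow_sub_one hx0.ne']
      ring
    rw [e9]
    calc 1 / x * |_| ≤ 1 / x * (C * x ^ (-a - 1)) := mul_le_mul_of_nonneg_left h8 (by positivity)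
      _ = _ := by ring

end Pool.Agent.CB
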