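import Pool.Agent.CB.BallM
import Pool.Agent.CB.Osc

/-!
# CB-PhD: derivatives and decay of the Fourier transform of the ball

`D j x = κ * ∫ t in -1..1, t^j * cos (x t + j π/2) * (1-t^2)^(k/2)`; `D 0 = phk k` by `ball_marginal`;
differentiate under the integral (`intervalIntegral.hasDerivAt_integral_of_dominated_loc_of_deriv_le`):
`d/dx cos (x t + j π/2) = -t sin (x t + j π/2) = t cos (x t + (j+1) π/2)`. Decay: `osc` with `l = k + 1`,
`P = X^j`, for `x ≥ 1`; for `0 ≤ x ≤ 1` the trivial bound `|D j x| ≤ D`; `1 + x ≤ 2 x` for `x ≥ 1`; finitely many `j ≤ N`.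
-/

set_option autoImplicit false

open MeasureTheory Set
open scoped ENNReal NNReal

namespace Pool.Agent.CB

/-- the integrand of the `j`-th derivative -/
private noncomputable def phi (k j : ℕ) (x t : ℝ) : ℝ :=
  t ^ j * Real.cos (x * t + j * (Real.pi / 2)) * (1 - t ^ 2) ^ ((k : ℝ) / 2)

private lemma phi_cont (k j : ℕ) (x : ℝ) : Continuous (phi k j x) := by
  unfold phi
  have h : Continuous fun t : ℝ => (1 - t ^ 2) ^ ((k : ℝ) / 2) :=
    Continuous.rpow_const (by fun_prop) fun t => Or.inr (by positivity)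
  exact (by fun_prop : Continuous fun t : ℝ => t ^ j * Real.cos (x * t + j * (Real.pi / 2))).mul h

private lemma phi_deriv (k j : ℕ) (x t : ℝ) :
    HasDerivAt (fun x => phi k j x t) (phi k (j + 1) x t) x := by
  unfold phi
  have h1 : HasDerivAt (fun x : ℝ => x * t + j * (Real.pi / 2)) t x := by
    simpa using ((hasDerivAt_id x).mul_const t).add_const (j * (Real.pi / 2))
  have h2 := ((h1.cos).const_mul (t ^ j)).mul_const ((1 - t ^ 2) ^ ((k : ℝ) / 2))
  refine h2.congr_deriv ?_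
  have h3 : Real.cos (x * t + ((j + 1 : ℕ) : ℝ) * (Real.pi / 2)) =
      -Real.sin (x * t + j * (Real.pi / 2)) := by
    rw [← Real.cos_add_pi_div_two]
    congr 1
    push_cast
    ring
  rw [h3]
  ring

private lemma phi_bound (k j : ℕ) (x t : ℝ) (h1 : -1 ≤ t) (h2 : t ≤ 1) : |phi k j x t| ≤ 1 := by
  unfold phi
  have ht : |t| ≤ 1 := abs_le.mpr ⟨h1, h2⟩
  have hw0 : 0 ≤ 1 - t ^ 2 := by nlinarith
  have hw1 : 1 - t ^ 2 ≤ 1 := by nlinarith
  rw [abs_mul, abs_mul, abs_pow]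
  have a1 : |t| ^ j ≤ 1 := pow_le_one₀ (abs_nonneg _) ht
  have a2 : |Real.cos (x * t + j * (Real.pi / 2))| ≤ 1 := Real.abs_cos_le_one _
  have a3 : |(1 - t ^ 2) ^ ((k : ℝ) / 2)| ≤ 1 := by
    rw [abs_of_nonneg (Real.rpow_nonneg hw0 _)]
    exact Real.rpow_le_one hw0 hw1 (by positivity)
  have b1 : |t| ^ j * |Real.cos (x * t + j * (Real.pi / 2))| ≤ 1 :=
    mul_le_one₀ a1 (abs_nonneg _) a2
  exact mul_le_one₀ b1 (abs_nonneg _) a3

private lemma phi_int_deriv (k j : ℕ) (x : ℝ) :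
    HasDerivAt (fun x => ∫ t in (-1 : ℝ)..1, phi k j x t)
      (∫ t in (-1 : ℝ)..1, phi k (j + 1) x t) x := by
  have h := intervalIntegral.hasDerivAt_integral_of_dominated_loc_of_deriv_le
    (μ := volume) (a := (-1 : ℝ)) (b := 1) (F := fun x t => phi k j x t)
    (F' := fun x t => phi k (j + 1) x t) (x₀ := x) (s := Set.univ) (bound := fun _ => 1)
    Filter.univ_mem
    (Filter.Eventually.of_forall fun y => (phi_cont k j y).aestronglyMeasurable)
    ((phi_cont k j x).intervalIntegrable _ _)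
    (phi_cont k (j + 1) x).aestronglyMeasurable
    (Filter.Eventually.of_forall fun t ht y _ => by
      rw [Set.uIoc_of_le (by norm_num : (-1 : ℝ) ≤ 1)] at ht
      exact phi_bound k (j + 1) y t ht.1.le ht.2)
    intervalIntegrable_const
    (Filter.Eventually.of_forall fun t _ y _ => phi_deriv k j y t)
  exact h.2

theorem ph_deriv (k N : ℕ) :
    ∃ (A : ℝ) (D : ℕ → ℝ → ℝ), 0 < A ∧ D 0 = phk k ∧
      (∀ j x, HasDerivAt (D j) (D (j + 1) x) x) ∧
      ∀ j, j ≤ N → ∀ x, 0 ≤ x → |D j x| ≤ A * (1 + x) ^ (-(((k : ℝ) + 2) / 2)) := by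
  obtain ⟨κ, hκ, hball⟩ := ball_marginal k
  have hosc : ∀ j : ℕ, ∃ C : ℝ, 0 < C ∧ ∀ x : ℝ, 1 ≤ x →
      |∫ t in (-1 : ℝ)..1, phi k j x t| ≤ C * x ^ (-(((k : ℝ) + 2) / 2)) := by
    intro j
    obtain ⟨C, hC, h⟩ := osc (k + 1) (Polynomial.X ^ j)
    refine ⟨C, hC, fun x hx => ?_⟩
    have h' := h x hx (j * (Real.pi / 2))
    have e1 : (((k + 1 : ℕ) : ℝ) - 1) / 2 = (k : ℝ) / 2 := by push_cast; ring
    have e2 : -((k : ℝ) / 2) - 1 = -(((k : ℝ) + 2) / 2) := by ring
    rw [e1, e2] at h'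
    simpa only [phi, Polynomial.eval_pow, Polynomial.eval_X] using h'
  choose C hC hCb using hosc
  have hSn : 0 ≤ ∑ j ∈ Finset.range (N + 1), C j := Finset.sum_nonneg fun j _ => (hC j).le
  have h2p : (0 : ℝ) < (2 : ℝ) ^ (((k : ℝ) + 2) / 2) := Real.rpow_pos_of_pos two_pos _
  refine ⟨κ * ((2 : ℝ) ^ (((k : ℝ) + 2) / 2) * (2 + ∑ j ∈ Finset.range (N + 1), C j)),
    fun j x => κ * ∫ t in (-1 : ℝ)..1, phi k j x t, by positivity, ?_, ?_, ?_⟩
  · funext x
    unfold phk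
    rw [hball (fun s => Real.cos (x * s)) (by fun_prop)]
    simp [phi]
  · intro j x
    exact (phi_int_deriv k j x).const_mul κ
  · intro j hj x hx
    have hCj : C j ≤ ∑ i ∈ Finset.range (N + 1), C i :=
      Finset.single_le_sum (f := C) (fun i _ => (hC i).le) (Finset.mem_range.mpr (by omega))
    have hp : 0 ≤ (1 + x) ^ (-(((k : ℝ) + 2) / 2)) := Real.rpow_nonneg (by linarith) _
    have key : |∫ t in (-1 : ℝ)..1, phi k j x t| ≤
        ((2 : ℝ) ^ (((k : ℝ) + 2) / 2) * (2 + ∑ j ∈ Finset.range (N + 1), C j)) *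
          (1 + x) ^ (-(((k : ℝ) + 2) / 2)) := by
      rcases le_or_gt 1 x with h1 | h1
      · have hx0 : 0 < x := by linarith
        have e : x ^ (-(((k : ℝ) + 2) / 2)) ≤
            (2 : ℝ) ^ (((k : ℝ) + 2) / 2) * (1 + x) ^ (-(((k : ℝ) + 2) / 2)) := by
          have e1 : (2 * x) ^ (-(((k : ℝ) + 2) / 2)) ≤ (1 + x) ^ (-(((k : ℝ) + 2) / 2)) :=
            Real.rpow_le_rpow_of_nonpos (by linarith) (by linarith) (by
              have : (0 : ℝ) ≤ k := Nat.cast_nonneg k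
              linarith)
          have e2 : (2 * x) ^ (-(((k : ℝ) + 2) / 2)) =
              (2 : ℝ) ^ (-(((k : ℝ) + 2) / 2)) * x ^ (-(((k : ℝ) + 2) / 2)) :=
            Real.mul_rpow two_pos.le hx0.le
          have e3 : (2 : ℝ) ^ (((k : ℝ) + 2) / 2) * (2 : ℝ) ^ (-(((k : ℝ) + 2) / 2)) = 1 := by
            rw [← Real.rpow_add two_pos]
            simp
          calc x ^ (-(((k : ℝ) + 2) / 2))
              = ((2 : ℝ) ^ (((k : ℝ) + 2) / 2) * (2 : ℝ) ^ (-(((k : ℝ) + 2) / 2))) *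
                  x ^ (-(((k : ℝ) + 2) / 2)) := by rw [e3, one_mul]
            _ = (2 : ℝ) ^ (((k : ℝ) + 2) / 2) * (2 * x) ^ (-(((k : ℝ) + 2) / 2)) := by
                rw [e2]; ring
            _ ≤ _ := mul_le_mul_of_nonneg_left e1 h2p.le
        calc |∫ t in (-1 : ℝ)..1, phi k j x t| ≤ C j * x ^ (-(((k : ℝ) + 2) / 2)) := hCb j x h1
          _ ≤ C j * ((2 : ℝ) ^ (((k : ℝ) + 2) / 2) * (1 + x) ^ (-(((k : ℝ) + 2) / 2))) :=
              mul_le_mul_of_nonneg_left e (hC j).le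
          _ = ((2 : ℝ) ^ (((k : ℝ) + 2) / 2) * C j) * (1 + x) ^ (-(((k : ℝ) + 2) / 2)) := by ring
          _ ≤ _ := by
              refine mul_le_mul_of_nonneg_right ?_ hp
              exact mul_le_mul_of_nonneg_left (by linarith) h2p.le
      · have hb : |∫ t in (-1 : ℝ)..1, phi k j x t| ≤ 2 := by
          have := intervalIntegral.norm_integral_le_of_norm_le_const (a := (-1 : ℝ)) (b := 1)
            (f := phi k j x) (C := 1) (fun t ht => by
              rw [Set.uIoc_of_le (by norm_num : (-1 : ℝ) ≤ 1)] at ht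
              exact phi_bound k j x t ht.1.le ht.2)
          rw [Real.norm_eq_abs] at this
          refine this.trans ?_
          norm_num
        have e : (1 : ℝ) ≤ (2 : ℝ) ^ (((k : ℝ) + 2) / 2) * (1 + x) ^ (-(((k : ℝ) + 2) / 2)) := by
          have e1 : (2 : ℝ) ^ (-(((k : ℝ) + 2) / 2)) ≤ (1 + x) ^ (-(((k : ℝ) + 2) / 2)) :=
            Real.rpow_le_rpow_of_nonpos (by linarith) (by linarith) (by
              have : (0 : ℝ) ≤ k := Nat.cast_nonneg k
              linarith)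
          have e3 : (2 : ℝ) ^ (((k : ℝ) + 2) / 2) * (2 : ℝ) ^ (-(((k : ℝ) + 2) / 2)) = 1 := by
            rw [← Real.rpow_add two_pos]
            simp
          calc (1 : ℝ) = (2 : ℝ) ^ (((k : ℝ) + 2) / 2) * (2 : ℝ) ^ (-(((k : ℝ) + 2) / 2)) := e3.symm
            _ ≤ _ := mul_le_mul_of_nonneg_left e1 h2p.le
        calc |∫ t in (-1 : ℝ)..1, phi k j x t| ≤ 2 * 1 := by linarith
          _ ≤ (2 + ∑ j ∈ Finset.range (N + 1), C j) *
              ((2 : ℝ) ^ (((k : ℝ) + 2) / 2) * (1 + x) ^ (-(((k : ℝ) + 2) / 2))) :=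
              mul_le_mul (by linarith) e zero_le_one (by linarith)
          _ = _ := by ring
    rw [abs_mul, abs_of_pos hκ, mul_assoc]
    exact mul_le_mul_of_nonneg_left key hκ.le

end Pool.Agent.CB
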