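import Pool.Agent.CB.Mix2B
import Pool.Agent.CB.Mix2M
import Pool.Agent.CB.Diff2
import Pool.Agent.CB.PhD

/-!
# CB-Dec2A: decay for the densities `RD2`

`a = (k+2)/2 < k + 1` (`k ≥ 1`). `m r = ∫ phk k (κ b r) cos (c r) dτ(b, c)` (`exists_mix2`, `mix2_cos`). First part:
`|phk k x| ≤ A x^(-a)`, `κ^(-a) ≤ 2^a`, `mix2_moments` with exponent `a`. Second part: `dif` of integrals is the integral of `dif`,
`dif_bound2` with `β = κ b`: at most `K h^N bet a N r ∫ (1 + (κ b)^(-a)) (1 + b)^N (1+|c|)^N dτ`, and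
`(κ b)^(-a) ≤ 2^a b^(-a)`. The weight is integrable with a uniform bound: choose `q > 1` with `a q < k + 1` (e.g.
`q = (a + k + 1)/(2 a)`), `q' = q/(q-1)`: `x y ≤ x^q + y^q'` for `x, y ≥ 0` (Young), so
`b^(-a) (1+b)^N (1+|c|)^N ≤ b^(-a q) + ((1+b)(1+|c|))^(N q')`, `((1+b)(1+|c|))^(N q') ≤ ((1+b)(1+|c|))^M ≤ (1+b)^(2M) + (1+|c|)^(2M)`
with an integer `M ≥ N q'`, and `(1+b)^(2M) ≤ 4^M (1 + b^(2M))`. `mix2_moments` with exponent `a q` and `2 M`.
-/

set_option autoImplicit false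

open MeasureTheory Set
open scoped ENNReal NNReal

namespace Pool.Agent.CB

private theorem d2_add_pow {b : ℝ} (hb : 0 ≤ b) (n : ℕ) :
    (1 + b) ^ n ≤ 2 ^ n * (1 + b ^ n) := by
  have h2 : (0 : ℝ) < 2 ^ n := by positivity
  have hbn : 0 ≤ b ^ n := by positivity
  rcases le_total b 1 with h | h
  · calc (1 + b) ^ n ≤ 2 ^ n := pow_le_pow_left₀ (by linarith) (by linarith) n
      _ ≤ 2 ^ n * (1 + b ^ n) := by nlinarith
  · calc (1 + b) ^ n ≤ (2 * b) ^ n := pow_le_pow_left₀ (by linarith) (by linarith) n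
      _ = 2 ^ n * b ^ n := mul_pow _ _ _
      _ ≤ _ := by nlinarith

private theorem d2_young {q y X : ℝ} (hq : 1 < q) {m : ℕ} (hm : 1 / (q - 1) ≤ m) (hy : 0 < y)
    (hX : 1 ≤ X) : y * X ≤ y ^ q + X ^ (m + 1) := by
  have hX0 : 0 < X := by linarith
  have hyq : 0 < y ^ q := Real.rpow_pos_of_pos hy _
  have hXm : 0 < X ^ (m + 1) := by positivity
  rcases le_total X (y ^ (q - 1)) with h | h
  · have h1 : y * y ^ (q - 1) = y ^ q := by
      rw [← Real.rpow_one_add' hy.le (by linarith)]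
      congr 1
      ring
    have h2 : y * X ≤ y * y ^ (q - 1) := mul_le_mul_of_nonneg_left h hy.le
    linarith
  · have hq1 : 0 < q - 1 := by linarith
    have h1 : y ≤ X ^ m := by
      calc y = (y ^ (q - 1)) ^ (1 / (q - 1)) := by
            rw [← Real.rpow_mul hy.le, mul_one_div_cancel hq1.ne', Real.rpow_one]
        _ ≤ X ^ (1 / (q - 1)) :=
            Real.rpow_le_rpow (Real.rpow_nonneg hy.le _) h (by positivity)
        _ ≤ X ^ (m : ℝ) := Real.rpow_le_rpow_of_exponent_le hX hm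
        _ = X ^ m := Real.rpow_natCast _ _
    have h2 : y * X ≤ X ^ m * X := mul_le_mul_of_nonneg_right h1 hX0.le
    rw [← pow_succ] at h2
    linarith

private theorem d2_weight_pt {a q : ℝ} (hq : 1 < q) {N m : ℕ}
    (hm : 1 / (q - 1) ≤ m) {b c : ℝ} (hb : 0 < b) :
    (1 + b ^ (-a)) * (1 + |b|) ^ N * (1 + |c|) ^ N ≤
      b ^ (-(a * q)) + 2 * 2 ^ (2 * (N * (m + 1))) *
        (2 + |b| ^ (2 * (N * (m + 1))) + |c| ^ (2 * (N * (m + 1)))) := by
  obtain ⟨X, hXe⟩ : ∃ X : ℝ, X = (1 + |b|) ^ N * (1 + |c|) ^ N := ⟨_, rfl⟩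
  have hb1 : (1 : ℝ) ≤ 1 + |b| := by have := abs_nonneg b; linarith
  have hc1 : (1 : ℝ) ≤ 1 + |c| := by have := abs_nonneg c; linarith
  have hX : 1 ≤ X := by
    rw [hXe]
    exact one_le_mul_of_one_le_of_one_le (one_le_pow₀ hb1) (one_le_pow₀ hc1)
  have hy : 0 < b ^ (-a) := Real.rpow_pos_of_pos hb _
  have h1 := d2_young hq hm hy hX
  have h2 : (b ^ (-a)) ^ q = b ^ (-(a * q)) := by
    rw [← Real.rpow_mul hb.le]
    congr 1
    ring
  rw [h2] at h1
  have h3 : X ≤ X ^ (m + 1) := le_self_pow₀ hX (by omega)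
  have h4 : X ^ (m + 1) ≤ 2 ^ (2 * (N * (m + 1))) *
      (2 + |b| ^ (2 * (N * (m + 1))) + |c| ^ (2 * (N * (m + 1)))) := by
    have e : X ^ (m + 1) = (1 + |b|) ^ (N * (m + 1)) * (1 + |c|) ^ (N * (m + 1)) := by
      rw [hXe, mul_pow, ← pow_mul, ← pow_mul]
    rw [e]
    have hb2 := d2_add_pow (abs_nonneg b) (2 * (N * (m + 1)))
    have hc2 := d2_add_pow (abs_nonneg c) (2 * (N * (m + 1)))
    have eb : (1 + |b|) ^ (2 * (N * (m + 1))) = ((1 + |b|) ^ (N * (m + 1))) ^ 2 := by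
      rw [← pow_mul, mul_comm]
    have ec : (1 + |c|) ^ (2 * (N * (m + 1))) = ((1 + |c|) ^ (N * (m + 1))) ^ 2 := by
      rw [← pow_mul, mul_comm]
    rw [eb] at hb2
    rw [ec] at hc2
    nlinarith [sq_nonneg ((1 + |b|) ^ (N * (m + 1)) - (1 + |c|) ^ (N * (m + 1))),
      sq_nonneg ((1 + |b|) ^ (N * (m + 1)) + (1 + |c|) ^ (N * (m + 1)))]
  have e0 : (1 + b ^ (-a)) * (1 + |b|) ^ N * (1 + |c|) ^ N = X + b ^ (-a) * X := by
    rw [hXe]
    ring
  rw [e0]
  linarith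

private theorem d2_a1 {k : ℕ} (hk : 1 ≤ k) : (1 : ℝ) < ((k : ℝ) + 2) / 2 ∧
    ((k : ℝ) + 2) / 2 < (k : ℝ) + 1 := by
  have hk' : (1 : ℝ) ≤ k := by exact_mod_cast hk
  constructor <;> linarith

private theorem d2_pos {k : ℕ} {G : V (k + 1) × ℝ → ℝ} {τ : Measure (ℝ × ℝ)} (h : Mix2 G τ) :
    ∀ᵐ z ∂τ, 0 < z.1 := by
  have h := h.pos
  rw [ae_iff]
  have : {z : ℝ × ℝ | ¬ 0 < z.1} = {z | z.1 ≤ 0} := by ext z; simp
  rw [this]
  exact h

theorem mix2_weight {k N : ℕ} (hk : 1 ≤ k) (Cm : ℕ → ℝ≥0) :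
    ∃ C : ℝ, 0 < C ∧ ∀ (G : V (k + 1) × ℝ → ℝ) (τ : Measure (ℝ × ℝ)), RD2 k Cm G → Mix2 G τ →
      ∫⁻ z, ENNReal.ofReal ((1 + z.1 ^ (-(((k : ℝ) + 2) / 2))) * (1 + |z.1|) ^ N *
        (1 + |z.2|) ^ N) ∂τ ≤ ENNReal.ofReal C := by
  obtain ⟨ha1, ha2⟩ := d2_a1 hk
  obtain ⟨a, haeq⟩ : ∃ a : ℝ, a = ((k : ℝ) + 2) / 2 := ⟨_, rfl⟩
  rw [← haeq] at ha1 ha2 ⊢
  have ha : 0 < a := by linarith
  obtain ⟨q, hqe⟩ : ∃ q : ℝ, q = (a + (k + 1)) / (2 * a) := ⟨_, rfl⟩
  have haq : a * q = (a + (k + 1)) / 2 := by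
    rw [hqe]
    field_simp
  have hq : 1 < q := by
    rw [hqe, lt_div_iff₀ (by positivity)]
    linarith
  obtain ⟨m, hm⟩ := exists_nat_ge (1 / (q - 1))
  set M : ℕ := 2 * (N * (m + 1)) with hM
  obtain ⟨C, hC, hmom⟩ := mix2_moments hk Cm (a := a * q) (by positivity) (by linarith) M
  refine ⟨C + 2 * 2 ^ M * (2 + C + C), by positivity, fun G τ hG hτ => ?_⟩
  obtain ⟨h1, h2, h3⟩ := hmom G τ hG hτ
  have := hτ.prob
  have hpos := d2_pos hτ
  calc ∫⁻ z, ENNReal.ofReal ((1 + z.1 ^ (-a)) * (1 + |z.1|) ^ N * (1 + |z.2|) ^ N) ∂τ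
      ≤ ∫⁻ z, (ENNReal.ofReal (z.1 ^ (-(a * q))) + ENNReal.ofReal (2 * 2 ^ M) *
          (2 + ENNReal.ofReal (|z.1| ^ M) + ENNReal.ofReal (|z.2| ^ M))) ∂τ := by
        refine lintegral_mono_ae ?_
        filter_upwards [hpos] with z hz
        refine (ENNReal.ofReal_le_ofReal (d2_weight_pt (a := a) (N := N) (c := z.2) hq hm hz)).trans ?_
        rw [ENNReal.ofReal_add (Real.rpow_nonneg hz.le _) (by positivity),
          ENNReal.ofReal_mul (by positivity), ENNReal.ofReal_add (by positivity) (by positivity),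
          ENNReal.ofReal_add (by positivity) (by positivity)]
        simp [hM]
    _ = ∫⁻ z, ENNReal.ofReal (z.1 ^ (-(a * q))) ∂τ + ENNReal.ofReal (2 * 2 ^ M) *
          (2 + ∫⁻ z, ENNReal.ofReal (|z.1| ^ M) ∂τ + ∫⁻ z, ENNReal.ofReal (|z.2| ^ M) ∂τ) := by
        rw [lintegral_add_left (by fun_prop), lintegral_const_mul _ (by fun_prop),
          lintegral_add_left (by fun_prop), lintegral_add_left (by fun_prop)]
        simp
    _ ≤ ENNReal.ofReal C + ENNReal.ofReal (2 * 2 ^ M) *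
          (2 + ENNReal.ofReal C + ENNReal.ofReal C) := by gcongr
    _ = ENNReal.ofReal (C + 2 * 2 ^ M * (2 + C + C)) := by
        have e2 : (2 : ℝ≥0∞) = ENNReal.ofReal 2 := by simp
        rw [e2, ← ENNReal.ofReal_add (by positivity) hC.le, ← ENNReal.ofReal_add (by positivity) hC.le,
          ← ENNReal.ofReal_mul (by positivity), ← ENNReal.ofReal_add hC.le (by positivity)]

private theorem d2_int {τ : Measure (ℝ × ℝ)} {f : ℝ × ℝ → ℝ} {C : ℝ} (hC : 0 < C)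
    (hf : Measurable f) (h0 : ∀ᵐ b ∂τ, 0 ≤ f b)
    (hm : ∫⁻ b, ENNReal.ofReal (f b) ∂τ ≤ ENNReal.ofReal C) :
    Integrable f τ ∧ ∫ b, f b ∂τ ≤ C := by
  refine ⟨⟨hf.aestronglyMeasurable, ?_⟩, ?_⟩
  · rw [hasFiniteIntegral_iff_ofReal h0]
    exact lt_of_le_of_lt hm ENNReal.ofReal_lt_top
  · rw [integral_eq_lintegral_of_nonneg_ae h0 hf.aestronglyMeasurable]
    exact ENNReal.toReal_le_of_le_ofReal hC.le hm

private theorem d2_kap {a κ : ℝ} (ha : 0 < a) (hκ : 1 / 2 ≤ κ) : κ ^ (-a) ≤ 2 ^ a := by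
  have h1 : κ ^ (-a) ≤ (1 / 2 : ℝ) ^ (-a) :=
    Real.rpow_le_rpow_of_nonpos (by norm_num) hκ (by linarith)
  have h2 : (1 / 2 : ℝ) ^ (-a) = 2 ^ a := by
    rw [one_div, Real.inv_rpow two_pos.le, Real.rpow_neg two_pos.le, inv_inv]
  linarith

theorem dec_RD2 {k N : ℕ} (hk : 1 ≤ k) (hN : ((k : ℝ) + 2) / 2 ≤ N) (Cm : ℕ → ℝ≥0) :
    ∃ K : ℝ, 0 < K ∧ ∀ (G : V (k + 1) × ℝ → ℝ), RD2 k Cm G → ∀ κ : ℝ, 1 / 2 ≤ κ → κ ≤ 1 →
      (∀ r : ℝ, 0 < r →
        |∫ z, Real.cos (r * (κ * z.1 0 + z.2)) * G z| ≤ K * r ^ (-(((k : ℝ) + 2) / 2))) ∧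
      ∀ r : ℝ, 0 ≤ r → ∀ h : ℝ, 0 ≤ h → h ≤ 1 →
        |dif N (fun i => ∫ z, Real.cos (Real.exp (i * h) * r * (κ * z.1 0 + z.2)) * G z)| ≤
          K * h ^ N * bet (((k : ℝ) + 2) / 2) N r := by
  obtain ⟨C, hC, hmom⟩ := mix2_weight (N := N) hk Cm
  obtain ⟨A, D, hA, hD0, hDd, hDb⟩ := ph_deriv k N
  obtain ⟨ha1, ha2⟩ := d2_a1 hk
  obtain ⟨a, haeq⟩ : ∃ a : ℝ, a = ((k : ℝ) + 2) / 2 := ⟨_, rfl⟩
  rw [← haeq] at ha1 ha2 hN hmom hDb ⊢
  have ha : 0 < a := by linarith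
  have hN1 : 1 ≤ N := by
    have h : (1 : ℝ) < N := by linarith
    exact_mod_cast h.le
  obtain ⟨K0, hK0, hdif⟩ := dif_bound2 ha hN1 hN A
  have h2a : (0 : ℝ) < 2 ^ a := Real.rpow_pos_of_pos two_pos _
  have h2a1 : (1 : ℝ) ≤ 2 ^ a := Real.one_le_rpow one_le_two ha.le
  refine ⟨A * 2 ^ a * C + K0 * 2 ^ a * C, by positivity, ?_⟩
  intro G hG κ hκ hκ1
  have hκ0 : 0 < κ := by linarith
  obtain ⟨τ, hτ⟩ := exists_mix2 hk hG
  have hm1 := hmom G τ hG hτ
  have := hτ.prob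
  have hpos := d2_pos hτ
  have hcont : Continuous (phk k) := by
    rw [← hD0]
    exact continuous_iff_continuousAt.2 fun x => (hDd 0 x).continuousAt
  have hphm : Measurable (phk k) := hcont.measurable
  have hbd : ∀ x, 0 ≤ x → |phk k x| ≤ A * (1 + x) ^ (-a) := by
    intro x hx
    have := hDb 0 (Nat.zero_le _) x hx
    rwa [hD0] at this
  set W : ℝ × ℝ → ℝ := fun z => (1 + z.1 ^ (-a)) * (1 + |z.1|) ^ N * (1 + |z.2|) ^ N with hW
  have hWm : Measurable W := by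
    rw [hW]
    fun_prop
  have hW0 : ∀ᵐ z ∂τ, 0 ≤ W z := hpos.mono fun z hz => by
    have := Real.rpow_nonneg hz.le (-a)
    simp only [hW]
    positivity
  obtain ⟨hi1, hI1⟩ := d2_int (τ := τ) (f := W) hC hWm hW0 hm1
  have hWge : ∀ z : ℝ × ℝ, 0 < z.1 → z.1 ^ (-a) ≤ W z := by
    intro z hz
    have h0 : 0 < z.1 ^ (-a) := Real.rpow_pos_of_pos hz (-a)
    have hb1 : (1 : ℝ) ≤ (1 + |z.1|) ^ N := one_le_pow₀ (by have := abs_nonneg z.1; linarith)
    have hc1 : (1 : ℝ) ≤ (1 + |z.2|) ^ N := one_le_pow₀ (by have := abs_nonneg z.2; linarith)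
    simp only [hW]
    have h1 : (1 : ℝ) ≤ (1 + |z.1|) ^ N * (1 + |z.2|) ^ N :=
      one_le_mul_of_one_le_of_one_le hb1 hc1
    rw [mul_assoc]
    nlinarith
  have hint : ∀ c : ℝ, 0 ≤ c →
      Integrable (fun z : ℝ × ℝ => phk k (κ * z.1 * c) * Real.cos (z.2 * c)) τ := by
    intro c hc
    refine Integrable.of_bound (Measurable.aestronglyMeasurable ?_) A ?_
    · exact (hphm.comp (by fun_prop)).mul (by fun_prop)
    · filter_upwards [hpos] with z hz
      have hx : 0 ≤ κ * z.1 * c := by positivity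
      rw [norm_mul, Real.norm_eq_abs, Real.norm_eq_abs]
      have h1 : (1 + κ * z.1 * c) ^ (-a) ≤ 1 :=
        Real.rpow_le_one_of_one_le_of_nonpos (by linarith) (by linarith)
      have h2 : |phk k (κ * z.1 * c)| ≤ A := (hbd _ hx).trans (by nlinarith)
      have h3 := Real.abs_cos_le_one (z.2 * c)
      calc |phk k (κ * z.1 * c)| * |Real.cos (z.2 * c)| ≤ A * 1 :=
            mul_le_mul h2 h3 (abs_nonneg _) hA.le
        _ = A := mul_one A
  have hκa := d2_kap ha hκ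
  refine ⟨?_, ?_⟩
  · intro r hr
    rw [mix2_cos hG hτ κ r]
    have hr0 : 0 < r ^ (-a) := Real.rpow_pos_of_pos hr _
    have h1 : ‖∫ z, phk k (κ * z.1 * r) * Real.cos (z.2 * r) ∂τ‖ ≤
        ∫ z, A * 2 ^ a * r ^ (-a) * W z ∂τ := by
      refine norm_integral_le_of_norm_le (hi1.const_mul _) ?_
      filter_upwards [hpos] with z hz
      have hx : 0 < κ * z.1 * r := by positivity
      rw [norm_mul, Real.norm_eq_abs, Real.norm_eq_abs]
      have h3 := Real.abs_cos_le_one (z.2 * r)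
      have h4 : |phk k (κ * z.1 * r)| ≤ A * (κ * z.1 * r) ^ (-a) := by
        refine (hbd _ hx.le).trans (mul_le_mul_of_nonneg_left ?_ hA.le)
        exact Real.rpow_le_rpow_of_nonpos hx (by linarith) (by linarith)
      have h5 : (κ * z.1 * r) ^ (-a) = κ ^ (-a) * z.1 ^ (-a) * r ^ (-a) := by
        rw [Real.mul_rpow (by positivity) hr.le, Real.mul_rpow hκ0.le hz.le]
      have h6 : 0 < z.1 ^ (-a) := Real.rpow_pos_of_pos hz _
      calc |phk k (κ * z.1 * r)| * |Real.cos (z.2 * r)| ≤ |phk k (κ * z.1 * r)| * 1 :=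
            mul_le_mul_of_nonneg_left h3 (abs_nonneg _)
        _ ≤ A * (κ * z.1 * r) ^ (-a) := by rw [mul_one]; exact h4
        _ = A * (κ ^ (-a) * z.1 ^ (-a)) * r ^ (-a) := by rw [h5]; ring
        _ ≤ A * (2 ^ a * W z) * r ^ (-a) := by
            refine mul_le_mul_of_nonneg_right ?_ hr0.le
            refine mul_le_mul_of_nonneg_left ?_ hA.le
            exact mul_le_mul hκa (hWge z hz) h6.le h2a.le
        _ = A * 2 ^ a * r ^ (-a) * W z := by ring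
    rw [Real.norm_eq_abs, integral_const_mul] at h1
    refine h1.trans ?_
    calc A * 2 ^ a * r ^ (-a) * ∫ z, W z ∂τ ≤ A * 2 ^ a * r ^ (-a) * C :=
          mul_le_mul_of_nonneg_left hI1 (by positivity)
      _ = A * 2 ^ a * C * r ^ (-a) := by ring
      _ ≤ (A * 2 ^ a * C + K0 * 2 ^ a * C) * r ^ (-a) := by
          refine mul_le_mul_of_nonneg_right ?_ hr0.le
          have : 0 < K0 * 2 ^ a * C := by positivity
          linarith
  · intro r hr h hh hh1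
    have heq : dif N (fun i => ∫ z, Real.cos (Real.exp (i * h) * r * (κ * z.1 0 + z.2)) * G z) =
        ∫ z, dif N (fun i => phk k (κ * z.1 * (Real.exp (i * h) * r)) *
          Real.cos (z.2 * (Real.exp (i * h) * r))) ∂τ := by
      unfold dif
      rw [integral_finsetSum]
      · refine Finset.sum_congr rfl fun i _ => ?_
        rw [integral_const_mul]
        congr 1
        exact mix2_cos hG hτ κ (Real.exp (i * h) * r)
      · intro i _
        exact Integrable.const_mul (hint (Real.exp (i * h) * r) (by positivity)) _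
    rw [heq]
    have hb0 : 0 ≤ bet a N r := by
      unfold bet
      split_ifs
      · exact hr
      · positivity
    have h1 : ‖∫ z, dif N (fun i => phk k (κ * z.1 * (Real.exp (i * h) * r)) *
          Real.cos (z.2 * (Real.exp (i * h) * r))) ∂τ‖ ≤
        ∫ z, K0 * h ^ N * bet a N r * 2 ^ a * W z ∂τ := by
      refine norm_integral_le_of_norm_le (hi1.const_mul _) ?_
      filter_upwards [hpos] with z hz
      rw [Real.norm_eq_abs]
      have hβ : 0 < κ * z.1 := by positivity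
      refine (hdif (phk k) D hD0 hDd hDb (κ * z.1) hβ z.2 r hr h hh hh1).trans ?_
      have h6 : 0 < z.1 ^ (-a) := Real.rpow_pos_of_pos hz _
      have h7 : 1 + (κ * z.1) ^ (-a) ≤ 2 ^ a * (1 + z.1 ^ (-a)) := by
        rw [Real.mul_rpow hκ0.le hz.le]
        have := mul_le_mul_of_nonneg_right hκa h6.le
        linarith
      have h8 : (1 + κ * z.1) ^ N ≤ (1 + |z.1|) ^ N := by
        refine pow_le_pow_left₀ (by positivity) ?_ N
        rw [abs_of_pos hz]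
        nlinarith
      have h9 : (1 + (κ * z.1) ^ (-a)) * (1 + κ * z.1) ^ N * (1 + |z.2|) ^ N ≤ 2 ^ a * W z := by
        calc (1 + (κ * z.1) ^ (-a)) * (1 + κ * z.1) ^ N * (1 + |z.2|) ^ N
            ≤ (2 ^ a * (1 + z.1 ^ (-a))) * (1 + |z.1|) ^ N * (1 + |z.2|) ^ N := by
              refine mul_le_mul_of_nonneg_right ?_ (by positivity)
              exact mul_le_mul h7 h8 (by positivity) (by positivity)
          _ = 2 ^ a * W z := by simp only [hW]; ring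
      calc K0 * h ^ N * bet a N r *
            ((1 + (κ * z.1) ^ (-a)) * (1 + κ * z.1) ^ N * (1 + |z.2|) ^ N)
          ≤ K0 * h ^ N * bet a N r * (2 ^ a * W z) :=
            mul_le_mul_of_nonneg_left h9 (by positivity)
        _ = K0 * h ^ N * bet a N r * 2 ^ a * W z := by ring
    rw [Real.norm_eq_abs, integral_const_mul] at h1
    refine h1.trans ?_
    calc K0 * h ^ N * bet a N r * 2 ^ a * ∫ z, W z ∂τ ≤ K0 * h ^ N * bet a N r * 2 ^ a * C :=
          mul_le_mul_of_nonneg_left hI1 (by positivity)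
      _ = (K0 * 2 ^ a * C) * (h ^ N * bet a N r) := by ring
      _ ≤ (A * 2 ^ a * C + K0 * 2 ^ a * C) * (h ^ N * bet a N r) := by
          refine mul_le_mul_of_nonneg_right ?_ (by positivity)
          have : 0 < A * 2 ^ a * C := by positivity
          linarith
      _ = (A * 2 ^ a * C + K0 * 2 ^ a * C) * h ^ N * bet a N r := by ring

end Pool.Agent.CB
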