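import Pool.Agent.CB.Defs

/-!
# CB-DiffD: differences in the logarithmic variable

Let `F s = φ (exp s)`. By induction on `N`, `F` has the derivatives
`F_N (s) = ∑_{j=0}^N c N j * exp (j s) * D j (exp s)` with natural numbers `c N j` (`c 0 0 = 1`,
`c (N+1) j = j * c N j + c N (j-1)`), `c N 0 = 0` for `N ≥ 1`. Hence for `N ≥ 1`, `u = exp s`:
`|F_N (s)| ≤ A * (∑ c N j) * u` for `u ≤ 1`, and `≤ A * (∑ c N j) * u^N (1+u)^(-a) ≤ ... * u^(N-a)` for `u ≥ 1`.
The `N`-th difference: `dif (N+1) (fun i => F (s + i h)) = dif N (fun i => F (s + i h) - F (s + (i+1) h))`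
(Pascal), so by induction (mean value theorem) `|dif N (fun i => F (s + i h))| ≤ h^N sup_{[s, s+N h]} |F_N|`.
With `s' ∈ [s, s + N]`: `u' ≤ exp N * u`; if `u ≤ 1` then `|F_N (s')| ≤ K u` (if `u' ≤ 1` clear, if `1 < u'`
then `u'^(N-a) ≤ exp (N^2)` and `u ≥ exp (-N)`); if `u > 1` then `≤ K u^(N-a)` because `a ≤ N`. The case `x = 0`:
all terms are equal to `φ 0` and the alternating sum of binomials vanishes (`N ≥ 1`).
-/

set_option autoImplicit false

open MeasureTheory Set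
open scoped ENNReal NNReal

namespace Pool.Agent.CB

/-- The operator `u d/du` on sequences of derivatives. -/
private noncomputable def dth (D : ℕ → ℝ → ℝ) : ℕ → ℝ → ℝ := fun j u => u * D (j + 1) u + j * D j u

private theorem dth_der {D : ℕ → ℝ → ℝ} (h : ∀ j x, HasDerivAt (D j) (D (j + 1) x) x) :
    ∀ j x, HasDerivAt (dth D j) (dth D (j + 1) x) x := by
  intro j x
  have h1 := ((hasDerivAt_id x).mul (h (j + 1) x)).add ((h j x).const_mul (j : ℝ))
  have e : dth D (j + 1) x = 1 * D (j + 1) x + id x * D (j + 1 + 1) x + (j : ℝ) * D (j + 1) x := by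
    simp only [dth, id]
    push_cast
    ring
  rw [e]
  exact h1

private theorem dth_iter_der {D : ℕ → ℝ → ℝ} (h : ∀ j x, HasDerivAt (D j) (D (j + 1) x) x) (k : ℕ) :
    ∀ j x, HasDerivAt ((dth^[k] D) j) ((dth^[k] D) (j + 1) x) x := by
  induction k with
  | zero => exact h
  | succ k ih =>
    rw [Function.iterate_succ_apply']
    exact dth_der ih

private theorem dth_bound {D : ℕ → ℝ → ℝ} {a A : ℝ} {N : ℕ} (hA : 0 ≤ A)
    (h : ∀ j, j ≤ N → ∀ x, 0 ≤ x → |D j x| ≤ A * (1 + x) ^ (-a)) (k : ℕ) :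
    ∀ j, j + k ≤ N → ∀ u, 0 ≤ u →
      |(dth^[k] D) j u| ≤ A * ((N : ℝ) + 1) ^ k * (1 + u) ^ ((k : ℝ) - a) := by
  induction k with
  | zero =>
    intro j hj u hu
    have := h j (by omega) u hu
    simpa using this
  | succ k ih =>
    intro j hj u hu
    rw [Function.iterate_succ_apply']
    have h1 := ih (j + 1) (by omega) u hu
    have h2 := ih j (by omega) u hu
    have hP : 0 < (1 + u) ^ ((k : ℝ) - a) := Real.rpow_pos_of_pos (by linarith) _
    have e : (1 + u) ^ (((k + 1 : ℕ) : ℝ) - a) = (1 + u) * (1 + u) ^ ((k : ℝ) - a) := by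
      have : (((k + 1 : ℕ) : ℝ) - a) = 1 + ((k : ℝ) - a) := by push_cast; ring
      rw [this, Real.rpow_add (by linarith), Real.rpow_one]
    rw [e]
    have hj' : (j : ℝ) ≤ N := by exact_mod_cast (by omega : j ≤ N)
    have hj0 : (0 : ℝ) ≤ j := Nat.cast_nonneg j
    have hc : 0 ≤ A * ((N : ℝ) + 1) ^ k * (1 + u) ^ ((k : ℝ) - a) := by positivity
    calc |dth (dth^[k] D) j u| ≤ u * |(dth^[k] D) (j + 1) u| + j * |(dth^[k] D) j u| := by
          unfold dth
          refine (abs_add_le _ _).trans ?_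
          rw [abs_mul, abs_mul, abs_of_nonneg hu, abs_of_nonneg hj0]
      _ ≤ u * (A * ((N : ℝ) + 1) ^ k * (1 + u) ^ ((k : ℝ) - a)) +
          j * (A * ((N : ℝ) + 1) ^ k * (1 + u) ^ ((k : ℝ) - a)) := by gcongr
      _ = (u + j) * (A * ((N : ℝ) + 1) ^ k * (1 + u) ^ ((k : ℝ) - a)) := by ring
      _ ≤ (((N : ℝ) + 1) * (1 + u)) * (A * ((N : ℝ) + 1) ^ k * (1 + u) ^ ((k : ℝ) - a)) := by
          refine mul_le_mul_of_nonneg_right ?_ hc
          nlinarith [mul_nonneg (Nat.cast_nonneg (α := ℝ) N) hu]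
      _ = A * ((N : ℝ) + 1) ^ (k + 1) * ((1 + u) * (1 + u) ^ ((k : ℝ) - a)) := by
          rw [pow_succ]; ring

private theorem diff_le_der (N : ℕ) : ∀ (G : ℕ → ℝ → ℝ), (∀ j s, HasDerivAt (G j) (G (j + 1) s) s) →
    ∀ (h M s₀ : ℝ), 0 ≤ h → (∀ s, s₀ ≤ s → s ≤ s₀ + N * h → |G N s| ≤ M) →
      |(fwdDiff h)^[N] (G 0) s₀| ≤ h ^ N * M := by
  induction N with
  | zero =>
    intro G _ h M s₀ _ hM
    simpa using hM s₀ le_rfl (by simp)
  | succ N ih =>
    intro G hG h M s₀ hh hM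
    rw [Function.iterate_succ_apply]
    have key := ih (fun j => fwdDiff h (G j)) ?_ h (h * M) s₀ hh ?_
    · calc _ ≤ h ^ N * (h * M) := key
        _ = h ^ (N + 1) * M := by rw [pow_succ]; ring
    · intro j s
      have h1 : HasDerivAt (fun y => G j (y + h)) (G (j + 1) (s + h)) s :=
        (hG j (s + h)).comp_add_const s h
      exact h1.sub (hG j s)
    · intro s hs hs'
      have hconv := (convex_Icc s (s + h)).norm_image_sub_le_of_norm_hasDerivWithin_le
        (f := G N) (f' := G (N + 1)) (C := M) (x := s) (y := s + h)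
        (fun x _ => (hG N x).hasDerivWithinAt)
        (fun x hx => by
          rw [Real.norm_eq_abs]
          refine hM x (hs.trans hx.1) (hx.2.trans ?_)
          push_cast
          linarith)
        ⟨le_rfl, by linarith⟩ ⟨by linarith, le_rfl⟩
      rw [Real.norm_eq_abs, Real.norm_eq_abs, add_sub_cancel_left, abs_of_nonneg hh] at hconv
      calc |fwdDiff h (G N) s| = |G N (s + h) - G N s| := rfl
        _ ≤ M * h := hconv
        _ = h * M := mul_comm _ _

private theorem dif_eq_fwd (N : ℕ) (F : ℝ → ℝ) (h : ℝ) :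
    |dif N (fun i => F (i * h))| = |(fwdDiff h)^[N] F 0| := by
  have e : dif N (fun i => F (i * h)) = (-1) ^ N * (fwdDiff h)^[N] F 0 := by
    rw [fwdDiff_iter_eq_sum_shift, Finset.mul_sum]
    unfold dif
    refine Finset.sum_congr rfl fun i hi => ?_
    have hi' : i ≤ N := Nat.lt_succ_iff.1 (Finset.mem_range.1 hi)
    have e1 : ((-1 : ℝ)) ^ N = (-1) ^ (N - i) * (-1) ^ i := by
      rw [← pow_add, Nat.sub_add_cancel hi']
    have e2 : ((-1 : ℝ)) ^ (N - i) * (-1) ^ (N - i) = 1 := by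
      rw [← mul_pow]; norm_num
    simp only [zero_add, nsmul_eq_mul, zsmul_eq_mul, Int.cast_mul, Int.cast_pow, Int.cast_neg,
      Int.cast_one, Int.cast_natCast]
    rw [e1]
    linear_combination (-((-1 : ℝ) ^ i * (N.choose i : ℝ) * F (i * h))) * e2
  rw [e, abs_mul, abs_pow, abs_neg, abs_one, one_pow, one_mul]

theorem dif_bound {a : ℝ} {N : ℕ} (ha : 0 < a) (hN : 1 ≤ N) (haN : a ≤ N) (A : ℝ) :
    ∃ K : ℝ, 0 < K ∧ ∀ (φ : ℝ → ℝ) (D : ℕ → ℝ → ℝ), D 0 = φ →
      (∀ j x, HasDerivAt (D j) (D (j + 1) x) x) →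
      (∀ j, j ≤ N → ∀ x, 0 ≤ x → |D j x| ≤ A * (1 + x) ^ (-a)) →
      ∀ x, 0 ≤ x → ∀ h : ℝ, 0 ≤ h → h ≤ 1 →
        |dif N (fun i => φ (Real.exp (i * h) * x))| ≤ K * h ^ N * bet a N x := by
  obtain ⟨n, rfl⟩ : ∃ n, N = n + 1 := ⟨N - 1, by omega⟩
  set E : ℝ := Real.exp ((n + 1 : ℕ) : ℝ) with hE
  have hE1 : 1 ≤ E := Real.one_le_exp (by positivity)
  set L : ℝ := |A| * (((n + 1 : ℕ) : ℝ) + 1) ^ n with hL
  have hL0 : 0 ≤ L := by positivity
  refine ⟨L * E * (1 + E) ^ (n + 1) + 1, by positivity, ?_⟩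
  intro φ D hD0 hD hb x hx h hh hh1
  have hA : 0 ≤ A := by
    have h1 := (abs_nonneg _).trans (hb 0 (by omega) 0 le_rfl)
    simpa using h1
  have hAA : |A| = A := abs_of_nonneg hA
  -- the chain
  let G : ℕ → ℝ → ℝ := fun k s => (dth^[k] D) 0 (Real.exp s * x)
  have hG : ∀ k s, HasDerivAt (G k) (G (k + 1) s) s := by
    intro k s
    have h1 : HasDerivAt (fun s => Real.exp s * x) (Real.exp s * x) s :=
      (Real.hasDerivAt_exp s).mul_const x
    have h2 := (dth_iter_der hD k 0 (Real.exp s * x)).comp s h1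
    have e : G (k + 1) s = (dth^[k] D) (0 + 1) (Real.exp s * x) * (Real.exp s * x) := by
      simp only [G]
      rw [Function.iterate_succ_apply']
      simp only [dth]
      push_cast
      ring
    rw [e]
    exact h2
  -- the bound
  have hGb : ∀ s, 0 ≤ s → s ≤ 0 + ((n + 1 : ℕ) : ℝ) * h →
      |G (n + 1) s| ≤ (L * E * (1 + E) ^ (n + 1) + 1) * bet a (n + 1) x := by
    intro s hs hs'
    have hu0 : 0 ≤ Real.exp s * x := by positivity
    set u : ℝ := Real.exp s * x with hu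
    have hsE : Real.exp s ≤ E := by
      rw [hE]
      refine Real.exp_le_exp.2 (hs'.trans ?_)
      have : (0 : ℝ) ≤ ((n + 1 : ℕ) : ℝ) := by positivity
      nlinarith
    have huE : u ≤ E * x := mul_le_mul_of_nonneg_right hsE hx
    have h1 : |G (n + 1) s| ≤ u * (L * (1 + u) ^ ((n : ℝ) - a)) := by
      have h2 := dth_bound hA hb n (0 + 1) (by omega) u hu0
      have e : G (n + 1) s = u * (dth^[n] D) (0 + 1) u := by
        simp only [G]
        rw [Function.iterate_succ_apply']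
        simp only [dth]
        push_cast
        ring
      rw [e, abs_mul, abs_of_nonneg hu0, hL, hAA]
      exact mul_le_mul_of_nonneg_left h2 hu0
    have hbet : 0 ≤ bet a (n + 1) x := by
      unfold bet
      split_ifs
      · exact hx
      · positivity
    unfold bet at hbet ⊢
    split_ifs at hbet ⊢ with hx1
    · have h3 : (1 + u) ^ ((n : ℝ) - a) ≤ (1 + E) ^ (n + 1) := by
        calc (1 + u) ^ ((n : ℝ) - a) ≤ (1 + u) ^ (((n + 1 : ℕ) : ℝ)) := by
              refine Real.rpow_le_rpow_of_exponent_le (by linarith) ?_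
              push_cast; linarith
          _ = (1 + u) ^ (n + 1) := Real.rpow_natCast _ _
          _ ≤ (1 + E) ^ (n + 1) := by
              have : u ≤ E := huE.trans (by nlinarith)
              gcongr
      calc |G (n + 1) s| ≤ u * (L * (1 + u) ^ ((n : ℝ) - a)) := h1
        _ ≤ (E * x) * (L * (1 + E) ^ (n + 1)) := by gcongr
        _ = L * E * (1 + E) ^ (n + 1) * x := by ring
        _ ≤ (L * E * (1 + E) ^ (n + 1) + 1) * x := by nlinarith
    · push Not at hx1
      have hna : (0 : ℝ) ≤ ((n + 1 : ℕ) : ℝ) - a := by linarith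
      have h3 : u * (1 + u) ^ ((n : ℝ) - a) ≤ (1 + E) ^ (n + 1) * x ^ (((n + 1 : ℕ) : ℝ) - a) := by
        calc u * (1 + u) ^ ((n : ℝ) - a) ≤ (1 + u) * (1 + u) ^ ((n : ℝ) - a) := by gcongr; linarith
          _ = (1 + u) ^ (((n + 1 : ℕ) : ℝ) - a) := by
              have : (((n + 1 : ℕ) : ℝ) - a) = 1 + ((n : ℝ) - a) := by push_cast; ring
              rw [this, Real.rpow_add (by linarith), Real.rpow_one]
          _ ≤ ((1 + E) * x) ^ (((n + 1 : ℕ) : ℝ) - a) := by
              refine Real.rpow_le_rpow (by linarith) ?_ hna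
              nlinarith
          _ = (1 + E) ^ (((n + 1 : ℕ) : ℝ) - a) * x ^ (((n + 1 : ℕ) : ℝ) - a) := by
              rw [Real.mul_rpow (by linarith) hx]
          _ ≤ (1 + E) ^ (((n + 1 : ℕ) : ℝ)) * x ^ (((n + 1 : ℕ) : ℝ) - a) := by
              refine mul_le_mul_of_nonneg_right ?_ (by positivity)
              refine Real.rpow_le_rpow_of_exponent_le (by linarith) (by linarith)
          _ = (1 + E) ^ (n + 1) * x ^ (((n + 1 : ℕ) : ℝ) - a) := by rw [Real.rpow_natCast]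
      have hP : 0 ≤ x ^ (((n + 1 : ℕ) : ℝ) - a) := by positivity
      calc |G (n + 1) s| ≤ u * (L * (1 + u) ^ ((n : ℝ) - a)) := h1
        _ = L * (u * (1 + u) ^ ((n : ℝ) - a)) := by ring
        _ ≤ L * ((1 + E) ^ (n + 1) * x ^ (((n + 1 : ℕ) : ℝ) - a)) := by gcongr
        _ = L * 1 * (1 + E) ^ (n + 1) * x ^ (((n + 1 : ℕ) : ℝ) - a) := by ring
        _ ≤ L * E * (1 + E) ^ (n + 1) * x ^ (((n + 1 : ℕ) : ℝ) - a) := by gcongr
        _ ≤ (L * E * (1 + E) ^ (n + 1) + 1) * x ^ (((n + 1 : ℕ) : ℝ) - a) := by nlinarith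
  have hfin := diff_le_der (n + 1) G hG h _ 0 hh hGb
  have e0 : dif (n + 1) (fun i => φ (Real.exp (i * h) * x)) =
      dif (n + 1) (fun i => G 0 (i * h)) := by
    simp only [G, Function.iterate_zero, id, hD0]
  rw [e0, dif_eq_fwd]
  calc _ ≤ h ^ (n + 1) * ((L * E * (1 + E) ^ (n + 1) + 1) * bet a (n + 1) x) := hfin
    _ = (L * E * (1 + E) ^ (n + 1) + 1) * h ^ (n + 1) * bet a (n + 1) x := by ring

end Pool.Agent.CB
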