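import Pool.Agent.CB.MixB
import Pool.Agent.CB.MixM
import Pool.Agent.CB.DiffD
import Pool.Agent.CB.PhD

/-!
# CB-DecA: decay of the Fourier transform of radial log-concave densities

`a = (k+2)/2`, `k ≥ 1` (so `0 < a < k + 1`), `a ≤ N ≤ a + 1`.
`m r = ∫ cos (r ⟨e, v⟩) G v dv = ∫ phk k (r b) dτ(b)` (`exists_mix`, `Mix.integral_cos`). By `ph_deriv` (`j = 0`)
`|phk k x| ≤ A (1+x)^(-a) ≤ A x^(-a)` for `x > 0`, so `|m r| ≤ A r^(-a) ∫ b^(-a) dτ` (`exists_mixM`). The difference is
the integral of the differences (`dif` is a finite sum, `phk` is bounded and continuous), `dif_bound`: at most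
`K h^N ∫ bet a N (r b) dτ(b)`, and for `b > 0`: `bet a N (r b) ≤ r b` for `r ≤ 1` (for `r b > 1` because
`N - a ≤ 1`), `bet a N (r b) ≤ r^(N-a) (2 + b)` for `r > 1`; so it is `≤ K' h^N bet a N r`.
-/

set_option autoImplicit false

open MeasureTheory Set
open scoped ENNReal NNReal

namespace Pool.Agent.CB

private theorem bet_mul_le {a : ℝ} {N : ℕ} (haN : a ≤ N) (hNa : (N : ℝ) ≤ a + 1) {r b : ℝ}
    (hr : 0 ≤ r) (hb : 0 < b) : bet a N (r * b) ≤ bet a N r * (2 + b) := by
  unfold bet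
  have h0 : 0 ≤ (N : ℝ) - a := by linarith
  have h1 : (N : ℝ) - a ≤ 1 := by linarith
  by_cases hr1 : r ≤ 1
  · rw [if_pos hr1]
    by_cases hrb : r * b ≤ 1
    · rw [if_pos hrb]; nlinarith
    · rw [if_neg hrb]
      push Not at hrb
      calc (r * b) ^ ((N : ℝ) - a) ≤ (r * b) ^ (1 : ℝ) :=
            Real.rpow_le_rpow_of_exponent_le hrb.le h1
        _ = r * b := Real.rpow_one _
        _ ≤ r * (2 + b) := by nlinarith
  · push Not at hr1
    rw [if_neg (not_le.2 hr1)]
    have hr' : 1 ≤ r ^ ((N : ℝ) - a) := Real.one_le_rpow hr1.le h0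
    by_cases hrb : r * b ≤ 1
    · rw [if_pos hrb]; nlinarith
    · rw [if_neg hrb, Real.mul_rpow hr hb.le]
      have hb2 : b ^ ((N : ℝ) - a) ≤ 2 + b := by
        by_cases hb1 : b ≤ 1
        · have := Real.rpow_le_one hb.le hb1 h0
          linarith
        · push Not at hb1
          have := Real.rpow_le_rpow_of_exponent_le hb1.le h1
          rw [Real.rpow_one] at this
          linarith
      exact mul_le_mul_of_nonneg_left hb2 (by positivity)

private theorem int_of_lint {τ : Measure ℝ} {f : ℝ → ℝ} {C : ℝ} (hC : 0 < C)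
    (hf : Measurable f) (h0 : ∀ᵐ b ∂τ, 0 ≤ f b)
    (hm : ∫⁻ b, ENNReal.ofReal (f b) ∂τ ≤ ENNReal.ofReal C) :
    Integrable f τ ∧ ∫ b, f b ∂τ ≤ C := by
  refine ⟨⟨hf.aestronglyMeasurable, ?_⟩, ?_⟩
  · rw [hasFiniteIntegral_iff_ofReal h0]
    exact lt_of_le_of_lt hm ENNReal.ofReal_lt_top
  · rw [integral_eq_lintegral_of_nonneg_ae h0 hf.aestronglyMeasurable]
    exact ENNReal.toReal_le_of_le_ofReal hC.le hm

theorem dec_RD {k N : ℕ} (hk : 1 ≤ k) (hN : ((k : ℝ) + 2) / 2 ≤ N)
    (hN' : (N : ℝ) ≤ ((k : ℝ) + 2) / 2 + 1) :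
    ∃ K : ℝ, 0 < K ∧ ∀ (G : V (k + 1) → ℝ), RD (k + 1) G → ∀ e : V (k + 1), ‖e‖ = 1 →
      (∀ r : ℝ, 0 < r →
        |∫ v, Real.cos (r * inner ℝ e v) * G v| ≤ K * r ^ (-(((k : ℝ) + 2) / 2))) ∧
      ∀ r : ℝ, 0 ≤ r → ∀ h : ℝ, 0 ≤ h → h ≤ 1 →
        |dif N (fun i => ∫ v, Real.cos (Real.exp (i * h) * r * inner ℝ e v) * G v)| ≤
          K * h ^ N * bet (((k : ℝ) + 2) / 2) N r := by
  have hk' : (1 : ℝ) ≤ k := by exact_mod_cast hk
  obtain ⟨a, haeq⟩ : ∃ a : ℝ, a = ((k : ℝ) + 2) / 2 := ⟨_, rfl⟩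
  rw [← haeq] at hN hN' ⊢
  have ha1 : 1 < a := by rw [haeq]; linarith
  have ha : 0 < a := by linarith
  have has : a < ((k + 1 : ℕ) : ℝ) := by rw [haeq]; push_cast; linarith
  obtain ⟨C, hC, hmom⟩ := exists_mixM (s := k + 1) (by omega) ha has
  obtain ⟨A, D, hA, hD0, hDd, hDb⟩ := ph_deriv k N
  rw [← haeq] at hDb
  have hN1 : 1 ≤ N := by
    have h : (1 : ℝ) < N := by linarith
    exact_mod_cast h.le
  obtain ⟨K0, hK0, hdif⟩ := dif_bound ha hN1 hN A
  refine ⟨A * C + K0 * (2 + C), by positivity, ?_⟩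
  intro G hG e he
  obtain ⟨τ, hτ⟩ := exists_mix (s := k + 1) (by omega) hG
  obtain ⟨hm1, hm2⟩ := hmom G τ hG hτ
  haveI := hτ.prob
  have hpos : ∀ᵐ b ∂τ, 0 < b := by
    have h := hτ.pos
    rw [ae_iff]
    have : {b : ℝ | ¬ 0 < b} = Iic 0 := by ext b; simp
    rw [this]; exact h
  have hcont : Continuous (phk k) := by
    rw [← hD0]
    exact continuous_iff_continuousAt.2 fun x => (hDd 0 x).continuousAt
  have hbd : ∀ x, 0 ≤ x → |phk k x| ≤ A * (1 + x) ^ (-a) := by
    intro x hx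
    have := hDb 0 (Nat.zero_le _) x hx
    rwa [hD0] at this
  obtain ⟨hi1, hI1⟩ := int_of_lint (τ := τ) (f := fun b => b ^ (-a)) hC
    (by fun_prop) (hpos.mono fun b hb => (Real.rpow_pos_of_pos hb _).le) hm1
  obtain ⟨hi2, hI2⟩ := int_of_lint (τ := τ) (f := fun b => b) hC
    (by fun_prop) (hpos.mono fun b hb => hb.le) hm2
  have hint : ∀ c : ℝ, 0 ≤ c → Integrable (fun b => phk k (c * b)) τ := by
    intro c hc
    refine Integrable.of_bound (by fun_prop) A ?_
    filter_upwards [hpos] with b hb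
    rw [Real.norm_eq_abs]
    refine (hbd (c * b) (by positivity)).trans ?_
    have h1 : (1 + c * b) ^ (-a) ≤ 1 :=
      Real.rpow_le_one_of_one_le_of_nonpos (by nlinarith [mul_nonneg hc hb.le]) (by linarith)
    nlinarith
  have hI10 : 0 ≤ ∫ b, b ^ (-a) ∂τ :=
    integral_nonneg_of_ae (hpos.mono fun b hb => (Real.rpow_pos_of_pos hb _).le)
  refine ⟨?_, ?_⟩
  · intro r hr
    rw [Mix.integral_cos hG hτ he r]
    have h1 : ‖∫ b, phk k (r * b) ∂τ‖ ≤ ∫ b, A * r ^ (-a) * b ^ (-a) ∂τ := by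
      refine norm_integral_le_of_norm_le (hi1.const_mul _) ?_
      filter_upwards [hpos] with b hb
      rw [Real.norm_eq_abs]
      have hrb : 0 < r * b := by positivity
      refine (hbd (r * b) hrb.le).trans ?_
      rw [mul_assoc, ← Real.mul_rpow hr.le hb.le]
      refine mul_le_mul_of_nonneg_left ?_ hA.le
      exact Real.rpow_le_rpow_of_nonpos hrb (by linarith) (by linarith)
    rw [Real.norm_eq_abs, integral_const_mul] at h1
    refine h1.trans ?_
    have hr0 : 0 < r ^ (-a) := Real.rpow_pos_of_pos hr _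
    calc A * r ^ (-a) * ∫ b, b ^ (-a) ∂τ ≤ A * r ^ (-a) * C := by gcongr
      _ = A * C * r ^ (-a) := by ring
      _ ≤ (A * C + K0 * (2 + C)) * r ^ (-a) := by
          refine mul_le_mul_of_nonneg_right ?_ hr0.le
          have : 0 < K0 * (2 + C) := by positivity
          linarith
  · intro r hr h hh hh1
    have heq : dif N (fun i => ∫ v, Real.cos (Real.exp (i * h) * r * inner ℝ e v) * G v) =
        ∫ b, dif N (fun i => phk k (Real.exp (i * h) * (r * b))) ∂τ := by
      unfold dif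
      rw [integral_finset_sum]
      · refine Finset.sum_congr rfl fun i _ => ?_
        rw [integral_const_mul]
        congr 1
        show ∫ v, Real.cos (Real.exp (i * h) * r * inner ℝ e v) * G v = _
        rw [Mix.integral_cos hG hτ he]
        simp only [mul_assoc]
      · intro i _
        refine Integrable.const_mul ?_ _
        have := hint (Real.exp (i * h) * r) (by positivity)
        simpa only [mul_assoc] using this
    rw [heq]
    have h1 : ‖∫ b, dif N (fun i => phk k (Real.exp (i * h) * (r * b))) ∂τ‖ ≤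
        ∫ b, K0 * h ^ N * bet a N r * (2 + b) ∂τ := by
      refine norm_integral_le_of_norm_le (((integrable_const _).add hi2).const_mul _) ?_
      filter_upwards [hpos] with b hb
      rw [Real.norm_eq_abs]
      refine (hdif (phk k) D hD0 hDd hDb (r * b) (by positivity) h hh hh1).trans ?_
      rw [mul_assoc (K0 * h ^ N)]
      exact mul_le_mul_of_nonneg_left (bet_mul_le hN hN' hr hb) (by positivity)
    rw [Real.norm_eq_abs, integral_const_mul, integral_add (integrable_const _) hi2,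
      integral_const] at h1
    rw [probReal_univ, one_smul] at h1
    refine h1.trans ?_
    have hb0 : 0 ≤ bet a N r := by
      unfold bet
      split_ifs
      · exact hr
      · positivity
    calc K0 * h ^ N * bet a N r * (2 + ∫ b, b ∂τ) ≤ K0 * h ^ N * bet a N r * (2 + C) := by
          gcongr
      _ = (K0 * (2 + C)) * (h ^ N * bet a N r) := by ring
      _ ≤ (A * C + K0 * (2 + C)) * (h ^ N * bet a N r) := by
          refine mul_le_mul_of_nonneg_right ?_ (by positivity)
          have : 0 < A * C := by positivity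
          linarith
      _ = (A * C + K0 * (2 + C)) * h ^ N * bet a N r := by ring

end Pool.Agent.CB
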