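import Mathlib
import Pool.Agent.MX.Basic

/-!
# Project CB (MP_84a211_an): definitions

Dimension-free maximal inequalities from decay of the Fourier transform. `V n` is Euclidean space.
All constants must be independent of the dimension `n`.
-/

set_option autoImplicit false

open MeasureTheory Set
open scoped ENNReal NNReal

namespace Pool.Agent.CB

/-- Euclidean space. -/
abbrev V (n : ℕ) : Type := EuclideanSpace ℝ (Fin n)

/-- Symmetric probability measures. -/
structure SymP {n : ℕ} (μ : Measure (V n)) : Prop where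
  prob : IsProbabilityMeasure μ
  symm : μ.map (fun y => -y) = μ

/-- The dilate of a measure. -/
noncomputable def dil {n : ℕ} (t : ℝ) (μ : Measure (V n)) : Measure (V n) :=
  μ.map (fun y => t • y)

/-- Smoothing in the logarithmic scale: the law of `exp (c u) • y`, `u` uniform on `[0,1]`. -/
noncomputable def blur {n : ℕ} (c : ℝ) (μ : Measure (V n)) : Measure (V n) :=
  (((volume : Measure ℝ).restrict (Icc 0 1)).prod μ).map (fun z => Real.exp (c * z.1) • z.2)

/-- Averages of real functions. -/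
noncomputable def cv {n : ℕ} (μ : Measure (V n)) (f : V n → ℝ) (x : V n) : ℝ :=
  ∫ y, f (x + y) ∂μ

/-- The (real) Fourier transform of a symmetric measure. -/
noncomputable def ft {n : ℕ} (μ : Measure (V n)) (ξ : V n) : ℝ :=
  ∫ y, Real.cos (inner ℝ ξ y) ∂μ

/-- Continuous bounded integrable functions. -/
structure Nice {n : ℕ} (f : V n → ℝ) : Prop where
  cont : Continuous f
  bdd : ∃ C, ∀ x, |f x| ≤ C
  int : Integrable f volume

/-- The `N`-th difference `∑ (-1)^i C(N,i) φ i`. -/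
noncomputable def dif (N : ℕ) (φ : ℕ → ℝ) : ℝ :=
  ∑ i ∈ Finset.range (N + 1), (-1 : ℝ) ^ i * (N.choose i : ℝ) * φ i

/-- The bound function for `N`-th differences. -/
noncomputable def bet (a : ℝ) (N : ℕ) (u : ℝ) : ℝ := if u ≤ 1 then u else u ^ ((N : ℝ) - a)

/-- Decay of order `a` of the Fourier transform, with `N` derivatives in the radial direction. -/
structure Dec {n : ℕ} (a : ℝ) (N : ℕ) (K : ℝ) (μ : Measure (V n)) : Prop where
  sym : SymP μ
  d0 : ∀ ξ, |ft μ ξ - 1| ≤ K * ‖ξ‖
  d1 : ∀ ξ, ξ ≠ 0 → |ft μ ξ| ≤ K * ‖ξ‖ ^ (-a)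
  d2 : ∀ ξ, ∀ h : ℝ, 0 ≤ h → h ≤ 1 →
    |dif N (fun i => ft μ (Real.exp (i * h) • ξ))| ≤ K * h ^ N * bet a N ‖ξ‖

/-- The standard Gaussian. -/
noncomputable def gam (n : ℕ) : Measure (V n) := ProbabilityTheory.stdGaussian (V n)

/-- The operator of `N`-th differences of `s ↦ average of f over the dilate exp s of μ`,
averaged over steps: `∑ (-1)^i C(N,i) ∫_0^1 (average of f over the dilate exp (s + i h u)) du`. -/
noncomputable def Ed {n : ℕ} (N : ℕ) (h : ℝ) (μ : Measure (V n)) (s : ℝ) (f : V n → ℝ)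
    (x : V n) : ℝ :=
  dif N (fun i => cv (dil (Real.exp s) (blur (i * h) μ)) f x)

/-- Its multiplier (at `s = 0`). -/
noncomputable def edm {n : ℕ} (N : ℕ) (h : ℝ) (μ : Measure (V n)) (ξ : V n) : ℝ :=
  dif N (fun i => ft (blur (i * h) μ) ξ)

/-- `N`-th difference operator on functions of one real variable, averaged over steps. -/
noncomputable def eD (N : ℕ) (h : ℝ) (F : ℝ → ℝ) (s : ℝ) : ℝ :=
  dif N (fun i => ∫ u in (0 : ℝ)..1, F (s + i * h * u))

/-- The maximal operator of `μ` over finitely many dilations within one octave is bounded. -/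
def LocBdd {n : ℕ} (p : ℝ) (D : ℝ≥0∞) (μ : Measure (V n)) : Prop :=
  ∀ (k : ℝ) (S : Finset ℝ), (∀ t ∈ S, Real.exp k ≤ t ∧ t ≤ Real.exp (k + 1)) →
    ∀ f : V n → ℝ≥0∞, Measurable f →
      ∫⁻ x, MX.mx μ S f x ^ p ≤ D ^ p * ∫⁻ x, f x ^ p

/-- Differences of Gaussian averages. -/
noncomputable def Qg {n : ℕ} (j : ℤ) (f : V n → ℝ) (x : V n) : ℝ :=
  cv (dil (Real.exp j) (gam n)) f x - cv (dil (Real.exp (j + 1)) (gam n)) f x

/-- Difference between the average over a dilate of `μ` and the Gaussian average. -/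
noncomputable def Nt {n : ℕ} (μ : Measure (V n)) (t : ℝ) (f : V n → ℝ) (x : V n) : ℝ :=
  cv (dil t μ) f x - cv (dil t (gam n)) f x

/-- The `j`-th piece of the maximal function over the finite set `S` of dilations. -/
noncomputable def Tj {n : ℕ} (μ : Measure (V n)) (S : Finset ℝ) (j : ℤ) (f : V n → ℝ)
    (x : V n) : ℝ≥0 :=
  S.sup fun t => ‖Nt μ t (Qg (⌊Real.log t⌋ + j) f) x‖₊

/-- The Fourier transform used for Plancherel (Mathlib normalisation `exp (2 π i)`). -/
noncomputable def fh {n : ℕ} (f : V n → ℝ) (ξ : V n) : ℂ :=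
  FourierTransformInv.fourierInv (fun x => (f x : ℂ)) ξ

/-- `g` is obtained from `f` by the (real) Fourier multiplier `τ`. -/
def IsMul {n : ℕ} (τ : V n → ℝ) (f g : V n → ℝ) : Prop :=
  ∀ ξ, fh g ξ = (τ ((2 * Real.pi) • ξ) : ℂ) * fh f ξ

end Pool.Agent.CB
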