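import Pool.Agent.CB.Sym

/-!
# CB-Eps: bounds for the multipliers of difference operators

Let `Dec a N K μ`, `0 ≤ a ≤ N`, `0 < h ≤ 1`, `0 ≤ s ≤ N + 1`, `ρ = ‖ξ‖`, `ρ' = exp s * ρ`.

Bound A: by `edm_eq` and `d2` with step `h u`: `|edm N h μ (exp s • ξ)| ≤ K h^N bet a N ρ'`.
Bound B: `|ft (blur c μ) ξ'| ≤ 1` and, for `c ≥ 0`, `ξ' ≠ 0`, `|ft (blur c μ) ξ'| ≤ K ‖ξ'‖^(-a)` (by `ft_blur`,
`exp (c u) ≥ 1`), so `|edm| ≤ 2^N` and `|edm| ≤ 2^N K ρ'^(-a)`.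

Case `ρ ≤ 1`: `bet a N ρ' ≤ exp ((N+1)^2) ρ` (if `ρ' ≤ 1` clear; if `ρ' > 1` then
`bet = ρ'^(N-a) ≤ exp ((N+1) N)` and `ρ ≥ exp (-(N+1))`). Case `ρ > 1`:
`bet a N ρ' ≤ exp ((N+1) N) ρ^(N-a)`, `ρ'^(-a) ≤ ρ^(-a)`.
With `C0 = Ceps N K` all constants are at most `C0`; now `|edm| = |edm|^κ |edm|^(1-κ)`.
-/

set_option autoImplicit false

open MeasureTheory Set
open scoped ENNReal NNReal

namespace Pool.Agent.CB

variable {n : ℕ}

/-- The constant. -/
noncomputable def Ceps (N : ℕ) (K : ℝ) : ℝ := 2 ^ N * (K + 1) * Real.exp (((N : ℝ) + 1) ^ 2)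

/-- The profile. -/
noncomputable def psi (a : ℝ) (N : ℕ) (κ : ℝ) (u : ℝ) : ℝ :=
  if u ≤ 1 then u ^ κ else u ^ ((N : ℝ) * κ - a)

private theorem ceps_pos {N : ℕ} {K : ℝ} (hK : 0 ≤ K) : 0 < Ceps N K := by
  unfold Ceps
  positivity

private theorem ceps_ge {N : ℕ} {K : ℝ} (hK : 0 ≤ K) :
    K * Real.exp (((N : ℝ) + 1) ^ 2) ≤ Ceps N K ∧ (2 : ℝ) ^ N ≤ Ceps N K ∧
      (2 : ℝ) ^ N * K ≤ Ceps N K ∧ K ≤ Ceps N K := by
  have h2 : (1 : ℝ) ≤ 2 ^ N := one_le_pow₀ (by norm_num)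
  have he : (1 : ℝ) ≤ Real.exp (((N : ℝ) + 1) ^ 2) := Real.one_le_exp (by positivity)
  unfold Ceps
  generalize (2 : ℝ) ^ N = A at *
  generalize Real.exp (((N : ℝ) + 1) ^ 2) = E at *
  have hAE : A ≤ A * E := by nlinarith
  have hE : E ≤ A * E := by nlinarith
  have h1 : 1 ≤ A * E := h2.trans hAE
  have hKE : 0 ≤ K * (A * E) := by positivity
  refine ⟨?_, ?_, ?_, ?_⟩
  · have := mul_le_mul_of_nonneg_left hE hK
    nlinarith
  · nlinarith
  · have := mul_le_mul_of_nonneg_left hAE hK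
    nlinarith
  · have := mul_le_mul_of_nonneg_left h1 hK
    nlinarith

private theorem abs_dif_le (N : ℕ) (φ : ℕ → ℝ) (C : ℝ) (h : ∀ i, |φ i| ≤ C) :
    |dif N φ| ≤ 2 ^ N * C := by
  unfold dif
  refine (Finset.abs_sum_le_sum_abs _ _).trans ?_
  have : (2 : ℝ) ^ N = ∑ i ∈ Finset.range (N + 1), (N.choose i : ℝ) := by
    exact_mod_cast (Nat.sum_range_choose N).symm
  rw [this, Finset.sum_mul]
  refine Finset.sum_le_sum fun i _ => ?_
  rw [abs_mul, abs_mul, abs_pow, abs_neg, abs_one, one_pow, one_mul, abs_of_nonneg (by positivity)]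
  exact mul_le_mul_of_nonneg_left (h i) (by positivity)

private theorem edm_A {μ : Measure (V n)} {a K : ℝ} {N : ℕ} (hK : 0 ≤ K)
    (hμ : Dec a N K μ) {h : ℝ} (h0 : 0 < h) (h1 : h ≤ 1) (ξ : V n) :
    |edm N h μ ξ| ≤ K * h ^ N * bet a N ‖ξ‖ := by
  haveI := hμ.sym.prob
  have hb : 0 ≤ bet a N ‖ξ‖ := by
    unfold bet
    split_ifs <;> positivity
  rw [edm_eq, ← Real.norm_eq_abs]
  have := intervalIntegral.norm_integral_le_of_norm_le_const (a := (0 : ℝ)) (b := 1)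
    (f := fun u => dif N (fun i => ft μ (Real.exp (i * (h * u)) • ξ)))
    (C := K * h ^ N * bet a N ‖ξ‖) ?_
  · simpa using this
  · intro u hu
    rw [Set.uIoc_of_le zero_le_one] at hu
    rw [Real.norm_eq_abs]
    have hu0 : 0 ≤ h * u := mul_nonneg h0.le hu.1.le
    have hu1 : h * u ≤ h := by nlinarith [hu.2]
    refine (hμ.d2 ξ (h * u) hu0 (hu1.trans h1)).trans ?_
    refine mul_le_mul_of_nonneg_right ?_ hb
    exact mul_le_mul_of_nonneg_left (pow_le_pow_left₀ hu0 hu1 N) hK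

private theorem ft_blur_le {μ : Measure (V n)} {a K : ℝ} {N : ℕ} (hK : 0 ≤ K) (ha : 0 < a)
    (hμ : Dec a N K μ) {c : ℝ} (hc : 0 ≤ c) {ξ : V n} (hξ : ξ ≠ 0) :
    |ft (blur c μ) ξ| ≤ K * ‖ξ‖ ^ (-a) := by
  haveI := hμ.sym.prob
  rw [ft_blur, ← Real.norm_eq_abs]
  have := intervalIntegral.norm_integral_le_of_norm_le_const (a := (0 : ℝ)) (b := 1)
    (f := fun u => ft μ (Real.exp (c * u) • ξ))
    (C := K * ‖ξ‖ ^ (-a)) ?_
  · simpa using this
  · intro u hu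
    rw [Set.uIoc_of_le zero_le_one] at hu
    rw [Real.norm_eq_abs]
    have he : 1 ≤ Real.exp (c * u) := Real.one_le_exp (mul_nonneg hc hu.1.le)
    have hne : Real.exp (c * u) • ξ ≠ 0 := smul_ne_zero (Real.exp_pos _).ne' hξ
    refine (hμ.d1 _ hne).trans ?_
    refine mul_le_mul_of_nonneg_left ?_ hK
    rw [norm_smul, Real.norm_eq_abs, abs_of_pos (Real.exp_pos _)]
    have hpos : 0 < ‖ξ‖ := norm_pos_iff.2 hξ
    refine Real.rpow_le_rpow_of_nonpos hpos ?_ (by linarith)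
    nlinarith

private theorem edm_B {μ : Measure (V n)} {a K : ℝ} {N : ℕ}
    (hμ : Dec a N K μ) {h : ℝ} (ξ : V n) :
    |edm N h μ ξ| ≤ 2 ^ N := by
  haveI := hμ.sym.prob
  have := abs_dif_le N (fun i => ft (blur (i * h) μ) ξ) 1 (fun i => by
    haveI := isProb_blur (μ := μ) ((i : ℝ) * h)
    exact abs_ft_le ξ)
  unfold edm
  simpa using this

private theorem edm_B' {μ : Measure (V n)} {a K : ℝ} {N : ℕ} (hK : 0 ≤ K) (ha : 0 < a)
    (hμ : Dec a N K μ) {h : ℝ} (h0 : 0 < h) {ξ : V n} (hξ : ξ ≠ 0) :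
    |edm N h μ ξ| ≤ 2 ^ N * (K * ‖ξ‖ ^ (-a)) := by
  unfold edm
  refine abs_dif_le N _ _ fun i => ?_
  exact ft_blur_le hK ha hμ (by positivity) hξ

private theorem exp_aux {N : ℕ} {s : ℝ} (s1 : s ≤ N + 1) :
    Real.exp s ≤ Real.exp (((N : ℝ) + 1) ^ 2) := by
  refine Real.exp_le_exp.2 (s1.trans ?_)
  have : (0 : ℝ) ≤ N := by positivity
  nlinarith

private theorem bet_small {a : ℝ} {N : ℕ} (ha : 0 < a) (haN : a ≤ N) {s : ℝ}
    (s1 : s ≤ N + 1) {ρ : ℝ} (r0 : 0 ≤ ρ) (r1 : ρ ≤ 1) :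
    bet a N (Real.exp s * ρ) ≤ Real.exp (((N : ℝ) + 1) ^ 2) * ρ := by
  have hN : (0 : ℝ) ≤ N := by positivity
  unfold bet
  split_ifs with hc
  · exact mul_le_mul_of_nonneg_right (exp_aux s1) r0
  · push Not at hc
    have hE : Real.exp s * ρ ≤ Real.exp ((N : ℝ) + 1) := by
      calc Real.exp s * ρ ≤ Real.exp s * 1 := mul_le_mul_of_nonneg_left r1 (Real.exp_pos _).le
        _ = Real.exp s := mul_one _
        _ ≤ _ := Real.exp_le_exp.2 s1
    have h2 : (Real.exp s * ρ) ^ ((N : ℝ) - a) ≤ Real.exp (((N : ℝ) + 1) * N) := by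
      calc (Real.exp s * ρ) ^ ((N : ℝ) - a) ≤ (Real.exp ((N : ℝ) + 1)) ^ ((N : ℝ) - a) :=
            Real.rpow_le_rpow (by positivity) hE (by linarith)
        _ = Real.exp (((N : ℝ) + 1) * ((N : ℝ) - a)) := by rw [Real.exp_mul]
        _ ≤ _ := Real.exp_le_exp.2 (by nlinarith)
    have h3 : Real.exp (-((N : ℝ) + 1)) ≤ ρ := by
      have e1 : 1 ≤ Real.exp ((N : ℝ) + 1) * ρ := by
        refine hc.le.trans ?_
        exact mul_le_mul_of_nonneg_right (Real.exp_le_exp.2 s1) r0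
      rw [Real.exp_neg, inv_le_iff_one_le_mul₀ (Real.exp_pos _)]
      linarith
    calc (Real.exp s * ρ) ^ ((N : ℝ) - a) ≤ Real.exp (((N : ℝ) + 1) * N) := h2
      _ = Real.exp (((N : ℝ) + 1) ^ 2) * Real.exp (-((N : ℝ) + 1)) := by
          rw [← Real.exp_add]
          congr 1
          ring
      _ ≤ _ := mul_le_mul_of_nonneg_left h3 (Real.exp_pos _).le

private theorem bet_big {a : ℝ} {N : ℕ} (ha : 0 < a) (haN : a ≤ N) {s : ℝ} (s0 : 0 ≤ s)
    (s1 : s ≤ N + 1) {ρ : ℝ} (r1 : 1 < ρ) :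
    bet a N (Real.exp s * ρ) ≤ Real.exp (((N : ℝ) + 1) ^ 2) * ρ ^ ((N : ℝ) - a) := by
  have hN : (0 : ℝ) ≤ N := by positivity
  have he : 1 ≤ Real.exp s := Real.one_le_exp s0
  have hc : ¬ Real.exp s * ρ ≤ 1 := by
    push Not
    nlinarith
  unfold bet
  rw [if_neg hc, Real.mul_rpow (Real.exp_pos _).le (by linarith)]
  refine mul_le_mul_of_nonneg_right ?_ (by positivity)
  rw [← Real.exp_mul]
  refine Real.exp_le_exp.2 ?_
  nlinarith [mul_le_mul_of_nonneg_right s1 (show (0 : ℝ) ≤ (N : ℝ) - a by linarith)]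

theorem edm_le {μ : Measure (V n)} {a K : ℝ} {N : ℕ} (hK : 0 ≤ K) (ha : 0 < a) (haN : a ≤ N)
    (hμ : Dec a N K μ) {h : ℝ} (h0 : 0 < h) (h1 : h ≤ 1) {κ : ℝ} (k0 : 0 < κ) (k1 : κ ≤ 1)
    {s : ℝ} (s0 : 0 ≤ s) (s1 : s ≤ N + 1) (ξ : V n) :
    |edm N h μ (Real.exp s • ξ)| ≤ Ceps N K * h ^ ((N : ℝ) * κ) * psi a N κ ‖ξ‖ := by
  have hC := ceps_pos (N := N) hK
  obtain ⟨c1, c2, c3, c4⟩ := ceps_ge (N := N) hK
  have hn : ‖Real.exp s • ξ‖ = Real.exp s * ‖ξ‖ := by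
    rw [norm_smul, Real.norm_eq_abs, abs_of_pos (Real.exp_pos _)]
  have hA := edm_A hK hμ h0 h1 (Real.exp s • ξ)
  have hB := edm_B hμ (h := h) (Real.exp s • ξ)
  rw [hn] at hA
  have hsplit : |edm N h μ (Real.exp s • ξ)| =
      |edm N h μ (Real.exp s • ξ)| ^ κ * |edm N h μ (Real.exp s • ξ)| ^ (1 - κ) := by
    rcases eq_or_lt_of_le (abs_nonneg (edm N h μ (Real.exp s • ξ))) with h | h
    · rw [← h, Real.zero_rpow k0.ne', zero_mul]
    · rw [← Real.rpow_add h]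
      simp
  have hhN : (h ^ N : ℝ) ^ κ = h ^ ((N : ℝ) * κ) := by
    rw [← Real.rpow_natCast, ← Real.rpow_mul h0.le]
  rw [hsplit]
  have hρ0 := norm_nonneg ξ
  unfold psi
  split_ifs with hc
  · have e1 : |edm N h μ (Real.exp s • ξ)| ≤ Ceps N K * h ^ N * ‖ξ‖ := by
      refine hA.trans ?_
      calc K * h ^ N * bet a N (Real.exp s * ‖ξ‖) ≤
            K * h ^ N * (Real.exp (((N : ℝ) + 1) ^ 2) * ‖ξ‖) :=
            mul_le_mul_of_nonneg_left (bet_small ha haN s1 hρ0 hc) (by positivity)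
        _ = (K * Real.exp (((N : ℝ) + 1) ^ 2)) * (h ^ N * ‖ξ‖) := by ring
        _ ≤ Ceps N K * (h ^ N * ‖ξ‖) := mul_le_mul_of_nonneg_right c1 (by positivity)
        _ = _ := by ring
    calc |edm N h μ (Real.exp s • ξ)| ^ κ * |edm N h μ (Real.exp s • ξ)| ^ (1 - κ) ≤
          (Ceps N K * h ^ N * ‖ξ‖) ^ κ * (Ceps N K) ^ (1 - κ) := by
          refine mul_le_mul (Real.rpow_le_rpow (abs_nonneg _) e1 k0.le)
            (Real.rpow_le_rpow (abs_nonneg _) (hB.trans c2) (by linarith)) (by positivity)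
            (by positivity)
      _ = (Ceps N K ^ κ * Ceps N K ^ (1 - κ)) * h ^ ((N : ℝ) * κ) * ‖ξ‖ ^ κ := by
          rw [Real.mul_rpow (by positivity) hρ0, Real.mul_rpow hC.le (by positivity), hhN]
          ring
      _ = _ := by
          rw [← Real.rpow_add hC]
          simp
  · push Not at hc
    have hξ : Real.exp s • ξ ≠ 0 := by
      refine smul_ne_zero (Real.exp_pos _).ne' ?_
      rintro rfl
      simp at hc
      linarith
    have hB' := edm_B' hK ha hμ h0 hξ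
    have e1 : |edm N h μ (Real.exp s • ξ)| ≤ Ceps N K * h ^ N * ‖ξ‖ ^ ((N : ℝ) - a) := by
      refine hA.trans ?_
      calc K * h ^ N * bet a N (Real.exp s * ‖ξ‖) ≤
            K * h ^ N * (Real.exp (((N : ℝ) + 1) ^ 2) * ‖ξ‖ ^ ((N : ℝ) - a)) :=
            mul_le_mul_of_nonneg_left (bet_big ha haN s0 s1 hc) (by positivity)
        _ = (K * Real.exp (((N : ℝ) + 1) ^ 2)) * (h ^ N * ‖ξ‖ ^ ((N : ℝ) - a)) := by ring
        _ ≤ Ceps N K * (h ^ N * ‖ξ‖ ^ ((N : ℝ) - a)) :=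
            mul_le_mul_of_nonneg_right c1 (by positivity)
        _ = _ := by ring
    have e2 : |edm N h μ (Real.exp s • ξ)| ≤ Ceps N K * ‖ξ‖ ^ (-a) := by
      refine hB'.trans ?_
      rw [hn]
      have he : 1 ≤ Real.exp s := Real.one_le_exp s0
      have e3 : (Real.exp s * ‖ξ‖) ^ (-a) ≤ ‖ξ‖ ^ (-a) :=
        Real.rpow_le_rpow_of_nonpos (by linarith) (by nlinarith) (by linarith)
      calc 2 ^ N * (K * (Real.exp s * ‖ξ‖) ^ (-a)) ≤ 2 ^ N * (K * ‖ξ‖ ^ (-a)) := by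
            refine mul_le_mul_of_nonneg_left (mul_le_mul_of_nonneg_left e3 hK) (by positivity)
        _ = (2 ^ N * K) * ‖ξ‖ ^ (-a) := by ring
        _ ≤ _ := mul_le_mul_of_nonneg_right c3 (by positivity)
    have hρ : 0 < ‖ξ‖ := by linarith
    calc |edm N h μ (Real.exp s • ξ)| ^ κ * |edm N h μ (Real.exp s • ξ)| ^ (1 - κ) ≤
          (Ceps N K * h ^ N * ‖ξ‖ ^ ((N : ℝ) - a)) ^ κ * (Ceps N K * ‖ξ‖ ^ (-a)) ^ (1 - κ) := by
          refine mul_le_mul (Real.rpow_le_rpow (abs_nonneg _) e1 k0.le)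
            (Real.rpow_le_rpow (abs_nonneg _) e2 (by linarith)) (by positivity)
            (by positivity)
      _ = (Ceps N K ^ κ * Ceps N K ^ (1 - κ)) * h ^ ((N : ℝ) * κ) *
            (‖ξ‖ ^ (((N : ℝ) - a) * κ) * ‖ξ‖ ^ (-a * (1 - κ))) := by
          rw [Real.mul_rpow (by positivity) (by positivity), Real.mul_rpow hC.le (by positivity),
            hhN, Real.mul_rpow hC.le (by positivity), ← Real.rpow_mul hρ.le,
            ← Real.rpow_mul hρ.le]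
          ring
      _ = _ := by
          rw [← Real.rpow_add hC, ← Real.rpow_add hρ]
          have : ((N : ℝ) - a) * κ + -a * (1 - κ) = (N : ℝ) * κ - a := by ring
          rw [this]
          simp

/-- The case `κ = a / N`. -/
theorem edm_le_sup {μ : Measure (V n)} {a K : ℝ} {N : ℕ} (hK : 0 ≤ K) (ha : 0 < a) (haN : a ≤ N)
    (hμ : Dec a N K μ) {h : ℝ} (h0 : 0 < h) (h1 : h ≤ 1) (ξ : V n) :
    |edm N h μ ξ| ≤ Ceps N K * h ^ a := by
  have hN : (0 : ℝ) < N := lt_of_lt_of_le ha haN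
  have hC := ceps_pos (N := N) hK
  have hN1 : (0 : ℝ) ≤ (N : ℝ) + 1 := by linarith
  have := edm_le hK ha haN hμ h0 h1 (κ := a / N) (by positivity) ((div_le_one hN).2 haN)
    le_rfl hN1 ξ
  rw [Real.exp_zero, one_smul] at this
  have hNa : (N : ℝ) * (a / N) = a := by field_simp
  rw [hNa] at this
  refine this.trans ?_
  have hp : psi a N (a / N) ‖ξ‖ ≤ 1 := by
    unfold psi
    split_ifs with hc
    · exact Real.rpow_le_one (norm_nonneg _) hc (by positivity)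
    · rw [hNa, sub_self, Real.rpow_zero]
  calc Ceps N K * h ^ a * psi a N (a / N) ‖ξ‖ ≤ Ceps N K * h ^ a * 1 :=
        mul_le_mul_of_nonneg_left hp (by positivity)
    _ = _ := mul_one _

/-- The bound without differences, for the difference of two measures. -/
theorem ft_sub_le {μ ν : Measure (V n)} {a K : ℝ} {N : ℕ} (hK : 0 ≤ K) (ha : 0 < a) (haN : a ≤ N)
    (hμ : Dec a N K μ) (hν : Dec a N K ν) {κ : ℝ} (k0 : 0 < κ) (k1 : κ ≤ 1)
    {s : ℝ} (s0 : 0 ≤ s) (s1 : s ≤ N + 1) (ξ : V n) :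
    |ft μ (Real.exp s • ξ) - ft ν (Real.exp s • ξ)| ≤ 2 * Ceps N K * psi a N κ ‖ξ‖ := by
  have hC := ceps_pos (N := N) hK
  obtain ⟨c1, c2, c3, c4⟩ := ceps_ge (N := N) hK
  have hn : ‖Real.exp s • ξ‖ = Real.exp s * ‖ξ‖ := by
    rw [norm_smul, Real.norm_eq_abs, abs_of_pos (Real.exp_pos _)]
  have hρ0 := norm_nonneg ξ
  unfold psi
  split_ifs with hc
  · have e : ∀ τ : Measure (V n), Dec a N K τ →
        |ft τ (Real.exp s • ξ) - 1| ≤ Ceps N K * ‖ξ‖ ^ κ := by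
      intro τ hτ
      refine (hτ.d0 _).trans ?_
      rw [hn]
      calc K * (Real.exp s * ‖ξ‖) ≤ K * (Real.exp (((N : ℝ) + 1) ^ 2) * ‖ξ‖) := by
            refine mul_le_mul_of_nonneg_left ?_ hK
            exact mul_le_mul_of_nonneg_right (exp_aux s1) hρ0
        _ = (K * Real.exp (((N : ℝ) + 1) ^ 2)) * ‖ξ‖ := by ring
        _ ≤ Ceps N K * ‖ξ‖ := mul_le_mul_of_nonneg_right c1 hρ0
        _ ≤ Ceps N K * ‖ξ‖ ^ κ := by
            refine mul_le_mul_of_nonneg_left ?_ hC.le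
            rcases eq_or_lt_of_le hρ0 with h | h
            · rw [← h, Real.zero_rpow k0.ne']
            · calc ‖ξ‖ = ‖ξ‖ ^ (1 : ℝ) := (Real.rpow_one _).symm
                _ ≤ _ := Real.rpow_le_rpow_of_exponent_ge h hc k1
    have e1 := e μ hμ
    have e2 := e ν hν
    have : ft μ (Real.exp s • ξ) - ft ν (Real.exp s • ξ) =
        (ft μ (Real.exp s • ξ) - 1) - (ft ν (Real.exp s • ξ) - 1) := by ring
    rw [this]
    refine (abs_sub _ _).trans ?_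
    linarith
  · push Not at hc
    have hξ : Real.exp s • ξ ≠ 0 := by
      refine smul_ne_zero (Real.exp_pos _).ne' ?_
      rintro rfl
      simp at hc
      linarith
    have e : ∀ τ : Measure (V n), Dec a N K τ →
        |ft τ (Real.exp s • ξ)| ≤ Ceps N K * ‖ξ‖ ^ ((N : ℝ) * κ - a) := by
      intro τ hτ
      refine (hτ.d1 _ hξ).trans ?_
      rw [hn]
      have he : 1 ≤ Real.exp s := Real.one_le_exp s0
      have e3 : (Real.exp s * ‖ξ‖) ^ (-a) ≤ ‖ξ‖ ^ (-a) :=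
        Real.rpow_le_rpow_of_nonpos (by linarith) (by nlinarith) (by linarith)
      have e4 : ‖ξ‖ ^ (-a) ≤ ‖ξ‖ ^ ((N : ℝ) * κ - a) := by
        refine Real.rpow_le_rpow_of_exponent_le hc.le ?_
        have : 0 ≤ (N : ℝ) * κ := by positivity
        linarith
      exact mul_le_mul c4 (e3.trans e4) (by positivity) hC.le
    have e1 := e μ hμ
    have e2 := e ν hν
    refine (abs_sub _ _).trans ?_
    linarith

end Pool.Agent.CB
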