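import Pool.Agent.CB.Cor

/-!
# CB-Fin: the final form (assembly, compiled)
-/

set_option autoImplicit false

open MeasureTheory Set
open scoped Pointwise ENNReal

namespace Pool.Agent.CB

theorem fin {k : ℕ} (hk : 1 ≤ k) {p : ℝ} (hp : 1 + 1 / ((k : ℝ) + 2) < p) (hp2 : p ≤ 2) :
    ∃ C : ℝ, ∀ (n : ℕ) (J : Fin k → (Fin n → ℝ) →ₗ[ℝ] (Fin n → ℝ)),
      (∀ i x, J i (J i x) = -x) → (∀ i j, i ≠ j → ∀ x, J i (J j x) = -J j (J i x)) →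
      ∀ B : Set (Fin n → ℝ), IsCompact B → Convex ℝ B → (interior B).Nonempty → volume B = 1 →
      (∀ (a : ℝ) (b : Fin k → ℝ), a ^ 2 + ∑ i, b i ^ 2 = 1 →
        ∀ x ∈ B, a • x + ∑ i, b i • J i x ∈ B) →
      ∀ f : (Fin n → ℝ) → ℝ, Measurable f →
        ∫⁻ x, (⨆ t : ℝ, ⨆ (_ : 0 < t), (∫⁻ y in t • B, ‖f (x + y)‖ₑ) / ENNReal.ofReal (t ^ n)) ^ p ≤
          ENNReal.ofReal C * ∫⁻ x, ‖f x‖ₑ ^ p := by
  obtain ⟨C, hC⟩ := cliff_bdd hk hp hp2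
  refine ⟨(C : ℝ) ^ p, fun n J h1 h2 B hB1 hB2 hB3 hB4 hB5 f hf => ?_⟩
  have h := hC n J ⟨h1, h2⟩ B hB1 hB2 hB3 hB5 f hf
  have hp0 : 0 ≤ p := by
    have : (0 : ℝ) ≤ 1 / ((k : ℝ) + 2) := by positivity
    linarith
  have e1 : ENNReal.ofReal ((C : ℝ) ^ p) = (C : ℝ≥0∞) ^ p := by
    rw [← ENNReal.ofReal_rpow_of_nonneg (NNReal.coe_nonneg C) hp0, ENNReal.ofReal_coe_nnreal]
  rw [e1]
  refine le_trans (le_of_eq ?_) h
  refine lintegral_congr fun x => ?_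
  congr 1
  unfold MX.maxF
  refine iSup_congr fun t => iSup_congr fun ht => ?_
  rw [Measure.addHaar_smul, hB4, mul_one]
  congr 2
  rw [Module.finrank_fin_fun, abs_of_pos (pow_pos ht n)]

end Pool.Agent.CB
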