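import Pool.Agent.CB.OrbDefs
import Pool.Agent.CB.GenIso
import Pool.Agent.CB.CliM

/-!
# CB-TensR: bodies invariant under products of orthogonal groups have the orbit property

`E = ∀ j, Fin (n j) × Fin (m j) → ℝ` (matrices with `n j` rows); a family `O` of orthogonal matrices acts by
`(O x) j (i, a) = ∑ i', O j i i' * x j (i', a)`. Let `D, J` be from `exists_clifford k` and `2 D ≤ n j` for all `j`. Let `μ = unif K`,
`f y = ∑ F j (i, a) * y j (i, a)` with `∫ f^2 = 1`.
* Row functionals `f_{j,i} y = ∑ a, F j (i, a) * y j (i, a)`; `∫ f_{j,i} f_{j',i'} dμ = 0` for different rows (the reflection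
  changing the sign of the row `(j,i)` preserves `K`, hence `μ` by `unif_pres`). Masses `w j i = ∫ f_{j,i}^2`, `∑ w = 1`.
* `n j = q j * D + r j`, `r j < D ≤ n j / 2`. In the block `j` choose a set `R j` of `r j` rows of smallest mass, so
  `∑_{i ∈ R j} w j i ≤ (r j / n j) ∑_i w j i ≤ (1/2) ∑_i w j i`, and an equivalence
  `Fin (n j) ≃ (Fin (q j) × Fin D) ⊕ Fin (r j)` which maps `R j` to the second summand.
* `ζ = ∑_j ∑_{i ∈ R j} f_{j,i}`, `f' = f - ζ`, `κ = (∫ f'^2)^(1/2) = (1 - ∫ ζ^2)^(1/2) ≥ 1/√2`, `v 0 = f'/κ`.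
* For `b ∈ ℝ^(k+1)` let `U_b` act on the rows outside `R j` by `b 0 + ∑ b (i+1) J i` (on the factor `Fin D`) and by
  the identity on the rows of `R j`; orthogonal if `‖b‖ = 1` (the transpose of `b 0 + ∑ b (i+1) J i` is `b 0 - ∑ b (i+1) J i`, the product is
  `‖b‖^2`). `v (i+1) y = (1/κ) ∑ (J i F) · y` over the rows outside `R`. `g = (U_a)ᵀ`: `v 0 (g y) = ∑ a i v i y`,
  `ζ (g y) = ζ y`, and `g` preserves `K` (`hinv`), so `μ.map g = μ` (`unif_pres` with `w = U_a`).
-/

set_option autoImplicit false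

open MeasureTheory Set
open scoped ENNReal NNReal

namespace Pool.Agent.CB

section act

variable {l : ℕ} {n m : Fin l → ℕ}

/-- the action of families of matrices -/
private noncomputable def actL (O : ∀ j, Matrix (Fin (n j)) (Fin (n j)) ℝ) :
    (∀ j, Fin (n j) × Fin (m j) → ℝ) →ₗ[ℝ] (∀ j, Fin (n j) × Fin (m j) → ℝ) where
  toFun x := fun j z => ∑ i, O j z.1 i * x j (i, z.2)
  map_add' x y := by
    funext j z
    simp only [Pi.add_apply, mul_add, Finset.sum_add_distrib]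
  map_smul' c x := by
    funext j z
    simp only [Pi.smul_apply, smul_eq_mul, RingHom.id_apply, Finset.mul_sum]
    exact Finset.sum_congr rfl fun i _ => by ring

private theorem actL_apply (O : ∀ j, Matrix (Fin (n j)) (Fin (n j)) ℝ)
    (x : ∀ j, Fin (n j) × Fin (m j) → ℝ) :
    actL O x = fun j z => ∑ i, O j z.1 i * x j (i, z.2) := rfl

private theorem actL_mul (O O' : ∀ j, Matrix (Fin (n j)) (Fin (n j)) ℝ)
    (x : ∀ j, Fin (n j) × Fin (m j) → ℝ) :
    actL O (actL O' x) = actL (fun j => O j * O' j) x := by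
  funext j z
  simp only [actL_apply, Matrix.mul_apply, Finset.sum_mul, Finset.mul_sum]
  rw [Finset.sum_comm]
  exact Finset.sum_congr rfl fun i _ => Finset.sum_congr rfl fun i' _ => by ring

private theorem actL_one (x : ∀ j, Fin (n j) × Fin (m j) → ℝ) :
    actL (fun j => (1 : Matrix (Fin (n j)) (Fin (n j)) ℝ)) x = x := by
  funext j z
  simp [actL_apply, Matrix.one_apply]

private theorem actL_congr {O O' : ∀ j, Matrix (Fin (n j)) (Fin (n j)) ℝ}
    (h : ∀ j, O j = O' j) (x : ∀ j, Fin (n j) × Fin (m j) → ℝ) : actL O x = actL O' x := by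
  rw [funext h]

private theorem actL_add (O O' : ∀ j, Matrix (Fin (n j)) (Fin (n j)) ℝ)
    (x : ∀ j, Fin (n j) × Fin (m j) → ℝ) :
    actL (fun j => O j + O' j) x = actL O x + actL O' x := by
  funext j z
  simp only [actL_apply, Pi.add_apply, Matrix.add_apply, add_mul, Finset.sum_add_distrib]

private theorem actL_smul (c : ℝ) (O : ∀ j, Matrix (Fin (n j)) (Fin (n j)) ℝ)
    (x : ∀ j, Fin (n j) × Fin (m j) → ℝ) :
    actL (fun j => c • O j) x = c • actL O x := by
  funext j z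
  simp only [actL_apply, Pi.smul_apply, Matrix.smul_apply, smul_eq_mul, Finset.mul_sum]
  exact Finset.sum_congr rfl fun i _ => by ring

private theorem actL_sum {ι : Type} (s : Finset ι)
    (O : ι → ∀ j, Matrix (Fin (n j)) (Fin (n j)) ℝ)
    (x : ∀ j, Fin (n j) × Fin (m j) → ℝ) :
    actL (fun j => ∑ t ∈ s, O t j) x = ∑ t ∈ s, actL (O t) x := by
  funext j z
  simp only [actL_apply, Finset.sum_apply, Matrix.sum_apply, Finset.sum_mul]
  rw [Finset.sum_comm]

/-- diagonal families -/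
private noncomputable def dg (c : (Σ j, Fin (n j)) → ℝ) :
    (∀ j, Fin (n j) × Fin (m j) → ℝ) →ₗ[ℝ] (∀ j, Fin (n j) × Fin (m j) → ℝ) :=
  actL fun j => Matrix.diagonal fun i => c ⟨j, i⟩

private theorem dg_apply (c : (Σ j, Fin (n j)) → ℝ) (x : ∀ j, Fin (n j) × Fin (m j) → ℝ)
    (j : Fin l) (z : Fin (n j) × Fin (m j)) : dg c x j z = c ⟨j, z.1⟩ * x j z := by
  simp [dg, actL_apply, Matrix.diagonal_apply]

private theorem dg_dg (c c' : (Σ j, Fin (n j)) → ℝ) (x : ∀ j, Fin (n j) × Fin (m j) → ℝ) :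
    dg c (dg c' x) = dg (c * c') x := by
  funext j z
  simp only [dg_apply, Pi.mul_apply, mul_assoc]

private theorem dg_sum (c : (Σ j, Fin (n j)) → ℝ) (x : ∀ j, Fin (n j) × Fin (m j) → ℝ) :
    dg c x = ∑ ρ, c ρ • dg (Pi.single ρ 1) x := by
  classical
  funext j z
  simp only [Finset.sum_apply, Pi.smul_apply, smul_eq_mul, dg_apply, Pi.single_apply]
  rw [Finset.sum_eq_single (⟨j, z.1⟩ : Σ j, Fin (n j))]
  · simp
  · intro ρ _ hρ
    rw [if_neg (Ne.symm hρ)]
    ring
  · intro h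
    exact absurd (Finset.mem_univ _) h

end act

section blocks

variable {q D r n : ℕ}

/-- block matrices -/
private noncomputable def Mb (e : Fin n ≃ (Fin q × Fin D) ⊕ Fin r)
    (A : Matrix (Fin D) (Fin D) ℝ) (s : ℝ) : Matrix (Fin n) (Fin n) ℝ :=
  (Matrix.fromBlocks (Matrix.kroneckerMap (fun a b => a * b) (1 : Matrix (Fin q) (Fin q) ℝ) A) 0 0
    (s • (1 : Matrix (Fin r) (Fin r) ℝ))).submatrix e e

private theorem Mb_mul (e : Fin n ≃ (Fin q × Fin D) ⊕ Fin r)
    (A A' : Matrix (Fin D) (Fin D) ℝ) (s s' : ℝ) :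
    Mb e A s * Mb e A' s' = Mb e (A * A') (s * s') := by
  unfold Mb
  rw [Matrix.submatrix_mul_equiv, Matrix.fromBlocks_multiply]
  congr 2
  · rw [← Matrix.mul_kronecker_mul]
    simp
  · simp
  · simp
  · simp only [Matrix.zero_mul, zero_add, smul_mul_smul_comm, Matrix.one_mul, mul_one]

private theorem Mb_transpose (e : Fin n ≃ (Fin q × Fin D) ⊕ Fin r)
    (A : Matrix (Fin D) (Fin D) ℝ) (s : ℝ) :
    (Mb e A s).transpose = Mb e A.transpose s := by
  unfold Mb
  rw [Matrix.transpose_submatrix, Matrix.fromBlocks_transpose]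
  congr 2
  · ext ⟨a, b⟩ ⟨a', b'⟩
    simp [Matrix.transpose_apply, Matrix.kroneckerMap_apply, Matrix.one_apply, eq_comm]
  · simp

private theorem Mb_one (e : Fin n ≃ (Fin q × Fin D) ⊕ Fin r) : Mb e 1 1 = 1 := by
  unfold Mb
  rw [one_smul]
  have : Matrix.kroneckerMap (fun a b : ℝ => a * b) (1 : Matrix (Fin q) (Fin q) ℝ)
      (1 : Matrix (Fin D) (Fin D) ℝ) = 1 := Matrix.one_kronecker_one
  rw [this, Matrix.fromBlocks_one, Matrix.submatrix_one_equiv]

private theorem Mb_add (e : Fin n ≃ (Fin q × Fin D) ⊕ Fin r)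
    (A A' : Matrix (Fin D) (Fin D) ℝ) : Mb e (A + A') 0 = Mb e A 0 + Mb e A' 0 := by
  ext i i'
  unfold Mb
  rcases h : e i with x | x <;> rcases h' : e i' with x' | x' <;>
    simp [Matrix.submatrix_apply, h, h', Matrix.kroneckerMap_apply, mul_add]

private theorem Mb_smul (e : Fin n ≃ (Fin q × Fin D) ⊕ Fin r) (c : ℝ)
    (A : Matrix (Fin D) (Fin D) ℝ) : Mb e (c • A) 0 = c • Mb e A 0 := by
  ext i i'
  unfold Mb
  rcases h : e i with x | x <;> rcases h' : e i' with x' | x' <;>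
    simp [Matrix.submatrix_apply, h, h', Matrix.kroneckerMap_apply, mul_left_comm]

private theorem Mb_zero (e : Fin n ≃ (Fin q × Fin D) ⊕ Fin r) : Mb e 0 0 = 0 := by
  have h := Mb_smul e 0 (0 : Matrix (Fin D) (Fin D) ℝ)
  rwa [zero_smul, zero_smul] at h

private theorem Mb_sum (e : Fin n ≃ (Fin q × Fin D) ⊕ Fin r) {ι : Type} (s : Finset ι)
    (A : ι → Matrix (Fin D) (Fin D) ℝ) : Mb e (∑ t ∈ s, A t) 0 = ∑ t ∈ s, Mb e (A t) 0 := by
  classical
  induction s using Finset.induction_on with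
  | empty => simp [Mb_zero]
  | insert t s ht ih => rw [Finset.sum_insert ht, Finset.sum_insert ht, Mb_add, ih]

private theorem Mb_left (e : Fin n ≃ (Fin q × Fin D) ⊕ Fin r) :
    Mb e 1 0 = Matrix.diagonal fun i => if (e i).isRight then 0 else 1 := by
  ext i i'
  unfold Mb
  by_cases hii : i = i'
  · subst hii
    rcases h : e i with x | x <;>
      simp [Matrix.submatrix_apply, h]
  · have h1 : e i ≠ e i' := fun h => hii (e.injective h)
    rw [Matrix.diagonal_apply_ne _ hii]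
    rcases h : e i with x | x <;> rcases h' : e i' with x' | x' <;>
      simp [Matrix.submatrix_apply, h, h']
    rw [h, h'] at h1
    exact Matrix.one_apply_ne fun h => h1 (by rw [h])

private theorem Mb_right (e : Fin n ≃ (Fin q × Fin D) ⊕ Fin r) :
    Mb e 0 1 = Matrix.diagonal fun i => if (e i).isRight then 1 else 0 := by
  ext i i'
  unfold Mb
  by_cases hii : i = i'
  · subst hii
    rcases h : e i with x | x <;>
      simp [Matrix.submatrix_apply, h]
  · have h1 : e i ≠ e i' := fun h => hii (e.injective h)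
    rw [Matrix.diagonal_apply_ne _ hii]
    rcases h : e i with x | x <;> rcases h' : e i' with x' | x' <;>
      simp [Matrix.submatrix_apply, h, h']
    rw [h, h'] at h1
    exact Matrix.one_apply_ne fun h => h1 (by rw [h])

end blocks

/-- the small rows -/
private theorem exists_rows {n D : ℕ} (hD : 1 ≤ D) (hn : 2 * D ≤ n) (w : Fin n → ℝ)
    (hw : ∀ i, 0 ≤ w i) : ∃ (q r : ℕ) (e : Fin n ≃ (Fin q × Fin D) ⊕ Fin r),
      2 * ∑ i, (if (e i).isRight then 1 else 0) * w i ≤ ∑ i, w i := by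
  classical
  obtain ⟨r, hr⟩ : ∃ r, r = n % D := ⟨_, rfl⟩
  obtain ⟨q, hq⟩ : ∃ q, q = n / D := ⟨_, rfl⟩
  have hqr : q * D + r = n := by rw [hq, hr]; exact Nat.div_add_mod' n D
  have hrD : r < D := hr ▸ Nat.mod_lt n (by omega)
  obtain ⟨R1, hR1, hc1⟩ := Finset.exists_subset_card_eq
    (s := (Finset.univ : Finset (Fin n))) (n := r) (by rw [Finset.card_univ, Fintype.card_fin]; omega)
  obtain ⟨R2, hR2, hc2⟩ := Finset.exists_subset_card_eq (s := R1ᶜ) (n := r) (by
    rw [Finset.card_compl, Fintype.card_fin, hc1]; omega)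
  have hdisj : Disjoint R1 R2 := by
    rw [Finset.disjoint_left]
    intro i h1 h2
    exact (Finset.mem_compl.1 (hR2 h2)) h1
  have hle : ∑ i ∈ R1, w i + ∑ i ∈ R2, w i ≤ ∑ i, w i := by
    rw [← Finset.sum_union hdisj]
    exact Finset.sum_le_sum_of_subset_of_nonneg (Finset.subset_univ _) fun i _ _ => hw i
  have hR : ∃ R : Finset (Fin n), R.card = r ∧ 2 * ∑ i ∈ R, w i ≤ ∑ i, w i := by
    rcases le_total (∑ i ∈ R1, w i) (∑ i ∈ R2, w i) with h | h
    · exact ⟨R1, hc1, by linarith⟩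
    · exact ⟨R2, hc2, by linarith⟩
  obtain ⟨R, hcR, hRw⟩ := hR
  have hcl : Fintype.card {i : Fin n // i ∉ R} = Fintype.card (Fin q × Fin D) := by
    rw [Fintype.card_prod, Fintype.card_fin, Fintype.card_fin, Fintype.card_subtype_compl,
      Fintype.card_fin, Fintype.card_coe, hcR]
    omega
  have hcr : Fintype.card {i : Fin n // ¬ i ∉ R} = Fintype.card (Fin r) := by
    rw [Fintype.card_fin, ← hcR, ← Fintype.card_coe R]
    exact Fintype.card_congr (Equiv.subtypeEquivRight fun i => not_not)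
  let e1 := Fintype.equivOfCardEq hcl
  let e2 := Fintype.equivOfCardEq hcr
  let e : Fin n ≃ (Fin q × Fin D) ⊕ Fin r :=
    (Equiv.sumCompl (fun i : Fin n => i ∉ R)).symm.trans (Equiv.sumCongr e1 e2)
  have he : ∀ i, (e i).isRight = true ↔ i ∈ R := by
    intro i
    by_cases hi : i ∈ R
    · have h1 : (Equiv.sumCompl (fun i : Fin n => i ∉ R)).symm i = Sum.inr ⟨i, not_not.2 hi⟩ :=
        Equiv.sumCompl_symm_apply_of_neg _
      simp [e, h1, hi]
    · have h1 : (Equiv.sumCompl (fun i : Fin n => i ∉ R)).symm i = Sum.inl ⟨i, hi⟩ :=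
        Equiv.sumCompl_symm_apply_of_pos _
      simp [e, h1, hi]
  refine ⟨q, r, e, ?_⟩
  have h3 : ∑ i, (if (e i).isRight then (1 : ℝ) else 0) * w i = ∑ i ∈ R, w i := by
    rw [← Finset.sum_subset (Finset.subset_univ R)]
    · refine Finset.sum_congr rfl fun i hi => ?_
      rw [if_pos ((he i).2 hi), one_mul]
    · intro i _ hi
      rw [if_neg (fun h => hi ((he i).1 h)), zero_mul]
  rw [h3]
  exact hRw

/-- Clifford identity -/
private theorem cliff_sq {k D : ℕ} {J : Fin k → Matrix (Fin D) (Fin D) ℝ}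
    (h2 : ∀ i, J i * J i = -1) (h3 : ∀ i j, i ≠ j → J i * J j = -(J j * J i)) (c : Fin k → ℝ) :
    (∑ i, c i • J i) * (∑ i, c i • J i) = (-∑ i, c i ^ 2) • (1 : Matrix (Fin D) (Fin D) ℝ) := by
  classical
  have e1 : (∑ i, c i • J i) * (∑ i, c i • J i) = ∑ i, ∑ j, (c i * c j) • (J i * J j) := by
    rw [Finset.sum_mul]
    refine Finset.sum_congr rfl fun i _ => ?_
    rw [Finset.mul_sum]
    refine Finset.sum_congr rfl fun j _ => ?_
    rw [smul_mul_assoc, mul_smul_comm, smul_smul]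
  have e2 : (∑ i, c i • J i) * (∑ i, c i • J i) = ∑ i, ∑ j, (c i * c j) • (J j * J i) := by
    rw [e1, Finset.sum_comm]
    refine Finset.sum_congr rfl fun i _ => Finset.sum_congr rfl fun j _ => ?_
    rw [mul_comm (c j)]
  have e3 : (2 : ℝ) • ((∑ i, c i • J i) * (∑ i, c i • J i)) =
      (2 : ℝ) • ((-∑ i, c i ^ 2) • (1 : Matrix (Fin D) (Fin D) ℝ)) := by
    rw [two_smul]
    nth_rewrite 1 [e1]
    rw [e2, ← Finset.sum_add_distrib]
    have : ∀ i, (∑ j, (c i * c j) • (J i * J j) + ∑ j, (c i * c j) • (J j * J i)) =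
        (-2 * c i ^ 2) • (1 : Matrix (Fin D) (Fin D) ℝ) := by
      intro i
      rw [← Finset.sum_add_distrib, Finset.sum_eq_single i]
      · rw [h2 i, ← smul_add, show (-1 : Matrix (Fin D) (Fin D) ℝ) + -1 = (-2 : ℝ) • 1 by
          rw [neg_smul, two_smul]; abel, smul_smul]
        congr 1
        ring
      · intro j _ hj
        rw [h3 i j (Ne.symm hj), smul_neg, neg_add_cancel]
      · intro h
        exact absurd (Finset.mem_univ _) h
    rw [Finset.sum_congr rfl fun i _ => this i, ← Finset.sum_smul, smul_smul]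
    congr 1
    rw [← Finset.mul_sum]
    ring
  have h4 := congrArg (fun M => (1 / 2 : ℝ) • M) e3
  simpa [smul_smul] using h4

private theorem cliff_orth {k D : ℕ} {J : Fin k → Matrix (Fin D) (Fin D) ℝ}
    (h1 : ∀ i, (J i).transpose = -J i) (h2 : ∀ i, J i * J i = -1)
    (h3 : ∀ i j, i ≠ j → J i * J j = -(J j * J i)) (b : ℝ) (c : Fin k → ℝ)
    (hb : b ^ 2 + ∑ i, c i ^ 2 = 1) :
    (b • (1 : Matrix (Fin D) (Fin D) ℝ) + ∑ i, c i • J i).transpose *
        (b • (1 : Matrix (Fin D) (Fin D) ℝ) + ∑ i, c i • J i) = 1 ∧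
      (b • (1 : Matrix (Fin D) (Fin D) ℝ) + ∑ i, c i • J i) *
        (b • (1 : Matrix (Fin D) (Fin D) ℝ) + ∑ i, c i • J i).transpose = 1 := by
  have ht : (b • (1 : Matrix (Fin D) (Fin D) ℝ) + ∑ i, c i • J i).transpose =
      b • 1 - ∑ i, c i • J i := by
    rw [Matrix.transpose_add, Matrix.transpose_smul, Matrix.transpose_one, Matrix.transpose_sum,
      sub_eq_add_neg, ← Finset.sum_neg_distrib]
    congr 1
    refine Finset.sum_congr rfl fun i _ => ?_
    rw [Matrix.transpose_smul, h1 i, smul_neg]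
  have hS := cliff_sq h2 h3 c
  obtain ⟨S, hSd⟩ : ∃ S, S = ∑ i, c i • J i := ⟨_, rfl⟩
  rw [ht]
  rw [← hSd] at hS ⊢
  have hc : (b ^ 2) • (1 : Matrix (Fin D) (Fin D) ℝ) - (-∑ i, c i ^ 2) • 1 = 1 := by
    rw [← sub_smul, sub_neg_eq_add, hb, one_smul]
  constructor
  · have : (b • (1 : Matrix (Fin D) (Fin D) ℝ) - S) * (b • 1 + S) =
        (b ^ 2) • 1 - S * S := by
      rw [sub_mul, mul_add, mul_add, smul_mul_smul_comm, smul_mul_assoc, mul_smul_comm, one_mul,
        one_mul, mul_one, pow_two]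
      abel
    rw [this, hS, hc]
  · have : (b • (1 : Matrix (Fin D) (Fin D) ℝ) + S) * (b • 1 - S) =
        (b ^ 2) • 1 - S * S := by
      rw [add_mul, mul_sub, mul_sub, smul_mul_smul_comm, smul_mul_assoc, mul_smul_comm, one_mul,
        one_mul, mul_one, pow_two]
      abel
    rw [this, hS, hc]

/-- Families of orthogonal matrices act on families of matrices by left multiplication. -/
def Linv {l : ℕ} {n m : Fin l → ℕ} (K : Set (∀ j, Fin (n j) × Fin (m j) → ℝ)) : Prop :=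
  ∀ O : ∀ j, Matrix (Fin (n j)) (Fin (n j)) ℝ, (∀ j, (O j).transpose * O j = 1) →
    ∀ x ∈ K, (fun j z => ∑ i, O j z.1 i * x j (i, z.2)) ∈ K

theorem orb_tens {k l D : ℕ} {J : Fin k → Matrix (Fin D) (Fin D) ℝ} (hD : 1 ≤ D)
    (h1 : ∀ i, (J i).transpose = -J i) (h2 : ∀ i, J i * J i = -1)
    (h3 : ∀ i j, i ≠ j → J i * J j = -(J j * J i)) {n m : Fin l → ℕ} (hn : ∀ j, 2 * D ≤ n j)
    {K : Set (∀ j, Fin (n j) × Fin (m j) → ℝ)} (hK : IsCompact K) (hi : (interior K).Nonempty)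
    (hr : Linv K) : OrbE k (MX.unif K) := by
  classical
  intro f hf
  obtain ⟨μ, hμ⟩ : ∃ μ, μ = MX.unif K := ⟨_, rfl⟩
  have hpres : ∀ O O' : ∀ j, Matrix (Fin (n j)) (Fin (n j)) ℝ,
      (∀ j, (O j).transpose * O j = 1) → (∀ j, (O' j).transpose * O' j = 1) →
      (∀ j, O j * O' j = 1) → (MX.unif K).map (actL O) = MX.unif K := by
    intro O O' hO hO' hOO
    refine unif_pres hK hi (actL O) (actL O') (fun x => ?_) (fun x hx => hr O hO x hx)
      (fun x hx => hr O' hO' x hx)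
    rw [actL_mul, actL_congr hOO, actL_one]
  have hint : ∀ h : (∀ j, Fin (n j) × Fin (m j) → ℝ) →ₗ[ℝ] ℝ,
      Integrable (fun y => h y ^ 2) (MX.unif K) := fun h => integrable_sq hK hi h
  have hint2 : ∀ h h' : (∀ j, Fin (n j) × Fin (m j) → ℝ) →ₗ[ℝ] ℝ,
      Integrable (fun y => h y * h' y) (MX.unif K) := by
    intro h h'
    have e : (fun y => h y * h' y) = fun y => (1 / 4 : ℝ) * ((h + h') y ^ 2 - (h - h') y ^ 2) := by
      funext y
      rw [LinearMap.add_apply, LinearMap.sub_apply]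
      ring
    rw [e]
    exact ((hint _).sub (hint _)).const_mul _
  have hinv : ∀ (g : (∀ j, Fin (n j) × Fin (m j) → ℝ) →ₗ[ℝ] (∀ j, Fin (n j) × Fin (m j) → ℝ))
      (_ : (MX.unif K).map g = MX.unif K)
      (h h' : (∀ j, Fin (n j) × Fin (m j) → ℝ) →ₗ[ℝ] ℝ),
      ∫ y, h (g y) * h' (g y) ∂(MX.unif K) = ∫ y, h y * h' y ∂(MX.unif K) := by
    intro g hg h h'
    conv_rhs => rw [← hg]
    rw [integral_map]
    · exact (LinearMap.continuous_of_finiteDimensional g).measurable.aemeasurable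
    · exact ((LinearMap.continuous_of_finiteDimensional h).mul
        (LinearMap.continuous_of_finiteDimensional h')).aestronglyMeasurable
  -- reflections
  have hcross : ∀ ρ σ : Σ j, Fin (n j), ρ ≠ σ →
      ∫ y, f (dg (Pi.single ρ 1) y) * f (dg (Pi.single σ 1) y) ∂(MX.unif K) = 0 := by
    intro ρ σ hρσ
    obtain ⟨c, hc⟩ : ∃ c : (Σ j, Fin (n j)) → ℝ, c = 1 - (2 : ℝ) • Pi.single ρ 1 := ⟨_, rfl⟩
    have hcc : ∀ τ, c τ * c τ = 1 := by
      intro τ
      rw [hc]
      by_cases h : τ = ρ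
      · subst h; simp; norm_num
      · simp [Pi.single_apply, h]
    have hO : ∀ j, (Matrix.diagonal fun i => c ⟨j, i⟩ : Matrix (Fin (n j)) (Fin (n j)) ℝ) *
        Matrix.diagonal (fun i => c ⟨j, i⟩) = 1 := by
      intro j
      rw [Matrix.diagonal_mul_diagonal, ← Matrix.diagonal_one]
      congr 1
      funext i
      exact hcc _
    have hg : (MX.unif K).map (dg (m := m) c) = MX.unif K := by
      refine hpres _ (fun j => Matrix.diagonal fun i => c ⟨j, i⟩) ?_ ?_ ?_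
      · intro j
        rw [Matrix.diagonal_transpose]
        exact hO j
      · intro j
        rw [Matrix.diagonal_transpose]
        exact hO j
      · exact hO
    have h1 := hinv _ hg (f ∘ₗ dg (Pi.single ρ 1)) (f ∘ₗ dg (Pi.single σ 1))
    have e1 : ∀ y : (∀ j, Fin (n j) × Fin (m j) → ℝ),
        dg (Pi.single ρ 1) (dg c y) = -dg (Pi.single ρ 1) y := by
      intro y
      rw [dg_dg]
      funext j z
      rw [Pi.neg_apply, Pi.neg_apply, dg_apply, dg_apply, Pi.mul_apply, hc]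
      by_cases h : (⟨j, z.1⟩ : Σ j, Fin (n j)) = ρ
      · rw [← h]; simp; ring
      · simp [Pi.single_apply, h]
    have e2 : ∀ y : (∀ j, Fin (n j) × Fin (m j) → ℝ),
        dg (Pi.single σ 1) (dg c y) = dg (Pi.single σ 1) y := by
      intro y
      rw [dg_dg]
      funext j z
      rw [dg_apply, dg_apply, Pi.mul_apply, hc]
      by_cases h : (⟨j, z.1⟩ : Σ j, Fin (n j)) = σ
      · have h' : (⟨j, z.1⟩ : Σ j, Fin (n j)) ≠ ρ := fun h'' => hρσ (h''.symm.trans h)
        simp [Pi.single_apply, h, h']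
        rw [if_neg (fun h'' => hρσ h''.symm)]
        simp
      · simp [Pi.single_apply, h]
    simp only [LinearMap.comp_apply, e1, e2, map_neg, neg_mul] at h1
    rw [integral_neg] at h1
    linarith
  obtain ⟨w, hw⟩ : ∃ w : (Σ j, Fin (n j)) → ℝ,
      w = fun ρ => ∫ y, f (dg (Pi.single ρ 1) y) ^ 2 ∂(MX.unif K) := ⟨_, rfl⟩
  have hw0 : ∀ ρ, 0 ≤ w ρ := by
    intro ρ
    rw [hw]
    exact integral_nonneg fun y => sq_nonneg _
  have hmass : ∀ c : (Σ j, Fin (n j)) → ℝ,
      ∫ y, f (dg c y) ^ 2 ∂(MX.unif K) = ∑ ρ, c ρ ^ 2 * w ρ := by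
    intro c
    have e1 : ∀ y, f (dg c y) ^ 2 = ∑ ρ, ∑ σ, (c ρ * c σ) *
        (f (dg (Pi.single ρ 1) y) * f (dg (Pi.single σ 1) y)) := by
      intro y
      rw [dg_sum, map_sum, pow_two, Finset.sum_mul]
      refine Finset.sum_congr rfl fun ρ _ => ?_
      rw [Finset.mul_sum]
      refine Finset.sum_congr rfl fun σ _ => ?_
      rw [map_smul, map_smul, smul_eq_mul, smul_eq_mul]
      ring
    have hI : ∀ ρ σ : Σ j, Fin (n j), Integrable (fun y => (c ρ * c σ) *
        (f (dg (Pi.single ρ 1) y) * f (dg (Pi.single σ 1) y))) (MX.unif K) := by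
      intro ρ σ
      exact (hint2 (f ∘ₗ dg (Pi.single ρ 1)) (f ∘ₗ dg (Pi.single σ 1))).const_mul _
    simp only [e1]
    rw [integral_finsetSum _ fun ρ _ => integrable_finsetSum _ fun σ _ => hI ρ σ]
    refine Finset.sum_congr rfl fun ρ _ => ?_
    rw [integral_finsetSum _ fun σ _ => hI ρ σ, Finset.sum_eq_single ρ]
    · rw [integral_const_mul, hw]
      simp only [← pow_two]
    · intro σ _ hσ
      rw [integral_const_mul, hcross ρ σ (Ne.symm hσ), mul_zero]
    · intro h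
      exact absurd (Finset.mem_univ _) h
  have hsum1 : ∑ ρ, w ρ = 1 := by
    have h := hmass 1
    have e1 : ∀ y : (∀ j, Fin (n j) × Fin (m j) → ℝ), dg 1 y = y := by
      intro y
      funext j z
      rw [dg_apply, Pi.one_apply, one_mul]
    simp only [e1, hf, Pi.one_apply, one_pow, one_mul] at h
    exact h.symm
  -- the rows
  choose q r e he using fun j => exists_rows hD (hn j) (fun i => w ⟨j, i⟩) fun i => hw0 _
  obtain ⟨c, hc⟩ : ∃ c : (Σ j, Fin (n j)) → ℝ,
      c = fun ρ => if (e ρ.1 ρ.2).isRight then 1 else 0 := ⟨_, rfl⟩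
  have hc2 : ∀ ρ, c ρ ^ 2 = c ρ := by
    intro ρ
    rw [hc]
    dsimp only
    split_ifs <;> norm_num
  have hcz : 2 * ∑ ρ, c ρ * w ρ ≤ 1 := by
    rw [← hsum1, Fintype.sum_sigma, Fintype.sum_sigma, Finset.mul_sum]
    refine Finset.sum_le_sum fun j _ => ?_
    rw [hc]
    exact he j
  obtain ⟨ζ, hζ⟩ : ∃ ζ : (∀ j, Fin (n j) × Fin (m j) → ℝ) →ₗ[ℝ] ℝ, ζ = f ∘ₗ dg c := ⟨_, rfl⟩
  obtain ⟨f', hf'⟩ : ∃ f' : (∀ j, Fin (n j) × Fin (m j) → ℝ) →ₗ[ℝ] ℝ, f' = f ∘ₗ dg (1 - c) :=
    ⟨_, rfl⟩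
  have hζ2 : ∫ y, ζ y ^ 2 ∂(MX.unif K) = ∑ ρ, c ρ * w ρ := by
    rw [hζ]
    simp only [LinearMap.comp_apply]
    rw [hmass c]
    exact Finset.sum_congr rfl fun ρ _ => by rw [hc2]
  have hf2 : ∫ y, f' y ^ 2 ∂(MX.unif K) = 1 - ∑ ρ, c ρ * w ρ := by
    rw [hf']
    simp only [LinearMap.comp_apply]
    rw [hmass (1 - c), ← hsum1, ← Finset.sum_sub_distrib]
    refine Finset.sum_congr rfl fun ρ _ => ?_
    have : (1 - c) ρ ^ 2 = 1 - c ρ := by
      rw [Pi.sub_apply, Pi.one_apply]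
      have := hc2 ρ
      nlinarith
    rw [this]
    ring
  have hζ0 : 0 ≤ ∑ ρ, c ρ * w ρ := by
    rw [← hζ2]
    exact integral_nonneg fun y => sq_nonneg _
  obtain ⟨κ, hκ⟩ : ∃ κ, κ = Real.sqrt (1 - ∑ ρ, c ρ * w ρ) := ⟨_, rfl⟩
  have hκ2 : κ ^ 2 = 1 - ∑ ρ, c ρ * w ρ := by
    rw [hκ, Real.sq_sqrt (by linarith)]
  have hκ0 : 0 ≤ κ := by rw [hκ]; exact Real.sqrt_nonneg _
  have hκ1 : 1 / 2 ≤ κ := by nlinarith
  have hκne : κ ≠ 0 := by linarith
  have hdgM1 : dg (m := m) (1 - c) = actL fun j => Mb (e j) 1 0 := by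
    unfold dg
    congr 1
    funext j
    rw [Mb_left]
    congr 1
    funext i
    rw [Pi.sub_apply, Pi.one_apply, hc]
    dsimp only
    split_ifs <;> norm_num
  have hdgM2 : dg (m := m) c = actL fun j => Mb (e j) 0 1 := by
    unfold dg
    congr 1
    funext j
    rw [Mb_right, hc]
  refine ⟨κ, fun i => Fin.cases (κ⁻¹ • (f ∘ₗ actL fun j => Mb (e j) 1 0))
    (fun i' => κ⁻¹ • (f ∘ₗ actL fun j => Mb (e j) (J i') 0)) i, ζ, ?_⟩
  constructor
  · exact hκ1
  · nlinarith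
  · intro y
    simp only [Fin.cases_zero, LinearMap.smul_apply, LinearMap.comp_apply, smul_eq_mul]
    rw [← mul_assoc, mul_inv_cancel₀ hκne, one_mul, ← hdgM1, hζ, LinearMap.comp_apply, ← map_add]
    congr 1
    funext j z
    rw [Pi.add_apply, Pi.add_apply, dg_apply, dg_apply, Pi.sub_apply, Pi.one_apply]
    ring
  · simp only [Fin.cases_zero, LinearMap.smul_apply, smul_eq_mul, mul_pow]
    rw [integral_const_mul, ← hdgM1, ← hf', hf2, ← hκ2, inv_pow, inv_mul_cancel₀ (pow_ne_zero 2 hκne)]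
  · rw [hζ2]
    linarith
  · intro a ha
    obtain ⟨B, hB⟩ : ∃ B : Matrix (Fin D) (Fin D) ℝ,
        B = a 0 • (1 : Matrix (Fin D) (Fin D) ℝ) + ∑ i : Fin k, a i.succ • J i := ⟨_, rfl⟩
    have ha2 : a 0 ^ 2 + ∑ i : Fin k, a i.succ ^ 2 = 1 := by
      have h := EuclideanSpace.real_norm_sq_eq a
      rw [ha, one_pow, Fin.sum_univ_succ] at h
      exact h.symm
    obtain ⟨hB1, hB2⟩ := cliff_orth h1 h2 h3 (a 0) (fun i => a i.succ) ha2
    rw [← hB] at hB1 hB2
    refine ⟨actL fun j => Mb (e j) B 1, ?_, ?_, ?_⟩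
    · refine hpres _ (fun j => Mb (e j) B.transpose 1) ?_ ?_ ?_
      · intro j
        rw [Mb_transpose, Mb_mul, hB1, one_mul, Mb_one]
      · intro j
        rw [Mb_transpose, Matrix.transpose_transpose, Mb_mul, hB2, one_mul, Mb_one]
      · intro j
        rw [Mb_mul, hB2, one_mul, Mb_one]
    · intro y
      rw [Fin.sum_univ_succ]
      simp only [Fin.cases_zero, Fin.cases_succ, LinearMap.smul_apply, LinearMap.comp_apply,
        smul_eq_mul]
      rw [actL_mul]
      have e1 : ∀ j, Mb (e j) 1 0 * Mb (e j) B 1 =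
          a 0 • Mb (e j) 1 0 + ∑ i : Fin k, a i.succ • Mb (e j) (J i) 0 := by
        intro j
        rw [Mb_mul, one_mul, zero_mul, hB, Mb_add, Mb_smul, Mb_sum]
        congr 1
        exact Finset.sum_congr rfl fun i _ => Mb_smul _ _ _
      rw [actL_congr e1, actL_add, actL_smul, actL_sum, map_add, map_smul, map_sum, mul_add,
        Finset.mul_sum, smul_eq_mul]
      congr 1
      · ring
      · refine Finset.sum_congr rfl fun i _ => ?_
        rw [actL_smul, map_smul, smul_eq_mul]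
        ring
    · intro y
      rw [hζ, LinearMap.comp_apply, LinearMap.comp_apply, hdgM2, actL_mul]
      congr 1
      refine actL_congr (fun j => ?_) y
      rw [Mb_mul, zero_mul, one_mul]

end Pool.Agent.CB
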