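import Pool.Agent.CB.Cor2
import Pool.Agent.CB.BlockR
import Pool.Agent.CB.TensR

/-!
# CB-Fin2: final forms (assembly)
-/

set_option autoImplicit false

open MeasureTheory Set
open scoped Pointwise ENNReal NNReal

namespace Pool.Agent.CB

/-- Block-radial bodies with blocks of dimension at least `s`. -/
theorem fin_block {s : ℕ} (hs : 2 ≤ s) {p : ℝ} (hp : 1 + 1 / ((s : ℝ) + 1) < p) (hp2 : p ≤ 2) :
    ∃ C : ℝ≥0, ∀ (l : ℕ) (d : Fin l → ℕ), (∀ j, s ≤ d j) → ∀ B : Set (∀ j, Fin (d j) → ℝ),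
      IsCompact B → Convex ℝ B → (interior B).Nonempty →
      (∀ x ∈ B, ∀ y : ∀ j, Fin (d j) → ℝ, (∀ j, ∑ i, y j i ^ 2 = ∑ i, x j i ^ 2) → y ∈ B) →
      MX.Bdd p (C : ℝ≥0∞) B := by
  obtain ⟨k, rfl⟩ : ∃ k, s = k + 1 := ⟨s - 1, by omega⟩
  obtain ⟨C, hC⟩ := orb_bdd (k := k) (by omega) (p := p) (by
    have e : ((k + 1 : ℕ) : ℝ) + 1 = (k : ℝ) + 2 := by push_cast; ring
    rw [← e]; exact hp) hp2
  refine ⟨C, fun l d hd B h1 h2 h3 h4 => ?_⟩
  exact hC _ B h1 h2 h3 (fun x hx => h4 x hx (-x) fun j => by simp) (orb_block hd h1 h3 h4)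

/-- Bodies of families of matrices invariant under left multiplication by orthogonal matrices. -/
theorem fin_tens {p : ℝ} (hp : 1 < p) (hp2 : p ≤ 2) :
    ∃ (n0 : ℕ) (C : ℝ≥0), ∀ (l : ℕ) (n m : Fin l → ℕ), (∀ j, n0 ≤ n j) →
      ∀ B : Set (∀ j, Fin (n j) × Fin (m j) → ℝ),
      IsCompact B → Convex ℝ B → (interior B).Nonempty → Linv B →
      MX.Bdd p (C : ℝ≥0∞) B := by
  obtain ⟨k, hk⟩ := exists_nat_gt (1 / (p - 1))
  have hp1 : 0 < p - 1 := by linarith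
  have hk0 : (0 : ℝ) < k := lt_trans (by positivity) hk
  have hk1 : 1 ≤ k := by exact_mod_cast hk0
  obtain ⟨D, J, hD, j1, j2, j3⟩ := exists_clifford k
  obtain ⟨C, hC⟩ := orb_bdd hk1 (p := p) (by
    rw [div_lt_iff₀ hp1] at hk
    have : 1 / ((k : ℝ) + 2) < p - 1 := by
      rw [div_lt_iff₀ (by linarith)]
      nlinarith
    linarith) hp2
  refine ⟨2 * D, C, fun l n m hn B h1 h2 h3 h4 => ?_⟩
  refine hC _ B h1 h2 h3 (fun x hx => ?_) (orb_tens hD j1 j2 j3 hn h1 h3 h4)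
  have h5 := h4 (fun j => -1) (fun j => by simp) x hx
  have h6 : (fun j z => ∑ i, (-1 : Matrix (Fin (n j)) (Fin (n j)) ℝ) z.1 i * x j (i, z.2)) =
      -x := by
    funext j z
    simp [Matrix.neg_apply, Matrix.one_apply]
  rw [h6] at h5
  exact h5

end Pool.Agent.CB
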