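import Pool.Agent.CB.MixDefs

/-!
# CB3-MixA: blocks with many rows and few columns

`f y = ∑ a, ⟨F a, y_a⟩`, `F a ∈ ℝ^n` (`a < m`; `F a i = f (Pi.single (i, a) 1)`), `y_a = (y (i, a))_i` the columns. Choose an orthonormal family
`w : Fin (k+1) × Fin m → EuclideanSpace ℝ (Fin n)` such that all `F a` lie in the span of the `w (0, b)`: the span of the `F a`
has dimension `≤ m`, is contained in a subspace of dimension `m ≤ n` (take an orthonormal basis of the span, extend it
to an orthonormal basis of the whole space, reindex by `Fin n`, and choose the first `(k+1) m` vectors so that those of the span come among the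
`w (0, b)`), `(k+1) m ≤ n`. Put `v i y = ∑ a, ∑ b, ⟨F a, w (0,b)⟩ * ⟨w (i,b), y_a⟩`; `v 0 = f`, `R = ∅`. For a unit vector `a` the
families `w (0, b)` and `∑ i, a i • w (i, b)` (`b < m`) are orthonormal, so there is a linear isometry `O` of
`EuclideanSpace ℝ (Fin n)` with `O (w (0,b)) = ∑ i, a i • w (i, b)` (`LinearIsometry.extend`, or extend both to orthonormal bases), and `U` = the matrix
of `O⁻¹ = Oᵀ`: `⟨w (0,b), U y_a⟩ = ⟨O (w (0,b)), y_a⟩`. (`k = 0` or `m = 0` are fine.)
-/

set_option autoImplicit false

open MeasureTheory Set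
open scoped ENNReal NNReal

namespace Pool.Agent.CB

private theorem mixA_expand {n m : ℕ} (w0 : Fin m → V n) (h0 : Orthonormal ℝ w0) (x : V n)
    (hx : x ∈ Submodule.span ℝ (Set.range w0)) : x = ∑ b, inner ℝ (w0 b) x • w0 b := by
  induction hx using Submodule.span_induction with
  | mem x hx =>
    obtain ⟨c, rfl⟩ := hx
    have h1 := orthonormal_iff_ite.1 h0
    simp only [h1]
    simp
  | zero => simp
  | add x y hx hy h1 h2 =>
    conv_lhs => rw [h1, h2]
    rw [← Finset.sum_add_distrib]
    refine Finset.sum_congr rfl fun b _ => ?_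
    rw [inner_add_right, add_smul]
  | smul c x hx h1 =>
    conv_lhs => rw [h1]
    rw [Finset.smul_sum]
    refine Finset.sum_congr rfl fun b _ => ?_
    rw [real_inner_smul_right, smul_smul]

private theorem mixA_family {k n m : ℕ} (h : (k + 1) * m ≤ n) (F : Fin m → V n) :
    ∃ w : Fin (k + 1) × Fin m → V n, Orthonormal ℝ w ∧
      ∀ a, F a = ∑ b, inner ℝ (w (0, b)) (F a) • w (0, b) := by
  let S : Submodule ℝ (V n) := Submodule.span ℝ (Set.range F)
  have hr : Module.finrank ℝ S ≤ m := by
    have h1 := finrank_range_le_card (R := ℝ) F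
    simpa [Set.finrank, S] using h1
  let b0 := stdOrthonormalBasis ℝ S
  let v : Fin n → V n := fun i =>
    if h : i.val < Module.finrank ℝ S then (b0 ⟨i.val, h⟩ : V n) else 0
  let s : Set (Fin n) := {i | i.val < Module.finrank ℝ S}
  have hv : Orthonormal ℝ (s.domRestrict v) := by
    have h1 : Orthonormal ℝ (fun j : Fin (Module.finrank ℝ S) => (b0 j : V n)) :=
      b0.orthonormal.comp_linearIsometry S.subtypeₗᵢ
    have h2 := h1.comp (fun i : s => (⟨i.1.val, i.2⟩ : Fin (Module.finrank ℝ S))) (by
      intro i j hij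
      have h3 := congrArg Fin.val hij
      exact Subtype.ext (Fin.ext h3))
    convert h2 using 1
    funext i
    have h4 : i.1.val < Module.finrank ℝ S := i.2
    simp only [Set.domRestrict, v, Function.comp, dif_pos h4]
  obtain ⟨b, hb⟩ := hv.exists_orthonormalBasis_extension_of_card_eq (by simp)
  let w : Fin (k + 1) × Fin m → V n := fun p => b (Fin.castLE h (finProdFinEquiv p))
  have hw : Orthonormal ℝ w :=
    b.orthonormal.comp _ ((Fin.castLE_injective h).comp finProdFinEquiv.injective)
  refine ⟨w, hw, fun a => ?_⟩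
  have hspan : ∀ x ∈ S, x ∈ Submodule.span ℝ (Set.range fun b => w (0, b)) := by
    intro x hx
    have h1 : x = ∑ j, b0.repr ⟨x, hx⟩ j • (b0 j : V n) := by
      have h2 := b0.sum_repr ⟨x, hx⟩
      have h3 := congrArg (fun z : S => (z : V n)) h2
      simp only [Submodule.coe_sum, Submodule.coe_smul] at h3
      exact h3.symm
    rw [h1]
    refine Submodule.sum_mem _ fun j _ => Submodule.smul_mem _ _ (Submodule.subset_span ?_)
    refine ⟨⟨j.val, lt_of_lt_of_le j.2 hr⟩, ?_⟩
    have hjn : j.val < n := by
      have h5 : j.val < m := lt_of_lt_of_le j.2 hr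
      have h6 : 1 * m ≤ (k + 1) * m := Nat.mul_le_mul_right m (by omega)
      omega
    have h4 : (Fin.castLE h (finProdFinEquiv ((0 : Fin (k + 1)), (⟨j.val, lt_of_lt_of_le j.2 hr⟩ : Fin m)))) =
        (⟨j.val, hjn⟩ : Fin n) := by
      ext
      simp [finProdFinEquiv]
    show b _ = _
    rw [h4, hb ⟨j.val, hjn⟩ j.2]
    simp only [v, dif_pos j.2]
  have h0 : Orthonormal ℝ (fun b => w (0, b)) := hw.comp _ (by
    intro i j hij
    simpa using hij)
  exact mixA_expand _ h0 _ (hspan _ (Submodule.subset_span ⟨a, rfl⟩))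

/-- Two orthonormal families are related by a linear isometry of the whole space. -/
private theorem mixA_iso {n m : ℕ} (hm : m ≤ n) (x y : Fin m → V n) (hx : Orthonormal ℝ x)
    (hy : Orthonormal ℝ y) : ∃ O : V n ≃ₗᵢ[ℝ] V n, ∀ b, O (x b) = y b := by
  have key : ∀ z : Fin m → V n, Orthonormal ℝ z →
      ∃ B : OrthonormalBasis (Fin n) ℝ (V n), ∀ b, B (Fin.castLE hm b) = z b := by
    intro z hz
    let v : Fin n → V n := fun i => if h : i.val < m then z ⟨i.val, h⟩ else 0
    let s : Set (Fin n) := {i | i.val < m}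
    have hv : Orthonormal ℝ (s.domRestrict v) := by
      have h2 := hz.comp (fun i : s => (⟨i.1.val, i.2⟩ : Fin m)) (by
        intro i j hij
        have h3 := congrArg Fin.val hij
        exact Subtype.ext (Fin.ext h3))
      convert h2 using 1
      funext i
      have h4 : i.1.val < m := i.2
      simp only [Set.domRestrict, v, Function.comp, dif_pos h4]
    obtain ⟨B, hB⟩ := hv.exists_orthonormalBasis_extension_of_card_eq (by simp)
    refine ⟨B, fun b => ?_⟩
    rw [hB _ (show (Fin.castLE hm b).val < m from b.2)]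
    have h5 : (Fin.castLE hm b).val < m := b.2
    simp only [v, dif_pos h5]
    rfl
  obtain ⟨B1, h1⟩ := key x hx
  obtain ⟨B2, h2⟩ := key y hy
  refine ⟨B1.equiv B2 (Equiv.refl _), fun b => ?_⟩
  rw [← h1, OrthonormalBasis.equiv_apply_basis]
  simpa using h2 b

theorem ld_A {k n m : ℕ} (h : (k + 1) * m ≤ n) (f : (Fin n × Fin m → ℝ) →ₗ[ℝ] ℝ) :
    ∃ v : Fin (k + 1) → (Fin n × Fin m → ℝ) →ₗ[ℝ] ℝ, LD k f ∅ v := by
  have hmn : m ≤ n := by
    have h6 : 1 * m ≤ (k + 1) * m := Nat.mul_le_mul_right m (by omega)
    omega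
  let F : Fin m → V n := fun a => WithLp.toLp 2 fun i => f (Pi.single (i, a) 1)
  obtain ⟨w, hw, hwF⟩ := mixA_family h F
  let col : Fin m → (Fin n × Fin m → ℝ) →ₗ[ℝ] V n := fun a =>
    (WithLp.linearEquiv 2 ℝ (Fin n → ℝ)).symm.toLinearMap ∘ₗ
      LinearMap.pi fun i => LinearMap.proj (i, a)
  have hcol : ∀ a y i, col a y i = y (i, a) := fun a y i => rfl
  let v : Fin (k + 1) → (Fin n × Fin m → ℝ) →ₗ[ℝ] ℝ := fun i =>
    ∑ a, ∑ b, inner ℝ (w (0, b)) (F a) • ((innerₛₗ ℝ (w (i, b))) ∘ₗ col a)
  have hv : ∀ i y, v i y = ∑ a, ∑ b, inner ℝ (w (0, b)) (F a) * inner ℝ (w (i, b)) (col a y) := by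
    intro i y
    simp [v, LinearMap.sum_apply]
  have hfF : ∀ y, f y = ∑ a, inner ℝ (F a) (col a y) := by
    intro y
    rw [LinearMap.pi_apply_eq_sum_univ f y, Fintype.sum_prod_type, Finset.sum_comm]
    refine Finset.sum_congr rfl fun a _ => ?_
    rw [PiLp.inner_apply]
    refine Finset.sum_congr rfl fun i _ => ?_
    have h3 : (fun j => if (i, a) = j then (1 : ℝ) else 0) = Pi.single (i, a) 1 := by
      ext z
      rw [Pi.single_apply]
      simp [eq_comm]
    rw [h3, hcol]
    simp only [F, smul_eq_mul, RCLike.inner_apply, conj_trivial]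
  have hv0 : ∀ y, v 0 y = f y := by
    intro y
    rw [hv, hfF]
    refine Finset.sum_congr rfl fun a _ => ?_
    conv_rhs => rw [hwF a, sum_inner]
    refine Finset.sum_congr rfl fun b _ => ?_
    rw [real_inner_smul_left]
  refine ⟨v, ?_, ?_⟩
  · intro y
    rw [hv0]
    congr 1
    funext z
    simp [rs]
  · intro a ha
    have ha2 : ∑ i, a i * a i = 1 := by
      have h2 : ‖a‖ ^ 2 = 1 := by rw [ha]; norm_num
      rw [EuclideanSpace.norm_sq_eq] at h2
      rw [← h2]
      refine Finset.sum_congr rfl fun i _ => ?_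
      rw [Real.norm_eq_abs, sq_abs, sq]
    have hw0 : Orthonormal ℝ (fun b => w (0, b)) := hw.comp _ (by
      intro i j hij
      simpa using hij)
    have hww := orthonormal_iff_ite.1 hw
    have hu : Orthonormal ℝ (fun b => ∑ i, a i • w (i, b)) := by
      rw [orthonormal_iff_ite]
      intro b c
      rw [sum_inner]
      have h1 : ∀ i, inner ℝ (a i • w (i, b)) (∑ j, a j • w (j, c)) =
          if b = c then a i * a i else 0 := by
        intro i
        rw [inner_sum]
        have h2 : ∀ j, inner ℝ (a i • w (i, b)) (a j • w (j, c)) =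
            if i = j then (if b = c then a i * a i else 0) else 0 := by
          intro j
          rw [real_inner_smul_left, real_inner_smul_right, hww]
          by_cases hij : i = j
          · subst hij
            by_cases hbc : b = c
            · subst hbc
              simp
            · simp [hbc]
          · simp [hij]
        rw [Finset.sum_congr rfl fun j _ => h2 j]
        simp
      rw [Finset.sum_congr rfl fun i _ => h1 i]
      by_cases hbc : b = c
      · simp [hbc, ha2]
      · simp [hbc]
    obtain ⟨O, hO⟩ := mixA_iso hmn _ _ hw0 hu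
    let e : Fin n → V n := fun i => EuclideanSpace.single i 1
    have he : ∀ (i : Fin n) (x : V n), inner ℝ (e i) x = x i := by
      intro i x
      show inner ℝ (EuclideanSpace.single i (1 : ℝ)) x = x i
      rw [EuclideanSpace.inner_single_left]
      simp
    let U : Matrix (Fin n) (Fin n) ℝ := Matrix.of fun i j => O (e i) j
    have hUU : U * U.transpose = 1 := by
      ext i j
      rw [Matrix.mul_apply, Matrix.one_apply]
      have h1 : inner ℝ (O (e i)) (O (e j)) = if i = j then (1 : ℝ) else 0 := by
        rw [O.inner_map_map, he]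
        simp [e]
      rw [← h1, PiLp.inner_apply]
      refine Finset.sum_congr rfl fun l _ => ?_
      simp only [U, Matrix.of_apply, Matrix.transpose_apply, RCLike.inner_apply, conj_trivial]
      ring
    have hcU : ∀ (c : Fin m) (y : Fin n × Fin m → ℝ), col c (lm U y) = O.symm (col c y) := by
      intro c y
      ext i
      rw [hcol]
      have h1 : (O.symm (col c y)) i = inner ℝ (O (e i)) (col c y) := by
        rw [← he, ← O.inner_map_map, O.apply_symm_apply]
      rw [h1, PiLp.inner_apply]
      show ∑ j, U i j * y (j, c) = _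
      refine Finset.sum_congr rfl fun l _ => ?_
      rw [hcol]
      simp only [U, Matrix.of_apply, RCLike.inner_apply, conj_trivial]
      ring
    refine ⟨U, mul_eq_one_comm.1 hUU, hUU, ?_, ?_⟩
    · intro y
      simp only [hv]
      simp only [Finset.mul_sum]
      rw [Finset.sum_comm]
      refine Finset.sum_congr rfl fun c _ => ?_
      rw [Finset.sum_comm]
      refine Finset.sum_congr rfl fun b _ => ?_
      have h1 : inner ℝ (w (0, b)) (col c (lm U y)) = ∑ i, a i * inner ℝ (w (i, b)) (col c y) := by
        rw [hcU, ← O.inner_map_map, O.apply_symm_apply, hO, sum_inner]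
        refine Finset.sum_congr rfl fun i _ => ?_
        rw [real_inner_smul_left]
      rw [h1, Finset.mul_sum]
      refine Finset.sum_congr rfl fun i _ => ?_
      ring
    · intro y
      have h1 : ∀ z : Fin n × Fin m → ℝ, rs ∅ z = 0 := by
        intro z
        funext t
        simp [rs]
      rw [h1, h1]

end Pool.Agent.CB
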