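import Pool.Agent.CB.MixDefs

/-!
# CB3-MixBB: blocks with many rows

Everything is in the proof of `orb_tens` in `TensR.lean` (copy the private lemmas `Mb_*`, `exists_rows`, `cliff_sq`, `cliff_orth`): with
`e : Fin n ≃ (Fin q × Fin D) ⊕ Fin r` from `exists_rows` (masses `w`), `R = {i | (e i).isRight}`,
`v 0 y = f (lm (Mb e 1 0) y)`, `v (i+1) y = f (lm (Mb e (J i) 0) y)`; `rs Rᶜ y = lm (Mb e 1 0) y` (`Mb_left`),
`rs R y = lm (Mb e 0 1) y` (`Mb_right`). For a unit vector `a`: `U = Mb e (a 0 • 1 + ∑ a (i+1) • J i) 1`.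
-/

set_option autoImplicit false

open MeasureTheory Set
open scoped ENNReal NNReal

namespace Pool.Agent.CB

section blocks

variable {q D r n : ℕ}

/-- block matrices -/
private noncomputable def Mb (e : Fin n ≃ (Fin q × Fin D) ⊕ Fin r)
    (A : Matrix (Fin D) (Fin D) ℝ) (s : ℝ) : Matrix (Fin n) (Fin n) ℝ :=
  (Matrix.fromBlocks (Matrix.kroneckerMap (fun a b => a * b) (1 : Matrix (Fin q) (Fin q) ℝ) A) 0 0
    (s • (1 : Matrix (Fin r) (Fin r) ℝ))).submatrix e e

private theorem Mb_mul (e : Fin n ≃ (Fin q × Fin D) ⊕ Fin r)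
    (A A' : Matrix (Fin D) (Fin D) ℝ) (s s' : ℝ) :
    Mb e A s * Mb e A' s' = Mb e (A * A') (s * s') := by
  unfold Mb
  rw [Matrix.submatrix_mul_equiv, Matrix.fromBlocks_multiply]
  congr 2
  · rw [← Matrix.mul_kronecker_mul]
    simp
  · simp
  · simp
  · simp only [Matrix.zero_mul, zero_add, smul_mul_smul_comm, Matrix.one_mul, mul_one]

private theorem Mb_transpose (e : Fin n ≃ (Fin q × Fin D) ⊕ Fin r)
    (A : Matrix (Fin D) (Fin D) ℝ) (s : ℝ) :
    (Mb e A s).transpose = Mb e A.transpose s := by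
  unfold Mb
  rw [Matrix.transpose_submatrix, Matrix.fromBlocks_transpose]
  congr 2
  · ext ⟨a, b⟩ ⟨a', b'⟩
    simp [Matrix.transpose_apply, Matrix.kroneckerMap_apply, Matrix.one_apply, eq_comm]
  · simp

private theorem Mb_one (e : Fin n ≃ (Fin q × Fin D) ⊕ Fin r) : Mb e 1 1 = 1 := by
  unfold Mb
  rw [one_smul]
  have : Matrix.kroneckerMap (fun a b : ℝ => a * b) (1 : Matrix (Fin q) (Fin q) ℝ)
      (1 : Matrix (Fin D) (Fin D) ℝ) = 1 := Matrix.one_kronecker_one
  rw [this, Matrix.fromBlocks_one, Matrix.submatrix_one_equiv]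

private theorem Mb_add (e : Fin n ≃ (Fin q × Fin D) ⊕ Fin r)
    (A A' : Matrix (Fin D) (Fin D) ℝ) : Mb e (A + A') 0 = Mb e A 0 + Mb e A' 0 := by
  ext i i'
  unfold Mb
  rcases h : e i with x | x <;> rcases h' : e i' with x' | x' <;>
    simp [Matrix.submatrix_apply, h, h', Matrix.kroneckerMap_apply, mul_add]

private theorem Mb_smul (e : Fin n ≃ (Fin q × Fin D) ⊕ Fin r) (c : ℝ)
    (A : Matrix (Fin D) (Fin D) ℝ) : Mb e (c • A) 0 = c • Mb e A 0 := by
  ext i i'
  unfold Mb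
  rcases h : e i with x | x <;> rcases h' : e i' with x' | x' <;>
    simp [Matrix.submatrix_apply, h, h', Matrix.kroneckerMap_apply, mul_left_comm]

private theorem Mb_zero (e : Fin n ≃ (Fin q × Fin D) ⊕ Fin r) : Mb e 0 0 = 0 := by
  have h := Mb_smul e 0 (0 : Matrix (Fin D) (Fin D) ℝ)
  rwa [zero_smul, zero_smul] at h

private theorem Mb_sum (e : Fin n ≃ (Fin q × Fin D) ⊕ Fin r) {ι : Type} (s : Finset ι)
    (A : ι → Matrix (Fin D) (Fin D) ℝ) : Mb e (∑ t ∈ s, A t) 0 = ∑ t ∈ s, Mb e (A t) 0 := by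
  classical
  induction s using Finset.induction_on with
  | empty => simp [Mb_zero]
  | insert t s ht ih => rw [Finset.sum_insert ht, Finset.sum_insert ht, Mb_add, ih]

private theorem Mb_left (e : Fin n ≃ (Fin q × Fin D) ⊕ Fin r) :
    Mb e 1 0 = Matrix.diagonal fun i => if (e i).isRight then 0 else 1 := by
  ext i i'
  unfold Mb
  by_cases hii : i = i'
  · subst hii
    rcases h : e i with x | x <;>
      simp [Matrix.submatrix_apply, h]
  · have h1 : e i ≠ e i' := fun h => hii (e.injective h)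
    rw [Matrix.diagonal_apply_ne _ hii]
    rcases h : e i with x | x <;> rcases h' : e i' with x' | x' <;>
      simp [Matrix.submatrix_apply, h, h']
    rw [h, h'] at h1
    exact Matrix.one_apply_ne fun h => h1 (by rw [h])

private theorem Mb_right (e : Fin n ≃ (Fin q × Fin D) ⊕ Fin r) :
    Mb e 0 1 = Matrix.diagonal fun i => if (e i).isRight then 1 else 0 := by
  ext i i'
  unfold Mb
  by_cases hii : i = i'
  · subst hii
    rcases h : e i with x | x <;>
      simp [Matrix.submatrix_apply, h]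
  · have h1 : e i ≠ e i' := fun h => hii (e.injective h)
    rw [Matrix.diagonal_apply_ne _ hii]
    rcases h : e i with x | x <;> rcases h' : e i' with x' | x' <;>
      simp [Matrix.submatrix_apply, h, h']
    rw [h, h'] at h1
    exact Matrix.one_apply_ne fun h => h1 (by rw [h])

end blocks

/-- the small rows -/
private theorem exists_rows {n D : ℕ} (hD : 1 ≤ D) (hn : 2 * D ≤ n) (w : Fin n → ℝ)
    (hw : ∀ i, 0 ≤ w i) : ∃ (q r : ℕ) (e : Fin n ≃ (Fin q × Fin D) ⊕ Fin r),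
      2 * ∑ i, (if (e i).isRight then 1 else 0) * w i ≤ ∑ i, w i := by
  classical
  obtain ⟨r, hr⟩ : ∃ r, r = n % D := ⟨_, rfl⟩
  obtain ⟨q, hq⟩ : ∃ q, q = n / D := ⟨_, rfl⟩
  have hqr : q * D + r = n := by rw [hq, hr]; exact Nat.div_add_mod' n D
  have hrD : r < D := hr ▸ Nat.mod_lt n (by omega)
  obtain ⟨R1, hR1, hc1⟩ := Finset.exists_subset_card_eq
    (s := (Finset.univ : Finset (Fin n))) (n := r) (by rw [Finset.card_univ, Fintype.card_fin]; omega)
  obtain ⟨R2, hR2, hc2⟩ := Finset.exists_subset_card_eq (s := R1ᶜ) (n := r) (by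
    rw [Finset.card_compl, Fintype.card_fin, hc1]; omega)
  have hdisj : Disjoint R1 R2 := by
    rw [Finset.disjoint_left]
    intro i h1 h2
    exact (Finset.mem_compl.1 (hR2 h2)) h1
  have hle : ∑ i ∈ R1, w i + ∑ i ∈ R2, w i ≤ ∑ i, w i := by
    rw [← Finset.sum_union hdisj]
    exact Finset.sum_le_sum_of_subset_of_nonneg (Finset.subset_univ _) fun i _ _ => hw i
  have hR : ∃ R : Finset (Fin n), R.card = r ∧ 2 * ∑ i ∈ R, w i ≤ ∑ i, w i := by
    rcases le_total (∑ i ∈ R1, w i) (∑ i ∈ R2, w i) with h | h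
    · exact ⟨R1, hc1, by linarith⟩
    · exact ⟨R2, hc2, by linarith⟩
  obtain ⟨R, hcR, hRw⟩ := hR
  have hcl : Fintype.card {i : Fin n // i ∉ R} = Fintype.card (Fin q × Fin D) := by
    rw [Fintype.card_prod, Fintype.card_fin, Fintype.card_fin, Fintype.card_subtype_compl,
      Fintype.card_fin, Fintype.card_coe, hcR]
    omega
  have hcr : Fintype.card {i : Fin n // ¬ i ∉ R} = Fintype.card (Fin r) := by
    rw [Fintype.card_fin, ← hcR, ← Fintype.card_coe R]
    exact Fintype.card_congr (Equiv.subtypeEquivRight fun i => not_not)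
  let e1 := Fintype.equivOfCardEq hcl
  let e2 := Fintype.equivOfCardEq hcr
  let e : Fin n ≃ (Fin q × Fin D) ⊕ Fin r :=
    (Equiv.sumCompl (fun i : Fin n => i ∉ R)).symm.trans (Equiv.sumCongr e1 e2)
  have he : ∀ i, (e i).isRight = true ↔ i ∈ R := by
    intro i
    by_cases hi : i ∈ R
    · have h1 : (Equiv.sumCompl (fun i : Fin n => i ∉ R)).symm i = Sum.inr ⟨i, not_not.2 hi⟩ :=
        Equiv.sumCompl_symm_apply_of_neg _
      simp [e, h1, hi]
    · have h1 : (Equiv.sumCompl (fun i : Fin n => i ∉ R)).symm i = Sum.inl ⟨i, hi⟩ :=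
        Equiv.sumCompl_symm_apply_of_pos _
      simp [e, h1, hi]
  refine ⟨q, r, e, ?_⟩
  have h3 : ∑ i, (if (e i).isRight then (1 : ℝ) else 0) * w i = ∑ i ∈ R, w i := by
    rw [← Finset.sum_subset (Finset.subset_univ R)]
    · refine Finset.sum_congr rfl fun i hi => ?_
      rw [if_pos ((he i).2 hi), one_mul]
    · intro i _ hi
      rw [if_neg (fun h => hi ((he i).1 h)), zero_mul]
  rw [h3]
  exact hRw

/-- Clifford identity -/
private theorem cliff_sq {k D : ℕ} {J : Fin k → Matrix (Fin D) (Fin D) ℝ}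
    (h2 : ∀ i, J i * J i = -1) (h3 : ∀ i j, i ≠ j → J i * J j = -(J j * J i)) (c : Fin k → ℝ) :
    (∑ i, c i • J i) * (∑ i, c i • J i) = (-∑ i, c i ^ 2) • (1 : Matrix (Fin D) (Fin D) ℝ) := by
  classical
  have e1 : (∑ i, c i • J i) * (∑ i, c i • J i) = ∑ i, ∑ j, (c i * c j) • (J i * J j) := by
    rw [Finset.sum_mul]
    refine Finset.sum_congr rfl fun i _ => ?_
    rw [Finset.mul_sum]
    refine Finset.sum_congr rfl fun j _ => ?_
    rw [smul_mul_assoc, mul_smul_comm, smul_smul]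
  have e2 : (∑ i, c i • J i) * (∑ i, c i • J i) = ∑ i, ∑ j, (c i * c j) • (J j * J i) := by
    rw [e1, Finset.sum_comm]
    refine Finset.sum_congr rfl fun i _ => Finset.sum_congr rfl fun j _ => ?_
    rw [mul_comm (c j)]
  have e3 : (2 : ℝ) • ((∑ i, c i • J i) * (∑ i, c i • J i)) =
      (2 : ℝ) • ((-∑ i, c i ^ 2) • (1 : Matrix (Fin D) (Fin D) ℝ)) := by
    rw [two_smul]
    nth_rewrite 1 [e1]
    rw [e2, ← Finset.sum_add_distrib]
    have : ∀ i, (∑ j, (c i * c j) • (J i * J j) + ∑ j, (c i * c j) • (J j * J i)) =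
        (-2 * c i ^ 2) • (1 : Matrix (Fin D) (Fin D) ℝ) := by
      intro i
      rw [← Finset.sum_add_distrib, Finset.sum_eq_single i]
      · rw [h2 i, ← smul_add, show (-1 : Matrix (Fin D) (Fin D) ℝ) + -1 = (-2 : ℝ) • 1 by
          rw [neg_smul, two_smul]; abel, smul_smul]
        congr 1
        ring
      · intro j _ hj
        rw [h3 i j (Ne.symm hj), smul_neg, neg_add_cancel]
      · intro h
        exact absurd (Finset.mem_univ _) h
    rw [Finset.sum_congr rfl fun i _ => this i, ← Finset.sum_smul, smul_smul]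
    congr 1
    rw [← Finset.mul_sum]
    ring
  have h4 := congrArg (fun M => (1 / 2 : ℝ) • M) e3
  simpa [smul_smul] using h4

private theorem cliff_orth {k D : ℕ} {J : Fin k → Matrix (Fin D) (Fin D) ℝ}
    (h1 : ∀ i, (J i).transpose = -J i) (h2 : ∀ i, J i * J i = -1)
    (h3 : ∀ i j, i ≠ j → J i * J j = -(J j * J i)) (b : ℝ) (c : Fin k → ℝ)
    (hb : b ^ 2 + ∑ i, c i ^ 2 = 1) :
    (b • (1 : Matrix (Fin D) (Fin D) ℝ) + ∑ i, c i • J i).transpose *
        (b • (1 : Matrix (Fin D) (Fin D) ℝ) + ∑ i, c i • J i) = 1 ∧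
      (b • (1 : Matrix (Fin D) (Fin D) ℝ) + ∑ i, c i • J i) *
        (b • (1 : Matrix (Fin D) (Fin D) ℝ) + ∑ i, c i • J i).transpose = 1 := by
  have ht : (b • (1 : Matrix (Fin D) (Fin D) ℝ) + ∑ i, c i • J i).transpose =
      b • 1 - ∑ i, c i • J i := by
    rw [Matrix.transpose_add, Matrix.transpose_smul, Matrix.transpose_one, Matrix.transpose_sum,
      sub_eq_add_neg, ← Finset.sum_neg_distrib]
    congr 1
    refine Finset.sum_congr rfl fun i _ => ?_
    rw [Matrix.transpose_smul, h1 i, smul_neg]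
  have hS := cliff_sq h2 h3 c
  obtain ⟨S, hSd⟩ : ∃ S, S = ∑ i, c i • J i := ⟨_, rfl⟩
  rw [ht]
  rw [← hSd] at hS ⊢
  have hc : (b ^ 2) • (1 : Matrix (Fin D) (Fin D) ℝ) - (-∑ i, c i ^ 2) • 1 = 1 := by
    rw [← sub_smul, sub_neg_eq_add, hb, one_smul]
  constructor
  · have : (b • (1 : Matrix (Fin D) (Fin D) ℝ) - S) * (b • 1 + S) =
        (b ^ 2) • 1 - S * S := by
      rw [sub_mul, mul_add, mul_add, smul_mul_smul_comm, smul_mul_assoc, mul_smul_comm, one_mul,
        one_mul, mul_one, pow_two]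
      abel
    rw [this, hS, hc]
  · have : (b • (1 : Matrix (Fin D) (Fin D) ℝ) + S) * (b • 1 - S) =
        (b ^ 2) • 1 - S * S := by
      rw [add_mul, mul_sub, mul_sub, smul_mul_smul_comm, smul_mul_assoc, mul_smul_comm, one_mul,
        one_mul, mul_one, pow_two]
      abel
    rw [this, hS, hc]

section lmL

variable {n m : ℕ}

/-- left multiplication as a linear map -/
private noncomputable def lmL (m : ℕ) (U : Matrix (Fin n) (Fin n) ℝ) :
    (Fin n × Fin m → ℝ) →ₗ[ℝ] (Fin n × Fin m → ℝ) where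
  toFun y := lm U y
  map_add' x y := by
    funext z
    simp only [lm, Pi.add_apply, mul_add, Finset.sum_add_distrib]
  map_smul' c x := by
    funext z
    simp only [lm, Pi.smul_apply, smul_eq_mul, RingHom.id_apply, Finset.mul_sum]
    exact Finset.sum_congr rfl fun i _ => by ring

private theorem lmL_apply (U : Matrix (Fin n) (Fin n) ℝ) (y : Fin n × Fin m → ℝ) :
    lmL m U y = lm U y := rfl

private theorem lm_mul (U U' : Matrix (Fin n) (Fin n) ℝ) (y : Fin n × Fin m → ℝ) :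
    lm U (lm U' y) = lm (U * U') y := by
  funext z
  simp only [lm, Matrix.mul_apply, Finset.sum_mul, Finset.mul_sum]
  rw [Finset.sum_comm]
  exact Finset.sum_congr rfl fun i _ => Finset.sum_congr rfl fun i' _ => by ring

private theorem lm_add (U U' : Matrix (Fin n) (Fin n) ℝ) (y : Fin n × Fin m → ℝ) :
    lm (U + U') y = lm U y + lm U' y := by
  funext z
  simp only [lm, Pi.add_apply, Matrix.add_apply, add_mul, Finset.sum_add_distrib]

private theorem lm_smul (c : ℝ) (U : Matrix (Fin n) (Fin n) ℝ) (y : Fin n × Fin m → ℝ) :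
    lm (c • U) y = c • lm U y := by
  funext z
  simp only [lm, Pi.smul_apply, Matrix.smul_apply, smul_eq_mul, Finset.mul_sum]
  exact Finset.sum_congr rfl fun i _ => by ring

private theorem lm_sum {ι : Type} (s : Finset ι) (U : ι → Matrix (Fin n) (Fin n) ℝ)
    (y : Fin n × Fin m → ℝ) : lm (∑ t ∈ s, U t) y = ∑ t ∈ s, lm (U t) y := by
  funext z
  simp only [lm, Finset.sum_apply, Matrix.sum_apply, Finset.sum_mul]
  rw [Finset.sum_comm]

private theorem lm_diag (c : Fin n → ℝ) (y : Fin n × Fin m → ℝ) (z : Fin n × Fin m) :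
    lm (Matrix.diagonal c) y z = c z.1 * y z := by
  simp [lm, Matrix.diagonal_apply]

end lmL

theorem ld_B {k D : ℕ} {J : Fin k → Matrix (Fin D) (Fin D) ℝ} (hD : 1 ≤ D)
    (h1 : ∀ i, (J i).transpose = -J i) (h2 : ∀ i, J i * J i = -1)
    (h3 : ∀ i j, i ≠ j → J i * J j = -(J j * J i)) {n m : ℕ} (hn : 2 * D ≤ n)
    (f : (Fin n × Fin m → ℝ) →ₗ[ℝ] ℝ) (w : Fin n → ℝ) (hw : ∀ i, 0 ≤ w i) :
    ∃ (R : Finset (Fin n)) (v : Fin (k + 1) → (Fin n × Fin m → ℝ) →ₗ[ℝ] ℝ),
      LD k f R v ∧ 2 * ∑ i ∈ R, w i ≤ ∑ i, w i := by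
  classical
  obtain ⟨q, r, e, he⟩ := exists_rows hD hn w hw
  obtain ⟨R, hR⟩ : ∃ R : Finset (Fin n), R = Finset.univ.filter fun i => (e i).isRight = true :=
    ⟨_, rfl⟩
  have hmem : ∀ i, i ∈ R ↔ (e i).isRight = true := by
    intro i
    rw [hR, Finset.mem_filter]
    exact ⟨fun h => h.2, fun h => ⟨Finset.mem_univ _, h⟩⟩
  have hrs1 : ∀ y : Fin n × Fin m → ℝ, rs Rᶜ y = lm (Mb e 1 0) y := by
    intro y
    funext z
    rw [Mb_left, lm_diag]
    unfold rs
    by_cases h : (e z.1).isRight = true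
    · rw [if_neg (fun h' => (Finset.mem_compl.1 h') ((hmem _).2 h)), if_pos h, zero_mul]
    · rw [if_pos (Finset.mem_compl.2 fun h' => h ((hmem _).1 h')), if_neg h, one_mul]
  have hrs2 : ∀ y : Fin n × Fin m → ℝ, rs R y = lm (Mb e 0 1) y := by
    intro y
    funext z
    rw [Mb_right, lm_diag]
    unfold rs
    by_cases h : (e z.1).isRight = true
    · rw [if_pos ((hmem _).2 h), if_pos h, one_mul]
    · rw [if_neg (fun h' => h ((hmem _).1 h')), if_neg h, zero_mul]
  refine ⟨R, fun i => Fin.cases (f ∘ₗ lmL m (Mb e 1 0)) (fun i' => f ∘ₗ lmL m (Mb e (J i') 0)) i,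
    ⟨?_, ?_⟩, ?_⟩
  · intro y
    simp only [Fin.cases_zero, LinearMap.comp_apply, lmL_apply]
    rw [hrs1]
  · intro a ha
    obtain ⟨B, hB⟩ : ∃ B : Matrix (Fin D) (Fin D) ℝ,
        B = a 0 • (1 : Matrix (Fin D) (Fin D) ℝ) + ∑ i : Fin k, a i.succ • J i := ⟨_, rfl⟩
    have ha2 : a 0 ^ 2 + ∑ i : Fin k, a i.succ ^ 2 = 1 := by
      have h := EuclideanSpace.real_norm_sq_eq a
      rw [ha, one_pow, Fin.sum_univ_succ] at h
      exact h.symm
    obtain ⟨hB1, hB2⟩ := cliff_orth h1 h2 h3 (a 0) (fun i => a i.succ) ha2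
    rw [← hB] at hB1 hB2
    refine ⟨Mb e B 1, ?_, ?_, ?_, ?_⟩
    · rw [Mb_transpose, Mb_mul, hB1, one_mul, Mb_one]
    · rw [Mb_transpose, Mb_mul, hB2, one_mul, Mb_one]
    · intro y
      rw [Fin.sum_univ_succ]
      simp only [Fin.cases_zero, Fin.cases_succ, LinearMap.comp_apply, lmL_apply]
      rw [lm_mul]
      have e1 : Mb e 1 0 * Mb e B 1 =
          a 0 • Mb e 1 0 + ∑ i : Fin k, a i.succ • Mb e (J i) 0 := by
        rw [Mb_mul, one_mul, zero_mul, hB, Mb_add, Mb_smul, Mb_sum]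
        congr 1
        exact Finset.sum_congr rfl fun i _ => Mb_smul _ _ _
      rw [e1, lm_add, lm_smul, lm_sum, map_add, map_smul, map_sum, smul_eq_mul]
      congr 1
      refine Finset.sum_congr rfl fun i _ => ?_
      rw [lm_smul, map_smul, smul_eq_mul]
    · intro y
      rw [hrs2, hrs2, lm_mul, Mb_mul, zero_mul, one_mul]
  · have h4 : ∑ i, (if (e i).isRight then (1 : ℝ) else 0) * w i = ∑ i ∈ R, w i := by
      rw [← Finset.sum_subset (Finset.subset_univ R)]
      · refine Finset.sum_congr rfl fun i hi => ?_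
        rw [if_pos ((hmem i).1 hi), one_mul]
      · intro i _ hi
        rw [if_neg (fun h => hi ((hmem i).2 h)), zero_mul]
    rw [← h4]
    exact he

end Pool.Agent.CB
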