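import Pool.Agent.CB.MixDefs

/-!
# CB3-MixCC: the orbit property from local data

Copy the proof of `orb_tens` in `TensR.lean` (with its private lemmas `actL`, `dg`, ...): `f` a functional of variance `1`,
`w ρ = ∫ f (dg (Pi.single ρ 1) y)^2`, `∑ w = 1`, `hcross`, `hmass`. For each block `j` the functional
`f j = f ∘ (inclusion of the block j)` (`LinearMap.single ℝ _ j`), `f y = ∑ j, f j (y j)`; `H` with the masses `w ⟨j, i⟩` gives `R j`, `v j`.
`c ρ = if ρ.2 ∈ R ρ.1 then 1 else 0`, `ζ = f ∘ dg c`, `κ` as in `orb_tens`, `v i y = κ⁻¹ * ∑ j, v j i (y j)`;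
`v 0 = κ⁻¹ • f ∘ dg (1 - c)` by `LD.zero`. `rot`: for a unit vector `a` take `U j` from `LD.rot` for every block and `g = actL U`.
-/

set_option autoImplicit false

open MeasureTheory Set
open scoped ENNReal NNReal

namespace Pool.Agent.CB

section act

variable {l : ℕ} {n m : Fin l → ℕ}

/-- the action of families of matrices -/
private noncomputable def actL (O : ∀ j, Matrix (Fin (n j)) (Fin (n j)) ℝ) :
    (∀ j, Fin (n j) × Fin (m j) → ℝ) →ₗ[ℝ] (∀ j, Fin (n j) × Fin (m j) → ℝ) where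
  toFun x := fun j z => ∑ i, O j z.1 i * x j (i, z.2)
  map_add' x y := by
    funext j z
    simp only [Pi.add_apply, mul_add, Finset.sum_add_distrib]
  map_smul' c x := by
    funext j z
    simp only [Pi.smul_apply, smul_eq_mul, RingHom.id_apply, Finset.mul_sum]
    exact Finset.sum_congr rfl fun i _ => by ring

private theorem actL_apply (O : ∀ j, Matrix (Fin (n j)) (Fin (n j)) ℝ)
    (x : ∀ j, Fin (n j) × Fin (m j) → ℝ) :
    actL O x = fun j z => ∑ i, O j z.1 i * x j (i, z.2) := rfl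

private theorem actL_mul (O O' : ∀ j, Matrix (Fin (n j)) (Fin (n j)) ℝ)
    (x : ∀ j, Fin (n j) × Fin (m j) → ℝ) :
    actL O (actL O' x) = actL (fun j => O j * O' j) x := by
  funext j z
  simp only [actL_apply, Matrix.mul_apply, Finset.sum_mul, Finset.mul_sum]
  rw [Finset.sum_comm]
  exact Finset.sum_congr rfl fun i _ => Finset.sum_congr rfl fun i' _ => by ring

private theorem actL_one (x : ∀ j, Fin (n j) × Fin (m j) → ℝ) :
    actL (fun j => (1 : Matrix (Fin (n j)) (Fin (n j)) ℝ)) x = x := by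
  funext j z
  simp [actL_apply, Matrix.one_apply]

private theorem actL_congr {O O' : ∀ j, Matrix (Fin (n j)) (Fin (n j)) ℝ}
    (h : ∀ j, O j = O' j) (x : ∀ j, Fin (n j) × Fin (m j) → ℝ) : actL O x = actL O' x := by
  rw [funext h]

private theorem actL_add (O O' : ∀ j, Matrix (Fin (n j)) (Fin (n j)) ℝ)
    (x : ∀ j, Fin (n j) × Fin (m j) → ℝ) :
    actL (fun j => O j + O' j) x = actL O x + actL O' x := by
  funext j z
  simp only [actL_apply, Pi.add_apply, Matrix.add_apply, add_mul, Finset.sum_add_distrib]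

private theorem actL_smul (c : ℝ) (O : ∀ j, Matrix (Fin (n j)) (Fin (n j)) ℝ)
    (x : ∀ j, Fin (n j) × Fin (m j) → ℝ) :
    actL (fun j => c • O j) x = c • actL O x := by
  funext j z
  simp only [actL_apply, Pi.smul_apply, Matrix.smul_apply, smul_eq_mul, Finset.mul_sum]
  exact Finset.sum_congr rfl fun i _ => by ring

private theorem actL_sum {ι : Type} (s : Finset ι)
    (O : ι → ∀ j, Matrix (Fin (n j)) (Fin (n j)) ℝ)
    (x : ∀ j, Fin (n j) × Fin (m j) → ℝ) :
    actL (fun j => ∑ t ∈ s, O t j) x = ∑ t ∈ s, actL (O t) x := by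
  funext j z
  simp only [actL_apply, Finset.sum_apply, Matrix.sum_apply, Finset.sum_mul]
  rw [Finset.sum_comm]

/-- diagonal families -/
private noncomputable def dg (c : (Σ j, Fin (n j)) → ℝ) :
    (∀ j, Fin (n j) × Fin (m j) → ℝ) →ₗ[ℝ] (∀ j, Fin (n j) × Fin (m j) → ℝ) :=
  actL fun j => Matrix.diagonal fun i => c ⟨j, i⟩

private theorem dg_apply (c : (Σ j, Fin (n j)) → ℝ) (x : ∀ j, Fin (n j) × Fin (m j) → ℝ)
    (j : Fin l) (z : Fin (n j) × Fin (m j)) : dg c x j z = c ⟨j, z.1⟩ * x j z := by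
  simp [dg, actL_apply, Matrix.diagonal_apply]

private theorem dg_dg (c c' : (Σ j, Fin (n j)) → ℝ) (x : ∀ j, Fin (n j) × Fin (m j) → ℝ) :
    dg c (dg c' x) = dg (c * c') x := by
  funext j z
  simp only [dg_apply, Pi.mul_apply, mul_assoc]

private theorem dg_sum (c : (Σ j, Fin (n j)) → ℝ) (x : ∀ j, Fin (n j) × Fin (m j) → ℝ) :
    dg c x = ∑ ρ, c ρ • dg (Pi.single ρ 1) x := by
  classical
  funext j z
  simp only [Finset.sum_apply, Pi.smul_apply, smul_eq_mul, dg_apply, Pi.single_apply]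
  rw [Finset.sum_eq_single (⟨j, z.1⟩ : Σ j, Fin (n j))]
  · simp
  · intro ρ _ hρ
    rw [if_neg (Ne.symm hρ)]
    ring
  · intro h
    exact absurd (Finset.mem_univ _) h

end act

theorem orb_mix {k l : ℕ} {n m : Fin l → ℕ}
    (H : ∀ j, ∀ (f : (Fin (n j) × Fin (m j) → ℝ) →ₗ[ℝ] ℝ) (w : Fin (n j) → ℝ),
      (∀ i, 0 ≤ w i) → ∃ (R : Finset (Fin (n j)))
        (v : Fin (k + 1) → (Fin (n j) × Fin (m j) → ℝ) →ₗ[ℝ] ℝ),
        LD k f R v ∧ 2 * ∑ i ∈ R, w i ≤ ∑ i, w i)
    {K : Set (∀ j, Fin (n j) × Fin (m j) → ℝ)} (hK : IsCompact K) (hi : (interior K).Nonempty)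
    (hr : Linv K) : OrbE k (MX.unif K) := by
  classical
  intro f hf
  obtain ⟨μ, hμ⟩ : ∃ μ, μ = MX.unif K := ⟨_, rfl⟩
  have hpres : ∀ O O' : ∀ j, Matrix (Fin (n j)) (Fin (n j)) ℝ,
      (∀ j, (O j).transpose * O j = 1) → (∀ j, (O' j).transpose * O' j = 1) →
      (∀ j, O j * O' j = 1) → (MX.unif K).map (actL O) = MX.unif K := by
    intro O O' hO hO' hOO
    refine unif_pres hK hi (actL O) (actL O') (fun x => ?_) (fun x hx => hr O hO x hx)
      (fun x hx => hr O' hO' x hx)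
    rw [actL_mul, actL_congr hOO, actL_one]
  have hint : ∀ h : (∀ j, Fin (n j) × Fin (m j) → ℝ) →ₗ[ℝ] ℝ,
      Integrable (fun y => h y ^ 2) (MX.unif K) := fun h => integrable_sq hK hi h
  have hint2 : ∀ h h' : (∀ j, Fin (n j) × Fin (m j) → ℝ) →ₗ[ℝ] ℝ,
      Integrable (fun y => h y * h' y) (MX.unif K) := by
    intro h h'
    have e : (fun y => h y * h' y) = fun y => (1 / 4 : ℝ) * ((h + h') y ^ 2 - (h - h') y ^ 2) := by
      funext y
      rw [LinearMap.add_apply, LinearMap.sub_apply]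
      ring
    rw [e]
    exact ((hint _).sub (hint _)).const_mul _
  have hinv : ∀ (g : (∀ j, Fin (n j) × Fin (m j) → ℝ) →ₗ[ℝ] (∀ j, Fin (n j) × Fin (m j) → ℝ))
      (_ : (MX.unif K).map g = MX.unif K)
      (h h' : (∀ j, Fin (n j) × Fin (m j) → ℝ) →ₗ[ℝ] ℝ),
      ∫ y, h (g y) * h' (g y) ∂(MX.unif K) = ∫ y, h y * h' y ∂(MX.unif K) := by
    intro g hg h h'
    conv_rhs => rw [← hg]
    rw [integral_map]
    · exact (LinearMap.continuous_of_finiteDimensional g).measurable.aemeasurable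
    · exact ((LinearMap.continuous_of_finiteDimensional h).mul
        (LinearMap.continuous_of_finiteDimensional h')).aestronglyMeasurable
  -- reflections
  have hcross : ∀ ρ σ : Σ j, Fin (n j), ρ ≠ σ →
      ∫ y, f (dg (Pi.single ρ 1) y) * f (dg (Pi.single σ 1) y) ∂(MX.unif K) = 0 := by
    intro ρ σ hρσ
    obtain ⟨c, hc⟩ : ∃ c : (Σ j, Fin (n j)) → ℝ, c = 1 - (2 : ℝ) • Pi.single ρ 1 := ⟨_, rfl⟩
    have hcc : ∀ τ, c τ * c τ = 1 := by
      intro τ
      rw [hc]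
      by_cases h : τ = ρ
      · subst h; simp; norm_num
      · simp [Pi.single_apply, h]
    have hO : ∀ j, (Matrix.diagonal fun i => c ⟨j, i⟩ : Matrix (Fin (n j)) (Fin (n j)) ℝ) *
        Matrix.diagonal (fun i => c ⟨j, i⟩) = 1 := by
      intro j
      rw [Matrix.diagonal_mul_diagonal, ← Matrix.diagonal_one]
      congr 1
      funext i
      exact hcc _
    have hg : (MX.unif K).map (dg (m := m) c) = MX.unif K := by
      refine hpres _ (fun j => Matrix.diagonal fun i => c ⟨j, i⟩) ?_ ?_ ?_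
      · intro j
        rw [Matrix.diagonal_transpose]
        exact hO j
      · intro j
        rw [Matrix.diagonal_transpose]
        exact hO j
      · exact hO
    have h1 := hinv _ hg (f ∘ₗ dg (Pi.single ρ 1)) (f ∘ₗ dg (Pi.single σ 1))
    have e1 : ∀ y : (∀ j, Fin (n j) × Fin (m j) → ℝ),
        dg (Pi.single ρ 1) (dg c y) = -dg (Pi.single ρ 1) y := by
      intro y
      rw [dg_dg]
      funext j z
      rw [Pi.neg_apply, Pi.neg_apply, dg_apply, dg_apply, Pi.mul_apply, hc]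
      by_cases h : (⟨j, z.1⟩ : Σ j, Fin (n j)) = ρ
      · rw [← h]; simp; ring
      · simp [Pi.single_apply, h]
    have e2 : ∀ y : (∀ j, Fin (n j) × Fin (m j) → ℝ),
        dg (Pi.single σ 1) (dg c y) = dg (Pi.single σ 1) y := by
      intro y
      rw [dg_dg]
      funext j z
      rw [dg_apply, dg_apply, Pi.mul_apply, hc]
      by_cases h : (⟨j, z.1⟩ : Σ j, Fin (n j)) = σ
      · have h' : (⟨j, z.1⟩ : Σ j, Fin (n j)) ≠ ρ := fun h'' => hρσ (h''.symm.trans h)
        simp [Pi.single_apply, h, h']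
        rw [if_neg (fun h'' => hρσ h''.symm)]
        simp
      · simp [Pi.single_apply, h]
    simp only [LinearMap.comp_apply, e1, e2, map_neg, neg_mul] at h1
    rw [integral_neg] at h1
    linarith
  obtain ⟨w, hw⟩ : ∃ w : (Σ j, Fin (n j)) → ℝ,
      w = fun ρ => ∫ y, f (dg (Pi.single ρ 1) y) ^ 2 ∂(MX.unif K) := ⟨_, rfl⟩
  have hw0 : ∀ ρ, 0 ≤ w ρ := by
    intro ρ
    rw [hw]
    exact integral_nonneg fun y => sq_nonneg _
  have hmass : ∀ c : (Σ j, Fin (n j)) → ℝ,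
      ∫ y, f (dg c y) ^ 2 ∂(MX.unif K) = ∑ ρ, c ρ ^ 2 * w ρ := by
    intro c
    have e1 : ∀ y, f (dg c y) ^ 2 = ∑ ρ, ∑ σ, (c ρ * c σ) *
        (f (dg (Pi.single ρ 1) y) * f (dg (Pi.single σ 1) y)) := by
      intro y
      rw [dg_sum, map_sum, pow_two, Finset.sum_mul]
      refine Finset.sum_congr rfl fun ρ _ => ?_
      rw [Finset.mul_sum]
      refine Finset.sum_congr rfl fun σ _ => ?_
      rw [map_smul, map_smul, smul_eq_mul, smul_eq_mul]
      ring
    have hI : ∀ ρ σ : Σ j, Fin (n j), Integrable (fun y => (c ρ * c σ) *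
        (f (dg (Pi.single ρ 1) y) * f (dg (Pi.single σ 1) y))) (MX.unif K) := by
      intro ρ σ
      exact (hint2 (f ∘ₗ dg (Pi.single ρ 1)) (f ∘ₗ dg (Pi.single σ 1))).const_mul _
    simp only [e1]
    rw [integral_finsetSum _ fun ρ _ => integrable_finsetSum _ fun σ _ => hI ρ σ]
    refine Finset.sum_congr rfl fun ρ _ => ?_
    rw [integral_finsetSum _ fun σ _ => hI ρ σ, Finset.sum_eq_single ρ]
    · rw [integral_const_mul, hw]
      simp only [← pow_two]
    · intro σ _ hσ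
      rw [integral_const_mul, hcross ρ σ (Ne.symm hσ), mul_zero]
    · intro h
      exact absurd (Finset.mem_univ _) h
  have hsum1 : ∑ ρ, w ρ = 1 := by
    have h := hmass 1
    have e1 : ∀ y : (∀ j, Fin (n j) × Fin (m j) → ℝ), dg 1 y = y := by
      intro y
      funext j z
      rw [dg_apply, Pi.one_apply, one_mul]
    simp only [e1, hf, Pi.one_apply, one_pow, one_mul] at h
    exact h.symm
  -- the local data
  choose R v hLD hRw using fun j => H j (f ∘ₗ LinearMap.single ℝ (fun j => Fin (n j) × Fin (m j) → ℝ) j)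
    (fun i => w ⟨j, i⟩) fun i => hw0 _
  obtain ⟨c, hc⟩ : ∃ c : (Σ j, Fin (n j)) → ℝ,
      c = fun ρ => if ρ.2 ∈ R ρ.1 then 1 else 0 := ⟨_, rfl⟩
  have hc2 : ∀ ρ, c ρ ^ 2 = c ρ := by
    intro ρ
    rw [hc]
    dsimp only
    split_ifs <;> norm_num
  have hcz : 2 * ∑ ρ, c ρ * w ρ ≤ 1 := by
    rw [← hsum1, Fintype.sum_sigma, Fintype.sum_sigma, Finset.mul_sum]
    refine Finset.sum_le_sum fun j _ => ?_
    have e1 : ∑ i, c ⟨j, i⟩ * w ⟨j, i⟩ = ∑ i ∈ R j, w ⟨j, i⟩ := by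
      rw [hc, ← Finset.sum_subset (Finset.subset_univ (R j))]
      · refine Finset.sum_congr rfl fun i hi => ?_
        dsimp only
        rw [if_pos hi, one_mul]
      · intro i _ hi
        dsimp only
        rw [if_neg hi, zero_mul]
    rw [e1]
    exact hRw j
  obtain ⟨ζ, hζ⟩ : ∃ ζ : (∀ j, Fin (n j) × Fin (m j) → ℝ) →ₗ[ℝ] ℝ, ζ = f ∘ₗ dg c := ⟨_, rfl⟩
  obtain ⟨f', hf'⟩ : ∃ f' : (∀ j, Fin (n j) × Fin (m j) → ℝ) →ₗ[ℝ] ℝ, f' = f ∘ₗ dg (1 - c) :=
    ⟨_, rfl⟩
  have hζ2 : ∫ y, ζ y ^ 2 ∂(MX.unif K) = ∑ ρ, c ρ * w ρ := by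
    rw [hζ]
    simp only [LinearMap.comp_apply]
    rw [hmass c]
    exact Finset.sum_congr rfl fun ρ _ => by rw [hc2]
  have hf2 : ∫ y, f' y ^ 2 ∂(MX.unif K) = 1 - ∑ ρ, c ρ * w ρ := by
    rw [hf']
    simp only [LinearMap.comp_apply]
    rw [hmass (1 - c), ← hsum1, ← Finset.sum_sub_distrib]
    refine Finset.sum_congr rfl fun ρ _ => ?_
    have : (1 - c) ρ ^ 2 = 1 - c ρ := by
      rw [Pi.sub_apply, Pi.one_apply]
      have := hc2 ρ
      nlinarith
    rw [this]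
    ring
  have hζ0 : 0 ≤ ∑ ρ, c ρ * w ρ := by
    rw [← hζ2]
    exact integral_nonneg fun y => sq_nonneg _
  obtain ⟨κ, hκ⟩ : ∃ κ, κ = Real.sqrt (1 - ∑ ρ, c ρ * w ρ) := ⟨_, rfl⟩
  have hκ2 : κ ^ 2 = 1 - ∑ ρ, c ρ * w ρ := by
    rw [hκ, Real.sq_sqrt (by linarith)]
  have hκ0 : 0 ≤ κ := by rw [hκ]; exact Real.sqrt_nonneg _
  have hκ1 : 1 / 2 ≤ κ := by nlinarith
  have hκne : κ ≠ 0 := by linarith
  -- block decomposition of functionals
  have hsingle : ∀ y : (∀ j, Fin (n j) × Fin (m j) → ℝ),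
      f y = ∑ j, (f ∘ₗ LinearMap.single ℝ (fun j => Fin (n j) × Fin (m j) → ℝ) j) (y j) := by
    intro y
    conv_lhs => rw [← Finset.univ_sum_single y]
    rw [map_sum]
    rfl
  have hdc : ∀ y : (∀ j, Fin (n j) × Fin (m j) → ℝ), ∀ j, dg c y j = rs (R j) (y j) := by
    intro y j
    funext z
    rw [dg_apply, hc]
    unfold rs
    dsimp only
    split_ifs <;> simp
  have hdc' : ∀ y : (∀ j, Fin (n j) × Fin (m j) → ℝ), ∀ j,
      dg (1 - c) y j = rs (R j)ᶜ (y j) := by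
    intro y j
    funext z
    rw [dg_apply, Pi.sub_apply, Pi.one_apply, hc]
    unfold rs
    dsimp only
    by_cases h : z.1 ∈ R j
    · rw [if_pos h, if_neg (fun h' => (Finset.mem_compl.1 h') h), sub_self, zero_mul]
    · rw [if_neg h, if_pos (Finset.mem_compl.2 h), sub_zero, one_mul]
  have hv0 : ∀ y : (∀ j, Fin (n j) × Fin (m j) → ℝ),
      ∑ j, v j 0 (y j) = f (dg (1 - c) y) := by
    intro y
    rw [hsingle (dg (1 - c) y)]
    refine Finset.sum_congr rfl fun j _ => ?_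
    rw [hdc', (hLD j).zero]
  refine ⟨κ, fun i => κ⁻¹ • ∑ j, (v j i) ∘ₗ LinearMap.proj j, ζ, ?_⟩
  have hvv : ∀ (i : Fin (k + 1)) (y : (∀ j, Fin (n j) × Fin (m j) → ℝ)),
      (κ⁻¹ • ∑ j, (v j i) ∘ₗ LinearMap.proj (R := ℝ) (φ := fun j => Fin (n j) × Fin (m j) → ℝ) j) y =
        κ⁻¹ * ∑ j, v j i (y j) := by
    intro i y
    rw [LinearMap.smul_apply, LinearMap.sum_apply, smul_eq_mul]
    rfl
  constructor
  · exact hκ1
  · nlinarith
  · intro y
    rw [hvv, hv0, ← mul_assoc, mul_inv_cancel₀ hκne, one_mul, hζ, LinearMap.comp_apply, ← map_add]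
    congr 1
    funext j z
    rw [Pi.add_apply, Pi.add_apply, dg_apply, dg_apply, Pi.sub_apply, Pi.one_apply]
    ring
  · simp only [hvv, hv0, mul_pow]
    rw [integral_const_mul]
    have e2 : ∫ y, f (dg (1 - c) y) ^ 2 ∂(MX.unif K) = κ ^ 2 := by
      rw [hκ2, ← hf2, hf']
      rfl
    rw [e2, inv_pow, inv_mul_cancel₀ (pow_ne_zero 2 hκne)]
  · rw [hζ2]
    linarith
  · intro a ha
    choose U hU1 hU2 hU3 hU4 using fun j => (hLD j).rot a ha
    refine ⟨actL U, hpres U (fun j => (U j).transpose) hU1 (fun j => ?_) hU2, ?_, ?_⟩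
    · rw [Matrix.transpose_transpose]
      exact hU2 j
    · intro y
      have e1 : ∀ j, actL U y j = lm (U j) (y j) := fun j => rfl
      simp only [hvv, e1]
      have e2 : ∀ i, a i * (κ⁻¹ * ∑ j, v j i (y j)) = κ⁻¹ * ∑ j, a i * v j i (y j) := by
        intro i
        rw [← Finset.mul_sum]
        ring
      rw [Finset.sum_congr rfl fun i _ => e2 i, ← Finset.mul_sum, Finset.sum_comm]
      congr 1
      exact Finset.sum_congr rfl fun j _ => hU3 j (y j)
    · intro y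
      rw [hζ, LinearMap.comp_apply, LinearMap.comp_apply, hsingle (dg c (actL U y)),
        hsingle (dg c y)]
      refine Finset.sum_congr rfl fun j _ => ?_
      rw [hdc, hdc]
      exact hU4 j (y j)

end Pool.Agent.CB
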