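import Pool.Agent.CB.Cor2
import Pool.Agent.CB.MixA
import Pool.Agent.CB.MixBB
import Pool.Agent.CB.MixCC

/-!
# CB-Fin3: final form (assembly)
-/

set_option autoImplicit false

open MeasureTheory Set
open scoped Pointwise ENNReal NNReal

namespace Pool.Agent.CB

theorem fin_mix {k : ℕ} (hk : 1 ≤ k) :
    ∃ N : ℕ, ∀ p : ℝ, 1 + 1 / ((k : ℝ) + 2) < p → p ≤ 2 →
      ∃ C : ℝ≥0, ∀ (l : ℕ) (n m : Fin l → ℕ), (∀ j, (k + 1) * m j ≤ n j ∨ N ≤ n j) →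
        ∀ B : Set (∀ j, Fin (n j) × Fin (m j) → ℝ),
        IsCompact B → Convex ℝ B → (interior B).Nonempty → Linv B →
        MX.Bdd p (C : ℝ≥0∞) B := by
  obtain ⟨D, J, hD, j1, j2, j3⟩ := exists_clifford k
  refine ⟨2 * D, fun p hp hp2 => ?_⟩
  obtain ⟨C, hC⟩ := orb_bdd hk hp hp2
  refine ⟨C, fun l n m hn B h1 h2 h3 h4 => ?_⟩
  refine hC _ B h1 h2 h3 (fun x hx => ?_) (orb_mix (fun j f w hw => ?_) h1 h3 h4)
  · have h5 := h4 (fun j => -1) (fun j => by simp) x hx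
    have h6 : (fun j z => ∑ i, (-1 : Matrix (Fin (n j)) (Fin (n j)) ℝ) z.1 i * x j (i, z.2)) =
        -x := by
      funext j z
      simp [Matrix.neg_apply, Matrix.one_apply]
    rw [h6] at h5
    exact h5
  · rcases hn j with h | h
    · obtain ⟨v, hv⟩ := ld_A h f
      exact ⟨∅, v, hv, by simpa using Finset.sum_nonneg fun i _ => hw i⟩
    · exact ld_B hD j1 j2 j3 h f w hw

/-- The explicit form. -/
theorem fin_mix_explicit {k : ℕ} (hk : 1 ≤ k) :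
    ∃ N : ℕ, ∀ p : ℝ, 1 + 1 / ((k : ℝ) + 2) < p → p ≤ 2 →
      ∃ C : ℝ, ∀ (l : ℕ) (n m : Fin l → ℕ), (∀ j, (k + 1) * m j ≤ n j ∨ N ≤ n j) →
        ∀ B : Set (∀ j, Fin (n j) × Fin (m j) → ℝ),
        IsCompact B → Convex ℝ B → (interior B).Nonempty → volume B = 1 →
        (∀ O : ∀ j, Matrix (Fin (n j)) (Fin (n j)) ℝ, (∀ j, (O j).transpose * O j = 1) →
          ∀ x ∈ B, (fun j z => ∑ i, O j z.1 i * x j (i, z.2)) ∈ B) →
        ∀ f : (∀ j, Fin (n j) × Fin (m j) → ℝ) → ℝ, Measurable f →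
          ∫⁻ x, (⨆ t : ℝ, ⨆ (_ : 0 < t),
              (∫⁻ y in t • B, ‖f (x + y)‖ₑ) / ENNReal.ofReal (t ^ ∑ j, n j * m j)) ^ p ≤
            ENNReal.ofReal C * ∫⁻ x, ‖f x‖ₑ ^ p := by
  obtain ⟨N, hN⟩ := fin_mix hk
  refine ⟨N, fun p hp hp2 => ?_⟩
  obtain ⟨C, hC⟩ := hN p hp hp2
  refine ⟨(C : ℝ) ^ p, fun l n m hnm B hB1 hB2 hB3 hB4 hB5 f hf => ?_⟩
  have h := hC l n m hnm B hB1 hB2 hB3 hB5 f hf
  have hp0 : 0 ≤ p := by
    have : (0 : ℝ) ≤ 1 / ((k : ℝ) + 2) := by positivity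
    linarith
  have e1 : ENNReal.ofReal ((C : ℝ) ^ p) = (C : ℝ≥0∞) ^ p := by
    rw [← ENNReal.ofReal_rpow_of_nonneg (NNReal.coe_nonneg C) hp0, ENNReal.ofReal_coe_nnreal]
  rw [e1]
  refine le_trans (le_of_eq ?_) h
  refine lintegral_congr fun x => ?_
  congr 1
  unfold MX.maxF
  refine iSup_congr fun t => iSup_congr fun ht => ?_
  have e2 : Module.finrank ℝ (∀ j, Fin (n j) × Fin (m j) → ℝ) = ∑ j, n j * m j := by
    rw [Module.finrank_pi_fintype]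
    refine Finset.sum_congr rfl fun j _ => ?_
    rw [Module.finrank_pi, Fintype.card_prod, Fintype.card_fin, Fintype.card_fin]
  rw [Measure.addHaar_smul, hB4, mul_one]
  congr 2
  rw [e2, abs_of_pos (pow_pos ht _)]

end Pool.Agent.CB
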