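import Pool.Agent.CB.Defs

/-!
# CB-Sym: symmetric measures, dilates, blurs, their Fourier transforms

`blur c μ` is the law of `exp (c u) • y`, `u` uniform on `[0,1]`, `y` with law `μ`
(`integral_map`, `integral_prod`).
-/

set_option autoImplicit false

open MeasureTheory Set
open scoped ENNReal NNReal

namespace Pool.Agent.CB

variable {n : ℕ}

private theorem meas_smul (t : ℝ) : Measurable (fun y : V n => t • y) := by
  fun_prop

private theorem meas_neg : Measurable (fun y : V n => -y) := by
  fun_prop

private theorem meas_blur (c : ℝ) : Measurable (fun z : ℝ × V n => Real.exp (c * z.1) • z.2) := by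
  fun_prop

private theorem isProb_I : IsProbabilityMeasure ((volume : Measure ℝ).restrict (Icc 0 1)) := by
  constructor
  simp

theorem isProb_dil {μ : Measure (V n)} [IsProbabilityMeasure μ] (t : ℝ) :
    IsProbabilityMeasure (dil t μ) := by
  unfold dil
  exact Measure.isProbabilityMeasure_map (meas_smul t).aemeasurable

theorem isProb_blur {μ : Measure (V n)} [IsProbabilityMeasure μ] (c : ℝ) :
    IsProbabilityMeasure (blur c μ) := by
  unfold blur
  have := isProb_I
  exact Measure.isProbabilityMeasure_map (meas_blur c).aemeasurable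

theorem SymP.dil {μ : Measure (V n)} (h : SymP μ) (t : ℝ) : SymP (dil t μ) := by
  have := h.prob
  refine ⟨isProb_dil t, ?_⟩
  unfold CB.dil
  rw [Measure.map_map meas_neg (meas_smul t)]
  conv_rhs => rw [← h.symm, Measure.map_map (meas_smul t) meas_neg]
  congr 1
  funext y
  simp

theorem SymP.blur {μ : Measure (V n)} (h : SymP μ) (c : ℝ) : SymP (blur c μ) := by
  have := h.prob
  have := isProb_I
  refine ⟨isProb_blur c, ?_⟩
  unfold CB.blur
  rw [Measure.map_map meas_neg (meas_blur c)]
  have h1 : ((volume : Measure ℝ).restrict (Icc 0 1)).prod μ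
      = (((volume : Measure ℝ).restrict (Icc 0 1)).prod μ).map (Prod.map id (fun y => -y)) := by
    rw [← Measure.map_prod_map _ _ measurable_id meas_neg, Measure.map_id, h.symm]
  conv_rhs => rw [h1, Measure.map_map (meas_blur c) (measurable_id.prodMap meas_neg)]
  congr 1
  funext y
  simp

theorem dil_one (μ : Measure (V n)) : dil 1 μ = μ := by
  unfold dil
  simp

theorem dil_dil (μ : Measure (V n)) (s t : ℝ) : dil s (dil t μ) = dil (s * t) μ := by
  unfold dil
  rw [Measure.map_map (meas_smul s) (meas_smul t)]
  congr 1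
  funext y
  simp [smul_smul]

theorem ft_dil (μ : Measure (V n)) (t : ℝ) (ξ : V n) : ft (dil t μ) ξ = ft μ (t • ξ) := by
  unfold ft dil
  rw [integral_map (meas_smul t).aemeasurable]
  · congr 1
    funext y
    rw [inner_smul_right, inner_smul_left]
    simp
  · exact (by fun_prop : Continuous fun y : V n => Real.cos (inner ℝ ξ y)).aestronglyMeasurable

theorem abs_ft_le {μ : Measure (V n)} [IsProbabilityMeasure μ] (ξ : V n) : |ft μ ξ| ≤ 1 := by
  unfold ft
  have h := norm_integral_le_of_norm_le_const (μ := μ) (f := fun y => Real.cos (inner ℝ ξ y))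
    (C := 1) (Filter.Eventually.of_forall fun y => by
      rw [Real.norm_eq_abs]
      exact Real.abs_cos_le_one _)
  simpa using h

theorem ft_zero {μ : Measure (V n)} [IsProbabilityMeasure μ] : ft μ 0 = 1 := by
  unfold ft
  simp

theorem continuous_ft {μ : Measure (V n)} [IsProbabilityMeasure μ] : Continuous (ft μ) := by
  unfold ft
  refine continuous_of_dominated (bound := fun _ => (1 : ℝ)) ?_ ?_ ?_ ?_
  · intro ξ
    exact (by fun_prop : Continuous fun y : V n => Real.cos (inner ℝ ξ y)).aestronglyMeasurable
  · intro ξ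
    refine Filter.Eventually.of_forall fun y => ?_
    rw [Real.norm_eq_abs]
    exact Real.abs_cos_le_one _
  · exact integrable_const _
  · refine Filter.Eventually.of_forall fun y => ?_
    fun_prop

theorem lintegral_blur {μ : Measure (V n)} [IsProbabilityMeasure μ] (c : ℝ) {f : V n → ℝ≥0∞}
    (hf : Measurable f) :
    ∫⁻ y, f y ∂(blur c μ) = ∫⁻ u in Icc (0 : ℝ) 1, ∫⁻ y, f (Real.exp (c * u) • y) ∂μ := by
  unfold blur
  rw [lintegral_map hf (meas_blur c), lintegral_prod]
  exact (hf.comp (meas_blur c)).aemeasurable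

theorem integral_blur {μ : Measure (V n)} [IsProbabilityMeasure μ] (c : ℝ) {f : V n → ℝ}
    (hf : Measurable f) (hb : ∃ C, ∀ x, |f x| ≤ C) :
    ∫ y, f y ∂(blur c μ) = ∫ u in (0 : ℝ)..1, ∫ y, f (Real.exp (c * u) • y) ∂μ := by
  obtain ⟨C, hC⟩ := hb
  have := isProb_I
  unfold blur
  rw [integral_map (meas_blur c).aemeasurable hf.aestronglyMeasurable, integral_prod,
    intervalIntegral.integral_of_le zero_le_one, integral_Icc_eq_integral_Ioc]
  refine Integrable.of_bound (hf.comp (meas_blur c)).aestronglyMeasurable C ?_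
  exact Filter.Eventually.of_forall fun z => hC _

theorem ft_blur {μ : Measure (V n)} [IsProbabilityMeasure μ] (c : ℝ) (ξ : V n) :
    ft (blur c μ) ξ = ∫ u in (0 : ℝ)..1, ft μ (Real.exp (c * u) • ξ) := by
  unfold ft
  rw [integral_blur c (f := fun y => Real.cos (inner ℝ ξ y))
    (by fun_prop : Continuous fun y : V n => Real.cos (inner ℝ ξ y)).measurable
    ⟨1, fun x => Real.abs_cos_le_one _⟩]
  congr 1
  funext u
  congr 1
  funext y
  rw [inner_smul_right, inner_smul_left]
  simp

/-- The multiplier of the averaged difference operator. -/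
theorem edm_eq {μ : Measure (V n)} [IsProbabilityMeasure μ] (N : ℕ) (h : ℝ) (ξ : V n) :
    edm N h μ ξ =
      ∫ u in (0 : ℝ)..1, dif N (fun i => ft μ (Real.exp (i * (h * u)) • ξ)) := by
  unfold edm dif
  rw [intervalIntegral.integral_finsetSum]
  · refine Finset.sum_congr rfl fun i _ => ?_
    rw [intervalIntegral.integral_const_mul]
    beta_reduce
    rw [ft_blur]
    simp only [mul_assoc]
  · intro i _
    refine Continuous.intervalIntegrable ?_ _ _
    exact continuous_const.mul (continuous_ft.comp (by fun_prop))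

end Pool.Agent.CB
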