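import Pool.Agent.CB.Cv
import Pool.Agent.CB.Sym

/-!
# CB-Fou: averages are Fourier multipliers

`fh (cv μ f) ξ = ∫ exp (2 π i ⟨x, ξ⟩) ∫ f (x + y) dμ(y) dx = ∫ exp (- 2 π i ⟨y, ξ⟩) dμ(y) * fh f ξ`
(Fubini, integrable because `f` is integrable and `μ` is a probability measure; substitution
`x ↦ x - y`), and `∫ exp (- 2 π i ⟨y, ξ⟩) dμ(y) = ft μ (2 π ξ)` because `μ` is symmetric.
-/

set_option autoImplicit false

open MeasureTheory Set
open scoped ENNReal NNReal

namespace Pool.Agent.CB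

variable {n : ℕ}

private noncomputable def ex (ξ v : V n) : ℂ :=
  Complex.exp (((2 * Real.pi * inner ℝ v ξ : ℝ) : ℂ) * Complex.I)

private theorem ex_add (ξ v w : V n) : ex ξ (v + w) = ex ξ v * ex ξ w := by
  unfold ex
  rw [← Complex.exp_add, inner_add_left]
  congr 1
  push_cast
  ring

private theorem ex_norm (ξ v : V n) : ‖ex ξ v‖ = 1 := by
  unfold ex
  exact Complex.norm_exp_ofReal_mul_I _

private theorem ex_cont (ξ : V n) : Continuous (ex ξ) := by
  unfold ex
  fun_prop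

private theorem fh_eq (f : V n → ℝ) (ξ : V n) : fh f ξ = ∫ v, ex ξ v * (f v : ℂ) := by
  unfold fh ex
  rw [Real.fourierInv_eq']
  rfl

private theorem ex_int {f : V n → ℝ} (hf : Integrable f volume) (ξ : V n) :
    Integrable (fun v => ex ξ v * (f v : ℂ)) volume := by
  refine (hf.norm).mono' ?_ (ae_of_all _ fun v => ?_)
  · exact (ex_cont ξ).aestronglyMeasurable.mul hf.ofReal.aestronglyMeasurable
  · rw [norm_mul, ex_norm, one_mul, Complex.norm_real]

private theorem ex_neg_add (ξ y : V n) :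
    ex ξ (-y) + ex ξ y = ((2 * Real.cos (inner ℝ ((2 * Real.pi) • ξ) y) : ℝ) : ℂ) := by
  unfold ex
  rw [inner_neg_left, real_inner_smul_left, real_inner_comm y ξ]
  generalize inner ℝ y ξ = t
  have h : ((2 * Real.pi * -t : ℝ) : ℂ) * Complex.I =
      -((2 * Real.pi * t : ℝ) : ℂ) * Complex.I := by
    push_cast; ring
  rw [h]
  generalize 2 * Real.pi * t = s
  rw [Complex.ofReal_mul, Complex.ofReal_cos, Complex.cos]
  push_cast
  ring

private theorem ex_integral {μ : Measure (V n)} (hμ : SymP μ) (ξ : V n) :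
    ∫ y, ex ξ (-y) ∂μ = (ft μ ((2 * Real.pi) • ξ) : ℂ) := by
  haveI := hμ.prob
  have hi1 : Integrable (fun y => ex ξ (-y)) μ := by
    refine (integrable_const (1 : ℝ)).mono' ((ex_cont ξ).comp continuous_neg).aestronglyMeasurable
      (ae_of_all _ fun v => ?_)
    rw [ex_norm]
  have hi2 : Integrable (fun y => ex ξ y) μ := by
    refine (integrable_const (1 : ℝ)).mono' (ex_cont ξ).aestronglyMeasurable
      (ae_of_all _ fun v => ?_)
    rw [ex_norm]
  have hs : ∫ y, ex ξ y ∂μ = ∫ y, ex ξ (-y) ∂μ := by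
    conv_lhs => rw [← hμ.symm]
    rw [integral_map (measurable_neg.aemeasurable) (ex_cont ξ).aestronglyMeasurable]
  have h2 : (2 : ℂ) * ∫ y, ex ξ (-y) ∂μ = 2 * (ft μ ((2 * Real.pi) • ξ) : ℂ) := by
    calc (2 : ℂ) * ∫ y, ex ξ (-y) ∂μ = ∫ y, ex ξ (-y) ∂μ + ∫ y, ex ξ y ∂μ := by rw [hs]; ring
      _ = ∫ y, (ex ξ (-y) + ex ξ y) ∂μ := (integral_add hi1 hi2).symm
      _ = ∫ y, ((2 * Real.cos (inner ℝ ((2 * Real.pi) • ξ) y) : ℝ) : ℂ) ∂μ := by
          simp only [ex_neg_add]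
      _ = ((∫ y, 2 * Real.cos (inner ℝ ((2 * Real.pi) • ξ) y) ∂μ : ℝ) : ℂ) := integral_ofReal
      _ = 2 * (ft μ ((2 * Real.pi) • ξ) : ℂ) := by
          rw [integral_const_mul]
          unfold ft
          push_cast
          rfl
  exact mul_left_cancel₀ two_ne_zero h2

private theorem fh_sum {ι : Type} (s : Finset ι) (c : ι → ℝ) {g : ι → V n → ℝ}
    (hg : ∀ i, Nice (g i)) (ξ : V n) :
    fh (fun x => ∑ i ∈ s, c i * g i x) ξ = ∑ i ∈ s, (c i : ℂ) * fh (g i) ξ := by
  rw [fh_eq]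
  simp only [fh_eq]
  have : ∀ v, ex ξ v * ((∑ i ∈ s, c i * g i v : ℝ) : ℂ) =
      ∑ i ∈ s, (c i : ℂ) * (ex ξ v * (g i v : ℂ)) := by
    intro v
    push_cast
    rw [Finset.mul_sum]
    refine Finset.sum_congr rfl fun i _ => ?_
    ring
  simp only [this]
  rw [integral_finset_sum]
  · refine Finset.sum_congr rfl fun i _ => ?_
    rw [integral_const_mul]
  · intro i _
    exact (ex_int (hg i).int ξ).const_mul _

private theorem nice_sum {ι : Type} (s : Finset ι) (c : ι → ℝ) {g : ι → V n → ℝ}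
    (hg : ∀ i, Nice (g i)) : Nice (fun x => ∑ i ∈ s, c i * g i x) := by
  classical
  induction s using Finset.induction_on with
  | empty =>
    simp only [Finset.sum_empty]
    exact ⟨continuous_const, ⟨0, fun x => by simp⟩, integrable_zero _ _ _⟩
  | insert a s ha ih =>
    simp only [Finset.sum_insert ha]
    exact ((hg a).const_mul (c a)).add ih

theorem isMul_cv {μ : Measure (V n)} (hμ : SymP μ) {f : V n → ℝ} (hf : Nice f) :
    IsMul (ft μ) f (cv μ f) := by
  haveI := hμ.prob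
  intro ξ
  rw [fh_eq, fh_eq, ← ex_integral hμ ξ]
  have hint : Integrable (fun z : V n × V n => f (z.1 + z.2)) (volume.prod μ) := by
    have hm : AEStronglyMeasurable (fun z : V n × V n => f (z.1 + z.2)) (volume.prod μ) :=
      (hf.cont.comp (continuous_fst.add continuous_snd)).aestronglyMeasurable
    rw [integrable_prod_iff' hm]
    refine ⟨ae_of_all _ fun y => hf.int.comp_add_right y, ?_⟩
    have : (fun y : V n => ∫ x : V n, ‖f (x + y)‖) = fun _ => ∫ x : V n, ‖f x‖ := by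
      funext y
      exact integral_add_right_eq_self (fun x => ‖f x‖) y
    simp only [this]
    exact integrable_const _
  have hint2 : Integrable (fun z : V n × V n => ex ξ z.1 * (f (z.1 + z.2) : ℂ)) (volume.prod μ) := by
    refine (hint.norm).mono' ?_ (ae_of_all _ fun v => ?_)
    · exact ((ex_cont ξ).comp continuous_fst).aestronglyMeasurable.mul
        hint.ofReal.aestronglyMeasurable
    · rw [norm_mul, ex_norm, one_mul, Complex.norm_real]
  have s1 : ∀ x, ex ξ x * ((cv μ f x : ℝ) : ℂ) = ∫ y, ex ξ x * (f (x + y) : ℂ) ∂μ := by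
    intro x
    rw [integral_const_mul]
    unfold cv
    congr 1
    exact integral_ofReal.symm
  have s3 : ∀ y, (∫ x, ex ξ x * (f (x + y) : ℂ)) = ex ξ (-y) * ∫ x, ex ξ x * (f x : ℂ) := by
    intro y
    rw [← integral_const_mul]
    rw [← integral_add_right_eq_self (fun x => ex ξ (-y) * (ex ξ x * (f x : ℂ))) y]
    refine integral_congr_ae (ae_of_all _ fun x => ?_)
    simp only
    rw [← mul_assoc, ← ex_add]
    congr 2
    abel
  have s2 : (∫ x, (∫ y, ex ξ x * (f (x + y) : ℂ) ∂μ)) = ∫ y, (∫ x, ex ξ x * (f (x + y) : ℂ)) ∂μ :=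
    integral_integral_swap hint2
  calc (∫ x, ex ξ x * ((cv μ f x : ℝ) : ℂ))
      = ∫ x, (∫ y, ex ξ x * (f (x + y) : ℂ) ∂μ) := by
        simp only [s1]
    _ = ∫ y, (∫ x, ex ξ x * (f (x + y) : ℂ)) ∂μ := s2
    _ = ∫ y, (ex ξ (-y) * ∫ x, ex ξ x * (f x : ℂ)) ∂μ := by
        simp only [s3]
    _ = (∫ y, ex ξ (-y) ∂μ) * ∫ x, ex ξ x * (f x : ℂ) := by
        rw [integral_mul_const]

theorem IsMul.comp {τ σ : V n → ℝ} {f g k : V n → ℝ} (h1 : IsMul τ f g) (h2 : IsMul σ g k) :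
    IsMul (fun ξ => σ ξ * τ ξ) f k := by
  intro ξ
  rw [h2 ξ, h1 ξ]
  push_cast
  ring

theorem IsMul.sub {τ σ : V n → ℝ} {f g k : V n → ℝ} (hg : Nice g) (hk : Nice k)
    (h1 : IsMul τ f g) (h2 : IsMul σ f k) :
    IsMul (fun ξ => τ ξ - σ ξ) f (fun x => g x - k x) := by
  intro ξ
  have e : (fun x => g x - k x) =
      fun x => ∑ i ∈ (Finset.univ : Finset (Fin 2)), (![1, -1] : Fin 2 → ℝ) i * (![g, k] : Fin 2 → V n → ℝ) i x := by
    funext x
    simp [Fin.sum_univ_two]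
    ring
  have hn : ∀ i, Nice ((![g, k] : Fin 2 → V n → ℝ) i) := by
    intro i
    fin_cases i
    · exact hg
    · exact hk
  rw [e, fh_sum _ _ hn]
  simp only [Fin.sum_univ_two, Matrix.cons_val_zero, Matrix.cons_val_one]
  rw [h1 ξ, h2 ξ]
  push_cast
  ring

theorem IsMul.dif {N : ℕ} {τ : ℕ → V n → ℝ} {f : V n → ℝ} {g : ℕ → V n → ℝ}
    (hg : ∀ i, Nice (g i)) (h : ∀ i, IsMul (τ i) f (g i)) :
    IsMul (fun ξ => dif N (fun i => τ i ξ)) f (fun x => dif N (fun i => g i x)) := by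
  intro ξ
  simp only [Pool.Agent.CB.dif]
  rw [fh_sum _ (fun i => (-1 : ℝ) ^ i * (N.choose i : ℝ)) hg]
  push_cast
  rw [Finset.sum_mul]
  refine Finset.sum_congr rfl fun i _ => ?_
  rw [h i ξ]
  ring

theorem nice_dif {N : ℕ} {g : ℕ → V n → ℝ} (hg : ∀ i, Nice (g i)) :
    Nice (fun x => dif N (fun i => g i x)) := by
  unfold dif
  exact nice_sum _ (fun i => (-1 : ℝ) ^ i * (N.choose i : ℝ)) hg

theorem nice_Ed {μ : Measure (V n)} [IsProbabilityMeasure μ] (N : ℕ) (h s : ℝ) {f : V n → ℝ}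
    (hf : Nice f) : Nice (Ed N h μ s f) := by
  unfold Ed
  refine nice_dif (g := fun i => cv (dil (Real.exp s) (blur (i * h) μ)) f) fun i => ?_
  haveI := isProb_blur (μ := μ) (i * h)
  haveI := isProb_dil (μ := blur (i * h) μ) (Real.exp s)
  exact nice_cv hf

theorem isMul_Ed {μ : Measure (V n)} (hμ : SymP μ) (N : ℕ) (h s : ℝ) {f : V n → ℝ}
    (hf : Nice f) : IsMul (fun ξ => edm N h μ (Real.exp s • ξ)) f (Ed N h μ s f) := by
  haveI := hμ.prob
  have key : IsMul (fun ξ => dif N (fun i => ft (dil (Real.exp s) (blur (i * h) μ)) ξ)) f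
      (fun x => dif N (fun i => cv (dil (Real.exp s) (blur (i * h) μ)) f x)) := by
    refine IsMul.dif (τ := fun i => ft (dil (Real.exp s) (blur (i * h) μ)))
      (g := fun i => cv (dil (Real.exp s) (blur (i * h) μ)) f) (fun i => ?_) (fun i => ?_)
    · haveI := isProb_blur (μ := μ) (i * h)
      haveI := isProb_dil (μ := blur (i * h) μ) (Real.exp s)
      exact nice_cv hf
    · exact isMul_cv ((hμ.blur _).dil _) hf
  simp only [ft_dil] at key
  exact key

end Pool.Agent.CB
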