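import Pool.Agent.CB.Gauss
import Pool.Agent.CB.DiffD

/-!
# CB-GDec: the Gaussian satisfies `Dec a N K` for all `0 < a ≤ N`, `N ≥ 1`

`ft (gam n) ξ = exp (-‖ξ‖²/2) = φ ‖ξ‖`, `φ x = exp (-x²/2)`.
* `d0`: `|exp (-ρ²/2) - 1| ≤ min (ρ²/2) 1 ≤ ρ`.
* `d1`: `exp (-ρ²/2) * ρ^a` is bounded (follows from the bound `|φ x| ≤ A (1+x)^(-a)`).
* `d2`: `dif_bound` with `D j x = (P j).eval x * exp (-x²/2)`, `P 0 = 1`, `P (j+1) = derivative (P j) - X * P j`;
  each `|P j x| exp (-x²/2) (1+x)^a` is bounded on `x ≥ 0` (a continuous function tending to `0`; or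
  `exp (-x²/2) ≤ m! 2^m / x^(2m)`), finitely many `j ≤ N`.
-/

set_option autoImplicit false

open MeasureTheory Set
open scoped ENNReal NNReal

namespace Pool.Agent.CB

private noncomputable def gp : ℕ → Polynomial ℝ
  | 0 => 1
  | (j + 1) => Polynomial.derivative (gp j) - Polynomial.X * gp j

private noncomputable def gD (j : ℕ) (x : ℝ) : ℝ := (gp j).eval x * Real.exp (-x ^ 2 / 2)

private theorem gD_zero : gD 0 = fun x : ℝ => Real.exp (-x ^ 2 / 2) := by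
  funext x
  simp [gD, gp]

private theorem gD_deriv (j : ℕ) (x : ℝ) : HasDerivAt (gD j) (gD (j + 1) x) x := by
  have h1 := (gp j).hasDerivAt x
  have h3 : HasDerivAt (fun x : ℝ => -x ^ 2 / 2) (-x) x := by
    have h := ((hasDerivAt_pow 2 x).neg).div_const 2
    refine h.congr_deriv ?_
    push_cast
    ring
  have h2 := h3.exp
  have h4 := h1.mul h2
  refine h4.congr_deriv ?_
  simp only [gD, gp, Polynomial.eval_sub, Polynomial.eval_mul, Polynomial.eval_X]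
  ring

private theorem poly_exp_bound (Q : Polynomial ℝ) :
    ∃ B : ℝ, 0 ≤ B ∧ ∀ x : ℝ, 0 ≤ x → |Q.eval x| ≤ B * Real.exp x := by
  induction Q using Polynomial.induction_on' with
  | add p q hp hq =>
    obtain ⟨B, hB, h1⟩ := hp
    obtain ⟨C, hC, h2⟩ := hq
    refine ⟨B + C, add_nonneg hB hC, fun x hx => ?_⟩
    rw [Polynomial.eval_add, add_mul]
    exact (abs_add_le _ _).trans (add_le_add (h1 x hx) (h2 x hx))
  | monomial k c =>
    refine ⟨|c| * (k.factorial : ℝ), by positivity, fun x hx => ?_⟩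
    rw [Polynomial.eval_monomial, abs_mul, abs_of_nonneg (pow_nonneg hx k), mul_assoc]
    refine mul_le_mul_of_nonneg_left ?_ (abs_nonneg c)
    have h := Real.pow_div_factorial_le_exp x hx k
    have hk : (0 : ℝ) < (k.factorial : ℝ) := by exact_mod_cast Nat.factorial_pos k
    rw [div_le_iff₀ hk] at h
    linarith

private theorem poly_gauss_bound (P : Polynomial ℝ) {a : ℝ} {N : ℕ} (haN : a ≤ N) :
    ∃ B : ℝ, 0 ≤ B ∧ ∀ x : ℝ, 0 ≤ x →
      |P.eval x * Real.exp (-x ^ 2 / 2)| ≤ B * (1 + x) ^ (-a) := by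
  obtain ⟨B, hB, h⟩ := poly_exp_bound (P * (1 + Polynomial.X) ^ N)
  refine ⟨B * Real.exp (1 / 2), by positivity, fun x hx => ?_⟩
  have h1 := h x hx
  rw [Polynomial.eval_mul, Polynomial.eval_pow, Polynomial.eval_add, Polynomial.eval_X,
    Polynomial.eval_one, abs_mul, abs_of_nonneg (pow_nonneg (by linarith : (0 : ℝ) ≤ 1 + x) N)]
    at h1
  have hx1 : (1 : ℝ) ≤ 1 + x := by linarith
  have hx0 : (0 : ℝ) < 1 + x := by linarith
  have h2 : (1 + x) ^ a ≤ (1 + x) ^ N := by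
    rw [← Real.rpow_natCast]
    exact Real.rpow_le_rpow_of_exponent_le hx1 haN
  have h3 : |P.eval x| * (1 + x) ^ a ≤ B * Real.exp x :=
    (mul_le_mul_of_nonneg_left h2 (abs_nonneg _)).trans h1
  have h4 : Real.exp (-x ^ 2 / 2) * Real.exp x ≤ Real.exp (1 / 2) := by
    rw [← Real.exp_add]
    apply Real.exp_le_exp.2
    nlinarith [sq_nonneg (x - 1)]
  rw [abs_mul, abs_of_pos (Real.exp_pos _), Real.rpow_neg hx0.le, ← div_eq_mul_inv,
    le_div_iff₀ (Real.rpow_pos_of_pos hx0 a)]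
  calc |P.eval x| * Real.exp (-x ^ 2 / 2) * (1 + x) ^ a
      = (|P.eval x| * (1 + x) ^ a) * Real.exp (-x ^ 2 / 2) := by ring
    _ ≤ (B * Real.exp x) * Real.exp (-x ^ 2 / 2) :=
        mul_le_mul_of_nonneg_right h3 (Real.exp_pos _).le
    _ = B * (Real.exp (-x ^ 2 / 2) * Real.exp x) := by ring
    _ ≤ B * Real.exp (1 / 2) := mul_le_mul_of_nonneg_left h4 hB

private theorem bet_nonneg' {a : ℝ} {N : ℕ} {u : ℝ} (hu : 0 ≤ u) : 0 ≤ bet a N u := by
  unfold bet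
  split_ifs
  · exact hu
  · exact Real.rpow_nonneg hu _

theorem exists_dec_gam {a : ℝ} (ha : 0 < a) {N : ℕ} (hN : 1 ≤ N) (haN : a ≤ N) :
    ∃ K : ℝ, 0 ≤ K ∧ ∀ n : ℕ, Dec a N K (gam n) := by
  have hb : ∀ j : ℕ, ∃ B : ℝ, 0 ≤ B ∧ ∀ x : ℝ, 0 ≤ x → |gD j x| ≤ B * (1 + x) ^ (-a) :=
    fun j => poly_gauss_bound (gp j) haN
  choose B hB0 hB using hb
  set A : ℝ := ∑ j ∈ Finset.range (N + 1), B j with hA
  have hA0 : 0 ≤ A := Finset.sum_nonneg fun j _ => hB0 j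
  have hAB : ∀ j, j ≤ N → B j ≤ A := fun j hj =>
    Finset.single_le_sum (f := B) (fun i _ => hB0 i) (Finset.mem_range.2 (by omega))
  have hD : ∀ j, j ≤ N → ∀ x : ℝ, 0 ≤ x → |gD j x| ≤ A * (1 + x) ^ (-a) := fun j hj x hx =>
    (hB j x hx).trans (mul_le_mul_of_nonneg_right (hAB j hj)
      (Real.rpow_nonneg (by linarith) _))
  obtain ⟨K, hK, hdif⟩ := dif_bound ha hN haN A
  refine ⟨1 + A + K, by positivity, fun n => ⟨symP_gam n, fun ξ => ?_, fun ξ hξ => ?_,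
    fun ξ h hh0 hh1 => ?_⟩⟩
  · rw [ft_gam]
    have hρ := norm_nonneg ξ
    set ρ := ‖ξ‖ with hρd
    have h1 : Real.exp (-ρ ^ 2 / 2) ≤ 1 := by
      rw [Real.exp_le_one_iff]
      nlinarith [sq_nonneg ρ]
    have h2 : -ρ ^ 2 / 2 + 1 ≤ Real.exp (-ρ ^ 2 / 2) := Real.add_one_le_exp _
    have h3 := Real.exp_pos (-ρ ^ 2 / 2)
    have h4 : |Real.exp (-ρ ^ 2 / 2) - 1| ≤ ρ := by
      rw [abs_sub_comm, abs_of_nonneg (by linarith)]
      rcases le_or_gt ρ 1 with h | h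
      · nlinarith
      · linarith
    refine h4.trans ?_
    nlinarith [mul_nonneg hA0 hρ, mul_nonneg hK.le hρ]
  · rw [ft_gam]
    have hρ : 0 < ‖ξ‖ := norm_pos_iff.2 hξ
    have h1 := hD 0 (Nat.zero_le N) ‖ξ‖ hρ.le
    rw [gD_zero] at h1
    have h2 : (1 + ‖ξ‖) ^ (-a) ≤ ‖ξ‖ ^ (-a) :=
      Real.rpow_le_rpow_of_nonpos hρ (by linarith) (by linarith)
    refine h1.trans ((mul_le_mul_of_nonneg_left h2 hA0).trans ?_)
    exact mul_le_mul_of_nonneg_right (by linarith) (Real.rpow_nonneg hρ.le _)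
  · have h1 := hdif (gD 0) gD rfl gD_deriv hD ‖ξ‖ (norm_nonneg ξ) h hh0 hh1
    have h2 : (fun i : ℕ => ft (gam n) (Real.exp (i * h) • ξ)) =
        fun i : ℕ => gD 0 (Real.exp (i * h) * ‖ξ‖) := by
      funext i
      rw [ft_gam, gD_zero, norm_smul, Real.norm_of_nonneg (Real.exp_pos _).le]
    rw [h2]
    refine h1.trans ?_
    refine mul_le_mul_of_nonneg_right ?_ (bet_nonneg' (norm_nonneg ξ))
    exact mul_le_mul_of_nonneg_right (by linarith) (pow_nonneg hh0 N)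

theorem Dec.mono {n : ℕ} {μ : Measure (V n)} {a K K' : ℝ} {N : ℕ} (h : Dec a N K μ)
    (hK : K ≤ K') : Dec a N K' μ := by
  refine ⟨h.sym, fun ξ => (h.d0 ξ).trans (mul_le_mul_of_nonneg_right hK (norm_nonneg ξ)),
    fun ξ hξ => (h.d1 ξ hξ).trans
      (mul_le_mul_of_nonneg_right hK (Real.rpow_nonneg (norm_nonneg ξ) _)),
    fun ξ t ht0 ht1 => (h.d2 ξ t ht0 ht1).trans ?_⟩
  refine mul_le_mul_of_nonneg_right ?_ (bet_nonneg' (norm_nonneg ξ))
  exact mul_le_mul_of_nonneg_right hK (pow_nonneg ht0 N)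

end Pool.Agent.CB
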