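import Pool.Agent.CB.PathF
import Pool.Agent.CB.Ext

/-!
# CB-GMax: the Gaussian maximal theorem and the Gaussian square function

* `exists_antitone`: enumerate a finite set of positive reals decreasingly and then add `0`
  (induction with the minimum, `Finset.sort`, or `Finset.orderEmbOfFin`).
* `gauss_max`: `ext_cc`, `exists_antitone`, `gauss_path_max`; `mx` of `ofReal ∘ f` is a supremum of
  `ofReal_cv_dil`. Constant `p / (p-1)`.
* `gauss_sq`: for `f ≥ 0`: `τ k = exp (K0 + 1 - k)` for `k ≤ 2 K0 + 1`, `τ k = 0` for `k > 2 K0 + 1`,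
  `J = 2 K0 + 2`; the terms `k ≤ 2 K0` are `Qg j f` with `j = K0 - k`. For general `f = f⁺ - f⁻`:
  `‖Qg j f‖^2 ≤ 2 ‖Qg j f⁺‖^2 + 2 ‖Qg j f⁻‖^2`, `(u + v)^(r/2) ≤ u^(r/2) + v^(r/2)`,
  `‖f⁺‖^r + ‖f⁻‖^r = ‖f‖^r`.
-/

set_option autoImplicit false

open MeasureTheory Set
open scoped ENNReal NNReal

namespace Pool.Agent.CB

private theorem exists_antitone_aux (S : Finset ℝ) : (∀ t ∈ S, 0 < t) →
    ∃ (J : ℕ) (τ : ℕ → ℝ), Antitone τ ∧ (∀ k, τ k = 0 ∨ τ k ∈ S) ∧ τ J = 0 ∧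
      ∀ t ∈ S, ∃ k ≤ J, τ k = t := by
  refine Finset.induction_on_max S ?_ ?_
  · intro _
    refine ⟨0, fun _ => 0, fun _ _ _ => le_rfl, fun _ => Or.inl rfl, rfl, ?_⟩
    intro t ht
    exact absurd ht (Finset.notMem_empty t)
  · intro a s ha ih hS
    obtain ⟨J, τ, h1, h2, h3, h4⟩ := ih (fun t ht => hS t (Finset.mem_insert_of_mem ht))
    have ha0 : 0 < a := hS a (Finset.mem_insert_self a s)
    refine ⟨J + 1, fun k => if k = 0 then a else τ (k - 1), ?_, ?_, ?_, ?_⟩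
    · apply antitone_nat_of_succ_le
      intro k
      simp only [Nat.succ_ne_zero, if_false, Nat.add_sub_cancel]
      by_cases hk : k = 0
      · rw [if_pos hk, hk]
        rcases h2 0 with h | h
        · rw [h]
          exact ha0.le
        · exact (ha _ h).le
      · rw [if_neg hk]
        exact h1 (Nat.sub_le k 1)
    · intro k
      by_cases hk : k = 0
      · right
        simp only [hk, if_true]
        exact Finset.mem_insert_self a s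
      · simp only [if_neg hk]
        rcases h2 (k - 1) with h | h
        · exact Or.inl h
        · exact Or.inr (Finset.mem_insert_of_mem h)
    · simp only [Nat.succ_ne_zero, if_false, Nat.add_sub_cancel]
      exact h3
    · intro t ht
      rcases Finset.mem_insert.1 ht with h | h
      · exact ⟨0, Nat.zero_le _, by simp [h]⟩
      · obtain ⟨k, hk, hk2⟩ := h4 t h
        refine ⟨k + 1, Nat.succ_le_succ hk, ?_⟩
        simp only [Nat.succ_ne_zero, if_false, Nat.add_sub_cancel]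
        exact hk2

theorem exists_antitone (S : Finset ℝ) (hS : ∀ t ∈ S, 0 < t) :
    ∃ (J : ℕ) (τ : ℕ → ℝ), Antitone τ ∧ (∀ k, 0 ≤ τ k) ∧ τ J = 0 ∧
      ∀ t ∈ S, ∃ k ≤ J, τ k = t := by
  obtain ⟨J, τ, h1, h2, h3, h4⟩ := exists_antitone_aux S hS
  refine ⟨J, τ, h1, ?_, h3, h4⟩
  intro k
  rcases h2 k with h | h
  · rw [h]
  · exact (hS _ h).le

theorem gauss_max {p : ℝ} (hp : 1 < p) :
    ∃ C : ℝ≥0, ∀ n : ℕ, MX.BddF p (C : ℝ≥0∞) (gam n) := by
  refine ⟨Real.toNNReal (p / (p - 1)), ?_⟩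
  intro n S hS f hf
  refine ext_cc hp.le S ?_ hf
  intro g hg hc g0
  obtain ⟨J, τ, hτ, h0, hJ, hSτ⟩ := exists_antitone S hS
  have hn : Nice g := Nice.of_continuous hg hc
  have h1 := gauss_path_max hp hτ h0 hJ hn g0
  have hq : 0 ≤ p / (p - 1) := div_nonneg (by linarith) (by linarith)
  have h2 : ((Real.toNNReal (p / (p - 1)) : ℝ≥0) : ℝ≥0∞) ^ p =
      ENNReal.ofReal ((p / (p - 1)) ^ p) := by
    have h3 : ((Real.toNNReal (p / (p - 1)) : ℝ≥0) : ℝ≥0∞) = ENNReal.ofReal (p / (p - 1)) := rfl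
    rw [h3, ENNReal.ofReal_rpow_of_nonneg hq (by linarith)]
  rw [h2]
  refine le_trans (lintegral_mono fun x => ?_) h1
  refine ENNReal.rpow_le_rpow ?_ (by linarith)
  unfold MX.mx
  refine iSup₂_le fun t ht => ?_
  obtain ⟨k, hk, hkt⟩ := hSτ t ht
  rw [← ofReal_cv_dil t hn g0 x, ← hkt]
  exact Finset.le_sup (f := fun k => ENNReal.ofReal (cv (dil (τ k) (gam n)) g x))
    (Finset.mem_range.2 (Nat.lt_succ_of_le hk))

private theorem sq_nonneg_case {r : ℝ} (hr : 1 < r) (hr2 : r < 2) (n K0 : ℕ) {f : V n → ℝ}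
    (hf : Nice f) (f0 : ∀ x, 0 ≤ f x) :
    ∫⁻ x, (∑ k ∈ Finset.Icc (-(K0 : ℤ)) K0, ‖Qg k f x‖ₑ ^ (2 : ℝ)) ^ (r / 2) ≤
        ENNReal.ofReal (Csq r) * ∫⁻ x, ENNReal.ofReal (f x) ^ r := by
  obtain ⟨τ, hτd⟩ : ∃ τ : ℕ → ℝ, τ = fun k : ℕ => if k ≤ 2 * K0 + 1 then
    Real.exp ((K0 : ℝ) + 1 - k) else 0 := ⟨_, rfl⟩
  have hτ : Antitone τ := by
    apply antitone_nat_of_succ_le
    intro k
    rw [hτd]
    simp only
    by_cases h1 : k + 1 ≤ 2 * K0 + 1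
    · rw [if_pos h1, if_pos (by omega)]
      apply Real.exp_le_exp.2
      push_cast
      linarith
    · rw [if_neg h1]
      split_ifs
      · exact (Real.exp_pos _).le
      · exact le_rfl
  have h0 : ∀ k, 0 ≤ τ k := by
    intro k
    rw [hτd]
    simp only
    split_ifs
    · exact (Real.exp_pos _).le
    · exact le_rfl
  have hJ : τ (2 * K0 + 2) = 0 := by
    rw [hτd]
    simp only
    rw [if_neg (by omega)]
  refine le_trans (lintegral_mono fun x => ?_) (gauss_path_sq hr hr2 hτ h0 hJ hf f0)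
  refine ENNReal.rpow_le_rpow ?_ (by linarith)
  have h1 : ∑ k ∈ Finset.Icc (-(K0 : ℤ)) K0, ‖Qg k f x‖ₑ ^ (2 : ℝ) =
      ∑ k ∈ Finset.range (2 * K0 + 1),
        ‖cv (dil (τ (k + 1)) (gam n)) f x - cv (dil (τ k) (gam n)) f x‖ₑ ^ (2 : ℝ) := by
    refine Finset.sum_bij' (fun j _ => ((K0 : ℤ) - j).toNat) (fun k _ => (K0 : ℤ) - k) ?_ ?_ ?_ ?_ ?_
    · intro j hj
      rw [Finset.mem_Icc] at hj
      rw [Finset.mem_range]
      omega
    · intro k hk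
      rw [Finset.mem_range] at hk
      rw [Finset.mem_Icc]
      omega
    · intro j hj
      rw [Finset.mem_Icc] at hj
      omega
    · intro k hk
      omega
    · intro j hj
      rw [Finset.mem_Icc] at hj
      obtain ⟨k, hk⟩ : ∃ k : ℕ, k = ((K0 : ℤ) - j).toNat := ⟨_, rfl⟩
      have hj2 : j = (K0 : ℤ) - k := by omega
      rw [← hk]
      have e1 : τ (k + 1) = Real.exp (j : ℝ) := by
        rw [hτd]
        simp only
        rw [if_pos (by omega), hj2]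
        congr 1
        push_cast
        ring
      have e2 : τ k = Real.exp ((j : ℝ) + 1) := by
        rw [hτd]
        simp only
        rw [if_pos (by omega), hj2]
        congr 1
        push_cast
        ring
      rw [e1, e2]
      rfl
  rw [h1]
  exact Finset.sum_le_sum_of_subset (Finset.range_mono (by omega))

private theorem measurable_sum (n K0 : ℕ) {f : V n → ℝ} (hf : Nice f) (r : ℝ) :
    Measurable fun x => (∑ k ∈ Finset.Icc (-(K0 : ℤ)) K0, ‖Qg k f x‖ₑ ^ (2 : ℝ)) ^ (r / 2) := by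
  apply Measurable.pow_const
  apply Finset.measurable_fun_sum
  intro k _
  apply Measurable.pow_const
  apply Measurable.enorm
  have h1 : IsProbabilityMeasure (dil (Real.exp (k : ℝ)) (gam n)) := isProb_dil _
  have h2 : IsProbabilityMeasure (dil (Real.exp ((k : ℝ) + 1)) (gam n)) := isProb_dil _
  exact ((nice_cv hf).cont.sub (nice_cv hf).cont).measurable

theorem gauss_sq {r : ℝ} (hr : 1 < r) (hr2 : r < 2) :
    ∃ C : ℝ≥0, ∀ (n : ℕ) (K0 : ℕ) (f : V n → ℝ), Nice f →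
      ∫⁻ x, (∑ k ∈ Finset.Icc (-(K0 : ℤ)) K0, ‖Qg k f x‖ₑ ^ (2 : ℝ)) ^ (r / 2) ≤
        C * ∫⁻ x, ‖f x‖ₑ ^ r := by
  refine ⟨(2 : ℝ≥0) ^ (r / 2) * (2 * Real.toNNReal (Csq r)), ?_⟩
  intro n K0 f hf
  have hp : Nice fun x => max (f x) 0 := hf.posPart
  have hm : Nice fun x => max (-f x) 0 := hf.neg.posPart
  have h1 := sq_nonneg_case hr hr2 n K0 hp (fun x => le_max_right _ _)
  have h2 := sq_nonneg_case hr hr2 n K0 hm (fun x => le_max_right _ _)
  have h1' : ∫⁻ x, ENNReal.ofReal (max (f x) 0) ^ r ≤ ∫⁻ x, ‖f x‖ₑ ^ r := by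
    refine lintegral_mono fun x => ENNReal.rpow_le_rpow ?_ (by linarith)
    rw [← ofReal_norm, Real.norm_eq_abs]
    exact ENNReal.ofReal_le_ofReal (max_le (le_abs_self _) (abs_nonneg _))
  have h2' : ∫⁻ x, ENNReal.ofReal (max (-f x) 0) ^ r ≤ ∫⁻ x, ‖f x‖ₑ ^ r := by
    refine lintegral_mono fun x => ENNReal.rpow_le_rpow ?_ (by linarith)
    rw [← ofReal_norm, Real.norm_eq_abs]
    exact ENNReal.ofReal_le_ofReal (max_le (neg_le_abs _) (abs_nonneg _))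
  have hQ : ∀ (k : ℤ) (x : V n), Qg k f x =
      Qg k (fun y => max (f y) 0) x - Qg k (fun y => max (-f y) 0) x := by
    intro k x
    have i1 : IsProbabilityMeasure (dil (Real.exp (k : ℝ)) (gam n)) := isProb_dil _
    have i2 : IsProbabilityMeasure (dil (Real.exp ((k : ℝ) + 1)) (gam n)) := isProb_dil _
    have e0 : f = fun y => max (f y) 0 - max (-f y) 0 := by
      funext y
      rcases le_total (f y) 0 with h | h
      · rw [max_eq_right h, max_eq_left (by linarith)]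
        ring
      · rw [max_eq_left h, max_eq_right (by linarith)]
        ring
    have e1 := congrFun (cv_sub (μ := dil (Real.exp (k : ℝ)) (gam n)) hp hm) x
    have e2 := congrFun (cv_sub (μ := dil (Real.exp ((k : ℝ) + 1)) (gam n)) hp hm) x
    rw [← e0] at e1 e2
    unfold Qg
    rw [e1, e2]
    ring
  have hpt : ∀ x, (∑ k ∈ Finset.Icc (-(K0 : ℤ)) K0, ‖Qg k f x‖ₑ ^ (2 : ℝ)) ^ (r / 2) ≤
      (2 : ℝ≥0∞) ^ (r / 2) *
        ((∑ k ∈ Finset.Icc (-(K0 : ℤ)) K0, ‖Qg k (fun y => max (f y) 0) x‖ₑ ^ (2 : ℝ)) ^ (r / 2) +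
        (∑ k ∈ Finset.Icc (-(K0 : ℤ)) K0, ‖Qg k (fun y => max (-f y) 0) x‖ₑ ^ (2 : ℝ)) ^ (r / 2)) := by
    intro x
    have h3 : ∑ k ∈ Finset.Icc (-(K0 : ℤ)) K0, ‖Qg k f x‖ₑ ^ (2 : ℝ) ≤
        2 * ((∑ k ∈ Finset.Icc (-(K0 : ℤ)) K0, ‖Qg k (fun y => max (f y) 0) x‖ₑ ^ (2 : ℝ)) +
        (∑ k ∈ Finset.Icc (-(K0 : ℤ)) K0, ‖Qg k (fun y => max (-f y) 0) x‖ₑ ^ (2 : ℝ))) := by
      rw [← Finset.sum_add_distrib, Finset.mul_sum]
      refine Finset.sum_le_sum fun k _ => ?_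
      rw [hQ k x]
      refine (ENNReal.rpow_le_rpow (enorm_sub_le (a := Qg k (fun y => max (f y) 0) x)
        (b := Qg k (fun y => max (-f y) 0) x)) (by norm_num)).trans ?_
      refine (ENNReal.rpow_add_le_mul_rpow_add_rpow _ _ (by norm_num : (1 : ℝ) ≤ 2)).trans ?_
      have e3 : (2 : ℝ≥0∞) ^ ((2 : ℝ) - 1) = 2 := by
        rw [show (2 : ℝ) - 1 = 1 by norm_num, ENNReal.rpow_one]
      rw [e3]
    refine (ENNReal.rpow_le_rpow h3 (by linarith)).trans ?_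
    rw [ENNReal.mul_rpow_of_nonneg _ _ (by linarith)]
    gcongr
    exact ENNReal.rpow_add_le_add_rpow _ _ (by linarith) (by linarith)
  have hC : (((2 : ℝ≥0) ^ (r / 2) * (2 * Real.toNNReal (Csq r)) : ℝ≥0) : ℝ≥0∞) =
      (2 : ℝ≥0∞) ^ (r / 2) * (2 * ENNReal.ofReal (Csq r)) := by
    rw [ENNReal.coe_mul, ENNReal.coe_mul, ENNReal.coe_rpow_of_nonneg _ (by linarith)]
    rfl
  rw [hC]
  calc ∫⁻ x, (∑ k ∈ Finset.Icc (-(K0 : ℤ)) K0, ‖Qg k f x‖ₑ ^ (2 : ℝ)) ^ (r / 2)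
      ≤ ∫⁻ x, (2 : ℝ≥0∞) ^ (r / 2) *
        ((∑ k ∈ Finset.Icc (-(K0 : ℤ)) K0, ‖Qg k (fun y => max (f y) 0) x‖ₑ ^ (2 : ℝ)) ^ (r / 2) +
        (∑ k ∈ Finset.Icc (-(K0 : ℤ)) K0,
          ‖Qg k (fun y => max (-f y) 0) x‖ₑ ^ (2 : ℝ)) ^ (r / 2)) := lintegral_mono hpt
    _ = (2 : ℝ≥0∞) ^ (r / 2) * ((∫⁻ x,
        (∑ k ∈ Finset.Icc (-(K0 : ℤ)) K0,
          ‖Qg k (fun y => max (f y) 0) x‖ₑ ^ (2 : ℝ)) ^ (r / 2)) +
        ∫⁻ x, (∑ k ∈ Finset.Icc (-(K0 : ℤ)) K0,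
          ‖Qg k (fun y => max (-f y) 0) x‖ₑ ^ (2 : ℝ)) ^ (r / 2)) := by
        rw [lintegral_const_mul' _ _ (ENNReal.rpow_ne_top_of_nonneg (by linarith)
          ENNReal.ofNat_ne_top), lintegral_add_left (measurable_sum n K0 hp r)]
    _ ≤ (2 : ℝ≥0∞) ^ (r / 2) * ((ENNReal.ofReal (Csq r) * ∫⁻ x, ‖f x‖ₑ ^ r) +
        ENNReal.ofReal (Csq r) * ∫⁻ x, ‖f x‖ₑ ^ r) := by
        gcongr
        · exact h1.trans (mul_le_mul' le_rfl h1')
        · exact h2.trans (mul_le_mul' le_rfl h2')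
    _ = (2 : ℝ≥0∞) ^ (r / 2) * (2 * ENNReal.ofReal (Csq r)) * ∫⁻ x, ‖f x‖ₑ ^ r := by
        ring

end Pool.Agent.CB
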