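import Pool.Agent.CB.Cv
import Pool.Agent.Helper66.WS.FourierL2

/-!
# CB-Plan: Plancherel for nice functions

For nice `f`: `∫⁻ ‖fh f ξ‖ₑ² = ∫⁻ ‖f x‖ₑ²`. Use `Pool.Agent.Helper66.WS.fourierInv_toLp` (on
`L¹ ∩ L²` the Plancherel transform is given by the Fourier integral) and `Lp.norm_fourierInv_eq`
(or `norm_fourier_eq` and inversion) of `Mathlib.Analysis.Fourier.LpSpace`. Then `pl_le`: integrate
`∑ i, (τ i ξ')^2 * ‖fh f ξ‖^2 ≤ B * ‖fh f ξ‖^2`.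
-/

set_option autoImplicit false

open MeasureTheory Set
open scoped ENNReal NNReal

namespace Pool.Agent.CB

variable {n : ℕ}

private theorem lint_eq (g : V n → ℂ) :
    ∫⁻ x, ‖g x‖ₑ ^ (2 : ℝ) = eLpNorm g 2 volume ^ (2 : ℝ) := by
  have h := eLpNorm_nnreal_pow_eq_lintegral (f := g) (μ := (volume : Measure (V n))) (p := 2)
    two_ne_zero
  simpa using h.symm

private theorem int_ofReal {f : V n → ℝ} (hf : Nice f) : Integrable (fun x => (f x : ℂ)) :=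
  hf.int.ofReal

private theorem memLp_ofReal {f : V n → ℝ} (hf : Nice f) :
    MemLp (fun x => (f x : ℂ)) 2 volume := by
  have h := hf.memLp (p := 2) (by norm_num)
  exact h.ofReal

private theorem fh_cont {f : V n → ℝ} (hf : Nice f) : Continuous (fh f) := by
  have h1 : fh f = fun w => FourierTransform.fourier (fun x => (f x : ℂ)) (-w) := by
    ext w
    rw [fh, Real.fourierInv_eq_fourier_neg]
  rw [h1]
  have h2 : Continuous (FourierTransform.fourier (fun x => (f x : ℂ))) :=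
    VectorFourier.fourierIntegral_continuous Real.continuous_fourierChar
      (by exact continuous_inner) (int_ofReal hf)
  exact h2.comp continuous_neg

theorem plancherel {f : V n → ℝ} (hf : Nice f) :
    ∫⁻ ξ, ‖fh f ξ‖ₑ ^ (2 : ℝ) = ∫⁻ x, ‖f x‖ₑ ^ (2 : ℝ) := by
  have h1 : ∫⁻ x, ‖f x‖ₑ ^ (2 : ℝ) = ∫⁻ x, ‖(f x : ℂ)‖ₑ ^ (2 : ℝ) := by
    refine lintegral_congr fun x => ?_
    congr 1
    rw [← ofReal_norm, ← ofReal_norm, Complex.norm_real]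
  have hg := memLp_ofReal hf
  have h2 := Pool.Agent.Helper66.WS.fourierInv_toLp (int_ofReal hf) hg
  have h3 : ‖(FourierTransformInv.fourierInv (hg.toLp _) : Lp ℂ 2 (volume : Measure (V n)))‖ =
      ‖hg.toLp _‖ := (Lp.fourierTransformₗᵢ (V n) ℂ).symm.norm_map _
  rw [Lp.norm_def, Lp.norm_def] at h3
  have h4 := (ENNReal.toReal_eq_toReal_iff' (Lp.eLpNorm_ne_top _) (Lp.eLpNorm_ne_top _)).mp h3
  rw [eLpNorm_congr_ae h2, eLpNorm_congr_ae hg.coeFn_toLp] at h4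
  rw [h1, lint_eq, lint_eq (fun x => (f x : ℂ)), ← h4]
  rfl

theorem pl_le {ι : Type} (s : Finset ι) (g : ι → V n → ℝ) (τ : ι → V n → ℝ) {f : V n → ℝ}
    (hf : Nice f) (hg : ∀ i ∈ s, Nice (g i)) (hm : ∀ i ∈ s, IsMul (τ i) f (g i)) {B : ℝ}
    (hB : ∀ ξ, ∑ i ∈ s, τ i ξ ^ 2 ≤ B) :
    ∑ i ∈ s, ∫⁻ x, ‖g i x‖ₑ ^ (2 : ℝ) ≤ ENNReal.ofReal B * ∫⁻ x, ‖f x‖ₑ ^ (2 : ℝ) := by
  have h1 : ∑ i ∈ s, ∫⁻ x, ‖g i x‖ₑ ^ (2 : ℝ) = ∑ i ∈ s, ∫⁻ ξ, ‖fh (g i) ξ‖ₑ ^ (2 : ℝ) :=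
    Finset.sum_congr rfl fun i hi => (plancherel (hg i hi)).symm
  have hmeas : ∀ i ∈ s, Measurable fun ξ => ‖fh (g i) ξ‖ₑ ^ (2 : ℝ) := fun i hi =>
    ((fh_cont (hg i hi)).measurable.enorm).pow_const _
  rw [h1, ← lintegral_finsetSum s hmeas, ← plancherel hf,
    ← lintegral_const_mul' _ _ ENNReal.ofReal_ne_top]
  refine lintegral_mono fun ξ => ?_
  have h2 : ∀ i ∈ s, ‖fh (g i) ξ‖ₑ ^ (2 : ℝ) =
      ENNReal.ofReal (τ i ((2 * Real.pi) • ξ) ^ 2) * ‖fh f ξ‖ₑ ^ (2 : ℝ) := by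
    intro i hi
    rw [hm i hi ξ, enorm_mul, ENNReal.mul_rpow_of_nonneg _ _ (by norm_num : (0 : ℝ) ≤ 2)]
    congr 1
    rw [← ofReal_norm, Complex.norm_real, Real.norm_eq_abs,
      ENNReal.ofReal_rpow_of_nonneg (abs_nonneg _) (by norm_num : (0 : ℝ) ≤ 2), Real.rpow_two, sq_abs]
  show ∑ i ∈ s, ‖fh (g i) ξ‖ₑ ^ (2 : ℝ) ≤ ENNReal.ofReal B * ‖fh f ξ‖ₑ ^ (2 : ℝ)
  rw [Finset.sum_congr rfl h2, ← Finset.sum_mul,
    ← ENNReal.ofReal_sum_of_nonneg (fun i _ => sq_nonneg _)]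
  exact mul_le_mul_left (ENNReal.ofReal_le_ofReal (hB _)) _

end Pool.Agent.CB
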