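import Pool.Agent.CB.Fou
import Pool.Agent.CB.Plan

/-!
# CB-Gauss: Gaussian averages

`gam n = stdGaussian (V n)`; `charFun_stdGaussian` gives `ft (gam n) ξ = exp (-‖ξ‖²/2)` (real part of the
characteristic function) and the symmetry. `cv_gam_gam`: the law of `s X + t Y` is that of
`√(s²+t²) X` (`Measure.ext_of_charFun`, `charFun_conv`; or `IsGaussian` facts), then Fubini.
`isMul_Qg`: `isMul_cv`, `ft_dil`, `ft_gam`, `IsMul.sub`.
-/

set_option autoImplicit false

open MeasureTheory Set Filter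
open scoped ENNReal NNReal Topology

namespace Pool.Agent.CB

variable {n : ℕ}

theorem symP_gam (n : ℕ) : SymP (gam n) := by
  refine ⟨by unfold gam; infer_instance, ?_⟩
  have h := ProbabilityTheory.stdGaussian_map (LinearIsometryEquiv.neg ℝ (E := V n))
  unfold gam
  exact h

instance isProb_gam (n : ℕ) : IsProbabilityMeasure (gam n) := by
  unfold gam
  infer_instance

theorem ft_gam (ξ : V n) : ft (gam n) ξ = Real.exp (-‖ξ‖ ^ 2 / 2) := by
  have h1 : charFun (gam n) ξ = Complex.exp (-‖ξ‖ ^ 2 / 2) := ProbabilityTheory.charFun_stdGaussian ξ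
  have h2 : (charFun (gam n) ξ).re = ft (gam n) ξ := by
    rw [charFun_apply]
    have hint : Integrable (fun y : V n => Complex.exp (((inner ℝ y ξ : ℝ) : ℂ) * Complex.I))
        (gam n) := by
      refine Integrable.of_bound (C := 1) ?_ ?_
      · apply Continuous.aestronglyMeasurable
        fun_prop
      · exact Eventually.of_forall fun y => le_of_eq (Complex.norm_exp_ofReal_mul_I _)
    have h3 := Complex.reCLM.integral_comp_comm hint
    simp only [Complex.reCLM_apply] at h3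
    rw [← h3]
    unfold ft
    refine integral_congr_ae (Eventually.of_forall fun y => ?_)
    simp only
    rw [Complex.exp_ofReal_mul_I_re, real_inner_comm]
  rw [← h2, h1]
  have h4 : (-(‖ξ‖ : ℂ) ^ 2 / 2) = ((-‖ξ‖ ^ 2 / 2 : ℝ) : ℂ) := by push_cast; ring
  rw [h4, Complex.exp_ofReal_re]

private theorem ga_char (s : ℝ) (ξ : V n) :
    charFun (dil s (gam n)) ξ = Complex.exp (-((s ^ 2 * ‖ξ‖ ^ 2 : ℝ) : ℂ) / 2) := by
  have h1 : charFun (dil s (gam n)) ξ = charFun (gam n) (s • ξ) := by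
    unfold dil
    exact charFun_map_smul s ξ
  have h2 : charFun (gam n) (s • ξ) = Complex.exp (-‖s • ξ‖ ^ 2 / 2) :=
    ProbabilityTheory.charFun_stdGaussian _
  rw [h1, h2]
  congr 1
  rw [norm_smul]
  have h3 : (‖s‖ * ‖ξ‖) ^ 2 = s ^ 2 * ‖ξ‖ ^ 2 := by
    rw [mul_pow, Real.norm_eq_abs, sq_abs]
  have h4 : (((‖s‖ * ‖ξ‖ : ℝ)) : ℂ) ^ 2 = ((s ^ 2 * ‖ξ‖ ^ 2 : ℝ) : ℂ) := by
    rw [← h3]
    push_cast
    rfl
  rw [h4]

private theorem ga_conv (s t : ℝ) :
    (dil s (gam n)).conv (dil t (gam n)) = dil (Real.sqrt (s ^ 2 + t ^ 2)) (gam n) := by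
  have := isProb_dil (μ := gam n) s
  have := isProb_dil (μ := gam n) t
  have := isProb_dil (μ := gam n) (Real.sqrt (s ^ 2 + t ^ 2))
  apply Measure.ext_of_charFun
  funext ξ
  rw [charFun_conv, ga_char, ga_char, ga_char, ← Complex.exp_add]
  congr 1
  rw [Real.sq_sqrt (by positivity)]
  push_cast
  ring

theorem cv_gam_gam (s t : ℝ) {f : V n → ℝ} (hf : Nice f) :
    cv (dil s (gam n)) (cv (dil t (gam n)) f) = cv (dil (Real.sqrt (s ^ 2 + t ^ 2)) (gam n)) f := by
  have := isProb_dil (μ := gam n) s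
  have := isProb_dil (μ := gam n) t
  funext x
  obtain ⟨C, hC⟩ := hf.bdd
  have hcont : Continuous fun y : V n => f (x + y) := hf.cont.comp (continuous_const.add continuous_id)
  have hint : Integrable (fun y : V n => f (x + y)) ((dil s (gam n)).conv (dil t (gam n))) := by
    refine Integrable.of_bound (C := C) hcont.aestronglyMeasurable ?_
    exact Eventually.of_forall fun y => hC _
  have h1 : cv (dil (Real.sqrt (s ^ 2 + t ^ 2)) (gam n)) f x =
      ∫ y, f (x + y) ∂((dil s (gam n)).conv (dil t (gam n))) := by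
    rw [ga_conv]
    rfl
  rw [h1, integral_conv hint]
  unfold cv
  refine integral_congr_ae (Eventually.of_forall fun y => ?_)
  refine integral_congr_ae (Eventually.of_forall fun z => ?_)
  simp only
  rw [add_assoc]

private theorem ga_isMul (t : ℝ) (ht : 0 < t) {f : V n → ℝ} (hf : Nice f) :
    IsMul (fun ξ => Real.exp (-(t * ‖ξ‖) ^ 2 / 2)) f (cv (dil t (gam n)) f) := by
  have h := isMul_cv ((symP_gam n).dil t) hf
  have e : ft (dil t (gam n)) = fun ξ : V n => Real.exp (-(t * ‖ξ‖) ^ 2 / 2) := by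
    funext ξ
    rw [ft_dil, ft_gam, norm_smul, Real.norm_eq_abs, abs_of_pos ht]
  rwa [e] at h

theorem isMul_Qg (j : ℤ) {f : V n → ℝ} (hf : Nice f) :
    IsMul (fun ξ => Real.exp (-(Real.exp j * ‖ξ‖) ^ 2 / 2) -
      Real.exp (-(Real.exp (j + 1) * ‖ξ‖) ^ 2 / 2)) f (Qg j f) := by
  have := isProb_dil (μ := gam n) (Real.exp j)
  have := isProb_dil (μ := gam n) (Real.exp (j + 1))
  exact IsMul.sub (nice_cv hf) (nice_cv hf) (ga_isMul _ (Real.exp_pos _) hf)
    (ga_isMul _ (Real.exp_pos _) hf)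

theorem nice_Qg (j : ℤ) {f : V n → ℝ} (hf : Nice f) : Nice (Qg j f) := by
  have := isProb_dil (μ := gam n) (Real.exp j)
  have := isProb_dil (μ := gam n) (Real.exp (j + 1))
  exact (nice_cv hf).sub (nice_cv hf)

end Pool.Agent.CB
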