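import Pool.Agent.CB.Gauss

/-!
# CB-GaussB: Gaussian averages at large and small scales

`cv_gam_large'` (`n ≥ 1`): first coordinate: `|cv (dil t (gam n)) f x| ≤ ∫ |f (x + t • y)| dγ(y)`. Simplest route: for
`T > 0`, split... or: the density of `gam n` with respect to the volume is bounded by `(2π)^(-n/2) ≤ 1`
(`gam n` is the image of the product measure of standard Gaussians: `ProbabilityTheory.stdGaussian`,
`map_pi_eq_stdGaussian`; product of densities `gaussianPDFReal 0 1 ≤ 1`, `Measure.pi` of `withDensity` measures; it is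
enough to have the inequality of measures `gam n ≤ volume`, from `gaussianReal 0 1 ≤ volume` and
`Measure.pi_mono`, or on boxes), so for `t > 0`
`|cv (dil t (gam n)) f x| ≤ ∫ |f (x + t • y)| dy = t^(-n) ∫ |f| ≤ t^(-1) ∫ |f|` for `t ≥ 1`.
`cv_gam_small`: `f` is uniformly continuous (compact support) and bounded, and
`gam n {y | R < ‖y‖} → 0` as `R → ∞`.
-/

set_option autoImplicit false

open MeasureTheory Set Filter
open scoped ENNReal NNReal Topology

namespace Pool.Agent.CB

variable {n : ℕ}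

private theorem pi_le_pi {ι : Type} [Fintype ι] (μ ν : ι → Measure ℝ) [∀ i, SigmaFinite (μ i)]
    (h : ∀ i, μ i ≤ ν i) : Measure.pi μ ≤ Measure.pi ν := by
  refine Measure.le_iff.2 fun s hs => ?_
  have h1 : (Measure.pi μ).toOuterMeasure ≤ OuterMeasure.pi fun i => (ν i).toOuterMeasure := by
    rw [OuterMeasure.le_pi]
    intro s _
    change Measure.pi μ (Set.pi univ s) ≤ ∏ i, ν i (s i)
    rw [Measure.pi_pi]
    exact Finset.prod_le_prod' fun i _ => h i (s i)
  have h2 : Measure.pi ν s = OuterMeasure.pi (fun i => (ν i).toOuterMeasure) s := by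
    rw [Measure.pi, toMeasure_apply _ _ hs]
  rw [h2]
  exact h1 s

private theorem gaussianReal_le : ProbabilityTheory.gaussianReal 0 1 ≤ (volume : Measure ℝ) := by
  rw [ProbabilityTheory.gaussianReal_of_var_ne_zero 0 (one_ne_zero)]
  have h1 : (volume : Measure ℝ).withDensity (ProbabilityTheory.gaussianPDF 0 1) ≤
      (volume : Measure ℝ).withDensity 1 := by
    refine withDensity_mono (Eventually.of_forall fun x => ?_)
    rw [ProbabilityTheory.gaussianPDF, Pi.one_apply, ENNReal.ofReal_le_one,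
      ProbabilityTheory.gaussianPDFReal]
    have h2 : Real.exp (-(x - 0) ^ 2 / (2 * ((1 : ℝ≥0) : ℝ))) ≤ 1 := by
      rw [Real.exp_le_one_iff]
      have h3 : 0 ≤ (x - 0) ^ 2 / (2 * ((1 : ℝ≥0) : ℝ)) := by positivity
      rw [neg_div]
      linarith
    have h4 : (Real.sqrt (2 * Real.pi * ((1 : ℝ≥0) : ℝ)))⁻¹ ≤ 1 := by
      refine inv_le_one_of_one_le₀ (Real.one_le_sqrt.2 ?_)
      have h5 := Real.pi_gt_three
      simp only [NNReal.coe_one, mul_one]
      linarith
    calc (Real.sqrt (2 * Real.pi * ((1 : ℝ≥0) : ℝ)))⁻¹ *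
          Real.exp (-(x - 0) ^ 2 / (2 * ((1 : ℝ≥0) : ℝ))) ≤ 1 * 1 :=
          mul_le_mul h4 h2 (Real.exp_pos _).le zero_le_one
      _ = 1 := one_mul 1
  rwa [withDensity_one] at h1

private theorem gam_le_volume (n : ℕ) : gam n ≤ volume := by
  unfold gam
  rw [← ProbabilityTheory.map_pi_eq_stdGaussian, ← (PiLp.volume_preserving_toLp (Fin n)).map_eq]
  refine Measure.map_mono ?_ ?_
  · exact pi_le_pi _ _ fun _ => gaussianReal_le
  · exact (PiLp.volume_preserving_toLp (Fin n)).measurable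

private theorem gam_tail (n : ℕ) {η : ℝ} (hη : 0 < η) :
    ∃ R : ℝ, 0 < R ∧ (gam n).real {y : V n | R < ‖y‖} ≤ η := by
  have h1 := isTightMeasureSet_iff_exists_isCompact_measure_compl_le.1
    (isTightMeasureSet_singleton (μ := gam n)) (ENNReal.ofReal η) (by simpa using hη)
  obtain ⟨K, hK, hK2⟩ := h1
  obtain ⟨R, hR⟩ := hK.isBounded.subset_closedBall (0 : V n)
  refine ⟨max R 1, lt_max_of_lt_right zero_lt_one, ?_⟩
  have h2 : {y : V n | max R 1 < ‖y‖} ⊆ Kᶜ := by
    intro y hy hyK
    have h3 := hR hyK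
    rw [mem_closedBall_zero_iff] at h3
    exact absurd h3 (not_le.2 ((le_max_left _ _).trans_lt hy))
  have h4 : gam n {y : V n | max R 1 < ‖y‖} ≤ ENNReal.ofReal η :=
    (measure_mono h2).trans (hK2 _ rfl)
  exact ENNReal.toReal_le_of_le_ofReal hη.le h4

theorem cv_gam_large' (hn : 1 ≤ n) {f : V n → ℝ} (hf : Nice f) :
    ∀ ε : ℝ, 0 < ε → ∃ T : ℝ, ∀ t, T ≤ t → ∀ x, |cv (dil t (gam n)) f x| ≤ ε := by
  intro ε hε
  have hI0 : 0 ≤ ∫ z, |f z| := integral_nonneg fun z => abs_nonneg _
  refine ⟨max 1 ((∫ z, |f z|) / ε), fun t ht x => ?_⟩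
  have ht1 : 1 ≤ t := (le_max_left _ _).trans ht
  have htI : (∫ z, |f z|) / ε ≤ t := (le_max_right _ _).trans ht
  have ht0 : 0 < t := zero_lt_one.trans_le ht1
  rw [cv_dil (gam n) t hf.cont.measurable x]
  have hint : Integrable (fun z => |f (x + z)|) volume := (hf.int.comp_add_left x).abs
  have hint2 : Integrable (fun y => |f (x + t • y)|) volume :=
    hint.comp_smul (f := fun z => |f (x + z)|) ht0.ne'
  have h1 : |∫ y, f (x + t • y) ∂(gam n)| ≤ ∫ y, |f (x + t • y)| ∂(gam n) :=
    abs_integral_le_integral_abs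
  have h2 : ∫ y, |f (x + t • y)| ∂(gam n) ≤ ∫ y, |f (x + t • y)| :=
    integral_mono_measure (gam_le_volume n) (Eventually.of_forall fun y => abs_nonneg _) hint2
  have h3 : ∫ y, |f (x + t • y)| = |(t ^ Module.finrank ℝ (V n))⁻¹| • ∫ z, |f (x + z)| :=
    Measure.integral_comp_smul volume (fun z => |f (x + z)|) t
  have h4 : ∫ z, |f (x + z)| = ∫ z, |f z| := integral_add_left_eq_self (fun z => |f z|) x
  have h5 : t ≤ t ^ Module.finrank ℝ (V n) := by
    refine le_self_pow₀ ht1 ?_
    rw [finrank_euclideanSpace_fin]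
    omega
  have h6 : |(t ^ Module.finrank ℝ (V n))⁻¹| ≤ t⁻¹ := by
    rw [abs_of_nonneg (inv_nonneg.2 (pow_nonneg ht0.le _))]
    exact inv_anti₀ ht0 h5
  refine h1.trans (h2.trans ?_)
  rw [h3, h4, smul_eq_mul]
  refine (mul_le_mul_of_nonneg_right h6 hI0).trans ?_
  rw [inv_mul_le_iff₀ ht0]
  rwa [div_le_iff₀ hε] at htI

theorem cv_gam_small {f : V n → ℝ} (hf : Continuous f) (hc : HasCompactSupport f) :
    ∀ ε : ℝ, 0 < ε → ∃ T : ℝ, 0 < T ∧ ∀ t, 0 ≤ t → t ≤ T →
      ∀ x, |cv (dil t (gam n)) f x - f x| ≤ ε := by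
  intro ε hε
  have huc : UniformContinuous f := hf.uniformContinuous_of_tendsto_cocompact
    hc.is_zero_at_infty
  have hnice : Nice f := Nice.of_continuous hf hc
  obtain ⟨C, hC⟩ := hnice.bdd
  have hC0 : 0 ≤ C := (abs_nonneg _).trans (hC 0)
  obtain ⟨δ, hδ, hδ2⟩ := Metric.uniformContinuous_iff.1 huc (ε / 2) (by positivity)
  obtain ⟨R, hR0, hR⟩ := gam_tail n (η := ε / (4 * (C + 1))) (by positivity)
  refine ⟨δ / (2 * R), by positivity, fun t ht0 htT x => ?_⟩
  have htR : t * R < δ := by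
    have h0 : t * R ≤ δ / (2 * R) * R := mul_le_mul_of_nonneg_right htT hR0.le
    have h1 : δ / (2 * R) * R = δ / 2 := by
      field_simp
    linarith
  rw [cv_dil (gam n) t hf.measurable x]
  have hint : Integrable (fun y => f (x + t • y)) (gam n) :=
    Integrable.of_bound (hf.comp
      (continuous_const.add (continuous_const_smul t))).aestronglyMeasurable
      C (Eventually.of_forall fun y => by
        simpa [Real.norm_eq_abs] using hC (x + t • y))
  have h1 : ∫ y, f (x + t • y) ∂(gam n) - f x = ∫ y, (f (x + t • y) - f x) ∂(gam n) := by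
    rw [integral_sub hint (integrable_const _)]
    simp
  have hms : MeasurableSet {y : V n | R < ‖y‖} := measurableSet_lt measurable_const measurable_norm
  have h2 : ∀ y, |f (x + t • y) - f x| ≤ ε / 2 + {y : V n | R < ‖y‖}.indicator (fun _ => 2 * C) y := by
    intro y
    by_cases hy : R < ‖y‖
    · have h3 : |f (x + t • y) - f x| ≤ |f (x + t • y)| + |f x| := abs_sub _ _
      have h4 := hC (x + t • y)
      have h5 := hC x
      rw [Set.indicator_of_mem (show y ∈ {y : V n | R < ‖y‖} from hy)]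
      linarith
    · have hyR : ‖y‖ ≤ R := not_lt.1 hy
      rw [Set.indicator_of_notMem (show y ∉ {y : V n | R < ‖y‖} from hy), add_zero]
      have h6 : dist (x + t • y) x < δ := by
        rw [dist_eq_norm, add_sub_cancel_left, norm_smul, Real.norm_eq_abs, abs_of_nonneg ht0]
        exact (mul_le_mul_of_nonneg_left hyR ht0).trans_lt htR
      have h7 := hδ2 h6
      rw [Real.dist_eq] at h7
      exact h7.le
  have h8 : ∫ y, (ε / 2 + {y : V n | R < ‖y‖}.indicator (fun _ => 2 * C) y) ∂(gam n) =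
      ε / 2 + (gam n).real {y : V n | R < ‖y‖} * (2 * C) := by
    rw [integral_add (integrable_const _) ((integrable_const _).indicator hms),
      integral_indicator hms]
    simp
  have h9 : (gam n).real {y : V n | R < ‖y‖} * (2 * C) ≤ ε / 2 := by
    have h10 : (gam n).real {y : V n | R < ‖y‖} * (2 * C) ≤ ε / (4 * (C + 1)) * (2 * C) :=
      mul_le_mul_of_nonneg_right hR (by positivity)
    have h11 : ε / (4 * (C + 1)) * (2 * C) = ε / 2 * (C / (C + 1)) := by
      field_simp
      ring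
    have h12 : C / (C + 1) ≤ 1 := (div_le_one (by positivity)).2 (by linarith)
    have h13 : ε / 2 * (C / (C + 1)) ≤ ε / 2 * 1 := mul_le_mul_of_nonneg_left h12 (by positivity)
    linarith
  rw [h1]
  calc |∫ y, (f (x + t • y) - f x) ∂(gam n)|
      ≤ ∫ y, |f (x + t • y) - f x| ∂(gam n) := abs_integral_le_integral_abs
    _ ≤ ∫ y, (ε / 2 + {y : V n | R < ‖y‖}.indicator (fun _ => 2 * C) y) ∂(gam n) :=
        integral_mono (hint.sub (integrable_const _)).abs
          ((integrable_const _).add ((integrable_const _).indicator hms)) h2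
    _ = ε / 2 + (gam n).real {y : V n | R < ‖y‖} * (2 * C) := h8
    _ ≤ ε := by linarith

end Pool.Agent.CB
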