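import Pool.Agent.CB.Cv

/-!
# CB-Interp: Marcinkiewicz interpolation with explicit dependence on the two bounds

Let `c > 0` be defined by `B1^p1 c^(p1-p) = B2^2 c^(2-p)`, i.e. `c^(2-p1) = B1^p1 / B2^2`. For
`l > 0` split `f = f1 + f2`, `f2 = max (-c l) (min f (c l))` (continuous truncation, `Nice.clamp`), so
`|f1| <= |f| 1_{|f| > c l}` and `|f2|^2 <= |f|^2 1_{|f| <= c l} + (c l)^2 1_{|f| > c l}`. Then
`ν {T f > l} <= ν {T f1 > l/2} + ν {T f2 > l/2}
   <= (2/l)^p1 B1^p1 ∫_{|f| > c l} |f|^p1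
      + (2/l)^2 B2^2 (∫_{|f| <= c l} |f|^2 + (c l)^2 vol {|f| > c l})` (Markov,
`mul_meas_ge_le_lintegral₀`). Multiply by `p l^(p-1)`, integrate over `l > 0`
(`lintegral_rpow_eq_lintegral_meas_lt_mul`), Tonelli:
`∫ (T f)^p <= p 2^p1 B1^p1 / (p - p1) * c^(p1-p) ∫ |f|^p + 4 p B2^2 / (2-p) * c^(2-p) ∫ |f|^p
   + 4 B2^2 c^(2-p) ∫ |f|^p`, and
`B1^p1 c^(p1-p) = B2^2 c^(2-p) = B1^(p1 (2-p)/(2-p1)) B2^(2 (p-p1)/(2-p1))`.
-/

set_option autoImplicit false

open MeasureTheory Set
open scoped ENNReal NNReal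

namespace Pool.Agent.CB

variable {n : ℕ}

/-- The constant in Marcinkiewicz interpolation. -/
noncomputable def mc (p1 p : ℝ) : ℝ := p * 2 ^ p1 / (p - p1) + 4 * p / (2 - p) + 4

theorem mc_pos {p1 p : ℝ} (h1 : 1 ≤ p1) (h2 : p1 < p) (h3 : p < 2) : 0 < mc p1 p := by
  unfold mc
  have ha : 0 < p * 2 ^ p1 / (p - p1) :=
    div_pos (mul_pos (by linarith) (Real.rpow_pos_of_pos (by norm_num) _)) (by linarith)
  have hb : 0 < 4 * p / (2 - p) := div_pos (by linarith) (by linarith)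
  linarith

private theorem lint_low {e r : ℝ} (he : -1 < e) (hr : 0 < r) :
    ∫⁻ l in Ioc 0 r, ENNReal.ofReal (l ^ e) = ENNReal.ofReal (r ^ (e + 1) / (e + 1)) := by
  rw [← ofReal_integral_eq_lintegral_ofReal]
  · rw [← intervalIntegral.integral_of_le hr.le, integral_rpow (Or.inl he),
      Real.zero_rpow (by linarith), sub_zero]
  · exact (intervalIntegral.intervalIntegrable_rpow' he).1
  · filter_upwards [ae_restrict_mem measurableSet_Ioc] with l hl
    exact Real.rpow_nonneg hl.1.le _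

private theorem lint_high {e r : ℝ} (he : e < -1) (hr : 0 < r) :
    ∫⁻ l in Ioi r, ENNReal.ofReal (l ^ e) = ENNReal.ofReal (-r ^ (e + 1) / (e + 1)) := by
  rw [← ofReal_integral_eq_lintegral_ofReal]
  · rw [integral_Ioi_rpow_of_lt he hr]
  · exact integrableOn_Ioi_rpow_of_lt he hr
  · filter_upwards [ae_restrict_mem measurableSet_Ioi] with l hl
    exact Real.rpow_nonneg (hr.trans hl).le _

private noncomputable def ph (b1 b2 c p1 p a l : ℝ) : ℝ :=
  ((2 / l) ^ p1 * b1 * (if c * l < a then a ^ p1 else 0)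
    + (2 / l) ^ (2 : ℝ) * b2 * (min a (c * l)) ^ (2 : ℝ)) * l ^ (p - 1)

private theorem measurable_ph (b1 b2 c p1 p : ℝ) {α : Type*} [MeasurableSpace α] {u v : α → ℝ}
    (hu : Measurable u) (hv : Measurable v) :
    Measurable (fun z => ph b1 b2 c p1 p (u z) (v z)) := by
  unfold ph
  refine Measurable.mul (Measurable.add ?_ ?_) (hv.pow_const _)
  · refine Measurable.mul ?_ (Measurable.ite ?_ (hu.pow_const _) measurable_const)
    · exact ((measurable_const.div hv).pow_const _).mul_const _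
    · exact measurableSet_lt (hv.const_mul _) hu
  · refine Measurable.mul ?_ ((hu.min (hv.const_mul _)).pow_const _)
    exact ((measurable_const.div hv).pow_const _).mul_const _

private theorem pw {p1 p : ℝ} (h1 : 1 ≤ p1) (h2 : p1 < p) (h3 : p < 2) {b1 b2 c : ℝ}
    (hb1 : 0 ≤ b1) (hb2 : 0 ≤ b2) (hc : 0 < c) {a : ℝ} (ha : 0 ≤ a) :
    ∫⁻ l in Ioi (0 : ℝ), ENNReal.ofReal (ph b1 b2 c p1 p a l) ≤
      ENNReal.ofReal ((2 ^ p1 * (b1 * c ^ (p1 - p)) / (p - p1)
        + 4 * (b2 * c ^ (2 - p)) * (1 / (2 - p) + 1 / p)) * a ^ p) := by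
  rcases ha.eq_or_lt with ha0 | ha0
  · subst ha0
    refine le_of_eq_of_le ?_ bot_le
    rw [bot_eq_zero]
    have : ∫⁻ l in Ioi (0 : ℝ), ENNReal.ofReal (ph b1 b2 c p1 p 0 l) =
        ∫⁻ l in Ioi (0 : ℝ), 0 := by
      refine setLIntegral_congr_fun measurableSet_Ioi (fun l hl => ?_)
      have hl' : 0 < l := hl
      have hcl : 0 < c * l := mul_pos hc hl'
      simp only [ph]
      rw [if_neg (not_lt.2 hcl.le), min_eq_left hcl.le, Real.zero_rpow (by norm_num)]
      simp
    rw [this, lintegral_zero]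
  set r : ℝ := a / c with hr
  have hr0 : 0 < r := div_pos ha0 hc
  have hun : Ioi (0 : ℝ) = Ioc 0 r ∪ Ioi r := (Ioc_union_Ioi_eq_Ioi hr0.le).symm
  rw [hun]
  refine (lintegral_union_le _ _ _).trans ?_
  set A : ℝ := 2 ^ p1 * b1 * a ^ p1 with hA
  set B : ℝ := 4 * b2 * c ^ (2 : ℝ) with hB
  set D : ℝ := 4 * b2 * a ^ (2 : ℝ) with hD
  have hA0 : 0 ≤ A := by rw [hA]; positivity
  have hB0 : 0 ≤ B := by rw [hB]; positivity
  have hD0 : 0 ≤ D := by rw [hD]; positivity
  have hlow : ∫⁻ l in Ioc 0 r, ENNReal.ofReal (ph b1 b2 c p1 p a l) ≤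
      ENNReal.ofReal (A * (r ^ (p - p1) / (p - p1)) + B * (r ^ p / p)) := by
    calc ∫⁻ l in Ioc 0 r, ENNReal.ofReal (ph b1 b2 c p1 p a l)
        ≤ ∫⁻ l in Ioc 0 r, (ENNReal.ofReal A * ENNReal.ofReal (l ^ (p - p1 - 1))
            + ENNReal.ofReal B * ENNReal.ofReal (l ^ (p - 1))) := by
          refine setLIntegral_mono' measurableSet_Ioc (fun l hl => ?_)
          have hl0 : 0 < l := hl.1
          rw [← ENNReal.ofReal_mul hA0, ← ENNReal.ofReal_mul hB0,
            ← ENNReal.ofReal_add (mul_nonneg hA0 (Real.rpow_nonneg hl0.le _))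
              (mul_nonneg hB0 (Real.rpow_nonneg hl0.le _))]
          apply ENNReal.ofReal_le_ofReal
          unfold ph
          rw [add_mul]
          have e1 : (2 / l) ^ p1 * b1 * a ^ p1 * l ^ (p - 1) = A * l ^ (p - p1 - 1) := by
            rw [hA, Real.div_rpow (by norm_num) hl0.le,
              show p - 1 = (p - p1 - 1) + p1 by ring, Real.rpow_add hl0]
            have : l ^ p1 ≠ 0 := (Real.rpow_pos_of_pos hl0 _).ne'
            field_simp
          have e2 : (2 / l) ^ (2 : ℝ) * b2 * (c * l) ^ (2 : ℝ) * l ^ (p - 1)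
              = B * l ^ (p - 1) := by
            rw [hB, Real.div_rpow (by norm_num) hl0.le, Real.mul_rpow hc.le hl0.le]
            have : l ^ (2 : ℝ) ≠ 0 := (Real.rpow_pos_of_pos hl0 _).ne'
            field_simp
            norm_num
            ring
          have hcl : 0 < c * l := mul_pos hc hl0
          apply add_le_add
          · rw [← e1]
            have hpos : 0 ≤ (2 / l) ^ p1 * b1 := by positivity
            have : (if c * l < a then a ^ p1 else 0) ≤ a ^ p1 := by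
              split_ifs
              · exact le_rfl
              · exact Real.rpow_nonneg ha _
            gcongr
          · rw [← e2]
            have hpos : 0 ≤ (2 / l) ^ (2 : ℝ) * b2 := by positivity
            have h0 : 0 ≤ min a (c * l) := le_min ha hcl.le
            have : min a (c * l) ^ (2 : ℝ) ≤ (c * l) ^ (2 : ℝ) :=
              Real.rpow_le_rpow h0 (min_le_right _ _) (by norm_num)
            gcongr
      _ = ENNReal.ofReal A * ENNReal.ofReal (r ^ (p - p1 - 1 + 1) / (p - p1 - 1 + 1))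
            + ENNReal.ofReal B * ENNReal.ofReal (r ^ (p - 1 + 1) / (p - 1 + 1)) := by
          have m1 : ∀ e : ℝ, Measurable fun l : ℝ => ENNReal.ofReal (l ^ e) := fun e =>
            (measurable_id.pow_const e).ennreal_ofReal
          rw [lintegral_add_left ((m1 _).const_mul _), lintegral_const_mul _ (m1 _),
            lintegral_const_mul _ (m1 _), lint_low (by linarith) hr0, lint_low (by linarith) hr0]
      _ = ENNReal.ofReal (A * (r ^ (p - p1) / (p - p1)) + B * (r ^ p / p)) := by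
          rw [sub_add_cancel, sub_add_cancel, ← ENNReal.ofReal_mul hA0, ← ENNReal.ofReal_mul hB0,
            ← ENNReal.ofReal_add]
          · exact mul_nonneg hA0 (div_nonneg (Real.rpow_nonneg hr0.le _) (by linarith))
          · exact mul_nonneg hB0 (div_nonneg (Real.rpow_nonneg hr0.le _) (by linarith))
  have hhigh : ∫⁻ l in Ioi r, ENNReal.ofReal (ph b1 b2 c p1 p a l) ≤
      ENNReal.ofReal (D * (r ^ (p - 2) / (2 - p))) := by
    calc ∫⁻ l in Ioi r, ENNReal.ofReal (ph b1 b2 c p1 p a l)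
        ≤ ∫⁻ l in Ioi r, ENNReal.ofReal D * ENNReal.ofReal (l ^ (p - 3)) := by
          refine setLIntegral_mono' measurableSet_Ioi (fun l hl => ?_)
          have hl1 : r < l := hl
          have hl0 : 0 < l := hr0.trans hl1
          have hal : a < c * l := by
            rw [hr, div_lt_iff₀ hc] at hl1
            linarith
          rw [← ENNReal.ofReal_mul hD0]
          apply ENNReal.ofReal_le_ofReal
          unfold ph
          rw [if_neg (not_lt.2 hal.le), min_eq_left hal.le, mul_zero, zero_add]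
          apply le_of_eq
          rw [hD, Real.div_rpow (by norm_num) hl0.le,
            show p - 1 = (p - 3) + 2 by ring, Real.rpow_add hl0]
          have : l ^ (2 : ℝ) ≠ 0 := (Real.rpow_pos_of_pos hl0 _).ne'
          field_simp
          norm_num
          ring
      _ = ENNReal.ofReal D * ENNReal.ofReal (-r ^ (p - 3 + 1) / (p - 3 + 1)) := by
          have m1 : ∀ e : ℝ, Measurable fun l : ℝ => ENNReal.ofReal (l ^ e) := fun e =>
            (measurable_id.pow_const e).ennreal_ofReal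
          rw [lintegral_const_mul _ (m1 _), lint_high (by linarith) hr0]
      _ = ENNReal.ofReal (D * (r ^ (p - 2) / (2 - p))) := by
          rw [← ENNReal.ofReal_mul hD0]
          congr 2
          rw [show p - 3 + 1 = p - 2 by ring, ← neg_div_neg_eq (r ^ (p - 2)) (2 - p)]
          congr 1
          ring
  refine (add_le_add hlow hhigh).trans ?_
  rw [← ENNReal.ofReal_add]
  rotate_left
  · refine add_nonneg (mul_nonneg hA0 (div_nonneg (Real.rpow_nonneg hr0.le _) (by linarith)))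
      (mul_nonneg hB0 (div_nonneg (Real.rpow_nonneg hr0.le _) (by linarith)))
  · exact mul_nonneg hD0 (div_nonneg (Real.rpow_nonneg hr0.le _) (by linarith))
  apply le_of_eq
  congr 1
  have hap : 0 < a ^ p := Real.rpow_pos_of_pos ha0 _
  have E1 : A * r ^ (p - p1) = 2 ^ p1 * (b1 * c ^ (p1 - p)) * a ^ p := by
    rw [hA, hr, Real.div_rpow ha hc.le, show p1 - p = -(p - p1) by ring, Real.rpow_neg hc.le,
      show a ^ p = a ^ p1 * a ^ (p - p1) by rw [← Real.rpow_add ha0]; congr 1; ring]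
    ring
  have E2 : B * r ^ p = 4 * (b2 * c ^ (2 - p)) * a ^ p := by
    rw [hB, hr, Real.div_rpow ha hc.le, Real.rpow_sub hc]
    ring
  have E3 : D * r ^ (p - 2) = 4 * (b2 * c ^ (2 - p)) * a ^ p := by
    rw [hD, hr, Real.div_rpow ha hc.le, show (2 : ℝ) - p = -(p - 2) by ring, Real.rpow_neg hc.le,
      show a ^ p = a ^ (2 : ℝ) * a ^ (p - 2) by rw [← Real.rpow_add ha0]; congr 1; ring]
    ring
  calc A * (r ^ (p - p1) / (p - p1)) + B * (r ^ p / p) + D * (r ^ (p - 2) / (2 - p))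
      = (A * r ^ (p - p1)) / (p - p1) + (B * r ^ p) / p + (D * r ^ (p - 2)) / (2 - p) := by ring
    _ = _ := by rw [E1, E2, E3]; ring

private theorem markov {X : Type} [MeasurableSpace X] (ν : Measure X) {g : X → ℝ≥0}
    (hg : Measurable g) {s l : ℝ} (hs : 0 < s) (hl : 0 < l) :
    ν {x | l / 2 < (g x : ℝ)} ≤
      ENNReal.ofReal ((2 / l) ^ s) * ∫⁻ x, (g x : ℝ≥0∞) ^ s ∂ν := by
  have h2 : 0 < l / 2 := by linarith
  have hε : 0 < (l / 2) ^ s := Real.rpow_pos_of_pos h2 _
  have hm : AEMeasurable (fun x => (g x : ℝ≥0∞) ^ s) ν :=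
    (hg.coe_nnreal_ennreal.pow_const s).aemeasurable
  have key := meas_ge_le_lintegral_div hm (ε := ENNReal.ofReal ((l / 2) ^ s))
    (by simpa using hε) ENNReal.ofReal_ne_top
  calc ν {x | l / 2 < (g x : ℝ)}
      ≤ ν {x | ENNReal.ofReal ((l / 2) ^ s) ≤ (g x : ℝ≥0∞) ^ s} := by
        apply measure_mono
        intro x hx
        have hx' : l / 2 < (g x : ℝ) := hx
        show ENNReal.ofReal ((l / 2) ^ s) ≤ (g x : ℝ≥0∞) ^ s
        rw [← ENNReal.ofReal_coe_nnreal, ENNReal.ofReal_rpow_of_nonneg (NNReal.coe_nonneg (g x)) hs.le]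
        exact ENNReal.ofReal_le_ofReal (Real.rpow_le_rpow h2.le hx'.le hs.le)
    _ ≤ (∫⁻ x, (g x : ℝ≥0∞) ^ s ∂ν) / ENNReal.ofReal ((l / 2) ^ s) := key
    _ = ENNReal.ofReal ((2 / l) ^ s) * ∫⁻ x, (g x : ℝ≥0∞) ^ s ∂ν := by
        rw [ENNReal.div_eq_inv_mul, ← ENNReal.ofReal_inv_of_pos hε, ← Real.inv_rpow h2.le,
          inv_div]

theorem interp {X : Type} [MeasurableSpace X] (ν : Measure X) (T : (V n → ℝ) → X → ℝ≥0)
    (hTm : ∀ f, Nice f → Measurable (T f))
    (hTs : ∀ f g, Nice f → Nice g → ∀ x, T (fun y => f y + g y) x ≤ T f x + T g x)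
    {p1 p : ℝ} (h1 : 1 ≤ p1) (h2 : p1 < p) (h3 : p < 2) {B1 B2 : ℝ} (hB1 : 0 < B1) (hB2 : 0 < B2)
    (w1 : ∀ f, Nice f → ∫⁻ x, (T f x : ℝ≥0∞) ^ p1 ∂ν ≤
      ENNReal.ofReal (B1 ^ p1) * ∫⁻ x, ‖f x‖ₑ ^ p1)
    (w2 : ∀ f, Nice f → ∫⁻ x, (T f x : ℝ≥0∞) ^ (2 : ℝ) ∂ν ≤
      ENNReal.ofReal (B2 ^ 2) * ∫⁻ x, ‖f x‖ₑ ^ (2 : ℝ))
    (f : V n → ℝ) (hf : Nice f) :
    ∫⁻ x, (T f x : ℝ≥0∞) ^ p ∂ν ≤
      ENNReal.ofReal (mc p1 p * B1 ^ (p1 * (2 - p) / (2 - p1)) * B2 ^ (2 * (p - p1) / (2 - p1))) *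
        ∫⁻ x, ‖f x‖ₑ ^ p := by
  have hp0 : 0 < p := by linarith
  have hp10 : 0 < p1 := by linarith
  set c : ℝ := (B1 ^ p1 / B2 ^ (2 : ℝ)) ^ (1 / (2 - p1)) with hc_def
  have hq0 : 0 < B1 ^ p1 / B2 ^ (2 : ℝ) :=
    div_pos (Real.rpow_pos_of_pos hB1 _) (Real.rpow_pos_of_pos hB2 _)
  have hc : 0 < c := Real.rpow_pos_of_pos hq0 _
  set M : ℝ := B1 ^ (p1 * (2 - p) / (2 - p1)) * B2 ^ (2 * (p - p1) / (2 - p1)) with hM
  have hcpow : ∀ e : ℝ, c ^ e = B1 ^ (p1 * e / (2 - p1)) * B2 ^ (-(2 * e / (2 - p1))) := by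
    intro e
    rw [hc_def, ← Real.rpow_mul hq0.le, Real.div_rpow (Real.rpow_nonneg hB1.le _)
      (Real.rpow_nonneg hB2.le _), ← Real.rpow_mul hB1.le, ← Real.rpow_mul hB2.le,
      Real.rpow_neg hB2.le, div_eq_mul_inv,
      show p1 * (1 / (2 - p1) * e) = p1 * e / (2 - p1) by ring,
      show 2 * (1 / (2 - p1) * e) = 2 * e / (2 - p1) by ring]
  have h2p1 : 2 - p1 ≠ 0 := by linarith
  have K1 : B1 ^ p1 * c ^ (p1 - p) = M := by
    rw [hcpow, hM, ← mul_assoc, ← Real.rpow_add hB1]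
    congr 2
    · field_simp; ring
    · field_simp; ring
  have K2 : B2 ^ (2 : ℝ) * c ^ (2 - p) = M := by
    rw [hcpow, hM, mul_left_comm, ← Real.rpow_add hB2]
    congr 2
    · field_simp; ring
  have hM0 : 0 < M := by
    rw [hM]
    exact mul_pos (Real.rpow_pos_of_pos hB1 _) (Real.rpow_pos_of_pos hB2 _)
  -- layer cake
  have hlay : ∫⁻ x, (T f x : ℝ≥0∞) ^ p ∂ν =
      ENNReal.ofReal p * ∫⁻ t in Ioi (0 : ℝ), ν {x | t < (T f x : ℝ)} *
        ENNReal.ofReal (t ^ (p - 1)) := by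
    rw [← lintegral_rpow_eq_lintegral_meas_lt_mul ν
      (f := fun x => (T f x : ℝ)) (Filter.Eventually.of_forall (fun x => NNReal.coe_nonneg (T f x)))
      ((hTm f hf).coe_nnreal_real.aemeasurable) hp0]
    refine lintegral_congr (fun x => ?_)
    rw [← ENNReal.ofReal_coe_nnreal, ENNReal.ofReal_rpow_of_nonneg (NNReal.coe_nonneg (T f x)) hp0.le]
  rw [hlay]
  have hstep : ∀ l : ℝ, 0 < l → ν {x | l < (T f x : ℝ)} * ENNReal.ofReal (l ^ (p - 1)) ≤
      ∫⁻ x, ENNReal.ofReal (ph (B1 ^ p1) (B2 ^ (2 : ℝ)) c p1 p |f x| l) := by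
    intro l hl
    have hcl : 0 < c * l := mul_pos hc hl
    set f2 : V n → ℝ := fun x => max (-(c * l)) (min (f x) (c * l)) with hf2
    set f1 : V n → ℝ := fun x => f x - f2 x with hf1
    have hn2 : Nice f2 := hf.clamp hcl.le
    have hn1 : Nice f1 := hf.sub hn2
    have hsum : (fun y => f1 y + f2 y) = f := by
      funext y
      simp [hf1]
    have hT : ∀ x, (T f x : ℝ) ≤ (T f1 x : ℝ) + (T f2 x : ℝ) := by
      intro x
      have := hTs f1 f2 hn1 hn2 x
      rw [hsum] at this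
      exact_mod_cast this
    have hsub : {x | l < (T f x : ℝ)} ⊆ {x | l / 2 < (T f1 x : ℝ)} ∪ {x | l / 2 < (T f2 x : ℝ)} := by
      intro x hx
      have hx' : l < (T f x : ℝ) := hx
      have := hT x
      by_contra hcon
      rw [mem_union, not_or] at hcon
      obtain ⟨ha, hb⟩ := hcon
      have ha' : (T f1 x : ℝ) ≤ l / 2 := not_lt.1 ha
      have hb' : (T f2 x : ℝ) ≤ l / 2 := not_lt.1 hb
      linarith
    have a2 : ∀ x, |f2 x| = min |f x| (c * l) := by
      intro x
      show |max (-(c * l)) (min (f x) (c * l))| = min |f x| (c * l)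
      rcases le_total (f x) (c * l) with hh1 | hh1
      · rw [min_eq_left hh1]
        rcases le_total (-(c * l)) (f x) with hh2 | hh2
        · rw [max_eq_right hh2, min_eq_left (abs_le.2 ⟨hh2, hh1⟩)]
        · rw [max_eq_left hh2, abs_neg, abs_of_pos hcl, min_eq_right]
          rw [le_abs]; right; linarith
      · rw [min_eq_right hh1, max_eq_right (by linarith), abs_of_pos hcl, min_eq_right]
        rw [le_abs]; left; exact hh1
    have a1 : ∀ x, |f1 x| ^ p1 ≤ if c * l < |f x| then |f x| ^ p1 else 0 := by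
      intro x
      have e : f1 x = f x - max (-(c * l)) (min (f x) (c * l)) := rfl
      split_ifs with hh
      · apply Real.rpow_le_rpow (abs_nonneg _) _ hp10.le
        rw [e]
        rcases le_total (f x) (c * l) with hh1 | hh1
        · rw [min_eq_left hh1]
          rcases le_total (-(c * l)) (f x) with hh2 | hh2
          · rw [max_eq_right hh2, sub_self, abs_zero]; exact abs_nonneg _
          · rw [max_eq_left hh2, abs_of_nonpos (by linarith), abs_of_nonpos (by linarith)]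
            linarith
        · rw [min_eq_right hh1, max_eq_right (by linarith), abs_of_nonneg (by linarith),
            abs_of_nonneg (by linarith)]
          linarith
      · have hh' := abs_le.1 (not_lt.1 hh)
        rw [e, min_eq_left hh'.2, max_eq_right hh'.1, sub_self, abs_zero,
          Real.zero_rpow hp10.ne']
    have hl1 : 0 ≤ (2 / l) ^ p1 := by positivity
    have hl2 : 0 ≤ (2 / l) ^ (2 : ℝ) := by positivity
    have m1 : ν {x | l / 2 < (T f1 x : ℝ)} ≤
        ∫⁻ x, ENNReal.ofReal ((2 / l) ^ p1 * B1 ^ p1 *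
          (if c * l < |f x| then |f x| ^ p1 else 0)) := by
      refine (markov ν (hTm f1 hn1) hp10 hl).trans ?_
      refine (mul_le_mul_right (w1 f1 hn1) _).trans ?_
      rw [← mul_assoc, ← ENNReal.ofReal_mul hl1, ← lintegral_const_mul' _ _ ENNReal.ofReal_ne_top]
      refine lintegral_mono (fun x => ?_)
      have hb : 0 ≤ (2 / l) ^ p1 * B1 ^ p1 := by positivity
      rw [Real.enorm_eq_ofReal_abs, ENNReal.ofReal_rpow_of_nonneg (abs_nonneg _) hp10.le,
        ← ENNReal.ofReal_mul hb]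
      exact ENNReal.ofReal_le_ofReal (mul_le_mul_of_nonneg_left (a1 x) hb)
    have m2 : ν {x | l / 2 < (T f2 x : ℝ)} ≤
        ∫⁻ x, ENNReal.ofReal ((2 / l) ^ (2 : ℝ) * B2 ^ (2 : ℝ) *
          (min |f x| (c * l)) ^ (2 : ℝ)) := by
      refine (markov ν (hTm f2 hn2) (by norm_num : (0 : ℝ) < 2) hl).trans ?_
      refine (mul_le_mul_right (w2 f2 hn2) _).trans ?_
      rw [← mul_assoc, ← ENNReal.ofReal_mul hl2, ← lintegral_const_mul' _ _ ENNReal.ofReal_ne_top]
      refine lintegral_mono (fun x => ?_)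
      have hb : 0 ≤ (2 / l) ^ (2 : ℝ) * B2 ^ 2 := by positivity
      rw [Real.enorm_eq_ofReal_abs, a2 x, ENNReal.ofReal_rpow_of_nonneg
        (le_min (abs_nonneg _) hcl.le) (by norm_num), ← ENNReal.ofReal_mul hb,
        Real.rpow_two B2]
    have hlp : 0 ≤ l ^ (p - 1) := Real.rpow_nonneg hl.le _
    calc ν {x | l < (T f x : ℝ)} * ENNReal.ofReal (l ^ (p - 1))
        ≤ (ν {x | l / 2 < (T f1 x : ℝ)} + ν {x | l / 2 < (T f2 x : ℝ)}) *
            ENNReal.ofReal (l ^ (p - 1)) := by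
          gcongr
          exact (measure_mono hsub).trans (measure_union_le _ _)
      _ ≤ ((∫⁻ x, ENNReal.ofReal ((2 / l) ^ p1 * B1 ^ p1 *
            (if c * l < |f x| then |f x| ^ p1 else 0))) +
          ∫⁻ x, ENNReal.ofReal ((2 / l) ^ (2 : ℝ) * B2 ^ (2 : ℝ) *
            (min |f x| (c * l)) ^ (2 : ℝ))) * ENNReal.ofReal (l ^ (p - 1)) := by
          gcongr
      _ = ∫⁻ x, ENNReal.ofReal (ph (B1 ^ p1) (B2 ^ (2 : ℝ)) c p1 p |f x| l) := by
          have hfm : Measurable fun x => |f x| := hf.cont.measurable.abs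
          have hmeas1 : Measurable fun x => ENNReal.ofReal ((2 / l) ^ p1 * B1 ^ p1 *
            (if c * l < |f x| then |f x| ^ p1 else 0)) :=
            ((Measurable.ite (measurableSet_lt measurable_const hfm) (hfm.pow_const _)
              measurable_const).const_mul _).ennreal_ofReal
          rw [← lintegral_add_left hmeas1, ← lintegral_mul_const' _ _ ENNReal.ofReal_ne_top]
          refine lintegral_congr (fun x => ?_)
          have hn1 : 0 ≤ (2 / l) ^ p1 * B1 ^ p1 * (if c * l < |f x| then |f x| ^ p1 else 0) := by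
            have : 0 ≤ (if c * l < |f x| then |f x| ^ p1 else 0) := by
              split_ifs
              · positivity
              · exact le_rfl
            positivity
          have hmin : 0 ≤ min |f x| (c * l) := le_min (abs_nonneg _) hcl.le
          have hn2 : 0 ≤ (2 / l) ^ (2 : ℝ) * B2 ^ (2 : ℝ) * (min |f x| (c * l)) ^ (2 : ℝ) := by
            positivity
          rw [← ENNReal.ofReal_add hn1 hn2, ← ENNReal.ofReal_mul (add_nonneg hn1 hn2)]
          rfl
  have hfin : ∫⁻ t in Ioi (0 : ℝ), ν {x | t < (T f x : ℝ)} * ENNReal.ofReal (t ^ (p - 1)) ≤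
      ENNReal.ofReal (2 ^ p1 * M / (p - p1) + 4 * M * (1 / (2 - p) + 1 / p)) *
        ∫⁻ x, ‖f x‖ₑ ^ p := by
    calc ∫⁻ t in Ioi (0 : ℝ), ν {x | t < (T f x : ℝ)} * ENNReal.ofReal (t ^ (p - 1))
        ≤ ∫⁻ t in Ioi (0 : ℝ), ∫⁻ x, ENNReal.ofReal
            (ph (B1 ^ p1) (B2 ^ (2 : ℝ)) c p1 p |f x| t) :=
          setLIntegral_mono' measurableSet_Ioi (fun l hl => hstep l hl)
      _ = ∫⁻ x, ∫⁻ t in Ioi (0 : ℝ), ENNReal.ofReal
            (ph (B1 ^ p1) (B2 ^ (2 : ℝ)) c p1 p |f x| t) := by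
          apply lintegral_lintegral_swap
          apply Measurable.aemeasurable
          exact (measurable_ph _ _ _ _ _ (hf.cont.measurable.abs.comp measurable_snd)
            measurable_fst).ennreal_ofReal
      _ ≤ ∫⁻ x, ENNReal.ofReal (2 ^ p1 * M / (p - p1) + 4 * M * (1 / (2 - p) + 1 / p)) *
            ‖f x‖ₑ ^ p := by
          refine lintegral_mono (fun x => ?_)
          refine (pw h1 h2 h3 (Real.rpow_nonneg hB1.le p1) (Real.rpow_nonneg hB2.le 2) hc
            (abs_nonneg (f x))).trans ?_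
          rw [K1, K2, Real.enorm_eq_ofReal_abs,
            ENNReal.ofReal_rpow_of_nonneg (abs_nonneg _) hp0.le, ← ENNReal.ofReal_mul]
          have i1 : 0 < 2 - p := by linarith
          have i2 : 0 < p - p1 := by linarith
          positivity
      _ = _ := lintegral_const_mul' _ _ ENNReal.ofReal_ne_top
  refine (mul_le_mul_right hfin _).trans ?_
  rw [← mul_assoc, ← ENNReal.ofReal_mul hp0.le]
  apply le_of_eq
  congr 2
  rw [mul_assoc (mc p1 p), ← hM, mc]
  have i1 : 2 - p ≠ 0 := by linarith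
  have i2 : p - p1 ≠ 0 := by linarith
  field_simp
  ring

end Pool.Agent.CB
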