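import Pool.Agent.CB.Cv
import Pool.Agent.CB.Sym

/-!
# CB-LocX: averages as functions of the logarithm of the scale

For `f` nice, `F (r) = cv (dil (exp (k + r)) μ) f x = ∫ f (x + exp (k+r) • y) dμ(y)` is
continuous in `r` (dominated convergence, `f` bounded), and
`eD N h F r = Ed N h μ (k + r) f x`: for each `i`,
`∫_0^1 F (r + i h u) du = ∫_0^1 ∫ f (x + exp (k + r + i h u) • y) dμ(y) du
  = cv (dil (exp (k + r)) (blur (i h) μ)) f x` (`integral_blur` with the bounded measurable function
`y ↦ f (x + exp (k+r) • y)`). Joint measurability of `(r, x) ↦ Ed N h μ (k + r) f x`: it is continuous in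
`r` and measurable in `x`, or write it as a finite sum of integrals of jointly measurable functions
(`StronglyMeasurable.integral_prod_right`).
-/

set_option autoImplicit false

open MeasureTheory Set
open scoped ENNReal NNReal

namespace Pool.Agent.CB

variable {n : ℕ}

theorem continuous_scale {μ : Measure (V n)} [IsProbabilityMeasure μ] {f : V n → ℝ}
    (hf : Nice f) (k : ℝ) (x : V n) :
    Continuous fun r : ℝ => cv (dil (Real.exp (k + r)) μ) f x := by
  have h0 : (fun r : ℝ => cv (dil (Real.exp (k + r)) μ) f x)
      = fun r : ℝ => ∫ y, f (x + Real.exp (k + r) • y) ∂μ := by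
    funext r
    exact cv_dil μ _ hf.cont.measurable x
  rw [h0]
  obtain ⟨C, hC⟩ := hf.bdd
  have hc := hf.cont
  refine continuous_of_dominated (bound := fun _ => C) ?_ ?_ (integrable_const C) ?_
  · intro r
    have h3 : Continuous fun y : V n => x + Real.exp (k + r) • y :=
      by fun_prop
    have h1 : Continuous fun y : V n => f (x + Real.exp (k + r) • y) := hc.comp h3
    exact h1.aestronglyMeasurable
  · intro r
    exact Filter.Eventually.of_forall fun y => by
      rw [Real.norm_eq_abs]
      exact hC _
  · refine Filter.Eventually.of_forall fun y => ?_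
    have h2 : Continuous fun r : ℝ => x + Real.exp (k + r) • y :=
      continuous_const.add ((Real.continuous_exp.comp
        (continuous_const.add continuous_id)).smul continuous_const)
    exact hc.comp h2

theorem eD_scale {μ : Measure (V n)} [IsProbabilityMeasure μ] {f : V n → ℝ}
    (hf : Nice f) (N : ℕ) (h k r : ℝ) (x : V n) :
    eD N h (fun r : ℝ => cv (dil (Real.exp (k + r)) μ) f x) r = Ed N h μ (k + r) f x := by
  unfold eD Ed
  congr 1
  funext i
  have h3 : Continuous fun y : V n => x + Real.exp (k + r) • y :=
    by fun_prop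
  have h4 : Continuous fun y : V n => f (x + Real.exp (k + r) • y) := hf.cont.comp h3
  have hm : Measurable fun y : V n => f (x + Real.exp (k + r) • y) := h4.measurable
  obtain ⟨C, hC⟩ := hf.bdd
  rw [cv_dil _ _ hf.cont.measurable x,
    integral_blur (μ := μ) (i * h) hm ⟨C, fun y => hC _⟩]
  refine intervalIntegral.integral_congr ?_
  intro u _
  show cv (dil (Real.exp (k + (r + i * h * u))) μ) f x
    = ∫ y, f (x + Real.exp (k + r) • (Real.exp (i * h * u) • y)) ∂μ
  rw [cv_dil _ _ hf.cont.measurable x]
  refine integral_congr_ae (Filter.Eventually.of_forall fun y => ?_)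
  show f (x + Real.exp (k + (r + i * h * u)) • y)
    = f (x + Real.exp (k + r) • (Real.exp (i * h * u) • y))
  rw [smul_smul, ← Real.exp_add, add_assoc]

theorem measurable_scale {μ : Measure (V n)} [IsProbabilityMeasure μ] {f : V n → ℝ}
    (hf : Nice f) (k : ℝ) :
    Measurable fun z : ℝ × V n => cv (dil (Real.exp (k + z.1)) μ) f z.2 := by
  have h0 : (fun z : ℝ × V n => cv (dil (Real.exp (k + z.1)) μ) f z.2)
      = fun z : ℝ × V n => ∫ y, f (z.2 + Real.exp (k + z.1) • y) ∂μ := by
    funext z
    exact cv_dil μ _ hf.cont.measurable z.2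
  rw [h0]
  have h1 : Continuous fun p : (ℝ × V n) × V n => f (p.1.2 + Real.exp (k + p.1.1) • p.2) := by
    refine hf.cont.comp ?_
    refine (continuous_snd.comp continuous_fst).add ?_
    exact (Real.continuous_exp.comp
      (continuous_const.add (continuous_fst.comp continuous_fst))).smul continuous_snd
  have h2 : StronglyMeasurable
      fun p : (ℝ × V n) × V n => f (p.1.2 + Real.exp (k + p.1.1) • p.2) :=
    h1.stronglyMeasurable
  exact (h2.integral_prod_right' (ν := μ)).measurable

theorem measurable_Ed {μ : Measure (V n)} [IsProbabilityMeasure μ] {f : V n → ℝ}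
    (hf : Nice f) (N : ℕ) (h k : ℝ) :
    Measurable fun z : ℝ × V n => Ed N h μ (k + z.1) f z.2 := by
  unfold Ed dif
  refine Finset.measurable_sum _ fun i _ => ?_
  have hp : IsProbabilityMeasure (blur ((i : ℝ) * h) μ) := isProb_blur _
  exact (measurable_scale (μ := blur ((i : ℝ) * h) μ) hf k).const_mul _

end Pool.Agent.CB
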