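import Pool.Agent.CB.L2num
import Pool.Agent.CB.Gauss
import Pool.Agent.CB.LocX
import Pool.Agent.CB.GDec

/-!
# CB-L2M: `L²` bounds with the sum over the octaves

For `0 ≤ r ≤ N + 1` and each integer `k`, `x ↦ Ed N h μ (k + r) g x - Ed N h (gam n) (k + r) g x` with
`g = Qg (k + j) f` is `f` multiplied by
`(edm N h μ (exp (k+r) • ξ) - edm N h (gam n) (exp (k+r) • ξ)) * (Gaussian difference)`
(`isMul_Ed`, `isMul_Qg`, `IsMul.comp`, `IsMul.sub`, `nice_Ed`, `nice_Qg`). By `edm_le` (with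
`exp (k + r) • ξ = exp r • (exp k • ξ)`), for both measures, this is at most
`2 * Ceps N K * h^(N κ) * psi a N κ (exp k * ‖ξ‖) * |...|`; sum of squares by `num_sum`; `pl_le`.
Same for `Nt` with `ft_sub_le`.
-/

set_option autoImplicit false

open MeasureTheory Set
open scoped ENNReal NNReal

namespace Pool.Agent.CB

private theorem l2m_ceps_pos {N : ℕ} {K : ℝ} (hK : 0 ≤ K) : 0 < Ceps N K := by
  unfold Ceps
  positivity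

/-- The square of a product bounded by `A * P`. -/
private theorem l2m_sq {X G A P : ℝ} (hX : |X| ≤ A * P) : (X * G) ^ 2 ≤ A ^ 2 * (P * |G|) ^ 2 := by
  have h1 : |X * G| ≤ A * (P * |G|) := by
    rw [abs_mul]
    calc |X| * |G| ≤ A * P * |G| := mul_le_mul_of_nonneg_right hX (abs_nonneg _)
      _ = A * (P * |G|) := by ring
  have h2 : (X * G) ^ 2 = |X * G| ^ 2 := (sq_abs _).symm
  rw [h2]
  calc |X * G| ^ 2 ≤ (A * (P * |G|)) ^ 2 := pow_le_pow_left₀ (abs_nonneg _) h1 2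
    _ = A ^ 2 * (P * |G|) ^ 2 := by ring

private theorem l2m_scale {n : ℕ} (k : ℤ) (r : ℝ) (ξ : V n) :
    Real.exp ((k : ℝ) + r) • ξ = Real.exp r • (Real.exp (k : ℝ) • ξ) := by
  rw [smul_smul, ← Real.exp_add, add_comm]

private theorem l2m_norm {n : ℕ} (k : ℤ) (ξ : V n) :
    ‖Real.exp (k : ℝ) • ξ‖ = Real.exp (k : ℝ) * ‖ξ‖ := by
  rw [norm_smul, Real.norm_eq_abs, abs_of_pos (Real.exp_pos _)]

theorem l2_diff {a K κ : ℝ} {N : ℕ} (hK : 0 ≤ K) (ha : 0 < a) (haN : a ≤ N) (k0 : 0 < κ)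
    (k1 : κ ≤ 1) (k2 : (N : ℝ) * κ < a) :
    ∃ C c : ℝ, 0 < C ∧ 0 < c ∧ ∀ (n : ℕ) (μ : Measure (V n)), Dec a N K μ →
      Dec a N K (gam n) → ∀ (f : V n → ℝ), Nice f → ∀ (j : ℤ) (I : Finset ℤ) (h r : ℝ),
      0 < h → h ≤ 1 → 0 ≤ r → r ≤ N + 1 →
      ∑ k ∈ I, ∫⁻ x, ‖Ed N h μ (k + r) (Qg (k + j) f) x -
          Ed N h (gam n) (k + r) (Qg (k + j) f) x‖ₑ ^ (2 : ℝ) ≤
        ENNReal.ofReal (C * Real.exp (-(c * |(j : ℝ)|)) * h ^ (2 * ((N : ℝ) * κ))) *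
          ∫⁻ x, ‖f x‖ₑ ^ (2 : ℝ) := by
  obtain ⟨C1, c, hC1, hc, hnum⟩ := num_sum (a := a) (N := N) k0 k1 k2
  have hCe := l2m_ceps_pos (N := N) hK
  refine ⟨(2 * Ceps N K) ^ 2 * C1, c, by positivity, hc, ?_⟩
  intro n μ hμ hg f hf j I h r h0 h1 r0 r1
  have hpμ := hμ.sym.prob
  have hpg := hg.sym.prob
  refine pl_le I (fun k x => Ed N h μ (k + r) (Qg (k + j) f) x -
          Ed N h (gam n) (k + r) (Qg (k + j) f) x)
    (fun k ξ => (edm N h μ (Real.exp ((k : ℝ) + r) • ξ) -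
        edm N h (gam n) (Real.exp ((k : ℝ) + r) • ξ)) *
      (Real.exp (-(Real.exp ((k + j : ℤ) : ℝ) * ‖ξ‖) ^ 2 / 2) -
          Real.exp (-(Real.exp (((k + j : ℤ) : ℝ) + 1) * ‖ξ‖) ^ 2 / 2))) hf ?_ ?_ ?_
  · intro k _
    exact (nice_Ed (μ := μ) N h _ (nice_Qg _ hf)).sub (nice_Ed (μ := gam n) N h _ (nice_Qg _ hf))
  · intro k _
    exact IsMul.comp (isMul_Qg (k + j) hf)
      (IsMul.sub (nice_Ed (μ := μ) N h _ (nice_Qg _ hf)) (nice_Ed (μ := gam n) N h _ (nice_Qg _ hf))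
        (isMul_Ed hμ.sym N h _ (nice_Qg _ hf)) (isMul_Ed hg.sym N h _ (nice_Qg _ hf)))
  · intro ξ
    have key : ∀ k ∈ I, ((edm N h μ (Real.exp ((k : ℝ) + r) • ξ) -
        edm N h (gam n) (Real.exp ((k : ℝ) + r) • ξ)) *
      (Real.exp (-(Real.exp ((k + j : ℤ) : ℝ) * ‖ξ‖) ^ 2 / 2) -
          Real.exp (-(Real.exp (((k + j : ℤ) : ℝ) + 1) * ‖ξ‖) ^ 2 / 2))) ^ 2 ≤
        (2 * Ceps N K * h ^ ((N : ℝ) * κ)) ^ 2 * (psi a N κ (Real.exp k * ‖ξ‖) *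
        |Real.exp (-(Real.exp ((k + j : ℤ) : ℝ) * ‖ξ‖) ^ 2 / 2) -
          Real.exp (-(Real.exp (((k + j : ℤ) : ℝ) + 1) * ‖ξ‖) ^ 2 / 2)|) ^ 2 := by
      intro k _
      apply l2m_sq
      rw [l2m_scale]
      have e1 := edm_le hK ha haN hμ h0 h1 k0 k1 r0 r1 (Real.exp (k : ℝ) • ξ)
      have e2 := edm_le hK ha haN hg h0 h1 k0 k1 r0 r1 (Real.exp (k : ℝ) • ξ)
      rw [l2m_norm] at e1 e2
      calc |edm N h μ (Real.exp r • (Real.exp (k : ℝ) • ξ)) -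
            edm N h (gam n) (Real.exp r • (Real.exp (k : ℝ) • ξ))|
          ≤ |edm N h μ (Real.exp r • (Real.exp (k : ℝ) • ξ))| +
            |edm N h (gam n) (Real.exp r • (Real.exp (k : ℝ) • ξ))| := abs_sub _ _
        _ ≤ Ceps N K * h ^ ((N : ℝ) * κ) * psi a N κ (Real.exp k * ‖ξ‖) +
            Ceps N K * h ^ ((N : ℝ) * κ) * psi a N κ (Real.exp k * ‖ξ‖) := add_le_add e1 e2
        _ = _ := by ring
    refine (Finset.sum_le_sum key).trans ?_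
    rw [← Finset.mul_sum]
    have hh : (h ^ ((N : ℝ) * κ)) ^ 2 = h ^ (2 * ((N : ℝ) * κ)) := by
      rw [← Real.rpow_natCast (h ^ ((N : ℝ) * κ)) 2, ← Real.rpow_mul h0.le]
      congr 1
      push_cast
      ring
    calc (2 * Ceps N K * h ^ ((N : ℝ) * κ)) ^ 2 * ∑ k ∈ I, (psi a N κ (Real.exp k * ‖ξ‖) *
        |Real.exp (-(Real.exp ((k + j : ℤ) : ℝ) * ‖ξ‖) ^ 2 / 2) -
          Real.exp (-(Real.exp (((k + j : ℤ) : ℝ) + 1) * ‖ξ‖) ^ 2 / 2)|) ^ 2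
        ≤ (2 * Ceps N K * h ^ ((N : ℝ) * κ)) ^ 2 * (C1 * Real.exp (-(c * |(j : ℝ)|))) :=
          mul_le_mul_of_nonneg_left (hnum ‖ξ‖ (norm_nonneg _) j I) (sq_nonneg _)
      _ = (2 * Ceps N K) ^ 2 * C1 * Real.exp (-(c * |(j : ℝ)|)) * (h ^ ((N : ℝ) * κ)) ^ 2 := by ring
      _ = _ := by rw [hh]

theorem l2_nt {a K κ : ℝ} {N : ℕ} (hK : 0 ≤ K) (ha : 0 < a) (haN : a ≤ N) (k0 : 0 < κ)
    (k1 : κ ≤ 1) (k2 : (N : ℝ) * κ < a) :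
    ∃ C c : ℝ, 0 < C ∧ 0 < c ∧ ∀ (n : ℕ) (μ : Measure (V n)), Dec a N K μ →
      Dec a N K (gam n) → ∀ (f : V n → ℝ), Nice f → ∀ (j : ℤ) (I : Finset ℤ) (r : ℝ),
      0 ≤ r → r ≤ N + 1 →
      ∑ k ∈ I, ∫⁻ x, ‖Nt μ (Real.exp (k + r)) (Qg (k + j) f) x‖ₑ ^ (2 : ℝ) ≤
        ENNReal.ofReal (C * Real.exp (-(c * |(j : ℝ)|))) * ∫⁻ x, ‖f x‖ₑ ^ (2 : ℝ) := by
  obtain ⟨C1, c, hC1, hc, hnum⟩ := num_sum (a := a) (N := N) k0 k1 k2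
  have hCe := l2m_ceps_pos (N := N) hK
  refine ⟨(2 * Ceps N K) ^ 2 * C1, c, by positivity, hc, ?_⟩
  intro n μ hμ hg f hf j I r r0 r1
  have hpμ := hμ.sym.prob
  have hpg := hg.sym.prob
  have hN1 : ∀ k : ℤ, Nice (cv (dil (Real.exp ((k : ℝ) + r)) μ) (Qg (k + j) f)) := fun k => by
    have := isProb_dil (μ := μ) (Real.exp ((k : ℝ) + r))
    exact nice_cv (nice_Qg _ hf)
  have hN2 : ∀ k : ℤ, Nice (cv (dil (Real.exp ((k : ℝ) + r)) (gam n)) (Qg (k + j) f)) := fun k => by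
    have := isProb_dil (μ := gam n) (Real.exp ((k : ℝ) + r))
    exact nice_cv (nice_Qg _ hf)
  refine pl_le I (fun k x => Nt μ (Real.exp (k + r)) (Qg (k + j) f) x)
    (fun k ξ => (ft (dil (Real.exp ((k : ℝ) + r)) μ) ξ -
        ft (dil (Real.exp ((k : ℝ) + r)) (gam n)) ξ) *
      (Real.exp (-(Real.exp ((k + j : ℤ) : ℝ) * ‖ξ‖) ^ 2 / 2) -
          Real.exp (-(Real.exp (((k + j : ℤ) : ℝ) + 1) * ‖ξ‖) ^ 2 / 2))) hf ?_ ?_ ?_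
  · intro k _
    exact (hN1 k).sub (hN2 k)
  · intro k _
    exact IsMul.comp (isMul_Qg (k + j) hf)
      (IsMul.sub (hN1 k) (hN2 k)
        (isMul_cv (hμ.sym.dil _) (nice_Qg _ hf)) (isMul_cv (hg.sym.dil _) (nice_Qg _ hf)))
  · intro ξ
    have key : ∀ k ∈ I, ((ft (dil (Real.exp ((k : ℝ) + r)) μ) ξ -
        ft (dil (Real.exp ((k : ℝ) + r)) (gam n)) ξ) *
      (Real.exp (-(Real.exp ((k + j : ℤ) : ℝ) * ‖ξ‖) ^ 2 / 2) -
          Real.exp (-(Real.exp (((k + j : ℤ) : ℝ) + 1) * ‖ξ‖) ^ 2 / 2))) ^ 2 ≤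
        (2 * Ceps N K) ^ 2 * (psi a N κ (Real.exp k * ‖ξ‖) *
        |Real.exp (-(Real.exp ((k + j : ℤ) : ℝ) * ‖ξ‖) ^ 2 / 2) -
          Real.exp (-(Real.exp (((k + j : ℤ) : ℝ) + 1) * ‖ξ‖) ^ 2 / 2)|) ^ 2 := by
      intro k _
      apply l2m_sq
      rw [ft_dil, ft_dil, l2m_scale]
      have e1 := ft_sub_le hK ha haN hμ hg k0 k1 r0 r1 (Real.exp (k : ℝ) • ξ)
      rw [l2m_norm] at e1
      exact e1
    refine (Finset.sum_le_sum key).trans ?_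
    rw [← Finset.mul_sum]
    calc (2 * Ceps N K) ^ 2 * ∑ k ∈ I, (psi a N κ (Real.exp k * ‖ξ‖) *
        |Real.exp (-(Real.exp ((k + j : ℤ) : ℝ) * ‖ξ‖) ^ 2 / 2) -
          Real.exp (-(Real.exp (((k + j : ℤ) : ℝ) + 1) * ‖ξ‖) ^ 2 / 2)|) ^ 2
        ≤ (2 * Ceps N K) ^ 2 * (C1 * Real.exp (-(c * |(j : ℝ)|))) :=
          mul_le_mul_of_nonneg_left (hnum ‖ξ‖ (norm_nonneg _) j I) (sq_nonneg _)
      _ = _ := by ring

end Pool.Agent.CB
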