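import Pool.Agent.CB.Defs

/-!
# CB-Loc1: the supremum of a function of one variable by averaged differences

Write `S_h F = F - E_h F` up to sign: `E_h F = eD N h F`, `S_h F = F - E_h F`, i.e.
`S_h F (s) = - ∑_{i=1}^N (-1)^i C(N,i) ∫_0^1 F (s + i h u) du` (the term `i = 0` of `eD` is `F s`).

1. For continuous `F`: `E_h F` and `S_h F` are continuous, and `S_h S_{h'} F = S_{h'} S_h F`
   (Fubini: `∫_0^1 ∫_0^1 F (s + i h u + j h' v) du dv`; swap `intervalIntegral_integral_...` or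
   `MeasureTheory.integral_integral_swap`).
2. Hence `S_{h'} F - S_h F = S_{h'} (E_h F) - S_h (E_{h'} F)`.
3. For `0 < h ≤ 1`, `s ∈ [0,1]`:
   `|S_h G (s)| ≤ 2^N h^(-1/p) (∫_{[0,N+1]} |G|^p)^(1/p)` because
   `∫_0^1 |G (s + i h u)| du = (1/(i h)) ∫_s^{s + i h} |G| ≤ (i h)^(-1/p) (∫ |G|^p)^(1/p)` (Hölder)
   and `∑_{i ≥ 1} C(N,i) ≤ 2^N`.
4. `F s = S_1 F s + ∑_{l < L} (S_{2^-(l+1)} F - S_{2^-l} F) s + (F - S_{2^-L} F) s`, and
   `(F - S_{2^-L} F) s = E_{2^-L} F s → 0` as `L → ∞` by continuity if `N ≥ 1`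
   (`∑_i (-1)^i C(N,i) = 0`).
5. Sum: with `A l = (∫_{[0,N+1]} |E_{2^-l} F|^p)^(1/p)` the total is at most
   `2^N A_{-1} + 2^N ∑_l (2^((l+1)/p) A l + 2^(l/p) A (l+1)) ≤ 2^N (A_{-1} + 3 ∑_l 2^(l/p) A l)`.
-/

set_option autoImplicit false

open MeasureTheory Set
open scoped ENNReal NNReal

namespace Pool.Agent.CB

private theorem continuous_avg2 {F : ℝ → ℝ} (hF : Continuous F) {X : Type*} [TopologicalSpace X]
    {a b : X → ℝ} (ha : Continuous a) (hb : Continuous b) :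
    Continuous fun x => ∫ u in (0 : ℝ)..1, F (a x + b x * u) := by
  apply intervalIntegral.continuous_parametric_intervalIntegral_of_continuous'
  exact hF.comp (((ha.comp continuous_fst).add ((hb.comp continuous_fst).mul continuous_snd)))

theorem continuous_eD (N : ℕ) (h : ℝ) {F : ℝ → ℝ} (hF : Continuous F) :
    Continuous (eD N h F) := by
  unfold eD dif
  refine continuous_finsetSum _ fun i _ => Continuous.mul continuous_const ?_
  exact continuous_avg2 hF continuous_id continuous_const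

private theorem continuous_eD_step (N : ℕ) (s : ℝ) {F : ℝ → ℝ} (hF : Continuous F) :
    Continuous (fun h => eD N h F s) := by
  unfold eD dif
  refine continuous_finsetSum _ fun i _ => Continuous.mul continuous_const ?_
  exact continuous_avg2 hF continuous_const (continuous_const.mul continuous_id)

private theorem eD_zero {N : ℕ} (hN : 1 ≤ N) (s : ℝ) (F : ℝ → ℝ) : eD N 0 F s = 0 := by
  unfold eD dif
  have h1 : ∀ i ∈ Finset.range (N + 1), (-1 : ℝ) ^ i * (N.choose i : ℝ) *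
      (∫ u in (0 : ℝ)..1, F (s + i * 0 * u)) = (-1 : ℝ) ^ i * (N.choose i : ℝ) * F s := by
    intro i _
    simp
  rw [Finset.sum_congr rfl h1, ← Finset.sum_mul]
  have h2 : ∑ i ∈ Finset.range (N + 1), (-1 : ℝ) ^ i * (N.choose i : ℝ) = 0 := by
    have h3 := Int.alternating_sum_range_choose (n := N)
    rw [if_neg (by omega)] at h3
    have h4 : ((∑ i ∈ Finset.range (N + 1), (-1 : ℤ) ^ i * (N.choose i : ℤ) : ℤ) : ℝ) = 0 := by
      rw [h3]; simp
    push_cast at h4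
    exact h4
  rw [h2, zero_mul]

private theorem avg_swap {F : ℝ → ℝ} (hF : Continuous F) (s a b : ℝ) :
    ∫ u in (0 : ℝ)..1, ∫ v in (0 : ℝ)..1, F (s + a * u + b * v) =
      ∫ u in (0 : ℝ)..1, ∫ v in (0 : ℝ)..1, F (s + b * u + a * v) := by
  simp only [intervalIntegral.integral_of_le (zero_le_one' ℝ)]
  rw [MeasureTheory.integral_integral_swap]
  · refine integral_congr_ae (Filter.Eventually.of_forall fun u => ?_)
    refine integral_congr_ae (Filter.Eventually.of_forall fun v => ?_)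
    simp only
    congr 1
    ring
  · rw [Measure.prod_restrict]
    have hc : Continuous (Function.uncurry fun u v : ℝ => F (s + a * u + b * v)) := by
      apply hF.comp
      fun_prop
    refine IntegrableOn.mono_set (t := Icc (0 : ℝ) 1 ×ˢ Icc (0 : ℝ) 1) ?_
      (Set.prod_mono Ioc_subset_Icc_self Ioc_subset_Icc_self)
    exact hc.continuousOn.integrableOn_compact (isCompact_Icc.prod isCompact_Icc)

private theorem eD_eD (N : ℕ) (h h' : ℝ) {F : ℝ → ℝ} (hF : Continuous F) (s : ℝ) :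
    eD N h (eD N h' F) s = ∑ i ∈ Finset.range (N + 1), ∑ j ∈ Finset.range (N + 1),
      ((-1 : ℝ) ^ i * (N.choose i : ℝ)) * ((-1 : ℝ) ^ j * (N.choose j : ℝ)) *
        ∫ u in (0 : ℝ)..1, ∫ v in (0 : ℝ)..1, F (s + (i * h) * u + (j * h') * v) := by
  unfold eD dif
  refine Finset.sum_congr rfl fun i _ => ?_
  beta_reduce
  rw [intervalIntegral.integral_finsetSum]
  · rw [Finset.mul_sum]
    refine Finset.sum_congr rfl fun j _ => ?_
    rw [intervalIntegral.integral_const_mul]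
    ring
  · intro j _
    apply Continuous.intervalIntegrable
    refine Continuous.mul continuous_const ?_
    exact continuous_avg2 hF (by fun_prop) continuous_const

private theorem eD_comm (N : ℕ) (h h' : ℝ) {F : ℝ → ℝ} (hF : Continuous F) (s : ℝ) :
    eD N h (eD N h' F) s = eD N h' (eD N h F) s := by
  rw [eD_eD N h h' hF, eD_eD N h' h hF, Finset.sum_comm]
  refine Finset.sum_congr rfl fun i _ => Finset.sum_congr rfl fun j _ => ?_
  rw [avg_swap hF]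
  ring

private theorem avg_bound {G : ℝ → ℝ} (hG : Continuous G) {p : ℝ} (hp : 1 ≤ p) {N : ℕ} {c s : ℝ}
    (hc : 0 < c) (hcN : c ≤ N) (hs : s ∈ Icc (0 : ℝ) 1) :
    ‖∫ u in (0 : ℝ)..1, G (s + c * u)‖ₑ ≤ ENNReal.ofReal (c ^ (-(1 / p))) *
      (∫⁻ r in Icc (0 : ℝ) (N + 1), ‖G r‖ₑ ^ p) ^ (1 / p) := by
  have hp0 : 0 < p := by linarith
  rw [intervalIntegral.integral_of_le (zero_le_one' ℝ)]
  have hprob : IsProbabilityMeasure ((volume : Measure ℝ).restrict (Ioc 0 1)) := ⟨by simp⟩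
  have hGc : Continuous fun u : ℝ => G (s + c * u) := by fun_prop
  have h1 : ‖∫ u in Ioc (0 : ℝ) 1, G (s + c * u)‖ₑ ≤ ∫⁻ u in Ioc (0 : ℝ) 1, ‖G (s + c * u)‖ₑ :=
    enorm_integral_le_lintegral_enorm _
  have h2 : ∫⁻ u in Ioc (0 : ℝ) 1, ‖G (s + c * u)‖ₑ ≤
      (∫⁻ u in Ioc (0 : ℝ) 1, ‖G (s + c * u)‖ₑ ^ p) ^ (1 / p) := by
    have h3 := eLpNorm'_le_eLpNorm'_of_exponent_le (zero_lt_one' ℝ) hp
      ((volume : Measure ℝ).restrict (Ioc 0 1)) hGc.aestronglyMeasurable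
    simpa [eLpNorm'] using h3
  have hmeas : Measurable fun r : ℝ => ‖G r‖ₑ ^ p :=
    (hG.enorm.measurable).pow_const p
  have hmeas2 : Measurable ((Icc (0 : ℝ) (N + 1)).indicator fun r : ℝ => ‖G r‖ₑ ^ p) :=
    hmeas.indicator measurableSet_Icc
  have h4 : ∫⁻ u in Ioc (0 : ℝ) 1, ‖G (s + c * u)‖ₑ ^ p ≤
      ENNReal.ofReal c⁻¹ * ∫⁻ r in Icc (0 : ℝ) (N + 1), ‖G r‖ₑ ^ p := by
    have h5 : ∫⁻ u in Ioc (0 : ℝ) 1, ‖G (s + c * u)‖ₑ ^ p ≤
        ∫⁻ u, (Icc (0 : ℝ) (N + 1)).indicator (fun r : ℝ => ‖G r‖ₑ ^ p) (s + c * u) := by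
      rw [← lintegral_indicator measurableSet_Ioc]
      refine lintegral_mono fun u => ?_
      by_cases hu : u ∈ Ioc (0 : ℝ) 1
      · rw [indicator_of_mem hu, indicator_of_mem]
        constructor
        · have := hs.1
          have := mul_pos hc hu.1
          linarith
        · have h6 := hs.2
          have h7 : c * u ≤ c * 1 := mul_le_mul_of_nonneg_left hu.2 hc.le
          linarith
      · rw [indicator_of_notMem hu]
        exact bot_le
    refine h5.trans (le_of_eq ?_)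
    have h8 : ∫⁻ u, (Icc (0 : ℝ) (N + 1)).indicator (fun r : ℝ => ‖G r‖ₑ ^ p) (s + c * u) =
        ∫⁻ v, (Icc (0 : ℝ) (N + 1)).indicator (fun r : ℝ => ‖G r‖ₑ ^ p) (s + v)
          ∂(Measure.map (c * ·) volume) := by
      exact (lintegral_map (hmeas2.comp (measurable_const_add s)) (measurable_const_mul c)).symm
    rw [h8, Real.map_volume_mul_left hc.ne', lintegral_smul_measure, lintegral_add_left_eq_self,
      lintegral_indicator measurableSet_Icc, abs_of_pos (inv_pos.2 hc), smul_eq_mul]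
  refine h1.trans (h2.trans ?_)
  have h9 : (∫⁻ u in Ioc (0 : ℝ) 1, ‖G (s + c * u)‖ₑ ^ p) ^ (1 / p) ≤
      (ENNReal.ofReal c⁻¹ * ∫⁻ r in Icc (0 : ℝ) (N + 1), ‖G r‖ₑ ^ p) ^ (1 / p) :=
    ENNReal.rpow_le_rpow h4 (by positivity)
  refine h9.trans (le_of_eq ?_)
  rw [ENNReal.mul_rpow_of_nonneg _ _ (by positivity), ENNReal.ofReal_rpow_of_pos (inv_pos.2 hc),
    Real.inv_rpow hc.le, ← Real.rpow_neg hc.le]

private theorem sub_eD_bound {G : ℝ → ℝ} (hG : Continuous G) {p : ℝ} (hp : 1 ≤ p) {N : ℕ}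
    {h s : ℝ} (hh : 0 < h) (hh1 : h ≤ 1) (hs : s ∈ Icc (0 : ℝ) 1) :
    ‖G s - eD N h G s‖ₑ ≤ 2 ^ N * (ENNReal.ofReal (h ^ (-(1 / p))) *
      (∫⁻ r in Icc (0 : ℝ) (N + 1), ‖G r‖ₑ ^ p) ^ (1 / p)) := by
  have hp0 : 0 < p := by linarith
  have e1 : G s - eD N h G s = -∑ i ∈ Finset.range N, (-1 : ℝ) ^ (i + 1) *
      (N.choose (i + 1) : ℝ) * ∫ u in (0 : ℝ)..1, G (s + ((i + 1 : ℕ) : ℝ) * h * u) := by
    unfold eD dif
    rw [Finset.sum_range_succ']
    simp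
  rw [e1, enorm_neg]
  refine (enorm_sum_le _ _).trans ?_
  have e2 : ∀ i ∈ Finset.range N, ‖(-1 : ℝ) ^ (i + 1) * (N.choose (i + 1) : ℝ) *
      ∫ u in (0 : ℝ)..1, G (s + ((i + 1 : ℕ) : ℝ) * h * u)‖ₑ ≤
      (N.choose (i + 1) : ℝ≥0∞) * (ENNReal.ofReal (h ^ (-(1 / p))) *
      (∫⁻ r in Icc (0 : ℝ) (N + 1), ‖G r‖ₑ ^ p) ^ (1 / p)) := by
    intro i hi
    have hi' : i + 1 ≤ N := Finset.mem_range.1 hi
    have hi1 : ((i + 1 : ℕ) : ℝ) ≤ N := by exact_mod_cast hi'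
    have hi0 : (1 : ℝ) ≤ ((i + 1 : ℕ) : ℝ) := by
      push_cast
      have : (0 : ℝ) ≤ i := Nat.cast_nonneg i
      linarith
    rw [enorm_mul, enorm_mul]
    have e3 : ‖(-1 : ℝ) ^ (i + 1)‖ₑ = 1 := by
      rw [enorm_pow]; simp
    have e4 : ‖(N.choose (i + 1) : ℝ)‖ₑ = (N.choose (i + 1) : ℝ≥0∞) := by
      simp
    rw [e3, e4, one_mul]
    refine mul_le_mul_right ?_ _
    have hc : 0 < ((i + 1 : ℕ) : ℝ) * h := by positivity
    have hcN : ((i + 1 : ℕ) : ℝ) * h ≤ N := by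
      calc ((i + 1 : ℕ) : ℝ) * h ≤ ((i + 1 : ℕ) : ℝ) * 1 :=
            mul_le_mul_of_nonneg_left hh1 (by positivity)
        _ ≤ N := by rw [mul_one]; exact hi1
    refine (avg_bound hG hp hc hcN hs).trans ?_
    refine mul_le_mul_left (ENNReal.ofReal_le_ofReal ?_) _
    refine Real.rpow_le_rpow_of_nonpos hh ?_ (by
      have : 0 < 1 / p := by positivity
      linarith)
    calc h = 1 * h := (one_mul h).symm
      _ ≤ ((i + 1 : ℕ) : ℝ) * h := mul_le_mul_of_nonneg_right hi0 hh.le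
  refine (Finset.sum_le_sum e2).trans ?_
  rw [← Finset.sum_mul]
  refine mul_le_mul_left ?_ _
  have e5 : ∑ i ∈ Finset.range N, N.choose (i + 1) ≤ 2 ^ N := by
    rw [← Nat.sum_range_choose, Finset.sum_range_succ' _ N]
    exact Nat.le_add_right _ _
  exact_mod_cast e5

theorem loc_sup {N : ℕ} (hN : 1 ≤ N) {p : ℝ} (hp : 1 ≤ p) {F : ℝ → ℝ} (hF : Continuous F)
    {s : ℝ} (hs : s ∈ Icc (0 : ℝ) 1) :
    ‖F s‖ₑ ≤ 2 ^ N * ((∫⁻ r in Icc (0 : ℝ) (N + 1), ‖F r‖ₑ ^ p) ^ (1 / p) +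
      4 * ∑' l : ℕ, ENNReal.ofReal (2 ^ ((l : ℝ) / p)) *
        (∫⁻ r in Icc (0 : ℝ) (N + 1), ‖eD N ((2 : ℝ) ^ (-(l : ℝ))) F r‖ₑ ^ p) ^ (1 / p)) := by
  have hp0 : 0 < p := by linarith
  set A : ℕ → ℝ≥0∞ := fun l =>
    (∫⁻ r in Icc (0 : ℝ) (N + 1), ‖eD N ((2 : ℝ) ^ (-(l : ℝ))) F r‖ₑ ^ p) ^ (1 / p) with hA
  set A0 : ℝ≥0∞ := (∫⁻ r in Icc (0 : ℝ) (N + 1), ‖F r‖ₑ ^ p) ^ (1 / p) with hA0
  set w : ℕ → ℝ≥0∞ := fun l => ENNReal.ofReal (2 ^ ((l : ℝ) / p)) with hw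
  set E : ℕ → ℝ → ℝ := fun l => eD N ((2 : ℝ) ^ (-(l : ℝ))) F with hE
  have hstep0 : ∀ l : ℕ, (0 : ℝ) < (2 : ℝ) ^ (-(l : ℝ)) := fun l => by positivity
  have hstep1 : ∀ l : ℕ, (2 : ℝ) ^ (-(l : ℝ)) ≤ 1 := fun l =>
    Real.rpow_le_one_of_one_le_of_nonpos (by norm_num) (by simp)
  have hwl : ∀ l : ℕ, ENNReal.ofReal (((2 : ℝ) ^ (-(l : ℝ))) ^ (-(1 / p))) = w l := by
    intro l
    rw [hw, ← Real.rpow_mul (by norm_num)]
    congr 2
    ring
  have hw1 : ∀ l : ℕ, w (l + 1) ≤ 2 * w l := by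
    intro l
    simp only [hw]
    rw [show (2 : ℝ≥0∞) = ENNReal.ofReal 2 by simp, ← ENNReal.ofReal_mul (by norm_num)]
    refine ENNReal.ofReal_le_ofReal ?_
    push_cast
    rw [add_div, Real.rpow_add (by norm_num), mul_comm]
    refine mul_le_mul_of_nonneg_right ?_ (by positivity)
    calc (2 : ℝ) ^ (1 / p) ≤ 2 ^ (1 : ℝ) :=
          Real.rpow_le_rpow_of_exponent_le (by norm_num) (by rw [div_le_one hp0]; exact hp)
      _ = 2 := by simp
  have hw2 : ∀ l : ℕ, w l ≤ w (l + 1) := by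
    intro l
    simp only [hw]
    refine ENNReal.ofReal_le_ofReal ?_
    refine Real.rpow_le_rpow_of_exponent_le (by norm_num) ?_
    push_cast
    gcongr
    linarith
  have hEc : ∀ l, Continuous (E l) := fun l => continuous_eD N _ hF
  -- one step
  have hdiff : ∀ l : ℕ, ‖E l s - E (l + 1) s‖ₑ ≤ 2 ^ N * (2 * (w l * A l) + w (l + 1) * A (l + 1)) := by
    intro l
    have h1 : E l s - E (l + 1) s =
        (E l s - eD N ((2 : ℝ) ^ (-((l + 1 : ℕ) : ℝ))) (E l) s) -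
          (E (l + 1) s - eD N ((2 : ℝ) ^ (-(l : ℝ))) (E (l + 1)) s) := by
      have h2 : eD N ((2 : ℝ) ^ (-((l + 1 : ℕ) : ℝ))) (E l) s =
          eD N ((2 : ℝ) ^ (-(l : ℝ))) (E (l + 1)) s := eD_comm N _ _ hF s
      rw [h2]; ring
    rw [h1]
    refine (enorm_sub_le).trans ?_
    have h3 := sub_eD_bound (hEc l) hp (N := N) (hstep0 (l + 1)) (hstep1 (l + 1)) hs
    have h4 := sub_eD_bound (hEc (l + 1)) hp (N := N) (hstep0 l) (hstep1 l) hs
    rw [hwl] at h3 h4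
    refine (add_le_add h3 h4).trans ?_
    rw [← mul_add]
    refine mul_le_mul_right (add_le_add ?_ ?_) _
    · rw [← mul_assoc]
      exact mul_le_mul_left (hw1 l) _
    · exact mul_le_mul_left (hw2 l) _
  -- all levels
  have hall : ∀ L : ℕ, ‖F s‖ₑ ≤ 2 ^ N * (A0 + 4 * ∑' l, w l * A l) + ‖E L s‖ₑ := by
    intro L
    have h1 : F s = (F s - E 0 s) + (∑ l ∈ Finset.range L, (E l s - E (l + 1) s)) + E L s := by
      rw [Finset.sum_range_sub' (fun l => E l s) L]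
      ring
    have h2 : ‖F s - E 0 s‖ₑ ≤ 2 ^ N * A0 := by
      have h3 := sub_eD_bound hF hp (N := N) (hstep0 0) (hstep1 0) hs
      rw [hwl 0] at h3
      have h4 : w 0 = 1 := by simp [hw]
      rwa [h4, one_mul] at h3
    have h5 : ‖∑ l ∈ Finset.range L, (E l s - E (l + 1) s)‖ₑ ≤
        2 ^ N * (3 * ∑' l, w l * A l) := by
      refine (enorm_sum_le _ _).trans ((Finset.sum_le_sum fun l _ => hdiff l).trans ?_)
      rw [← Finset.mul_sum, Finset.sum_add_distrib, ← Finset.mul_sum]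
      refine mul_le_mul_right ?_ _
      have h6 : ∑ l ∈ Finset.range L, w l * A l ≤ ∑' l, w l * A l :=
        ENNReal.sum_le_tsum _
      have h7 : ∑ l ∈ Finset.range L, w (l + 1) * A (l + 1) ≤ ∑' l, w l * A l := by
        have h8 : ∑ l ∈ Finset.range (L + 1), w l * A l ≤ ∑' l, w l * A l :=
          ENNReal.sum_le_tsum _
        rw [Finset.sum_range_succ'] at h8
        exact le_self_add.trans h8
      calc 2 * ∑ l ∈ Finset.range L, w l * A l + ∑ l ∈ Finset.range L, w (l + 1) * A (l + 1)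
          ≤ 2 * ∑' l, w l * A l + ∑' l, w l * A l :=
            add_le_add (mul_le_mul_right h6 _) h7
        _ = 3 * ∑' l, w l * A l := by ring
    calc ‖F s‖ₑ = ‖(F s - E 0 s) + (∑ l ∈ Finset.range L, (E l s - E (l + 1) s)) + E L s‖ₑ := by
          rw [← h1]
      _ ≤ ‖F s - E 0 s‖ₑ + ‖∑ l ∈ Finset.range L, (E l s - E (l + 1) s)‖ₑ + ‖E L s‖ₑ :=
          (enorm_add_le _ _).trans (add_le_add (enorm_add_le _ _) le_rfl)
      _ ≤ 2 ^ N * A0 + 2 ^ N * (3 * ∑' l, w l * A l) + ‖E L s‖ₑ :=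
          add_le_add (add_le_add h2 h5) le_rfl
      _ ≤ 2 ^ N * (A0 + 4 * ∑' l, w l * A l) + ‖E L s‖ₑ := by
          refine add_le_add ?_ le_rfl
          rw [← mul_add]
          refine mul_le_mul_right (add_le_add le_rfl (mul_le_mul_left ?_ _)) _
          norm_num
  -- the limit
  have hlim : Filter.Tendsto (fun L : ℕ => E L s) Filter.atTop (nhds 0) := by
    have h1 : Filter.Tendsto (fun L : ℕ => (2 : ℝ) ^ (-(L : ℝ))) Filter.atTop (nhds 0) := by
      have h2 := tendsto_pow_atTop_nhds_zero_of_lt_one (r := (1 / 2 : ℝ)) (by norm_num)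
        (by norm_num)
      refine h2.congr fun L => ?_
      rw [Real.rpow_neg (by norm_num), Real.rpow_natCast, one_div, inv_pow]
    have h3 := (continuous_eD_step N s hF).tendsto 0
    rw [eD_zero hN] at h3
    exact h3.comp h1
  have hlim2 : Filter.Tendsto (fun L : ℕ => 2 ^ N * (A0 + 4 * ∑' l, w l * A l) + ‖E L s‖ₑ)
      Filter.atTop (nhds (2 ^ N * (A0 + 4 * ∑' l, w l * A l) + 0)) := by
    refine Filter.Tendsto.add tendsto_const_nhds ?_
    have h4 := (continuous_enorm (E := ℝ)).tendsto 0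
    rw [enorm_zero] at h4
    exact h4.comp hlim
  have hfin := ge_of_tendsto' hlim2 hall
  rwa [add_zero] at hfin

end Pool.Agent.CB
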