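import Pool.Agent.CB.L2M
import Pool.Agent.CB.Loc1

/-!
# CB-L2T: the `L²` bound for the pieces `Tj`, with exponential decay in `j`

Fix `κ` with `1/2 < N κ < a`, `κ ≤ 1` (possible because `1/2 < a ≤ N`, e.g. `κ = (1/2 + a)/(2 N)`).
Let `I` be the set of `⌊log t⌋`, `t ∈ S`. For `t ∈ S`, `k = ⌊log t⌋`, `t = exp (k + s)`, `s ∈ [0,1]`, and with
`g = Qg (k + j) f`, `F r = Nt μ (exp (k + r)) g x` (continuous, `continuous_scale`), `loc_sup` with `p = 2` and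
`eD_scale` (`eD` is linear for continuous functions: `eD_sub`) give
`‖Nt μ t g x‖ₑ ≤ 2^N (A k x + 4 ∑ l, 2^(l/2) A' l k x)`, where
`A k x ^2 = ∫_{[0,N+1]} ‖Nt μ (exp (k+r)) g x‖^2 dr`, and the same with the difference operators `Ed` of step
`2^-l`. Minkowski in `L²(V n; ℓ²(I))` (`ENNReal.lintegral_Lp_add_le` on the product of the volume with the
counting measure on `I`, and its version for series; or: weights,
`(∑ l, a l)^2 ≤ (∑ l, w l) * ∑ l, a l^2 / w l` with `w l = 2^(-l η)` for a small `η`, which avoids Minkowski), Tonelli,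
`l2_nt`, `l2_diff`; the series `∑ l, 2^(l/2) 2^(-l N κ)` converges because `N κ > 1/2`.
-/

set_option autoImplicit false

open MeasureTheory Set
open scoped ENNReal NNReal

namespace Pool.Agent.CB

theorem eD_sub (N : ℕ) (h : ℝ) {F G : ℝ → ℝ} (hF : Continuous F) (hG : Continuous G) (s : ℝ) :
    eD N h (fun r => F r - G r) s = eD N h F s - eD N h G s := by
  unfold eD dif
  rw [← Finset.sum_sub_distrib]
  refine Finset.sum_congr rfl fun i _ => ?_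
  beta_reduce
  rw [intervalIntegral.integral_sub, mul_sub]
  · exact (hF.comp (by fun_prop)).intervalIntegrable _ _
  · exact (hG.comp (by fun_prop)).intervalIntegrable _ _

private theorem tsum_sq_le (u y : ℕ → ℝ≥0∞) :
    (∑' l, u l * y l) ^ (2 : ℝ) ≤ (∑' l, u l ^ (2 : ℝ)) * ∑' l, y l ^ (2 : ℝ) := by
  have hpq : (2 : ℝ).HolderConjugate 2 := Real.HolderConjugate.two_two
  have h := ENNReal.lintegral_mul_le_Lp_mul_Lq (Measure.count : Measure ℕ) hpq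
    (f := u) (g := y) (measurable_from_top.aemeasurable) (measurable_from_top.aemeasurable)
  simp only [Pi.mul_apply, lintegral_count] at h
  calc (∑' l, u l * y l) ^ (2 : ℝ) ≤
      ((∑' l, u l ^ (2 : ℝ)) ^ (1 / (2 : ℝ)) * (∑' l, y l ^ (2 : ℝ)) ^ (1 / (2 : ℝ))) ^ (2 : ℝ) :=
        ENNReal.rpow_le_rpow h (by norm_num)
    _ = (∑' l, u l ^ (2 : ℝ)) * ∑' l, y l ^ (2 : ℝ) := by
        rw [ENNReal.mul_rpow_of_nonneg _ _ (by norm_num), ← ENNReal.rpow_mul, ← ENNReal.rpow_mul]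
        norm_num

private theorem pt_bound {N : ℕ} (hN : 1 ≤ N) (η : ℝ) {F : ℝ → ℝ} (hF : Continuous F) {s : ℝ}
    (hs : s ∈ Icc (0 : ℝ) 1) :
    ‖F s‖ₑ ^ (2 : ℝ) ≤ 2 ^ (2 * N + 1) * ((∫⁻ r in Icc (0 : ℝ) (N + 1), ‖F r‖ₑ ^ (2 : ℝ)) +
      16 * ((∑' l : ℕ, ENNReal.ofReal ((2 : ℝ) ^ (-(l : ℝ) * η))) *
        ∑' l : ℕ, ENNReal.ofReal ((2 : ℝ) ^ ((l : ℝ) * (1 + η))) *
          ∫⁻ r in Icc (0 : ℝ) (N + 1), ‖eD N ((2 : ℝ) ^ (-(l : ℝ))) F r‖ₑ ^ (2 : ℝ))) := by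
  have h := loc_sup hN (p := 2) (by norm_num) hF hs
  set A0 : ℝ≥0∞ := ∫⁻ r in Icc (0 : ℝ) (N + 1), ‖F r‖ₑ ^ (2 : ℝ) with hA0
  set A : ℕ → ℝ≥0∞ := fun l =>
    ∫⁻ r in Icc (0 : ℝ) (N + 1), ‖eD N ((2 : ℝ) ^ (-(l : ℝ))) F r‖ₑ ^ (2 : ℝ) with hA
  set T : ℝ≥0∞ := ∑' l : ℕ, ENNReal.ofReal (2 ^ ((l : ℝ) / 2)) * (A l) ^ (1 / (2 : ℝ)) with hTdef
  have hT : T ^ (2 : ℝ) ≤ (∑' l : ℕ, ENNReal.ofReal ((2 : ℝ) ^ (-(l : ℝ) * η))) *
      ∑' l : ℕ, ENNReal.ofReal ((2 : ℝ) ^ ((l : ℝ) * (1 + η))) * A l := by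
    have h1 := tsum_sq_le (fun l : ℕ => ENNReal.ofReal ((2 : ℝ) ^ (-(l : ℝ) * η / 2)))
      (fun l : ℕ => ENNReal.ofReal ((2 : ℝ) ^ ((l : ℝ) * (1 + η) / 2)) * (A l) ^ (1 / (2 : ℝ)))
    have e1 : T = ∑' l : ℕ, ENNReal.ofReal ((2 : ℝ) ^ (-(l : ℝ) * η / 2)) *
        (ENNReal.ofReal ((2 : ℝ) ^ ((l : ℝ) * (1 + η) / 2)) * (A l) ^ (1 / (2 : ℝ))) := by
      rw [hTdef]
      refine tsum_congr fun l => ?_
      rw [← mul_assoc, ← ENNReal.ofReal_mul (by positivity), ← Real.rpow_add (by norm_num)]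
      congr 3
      ring
    have e2 : ∀ l : ℕ, (ENNReal.ofReal ((2 : ℝ) ^ (-(l : ℝ) * η / 2))) ^ (2 : ℝ) =
        ENNReal.ofReal ((2 : ℝ) ^ (-(l : ℝ) * η)) := by
      intro l
      rw [ENNReal.ofReal_rpow_of_nonneg (by positivity) (by norm_num),
        ← Real.rpow_mul (by norm_num)]
      congr 2
      ring
    have e3 : ∀ l : ℕ, (ENNReal.ofReal ((2 : ℝ) ^ ((l : ℝ) * (1 + η) / 2)) *
        (A l) ^ (1 / (2 : ℝ))) ^ (2 : ℝ) =
        ENNReal.ofReal ((2 : ℝ) ^ ((l : ℝ) * (1 + η))) * A l := by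
      intro l
      rw [ENNReal.mul_rpow_of_nonneg _ _ (by norm_num),
        ENNReal.ofReal_rpow_of_nonneg (by positivity) (by norm_num),
        ← Real.rpow_mul (by norm_num), ← ENNReal.rpow_mul]
      congr 1
      · congr 2
        ring
      · norm_num
    rw [← e1] at h1
    simp only [e2, e3] at h1
    exact h1
  calc ‖F s‖ₑ ^ (2 : ℝ) ≤ (2 ^ N * (A0 ^ (1 / (2 : ℝ)) + 4 * T)) ^ (2 : ℝ) :=
        ENNReal.rpow_le_rpow h (by norm_num)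
    _ = (2 ^ N) ^ (2 : ℝ) * (A0 ^ (1 / (2 : ℝ)) + 4 * T) ^ (2 : ℝ) :=
        ENNReal.mul_rpow_of_nonneg _ _ (by norm_num)
    _ ≤ (2 ^ N) ^ (2 : ℝ) * ((2 : ℝ≥0∞) ^ ((2 : ℝ) - 1) *
          ((A0 ^ (1 / (2 : ℝ))) ^ (2 : ℝ) + (4 * T) ^ (2 : ℝ))) := by
        gcongr
        exact ENNReal.rpow_add_le_mul_rpow_add_rpow _ _ (by norm_num)
    _ = 2 ^ (2 * N + 1) * (A0 + 16 * T ^ (2 : ℝ)) := by
        have f1 : ((2 : ℝ≥0∞) ^ N) ^ (2 : ℝ) = 2 ^ (2 * N) := by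
          rw [ENNReal.rpow_two, ← pow_mul, mul_comm]
        have f2 : (2 : ℝ≥0∞) ^ ((2 : ℝ) - 1) = 2 := by
          norm_num
        have f3 : (A0 ^ (1 / (2 : ℝ))) ^ (2 : ℝ) = A0 := by
          rw [← ENNReal.rpow_mul]
          norm_num
        have f4 : (4 * T) ^ (2 : ℝ) = 16 * T ^ (2 : ℝ) := by
          rw [ENNReal.mul_rpow_of_nonneg _ _ (by norm_num)]
          congr 1
          rw [ENNReal.rpow_two]
          norm_num
        rw [f1, f2, f3, f4, pow_succ, mul_assoc]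
    _ ≤ _ := by
        gcongr

theorem l2_Tj {a K : ℝ} {N : ℕ} (hK : 0 ≤ K) (ha : 1 / 2 < a) (haN : a ≤ N) :
    ∃ C c : ℝ, 0 < C ∧ 0 < c ∧ ∀ (n : ℕ) (μ : Measure (V n)), Dec a N K μ →
      Dec a N K (gam n) → ∀ (S : Finset ℝ), (∀ t ∈ S, 0 < t) → ∀ (f : V n → ℝ), Nice f →
      ∀ (j : ℤ), ∫⁻ x, (Tj μ S j f x : ℝ≥0∞) ^ (2 : ℝ) ≤
        ENNReal.ofReal (C * Real.exp (-(c * |(j : ℝ)|))) * ∫⁻ x, ‖f x‖ₑ ^ (2 : ℝ) := by
  have hNpos : (0 : ℝ) < N := by linarith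
  have hN : 1 ≤ N := by
    have : 0 < N := by exact_mod_cast hNpos
    omega
  set η : ℝ := (a - 1 / 2) / 2 with hη
  have η0 : 0 < η := by rw [hη]; linarith
  set κ : ℝ := (1 / 2 + a) / (2 * N) with hκ
  have hNκ : (N : ℝ) * κ = (1 / 2 + a) / 2 := by
    rw [hκ]; field_simp
  have k0 : 0 < κ := by rw [hκ]; positivity
  have k1 : κ ≤ 1 := by
    rw [hκ, div_le_one (by positivity)]
    linarith
  have k2 : (N : ℝ) * κ < a := by rw [hNκ]; linarith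
  obtain ⟨C1, c1, hC1, hc1, H1⟩ := l2_diff (κ := κ) hK (by linarith) haN k0 k1 k2
  obtain ⟨C2, c2, hC2, hc2, H2⟩ := l2_nt (κ := κ) hK (by linarith) haN k0 k1 k2
  set g : ℝ := ∑' l : ℕ, (2 : ℝ) ^ (-(l : ℝ) * η) with hg
  have hsum : Summable fun l : ℕ => (2 : ℝ) ^ (-(l : ℝ) * η) := by
    have h1 : (2 : ℝ) ^ (-η) < 1 := Real.rpow_lt_one_of_one_lt_of_neg (by norm_num) (by linarith)
    have h2 := summable_geometric_of_lt_one (Real.rpow_nonneg (by norm_num : (0 : ℝ) ≤ 2) (-η)) h1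
    refine h2.congr fun l => ?_
    rw [← Real.rpow_natCast, ← Real.rpow_mul (by norm_num)]
    congr 1
    ring
  have hg0 : 0 ≤ g := tsum_nonneg fun l => by positivity
  have hG : ∑' l : ℕ, ENNReal.ofReal ((2 : ℝ) ^ (-(l : ℝ) * η)) = ENNReal.ofReal g :=
    (ENNReal.ofReal_tsum_of_nonneg (fun l => by positivity) hsum).symm
  refine ⟨2 ^ (2 * N + 1) * (N + 1) * (C2 + 16 * g ^ 2 * C1), min c1 c2, by positivity,
    lt_min hc1 hc2, ?_⟩
  intro n μ hμ hγ S hS f hf j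
  have : IsProbabilityMeasure μ := hμ.sym.prob
  have : IsProbabilityMeasure (gam n) := hγ.sym.prob
  have hgk : ∀ k : ℤ, Nice (Qg (k + j) f) := fun k => nice_Qg _ hf
  set A0 : ℤ → V n → ℝ≥0∞ := fun k x => ∫⁻ r in Icc (0 : ℝ) (N + 1),
    ‖Nt μ (Real.exp (k + r)) (Qg (k + j) f) x‖ₑ ^ (2 : ℝ) with hA0
  set Al : ℕ → ℤ → V n → ℝ≥0∞ := fun l k x => ∫⁻ r in Icc (0 : ℝ) (N + 1),
    ‖Ed N ((2 : ℝ) ^ (-(l : ℝ))) μ (k + r) (Qg (k + j) f) x -
      Ed N ((2 : ℝ) ^ (-(l : ℝ))) (gam n) (k + r) (Qg (k + j) f) x‖ₑ ^ (2 : ℝ) with hAl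
  set B : ℤ → V n → ℝ≥0∞ := fun k x => 2 ^ (2 * N + 1) * (A0 k x + 16 * (ENNReal.ofReal g *
    ∑' l : ℕ, ENNReal.ofReal ((2 : ℝ) ^ ((l : ℝ) * (1 + η))) * Al l k x)) with hB
  set I : Finset ℤ := S.image fun t => ⌊Real.log t⌋ with hI
  -- pointwise bound
  have hpt : ∀ t ∈ S, ∀ x, ‖Nt μ t (Qg (⌊Real.log t⌋ + j) f) x‖ₑ ^ (2 : ℝ) ≤
      B ⌊Real.log t⌋ x := by
    intro t ht x
    set k : ℤ := ⌊Real.log t⌋ with hk
    have hs : Real.log t - k ∈ Icc (0 : ℝ) 1 :=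
      ⟨by linarith [Int.floor_le (Real.log t)], by linarith [Int.lt_floor_add_one (Real.log t)]⟩
    have hcμ := continuous_scale (μ := μ) (hgk k) k x
    have hcγ := continuous_scale (μ := gam n) (hgk k) k x
    have hF : Continuous fun r : ℝ => Nt μ (Real.exp (k + r)) (Qg (k + j) f) x := by
      unfold Nt
      exact hcμ.sub hcγ
    have h := pt_bound hN η hF hs
    have e1 : Real.exp (k + (Real.log t - k)) = t := by
      rw [add_sub_cancel, Real.exp_log (hS t ht)]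
    have e2 : ∀ (l : ℕ) (r : ℝ), eD N ((2 : ℝ) ^ (-(l : ℝ)))
        (fun r : ℝ => Nt μ (Real.exp (k + r)) (Qg (k + j) f) x) r =
        Ed N ((2 : ℝ) ^ (-(l : ℝ))) μ (k + r) (Qg (k + j) f) x -
          Ed N ((2 : ℝ) ^ (-(l : ℝ))) (gam n) (k + r) (Qg (k + j) f) x := by
      intro l r
      unfold Nt
      rw [eD_sub N _ hcμ hcγ, eD_scale (hgk k), eD_scale (hgk k)]
    simp only [e1, e2, hG] at h
    exact h
  have hT : ∀ x, (Tj μ S j f x : ℝ≥0∞) ^ (2 : ℝ) ≤ ∑ k ∈ I, B k x := by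
    intro x
    rcases S.eq_empty_or_nonempty with hE | hE
    · have : Tj μ S j f x = 0 := by
        unfold Tj
        rw [hE]
        rfl
      rw [this]
      simp
    · obtain ⟨t, ht, he⟩ := Finset.exists_mem_eq_sup S hE
        (fun t => ‖Nt μ t (Qg (⌊Real.log t⌋ + j) f) x‖₊)
      have he' : Tj μ S j f x = ‖Nt μ t (Qg (⌊Real.log t⌋ + j) f) x‖₊ := he
      rw [he']
      refine (hpt t ht x).trans ?_
      exact Finset.single_le_sum (f := fun k => B k x) (fun _ _ => zero_le)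
        (Finset.mem_image_of_mem _ ht)
  -- measurability
  have mN : ∀ k : ℤ, Measurable fun z : ℝ × V n =>
      ‖Nt μ (Real.exp (k + z.1)) (Qg (k + j) f) z.2‖ₑ ^ (2 : ℝ) := by
    intro k
    refine (Measurable.enorm ?_).pow_const _
    unfold Nt
    exact (measurable_scale (hgk k) k).sub (measurable_scale (hgk k) k)
  have mE : ∀ (l : ℕ) (k : ℤ), Measurable fun z : ℝ × V n =>
      ‖Ed N ((2 : ℝ) ^ (-(l : ℝ))) μ (k + z.1) (Qg (k + j) f) z.2 -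
        Ed N ((2 : ℝ) ^ (-(l : ℝ))) (gam n) (k + z.1) (Qg (k + j) f) z.2‖ₑ ^ (2 : ℝ) := by
    intro l k
    refine (Measurable.enorm ?_).pow_const _
    exact (measurable_Ed (hgk k) N _ k).sub (measurable_Ed (hgk k) N _ k)
  have mA0 : ∀ k, Measurable (A0 k) := fun k =>
    Measurable.lintegral_prod_left' (f := fun z : ℝ × V n =>
      ‖Nt μ (Real.exp (k + z.1)) (Qg (k + j) f) z.2‖ₑ ^ (2 : ℝ)) (mN k)
  have mAl : ∀ l k, Measurable (Al l k) := fun l k =>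
    Measurable.lintegral_prod_left' (f := fun z : ℝ × V n =>
      ‖Ed N ((2 : ℝ) ^ (-(l : ℝ))) μ (k + z.1) (Qg (k + j) f) z.2 -
        Ed N ((2 : ℝ) ^ (-(l : ℝ))) (gam n) (k + z.1) (Qg (k + j) f) z.2‖ₑ ^ (2 : ℝ)) (mE l k)
  have mB : ∀ k, Measurable (B k) := by
    intro k
    refine Measurable.const_mul ((mA0 k).add (Measurable.const_mul (Measurable.const_mul ?_ _) _)) _
    exact Measurable.tsum fun l => (mAl l k).const_mul _
  -- integrals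
  set F2 : ℝ≥0∞ := ∫⁻ x, ‖f x‖ₑ ^ (2 : ℝ) with hF2
  have vol : (volume : Measure ℝ) (Icc (0 : ℝ) (N + 1)) = ENNReal.ofReal (N + 1) := by
    rw [Real.volume_Icc, sub_zero]
  have I0 : ∑ k ∈ I, ∫⁻ x, A0 k x ≤
      ENNReal.ofReal (C2 * Real.exp (-(c2 * |(j : ℝ)|))) * F2 * ENNReal.ofReal (N + 1) := by
    have s1 : ∀ k ∈ I, ∫⁻ x, A0 k x = ∫⁻ r in Icc (0 : ℝ) (N + 1), ∫⁻ x,
        ‖Nt μ (Real.exp (k + r)) (Qg (k + j) f) x‖ₑ ^ (2 : ℝ) := by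
      intro k _
      exact lintegral_lintegral_swap (((mN k).comp measurable_swap).aemeasurable)
    rw [Finset.sum_congr rfl s1, ← lintegral_finsetSum]
    · rw [← vol, ← setLIntegral_const]
      refine setLIntegral_mono measurable_const ?_
      intro r hr
      exact H2 n μ hμ hγ f hf j I r hr.1 hr.2
    · intro k _
      exact Measurable.lintegral_prod_right' (f := fun z : ℝ × V n =>
        ‖Nt μ (Real.exp (k + z.1)) (Qg (k + j) f) z.2‖ₑ ^ (2 : ℝ)) (mN k)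
  have Il : ∀ l : ℕ, ∑ k ∈ I, ∫⁻ x, Al l k x ≤
      ENNReal.ofReal (C1 * Real.exp (-(c1 * |(j : ℝ)|)) *
        ((2 : ℝ) ^ (-(l : ℝ))) ^ (2 * ((N : ℝ) * κ))) * F2 * ENNReal.ofReal (N + 1) := by
    intro l
    have s1 : ∀ k ∈ I, ∫⁻ x, Al l k x = ∫⁻ r in Icc (0 : ℝ) (N + 1), ∫⁻ x,
        ‖Ed N ((2 : ℝ) ^ (-(l : ℝ))) μ (k + r) (Qg (k + j) f) x -
        Ed N ((2 : ℝ) ^ (-(l : ℝ))) (gam n) (k + r) (Qg (k + j) f) x‖ₑ ^ (2 : ℝ) := by
      intro k _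
      exact lintegral_lintegral_swap (((mE l k).comp measurable_swap).aemeasurable)
    rw [Finset.sum_congr rfl s1, ← lintegral_finsetSum]
    · rw [← vol, ← setLIntegral_const]
      refine setLIntegral_mono measurable_const ?_
      intro r hr
      exact H1 n μ hμ hγ f hf j I _ r (by positivity)
        (Real.rpow_le_one_of_one_le_of_nonpos (by norm_num) (by simp)) hr.1 hr.2
    · intro k _
      exact Measurable.lintegral_prod_right' (f := fun z : ℝ × V n =>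
        ‖Ed N ((2 : ℝ) ^ (-(l : ℝ))) μ (k + z.1) (Qg (k + j) f) z.2 -
        Ed N ((2 : ℝ) ^ (-(l : ℝ))) (gam n) (k + z.1) (Qg (k + j) f) z.2‖ₑ ^ (2 : ℝ)) (mE l k)
  have IB : ∑ k ∈ I, ∫⁻ x, B k x = 2 ^ (2 * N + 1) * ((∑ k ∈ I, ∫⁻ x, A0 k x) +
      16 * (ENNReal.ofReal g * ∑' l : ℕ, ENNReal.ofReal ((2 : ℝ) ^ ((l : ℝ) * (1 + η))) *
        ∑ k ∈ I, ∫⁻ x, Al l k x)) := by
    have b1 : ∀ k ∈ I, ∫⁻ x, B k x = 2 ^ (2 * N + 1) * ((∫⁻ x, A0 k x) +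
        16 * (ENNReal.ofReal g * ∑' l : ℕ, ENNReal.ofReal ((2 : ℝ) ^ ((l : ℝ) * (1 + η))) *
          ∫⁻ x, Al l k x)) := by
      intro k _
      have mt : Measurable fun x => ∑' l : ℕ,
          ENNReal.ofReal ((2 : ℝ) ^ ((l : ℝ) * (1 + η))) * Al l k x :=
        Measurable.tsum fun l => (mAl l k).const_mul _
      have m3 : Measurable fun x => ENNReal.ofReal g * ∑' l : ℕ,
          ENNReal.ofReal ((2 : ℝ) ^ ((l : ℝ) * (1 + η))) * Al l k x := mt.const_mul _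
      have m2 : Measurable fun x => 16 * (ENNReal.ofReal g * ∑' l : ℕ,
          ENNReal.ofReal ((2 : ℝ) ^ ((l : ℝ) * (1 + η))) * Al l k x) := m3.const_mul _
      have m1 : Measurable fun x => A0 k x + 16 * (ENNReal.ofReal g * ∑' l : ℕ,
          ENNReal.ofReal ((2 : ℝ) ^ ((l : ℝ) * (1 + η))) * Al l k x) := (mA0 k).add m2
      rw [hB]
      simp only
      rw [lintegral_const_mul _ m1, lintegral_add_left (mA0 k), lintegral_const_mul _ m3,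
        lintegral_const_mul _ mt]
      rw [lintegral_tsum]
      · have e9 : ∀ l : ℕ, ∫⁻ x, ENNReal.ofReal ((2 : ℝ) ^ ((l : ℝ) * (1 + η))) * Al l k x =
            ENNReal.ofReal ((2 : ℝ) ^ ((l : ℝ) * (1 + η))) * ∫⁻ x, Al l k x := fun l =>
          lintegral_const_mul _ (mAl l k)
        simp only [e9]
      · intro l
        exact ((mAl l k).const_mul _).aemeasurable
    rw [Finset.sum_congr rfl b1, ← Finset.mul_sum, Finset.sum_add_distrib, ← Finset.mul_sum,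
      ← Finset.mul_sum]
    congr 4
    have hsw := Summable.tsum_finsetSum (s := I) (f := fun (k : ℤ) (l : ℕ) =>
      ENNReal.ofReal ((2 : ℝ) ^ ((l : ℝ) * (1 + η))) * ∫⁻ x, Al l k x)
      (fun k _ => ENNReal.summable)
    rw [← hsw]
    refine tsum_congr fun l => ?_
    rw [Finset.mul_sum]
  set E : ℝ := Real.exp (-(min c1 c2 * |(j : ℝ)|)) with hE
  have hE1 : Real.exp (-(c1 * |(j : ℝ)|)) ≤ E := by
    rw [hE]
    refine Real.exp_le_exp.2 (neg_le_neg ?_)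
    exact mul_le_mul_of_nonneg_right (min_le_left _ _) (abs_nonneg _)
  have hE2 : Real.exp (-(c2 * |(j : ℝ)|)) ≤ E := by
    rw [hE]
    refine Real.exp_le_exp.2 (neg_le_neg ?_)
    exact mul_le_mul_of_nonneg_right (min_le_right _ _) (abs_nonneg _)
  have hE0 : 0 < E := Real.exp_pos _
  have It : ∑' l : ℕ, ENNReal.ofReal ((2 : ℝ) ^ ((l : ℝ) * (1 + η))) * ∑ k ∈ I, ∫⁻ x, Al l k x ≤
      ENNReal.ofReal g * (ENNReal.ofReal (C1 * E) * F2 * ENNReal.ofReal (N + 1)) := by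
    rw [← hG, ← ENNReal.tsum_mul_right]
    refine ENNReal.tsum_le_tsum fun l => ?_
    refine (mul_le_mul_right (Il l) _).trans ?_
    have key : ENNReal.ofReal ((2 : ℝ) ^ ((l : ℝ) * (1 + η))) *
        ENNReal.ofReal (C1 * Real.exp (-(c1 * |(j : ℝ)|)) *
          ((2 : ℝ) ^ (-(l : ℝ))) ^ (2 * ((N : ℝ) * κ))) ≤
        ENNReal.ofReal ((2 : ℝ) ^ (-(l : ℝ) * η)) * ENNReal.ofReal (C1 * E) := ?_
    · calc _ = (ENNReal.ofReal ((2 : ℝ) ^ ((l : ℝ) * (1 + η))) *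
          ENNReal.ofReal (C1 * Real.exp (-(c1 * |(j : ℝ)|)) *
          ((2 : ℝ) ^ (-(l : ℝ))) ^ (2 * ((N : ℝ) * κ)))) * (F2 * ENNReal.ofReal (N + 1)) := by
            ring
        _ ≤ (ENNReal.ofReal ((2 : ℝ) ^ (-(l : ℝ) * η)) * ENNReal.ofReal (C1 * E)) *
          (F2 * ENNReal.ofReal (N + 1)) := by gcongr
        _ = _ := by ring
    rw [← ENNReal.ofReal_mul (by positivity), ← ENNReal.ofReal_mul (by positivity)]
    refine ENNReal.ofReal_le_ofReal ?_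
    have r1 : ((2 : ℝ) ^ (-(l : ℝ))) ^ (2 * ((N : ℝ) * κ)) =
        (2 : ℝ) ^ (-(l : ℝ) * (1 + η)) * (2 : ℝ) ^ (-(l : ℝ) * η) := by
      rw [← Real.rpow_mul (by norm_num), ← Real.rpow_add (by norm_num), hNκ, hη]
      congr 1
      ring
    have r2 : (2 : ℝ) ^ ((l : ℝ) * (1 + η)) * (2 : ℝ) ^ (-(l : ℝ) * (1 + η)) = 1 := by
      rw [← Real.rpow_add (by norm_num)]
      rw [show (l : ℝ) * (1 + η) + -(l : ℝ) * (1 + η) = 0 by ring, Real.rpow_zero]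
    rw [r1]
    calc (2 : ℝ) ^ ((l : ℝ) * (1 + η)) * (C1 * Real.exp (-(c1 * |(j : ℝ)|)) *
          ((2 : ℝ) ^ (-(l : ℝ) * (1 + η)) * (2 : ℝ) ^ (-(l : ℝ) * η))) =
        ((2 : ℝ) ^ ((l : ℝ) * (1 + η)) * (2 : ℝ) ^ (-(l : ℝ) * (1 + η))) *
          ((2 : ℝ) ^ (-(l : ℝ) * η) * (C1 * Real.exp (-(c1 * |(j : ℝ)|)))) := by ring
      _ = (2 : ℝ) ^ (-(l : ℝ) * η) * (C1 * Real.exp (-(c1 * |(j : ℝ)|))) := by
          rw [r2, one_mul]
      _ ≤ (2 : ℝ) ^ (-(l : ℝ) * η) * (C1 * E) := by gcongr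
  calc ∫⁻ x, (Tj μ S j f x : ℝ≥0∞) ^ (2 : ℝ) ≤ ∫⁻ x, ∑ k ∈ I, B k x := lintegral_mono hT
    _ = ∑ k ∈ I, ∫⁻ x, B k x := lintegral_finsetSum _ fun k _ => mB k
    _ = _ := IB
    _ ≤ 2 ^ (2 * N + 1) * ((ENNReal.ofReal (C2 * E) * F2 * ENNReal.ofReal (N + 1)) +
        16 * (ENNReal.ofReal g * (ENNReal.ofReal g * (ENNReal.ofReal (C1 * E) * F2 *
          ENNReal.ofReal (N + 1))))) := by
        gcongr
        · refine I0.trans ?_
          gcongr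
    _ = ENNReal.ofReal (2 ^ (2 * N + 1) * (N + 1) * (C2 + 16 * g ^ 2 * C1) * E) * F2 := by
        have q1 : (2 : ℝ≥0∞) ^ (2 * N + 1) = ENNReal.ofReal (2 ^ (2 * N + 1)) := by
          rw [ENNReal.ofReal_pow (by norm_num)]
          norm_num
        have q2 : (16 : ℝ≥0∞) = ENNReal.ofReal 16 := by norm_num
        have q3 : (2 : ℝ) ^ (2 * N + 1) * (N + 1) * (C2 + 16 * g ^ 2 * C1) * E =
            2 ^ (2 * N + 1) * ((C2 * E) * (N + 1) + 16 * (g * (g * ((C1 * E) * (N + 1))))) := by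
          ring
        have r1 := ENNReal.ofReal_mul (p := (2 : ℝ) ^ (2 * N + 1))
          (q := (C2 * E) * (N + 1) + 16 * (g * (g * ((C1 * E) * (N + 1))))) (by positivity)
        have r2 := ENNReal.ofReal_add (p := (C2 * E) * (N + 1))
          (q := 16 * (g * (g * ((C1 * E) * (N + 1))))) (by positivity) (by positivity)
        have r3 := ENNReal.ofReal_mul (p := C2 * E) (q := (N : ℝ) + 1) (by positivity)
        have r4 := ENNReal.ofReal_mul (p := 16) (q := g * (g * ((C1 * E) * (N + 1)))) (by norm_num)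
        have r5 := ENNReal.ofReal_mul (p := g) (q := g * ((C1 * E) * (N + 1))) hg0
        have r6 := ENNReal.ofReal_mul (p := g) (q := (C1 * E) * (N + 1)) hg0
        have r7 := ENNReal.ofReal_mul (p := C1 * E) (q := (N : ℝ) + 1) (by positivity)
        rw [q1, q2, q3, r1, r2, r3, r4, r5, r6, r7]
        ring

end Pool.Agent.CB
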