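import Pool.Agent.CB.Eps

/-!
# CB-L2num: the numerical estimate for the sum over the octaves

Let `w ρ = min ρ ρ⁻¹ = exp (-|log ρ|)` for `ρ > 0`, `δ = min κ (a - N κ)` and `δ ≤ 1`. Then
`psi a N κ ρ ≤ w ρ ^ δ` and `|G(u) - G(e u)| ≤ 4 w u ≤ 4 w u ^ δ` for `G u = exp (-u²/2)`
(`1 - exp (-x) ≤ x`; for `u ≤ 1` the difference is at most `e² u²/2 ≤ 4 u`, for `u > 1` at most
`exp (-u²/2) ≤ 1/u`). With `ρ = exp (k + x)` the product is at most
`4 exp (-δ (|k + x| + |k + x + j|)) ≤ 4 exp (-(δ/2) |j|) exp (-(δ/2) |k + x|)`, and the sum over integers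
`k` of `exp (-δ |k + x|)` is at most `2/(1 - exp (-δ))` (two geometric series, `|k + x| ≥ |k - k0| - 1/2`
or the like; any constant depending on `δ` only).
`c = δ`. For `ρ = 0` all terms vanish (`psi 0 = 0` because `κ > 0`).
-/

set_option autoImplicit false

open MeasureTheory Set
open scoped ENNReal NNReal

namespace Pool.Agent.CB

private theorem gdiff (t : ℝ) :
    |Real.exp (-(Real.exp t) ^ 2 / 2) - Real.exp (-(Real.exp (t + 1)) ^ 2 / 2)| ≤
      4 * Real.exp (-|t|) := by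
  have hv : Real.exp (t + 1) = Real.exp t * Real.exp 1 := Real.exp_add t 1
  obtain ⟨u, hut⟩ : ∃ u, u = Real.exp t := ⟨_, rfl⟩
  obtain ⟨e, hee⟩ : ∃ e, e = Real.exp 1 := ⟨_, rfl⟩
  have hu : 0 < u := hut ▸ Real.exp_pos t
  have ht1 : t + 1 ≤ u := hut ▸ Real.add_one_le_exp t
  have e1 : e < 2.7182818286 := hee ▸ Real.exp_one_lt_d9
  have e2 : 1 ≤ e := hee ▸ Real.one_le_exp (by norm_num)
  rw [hv, ← hut, ← hee]
  have huv : u ≤ u * e := le_mul_of_one_le_right hu.le e2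
  have huv2 : u ^ 2 ≤ (u * e) ^ 2 := pow_le_pow_left₀ hu.le huv 2
  have hmono : Real.exp (-(u * e) ^ 2 / 2) ≤ Real.exp (-u ^ 2 / 2) :=
    Real.exp_le_exp.2 (by linarith)
  rw [abs_of_nonneg (sub_nonneg.2 hmono)]
  rcases le_total t 0 with ht | ht
  · have hu1 : u ≤ 1 := hut ▸ Real.exp_le_one_iff.2 ht
    rw [abs_of_nonpos ht, neg_neg, ← hut]
    have h1 : Real.exp (-u ^ 2 / 2) ≤ 1 := Real.exp_le_one_iff.2 (by nlinarith [sq_nonneg u])
    have h2 : 1 - (u * e) ^ 2 / 2 ≤ Real.exp (-(u * e) ^ 2 / 2) := by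
      have := Real.add_one_le_exp (-(u * e) ^ 2 / 2)
      linarith
    have he : e ^ 2 ≤ 8 := by nlinarith
    have hu2 : u ^ 2 ≤ u := by nlinarith
    have h3 : (u * e) ^ 2 / 2 ≤ 4 * u := by
      rw [mul_pow]
      have : u ^ 2 * e ^ 2 ≤ u * 8 := mul_le_mul hu2 he (by positivity) hu.le
      linarith
    linarith
  · rw [abs_of_nonneg ht]
    have h1 : Real.exp (-u ^ 2 / 2) ≤ Real.exp (-t) :=
      Real.exp_le_exp.2 (by nlinarith [sq_nonneg (u - 1)])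
    have h2 : 0 < Real.exp (-(u * e) ^ 2 / 2) := Real.exp_pos _
    have h3 : 0 < Real.exp (-t) := Real.exp_pos _
    linarith

private theorem psi_exp_le {a κ δ : ℝ} {N : ℕ} (h1 : δ ≤ κ) (h2 : δ ≤ a - N * κ) (t : ℝ) :
    psi a N κ (Real.exp t) ≤ Real.exp (-(δ * |t|)) := by
  unfold psi
  split_ifs with h
  · have ht : t ≤ 0 := Real.exp_le_one_iff.1 h
    rw [← Real.exp_mul, abs_of_nonpos ht]
    refine Real.exp_le_exp.2 ?_
    have := mul_le_mul_of_nonpos_right h1 ht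
    linarith
  · have ht : 0 < t := by
      by_contra hc
      exact h (Real.exp_le_one_iff.2 (not_lt.1 hc))
    rw [← Real.exp_mul, abs_of_pos ht]
    refine Real.exp_le_exp.2 ?_
    have := mul_le_mul_of_nonneg_right h2 ht.le
    nlinarith

private theorem psi_nn {a κ : ℝ} {N : ℕ} {u : ℝ} (hu : 0 ≤ u) : 0 ≤ psi a N κ u := by
  unfold psi
  split_ifs
  · exact Real.rpow_nonneg hu _
  · exact Real.rpow_nonneg hu _

private theorem summ_int {δ : ℝ} (hδ : 0 < δ) :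
    Summable fun k : ℤ => Real.exp (-(δ * |(k : ℝ)|)) := by
  have h0 : Summable fun m : ℕ => Real.exp (-(δ * (m : ℝ))) := by
    have h1 : Summable fun m : ℕ => (Real.exp (-δ)) ^ m :=
      summable_geometric_of_lt_one (Real.exp_pos _).le (Real.exp_lt_one_iff.2 (by linarith))
    refine h1.congr fun m => ?_
    rw [← Real.exp_nat_mul]
    congr 1
    ring
  refine summable_int_iff_summable_nat_and_neg.2 ⟨h0.congr fun m => ?_, h0.congr fun m => ?_⟩
  · simp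
  · simp

private theorem sum_bd {δ : ℝ} (hδ : 0 < δ) (x : ℝ) (I : Finset ℤ) :
    ∑ k ∈ I, Real.exp (-(δ * |(k : ℝ) + x|)) ≤
      Real.exp δ * ∑' k : ℤ, Real.exp (-(δ * |(k : ℝ)|)) := by
  have h1 : ∀ k ∈ I, Real.exp (-(δ * |(k : ℝ) + x|)) ≤
      Real.exp δ * Real.exp (-(δ * |((k + ⌊x⌋ : ℤ) : ℝ)|)) := by
    intro k _
    rw [← Real.exp_add]
    refine Real.exp_le_exp.2 ?_
    have hf1 : (⌊x⌋ : ℝ) ≤ x := Int.floor_le x
    have hf2 : x < ⌊x⌋ + 1 := Int.lt_floor_add_one x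
    have h2 : |((k + ⌊x⌋ : ℤ) : ℝ)| ≤ |(k : ℝ) + x| + 1 := by
      have h3 : ((k + ⌊x⌋ : ℤ) : ℝ) = ((k : ℝ) + x) + (⌊x⌋ - x) := by
        push_cast
        ring
      rw [h3]
      refine (abs_add_le _ _).trans ?_
      have h4 : |(⌊x⌋ : ℝ) - x| ≤ 1 := by
        rw [abs_le]
        constructor <;> linarith
      linarith
    have h3 := mul_le_mul_of_nonneg_left h2 hδ.le
    linarith
  refine (Finset.sum_le_sum h1).trans ?_
  rw [← Finset.mul_sum]
  refine mul_le_mul_of_nonneg_left ?_ (Real.exp_pos _).le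
  have h2 : ∑ k ∈ I, Real.exp (-(δ * |((k + ⌊x⌋ : ℤ) : ℝ)|)) =
      ∑ k ∈ I.map (Equiv.addRight ⌊x⌋).toEmbedding, Real.exp (-(δ * |(k : ℝ)|)) := by
    rw [Finset.sum_map]
    rfl
  rw [h2]
  exact (summ_int hδ).sum_le_tsum _ fun k _ => (Real.exp_pos _).le

theorem num_sum {a κ : ℝ} {N : ℕ} (k0 : 0 < κ) (k1 : κ ≤ 1) (k2 : (N : ℝ) * κ < a) :
    ∃ C c : ℝ, 0 < C ∧ 0 < c ∧ ∀ (ρ : ℝ), 0 ≤ ρ → ∀ (j : ℤ) (I : Finset ℤ),
      ∑ k ∈ I, (psi a N κ (Real.exp k * ρ) *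
        |Real.exp (-(Real.exp ((k + j : ℤ) : ℝ) * ρ) ^ 2 / 2) -
          Real.exp (-(Real.exp (((k + j : ℤ) : ℝ) + 1) * ρ) ^ 2 / 2)|) ^ 2 ≤
        C * Real.exp (-(c * |(j : ℝ)|)) := by
  obtain ⟨δ, hδ⟩ : ∃ δ, δ = min κ (a - N * κ) := ⟨_, rfl⟩
  have d0 : 0 < δ := by
    rw [hδ]
    exact lt_min k0 (by linarith)
  have d1 : δ ≤ κ := hδ ▸ min_le_left _ _
  have d2 : δ ≤ a - N * κ := hδ ▸ min_le_right _ _
  have d3 : δ ≤ 1 := d1.trans k1
  have hS : 0 < ∑' k : ℤ, Real.exp (-(δ * |(k : ℝ)|)) :=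
    (summ_int d0).tsum_pos (fun k => (Real.exp_pos _).le) 0 (Real.exp_pos _)
  refine ⟨16 * (Real.exp δ * ∑' k : ℤ, Real.exp (-(δ * |(k : ℝ)|))), δ,
    by have := Real.exp_pos δ; positivity, d0, fun ρ hρ j I => ?_⟩
  rcases hρ.eq_or_lt with h | hρ
  · have h1 : ∑ k ∈ I, (psi a N κ (Real.exp k * ρ) *
        |Real.exp (-(Real.exp ((k + j : ℤ) : ℝ) * ρ) ^ 2 / 2) -
          Real.exp (-(Real.exp (((k + j : ℤ) : ℝ) + 1) * ρ) ^ 2 / 2)|) ^ 2 = 0 := by
      refine Finset.sum_eq_zero fun k _ => ?_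
      rw [← h]
      simp
    rw [h1]
    have := Real.exp_pos δ
    positivity
  · obtain ⟨x, rfl⟩ : ∃ x, Real.exp x = ρ := ⟨Real.log ρ, Real.exp_log hρ⟩
    have h1 : ∀ k ∈ I, (psi a N κ (Real.exp k * Real.exp x) *
        |Real.exp (-(Real.exp ((k + j : ℤ) : ℝ) * Real.exp x) ^ 2 / 2) -
          Real.exp (-(Real.exp (((k + j : ℤ) : ℝ) + 1) * Real.exp x) ^ 2 / 2)|) ^ 2 ≤
        16 * Real.exp (-(δ * |(j : ℝ)|)) * Real.exp (-(δ * |(k : ℝ) + x|)) := by
      intro k _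
      have e1 : Real.exp k * Real.exp x = Real.exp (k + x) := (Real.exp_add _ _).symm
      have e2 : Real.exp ((k + j : ℤ) : ℝ) * Real.exp x = Real.exp (k + j + x) := by
        rw [← Real.exp_add]
        push_cast
        rfl
      have e3 : Real.exp (((k + j : ℤ) : ℝ) + 1) * Real.exp x = Real.exp (k + j + x + 1) := by
        rw [← Real.exp_add]
        congr 1
        push_cast
        ring
      rw [e1, e2, e3]
      have a1 := psi_exp_le (a := a) (κ := κ) (N := N) d1 d2 ((k : ℝ) + x)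
      have a0 : 0 ≤ psi a N κ (Real.exp (k + x)) := psi_nn (Real.exp_pos _).le
      have b1 := gdiff ((k : ℝ) + j + x)
      have b2 : Real.exp (-|(k : ℝ) + j + x|) ≤ Real.exp (-(δ * |(k : ℝ) + j + x|)) := by
        refine Real.exp_le_exp.2 ?_
        have := mul_le_mul_of_nonneg_right d3 (abs_nonneg ((k : ℝ) + j + x))
        linarith
      have b3 : |Real.exp (-(Real.exp (k + j + x)) ^ 2 / 2) -
          Real.exp (-(Real.exp (k + j + x + 1)) ^ 2 / 2)| ≤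
            4 * Real.exp (-(δ * |(k : ℝ) + j + x|)) := b1.trans (by linarith)
      have c1 : psi a N κ (Real.exp (k + x)) * |Real.exp (-(Real.exp (k + j + x)) ^ 2 / 2) -
          Real.exp (-(Real.exp (k + j + x + 1)) ^ 2 / 2)| ≤
            Real.exp (-(δ * |(k : ℝ) + x|)) * (4 * Real.exp (-(δ * |(k : ℝ) + j + x|))) :=
        mul_le_mul a1 b3 (abs_nonneg _) (Real.exp_pos _).le
      have c2 := pow_le_pow_left₀ (mul_nonneg a0 (abs_nonneg _)) c1 2
      refine c2.trans ?_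
      have c3 : (Real.exp (-(δ * |(k : ℝ) + x|)) * (4 * Real.exp (-(δ * |(k : ℝ) + j + x|)))) ^ 2 =
          16 * Real.exp (-(2 * δ * |(k : ℝ) + x|) - 2 * δ * |(k : ℝ) + j + x|) := by
        have : ∀ A B : ℝ, (Real.exp A * (4 * Real.exp B)) ^ 2 = 16 * Real.exp (2 * A + 2 * B) := by
          intro A B
          rw [Real.exp_add, two_mul A, two_mul B, Real.exp_add, Real.exp_add]
          ring
        rw [this]
        congr 2
        ring
      rw [c3, mul_assoc (16 : ℝ), ← Real.exp_add]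
      refine mul_le_mul_of_nonneg_left (Real.exp_le_exp.2 ?_) (by norm_num)
      have c4 : |(j : ℝ)| ≤ |(k : ℝ) + x| + |(k : ℝ) + j + x| := by
        have e : (j : ℝ) = ((k : ℝ) + j + x) - ((k : ℝ) + x) := by ring
        calc |(j : ℝ)| = |((k : ℝ) + j + x) - ((k : ℝ) + x)| := by rw [← e]
          _ ≤ |(k : ℝ) + j + x| + |(k : ℝ) + x| := abs_sub _ _
          _ = _ := add_comm _ _
      have c5 := mul_le_mul_of_nonneg_left c4 d0.le
      have c6 : 0 ≤ δ * |(k : ℝ) + j + x| := by positivity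
      linarith
    refine (Finset.sum_le_sum h1).trans ?_
    rw [← Finset.mul_sum]
    have h2 := sum_bd d0 x I
    have h3 : 0 ≤ 16 * Real.exp (-(δ * |(j : ℝ)|)) := by positivity
    calc 16 * Real.exp (-(δ * |(j : ℝ)|)) * ∑ k ∈ I, Real.exp (-(δ * |(k : ℝ) + x|))
        ≤ 16 * Real.exp (-(δ * |(j : ℝ)|)) *
          (Real.exp δ * ∑' k : ℤ, Real.exp (-(δ * |(k : ℝ)|))) :=
            mul_le_mul_of_nonneg_left h2 h3
      _ = _ := by ring

end Pool.Agent.CB
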