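import Pool.Agent.CB.CDefs

/-!
# CB-LCmom: moments of symmetric log-concave measures on the line

Let `q T = σ {x | T < x}`. `LC` with `A = {x > T}`, `B = [-2,2]`, `C = {x > (T-2)/2}`:
`q T * σ [-2,2] ≤ q ((T-2)/2)^2`, and `σ [-2,2] ≥ 3/4` by Chebyshev (second moment at most `1`). So
`(4/3) q T ≤ ((4/3) q ((T-2)/2))^2`; with `T_j = 2^(j+2) - 2` (`T_0 = 2`, `(T_{j+1} - 2)/2 = T_j`) and
`q 2 ≤ 1/8` (symmetry and Chebyshev) we get `q (T_j) ≤ (1/6)^(2^j)`. Hence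
`∫ |x|^M = 2 ∫_{x>0} x^M ≤ 2^M + 2 ∑_j (T_{j+1})^M q (T_j) ≤ 2^M + 2 ∑_j (2^(j+3))^M (1/6)^(2^j) < ∞` (ratio test).
-/

set_option autoImplicit false

open MeasureTheory Set
open scoped ENNReal NNReal

namespace Pool.Agent.CB

private theorem lcm_sum (M : ℕ) :
    Summable (fun j : ℕ => (2 * 8 ^ M : ℝ) * (((2 ^ j : ℕ) : ℝ) ^ M * (1 / 6 : ℝ) ^ (2 ^ j))) := by
  have h := summable_pow_mul_geometric_of_norm_lt_one (R := ℝ) M (r := (1 / 6 : ℝ))
    (by rw [Real.norm_eq_abs, abs_of_pos] <;> norm_num)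
  have h2 := h.comp_injective (Nat.pow_right_injective (le_refl 2))
  exact h2.mul_left _

private theorem lcm_exists (r : ℝ) (hr : 2 < r) :
    ∃ j : ℕ, (2 : ℝ) ^ (j + 2) - 2 < r ∧ r ≤ 2 ^ (j + 3) := by
  have h1 : ∃ j : ℕ, r ≤ 2 ^ (j + 3) - 2 := by
    obtain ⟨n, hn⟩ := pow_unbounded_of_one_lt (r + 2) (one_lt_two (α := ℝ))
    refine ⟨n, ?_⟩
    have : (2 : ℝ) ^ n ≤ 2 ^ (n + 3) := pow_le_pow_right₀ (by norm_num) (by omega)
    linarith
  classical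
  have h2 := Nat.find_spec h1
  set j := Nat.find h1 with hj
  refine ⟨j, ?_, by linarith⟩
  rcases Nat.eq_zero_or_pos j with h0 | h0
  · rw [h0]; norm_num; linarith
  · have h3 := Nat.find_min h1 (m := j - 1) (by omega)
    have h4 : j - 1 + 3 = j + 2 := by omega
    rw [h4] at h3
    exact not_le.1 h3

theorem lc_moment (M : ℕ) :
    ∃ C : ℝ≥0, ∀ σ : Measure ℝ, IsProbabilityMeasure σ → LC σ → σ.map (fun x => -x) = σ →
      ∫⁻ x, ‖x‖ₑ ^ (2 : ℝ) ∂σ ≤ 1 → ∫⁻ x, ‖x‖ₑ ^ M ∂σ ≤ C := by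
  set a : ℕ → ℝ := fun j => (2 * 8 ^ M : ℝ) * (((2 ^ j : ℕ) : ℝ) ^ M * (1 / 6 : ℝ) ^ (2 ^ j)) with ha
  have ha0 : ∀ j, 0 ≤ a j := fun j => by rw [ha]; positivity
  refine ⟨Real.toNNReal (2 ^ M + ∑' j, a j), ?_⟩
  intro σ hσ hlc hsym hmom
  -- Chebyshev
  have hch : σ {x : ℝ | 2 < |x|} ≤ 1 / 4 := by
    have h1 := mul_meas_ge_le_lintegral₀ (μ := σ) (f := fun x : ℝ => ‖x‖ₑ ^ (2 : ℝ))
      (by fun_prop) 4
    have h2 : {x : ℝ | 2 < |x|} ⊆ {x : ℝ | 4 ≤ ‖x‖ₑ ^ (2 : ℝ)} := by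
      intro x hx
      have hx' : (2 : ℝ) < |x| := hx
      have e1 : ‖x‖ₑ = ENNReal.ofReal |x| := by rw [← Real.enorm_abs, Real.enorm_of_nonneg (abs_nonneg x)]
      have e2 : (2 : ℝ≥0∞) ≤ ‖x‖ₑ := by
        rw [e1]
        calc (2 : ℝ≥0∞) = ENNReal.ofReal 2 := by norm_num
          _ ≤ _ := ENNReal.ofReal_le_ofReal hx'.le
      show (4 : ℝ≥0∞) ≤ ‖x‖ₑ ^ (2 : ℝ)
      calc (4 : ℝ≥0∞) = 2 ^ (2 : ℝ) := by norm_num
        _ ≤ _ := ENNReal.rpow_le_rpow e2 (by norm_num)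
    have h3 : 4 * σ {x : ℝ | 2 < |x|} ≤ 1 :=
      (mul_le_mul_right (measure_mono h2) 4).trans (h1.trans hmom)
    rw [ENNReal.le_div_iff_mul_le (by norm_num) (by norm_num), mul_comm]
    exact h3
  -- symmetry
  have hneg : ∀ T : ℝ, σ (Iio (-T)) = σ (Ioi T) := by
    intro T
    conv_lhs => rw [← hsym]
    rw [Measure.map_apply measurable_neg measurableSet_Iio]
    congr 1
    ext x
    simp
  have habs : ∀ T : ℝ, 0 ≤ T → σ {x : ℝ | T < |x|} = 2 * σ (Ioi T) := by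
    intro T hT
    have e1 : {x : ℝ | T < |x|} = Ioi T ∪ Iio (-T) := by
      ext x
      simp only [mem_setOf_eq, lt_abs, mem_union, mem_Ioi, mem_Iio]
      constructor
      · rintro (h | h)
        · exact Or.inl h
        · exact Or.inr (by linarith)
      · rintro (h | h)
        · exact Or.inl h
        · exact Or.inr (by linarith)
    rw [e1, measure_union _ measurableSet_Iio, hneg, two_mul]
    rw [Set.disjoint_left]
    intro x hx hx'
    rw [mem_Ioi] at hx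
    rw [mem_Iio] at hx'
    linarith
  -- the middle part
  have hmid : (3 / 4 : ℝ) ≤ (σ (Icc (-2 : ℝ) 2)).toReal := by
    have e1 : (Icc (-2 : ℝ) 2)ᶜ = {x : ℝ | 2 < |x|} := by
      ext x
      simp only [mem_compl_iff, mem_Icc, mem_setOf_eq]
      rw [← abs_le, not_le]
    have e2 := measure_compl (μ := σ) (measurableSet_Icc (a := (-2 : ℝ)) (b := 2))
      (measure_ne_top _ _)
    rw [e1, measure_univ] at e2
    rw [e2] at hch
    have h3 := ENNReal.toReal_mono (by norm_num) hch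
    rw [ENNReal.toReal_sub_of_le prob_le_one (by norm_num)] at h3
    have h4 : ((1 : ℝ≥0∞) / 4).toReal = 1 / 4 := by
      rw [ENNReal.toReal_div]; norm_num
    rw [h4, ENNReal.toReal_one] at h3
    linarith
  -- the recursion
  have hrec : ∀ j : ℕ, (σ (Ioi ((2 : ℝ) ^ (j + 2) - 2))).toReal ≤ 3 / 4 * (1 / 6) ^ (2 ^ j) := by
    intro j
    induction j with
    | zero =>
      have h1 := habs 2 (by norm_num)
      rw [h1] at hch
      have h3 := ENNReal.toReal_mono (by norm_num) hch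
      rw [ENNReal.toReal_mul] at h3
      have h4 : ((1 : ℝ≥0∞) / 4).toReal = 1 / 4 := by
        rw [ENNReal.toReal_div]; norm_num
      have h5 : (2 : ℝ≥0∞).toReal = 2 := by norm_num
      rw [h4, h5] at h3
      have h6 : ((2 : ℝ) ^ (0 + 2) - 2) = 2 := by norm_num
      rw [h6]
      norm_num
      linarith
    | succ j ih =>
      have h1 := hlc (Ioi ((2 : ℝ) ^ (j + 1 + 2) - 2)) (Icc (-2) 2) (Ioi ((2 : ℝ) ^ (j + 2) - 2))
        measurableSet_Ioi measurableSet_Icc measurableSet_Ioi (by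
          intro x hx y hy
          rw [mem_Ioi] at hx ⊢
          rw [smul_eq_mul]
          have h2 : (2 : ℝ) ^ (j + 1 + 2) = 2 * 2 ^ (j + 2) := by ring
          rw [h2] at hx
          have := hy.1
          linarith)
      have h2 := ENNReal.toReal_mono (ENNReal.pow_ne_top (measure_ne_top _ _)) h1
      rw [ENNReal.toReal_mul, ENNReal.toReal_pow] at h2
      set x := (σ (Ioi ((2 : ℝ) ^ (j + 1 + 2) - 2))).toReal
      set y := (σ (Ioi ((2 : ℝ) ^ (j + 2) - 2))).toReal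
      have hx0 : 0 ≤ x := ENNReal.toReal_nonneg
      have hy0 : 0 ≤ y := ENNReal.toReal_nonneg
      have h3 : x * (3 / 4) ≤ y ^ 2 := (mul_le_mul_of_nonneg_left hmid hx0).trans h2
      have h4 : y ^ 2 ≤ (3 / 4 * (1 / 6) ^ (2 ^ j)) ^ 2 := pow_le_pow_left₀ hy0 ih 2
      have h5 : ((1 : ℝ) / 6) ^ (2 ^ (j + 1)) = ((1 / 6) ^ (2 ^ j)) ^ 2 := by
        rw [← pow_mul, pow_succ]
      rw [h5]
      nlinarith
  have hrec' : ∀ j : ℕ, σ {x : ℝ | (2 : ℝ) ^ (j + 2) - 2 < |x|} ≤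
      ENNReal.ofReal (2 * (1 / 6) ^ (2 ^ j)) := by
    intro j
    have hT : (0 : ℝ) ≤ 2 ^ (j + 2) - 2 := by
      have : (2 : ℝ) ^ 1 ≤ 2 ^ (j + 2) := pow_le_pow_right₀ (by norm_num) (by omega)
      linarith
    rw [habs _ hT, ENNReal.ofReal_mul (by norm_num)]
    have h1 : σ (Ioi ((2 : ℝ) ^ (j + 2) - 2)) ≤ ENNReal.ofReal ((1 / 6) ^ (2 ^ j)) := by
      rw [← ENNReal.ofReal_toReal (measure_ne_top σ (Ioi ((2 : ℝ) ^ (j + 2) - 2)))]
      refine ENNReal.ofReal_le_ofReal ((hrec j).trans ?_)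
      have : (0 : ℝ) ≤ (1 / 6) ^ (2 ^ j) := by positivity
      linarith
    have h2 : ENNReal.ofReal 2 = 2 := by norm_num
    rw [h2]
    exact mul_le_mul_right h1 2
  -- pointwise bound
  have hpt : ∀ x : ℝ, ‖x‖ₑ ^ M ≤ ENNReal.ofReal (2 ^ M) +
      ∑' j : ℕ, {y : ℝ | (2 : ℝ) ^ (j + 2) - 2 < |y|}.indicator
        (fun _ => ENNReal.ofReal ((2 ^ (j + 3)) ^ M)) x := by
    intro x
    have e1 : ‖x‖ₑ = ENNReal.ofReal |x| := by
      rw [← Real.enorm_abs, Real.enorm_of_nonneg (abs_nonneg x)]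
    rw [e1, ← ENNReal.ofReal_pow (abs_nonneg x)]
    rcases le_or_gt |x| 2 with h | h
    · exact le_add_right (ENNReal.ofReal_le_ofReal (pow_le_pow_left₀ (abs_nonneg x) h M))
    · obtain ⟨j, hj1, hj2⟩ := lcm_exists |x| h
      refine le_add_left (le_trans ?_ (ENNReal.le_tsum j))
      rw [indicator_of_mem (show x ∈ {y : ℝ | (2 : ℝ) ^ (j + 2) - 2 < |y|} from hj1)]
      exact ENNReal.ofReal_le_ofReal (pow_le_pow_left₀ (abs_nonneg x) hj2 M)
  have hms : ∀ j : ℕ, MeasurableSet {y : ℝ | (2 : ℝ) ^ (j + 2) - 2 < |y|} := fun j =>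
    measurableSet_lt measurable_const (measurable_norm)
  calc ∫⁻ x, ‖x‖ₑ ^ M ∂σ ≤ ∫⁻ x, (ENNReal.ofReal (2 ^ M) +
      ∑' j : ℕ, {y : ℝ | (2 : ℝ) ^ (j + 2) - 2 < |y|}.indicator
        (fun _ => ENNReal.ofReal ((2 ^ (j + 3)) ^ M)) x) ∂σ := lintegral_mono hpt
    _ = ENNReal.ofReal (2 ^ M) + ∑' j : ℕ, ENNReal.ofReal ((2 ^ (j + 3)) ^ M) *
        σ {y : ℝ | (2 : ℝ) ^ (j + 2) - 2 < |y|} := by
      rw [lintegral_add_left measurable_const, lintegral_const, measure_univ, mul_one]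
      congr 1
      rw [lintegral_tsum (fun j => (measurable_const.indicator (hms j)).aemeasurable)]
      refine tsum_congr fun j => ?_
      rw [lintegral_indicator_const (hms j)]
    _ ≤ ENNReal.ofReal (2 ^ M) + ∑' j : ℕ, ENNReal.ofReal (a j) := by
      gcongr with j
      calc ENNReal.ofReal ((2 ^ (j + 3)) ^ M) * σ {y : ℝ | (2 : ℝ) ^ (j + 2) - 2 < |y|}
          ≤ ENNReal.ofReal ((2 ^ (j + 3)) ^ M) * ENNReal.ofReal (2 * (1 / 6) ^ (2 ^ j)) :=
            mul_le_mul_right (hrec' j) _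
        _ = ENNReal.ofReal (a j) := by
          rw [← ENNReal.ofReal_mul (by positivity)]
          congr 1
          rw [ha]
          push_cast
          have : ((2 : ℝ) ^ (j + 3)) ^ M = 8 ^ M * (2 ^ j) ^ M := by
            rw [← mul_pow]; congr 1; ring
          rw [this]; ring
    _ = ((Real.toNNReal (2 ^ M + ∑' j, a j) : ℝ≥0) : ℝ≥0∞) := by
      rw [← ENNReal.ofReal_tsum_of_nonneg ha0 (lcm_sum M), ← ENNReal.ofReal_add (by positivity)
        (tsum_nonneg ha0)]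
      rfl

end Pool.Agent.CB
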