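import Pool.Agent.CB.Fou
import Pool.Agent.CB.Plan
import Pool.Agent.CB.Interp
import Pool.Agent.CB.Eps

/-!
# CB-LocA: the `L^p` norm of the averaged difference operators

Apply `interp` with `p1 = 1`, `T f x = ‖Ed N h μ s f x‖₊`, `B1 = 2^N` (each `cv` is a contraction of
`L¹`: `lintegral_cv_rpow_le` with `p = 1`, `∑ C(N,i) = 2^N`), `B2 = Ceps N K * h^a` (`pl_le` with one
function, `isMul_Ed`, `edm_le_sup`).
-/

set_option autoImplicit false

open MeasureTheory Set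
open scoped ENNReal NNReal

namespace Pool.Agent.CB

variable {n : ℕ}

private theorem dif_add (N : ℕ) (φ ψ : ℕ → ℝ) :
    dif N (fun i => φ i + ψ i) = dif N φ + dif N ψ := by
  unfold dif
  rw [← Finset.sum_add_distrib]
  refine Finset.sum_congr rfl fun i _ => ?_
  ring

private theorem Ed_add {μ : Measure (V n)} [IsProbabilityMeasure μ] (N : ℕ) (h s : ℝ)
    {f g : V n → ℝ} (hf : Nice f) (hg : Nice g) (x : V n) :
    Ed N h μ s (fun y => f y + g y) x = Ed N h μ s f x + Ed N h μ s g x := by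
  unfold Ed
  rw [← dif_add]
  have key : ∀ i : ℕ, cv (dil (Real.exp s) (blur (i * h) μ)) (fun y => f y + g y) x =
      cv (dil (Real.exp s) (blur (i * h) μ)) f x + cv (dil (Real.exp s) (blur (i * h) μ)) g x := by
    intro i
    have : IsProbabilityMeasure (blur (i * h) μ) := isProb_blur _
    have : IsProbabilityMeasure (dil (Real.exp s) (blur (i * h) μ)) := isProb_dil _
    rw [cv_add hf hg]
  simp only [key]

private theorem enorm_dif_le (N : ℕ) (φ : ℕ → ℝ) :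
    ‖dif N φ‖ₑ ≤ ∑ i ∈ Finset.range (N + 1), (N.choose i : ℝ≥0∞) * ‖φ i‖ₑ := by
  unfold dif
  refine (enorm_sum_le _ _).trans (Finset.sum_le_sum fun i _ => ?_)
  rw [enorm_mul, enorm_mul]
  have h1 : ‖((-1 : ℝ)) ^ i‖ₑ = 1 := by
    rw [enorm_pow]; simp
  have h2 : ‖((N.choose i : ℕ) : ℝ)‖ₑ = (N.choose i : ℝ≥0∞) := by
    rw [Real.enorm_of_nonneg (Nat.cast_nonneg _), ENNReal.ofReal_natCast]
  rw [h1, h2, one_mul]

private theorem Ed_L1 {μ : Measure (V n)} [IsProbabilityMeasure μ] (N : ℕ) (h s : ℝ)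
    {f : V n → ℝ} (hf : Nice f) :
    ∫⁻ x, ‖Ed N h μ s f x‖ₑ ≤ (2 : ℝ≥0∞) ^ N * ∫⁻ x, ‖f x‖ₑ := by
  have h1 : ∀ x, ‖Ed N h μ s f x‖ₑ ≤ ∑ i ∈ Finset.range (N + 1), (N.choose i : ℝ≥0∞) *
      ‖cv (dil (Real.exp s) (blur (i * h) μ)) f x‖ₑ := fun x => enorm_dif_le N _
  refine (lintegral_mono h1).trans ?_
  have hm : ∀ i : ℕ, Nice (cv (dil (Real.exp s) (blur (i * h) μ)) f) := by
    intro i
    have : IsProbabilityMeasure (blur (i * h) μ) := isProb_blur _
    have : IsProbabilityMeasure (dil (Real.exp s) (blur (i * h) μ)) := isProb_dil _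
    exact nice_cv hf
  rw [lintegral_finsetSum]
  swap
  · intro i _
    exact ((hm i).cont.measurable.enorm).const_mul _
  have h2 : ∀ i ∈ Finset.range (N + 1), ∫⁻ x, (N.choose i : ℝ≥0∞) *
      ‖cv (dil (Real.exp s) (blur (i * h) μ)) f x‖ₑ ≤ (N.choose i : ℝ≥0∞) * ∫⁻ x, ‖f x‖ₑ := by
    intro i _
    rw [lintegral_const_mul _ ((hm i).cont.measurable.enorm)]
    have : IsProbabilityMeasure (blur (i * h) μ) := isProb_blur _
    have : IsProbabilityMeasure (dil (Real.exp s) (blur (i * h) μ)) := isProb_dil _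
    have h3 := lintegral_cv_rpow_le (μ := dil (Real.exp s) (blur (i * h) μ)) hf (le_refl (1 : ℝ))
    simp only [ENNReal.rpow_one] at h3
    gcongr
  refine (Finset.sum_le_sum h2).trans ?_
  rw [← Finset.sum_mul]
  have h4 : ∑ i ∈ Finset.range (N + 1), (N.choose i : ℝ≥0∞) = (2 : ℝ≥0∞) ^ N := by
    rw [← Nat.cast_sum, Nat.sum_range_choose]
    push_cast
    rfl
  rw [h4]

private theorem Ceps_pos {N : ℕ} {K : ℝ} (hK : 0 ≤ K) : 0 < Ceps N K := by
  unfold Ceps
  positivity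

theorem Ed_Lp {μ : Measure (V n)} {a K : ℝ} {N : ℕ} (hK : 0 ≤ K) (ha : 0 < a) (haN : a ≤ N)
    (hμ : Dec a N K μ) {h : ℝ} (h0 : 0 < h) (h1 : h ≤ 1) {p : ℝ} (hp1 : 1 < p) (hp2 : p < 2)
    (s : ℝ) {f : V n → ℝ} (hf : Nice f) :
    ∫⁻ x, ‖Ed N h μ s f x‖ₑ ^ p ≤
      ENNReal.ofReal (mc 1 p * ((2 : ℝ) ^ N) ^ (2 - p) * (Ceps N K * h ^ a) ^ (2 * (p - 1))) *
        ∫⁻ x, ‖f x‖ₑ ^ p := by
  have : IsProbabilityMeasure μ := hμ.sym.prob
  have hB2 : 0 < Ceps N K * h ^ a := mul_pos (Ceps_pos hK) (Real.rpow_pos_of_pos h0 a)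
  have hB1 : (0 : ℝ) < 2 ^ N := by positivity
  have key := interp (n := n) (volume : Measure (V n)) (fun f x => ‖Ed N h μ s f x‖₊)
    (fun f hf => (nice_Ed N h s hf).cont.measurable.nnnorm)
    (fun f g hf hg x => by
      show ‖Ed N h μ s (fun y => f y + g y) x‖₊ ≤ ‖Ed N h μ s f x‖₊ + ‖Ed N h μ s g x‖₊
      rw [Ed_add N h s hf hg x]
      exact nnnorm_add_le _ _)
    (le_refl (1 : ℝ)) hp1 hp2 hB1 hB2
    (fun f hf => by
      have h3 := Ed_L1 (μ := μ) N h s hf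
      have h4 : ENNReal.ofReal (((2 : ℝ) ^ N) ^ (1 : ℝ)) = (2 : ℝ≥0∞) ^ N := by
        rw [Real.rpow_one, ENNReal.ofReal_pow (by norm_num)]
        norm_num
      rw [h4]
      simp only [ENNReal.rpow_one]
      exact h3)
    (fun f hf => by
      have h3 := pl_le (Finset.univ : Finset Unit) (fun _ => Ed N h μ s f)
        (fun _ ξ => edm N h μ (Real.exp s • ξ)) hf (fun _ _ => nice_Ed N h s hf)
        (fun _ _ => isMul_Ed hμ.sym N h s hf) (B := (Ceps N K * h ^ a) ^ 2) (by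
          intro ξ
          simp only [Finset.univ_unique, Finset.sum_const, Finset.card_singleton, one_smul]
          rw [← sq_abs (edm N h μ (Real.exp s • ξ))]
          exact pow_le_pow_left₀ (abs_nonneg _) (edm_le_sup hK ha haN hμ h0 h1 _) 2)
      simp only [Finset.univ_unique, Finset.sum_const, Finset.card_singleton, one_smul] at h3
      exact h3)
    f hf
  have e1 : (1 : ℝ) * (2 - p) / (2 - 1) = 2 - p := by ring
  have e2 : 2 * (p - 1) / (2 - 1) = 2 * (p - 1) := by ring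
  rw [e1, e2] at key
  exact key

end Pool.Agent.CB
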