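import Pool.Agent.CB.LocA
import Pool.Agent.CB.LocX
import Pool.Agent.CB.Loc1
import Pool.Agent.CB.Ext

/-!
# CB-LocB: the local maximal theorem

`1 + 1/(2a) < p < 2`, i.e. `2 a (p - 1) > 1`. By `ext_cc` it suffices to treat `f ≥ 0` continuous with
compact support. For `t ∈ S`, `t = exp (k + s)`, `s ∈ [0,1]`; with `F r = cv (dil (exp (k+r)) μ) f x`,
`loc_sup`, `eD_scale`:
`mx μ S f x ≤ 2^N (A_{-1}(x) + 4 ∑_l 2^(l/p) A_l(x))`, `A_l(x)^p = ∫_{r ∈ [0,N+1]} ‖Ed N 2^-l μ (k+r) f x‖^p`.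
`∫ A_l^p ≤ (N+1) mc (2^N)^(2-p) (Ceps 2^(-l a))^(2(p-1)) ∫ f^p` (Tonelli, `Ed_Lp`), and
`∫ A_{-1}^p ≤ (N+1) ∫ f^p` (`lintegral_cv_rpow_le`). Minkowski for the series
(`ENNReal.lintegral_Lp_add_le`, or `Pool.Agent.MX.tsum_rpow_le`, or `eLpNorm`), and
`∑_l 2^(l/p) (2^(-l a))^(2(p-1)/p) = ∑_l 2^(-l (2a(p-1) - 1)/p) < ∞`. `D` depends on `a, N, K, p` only.
-/

set_option autoImplicit false

open MeasureTheory Set
open scoped ENNReal NNReal

namespace Pool.Agent.CB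

private theorem mink {X : Type} [MeasurableSpace X] (ν : Measure X) {p : ℝ} (hp : 1 ≤ p)
    (g : ℕ → X → ℝ≥0∞) (hg : ∀ l, Measurable (g l)) :
    (∫⁻ x, (∑' l, g l x) ^ p ∂ν) ^ (1 / p) ≤ ∑' l, (∫⁻ x, g l x ^ p ∂ν) ^ (1 / p) := by
  have hp0 : 0 < p := by linarith
  have hm : ∀ L : ℕ, Measurable fun x => ∑ l ∈ Finset.range L, g l x := fun L =>
    Finset.measurable_sum _ fun l _ => hg l
  have fin : ∀ L : ℕ, (∫⁻ x, (∑ l ∈ Finset.range L, g l x) ^ p ∂ν) ^ (1 / p) ≤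
      ∑ l ∈ Finset.range L, (∫⁻ x, g l x ^ p ∂ν) ^ (1 / p) := by
    intro L
    induction L with
    | zero =>
      have h1 : 0 < 1 / p := by positivity
      simp [hp0, ENNReal.zero_rpow_of_pos hp0]
    | succ L ih =>
      have h1 := ENNReal.lintegral_Lp_add_le (μ := ν) (f := fun x => ∑ l ∈ Finset.range L, g l x)
        (g := g L) (hm L).aemeasurable (hg L).aemeasurable hp
      have h2 : ((fun x => ∑ l ∈ Finset.range L, g l x) + g L) =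
          fun x => ∑ l ∈ Finset.range (L + 1), g l x := by
        funext x
        rw [Finset.sum_range_succ]
        rfl
      rw [h2] at h1
      refine h1.trans ?_
      rw [Finset.sum_range_succ]
      gcongr
  have hsup : ∫⁻ x, (∑' l, g l x) ^ p ∂ν =
      ⨆ L : ℕ, ∫⁻ x, (∑ l ∈ Finset.range L, g l x) ^ p ∂ν := by
    rw [← lintegral_iSup]
    · refine lintegral_congr fun x => ?_
      rw [ENNReal.tsum_eq_iSup_nat]
      exact (ENNReal.orderIsoRpow p hp0).map_iSup _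
    · exact fun L => (hm L).pow_const p
    · intro L L' hLL x
      refine ENNReal.rpow_le_rpow ?_ hp0.le
      exact Finset.sum_le_sum_of_subset (Finset.range_mono hLL)
  rw [hsup]
  have h3 := (ENNReal.orderIsoRpow (1 / p) (by positivity)).map_iSup
    (fun L : ℕ => ∫⁻ x, (∑ l ∈ Finset.range L, g l x) ^ p ∂ν)
  have h4 : (⨆ L : ℕ, ∫⁻ x, (∑ l ∈ Finset.range L, g l x) ^ p ∂ν) ^ (1 / p) =
      ⨆ L : ℕ, (∫⁻ x, (∑ l ∈ Finset.range L, g l x) ^ p ∂ν) ^ (1 / p) := h3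
  rw [h4]
  exact iSup_le fun L => (fin L).trans (ENNReal.sum_le_tsum _)

private theorem lin_const {X : Type} [MeasurableSpace X] (ν : Measure X) {p : ℝ} (hp : 0 < p)
    (c : ℝ≥0∞) {g : X → ℝ≥0∞} (hg : Measurable g) :
    (∫⁻ x, (c * g x) ^ p ∂ν) ^ (1 / p) = c * (∫⁻ x, g x ^ p ∂ν) ^ (1 / p) := by
  have h1 : ∀ x, (c * g x) ^ p = c ^ p * g x ^ p := fun x =>
    ENNReal.mul_rpow_of_nonneg _ _ hp.le
  simp only [h1]
  rw [lintegral_const_mul _ (hg.pow_const p), ENNReal.mul_rpow_of_nonneg _ _ (by positivity),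
    ← ENNReal.rpow_mul, mul_one_div_cancel hp.ne', ENNReal.rpow_one]

private theorem rp_cancel {p : ℝ} (hp : 0 < p) (u : ℝ≥0∞) : (u ^ (1 / p)) ^ p = u := by
  rw [← ENNReal.rpow_mul, one_div_mul_cancel hp.ne', ENNReal.rpow_one]

private theorem swap_le {n : ℕ} {p : ℝ} (hp : 0 < p) (N : ℕ) (G : ℝ × V n → ℝ)
    (hG : Measurable G) (C : ℝ≥0∞)
    (hC : ∀ r, ∫⁻ x, ‖G (r, x)‖ₑ ^ p ≤ C) :
    ∫⁻ x, ((∫⁻ r in Icc (0 : ℝ) (N + 1), ‖G (r, x)‖ₑ ^ p) ^ (1 / p)) ^ p ≤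
      ENNReal.ofReal (N + 1) * C := by
  simp only [rp_cancel hp]
  have hm : Measurable fun z : V n × ℝ => ‖G (z.2, z.1)‖ₑ ^ p :=
    (((hG.comp (measurable_snd.prodMk measurable_fst)).enorm).pow_const p)
  rw [lintegral_lintegral_swap (f := fun x r => ‖G (r, x)‖ₑ ^ p) hm.aemeasurable]
  calc ∫⁻ r in Icc (0 : ℝ) (N + 1), ∫⁻ x, ‖G (r, x)‖ₑ ^ p ≤
        ∫⁻ r in Icc (0 : ℝ) (N + 1), C := lintegral_mono fun r => hC r
    _ = C * volume (Icc (0 : ℝ) (N + 1)) := by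
        rw [lintegral_const, Measure.restrict_apply_univ]
    _ = _ := by
        rw [Real.volume_Icc, sub_zero, mul_comm]

private theorem meas_A {n : ℕ} {p : ℝ} (N : ℕ) (G : ℝ × V n → ℝ) (hG : Measurable G) :
    Measurable fun x : V n => (∫⁻ r in Icc (0 : ℝ) (N + 1), ‖G (r, x)‖ₑ ^ p) ^ (1 / p) := by
  have hm : Measurable fun z : ℝ × V n => ‖G z‖ₑ ^ p := (hG.enorm).pow_const p
  exact (Measurable.lintegral_prod_left' (μ := volume.restrict (Icc (0 : ℝ) (N + 1))) hm).pow_const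
    (1 / p)

private theorem real_id {a C p M N1 : ℝ} (hp : 0 < p) (hC : 0 ≤ C) (hM : 0 ≤ M) (hN : 0 ≤ N1)
    (l : ℕ) :
    (2 : ℝ) ^ ((l : ℝ) / p) *
      (N1 * (M * (C * ((2 : ℝ) ^ (-(l : ℝ))) ^ a) ^ (2 * (p - 1)))) ^ (1 / p) =
      (N1 * (M * C ^ (2 * (p - 1)))) ^ (1 / p) *
        ((2 : ℝ) ^ ((1 - 2 * a * (p - 1)) / p)) ^ l := by
  have e1 : ((2 : ℝ) ^ (-(l : ℝ))) ^ a = (2 : ℝ) ^ (-(l : ℝ) * a) := by
    rw [← Real.rpow_mul (by norm_num)]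
  have e2 : (C * (2 : ℝ) ^ (-(l : ℝ) * a)) ^ (2 * (p - 1)) =
      C ^ (2 * (p - 1)) * (2 : ℝ) ^ (-(l : ℝ) * a * (2 * (p - 1))) := by
    rw [Real.mul_rpow hC (by positivity), ← Real.rpow_mul (by norm_num)]
  have e3 : (N1 * (M * (C ^ (2 * (p - 1)) * (2 : ℝ) ^ (-(l : ℝ) * a * (2 * (p - 1)))))) ^ (1 / p) =
      (N1 * (M * C ^ (2 * (p - 1)))) ^ (1 / p) *
        (2 : ℝ) ^ (-(l : ℝ) * a * (2 * (p - 1)) * (1 / p)) := by
    rw [show N1 * (M * (C ^ (2 * (p - 1)) * (2 : ℝ) ^ (-(l : ℝ) * a * (2 * (p - 1))))) =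
      (N1 * (M * C ^ (2 * (p - 1)))) * (2 : ℝ) ^ (-(l : ℝ) * a * (2 * (p - 1))) by ring,
      Real.mul_rpow (by positivity) (by positivity), ← Real.rpow_mul (by norm_num)]
  have e4 : ((2 : ℝ) ^ ((1 - 2 * a * (p - 1)) / p)) ^ l =
      (2 : ℝ) ^ ((l : ℝ) / p) * (2 : ℝ) ^ (-(l : ℝ) * a * (2 * (p - 1)) * (1 / p)) := by
    rw [← Real.rpow_natCast, ← Real.rpow_mul (by norm_num), ← Real.rpow_add (by norm_num)]
    congr 1
    field_simp
    ring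
  rw [e1, e2, e3, e4]
  ring

theorem exists_locBdd {a K : ℝ} {N : ℕ} (hK : 0 ≤ K) (ha : 0 < a) (haN : a ≤ N) (hN : 1 ≤ N)
    {p : ℝ} (hp1 : 1 < 2 * a * (p - 1)) (hp2 : p < 2) (hp : 1 < p) :
    ∃ D : ℝ≥0, ∀ (n : ℕ) (μ : Measure (V n)), Dec a N K μ → LocBdd p D μ := by
  have hp0 : 0 < p := by linarith
  have hC0 : 0 ≤ Ceps N K := by
    unfold Ceps
    positivity
  have hM0 : 0 ≤ mc 1 p * ((2 : ℝ) ^ N) ^ (2 - p) :=
    mul_nonneg (mc_pos le_rfl hp hp2).le (by positivity)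
  generalize hM : mc 1 p * ((2 : ℝ) ^ N) ^ (2 - p) = M at hM0
  have hq0 : 0 < (2 : ℝ) ^ ((1 - 2 * a * (p - 1)) / p) := by positivity
  have hq1 : (2 : ℝ) ^ ((1 - 2 * a * (p - 1)) / p) < 1 := by
    refine Real.rpow_lt_one_of_one_lt_of_neg (by norm_num) ?_
    exact div_neg_of_neg_of_pos (by linarith) hp0
  have hid := fun l : ℕ => real_id (a := a) (C := Ceps N K) (p := p) (M := M)
    (N1 := (N : ℝ) + 1) hp0 hC0 hM0 (by positivity) l
  generalize hq : (2 : ℝ) ^ ((1 - 2 * a * (p - 1)) / p) = q at hq0 hq1 hid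
  have hB0 : 0 ≤ (((N : ℝ) + 1) * (M * Ceps N K ^ (2 * (p - 1)))) ^ (1 / p) := by positivity
  generalize hB : (((N : ℝ) + 1) * (M * Ceps N K ^ (2 * (p - 1)))) ^ (1 / p) = B at hB0 hid
  refine ⟨2 ^ N * (Real.toNNReal (((N : ℝ) + 1) ^ (1 / p)) + 4 * Real.toNNReal (B * (1 - q)⁻¹)),
    fun n μ hμ k S hS f hf => ?_⟩
  have hprob := hμ.sym.prob
  refine ext_cc (μ := μ) hp.le S (fun f hfc hfs hf0 => ?_) hf
  have hn := Nice.of_continuous hfc hfs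
  have hI : ∫⁻ x, ENNReal.ofReal (f x) ^ p = ∫⁻ x, ‖f x‖ₑ ^ p := by
    refine lintegral_congr fun x => ?_
    rw [Real.enorm_of_nonneg (hf0 x)]
  rw [hI]
  generalize hIdef : ∫⁻ x, ‖f x‖ₑ ^ p = I
  -- the two kinds of terms
  let A : V n → ℝ≥0∞ := fun x =>
    (∫⁻ r in Icc (0 : ℝ) (N + 1), ‖cv (dil (Real.exp (k + r)) μ) f x‖ₑ ^ p) ^ (1 / p)
  let Al : ℕ → V n → ℝ≥0∞ := fun l x =>
    (∫⁻ r in Icc (0 : ℝ) (N + 1), ‖Ed N ((2 : ℝ) ^ (-(l : ℝ))) μ (k + r) f x‖ₑ ^ p) ^ (1 / p)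
  have hA : Measurable A := meas_A N (fun z => cv (dil (Real.exp (k + z.1)) μ) f z.2)
    (measurable_scale hn k)
  have hAl : ∀ l, Measurable (Al l) := fun l =>
    meas_A N (fun z => Ed N ((2 : ℝ) ^ (-(l : ℝ))) μ (k + z.1) f z.2) (measurable_Ed hn N _ k)
  have hAi : (∫⁻ x, A x ^ p) ^ (1 / p) ≤ ENNReal.ofReal (((N : ℝ) + 1) ^ (1 / p)) * I ^ (1 / p) := by
    have h1 : ∫⁻ x, A x ^ p ≤ ENNReal.ofReal (N + 1) * I := by
      refine swap_le hp0 N (fun z => cv (dil (Real.exp (k + z.1)) μ) f z.2)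
        (measurable_scale hn k) I fun r => ?_
      have := isProb_dil (μ := μ) (Real.exp (k + r))
      rw [← hIdef]
      exact lintegral_cv_rpow_le (μ := dil (Real.exp (k + r)) μ) hn hp.le
    calc (∫⁻ x, A x ^ p) ^ (1 / p) ≤ (ENNReal.ofReal (N + 1) * I) ^ (1 / p) :=
          ENNReal.rpow_le_rpow h1 (by positivity)
      _ = _ := by
          rw [ENNReal.mul_rpow_of_nonneg _ _ (by positivity),
            ENNReal.ofReal_rpow_of_nonneg (by positivity) (by positivity)]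
  have hAli : ∀ l : ℕ, ENNReal.ofReal (2 ^ ((l : ℝ) / p)) * (∫⁻ x, Al l x ^ p) ^ (1 / p) ≤
      ENNReal.ofReal (B * q ^ l) * I ^ (1 / p) := by
    intro l
    have hh0 : (0 : ℝ) < (2 : ℝ) ^ (-(l : ℝ)) := by positivity
    have hh1 : (2 : ℝ) ^ (-(l : ℝ)) ≤ 1 := by
      refine Real.rpow_le_one_of_one_le_of_nonpos (by norm_num) ?_
      have : (0 : ℝ) ≤ l := by positivity
      linarith
    have h1 : ∫⁻ x, Al l x ^ p ≤ ENNReal.ofReal (N + 1) *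
        (ENNReal.ofReal (M * (Ceps N K * ((2 : ℝ) ^ (-(l : ℝ))) ^ a) ^ (2 * (p - 1))) * I) := by
      refine swap_le hp0 N (fun z => Ed N ((2 : ℝ) ^ (-(l : ℝ))) μ (k + z.1) f z.2)
        (measurable_Ed hn N _ k) _ fun r => ?_
      rw [← hIdef, ← hM]
      exact Ed_Lp hK ha haN hμ hh0 hh1 hp hp2 (k + r) hn
    calc ENNReal.ofReal (2 ^ ((l : ℝ) / p)) * (∫⁻ x, Al l x ^ p) ^ (1 / p) ≤
          ENNReal.ofReal (2 ^ ((l : ℝ) / p)) * (ENNReal.ofReal (N + 1) *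
        (ENNReal.ofReal (M * (Ceps N K * ((2 : ℝ) ^ (-(l : ℝ))) ^ a) ^ (2 * (p - 1))) * I)) ^
          (1 / p) := by
          gcongr
      _ = ENNReal.ofReal (B * q ^ l) * I ^ (1 / p) := by
          rw [← mul_assoc (ENNReal.ofReal (N + 1)), ← ENNReal.ofReal_mul (by positivity),
            ENNReal.mul_rpow_of_nonneg _ _ (by positivity),
            ENNReal.ofReal_rpow_of_nonneg (by positivity) (by positivity), ← mul_assoc,
            ← ENNReal.ofReal_mul (by positivity), hid l]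
  -- pointwise bound
  have hpt : ∀ x, MX.mx μ S (fun y => ENNReal.ofReal (f y)) x ≤
      2 ^ N * (A x + 4 * ∑' l : ℕ, ENNReal.ofReal (2 ^ ((l : ℝ) / p)) * Al l x) := by
    intro x
    unfold MX.mx
    refine iSup₂_le fun t ht => ?_
    obtain ⟨t0, t1⟩ := hS t ht
    have htpos : 0 < t := lt_of_lt_of_le (Real.exp_pos _) t0
    have hs : Real.log t - k ∈ Icc (0 : ℝ) 1 := by
      constructor
      · have := (Real.le_log_iff_exp_le htpos).2 t0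
        linarith
      · have := (Real.log_le_iff_le_exp htpos).2 t1
        linarith
    have h1 := loc_sup hN hp.le (continuous_scale (μ := μ) hn k x) hs
    have h2 : Real.exp (k + (Real.log t - k)) = t := by
      rw [show k + (Real.log t - k) = Real.log t by ring, Real.exp_log htpos]
    simp only [eD_scale hn, h2] at h1
    rw [← ofReal_cv_dil t hn hf0 x]
    have h3 : ENNReal.ofReal (cv (dil t μ) f x) = ‖cv (dil t μ) f x‖ₑ := by
      rw [Real.enorm_of_nonneg (cv_nonneg hf0 x)]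
    rw [h3]
    exact h1
  -- norm of the right hand side
  have hTm : Measurable fun x => ∑' l : ℕ, ENNReal.ofReal (2 ^ ((l : ℝ) / p)) * Al l x :=
    Measurable.tsum fun l => (hAl l).const_mul _
  have hT : (∫⁻ x, (∑' l : ℕ, ENNReal.ofReal (2 ^ ((l : ℝ) / p)) * Al l x) ^ p) ^ (1 / p) ≤
      ENNReal.ofReal (B * (1 - q)⁻¹) * I ^ (1 / p) := by
    refine (mink volume hp.le _ fun l => (hAl l).const_mul _).trans ?_
    calc ∑' l : ℕ, (∫⁻ x, (ENNReal.ofReal (2 ^ ((l : ℝ) / p)) * Al l x) ^ p) ^ (1 / p) =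
          ∑' l : ℕ, ENNReal.ofReal (2 ^ ((l : ℝ) / p)) * (∫⁻ x, Al l x ^ p) ^ (1 / p) :=
          tsum_congr fun l => lin_const volume hp0 _ (hAl l)
      _ ≤ ∑' l : ℕ, ENNReal.ofReal (B * q ^ l) * I ^ (1 / p) := ENNReal.tsum_le_tsum hAli
      _ = (∑' l : ℕ, ENNReal.ofReal (B * q ^ l)) * I ^ (1 / p) := ENNReal.tsum_mul_right
      _ = _ := by
          rw [← ENNReal.ofReal_tsum_of_nonneg (fun l => by positivity)
            ((summable_geometric_of_lt_one hq0.le hq1).mul_left B), tsum_mul_left,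
            tsum_geometric_of_lt_one hq0.le hq1]
  have hG : (∫⁻ x, (2 ^ N * (A x + 4 * ∑' l : ℕ, ENNReal.ofReal (2 ^ ((l : ℝ) / p)) * Al l x)) ^ p)
      ^ (1 / p) ≤ 2 ^ N * (ENNReal.ofReal (((N : ℝ) + 1) ^ (1 / p)) * I ^ (1 / p) +
        4 * (ENNReal.ofReal (B * (1 - q)⁻¹) * I ^ (1 / p))) := by
    rw [lin_const (g := fun x => A x + 4 * ∑' l : ℕ, ENNReal.ofReal (2 ^ ((l : ℝ) / p)) * Al l x)
      volume hp0 (2 ^ N) (hA.add (hTm.const_mul 4))]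
    refine mul_le_mul_right ?_ _
    have h1 := ENNReal.lintegral_Lp_add_le (μ := (volume : Measure (V n))) (f := A)
      (g := fun x => 4 * ∑' l : ℕ, ENNReal.ofReal (2 ^ ((l : ℝ) / p)) * Al l x)
      hA.aemeasurable (hTm.const_mul 4).aemeasurable hp.le
    refine h1.trans ?_
    rw [lin_const volume hp0 4 hTm]
    gcongr
  have hD : 2 ^ N * (ENNReal.ofReal (((N : ℝ) + 1) ^ (1 / p)) * I ^ (1 / p) +
        4 * (ENNReal.ofReal (B * (1 - q)⁻¹) * I ^ (1 / p))) =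
      ((2 ^ N * (Real.toNNReal (((N : ℝ) + 1) ^ (1 / p)) +
        4 * Real.toNNReal (B * (1 - q)⁻¹)) : ℝ≥0) : ℝ≥0∞) * I ^ (1 / p) := by
    push_cast
    unfold ENNReal.ofReal
    ring
  rw [hD] at hG
  calc ∫⁻ x, MX.mx μ S (fun y => ENNReal.ofReal (f y)) x ^ p ≤
        ∫⁻ x, (2 ^ N * (A x + 4 * ∑' l : ℕ, ENNReal.ofReal (2 ^ ((l : ℝ) / p)) * Al l x)) ^ p :=
        lintegral_mono fun x => ENNReal.rpow_le_rpow (hpt x) hp0.le
    _ = ((∫⁻ x, (2 ^ N * (A x + 4 * ∑' l : ℕ, ENNReal.ofReal (2 ^ ((l : ℝ) / p)) * Al l x)) ^ p)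
      ^ (1 / p)) ^ p := (rp_cancel hp0 _).symm
    _ ≤ _ := ENNReal.rpow_le_rpow hG hp0.le
    _ = _ := by
        rw [ENNReal.mul_rpow_of_nonneg _ _ hp0.le, rp_cancel hp0]

end Pool.Agent.CB
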