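import Pool.Agent.CB.TeleA
import Pool.Agent.CB.Ext
import Pool.Agent.CB.GMax
import Pool.Agent.MX.Cover

/-!
# CB-Tele: from the pieces to the maximal function

`n = 0`: `mx μ S f ≤ f` because `V 0` is a point and `μ` a probability measure. `n ≥ 1`: by `ext_cc` take `f ≥ 0` continuous
with compact support; `mx μ S f ≤ mx (gam n) S f + ∑' j, Tj μ S j f` (with `f` meaning `ofReal ∘ f`; `ofReal_cv_dil`, `tele`); Minkowski
for countably many terms (`ENNReal.lintegral_Lp_add_le` and monotone convergence, or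
`Pool.Agent.MX.tsum_rpow_le` with the weights `w j = exp (-c |j| / (2 ρ))`:
`(∑' j, T j)^ρ ≤ (∑' w j)^(ρ-1) ∑' w j (T j / w j)^ρ`), `gauss_max`, and convergence of the geometric series
`∑ j, exp (-c |j|/2)`. `B` depends on `ρ, C, c` only; `B ≥ 1`.
-/

set_option autoImplicit false

open MeasureTheory Set
open scoped ENNReal NNReal

namespace Pool.Agent.CB

private lemma te_sum {a : ℝ} (ha : 0 < a) :
    ∑' j : ℤ, ENNReal.ofReal (Real.exp (-(a * |(j : ℝ)|))) ≠ ∞ := by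
  have hg : Summable fun n : ℕ => (Real.exp (-a)) ^ n :=
    summable_geometric_of_lt_one (Real.exp_pos _).le ((Real.exp_lt_exp.2 (by linarith)).trans_eq Real.exp_zero)
  have hs : Summable fun j : ℤ => Real.exp (-(a * |(j : ℝ)|)) := by
    refine Summable.of_nat_of_neg ?_ ?_
    · refine hg.congr fun n => ?_
      rw [← Real.exp_nat_mul]
      congr 1
      rw [Int.cast_natCast, Nat.abs_cast]
      ring
    · refine hg.congr fun n => ?_
      rw [← Real.exp_nat_mul]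
      congr 1
      rw [Int.cast_neg, abs_neg, Int.cast_natCast, Nat.abs_cast]
      ring
  rw [← ENNReal.ofReal_tsum_of_nonneg (fun _ => (Real.exp_pos _).le) hs]
  exact ENNReal.ofReal_ne_top

private lemma te_point {n : ℕ} (hn : 1 ≤ n) {μ : Measure (V n)} [IsProbabilityMeasure μ]
    {S : Finset ℝ} (hS : ∀ t ∈ S, 0 < t) {f : V n → ℝ} (hf : Continuous f)
    (hc : HasCompactSupport f) (h0 : ∀ x, 0 ≤ f x) (x : V n) :
    MX.mx μ S (fun y => ENNReal.ofReal (f y)) x ≤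
      MX.mx (gam n) S (fun y => ENNReal.ofReal (f y)) x +
        ∑' j : ℤ, (Tj μ S j f x : ℝ≥0∞) := by
  have hN : Nice f := Nice.of_continuous hf hc
  have h1 : ∀ t ∈ S, ∫⁻ y, ENNReal.ofReal (f (x + t • y)) ∂μ ≤
      MX.mx (gam n) S (fun y => ENNReal.ofReal (f y)) x + ∑' j : ℤ, (Tj μ S j f x : ℝ≥0∞) := by
    intro t ht
    rw [← ofReal_cv_dil t hN h0 x]
    have e : cv (dil t μ) f x = cv (dil t (gam n)) f x + Nt μ t f x := by
      unfold Nt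
      ring
    rw [e]
    refine ENNReal.ofReal_add_le.trans (add_le_add ?_ ?_)
    · rw [ofReal_cv_dil t hN h0 x]
      unfold MX.mx
      exact le_iSup₂_of_le t ht le_rfl
    · exact (Real.ofReal_le_enorm _).trans (tele hn hS hf hc ht x)
  exact iSup₂_le h1

private lemma te_w {ρ c : ℝ} (hρ : 1 < ρ) (hc : 0 < c) {C : ℝ} (hC : 0 < C) (j : ℤ) :
    ENNReal.ofReal (Real.exp (-(c / (2 * ρ) * |(j : ℝ)|))) *
      (((ENNReal.ofReal (Real.exp (-(c / (2 * ρ) * |(j : ℝ)|))))⁻¹) ^ ρ *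
        ENNReal.ofReal (C * Real.exp (-(c * |(j : ℝ)|)))) ≤
      ENNReal.ofReal C * ENNReal.ofReal (Real.exp (-(c / 2 * |(j : ℝ)|))) := by
  have hρ0 : 0 < ρ := by linarith
  have e1 : (ENNReal.ofReal (Real.exp (-(c / (2 * ρ) * |(j : ℝ)|))))⁻¹ =
      ENNReal.ofReal (Real.exp (c / (2 * ρ) * |(j : ℝ)|)) := by
    rw [← ENNReal.ofReal_inv_of_pos (Real.exp_pos _), ← Real.exp_neg, neg_neg]
  have e2 : (ENNReal.ofReal (Real.exp (c / (2 * ρ) * |(j : ℝ)|))) ^ ρ =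
      ENNReal.ofReal (Real.exp (c / 2 * |(j : ℝ)|)) := by
    rw [ENNReal.ofReal_rpow_of_pos (Real.exp_pos _), ← Real.exp_mul]
    congr 2
    field_simp
  have e3 : ENNReal.ofReal (Real.exp (c / 2 * |(j : ℝ)|)) *
      ENNReal.ofReal (C * Real.exp (-(c * |(j : ℝ)|))) =
      ENNReal.ofReal C * ENNReal.ofReal (Real.exp (-(c / 2 * |(j : ℝ)|))) := by
    rw [← ENNReal.ofReal_mul (Real.exp_pos _).le, ← ENNReal.ofReal_mul hC.le]
    congr 1
    have : Real.exp (-(c / 2 * |(j : ℝ)|)) =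
        Real.exp (c / 2 * |(j : ℝ)|) * Real.exp (-(c * |(j : ℝ)|)) := by
      rw [← Real.exp_add]
      congr 1
      ring
    rw [this]
    ring
  rw [e1, e2, e3]
  have h1 : ENNReal.ofReal (Real.exp (-(c / (2 * ρ) * |(j : ℝ)|))) ≤ 1 := by
    rw [← ENNReal.ofReal_one]
    refine ENNReal.ofReal_le_ofReal ?_
    rw [Real.exp_le_one_iff]
    have : 0 ≤ c / (2 * ρ) * |(j : ℝ)| := by positivity
    linarith
  calc _ ≤ 1 * (ENNReal.ofReal C * ENNReal.ofReal (Real.exp (-(c / 2 * |(j : ℝ)|)))) :=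
        mul_le_mul' h1 le_rfl
    _ = _ := one_mul _

theorem bdd_of_Tj {ρ : ℝ} (hρ : 1 < ρ) {C c : ℝ} (hC : 0 < C) (hc : 0 < c) :
    ∃ B : ℝ≥0, ∀ (n : ℕ) (μ : Measure (V n)), IsProbabilityMeasure μ →
      (∀ (S : Finset ℝ), (∀ t ∈ S, 0 < t) → ∀ (f : V n → ℝ), Nice f → ∀ (j : ℤ),
        ∫⁻ x, (Tj μ S j f x : ℝ≥0∞) ^ ρ ≤
          ENNReal.ofReal (C * Real.exp (-(c * |(j : ℝ)|))) * ∫⁻ x, ‖f x‖ₑ ^ ρ) →
      MX.BddF ρ (B : ℝ≥0∞) μ := by
  have hρ0 : 0 < ρ := by linarith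
  obtain ⟨G, hG⟩ := gauss_max hρ
  set w : ℤ → ℝ≥0∞ := fun j => ENNReal.ofReal (Real.exp (-(c / (2 * ρ) * |(j : ℝ)|))) with hw
  set W : ℝ≥0∞ := ∑' j, w j with hW
  have hW1 : W ≠ ∞ := te_sum (by positivity)
  set Z : ℝ≥0∞ := ∑' j : ℤ, ENNReal.ofReal (Real.exp (-(c / 2 * |(j : ℝ)|))) with hZ
  have hZ1 : Z ≠ ∞ := te_sum (by positivity)
  set K : ℝ≥0∞ := 2 ^ (ρ - 1) * ((G : ℝ≥0∞) ^ ρ + W ^ (ρ - 1) * (ENNReal.ofReal C * Z)) with hK
  have hK1 : K ≠ ∞ := by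
    refine ENNReal.mul_ne_top (ENNReal.rpow_ne_top_of_nonneg (by linarith) (by norm_num)) ?_
    refine ENNReal.add_ne_top.2 ⟨ENNReal.rpow_ne_top_of_nonneg hρ0.le ENNReal.coe_ne_top, ?_⟩
    exact ENNReal.mul_ne_top (ENNReal.rpow_ne_top_of_nonneg (by linarith) hW1)
      (ENNReal.mul_ne_top ENNReal.ofReal_ne_top hZ1)
  set B : ℝ≥0 := max 1 (K ^ (1 / ρ)).toNNReal with hB
  have hBK : K ≤ (B : ℝ≥0∞) ^ ρ := by
    have h1 : K ^ (1 / ρ) ≤ (B : ℝ≥0∞) := by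
      have h2 : K ^ (1 / ρ) ≠ ∞ := ENNReal.rpow_ne_top_of_nonneg (by positivity) hK1
      rw [← ENNReal.coe_toNNReal h2]
      exact ENNReal.coe_le_coe.2 (le_max_right _ _)
    calc K = (K ^ (1 / ρ)) ^ ρ := by
          rw [← ENNReal.rpow_mul, one_div, inv_mul_cancel₀ hρ0.ne', ENNReal.rpow_one]
      _ ≤ _ := ENNReal.rpow_le_rpow h1 hρ0.le
  have hB1 : (1 : ℝ≥0∞) ≤ (B : ℝ≥0∞) ^ ρ := by
    have h1 : (1 : ℝ≥0∞) ≤ (B : ℝ≥0∞) := by
      rw [← ENNReal.coe_one]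
      exact ENNReal.coe_le_coe.2 (le_max_left _ _)
    exact ENNReal.one_le_rpow h1 hρ0
  refine ⟨B, fun n μ hμ hT S hS f hf => ?_⟩
  rcases Nat.eq_zero_or_pos n with rfl | hn
  · have h1 : ∀ x, MX.mx μ S f x ≤ f x := by
      intro x
      unfold MX.mx
      refine iSup₂_le fun t _ => ?_
      have e : ∀ y : V 0, f (x + t • y) = f x := fun y => by
        congr 1
        exact Subsingleton.elim _ _
      simp only [e]
      rw [lintegral_const, measure_univ, mul_one]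
    calc ∫⁻ x, MX.mx μ S f x ^ ρ ≤ ∫⁻ x, f x ^ ρ :=
          lintegral_mono fun x => ENNReal.rpow_le_rpow (h1 x) hρ0.le
      _ = 1 * ∫⁻ x, f x ^ ρ := (one_mul _).symm
      _ ≤ _ := mul_le_mul' hB1 le_rfl
  · refine ext_cc hρ.le S (fun f hf hfc hf0 => ?_) hf
    have hN : Nice f := Nice.of_continuous hf hfc
    have hm : ∀ j, Measurable fun x => (Tj μ S j f x : ℝ≥0∞) := fun j =>
      (measurable_Tj S j hN).coe_nnreal_ennreal
    set g : V n → ℝ≥0∞ := fun y => ENNReal.ofReal (f y) with hg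
    have hfg : ∫⁻ x, ‖f x‖ₑ ^ ρ = ∫⁻ x, g x ^ ρ := by
      refine lintegral_congr fun x => ?_
      rw [Real.enorm_eq_ofReal (hf0 x)]
    have hgm : Measurable g := hf.measurable.ennreal_ofReal
    have hG1 := hG n S hS g hgm
    -- the sum of the pieces
    have hwpos : ∀ j, w j ≠ 0 := fun j => by
      simp only [hw, ne_eq, ENNReal.ofReal_eq_zero, not_le]
      exact Real.exp_pos _
    have hwtop : ∀ j, w j ≠ ∞ := fun j => ENNReal.ofReal_ne_top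
    have hT1 : ∀ x, (∑' j : ℤ, (Tj μ S j f x : ℝ≥0∞)) ^ ρ ≤
        W ^ (ρ - 1) * ∑' j : ℤ, w j * ((w j)⁻¹ ^ ρ * (Tj μ S j f x : ℝ≥0∞) ^ ρ) := by
      intro x
      have h1 := MX.tsum_rpow_le hρ.le w fun j => (w j)⁻¹ * (Tj μ S j f x : ℝ≥0∞)
      have e1 : ∀ j, w j * ((w j)⁻¹ * (Tj μ S j f x : ℝ≥0∞)) = (Tj μ S j f x : ℝ≥0∞) := by
        intro j
        rw [← mul_assoc, ENNReal.mul_inv_cancel (hwpos j) (hwtop j), one_mul]
      simp only [e1, ENNReal.mul_rpow_of_nonneg _ _ hρ0.le] at h1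
      exact h1
    have hT2 : ∫⁻ x, (∑' j : ℤ, (Tj μ S j f x : ℝ≥0∞)) ^ ρ ≤
        W ^ (ρ - 1) * (ENNReal.ofReal C * Z) * ∫⁻ x, g x ^ ρ := by
      calc ∫⁻ x, (∑' j : ℤ, (Tj μ S j f x : ℝ≥0∞)) ^ ρ
          ≤ ∫⁻ x, W ^ (ρ - 1) * ∑' j : ℤ, w j * ((w j)⁻¹ ^ ρ * (Tj μ S j f x : ℝ≥0∞) ^ ρ) :=
            lintegral_mono hT1
        _ = W ^ (ρ - 1) * ∑' j : ℤ, w j * ((w j)⁻¹ ^ ρ * ∫⁻ x, (Tj μ S j f x : ℝ≥0∞) ^ ρ) := by
            rw [lintegral_const_mul' _ _ (ENNReal.rpow_ne_top_of_nonneg (by linarith) hW1),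
              lintegral_tsum fun j => ((((hm j).pow_const ρ).const_mul _).const_mul _).aemeasurable]
            congr 1
            refine tsum_congr fun j => ?_
            rw [lintegral_const_mul' _ _ (hwtop j), lintegral_const_mul' _ _
              (ENNReal.rpow_ne_top_of_nonneg hρ0.le (ENNReal.inv_ne_top.2 (hwpos j)))]
        _ ≤ W ^ (ρ - 1) * ∑' j : ℤ, ((ENNReal.ofReal C *
              ENNReal.ofReal (Real.exp (-(c / 2 * |(j : ℝ)|)))) * ∫⁻ x, g x ^ ρ) := by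
            refine mul_le_mul' le_rfl (ENNReal.tsum_le_tsum fun j => ?_)
            have h2 := hT S hS f hN j
            rw [hfg] at h2
            calc w j * ((w j)⁻¹ ^ ρ * ∫⁻ x, (Tj μ S j f x : ℝ≥0∞) ^ ρ)
                ≤ w j * ((w j)⁻¹ ^ ρ * (ENNReal.ofReal (C * Real.exp (-(c * |(j : ℝ)|))) *
                    ∫⁻ x, g x ^ ρ)) := by gcongr
              _ = (w j * ((w j)⁻¹ ^ ρ * ENNReal.ofReal (C * Real.exp (-(c * |(j : ℝ)|))))) *
                    ∫⁻ x, g x ^ ρ := by ring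
              _ ≤ _ := mul_le_mul' (te_w hρ hc hC j) le_rfl
        _ = _ := by
            rw [ENNReal.tsum_mul_right, ENNReal.tsum_mul_left, hZ]
            ring
    calc ∫⁻ x, MX.mx μ S g x ^ ρ
        ≤ ∫⁻ x, 2 ^ (ρ - 1) * (MX.mx (gam n) S g x ^ ρ +
            (∑' j : ℤ, (Tj μ S j f x : ℝ≥0∞)) ^ ρ) := by
          refine lintegral_mono fun x => ?_
          exact (ENNReal.rpow_le_rpow (te_point hn hS hf hfc hf0 x) hρ0.le).trans
            (ENNReal.rpow_add_le_mul_rpow_add_rpow _ _ hρ.le)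
      _ = 2 ^ (ρ - 1) * ((∫⁻ x, MX.mx (gam n) S g x ^ ρ) +
            ∫⁻ x, (∑' j : ℤ, (Tj μ S j f x : ℝ≥0∞)) ^ ρ) := by
          rw [lintegral_const_mul' _ _ (ENNReal.rpow_ne_top_of_nonneg (by linarith) (by norm_num)),
            lintegral_add_right _ ((Measurable.tsum hm).pow_const ρ)]
      _ ≤ 2 ^ (ρ - 1) * (((G : ℝ≥0∞) ^ ρ * ∫⁻ x, g x ^ ρ) +
            W ^ (ρ - 1) * (ENNReal.ofReal C * Z) * ∫⁻ x, g x ^ ρ) :=
          mul_le_mul' le_rfl (add_le_add hG1 hT2)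
      _ = K * ∫⁻ x, g x ^ ρ := by
          rw [hK]
          ring
      _ ≤ _ := mul_le_mul' hBK le_rfl

end Pool.Agent.CB
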