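import Pool.Agent.CB.TjR
import Pool.Agent.CB.L2T
import Pool.Agent.CB.Interp

/-!
# CB-TjInt: exponential decay of the pieces on `L^ρ`

`interp` with `p1 = r`, `p = ρ`, `T = Tj μ S j`, `B1 = C^(1/r)` (`lr_Tj`),
`B2 = (C' exp (-c |j|))^(1/2)` (`l2_Tj`).
-/

set_option autoImplicit false

open MeasureTheory Set
open scoped ENNReal NNReal

namespace Pool.Agent.CB

theorem dec_Tj {a K : ℝ} {N : ℕ} (hK : 0 ≤ K) (ha : 1 / 2 < a) (haN : a ≤ N)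
    {p0 q r ρ : ℝ} (h0 : 1 < p0) (h1 : p0 < 2) (hq : 1 < q) (hr : 1 < r) (hr2 : r < 2)
    (hrq : 1 / r = 1 / 2 + (1 - p0 / 2) / q) (hρ : r < ρ) (hρ2 : ρ < 2) (D B : ℝ≥0) :
    ∃ C c : ℝ, 0 < C ∧ 0 < c ∧ ∀ (n : ℕ) (μ : Measure (V n)), Dec a N K μ →
      Dec a N K (gam n) → LocBdd p0 (D : ℝ≥0∞) μ → MX.BddF q (B : ℝ≥0∞) μ →
      ∀ (S : Finset ℝ), (∀ t ∈ S, 0 < t) → ∀ (f : V n → ℝ), Nice f → ∀ (j : ℤ),
        ∫⁻ x, (Tj μ S j f x : ℝ≥0∞) ^ ρ ≤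
          ENNReal.ofReal (C * Real.exp (-(c * |(j : ℝ)|))) * ∫⁻ x, ‖f x‖ₑ ^ ρ := by
  obtain ⟨C1, hC1, H1⟩ := lr_Tj h0 h1 hq hr hr2 hrq D B
  obtain ⟨C2, c2, hC2, hc2, H2⟩ := l2_Tj hK ha haN
  have hr0 : 0 < r := by linarith
  have h2r : 0 < 2 - r := by linarith
  set θ : ℝ := (ρ - r) / (2 - r) with hθ
  have hθ0 : 0 < θ := div_pos (by linarith) h2r
  have hmc := mc_pos hr.le hρ hρ2
  refine ⟨mc r ρ * (C1 ^ (1 / r)) ^ (r * (2 - ρ) / (2 - r)) * C2 ^ θ, c2 * θ, ?_, ?_, ?_⟩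
  · have e1 : 0 < C1 ^ (1 / r) := Real.rpow_pos_of_pos hC1 _
    have e2 : 0 < (C1 ^ (1 / r)) ^ (r * (2 - ρ) / (2 - r)) := Real.rpow_pos_of_pos e1 _
    have e3 : 0 < C2 ^ θ := Real.rpow_pos_of_pos hC2 _
    positivity
  · positivity
  · intro n μ hμ hγ hD hB S hS f hf j
    have := hμ.sym.prob
    have hE : 0 < C2 * Real.exp (-(c2 * |(j : ℝ)|)) := mul_pos hC2 (Real.exp_pos _)
    have hB1 : 0 < C1 ^ (1 / r) := Real.rpow_pos_of_pos hC1 _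
    have hB2 : 0 < (C2 * Real.exp (-(c2 * |(j : ℝ)|))) ^ (1 / (2 : ℝ)) :=
      Real.rpow_pos_of_pos hE _
    have k1 : (C1 ^ (1 / r)) ^ r = C1 := by
      rw [← Real.rpow_mul hC1.le, one_div_mul_cancel hr0.ne', Real.rpow_one]
    have k2 : ((C2 * Real.exp (-(c2 * |(j : ℝ)|))) ^ (1 / (2 : ℝ))) ^ 2 =
        C2 * Real.exp (-(c2 * |(j : ℝ)|)) := by
      rw [← Real.sqrt_eq_rpow, Real.sq_sqrt hE.le]
    have key := interp (n := n) volume (Tj μ S j) (fun g hg => measurable_Tj S j hg)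
      (fun g g' hg hg' x => Tj_add S j hg hg' x) hr.le hρ hρ2 hB1 hB2
      (fun g hg => by rw [k1]; exact H1 n μ inferInstance hD hB S hS g hg j)
      (fun g hg => by rw [k2]; exact H2 n μ hμ hγ S hS g hg j) f hf
    refine key.trans (le_of_eq ?_)
    congr 2
    have k3 : ((C2 * Real.exp (-(c2 * |(j : ℝ)|))) ^ (1 / (2 : ℝ))) ^ (2 * (ρ - r) / (2 - r)) =
        C2 ^ θ * Real.exp (-(c2 * θ * |(j : ℝ)|)) := by
      rw [← Real.rpow_mul hE.le]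
      have e : 1 / (2 : ℝ) * (2 * (ρ - r) / (2 - r)) = θ := by
        rw [hθ]; ring
      rw [e, Real.mul_rpow hC2.le (Real.exp_pos _).le, ← Real.exp_mul]
      congr 2
      ring
    rw [k3]
    ring

end Pool.Agent.CB
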