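import Pool.Agent.CB.LocB
import Pool.Agent.CB.TjInt
import Pool.Agent.CB.Tele

/-!
# CB-Main: the criterion

`Rg a N K q`: uniform boundedness at the exponent `q`.
-/

set_option autoImplicit false

open MeasureTheory Set
open scoped ENNReal NNReal

namespace Pool.Agent.CB

/-- Uniform boundedness at the exponent `q` of all measures with `Dec a N K`. -/
def Rg (a : ℝ) (N : ℕ) (K q : ℝ) : Prop :=
  ∃ C : ℝ≥0, ∀ (n : ℕ) (μ : Measure (V n)), Dec a N K μ → MX.BddF q (C : ℝ≥0∞) μ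

theorem rg_two {a K : ℝ} {N : ℕ} (hK : 0 ≤ K) (ha : 1 / 2 < a) (haN : a ≤ N) : Rg a N K 2 := by
  have hN : 1 ≤ N := by
    have : (0 : ℝ) < N := by linarith
    exact_mod_cast this
  obtain ⟨K1, hK1, hg⟩ := exists_dec_gam (show 0 < a by linarith) hN haN
  obtain ⟨C, c, hC, hc, h⟩ := l2_Tj (K := max K K1) (N := N) (le_max_of_le_left hK) ha haN
  obtain ⟨B, hB⟩ := bdd_of_Tj (ρ := 2) (by norm_num) hC hc
  refine ⟨B, fun n μ hμ => hB n μ hμ.sym.prob fun S hS f hf j => ?_⟩
  exact h n μ (hμ.mono (le_max_left _ _)) ((hg n).mono (le_max_right _ _)) S hS f hf j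

theorem rg_step {a K : ℝ} {N : ℕ} (hK : 0 ≤ K) (ha : 1 / 2 < a) (haN : a ≤ N) {p0 q ρ : ℝ}
    (h0 : 1 < 2 * a * (p0 - 1)) (h1 : p0 < 2) (hp0 : 1 < p0) (hq : p0 < q) (hq2 : q ≤ 2)
    (hρ : 1 / ρ < 1 / 2 + (1 - p0 / 2) / q) (hρ0 : 0 < ρ) (hρ2 : ρ ≤ 2) (h : Rg a N K q) :
    Rg a N K ρ := by
  rcases hρ2.eq_or_lt with h2 | h2
  · rw [h2]; exact rg_two hK ha haN
  have hN : 1 ≤ N := by
    have : (0 : ℝ) < N := by linarith
    exact_mod_cast this
  obtain ⟨B, hB⟩ := h
  obtain ⟨D, hD⟩ := exists_locBdd hK (show 0 < a by linarith) haN hN h0 h1 hp0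
  obtain ⟨K1, hK1, hg⟩ := exists_dec_gam (show 0 < a by linarith) hN haN
  obtain ⟨r, hr⟩ : ∃ r : ℝ, r = 1 / (1 / 2 + (1 - p0 / 2) / q) := ⟨_, rfl⟩
  have hq0 : 0 < q := by linarith
  have hden : 0 < 1 / 2 + (1 - p0 / 2) / q := by
    have : 0 ≤ (1 - p0 / 2) / q := div_nonneg (by linarith) hq0.le
    linarith
  have hrq : 1 / r = 1 / 2 + (1 - p0 / 2) / q := by rw [hr, one_div_one_div]
  have hr0 : 0 < r := by rw [hr]; positivity
  have hr1 : 1 < r := by
    rw [hr, lt_div_iff₀ hden, one_mul]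
    have : (1 - p0 / 2) / q < 1 / 2 := by
      rw [div_lt_iff₀ hq0]; linarith
    linarith
  have hr2 : r < 2 := by
    rw [hr, div_lt_iff₀ hden]
    have : 0 < (1 - p0 / 2) / q := div_pos (by linarith) hq0
    linarith
  have hrρ : r < ρ := by
    have h5 : 1 / ρ < 1 / r := by rw [hrq]; exact hρ
    exact (one_div_lt_one_div hρ0 hr0).1 h5
  obtain ⟨C, c, hC, hc, h⟩ := dec_Tj (K := max K K1) (N := N) (le_max_of_le_left hK) ha haN hp0 h1
    (show 1 < q by linarith) hr1 hr2 hrq hrρ h2 D B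
  obtain ⟨B', hB'⟩ := bdd_of_Tj (ρ := ρ) (by linarith) hC hc
  refine ⟨B', fun n μ hμ => hB' n μ hμ.sym.prob fun S hS f hf j => ?_⟩
  exact h n μ (hμ.mono (le_max_left _ _)) ((hg n).mono (le_max_right _ _)) (hD n μ hμ) (hB n μ hμ)
    S hS f hf j

/-- The criterion. -/
theorem criterion {a K : ℝ} {N : ℕ} (hK : 0 ≤ K) (ha : 1 / 2 < a) (haN : a ≤ N) {p : ℝ}
    (hp : 1 < 2 * a * (p - 1)) (hp2 : p ≤ 2) : Rg a N K p := by
  have ha0 : 0 < a := by linarith
  have hp1 : 1 < p := by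
    by_contra hcon
    have : 2 * a * (p - 1) ≤ 0 := mul_nonpos_of_nonneg_of_nonpos (by linarith) (by linarith)
    linarith
  -- choose `p0`
  obtain ⟨p0, h0, h1, h2⟩ : ∃ p0 : ℝ, 1 < 2 * a * (p0 - 1) ∧ 1 < p0 ∧ p0 < p := by
    refine ⟨(p + (1 + 1 / (2 * a))) / 2, ?_, ?_, ?_⟩
    · have : 2 * a * ((p + (1 + 1 / (2 * a))) / 2 - 1) = (2 * a * (p - 1) + 1) / 2 := by
        field_simp
        ring
      rw [this]
      linarith
    · have : 0 < 1 / (2 * a) := by positivity
      linarith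
    · have : 1 / (2 * a) < p - 1 := by
        rw [div_lt_iff₀ (by positivity)]
        linarith
      linarith
  obtain ⟨δ, hδ⟩ : ∃ δ : ℝ, δ = (1 - p0 / p) / 4 := ⟨_, rfl⟩
  have hδ0 : 0 < δ := by
    rw [hδ]
    have : p0 / p < 1 := by rw [div_lt_one (by linarith)]; exact h2
    linarith
  -- induction
  have key : ∀ i : ℕ, ∀ q : ℝ, p ≤ q → q ≤ 2 → 1 / q ≤ 1 / 2 + i * δ → Rg a N K q := by
    intro i
    induction i with
    | zero =>
      intro q hq1 hq2 hq
      have hq0 : 0 < q := by linarith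
      have h3 : 2 ≤ q := by
        have h4 : 1 / q ≤ 1 / 2 := by simpa using hq
        exact (one_div_le_one_div hq0 (by norm_num)).1 h4
      rw [le_antisymm hq2 h3]
      exact rg_two hK ha haN
    | succ i ih =>
      intro q hq1 hq2 hq
      have hq0 : 0 < q := by linarith
      -- the previous exponent
      obtain ⟨q', hq'⟩ : ∃ q' : ℝ, q' = min 2 (1 / (1 / q - δ)) := ⟨_, rfl⟩
      by_cases hc : 1 / q - δ ≤ 1 / 2
      · refine rg_step hK ha haN (q := 2) h0 (by linarith) h1 (by linarith) le_rfl ?_ hq0 hq2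
          (rg_two hK ha haN)
        have h5 : 1 / q ≤ 1 / 2 + δ := by linarith
        have h6 : δ < (1 - p0 / 2) / 2 := by
          rw [hδ]
          have : p0 / 2 ≤ p0 / p := div_le_div_of_nonneg_left (by linarith) (by linarith) hp2
          linarith [show 0 < 1 - p0 / 2 by linarith]
        linarith
      · push Not at hc
        have hc0 : 0 < 1 / q - δ := by linarith
        have e1 : 1 / (1 / (1 / q - δ)) = 1 / q - δ := one_div_one_div _
        have h7 : q < 1 / (1 / q - δ) := by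
          rw [lt_div_iff₀ hc0, mul_sub, mul_one_div_cancel hq0.ne']
          nlinarith
        have h8 : 1 / (1 / q - δ) < 2 := by
          rw [div_lt_iff₀ hc0]; linarith
        have h9 := ih (1 / (1 / q - δ)) (by linarith) h8.le (by
          rw [e1]
          push_cast at hq
          linarith)
        refine rg_step hK ha haN h0 (by linarith) h1 (by linarith) h8.le ?_ hq0 hq2 h9
        rw [div_div_eq_mul_div, div_one]
        -- `1/q < 1/2 + (1 - p0/2) (1/q - δ)`
        have hqp : 1 / q ≤ 1 / p := one_div_le_one_div_of_le (by linarith) hq1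
        have h10 : 1 / 2 - p0 / 2 * (1 / q) ≥ 2 * δ := by
          have : p0 / 2 * (1 / q) ≤ p0 / 2 * (1 / p) :=
            mul_le_mul_of_nonneg_left hqp (by linarith)
          have e2 : p0 / 2 * (1 / p) = p0 / p / 2 := by ring
          rw [hδ]
          linarith
        nlinarith
  obtain ⟨M, hM⟩ := exists_nat_gt ((1 / p) / δ)
  refine key M p le_rfl hp2 ?_
  rw [div_lt_iff₀ hδ0] at hM
  linarith

end Pool.Agent.CB
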