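import Pool.Agent.CB.RadB
import Pool.Agent.MX.Basic

/-!
# CB-MixB: a decreasing radial density is a mixture of uniform measures on balls

For `t > 0` let `b t = sSup {ρ | 0 ≤ ρ ∧ ∃ v, ‖v‖ = ρ ∧ t < G v}` (bounded above, because otherwise `G > t`
everywhere by `RD.anti`, and `∫ G = ∞`), `b t = 0` if the set is empty. `b` is antitone on `(0, ∞)`.
`{v | t < G v}` and `ball 0 (b t)` differ by a subset of the sphere of radius `b t`, a null set
(`Measure.addHaar_sphere`). Layer cake (Tonelli):
`∫⁻ v, F v * ofReal (G v) = ∫⁻ t in Ioi 0, ∫⁻ v in {t < G v}, F v = ∫⁻ t in Ioi 0, ∫⁻ v in ball 0 (b t), F v`,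
and `∫⁻ v in ball 0 b, F v = volume (ball 0 b) * ∫⁻ u, F (b • u) ∂(Ub s)` for `b > 0`
(`Pool.Agent.MX.lintegral_unif_smul`, `b • ball 0 1 = ball 0 b`). Take `τ` = image under `b` of
`(volume.restrict (Ioi 0)).withDensity (fun t => volume (ball 0 (b t)))`; `F = 1` gives total mass `1`.
-/

set_option autoImplicit false

open MeasureTheory Set
open scoped ENNReal NNReal

namespace Pool.Agent.CB

/-- the radius of the ball with the volume of `S` -/
private noncomputable def bR (s : ℕ) (S : Set (V s)) : ℝ :=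
  ((volume S).toReal / (volume (Metric.ball (0 : V s) 1)).toReal) ^ ((s : ℝ)⁻¹)

private theorem bR_nonneg (s : ℕ) (S : Set (V s)) : 0 ≤ bR s S :=
  Real.rpow_nonneg (div_nonneg ENNReal.toReal_nonneg ENNReal.toReal_nonneg) _

private theorem vol_ball {s : ℕ} (x : V s) {r : ℝ} (hr : 0 ≤ r) :
    volume (Metric.closedBall x r) =
      ENNReal.ofReal (r ^ s) * volume (Metric.ball (0 : V s) 1) := by
  have h := Measure.addHaar_closedBall (volume : Measure (V s)) x hr
  rwa [finrank_euclideanSpace_fin] at h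

private theorem vol_oball {s : ℕ} (hs : 2 ≤ s) (x : V s) {r : ℝ} (hr : 0 ≤ r) :
    volume (Metric.ball x r) =
      ENNReal.ofReal (r ^ s) * volume (Metric.ball (0 : V s) 1) := by
  have : Nonempty (Fin s) := ⟨⟨0, by omega⟩⟩
  have h := Measure.addHaar_ball (volume : Measure (V s)) x hr
  rwa [finrank_euclideanSpace_fin] at h

private theorem c_pos (s : ℕ) : volume (Metric.ball (0 : V s) 1) ≠ 0 :=
  (Metric.measure_ball_pos volume (0 : V s) one_pos).ne'

private theorem c_fin (s : ℕ) : volume (Metric.ball (0 : V s) 1) ≠ ∞ :=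
  measure_ball_lt_top.ne

private theorem vol_bR {s : ℕ} (hs : 2 ≤ s) {S : Set (V s)} (hS : volume S ≠ ∞) :
    ENNReal.ofReal (bR s S ^ s) * volume (Metric.ball (0 : V s) 1) = volume S := by
  unfold bR
  rw [Real.rpow_inv_natCast_pow (div_nonneg ENNReal.toReal_nonneg ENNReal.toReal_nonneg)
    (by omega)]
  have hc : 0 < (volume (Metric.ball (0 : V s) 1)).toReal :=
    ENNReal.toReal_pos (c_pos s) (c_fin s)
  rw [ENNReal.ofReal_div_of_pos hc, ENNReal.ofReal_toReal hS, ENNReal.ofReal_toReal (c_fin s)]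
  exact ENNReal.div_mul_cancel (c_pos s) (c_fin s)

private theorem ae_ball {s : ℕ} (hs : 2 ≤ s) {S : Set (V s)} (hm : MeasurableSet S)
    (hS : volume S ≠ ∞) (hd : ∀ v ∈ S, ∀ w : V s, ‖w‖ ≤ ‖v‖ → w ∈ S) :
    S =ᵐ[volume] Metric.ball (0 : V s) (bR s S) := by
  have hsub : S ⊆ Metric.closedBall (0 : V s) (bR s S) := by
    intro v hv
    rw [mem_closedBall_zero_iff]
    by_contra hcon
    push Not at hcon
    have h1 : Metric.closedBall (0 : V s) ‖v‖ ⊆ S := by
      intro w hw
      rw [mem_closedBall_zero_iff] at hw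
      exact hd v hv w hw
    have h2 := measure_mono (μ := (volume : Measure (V s))) h1
    rw [vol_ball (0 : V s) (norm_nonneg v), ← vol_bR hs hS] at h2
    have h3 : ENNReal.ofReal (bR s S ^ s) < ENNReal.ofReal (‖v‖ ^ s) := by
      have hb := bR_nonneg s S
      have h4 : bR s S ^ s < ‖v‖ ^ s := pow_lt_pow_left₀ hcon hb (by omega)
      exact (ENNReal.ofReal_lt_ofReal_iff (lt_of_le_of_lt (pow_nonneg hb s) h4)).2 h4
    exact absurd h2 (not_le.2 ((ENNReal.mul_lt_mul_iff_left (c_pos s) (c_fin s)).2 h3))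
  have h5 : S =ᵐ[volume] Metric.closedBall (0 : V s) (bR s S) := by
    refine ae_eq_of_subset_of_measure_ge hsub ?_ hm.nullMeasurableSet measure_closedBall_lt_top.ne
    rw [vol_ball (0 : V s) (bR_nonneg s S), vol_bR hs hS]
  have h6 : Metric.ball (0 : V s) (bR s S) =ᵐ[volume] Metric.closedBall (0 : V s) (bR s S) := by
    refine ae_eq_of_subset_of_measure_ge Metric.ball_subset_closedBall ?_
      measurableSet_ball.nullMeasurableSet measure_closedBall_lt_top.ne
    rw [vol_ball (0 : V s) (bR_nonneg s S), vol_oball hs (0 : V s) (bR_nonneg s S)]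
  exact h5.trans h6.symm

private theorem ub_univ (s : ℕ) : (Ub s) univ = 1 := by
  have h := MX.lintegral_unif (E := V s) (Metric.ball (0 : V s) 1) (fun _ => 1)
  rw [lintegral_one, setLIntegral_one] at h
  unfold Ub
  rw [h]
  exact ENNReal.inv_mul_cancel (c_pos s) (c_fin s)

private theorem lint_ball {s : ℕ} (hs : 2 ≤ s) (F : V s → ℝ≥0∞) {r : ℝ} (hr : 0 ≤ r) :
    ∫⁻ v in Metric.ball (0 : V s) r, F v =
      ENNReal.ofReal (r ^ s) * volume (Metric.ball (0 : V s) 1) * ∫⁻ u, F (r • u) ∂(Ub s) := by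
  rcases hr.eq_or_lt with h0 | h0
  · rw [← h0, Metric.ball_zero, Measure.restrict_empty, lintegral_zero_measure,
      zero_pow (by omega), ENNReal.ofReal_zero, zero_mul, zero_mul]
  · have h1 := MX.lintegral_unif_smul (E := V s) (Metric.ball (0 : V s) 1) h0 0 F
    rw [smul_unitBall_of_pos h0] at h1
    simp only [zero_add] at h1
    unfold Ub
    rw [h1, ← vol_oball hs (0 : V s) hr]
    have hp : volume (Metric.ball (0 : V s) r) ≠ 0 :=
      (Metric.measure_ball_pos volume (0 : V s) h0).ne'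
    exact (ENNReal.mul_div_cancel hp measure_ball_lt_top.ne).symm

theorem exists_mix {s : ℕ} (hs : 2 ≤ s) {G : V s → ℝ} (h : RD s G) :
    ∃ τ : Measure ℝ, Mix G τ := by
  have hSm : ∀ t : ℝ, MeasurableSet {v : V s | t < G v} := fun t =>
    measurableSet_lt measurable_const h.meas
  have hSf : ∀ t : ℝ, 0 < t → volume {v : V s | t < G v} ≠ ∞ := by
    intro t ht
    have h1 := mul_meas_ge_le_lintegral (μ := (volume : Measure (V s)))
      (h.meas.ennreal_ofReal) (ENNReal.ofReal t)
    rw [h.mass] at h1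
    have h2 : {v : V s | t < G v} ⊆ {v : V s | ENNReal.ofReal t ≤ ENNReal.ofReal (G v)} :=
      fun v hv => ENNReal.ofReal_le_ofReal (le_of_lt hv)
    have h3 : ENNReal.ofReal t * volume {v : V s | t < G v} ≤ 1 :=
      le_trans (mul_le_mul_right (measure_mono h2) _) h1
    intro hcon
    rw [hcon, ENNReal.mul_top (by simpa using ht)] at h3
    exact absurd h3 (by simp)
  have hSd : ∀ t : ℝ, ∀ v ∈ {v : V s | t < G v}, ∀ w : V s, ‖w‖ ≤ ‖v‖ → w ∈ {v : V s | t < G v} :=
    fun t v hv w hw => lt_of_lt_of_le hv (h.anti hs hw)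
  have hbm : Measurable fun t : ℝ => bR s {v : V s | t < G v} := by
    have h1 : Antitone fun t : ℝ => volume {v : V s | t < G v} := by
      intro t t' htt
      exact measure_mono fun v hv => lt_of_le_of_lt htt hv
    unfold bR
    exact (h1.measurable.ennreal_toReal.div_const _).pow_const _
  have hδm : Measurable fun t : ℝ => ENNReal.ofReal (bR s {v : V s | t < G v} ^ s) *
      volume (Metric.ball (0 : V s) 1) :=
    ((hbm.pow_const s).ennreal_ofReal).mul_const _
  have hUf : IsFiniteMeasure (Ub s) := ⟨by rw [ub_univ]; exact ENNReal.one_lt_top⟩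
  have heq : ∀ F : V s → ℝ≥0∞, Measurable F →
      ∫⁻ v, F v * ENNReal.ofReal (G v) =
        ∫⁻ b, ∫⁻ u, F (b • u) ∂(Ub s) ∂((((volume : Measure ℝ).restrict (Ioi 0)).withDensity
          (fun t => ENNReal.ofReal (bR s {v : V s | t < G v} ^ s) *
            volume (Metric.ball (0 : V s) 1))).map (fun t => bR s {v : V s | t < G v})) := by
    intro F hF
    have hH : Measurable fun b : ℝ => ∫⁻ u, F (b • u) ∂(Ub s) := by
      have h1 : Measurable fun q : ℝ × V s => F (q.1 • q.2) :=
        hF.comp (measurable_fst.smul measurable_snd)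
      exact h1.lintegral_prod_right'
    have hHc : Measurable fun t : ℝ => ∫⁻ u, F (bR s {v : V s | t < G v} • u) ∂(Ub s) :=
      hH.comp hbm
    rw [lintegral_map hH hbm, lintegral_withDensity_eq_lintegral_mul _ hδm hHc]
    have h2 := lintegral_eq_lintegral_meas_lt ((volume : Measure (V s)).withDensity F)
      (f := G) (Filter.Eventually.of_forall h.nonneg) h.meas.aemeasurable
    rw [lintegral_withDensity_eq_lintegral_mul _ hF h.meas.ennreal_ofReal] at h2
    simp only [Pi.mul_apply] at h2 ⊢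
    rw [h2]
    refine setLIntegral_congr_fun measurableSet_Ioi fun t ht => ?_
    rw [withDensity_apply _ (hSm t),
      setLIntegral_congr (ae_ball hs (hSm t) (hSf t ht) (hSd t)), lint_ball hs F (bR_nonneg s _)]
  refine ⟨_, ⟨⟨?_⟩, ?_, heq⟩⟩
  · have h1 := heq (fun _ => 1) measurable_const
    simp only [one_mul, lintegral_one, ub_univ] at h1
    rw [h.mass] at h1
    exact h1.symm
  · rw [Measure.map_apply hbm measurableSet_Iic, withDensity_apply _ (hbm measurableSet_Iic)]
    refine setLIntegral_eq_zero (hbm measurableSet_Iic) ?_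
    intro t ht
    have h1 : bR s {v : V s | t < G v} = 0 := le_antisymm ht (bR_nonneg s _)
    simp only [Pi.zero_apply]
    rw [h1, zero_pow (by omega), ENNReal.ofReal_zero, zero_mul]

end Pool.Agent.CB
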