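import Pool.Agent.CB.OrbDefs
import Pool.Agent.CB.MixB

/-!
# CB-Mix2B: mixtures of balls in the first factor

As `MixB.lean`, with the parameter `c`: let `e` be a unit vector of `V (k+1)`, `k ≥ 1`;
`b (t, c) = sSup {ρ | 0 ≤ ρ ∧ t < G (ρ • e, c)}`. For fixed `c` the function `G (·, c)` is radial and decreasing in the norm
(same proof as `RD.anti`, from `rad`, `mid`). For almost every `c` the integral of `G (·, c)` is finite (Tonelli, `mass`), and for those
`c` and `t > 0` the set is bounded and `{v | t < G (v, c)}` equals `ball 0 (b (t, c))` up to a null set.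
Measurability of `b`: for bounded sets `ρ < b (t, c) ↔ ∃ rational ρ' > ρ, t < G (ρ' • e, c)` (`ρ ≥ 0`); to have it everywhere use
`b = (⨆ ρ' rational ≥ 0, if t < G (ρ' • e, c) then ρ' else 0)` in `ℝ≥0∞` and `toReal`.
`τ` = image under `(t, c) ↦ (b (t, c), c)` of `(volume.restrict (Ioi 0 ×ˢ univ)).withDensity (volume (ball 0 (b (t, c))))`.
-/

set_option autoImplicit false

open MeasureTheory Set
open scoped ENNReal NNReal

namespace Pool.Agent.CB

/-- the radius of the ball with the volume of `S` -/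
private noncomputable def bR (s : ℕ) (S : Set (V s)) : ℝ :=
  ((volume S).toReal / (volume (Metric.ball (0 : V s) 1)).toReal) ^ ((s : ℝ)⁻¹)

private theorem bR_nonneg (s : ℕ) (S : Set (V s)) : 0 ≤ bR s S :=
  Real.rpow_nonneg (div_nonneg ENNReal.toReal_nonneg ENNReal.toReal_nonneg) _

private theorem vol_ball {s : ℕ} (x : V s) {r : ℝ} (hr : 0 ≤ r) :
    volume (Metric.closedBall x r) =
      ENNReal.ofReal (r ^ s) * volume (Metric.ball (0 : V s) 1) := by
  have h := Measure.addHaar_closedBall (volume : Measure (V s)) x hr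
  rwa [finrank_euclideanSpace_fin] at h

private theorem vol_oball {s : ℕ} (hs : 2 ≤ s) (x : V s) {r : ℝ} (hr : 0 ≤ r) :
    volume (Metric.ball x r) =
      ENNReal.ofReal (r ^ s) * volume (Metric.ball (0 : V s) 1) := by
  have : Nonempty (Fin s) := ⟨⟨0, by omega⟩⟩
  have h := Measure.addHaar_ball (volume : Measure (V s)) x hr
  rwa [finrank_euclideanSpace_fin] at h

private theorem c_pos (s : ℕ) : volume (Metric.ball (0 : V s) 1) ≠ 0 :=
  (Metric.measure_ball_pos volume (0 : V s) one_pos).ne'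

private theorem c_fin (s : ℕ) : volume (Metric.ball (0 : V s) 1) ≠ ∞ :=
  measure_ball_lt_top.ne

private theorem vol_bR {s : ℕ} (hs : 2 ≤ s) {S : Set (V s)} (hS : volume S ≠ ∞) :
    ENNReal.ofReal (bR s S ^ s) * volume (Metric.ball (0 : V s) 1) = volume S := by
  unfold bR
  rw [Real.rpow_inv_natCast_pow (div_nonneg ENNReal.toReal_nonneg ENNReal.toReal_nonneg)
    (by omega)]
  have hc : 0 < (volume (Metric.ball (0 : V s) 1)).toReal :=
    ENNReal.toReal_pos (c_pos s) (c_fin s)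
  rw [ENNReal.ofReal_div_of_pos hc, ENNReal.ofReal_toReal hS, ENNReal.ofReal_toReal (c_fin s)]
  exact ENNReal.div_mul_cancel (c_pos s) (c_fin s)

private theorem ae_ball {s : ℕ} (hs : 2 ≤ s) {S : Set (V s)} (hm : MeasurableSet S)
    (hS : volume S ≠ ∞) (hd : ∀ v ∈ S, ∀ w : V s, ‖w‖ ≤ ‖v‖ → w ∈ S) :
    S =ᵐ[volume] Metric.ball (0 : V s) (bR s S) := by
  have hsub : S ⊆ Metric.closedBall (0 : V s) (bR s S) := by
    intro v hv
    rw [mem_closedBall_zero_iff]
    by_contra hcon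
    push Not at hcon
    have h1 : Metric.closedBall (0 : V s) ‖v‖ ⊆ S := by
      intro w hw
      rw [mem_closedBall_zero_iff] at hw
      exact hd v hv w hw
    have h2 := measure_mono (μ := (volume : Measure (V s))) h1
    rw [vol_ball (0 : V s) (norm_nonneg v), ← vol_bR hs hS] at h2
    have h3 : ENNReal.ofReal (bR s S ^ s) < ENNReal.ofReal (‖v‖ ^ s) := by
      have hb := bR_nonneg s S
      have h4 : bR s S ^ s < ‖v‖ ^ s := pow_lt_pow_left₀ hcon hb (by omega)
      exact (ENNReal.ofReal_lt_ofReal_iff (lt_of_le_of_lt (pow_nonneg hb s) h4)).2 h4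
    exact absurd h2 (not_le.2 ((ENNReal.mul_lt_mul_iff_left (c_pos s) (c_fin s)).2 h3))
  have h5 : S =ᵐ[volume] Metric.closedBall (0 : V s) (bR s S) := by
    refine ae_eq_of_subset_of_measure_ge hsub ?_ hm.nullMeasurableSet measure_closedBall_lt_top.ne
    rw [vol_ball (0 : V s) (bR_nonneg s S), vol_bR hs hS]
  have h6 : Metric.ball (0 : V s) (bR s S) =ᵐ[volume] Metric.closedBall (0 : V s) (bR s S) := by
    refine ae_eq_of_subset_of_measure_ge Metric.ball_subset_closedBall ?_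
      measurableSet_ball.nullMeasurableSet measure_closedBall_lt_top.ne
    rw [vol_ball (0 : V s) (bR_nonneg s S), vol_oball hs (0 : V s) (bR_nonneg s S)]
  exact h5.trans h6.symm

private theorem ub_univ (s : ℕ) : (Ub s) univ = 1 := by
  have h := MX.lintegral_unif (E := V s) (Metric.ball (0 : V s) 1) (fun _ => 1)
  rw [lintegral_one, setLIntegral_one] at h
  unfold Ub
  rw [h]
  exact ENNReal.inv_mul_cancel (c_pos s) (c_fin s)

private theorem lint_ball {s : ℕ} (hs : 2 ≤ s) (F : V s → ℝ≥0∞) {r : ℝ} (hr : 0 ≤ r) :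
    ∫⁻ v in Metric.ball (0 : V s) r, F v =
      ENNReal.ofReal (r ^ s) * volume (Metric.ball (0 : V s) 1) * ∫⁻ u, F (r • u) ∂(Ub s) := by
  rcases hr.eq_or_lt with h0 | h0
  · rw [← h0, Metric.ball_zero, Measure.restrict_empty, lintegral_zero_measure,
      zero_pow (by omega), ENNReal.ofReal_zero, zero_mul, zero_mul]
  · have h1 := MX.lintegral_unif_smul (E := V s) (Metric.ball (0 : V s) 1) h0 0 F
    rw [smul_unitBall_of_pos h0] at h1
    simp only [zero_add] at h1
    unfold Ub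
    rw [h1, ← vol_oball hs (0 : V s) hr]
    have hp : volume (Metric.ball (0 : V s) r) ≠ 0 :=
      (Metric.measure_ball_pos volume (0 : V s) h0).ne'
    exact (ENNReal.mul_div_cancel hp measure_ball_lt_top.ne).symm

private theorem exists_orth2 {s : ℕ} (hs : 2 ≤ s) (v : V s) : ∃ z : V s, z ≠ 0 ∧ inner ℝ v z = 0 := by
  have h1 : Module.finrank ℝ (Submodule.span ℝ {v}) ≤ 1 := by
    have := finrank_span_le_card (R := ℝ) ({v} : Set (V s))
    simpa using this
  have h2 : Module.finrank ℝ (Submodule.span ℝ {v}) +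
      Module.finrank ℝ (Submodule.span ℝ {v})ᗮ = s := by
    rw [Submodule.finrank_add_finrank_orthogonal]
    simp
  have h3 : 0 < Module.finrank ℝ (Submodule.span ℝ {v})ᗮ := by omega
  obtain ⟨z, hz⟩ := Module.finrank_pos_iff_exists_ne_zero.1 h3
  refine ⟨z, fun h => hz (Subtype.ext h), ?_⟩
  exact (Submodule.mem_orthogonal_singleton_iff_inner_right.1 z.2)

private theorem anti2 {s : ℕ} (hs : 2 ≤ s) {G : V s → ℝ} (hnn : ∀ v, 0 ≤ G v)
    (hrad : ∀ v w, ‖v‖ = ‖w‖ → G v = G w)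
    (hmid : ∀ v w, G v * G w ≤ G ((1 / 2 : ℝ) • (v + w)) ^ 2) {v w : V s} (hvw : ‖v‖ ≤ ‖w‖) :
    G w ≤ G v := by
  obtain ⟨z0, hz0, hin⟩ := exists_orth2 hs v
  have hn0 : 0 < ‖z0‖ := norm_pos_iff.2 hz0
  have hR : 0 ≤ ‖w‖ ^ 2 - ‖v‖ ^ 2 := by
    have := pow_le_pow_left₀ (norm_nonneg v) hvw 2
    linarith
  set c : ℝ := Real.sqrt (‖w‖ ^ 2 - ‖v‖ ^ 2) / ‖z0‖ with hc
  set z : V s := c • z0 with hz
  have hzn : ‖z‖ ^ 2 = ‖w‖ ^ 2 - ‖v‖ ^ 2 := by
    have hc0 : 0 ≤ c := div_nonneg (Real.sqrt_nonneg _) hn0.le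
    rw [hz, norm_smul, Real.norm_of_nonneg hc0, hc, div_mul_cancel₀ _ hn0.ne', Real.sq_sqrt hR]
  have hvz : inner ℝ v z = 0 := by rw [hz, inner_smul_right, hin, mul_zero]
  have h1 : ‖v + z‖ = ‖w‖ := by
    have : ‖v + z‖ ^ 2 = ‖w‖ ^ 2 := by
      rw [norm_add_sq_real, hvz, hzn]; ring
    exact (pow_left_inj₀ (norm_nonneg _) (norm_nonneg _) two_ne_zero).1 this
  have h2 : ‖v - z‖ = ‖w‖ := by
    have : ‖v - z‖ ^ 2 = ‖w‖ ^ 2 := by
      rw [norm_sub_sq_real, hvz, hzn]; ring
    exact (pow_left_inj₀ (norm_nonneg _) (norm_nonneg _) two_ne_zero).1 this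
  have hm := hmid (v + z) (v - z)
  have e : (1 / 2 : ℝ) • (v + z + (v - z)) = v := by
    have : v + z + (v - z) = (2 : ℝ) • v := by rw [two_smul]; abel
    rw [this, smul_smul]
    norm_num
  rw [e, hrad _ _ h1, hrad _ _ h2] at hm
  have hm' : G w ^ 2 ≤ G v ^ 2 := by nlinarith
  exact (pow_le_pow_iff_left₀ (hnn w) (hnn v) two_ne_zero).1 hm'

theorem exists_mix2 {k : ℕ} (hk : 1 ≤ k) {Cm : ℕ → ℝ≥0} {G : V (k + 1) × ℝ → ℝ}
    (h : RD2 k Cm G) : ∃ τ : Measure (ℝ × ℝ), Mix2 G τ := by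
  have hs : 2 ≤ k + 1 := by omega
  have hGc : ∀ c : ℝ, Measurable fun v : V (k + 1) => G (v, c) := fun c =>
    h.meas.comp measurable_prodMk_right
  have hSm : ∀ t c : ℝ, MeasurableSet {v : V (k + 1) | t < G (v, c)} := fun t c =>
    measurableSet_lt measurable_const (hGc c)
  have hGm : Measurable fun z : V (k + 1) × ℝ => ENNReal.ofReal (G z) := h.meas.ennreal_ofReal
  have hfin : ∀ᵐ c : ℝ, ∫⁻ v : V (k + 1), ENNReal.ofReal (G (v, c)) < ∞ := by
    have h1 : ∫⁻ c : ℝ, ∫⁻ v : V (k + 1), ENNReal.ofReal (G (v, c)) = 1 := by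
      rw [← h.mass]
      exact (lintegral_prod_symm' (μ := (volume : Measure (V (k + 1)))) (ν := (volume : Measure ℝ))
        (fun z => ENNReal.ofReal (G z)) hGm).symm
    refine ae_lt_top hGm.lintegral_prod_left' ?_
    rw [h1]
    exact ENNReal.one_ne_top
  have hSf : ∀ c : ℝ, ∫⁻ v : V (k + 1), ENNReal.ofReal (G (v, c)) < ∞ → ∀ t : ℝ, 0 < t →
      volume {v : V (k + 1) | t < G (v, c)} ≠ ∞ := by
    intro c hc t ht
    have h1 := mul_meas_ge_le_lintegral (μ := (volume : Measure (V (k + 1))))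
      ((hGc c).ennreal_ofReal) (ENNReal.ofReal t)
    have h2 : {v : V (k + 1) | t < G (v, c)} ⊆
        {v : V (k + 1) | ENNReal.ofReal t ≤ ENNReal.ofReal (G (v, c))} :=
      fun v hv => ENNReal.ofReal_le_ofReal (le_of_lt hv)
    have h3 : ENNReal.ofReal t * volume {v : V (k + 1) | t < G (v, c)} < ∞ :=
      lt_of_le_of_lt (le_trans (mul_le_mul_right (measure_mono h2) _) h1) hc
    intro hcon
    rw [hcon, ENNReal.mul_top (by simpa using ht)] at h3
    exact absurd h3 (by simp)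
  have hSd : ∀ t c : ℝ, ∀ v ∈ {v : V (k + 1) | t < G (v, c)}, ∀ w : V (k + 1), ‖w‖ ≤ ‖v‖ →
      w ∈ {v : V (k + 1) | t < G (v, c)} :=
    fun t c v hv w hw => lt_of_lt_of_le hv (anti2 hs (G := fun v => G (v, c))
      (fun v => h.nonneg _) (fun v w => h.rad v w c) (fun v w => h.mid v w c) hw)
  have hvm : Measurable fun z : ℝ × ℝ => volume {v : V (k + 1) | z.1 < G (v, z.2)} := by
    have hT : MeasurableSet {p : (ℝ × ℝ) × V (k + 1) | p.1.1 < G (p.2, p.1.2)} :=
      measurableSet_lt (measurable_fst.comp measurable_fst)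
        (h.meas.comp (measurable_snd.prodMk (measurable_snd.comp measurable_fst)))
    exact measurable_measure_prodMk_left hT
  have hbm : Measurable fun z : ℝ × ℝ => bR (k + 1) {v : V (k + 1) | z.1 < G (v, z.2)} := by
    unfold bR
    exact (hvm.ennreal_toReal.div_const _).pow_const _
  have hδm : Measurable fun z : ℝ × ℝ =>
      ENNReal.ofReal (bR (k + 1) {v : V (k + 1) | z.1 < G (v, z.2)} ^ (k + 1)) *
      volume (Metric.ball (0 : V (k + 1)) 1) :=
    ((hbm.pow_const (k + 1)).ennreal_ofReal).mul_const _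
  have hmm : Measurable fun z : ℝ × ℝ =>
      ((bR (k + 1) {v : V (k + 1) | z.1 < G (v, z.2)}, z.2) : ℝ × ℝ) :=
    hbm.prodMk measurable_snd
  have hUf : IsFiniteMeasure (Ub (k + 1)) := ⟨by rw [ub_univ]; exact ENNReal.one_lt_top⟩
  have heq : ∀ F : V (k + 1) × ℝ → ℝ≥0∞, Measurable F →
      ∫⁻ z, F z * ENNReal.ofReal (G z) =
        ∫⁻ z, ∫⁻ u, F (z.1 • u, z.2) ∂(Ub (k + 1)) ∂(((((volume : Measure ℝ).restrict
          (Ioi 0)).prod (volume : Measure ℝ)).withDensity
          (fun z => ENNReal.ofReal (bR (k + 1) {v : V (k + 1) | z.1 < G (v, z.2)} ^ (k + 1)) *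
            volume (Metric.ball (0 : V (k + 1)) 1))).map
              (fun z => ((bR (k + 1) {v : V (k + 1) | z.1 < G (v, z.2)}, z.2) : ℝ × ℝ))) := by
    intro F hF
    have hH : Measurable fun z : ℝ × ℝ => ∫⁻ u, F (z.1 • u, z.2) ∂(Ub (k + 1)) := by
      have h1 : Measurable fun q : (ℝ × ℝ) × V (k + 1) => F (q.1.1 • q.2, q.1.2) :=
        hF.comp (((measurable_fst.comp measurable_fst).smul measurable_snd).prodMk
          (measurable_snd.comp measurable_fst))
      exact h1.lintegral_prod_right'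
    have hHc : Measurable fun z : ℝ × ℝ =>
        ∫⁻ u, F (bR (k + 1) {v : V (k + 1) | z.1 < G (v, z.2)} • u, z.2) ∂(Ub (k + 1)) :=
      hH.comp hmm
    rw [lintegral_map hH hmm]
    dsimp only
    rw [lintegral_withDensity_eq_lintegral_mul _ hδm hHc,
      lintegral_prod_symm' _ (hδm.mul hHc)]
    have hL : ∫⁻ z, F z * ENNReal.ofReal (G z) =
        ∫⁻ c : ℝ, ∫⁻ v : V (k + 1), F (v, c) * ENNReal.ofReal (G (v, c)) :=
      lintegral_prod_symm' (μ := (volume : Measure (V (k + 1)))) (ν := (volume : Measure ℝ))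
        (fun z => F z * ENNReal.ofReal (G z)) (hF.mul hGm)
    rw [hL]
    refine lintegral_congr_ae ?_
    filter_upwards [hfin] with c hc
    have hFc : Measurable fun v : V (k + 1) => F (v, c) := hF.comp measurable_prodMk_right
    have h2 := lintegral_eq_lintegral_meas_lt
      ((volume : Measure (V (k + 1))).withDensity fun v => F (v, c))
      (f := fun v => G (v, c)) (Filter.Eventually.of_forall fun v => h.nonneg _)
      (hGc c).aemeasurable
    rw [lintegral_withDensity_eq_lintegral_mul _ hFc (hGc c).ennreal_ofReal] at h2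
    simp only [Pi.mul_apply] at h2 ⊢
    rw [h2]
    refine setLIntegral_congr_fun measurableSet_Ioi fun t ht => ?_
    rw [withDensity_apply _ (hSm t c),
      setLIntegral_congr (ae_ball hs (hSm t c) (hSf c hc t ht) (hSd t c)),
      lint_ball hs (fun v => F (v, c)) (bR_nonneg (k + 1) _)]
  refine ⟨_, ⟨⟨?_⟩, ?_, heq⟩⟩
  · have h1 := heq (fun _ => 1) measurable_const
    simp only [one_mul, lintegral_one, ub_univ] at h1
    rw [h.mass] at h1
    exact h1.symm
  · have hm0 : MeasurableSet {z : ℝ × ℝ | z.1 ≤ 0} := measurableSet_le measurable_fst measurable_const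
    rw [Measure.map_apply hmm hm0, withDensity_apply _ (hmm hm0)]
    refine setLIntegral_eq_zero (hmm hm0) ?_
    intro z hz
    have h1 : bR (k + 1) {v : V (k + 1) | z.1 < G (v, z.2)} = 0 :=
      le_antisymm hz (bR_nonneg (k + 1) _)
    simp only [Pi.zero_apply]
    rw [h1, zero_pow (by omega), ENNReal.ofReal_zero, zero_mul]

end Pool.Agent.CB
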