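import Pool.Agent.CB.TensR

/-!
# Project CB, part 3: local data for one block (definitions)
-/

set_option autoImplicit false

open MeasureTheory Set
open scoped ENNReal NNReal

namespace Pool.Agent.CB

/-- Left multiplication of a matrix (with `n` rows and `m` columns) by a square matrix. -/
noncomputable def lm {n m : ℕ} (U : Matrix (Fin n) (Fin n) ℝ) (y : Fin n × Fin m → ℝ) :
    Fin n × Fin m → ℝ := fun z => ∑ i, U z.1 i * y (i, z.2)

/-- Keep only the rows in `R`. -/
noncomputable def rs {n m : ℕ} (R : Finset (Fin n)) (y : Fin n × Fin m → ℝ) :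
    Fin n × Fin m → ℝ := fun z => if z.1 ∈ R then y z else 0

/-- Local data: the part of the functional `f` outside the rows `R` is `v 0`, and the functionals
`v 0, …, v k` are rotated into each other by orthogonal matrices which do not change the part of `f` on `R`. -/
structure LD (k : ℕ) {n m : ℕ} (f : (Fin n × Fin m → ℝ) →ₗ[ℝ] ℝ) (R : Finset (Fin n))
    (v : Fin (k + 1) → (Fin n × Fin m → ℝ) →ₗ[ℝ] ℝ) : Prop where
  zero : ∀ y, v 0 y = f (rs Rᶜ y)
  rot : ∀ a : V (k + 1), ‖a‖ = 1 → ∃ U : Matrix (Fin n) (Fin n) ℝ,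
    U.transpose * U = 1 ∧ U * U.transpose = 1 ∧ (∀ y, ∑ i, a i * v i y = v 0 (lm U y)) ∧
    ∀ y, f (rs R (lm U y)) = f (rs R y)

end Pool.Agent.CB
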