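import Pool.Agent.CB.Defs

/-!
# CB-NiceF: elementary facts on nice functions (continuous, bounded, integrable)

Integrability of the truncations by `Integrable.mono` (`|max (-c) (min x c)| ≤ |x|` for `c ≥ 0`,
continuous functions are `AEStronglyMeasurable`). `memLp`: bounded and integrable (interpolation: `‖f‖^p ≤ C^(p-1) ‖f‖`; or
`MemLp.of_bound`-type lemmas, `memLp_one_iff_integrable`, `MemLp.memLp_of_exponent_le_of_...`; the case `p = ∞` is boundedness).
-/

set_option autoImplicit false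

open MeasureTheory Set
open scoped ENNReal NNReal

namespace Pool.Agent.CB

variable {n : ℕ}

theorem Nice.add {f g : V n → ℝ} (hf : Nice f) (hg : Nice g) : Nice fun x => f x + g x := by
  obtain ⟨C, hC⟩ := hf.bdd
  obtain ⟨D, hD⟩ := hg.bdd
  refine ⟨hf.cont.add hg.cont, ⟨C + D, fun x => ?_⟩, hf.int.add hg.int⟩
  exact (abs_add_le _ _).trans (add_le_add (hC x) (hD x))

theorem Nice.sub {f g : V n → ℝ} (hf : Nice f) (hg : Nice g) : Nice fun x => f x - g x := by
  obtain ⟨C, hC⟩ := hf.bdd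
  obtain ⟨D, hD⟩ := hg.bdd
  refine ⟨hf.cont.sub hg.cont, ⟨C + D, fun x => ?_⟩, hf.int.sub hg.int⟩
  exact (abs_sub _ _).trans (add_le_add (hC x) (hD x))

theorem Nice.const_mul {f : V n → ℝ} (hf : Nice f) (c : ℝ) : Nice fun x => c * f x := by
  obtain ⟨C, hC⟩ := hf.bdd
  refine ⟨continuous_const.mul hf.cont, ⟨|c| * C, fun x => ?_⟩, hf.int.const_mul c⟩
  rw [abs_mul]
  exact mul_le_mul_of_nonneg_left (hC x) (abs_nonneg _)

/-- Functions dominated by a nice function. -/
private theorem nice_of_le {f g : V n → ℝ} (hf : Nice f) (hg : Continuous g)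
    (h : ∀ x, |g x| ≤ |f x|) : Nice g := by
  obtain ⟨C, hC⟩ := hf.bdd
  refine ⟨hg, ⟨C, fun x => (h x).trans (hC x)⟩, ?_⟩
  refine hf.int.mono hg.aestronglyMeasurable (Filter.Eventually.of_forall fun x => ?_)
  simpa [Real.norm_eq_abs] using h x

theorem Nice.abs {f : V n → ℝ} (hf : Nice f) : Nice fun x => |f x| :=
  nice_of_le hf hf.cont.abs fun x => by rw [abs_abs]

/-- Continuous truncation. -/
theorem Nice.clamp {f : V n → ℝ} (hf : Nice f) {c : ℝ} (hc : 0 ≤ c) :
    Nice fun x => max (-c) (min (f x) c) := by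
  refine nice_of_le hf (continuous_const.max (hf.cont.min continuous_const)) fun x => ?_
  rw [abs_le]
  constructor
  · apply le_max_of_le_right
    apply le_min (neg_abs_le _)
    linarith [abs_nonneg (f x)]
  · apply max_le
    · linarith [abs_nonneg (f x)]
    · exact (min_le_left _ _).trans (le_abs_self _)

theorem Nice.neg {f : V n → ℝ} (hf : Nice f) : Nice fun x => -f x :=
  nice_of_le hf hf.cont.neg fun x => by rw [abs_neg]

theorem Nice.posPart {f : V n → ℝ} (hf : Nice f) : Nice fun x => max (f x) 0 := by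
  refine nice_of_le hf (hf.cont.max continuous_const) fun x => ?_
  rw [abs_of_nonneg (le_max_right _ _)]
  exact max_le (le_abs_self _) (abs_nonneg _)

theorem Nice.of_continuous {f : V n → ℝ} (hf : Continuous f) (hc : HasCompactSupport f) :
    Nice f := by
  obtain ⟨C, hC⟩ := hf.bounded_above_of_compact_support hc
  exact ⟨hf, ⟨C, fun x => by simpa [Real.norm_eq_abs] using hC x⟩,
    hf.integrable_of_hasCompactSupport hc⟩

theorem Nice.lintegral_rpow_lt_top {f : V n → ℝ} (hf : Nice f) {p : ℝ} (hp : 1 ≤ p) :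
    ∫⁻ x, ‖f x‖ₑ ^ p < ∞ := by
  obtain ⟨C, hC⟩ := hf.bdd
  have hC' : ∀ x, ‖f x‖ₑ ≤ ENNReal.ofReal C := fun x => by
    rw [← ofReal_norm]
    exact ENNReal.ofReal_le_ofReal (by simpa [Real.norm_eq_abs] using hC x)
  have h1 : ∫⁻ x, ‖f x‖ₑ ^ p ≤ ∫⁻ x, ENNReal.ofReal C ^ (p - 1) * ‖f x‖ₑ := by
    apply lintegral_mono
    intro x
    have h2 : ‖f x‖ₑ ^ p = ‖f x‖ₑ ^ (p - 1) * ‖f x‖ₑ := by
      conv_lhs => rw [show p = (p - 1) + 1 by ring]
      rw [ENNReal.rpow_add_of_nonneg _ _ (by linarith) zero_le_one, ENNReal.rpow_one]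
    show ‖f x‖ₑ ^ p ≤ ENNReal.ofReal C ^ (p - 1) * ‖f x‖ₑ
    rw [h2]
    exact mul_le_mul' (ENNReal.rpow_le_rpow (hC' x) (by linarith)) le_rfl
  refine h1.trans_lt ?_
  rw [lintegral_const_mul' _ _ (ENNReal.rpow_ne_top_of_nonneg (by linarith) ENNReal.ofReal_ne_top)]
  exact ENNReal.mul_lt_top
    (ENNReal.rpow_ne_top_of_nonneg (by linarith) ENNReal.ofReal_ne_top).lt_top hf.int.2

theorem Nice.memLp {f : V n → ℝ} (hf : Nice f) {p : ℝ≥0∞} (hp : 1 ≤ p) : MemLp f p volume := by
  by_cases hpt : p = ∞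
  · obtain ⟨C, hC⟩ := hf.bdd
    rw [hpt]
    exact memLp_top_of_bound hf.cont.aestronglyMeasurable C
      (Filter.Eventually.of_forall fun x => by simpa [Real.norm_eq_abs] using hC x)
  · have hp0 : p ≠ 0 := (lt_of_lt_of_le zero_lt_one hp).ne'
    refine ⟨hf.cont.aestronglyMeasurable, ?_⟩
    rw [eLpNorm_lt_top_iff_lintegral_rpow_enorm_lt_top hp0 hpt]
    apply hf.lintegral_rpow_lt_top
    have := ENNReal.toReal_mono hpt hp
    simpa using this

end Pool.Agent.CB
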