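import Pool.Agent.CB.CDefs

/-!
# Project CB, second part: bodies with orbits (definitions)

`Rad2 k σ`: measures on `V (k+1) × ℝ`, log-concave, invariant under rotations of the first
factor, normalised. `RD2`: densities. `Mix2`: mixtures of balls in the first factor.
`OrbE k μ`: every linear functional of variance one is, up to a part `ζ` of variance at most
one, a multiple of the first of `k+1` functionals which are rotated into each other by symmetries of `μ` fixing `ζ`.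
-/

set_option autoImplicit false

open MeasureTheory Set
open scoped ENNReal NNReal

namespace Pool.Agent.CB

/-- Log-concave measures on `V (k+1) × ℝ`, rotation invariant in the first factor. -/
structure Rad2 (k : ℕ) (σ : Measure (V (k + 1) × ℝ)) : Prop where
  prob : IsProbabilityMeasure σ
  lc : LC σ
  symm : σ.map (fun z => -z) = σ
  inv : ∀ O : V (k + 1) ≃ₗᵢ[ℝ] V (k + 1), σ.map (fun z => (O z.1, z.2)) = σ
  mom : ∫⁻ z, ‖z.1‖ₑ ^ (2 : ℝ) ∂σ = (k : ℝ≥0∞) + 1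
  mom2 : ∫⁻ z, ‖z.2‖ₑ ^ (2 : ℝ) ∂σ ≤ 1

/-- Densities on `V (k+1) × ℝ`; `Cm` bounds the moments. -/
structure RD2 (k : ℕ) (Cm : ℕ → ℝ≥0) (G : V (k + 1) × ℝ → ℝ) : Prop where
  meas : Measurable G
  nonneg : ∀ z, 0 ≤ G z
  rad : ∀ v w c, ‖v‖ = ‖w‖ → G (v, c) = G (w, c)
  mid : ∀ v w c, G (v, c) * G (w, c) ≤ G ((1 / 2 : ℝ) • (v + w), c) ^ 2
  mass : ∫⁻ z, ENNReal.ofReal (G z) = 1
  marg : ∃ G1 : V (k + 1) → ℝ, RD (k + 1) G1 ∧
    ∀ v, ENNReal.ofReal (G1 v) = ∫⁻ c, ENNReal.ofReal (G (v, c))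
  momv : ∀ M : ℕ, ∫⁻ z, ‖z.1‖ₑ ^ M * ENNReal.ofReal (G z) ≤ Cm M
  momc : ∀ M : ℕ, ∫⁻ z, ‖z.2‖ₑ ^ M * ENNReal.ofReal (G z) ≤ Cm M

/-- The smoothed density. -/
noncomputable def Gd2 {k : ℕ} (σ : Measure (V (k + 1) × ℝ)) (ε : ℝ) (z : V (k + 1) × ℝ) : ℝ :=
  (σ (Metric.ball z.1 ε ×ˢ Metric.ball z.2 ε)).toReal /
    ((volume (Metric.ball (0 : V (k + 1)) ε)).toReal * (2 * ε))

/-- Mixtures of uniform measures on balls in the first factor. -/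
structure Mix2 {k : ℕ} (G : V (k + 1) × ℝ → ℝ) (τ : Measure (ℝ × ℝ)) : Prop where
  prob : IsProbabilityMeasure τ
  pos : τ {z | z.1 ≤ 0} = 0
  eq : ∀ F : V (k + 1) × ℝ → ℝ≥0∞, Measurable F →
    ∫⁻ z, F z * ENNReal.ofReal (G z) = ∫⁻ z, ∫⁻ u, F (z.1 • u, z.2) ∂(Ub (k + 1)) ∂τ

/-- The projection given by functionals. -/
noncomputable def Pv {E : Type} [AddCommGroup E] [Module ℝ E] {k : ℕ}
    (v : Fin (k + 1) → E →ₗ[ℝ] ℝ) (ζ : E →ₗ[ℝ] ℝ) (y : E) : V (k + 1) × ℝ :=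
  (WithLp.toLp 2 fun i => v i y, ζ y)

/-- The data for one functional `f`. -/
structure OrbD {E : Type} [AddCommGroup E] [Module ℝ E] [MeasurableSpace E] (k : ℕ)
    (μ : Measure E) (f : E →ₗ[ℝ] ℝ) (κ : ℝ) (v : Fin (k + 1) → E →ₗ[ℝ] ℝ) (ζ : E →ₗ[ℝ] ℝ) :
    Prop where
  k0 : 1 / 2 ≤ κ
  k1 : κ ≤ 1
  split : ∀ y, f y = κ * v 0 y + ζ y
  var : ∫ y, v 0 y ^ 2 ∂μ = 1
  var2 : ∫ y, ζ y ^ 2 ∂μ ≤ 1
  rot : ∀ a : V (k + 1), ‖a‖ = 1 → ∃ g : E →ₗ[ℝ] E, μ.map g = μ ∧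
    (∀ y, ∑ i, a i * v i y = v 0 (g y)) ∧ ∀ y, ζ (g y) = ζ y

/-- Every functional of variance one has such data. -/
def OrbE {E : Type} [AddCommGroup E] [Module ℝ E] [MeasurableSpace E] (k : ℕ)
    (μ : Measure E) : Prop :=
  ∀ f : E →ₗ[ℝ] ℝ, ∫ y, f y ^ 2 ∂μ = 1 → ∃ κ v ζ, OrbD k μ f κ v ζ

end Pool.Agent.CB
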