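import Pool.Agent.CB.Cv

/-!
# CB-PathA: the path space of a random walk started from Lebesgue measure

`Om n J = V n × (Fin J → V n)` with measure `volume × ∏ ρ i`; `Yp k ω = ω.1 + ∑_{i < k} ω.2 i`.

* `lintegral_resample`: resampling one coordinate does not change the integral. Tonelli in the first
  coordinate (`lintegral_prod`), then for `Measure.pi` of probability measures: `lintegral` over
  `Measure.pi` is the `lmarginal` over `univ`; `∫⋯∫⁻_univ = ∫⋯∫⁻_{univ \\ k} ∫⋯∫⁻_{k}`
  (`lmarginal_union`, `lmarginal_singleton`), and `lmarginal` over `{k}` of a function not depending on the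
  coordinate `k` is the function itself (probability measure). Or: `measurePreserving_piFinSuccAbove`,
  or map-free: `MeasureTheory.Measure.pi` is the image of `(pi) × ρ k` under `(w, v) ↦ update w k v`
  (`Measure.pi_eq`).
* `lintegral_Yp`: for fixed `ω.2` translation invariance of the volume.
* `mart`: resample the coordinate `k`: `H` and `Yp k` do not change, and
  `Yp (k+1) (ω.1, update ω.2 k v) = Yp k ω + v`; `∫⁻ ofReal (g (x + v)) dρ = ofReal (cv ρ g x)`
  (`ofReal_integral_eq_lintegral_ofReal`, `cv_integrable`).
-/

set_option autoImplicit false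

open MeasureTheory Set
open scoped ENNReal NNReal

namespace Pool.Agent.CB

/-- Path space. -/
abbrev Om (n J : ℕ) : Type := V n × (Fin J → V n)

/-- The measure on path space. -/
noncomputable def om {n : ℕ} (J : ℕ) (ρ : ℕ → Measure (V n)) : Measure (Om n J) :=
  (volume : Measure (V n)).prod (Measure.pi fun i : Fin J => ρ i)

/-- Position after `k` steps. -/
noncomputable def Yp {n J : ℕ} (k : ℕ) (ω : Om n J) : V n :=
  ω.1 + ∑ i : Fin J, if (i : ℕ) < k then ω.2 i else 0

/-- `H` depends only on the starting point and on the first `k` steps. -/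
def Past {n J : ℕ} {α : Type} (k : ℕ) (H : Om n J → α) : Prop :=
  ∀ ω ω' : Om n J, ω.1 = ω'.1 → (∀ i : Fin J, (i : ℕ) < k → ω.2 i = ω'.2 i) → H ω = H ω'

variable {n J : ℕ}

theorem measurable_Yp (k : ℕ) : Measurable (Yp k : Om n J → V n) := by
  unfold Yp
  refine measurable_fst.add (Finset.measurable_fun_sum _ fun i _ => ?_)
  by_cases h : (i : ℕ) < k
  · simp only [if_pos h]
    exact (measurable_pi_apply i).comp measurable_snd
  · simp only [if_neg h]
    exact measurable_const

theorem past_Yp {k l : ℕ} (h : l ≤ k) : Past k (Yp l : Om n J → V n) := by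
  intro ω ω' h1 h2
  unfold Yp
  rw [h1]
  refine congrArg (fun z => ω'.1 + z) (Finset.sum_congr rfl fun i _ => ?_)
  by_cases hi : (i : ℕ) < l
  · rw [if_pos hi, if_pos hi]
    exact h2 i (lt_of_lt_of_le hi h)
  · rw [if_neg hi, if_neg hi]

private theorem map_update {ρ : ℕ → Measure (V n)} (hρ : ∀ i, IsProbabilityMeasure (ρ i))
    (k : Fin J) : Measure.map (fun z : (Fin J → V n) × V n => Function.update z.1 k z.2)
      ((Measure.pi fun i : Fin J => ρ i).prod (ρ k)) = Measure.pi fun i : Fin J => ρ i := by
  have : ∀ i : Fin J, IsProbabilityMeasure ((fun i : Fin J => ρ i) i) := fun i => hρ i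
  have : IsProbabilityMeasure (ρ k) := hρ k
  have hm : Measurable (fun z : (Fin J → V n) × V n => Function.update z.1 k z.2) := by
    rw [measurable_pi_iff]
    intro i
    by_cases h : i = k
    · subst h
      simp only [Function.update_self]
      exact measurable_snd
    · simp only [Function.update_of_ne h]
      exact (measurable_pi_apply i).comp measurable_fst
  symm
  refine Measure.pi_eq fun s hs => ?_
  rw [Measure.map_apply hm (MeasurableSet.univ_pi hs)]
  have e : (fun z : (Fin J → V n) × V n => Function.update z.1 k z.2) ⁻¹' (univ.pi s) =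
      (univ.pi (Function.update s k univ)) ×ˢ s k := by
    ext z
    simp only [mem_preimage, mem_pi, mem_univ, true_imp_iff, mem_prod]
    constructor
    · intro h
      refine ⟨fun i => ?_, ?_⟩
      · by_cases hi : i = k
        · subst hi
          rw [Function.update_self]
          exact mem_univ _
        · have := h i
          rw [Function.update_of_ne hi] at this ⊢
          exact this
      · have := h k
        rwa [Function.update_self] at this
    · rintro ⟨h1, h2⟩ i
      by_cases hi : i = k
      · subst hi
        rw [Function.update_self]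
        exact h2
      · have := h1 i
        rw [Function.update_of_ne hi] at this ⊢
        exact this
  rw [e, Measure.prod_prod, Measure.pi_pi]
  have e2 : (fun i : Fin J => ρ i (Function.update s k univ i)) =
      Function.update (fun i : Fin J => ρ i (s i)) k (ρ k univ) := by
    ext i
    by_cases hi : i = k
    · subst hi
      rw [Function.update_self, Function.update_self]
    · rw [Function.update_of_ne hi, Function.update_of_ne hi]
  rw [show (∏ i : Fin J, ρ i (Function.update s k univ i)) =
    ∏ i : Fin J, Function.update (fun i : Fin J => ρ i (s i)) k (ρ k univ) i from by rw [← e2]]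
  rw [Finset.prod_update_of_mem (Finset.mem_univ k), measure_univ, one_mul, mul_comm]
  exact (Finset.prod_eq_mul_prod_sdiff_singleton_of_mem (Finset.mem_univ k)
    (fun i : Fin J => ρ i (s i))).symm

theorem lintegral_pi_resample {ρ : ℕ → Measure (V n)} (hρ : ∀ i, IsProbabilityMeasure (ρ i))
    (k : Fin J) {G : (Fin J → V n) → ℝ≥0∞} (hG : Measurable G) :
    ∫⁻ w, G w ∂(Measure.pi fun i : Fin J => ρ i) =
      ∫⁻ w, ∫⁻ v, G (Function.update w k v) ∂(ρ k) ∂(Measure.pi fun i : Fin J => ρ i) := by
  have : ∀ i : Fin J, IsProbabilityMeasure ((fun i : Fin J => ρ i) i) := fun i => hρ i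
  have : IsProbabilityMeasure (ρ k) := hρ k
  have hm : Measurable (fun z : (Fin J → V n) × V n => Function.update z.1 k z.2) := by
    rw [measurable_pi_iff]
    intro i
    by_cases h : i = k
    · subst h
      simp only [Function.update_self]
      exact measurable_snd
    · simp only [Function.update_of_ne h]
      exact (measurable_pi_apply i).comp measurable_fst
  conv_lhs => rw [← map_update hρ k]
  rw [lintegral_map hG hm]
  exact lintegral_prod _ (hG.comp hm).aemeasurable

theorem lintegral_resample {ρ : ℕ → Measure (V n)} (hρ : ∀ i, IsProbabilityMeasure (ρ i))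
    (k : Fin J) {G : Om n J → ℝ≥0∞} (hG : Measurable G) :
    ∫⁻ ω, G ω ∂(om J ρ) = ∫⁻ ω, ∫⁻ v, G (ω.1, Function.update ω.2 k v) ∂(ρ k) ∂(om J ρ) := by
  have : ∀ i : Fin J, IsProbabilityMeasure ((fun i : Fin J => ρ i) i) := fun i => hρ i
  have : IsProbabilityMeasure (ρ k) := hρ k
  have hm : Measurable (fun z : Om n J × V n => (z.1.1, Function.update z.1.2 k z.2)) := by
    refine (measurable_fst.comp measurable_fst).prodMk ?_
    rw [measurable_pi_iff]
    intro i
    by_cases h : i = k
    · subst h
      simp only [Function.update_self]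
      exact measurable_snd
    · simp only [Function.update_of_ne h]
      exact (measurable_pi_apply i).comp (measurable_snd.comp measurable_fst)
  unfold om
  have hm2 : Measurable (fun ω : Om n J => ∫⁻ v, G (ω.1, Function.update ω.2 k v) ∂(ρ k)) :=
    Measurable.lintegral_prod_right' (f := fun z : Om n J × V n =>
      G (z.1.1, Function.update z.1.2 k z.2)) (hG.comp hm)
  rw [lintegral_prod _ hG.aemeasurable, lintegral_prod _ hm2.aemeasurable]
  refine lintegral_congr fun x => ?_
  exact lintegral_pi_resample hρ k (G := fun w => G (x, w)) (hG.comp measurable_prodMk_left)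

theorem lintegral_Yp {ρ : ℕ → Measure (V n)} (hρ : ∀ i, IsProbabilityMeasure (ρ i))
    (k : ℕ) {G : V n → ℝ≥0∞} (hG : Measurable G) :
    ∫⁻ ω, G (Yp k ω) ∂(om J ρ) = ∫⁻ x, G x := by
  have : ∀ i : Fin J, IsProbabilityMeasure ((fun i : Fin J => ρ i) i) := fun i => hρ i
  unfold om
  have hm : Measurable (fun ω : Om n J => G (Yp k ω)) := hG.comp (measurable_Yp k)
  rw [lintegral_prod_symm _ hm.aemeasurable]
  have e : ∀ w : Fin J → V n, ∫⁻ x, G (Yp k ((x, w) : Om n J)) = ∫⁻ x, G x := by
    intro w
    unfold Yp
    exact lintegral_add_right_eq_self (μ := (volume : Measure (V n))) G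
      (∑ i : Fin J, if (i : ℕ) < k then w i else 0)
  rw [lintegral_congr e, lintegral_const, measure_univ, mul_one]

theorem mart {ρ : ℕ → Measure (V n)} (hρ : ∀ i, IsProbabilityMeasure (ρ i)) {k : ℕ} (hk : k < J)
    {H : Om n J → ℝ≥0∞} (hH : Measurable H) (hp : Past k H) {g : V n → ℝ} (hg : Nice g)
    (g0 : ∀ x, 0 ≤ g x) :
    ∫⁻ ω, H ω * ENNReal.ofReal (g (Yp (k + 1) ω)) ∂(om J ρ) =
      ∫⁻ ω, H ω * ENNReal.ofReal (cv (ρ k) g (Yp k ω)) ∂(om J ρ) := by
  have : IsProbabilityMeasure (ρ k) := hρ k
  set kk : Fin J := ⟨k, hk⟩ with hkk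
  have hm : Measurable (fun ω : Om n J => H ω * ENNReal.ofReal (g (Yp (k + 1) ω))) :=
    hH.mul (ENNReal.measurable_ofReal.comp (hg.cont.measurable.comp (measurable_Yp (k + 1))))
  rw [lintegral_resample hρ kk hm]
  refine lintegral_congr fun ω => ?_
  have e1 : ∀ v : V n, H (ω.1, Function.update ω.2 kk v) = H ω := by
    intro v
    refine hp _ _ rfl fun i hi => ?_
    have hne : i ≠ kk := by
      intro h
      rw [h] at hi
      exact lt_irrefl k hi
    exact Function.update_of_ne hne _ _
  have e2 : ∀ v : V n, Yp (k + 1) ((ω.1, Function.update ω.2 kk v) : Om n J) = Yp k ω + v := by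
    intro v
    unfold Yp
    dsimp only
    rw [add_assoc]
    refine congrArg (fun z => ω.1 + z) ?_
    have e3 : ∀ i : Fin J, (if (i : ℕ) < k + 1 then Function.update ω.2 kk v i else 0) =
        (if (i : ℕ) < k then ω.2 i else 0) + (if i = kk then v else 0) := by
      intro i
      by_cases hi : i = kk
      · subst hi
        rw [if_pos (Nat.lt_succ_self k), Function.update_self, if_neg (lt_irrefl k), if_pos rfl,
          zero_add]
      · have hne : (i : ℕ) ≠ k := fun h => hi (Fin.ext h)
        rw [if_neg hi, add_zero, Function.update_of_ne hi]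
        by_cases h : (i : ℕ) < k
        · rw [if_pos h, if_pos (by omega)]
        · rw [if_neg h, if_neg (by omega)]
    rw [Finset.sum_congr rfl fun i _ => e3 i, Finset.sum_add_distrib, Finset.sum_ite_eq',
      if_pos (Finset.mem_univ kk)]
  have e4 : ∀ v : V n, H (ω.1, Function.update ω.2 kk v) *
      ENNReal.ofReal (g (Yp (k + 1) ((ω.1, Function.update ω.2 kk v) : Om n J))) =
      H ω * ENNReal.ofReal (g (Yp k ω + v)) := by
    intro v
    rw [e1, e2]
  refine (lintegral_congr e4).trans ?_
  have hm2 : Measurable (fun v : V n => ENNReal.ofReal (g (Yp k ω + v))) :=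
    ENNReal.measurable_ofReal.comp (hg.cont.measurable.comp (measurable_const.add measurable_id))
  rw [lintegral_const_mul _ hm2]
  refine congrArg (fun z => H ω * z) ?_
  unfold cv
  exact (ofReal_integral_eq_lintegral_ofReal (cv_integrable hg (Yp k ω))
    (Filter.Eventually.of_forall fun y => g0 _)).symm

end Pool.Agent.CB
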