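import Mathlib

/-!
# CB-PathIneq: two pathwise inequalities for nonnegative martingales

`doob_path`: by summation by parts the claim is
`(p-1)/p (m J)^p ≤ m 0 ^ (p-1) * s 0 + ∑_{k<J} (m (k+1)^(p-1) - m k^(p-1)) * s (k+1)` (induction on `J`);
where `m (k+1) ≠ m k` one has `s (k+1) = m (k+1)`, so the term is
`(m (k+1)^(p-1) - m k^(p-1)) * m (k+1) ≥ (p-1)/p (m (k+1)^p - m k^p)` by Young's inequality
`m k ^ (p-1) * m (k+1) ≤ (p-1)/p * m k^p + 1/p * m (k+1)^p` (`Real.young_inequality_of_nonneg` or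
`Real.inner_le_nnorm_mul_nnorm`... any form); telescoping. (Direct induction on `J` works too.)

`sq_path`: with `M = max a b > 0`, the function `t ↦ t^p - (p(p-1)/2) M^(p-2) t^2` is convex on `[0, M]`
(its derivative `p t^(p-1) - p (p-1) M^(p-2) t` is monotone on `(0, M)`, because the second derivative is
`p (p-1) (t^(p-2) - M^(p-2)) ≥ 0`, or because ...), so it lies above its tangent at `a`
(the cases `a = 0`, `b = 0` are elementary: `p(p-1)/2 ≤ 1` and `p(p-1)/2 ≤ p - 1`).
-/

set_option autoImplicit false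

open Finset

namespace Pool.Agent.CB

private theorem young_pow {p x y : ℝ} (hp : 1 < p) (hx : 0 ≤ x) (hy : 0 ≤ y) :
    x ^ (p - 1) * y ≤ (p - 1) / p * x ^ p + 1 / p * y ^ p := by
  have hp0 : 0 < p := by linarith
  have h := Real.geom_mean_le_arith_mean2_weighted (w₁ := (p - 1) / p) (w₂ := 1 / p)
    (p₁ := x ^ p) (p₂ := y ^ p) (div_nonneg (by linarith) hp0.le) (by positivity)
    (Real.rpow_nonneg hx p) (Real.rpow_nonneg hy p) (by field_simp; ring)
  rw [← Real.rpow_mul hx, ← Real.rpow_mul hy, mul_div_cancel₀ _ hp0.ne',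
    mul_one_div_cancel hp0.ne', Real.rpow_one] at h
  exact h

theorem doob_path {p : ℝ} (hp : 1 < p) (s m : ℕ → ℝ) (hs : ∀ k, 0 ≤ s k) (h0 : m 0 = s 0)
    (hm : ∀ k, m (k + 1) = max (m k) (s (k + 1))) (J : ℕ) :
    (p - 1) / p * m J ^ p + ∑ k ∈ range J, m k ^ (p - 1) * s (k + 1) ≤
      m J ^ (p - 1) * s J + ∑ k ∈ range J, m k ^ (p - 1) * s k := by
  have hp0 : 0 < p := by linarith
  have hm0 : ∀ k, 0 ≤ m k := by
    intro k
    cases k with
    | zero => rw [h0]; exact hs 0
    | succ k => rw [hm k]; exact (hs (k + 1)).trans (le_max_right _ _)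
  have hpow : ∀ x : ℝ, 0 ≤ x → x ^ (p - 1) * x = x ^ p := by
    intro x hx
    rcases hx.eq_or_lt with h | h
    · rw [← h, mul_zero, Real.zero_rpow hp0.ne']
    · rw [Real.rpow_sub_one h.ne', div_mul_cancel₀ _ h.ne']
  induction J with
  | zero =>
    simp only [Finset.range_zero, Finset.sum_empty, add_zero]
    rw [← h0, hpow _ (hm0 0)]
    have h1 : (p - 1) / p ≤ 1 := by
      rw [div_le_one hp0]
      linarith
    exact mul_le_of_le_one_left (Real.rpow_nonneg (hm0 0) p) h1
  | succ J ih =>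
    rw [Finset.sum_range_succ, Finset.sum_range_succ]
    have key : (p - 1) / p * (m (J + 1) ^ p - m J ^ p) + m J ^ (p - 1) * s (J + 1) ≤
        m (J + 1) ^ (p - 1) * s (J + 1) := by
      rcases le_total (s (J + 1)) (m J) with h | h
      · have h1 : m (J + 1) = m J := by rw [hm J, max_eq_left h]
        rw [h1, sub_self, mul_zero, zero_add]
      · have h1 : m (J + 1) = s (J + 1) := by rw [hm J, max_eq_right h]
        rw [h1, hpow _ (hs (J + 1))]
        have h2 := young_pow hp (hm0 J) (hs (J + 1))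
        have h3 : (1 : ℝ) / p = 1 - (p - 1) / p := by field_simp; ring
        rw [h3] at h2
        linarith
    have e : (p - 1) / p * (m (J + 1) ^ p - m J ^ p) =
        (p - 1) / p * m (J + 1) ^ p - (p - 1) / p * m J ^ p := by ring
    rw [e] at key
    linarith

theorem sq_path {p a b : ℝ} (h1 : 1 < p) (h2 : p ≤ 2) (ha : 0 ≤ a) (hb : 0 ≤ b) :
    p * (p - 1) / 2 * ((b - a) ^ 2 * max a b ^ (p - 2)) + a ^ p + p * (a ^ (p - 1) * b) ≤
      b ^ p + p * a ^ p := by
  have hp0 : 0 < p := by linarith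
  have hp1 : p - 1 ≠ 0 := by linarith
  have hsq : ∀ x : ℝ, 0 < x → x ^ 2 * x ^ (p - 2) = x ^ p := by
    intro x hx
    rw [← Real.rpow_natCast x 2, ← Real.rpow_add hx]
    congr 1
    norm_num
  rcases ha.eq_or_lt with h | ha'
  · subst h
    rw [Real.zero_rpow hp0.ne', Real.zero_rpow hp1, zero_mul, mul_zero, add_zero,
      add_zero, add_zero, sub_zero]
    rcases hb.eq_or_lt with h' | hb'
    · subst h'
      rw [Real.zero_rpow hp0.ne']
      norm_num
    · rw [max_eq_right hb, hsq b hb']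
      refine mul_le_of_le_one_left (Real.rpow_nonneg hb p) ?_
      nlinarith
  rcases hb.eq_or_lt with h | hb'
  · subst h
    rw [Real.zero_rpow hp0.ne', max_eq_left ha, mul_zero, mul_zero, add_zero, zero_add, zero_sub,
      neg_sq, hsq a ha']
    have hap : 0 ≤ a ^ p := Real.rpow_nonneg ha p
    have h3 : p * (p - 1) / 2 ≤ p - 1 := by nlinarith
    nlinarith
  set M := max a b with hM
  have hM0 : 0 < M := lt_max_of_lt_left ha'
  set c : ℝ := p * (p - 1) / 2 * M ^ (p - 2) with hc
  have hconv : ConvexOn ℝ (Set.Icc 0 M) (fun t : ℝ => t ^ p - c * t ^ 2) := by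
    refine convexOn_of_hasDerivWithinAt2_nonneg (convex_Icc 0 M)
      (f' := fun t => p * t ^ (p - 1) - c * (2 * t))
      (f'' := fun t => p * ((p - 1) * t ^ (p - 2)) - c * 2) ?_ ?_ ?_ ?_
    · refine ContinuousOn.sub ?_ (by fun_prop)
      exact (Real.continuous_rpow_const hp0.le).continuousOn
    · intro x hx
      rw [interior_Icc] at hx
      have e1 : HasDerivAt (fun t : ℝ => t ^ p) (p * x ^ (p - 1)) x :=
        Real.hasDerivAt_rpow_const (Or.inl hx.1.ne')
      have e2 : HasDerivAt (fun t : ℝ => c * t ^ 2) (c * (2 * x)) x := by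
        have := (hasDerivAt_pow 2 x).const_mul c
        simpa using this
      exact (e1.sub e2).hasDerivWithinAt
    · intro x hx
      rw [interior_Icc] at hx
      have e1 : HasDerivAt (fun t : ℝ => p * t ^ (p - 1)) (p * ((p - 1) * x ^ (p - 2))) x := by
        have h3 : HasDerivAt (fun t : ℝ => t ^ (p - 1)) ((p - 1) * x ^ (p - 1 - 1)) x :=
          Real.hasDerivAt_rpow_const (Or.inl hx.1.ne')
        have h4 : p - 1 - 1 = p - 2 := by ring
        rw [h4] at h3
        exact h3.const_mul p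
      have e2 : HasDerivAt (fun t : ℝ => c * (2 * t)) (c * 2) x := by
        have := ((hasDerivAt_id x).const_mul (2 : ℝ)).const_mul c
        simpa using this
      exact (e1.sub e2).hasDerivWithinAt
    · intro x hx
      rw [interior_Icc] at hx
      have h3 : M ^ (p - 2) ≤ x ^ (p - 2) :=
        Real.rpow_le_rpow_of_nonpos hx.1 hx.2.le (by linarith)
      have h4 : p * ((p - 1) * x ^ (p - 2)) - c * 2 =
          p * (p - 1) * (x ^ (p - 2) - M ^ (p - 2)) := by
        rw [hc]; ring
      rw [h4]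
      exact mul_nonneg (mul_nonneg hp0.le (by linarith)) (sub_nonneg.2 h3)
  have haM : a ∈ Set.Icc 0 M := ⟨ha, le_max_left _ _⟩
  have hbM : b ∈ Set.Icc 0 M := ⟨hb, le_max_right _ _⟩
  have hda : HasDerivAt (fun t : ℝ => t ^ p - c * t ^ 2) (p * a ^ (p - 1) - c * (2 * a)) a := by
    have e1 : HasDerivAt (fun t : ℝ => t ^ p) (p * a ^ (p - 1)) a :=
      Real.hasDerivAt_rpow_const (Or.inl ha'.ne')
    have e2 : HasDerivAt (fun t : ℝ => c * t ^ 2) (c * (2 * a)) a := by
      have := (hasDerivAt_pow 2 a).const_mul c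
      simpa using this
    exact e1.sub e2
  have hapow : a ^ (p - 1) * a = a ^ p := by
    rw [Real.rpow_sub_one ha'.ne', div_mul_cancel₀ _ ha'.ne']
  have key : (p * a ^ (p - 1) - c * (2 * a)) * (b - a) ≤
      (b ^ p - c * b ^ 2) - (a ^ p - c * a ^ 2) := by
    rcases lt_trichotomy a b with h | h | h
    · have h3 := hconv.le_slope_of_hasDerivAt haM hbM h hda
      rw [slope_def_field, le_div_iff₀ (sub_pos.2 h)] at h3
      exact h3
    · rw [h]; simp
    · have h3 := hconv.slope_le_of_hasDerivAt hbM haM h hda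
      rw [slope_def_field, div_le_iff₀ (sub_pos.2 h)] at h3
      nlinarith
  have e3 : p * (p - 1) / 2 * ((b - a) ^ 2 * M ^ (p - 2)) = c * (b - a) ^ 2 := by
    rw [hc]; ring
  have e4 : p * a ^ (p - 1) * (b - a) = p * (a ^ (p - 1) * b) - p * a ^ p := by
    rw [← hapow]; ring
  rw [e3]
  nlinarith [key, e4]

end Pool.Agent.CB
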