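import Pool.Agent.CB.PathA
import Pool.Agent.CB.PathIneq

/-!
# CB-PathC: Doob's maximal inequality on the path space

Let `s k ω = g k (Yp k ω) ≥ 0`, `m k = max_{i ≤ k} s i` (so `Ms g J ω = ofReal (m J ω)`). Integrate
`doob_path` (all terms as `ENNReal.ofReal`, all integrals finite: `m J ^ p ≤ ∑_k s k ^ p`, `lintegral_Yp`,
`Nice.lintegral_rpow_lt_top`, Hölder/Young for the products). For `k < J`
`∫⁻ ofReal (m k ^ (p-1)) * ofReal (s (k+1)) = ∫⁻ ofReal (m k ^ (p-1)) * ofReal (s k)` by `mart` and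
`hg.step`, so the sums cancel (`ENNReal.add_le_add_iff_right` with finiteness):
`(p-1)/p ∫ m_J^p ≤ ∫ m_J^(p-1) s_J ≤ (∫ m_J^p)^((p-1)/p) (∫ s_J^p)^(1/p)` (Hölder), divide.
-/

set_option autoImplicit false

open MeasureTheory Set
open scoped ENNReal NNReal

namespace Pool.Agent.CB

/-- Backward averages. -/
structure Mg {n : ℕ} (J : ℕ) (ρ : ℕ → Measure (V n)) (g : ℕ → V n → ℝ) : Prop where
  prob : ∀ i, IsProbabilityMeasure (ρ i)
  nice : ∀ k, Nice (g k)
  nonneg : ∀ k x, 0 ≤ g k x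
  step : ∀ k, k < J → g k = cv (ρ k) (g (k + 1))

/-- The maximal function of the martingale. -/
noncomputable def Ms {n : ℕ} (J : ℕ) (g : ℕ → V n → ℝ) (ω : Om n J) : ℝ≥0∞ :=
  (Finset.range (J + 1)).sup fun k => ENNReal.ofReal (g k (Yp k ω))

variable {n J : ℕ}

private theorem meas_sup {g : ℕ → V n → ℝ} (hg : ∀ k, Nice (g k)) (t : Finset ℕ) :
    Measurable (fun ω : Om n J => t.sup fun k => ENNReal.ofReal (g k (Yp k ω))) := by
  classical
  induction t using Finset.induction_on with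
  | empty =>
    have e : (fun ω : Om n J => (∅ : Finset ℕ).sup fun k => ENNReal.ofReal (g k (Yp k ω))) =
        fun _ => ⊥ := by
      funext ω
      exact Finset.sup_empty
    rw [e]
    exact measurable_const
  | insert a s ha ih =>
    have e : (fun ω : Om n J => (insert a s).sup fun k => ENNReal.ofReal (g k (Yp k ω))) =
        fun ω => (ENNReal.ofReal (g a (Yp a ω))) ⊔
          (s.sup fun k => ENNReal.ofReal (g k (Yp k ω))) := by
      funext ω
      exact Finset.sup_insert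
    rw [e]
    exact Measurable.sup (((hg a).cont.measurable.comp (measurable_Yp a)).ennreal_ofReal) ih

theorem measurable_Ms {g : ℕ → V n → ℝ} (hg : ∀ k, Nice (g k)) :
    Measurable (Ms J g : Om n J → ℝ≥0∞) := meas_sup hg (Finset.range (J + 1))

/-- running maximum -/
private noncomputable def mm (g : ℕ → V n → ℝ) (ω : Om n J) : ℕ → ℝ
  | 0 => g 0 (Yp 0 ω)
  | k + 1 => max (mm g ω k) (g (k + 1) (Yp (k + 1) ω))

private theorem mm_zero (g : ℕ → V n → ℝ) (ω : Om n J) : mm g ω 0 = g 0 (Yp 0 ω) := rfl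

private theorem mm_succ (g : ℕ → V n → ℝ) (ω : Om n J) (k : ℕ) :
    mm g ω (k + 1) = max (mm g ω k) (g (k + 1) (Yp (k + 1) ω)) := rfl

private theorem le_mm (g : ℕ → V n → ℝ) (ω : Om n J) (k : ℕ) : g k (Yp k ω) ≤ mm g ω k := by
  cases k with
  | zero => exact le_rfl
  | succ k => exact le_max_right _ _

private theorem mm_nonneg {g : ℕ → V n → ℝ} (h0 : ∀ k x, 0 ≤ g k x) (ω : Om n J) (k : ℕ) :
    0 ≤ mm g ω k := (h0 k _).trans (le_mm g ω k)

private theorem mm_meas {g : ℕ → V n → ℝ} (hg : ∀ k, Nice (g k)) (k : ℕ) :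
    Measurable (fun ω : Om n J => mm g ω k) := by
  induction k with
  | zero => exact (hg 0).cont.measurable.comp (measurable_Yp 0)
  | succ k ih =>
    exact Measurable.max ih ((hg (k + 1)).cont.measurable.comp (measurable_Yp (k + 1)))

private theorem mm_past (g : ℕ → V n → ℝ) (k : ℕ) :
    Past k (fun ω : Om n J => mm g ω k) := by
  induction k with
  | zero =>
    intro ω ω' h1 h2
    have e : Yp 0 ω = Yp 0 ω' := past_Yp le_rfl ω ω' h1 h2
    show g 0 (Yp 0 ω) = g 0 (Yp 0 ω')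
    rw [e]
  | succ k ih =>
    intro ω ω' h1 h2
    have e1 : mm g ω k = mm g ω' k := ih ω ω' h1 (fun i hi => h2 i (by omega))
    have e2 : Yp (k + 1) ω = Yp (k + 1) ω' := past_Yp le_rfl ω ω' h1 h2
    show max (mm g ω k) (g (k + 1) (Yp (k + 1) ω)) = max (mm g ω' k) (g (k + 1) (Yp (k + 1) ω'))
    rw [e1, e2]

private theorem sup_eq_mm (g : ℕ → V n → ℝ) (ω : Om n J) (k : ℕ) :
    ((Finset.range (k + 1)).sup fun i => ENNReal.ofReal (g i (Yp i ω))) =
      ENNReal.ofReal (mm g ω k) := by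
  induction k with
  | zero =>
    rw [zero_add, Finset.range_one, Finset.sup_singleton, mm_zero]
  | succ k ih =>
    rw [Finset.range_add_one, Finset.sup_insert, ih, mm_succ, ENNReal.ofReal_max, max_comm]

/-- finiteness of the moments of the running maximum -/
private theorem mm_fin {ρ : ℕ → Measure (V n)} {g : ℕ → V n → ℝ} (h : Mg J ρ g) {p : ℝ}
    (hp : 1 < p) (k : ℕ) :
    ∫⁻ ω : Om n J, ENNReal.ofReal (mm g ω k) ^ p ∂(om J ρ) < ∞ := by
  have hs : ∀ i, ∫⁻ ω : Om n J, ENNReal.ofReal (g i (Yp i ω)) ^ p ∂(om J ρ) < ∞ := by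
    intro i
    have e := lintegral_Yp (J := J) h.prob i
      (G := fun x => ENNReal.ofReal (g i x) ^ p)
      (((h.nice i).cont.measurable.ennreal_ofReal).pow_const p)
    rw [e]
    have e2 : ∀ x, ENNReal.ofReal (g i x) ^ p = ‖g i x‖ₑ ^ p := by
      intro x
      rw [Real.enorm_eq_ofReal (h.nonneg i x)]
    rw [lintegral_congr e2]
    exact (h.nice i).lintegral_rpow_lt_top hp.le
  induction k with
  | zero => exact hs 0
  | succ k ih =>
    have hle : ∀ ω : Om n J, ENNReal.ofReal (mm g ω (k + 1)) ^ p ≤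
        ENNReal.ofReal (mm g ω k) ^ p + ENNReal.ofReal (g (k + 1) (Yp (k + 1) ω)) ^ p := by
      intro ω
      rw [mm_succ, ENNReal.ofReal_max]
      rcases le_total (ENNReal.ofReal (mm g ω k)) (ENNReal.ofReal (g (k + 1) (Yp (k + 1) ω)))
        with h1 | h1
      · rw [max_eq_right h1]
        exact le_add_self
      · rw [max_eq_left h1]
        exact le_self_add
    refine lt_of_le_of_lt (lintegral_mono hle) ?_
    rw [lintegral_add_left (((mm_meas h.nice k).ennreal_ofReal).pow_const p)]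
    exact ENNReal.add_lt_top.mpr ⟨ih, hs (k + 1)⟩

theorem doob {ρ : ℕ → Measure (V n)} {g : ℕ → V n → ℝ} (h : Mg J ρ g) {p : ℝ} (hp : 1 < p) :
    ∫⁻ ω, Ms J g ω ^ p ∂(om J ρ) ≤
      ENNReal.ofReal ((p / (p - 1)) ^ p) * ∫⁻ x, ENNReal.ofReal (g J x) ^ p := by
  have hp0 : 0 < p := lt_trans one_pos hp
  have hp1 : 0 < p - 1 := sub_pos.mpr hp
  have hc0 : 0 < (p - 1) / p := div_pos hp1 hp0
  have hMs : ∀ ω : Om n J, Ms J g ω ^ p = ENNReal.ofReal (mm g ω J) ^ p := by
    intro ω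
    rw [← sup_eq_mm g ω J]
    rfl
  rw [lintegral_congr hMs]
  have hmeasm : ∀ k, Measurable (fun ω : Om n J => ENNReal.ofReal (mm g ω k)) :=
    fun k => (mm_meas h.nice k).ennreal_ofReal
  have hmeass : ∀ k, Measurable (fun ω : Om n J => ENNReal.ofReal (g k (Yp k ω))) :=
    fun k => ((h.nice k).cont.measurable.comp (measurable_Yp k)).ennreal_ofReal
  -- pointwise inequality
  have hpt : ∀ ω : Om n J,
      ENNReal.ofReal ((p - 1) / p) * ENNReal.ofReal (mm g ω J) ^ p +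
        ∑ k ∈ Finset.range J, ENNReal.ofReal (mm g ω k) ^ (p - 1) *
          ENNReal.ofReal (g (k + 1) (Yp (k + 1) ω)) ≤
      ENNReal.ofReal (mm g ω J) ^ (p - 1) * ENNReal.ofReal (g J (Yp J ω)) +
        ∑ k ∈ Finset.range J, ENNReal.ofReal (mm g ω k) ^ (p - 1) *
          ENNReal.ofReal (g k (Yp k ω)) := by
    intro ω
    have h1 := doob_path hp (fun k => g k (Yp k ω)) (fun k => mm g ω k)
      (fun k => h.nonneg k _) (mm_zero g ω) (fun k => mm_succ g ω k) J
    have hm0 : ∀ k, 0 ≤ mm g ω k := mm_nonneg h.nonneg ω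
    have h2 := ENNReal.ofReal_le_ofReal h1
    rw [ENNReal.ofReal_add (mul_nonneg hc0.le (Real.rpow_nonneg (hm0 J) p))
        (Finset.sum_nonneg (fun k _ => mul_nonneg (Real.rpow_nonneg (hm0 k) _) (h.nonneg _ _))),
      ENNReal.ofReal_add (mul_nonneg (Real.rpow_nonneg (hm0 J) _) (h.nonneg _ _))
        (Finset.sum_nonneg (fun k _ => mul_nonneg (Real.rpow_nonneg (hm0 k) _) (h.nonneg _ _))),
      ENNReal.ofReal_mul hc0.le, ENNReal.ofReal_mul (Real.rpow_nonneg (hm0 J) _),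
      ENNReal.ofReal_sum_of_nonneg
        (fun k _ => mul_nonneg (Real.rpow_nonneg (hm0 k) _) (h.nonneg _ _)),
      ENNReal.ofReal_sum_of_nonneg
        (fun k _ => mul_nonneg (Real.rpow_nonneg (hm0 k) _) (h.nonneg _ _)),
      ← ENNReal.ofReal_rpow_of_nonneg (hm0 J) hp0.le,
      ← ENNReal.ofReal_rpow_of_nonneg (hm0 J) hp1.le] at h2
    have e1 : ∀ k ∈ Finset.range J,
        ENNReal.ofReal (mm g ω k ^ (p - 1) * g (k + 1) (Yp (k + 1) ω)) =
        ENNReal.ofReal (mm g ω k) ^ (p - 1) * ENNReal.ofReal (g (k + 1) (Yp (k + 1) ω)) := by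
      intro k _
      rw [ENNReal.ofReal_mul (Real.rpow_nonneg (hm0 k) _),
        ENNReal.ofReal_rpow_of_nonneg (hm0 k) hp1.le]
    have e2 : ∀ k ∈ Finset.range J,
        ENNReal.ofReal (mm g ω k ^ (p - 1) * g k (Yp k ω)) =
        ENNReal.ofReal (mm g ω k) ^ (p - 1) * ENNReal.ofReal (g k (Yp k ω)) := by
      intro k _
      rw [ENNReal.ofReal_mul (Real.rpow_nonneg (hm0 k) _),
        ENNReal.ofReal_rpow_of_nonneg (hm0 k) hp1.le]
    rw [Finset.sum_congr rfl e1, Finset.sum_congr rfl e2] at h2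
    exact h2
  have hint := lintegral_mono (μ := om J ρ) hpt
  have hmA : Measurable (fun ω : Om n J =>
      ENNReal.ofReal ((p - 1) / p) * ENNReal.ofReal (mm g ω J) ^ p) :=
    ((hmeasm J).pow_const p).const_mul _
  have hmC : Measurable (fun ω : Om n J =>
      ENNReal.ofReal (mm g ω J) ^ (p - 1) * ENNReal.ofReal (g J (Yp J ω))) :=
    ((hmeasm J).pow_const (p - 1)).mul (hmeass J)
  have hm1 : ∀ k ∈ Finset.range J, Measurable (fun ω : Om n J =>
      ENNReal.ofReal (mm g ω k) ^ (p - 1) * ENNReal.ofReal (g (k + 1) (Yp (k + 1) ω))) :=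
    fun k _ => ((hmeasm k).pow_const (p - 1)).mul (hmeass (k + 1))
  have hm2 : ∀ k ∈ Finset.range J, Measurable (fun ω : Om n J =>
      ENNReal.ofReal (mm g ω k) ^ (p - 1) * ENNReal.ofReal (g k (Yp k ω))) :=
    fun k _ => ((hmeasm k).pow_const (p - 1)).mul (hmeass k)
  rw [lintegral_add_left hmA, lintegral_add_left hmC,
    lintegral_const_mul _ ((hmeasm J).pow_const p),
    lintegral_finsetSum _ hm1, lintegral_finsetSum _ hm2] at hint
  -- the martingale property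
  have hmart : ∀ k ∈ Finset.range J,
      (∫⁻ ω : Om n J, ENNReal.ofReal (mm g ω k) ^ (p - 1) *
        ENNReal.ofReal (g (k + 1) (Yp (k + 1) ω)) ∂(om J ρ)) =
      ∫⁻ ω : Om n J, ENNReal.ofReal (mm g ω k) ^ (p - 1) *
        ENNReal.ofReal (g k (Yp k ω)) ∂(om J ρ) := by
    intro k hk
    have hk' : k < J := Finset.mem_range.mp hk
    have h1 := mart h.prob hk' (H := fun ω : Om n J => ENNReal.ofReal (mm g ω k) ^ (p - 1))
      ((hmeasm k).pow_const (p - 1))
      (by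
        intro ω ω' h1 h2
        have e : mm g ω k = mm g ω' k := mm_past g k ω ω' h1 h2
        show ENNReal.ofReal (mm g ω k) ^ (p - 1) = ENNReal.ofReal (mm g ω' k) ^ (p - 1)
        rw [e])
      (h.nice (k + 1)) (h.nonneg (k + 1))
    rw [← h.step k hk'] at h1
    exact h1
  rw [Finset.sum_congr rfl hmart] at hint
  have hsk : ∀ k, (∫⁻ ω : Om n J, ENNReal.ofReal (mm g ω k) ^ (p - 1) *
        ENNReal.ofReal (g k (Yp k ω)) ∂(om J ρ)) < ∞ := by
    intro k
    refine lt_of_le_of_lt (lintegral_mono ?_) (mm_fin h hp k)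
    intro ω
    have h1 : ENNReal.ofReal (g k (Yp k ω)) ≤ ENNReal.ofReal (mm g ω k) ^ (1 : ℝ) := by
      rw [ENNReal.rpow_one]
      exact ENNReal.ofReal_le_ofReal (le_mm g ω k)
    have e : ENNReal.ofReal (mm g ω k) ^ p =
        ENNReal.ofReal (mm g ω k) ^ (p - 1) * ENNReal.ofReal (mm g ω k) ^ (1 : ℝ) := by
      rw [← ENNReal.rpow_add_of_nonneg _ _ hp1.le zero_le_one, sub_add_cancel]
    show ENNReal.ofReal (mm g ω k) ^ (p - 1) * ENNReal.ofReal (g k (Yp k ω)) ≤
      ENNReal.ofReal (mm g ω k) ^ p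
    rw [e]
    exact mul_le_mul_right h1 _
  have hsum : (∑ k ∈ Finset.range J, ∫⁻ ω : Om n J, ENNReal.ofReal (mm g ω k) ^ (p - 1) *
        ENNReal.ofReal (g k (Yp k ω)) ∂(om J ρ)) ≠ ∞ :=
    (ENNReal.sum_lt_top.mpr (fun k _ => hsk k)).ne
  have h3 : ENNReal.ofReal ((p - 1) / p) *
      (∫⁻ ω : Om n J, ENNReal.ofReal (mm g ω J) ^ p ∂(om J ρ)) ≤
      ∫⁻ ω : Om n J, ENNReal.ofReal (mm g ω J) ^ (p - 1) *
        ENNReal.ofReal (g J (Yp J ω)) ∂(om J ρ) :=
    (ENNReal.add_le_add_iff_right hsum).mp hint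
  -- Hölder
  have hconj : (p / (p - 1)).HolderConjugate p :=
    (Real.HolderConjugate.conjExponent hp).symm
  have hold := ENNReal.lintegral_mul_le_Lp_mul_Lq (om J ρ) hconj
    (f := fun ω : Om n J => ENNReal.ofReal (mm g ω J) ^ (p - 1))
    (g := fun ω : Om n J => ENNReal.ofReal (g J (Yp J ω)))
    (((hmeasm J).pow_const (p - 1)).aemeasurable) ((hmeass J).aemeasurable)
  have e4 : ∀ ω : Om n J, (ENNReal.ofReal (mm g ω J) ^ (p - 1)) ^ (p / (p - 1)) =
      ENNReal.ofReal (mm g ω J) ^ p := by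
    intro ω
    rw [← ENNReal.rpow_mul]
    refine congrArg _ ?_
    field_simp
  have e5 : (∫⁻ ω : Om n J, ENNReal.ofReal (g J (Yp J ω)) ^ p ∂(om J ρ)) =
      ∫⁻ x, ENNReal.ofReal (g J x) ^ p :=
    lintegral_Yp (J := J) h.prob J (G := fun x => ENNReal.ofReal (g J x) ^ p)
      (((h.nice J).cont.measurable.ennreal_ofReal).pow_const p)
  set A := ∫⁻ ω : Om n J, ENNReal.ofReal (mm g ω J) ^ p ∂(om J ρ) with hA
  set D := ∫⁻ x, ENNReal.ofReal (g J x) ^ p with hD
  have h6 : ENNReal.ofReal ((p - 1) / p) * A ≤ A ^ (1 / (p / (p - 1))) * D ^ (1 / p) := by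
    refine h3.trans (hold.trans (le_of_eq ?_))
    rw [lintegral_congr e4, e5]
  have hAfin : A ≠ ∞ := (mm_fin h hp J).ne
  by_cases hA0 : A = 0
  · rw [hA0]
    exact zero_le
  have hsplit : A = A ^ (1 / (p / (p - 1))) * A ^ (1 / p) := by
    rw [← ENNReal.rpow_add _ _ hA0 hAfin]
    have e : 1 / (p / (p - 1)) + 1 / p = 1 := by
      field_simp
      ring
    rw [e, ENNReal.rpow_one]
  have hA1 : A ^ (1 / (p / (p - 1))) ≠ 0 := by
    intro h0
    rw [ENNReal.rpow_eq_zero_iff] at h0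
    rcases h0 with h0 | h0
    · exact hA0 h0.1
    · exact hAfin h0.1
  have hA2 : A ^ (1 / (p / (p - 1))) ≠ ∞ :=
    ENNReal.rpow_ne_top_of_nonneg (by positivity) hAfin
  have h7 : ENNReal.ofReal ((p - 1) / p) * A ^ (1 / p) ≤ D ^ (1 / p) := by
    have h8 : A ^ (1 / (p / (p - 1))) * (ENNReal.ofReal ((p - 1) / p) * A ^ (1 / p)) ≤
        A ^ (1 / (p / (p - 1))) * D ^ (1 / p) := by
      refine le_trans (le_of_eq ?_) h6
      rw [mul_left_comm, ← hsplit]
    exact (ENNReal.mul_le_mul_iff_right hA1 hA2).mp h8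
  have h9 : (ENNReal.ofReal ((p - 1) / p) * A ^ (1 / p)) ^ p ≤ (D ^ (1 / p)) ^ p :=
    ENNReal.rpow_le_rpow h7 hp0.le
  rw [ENNReal.mul_rpow_of_nonneg _ _ hp0.le, ← ENNReal.rpow_mul, ← ENNReal.rpow_mul,
    one_div_mul_cancel hp0.ne', ENNReal.rpow_one, ENNReal.rpow_one] at h9
  have e10 : ENNReal.ofReal ((p / (p - 1)) ^ p) * ENNReal.ofReal ((p - 1) / p) ^ p = 1 := by
    rw [ENNReal.ofReal_rpow_of_nonneg hc0.le hp0.le, ← ENNReal.ofReal_mul (by positivity),
      ← Real.mul_rpow (by positivity) hc0.le]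
    have e : p / (p - 1) * ((p - 1) / p) = 1 := by
      field_simp
    rw [e, Real.one_rpow, ENNReal.ofReal_one]
  calc A = (ENNReal.ofReal ((p / (p - 1)) ^ p) * ENNReal.ofReal ((p - 1) / p) ^ p) * A := by
        rw [e10, one_mul]
    _ = ENNReal.ofReal ((p / (p - 1)) ^ p) * (ENNReal.ofReal ((p - 1) / p) ^ p * A) := by
        rw [mul_assoc]
    _ ≤ ENNReal.ofReal ((p / (p - 1)) ^ p) * D := mul_le_mul_right h9 _

end Pool.Agent.CB
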