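import Pool.Agent.CB.PathC

/-!
# CB-PathD: the square function on the path space

`s k ω = g k (Yp k ω)`. Integrate `sq_path` with `a = s k`, `b = s (k+1)`; by `mart` (with
`H = ofReal (s k ^ (p-1))`, and `hg.step`) `∫ s_k^(p-1) s_{k+1} = ∫ s_k^p < ∞`, so
`p(p-1)/2 ∫ (s_{k+1} - s_k)^2 max^(p-2) + ∫ s_k^p ≤ ∫ s_{k+1}^p`; sum over `k < J`:
`p(p-1)/2 ∫ ∑_k e_k ≤ ∫ s_J^p`, `e_k = (s_{k+1} - s_k)^2 max (s_k) (s_{k+1}) ^ (p-2)`.
Now `(s_{k+1} - s_k)^2 = e_k max^(2-p) ≤ e_k Ms^(2-p)` (trivial where the maximum vanishes), so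
`(∑ d_k^2)^(p/2) ≤ (∑ e_k)^(p/2) Ms^(p (2-p)/2)`, and Hölder with exponents `2/p`, `2/(2-p)` (`p < 2`) and
`doob`. Constant: `(2/(p(p-1)))^(p/2) * (p/(p-1))^(p(2-p)/2)`, at most `Csq p`.
-/

set_option autoImplicit false

open MeasureTheory Set
open scoped ENNReal NNReal

namespace Pool.Agent.CB

variable {n J : ℕ}

/-- The constant of the square function inequality. -/
noncomputable def Csq (p : ℝ) : ℝ := (2 / (p * (p - 1))) ^ (p / 2) * (p / (p - 1)) ^ (p * (2 - p) / 2)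

private noncomputable def ek (g : ℕ → V n → ℝ) (p : ℝ) (k : ℕ) (ω : Om n J) : ℝ≥0∞ :=
  ENNReal.ofReal ((g (k + 1) (Yp (k + 1) ω) - g k (Yp k ω)) ^ 2 *
    max (g k (Yp k ω)) (g (k + 1) (Yp (k + 1) ω)) ^ (p - 2))

private theorem meas_s {ρ : ℕ → Measure (V n)} {g : ℕ → V n → ℝ} (h : Mg J ρ g) (k : ℕ) :
    Measurable (fun ω : Om n J => g k (Yp k ω)) :=
  (h.nice k).cont.measurable.comp (measurable_Yp k)

private theorem meas_ek {ρ : ℕ → Measure (V n)} {g : ℕ → V n → ℝ} (h : Mg J ρ g) (p : ℝ) (k : ℕ) :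
    Measurable (ek (J := J) g p k) := by
  unfold ek
  exact ((((meas_s h (k + 1)).sub (meas_s h k)).pow_const 2).mul
    (((meas_s h k).max (meas_s h (k + 1))).pow_const (p - 2))).ennreal_ofReal

private theorem fin_S {ρ : ℕ → Measure (V n)} {g : ℕ → V n → ℝ} (h : Mg J ρ g) {p : ℝ}
    (hp : 1 < p) (k : ℕ) : ∫⁻ x, ENNReal.ofReal (g k x) ^ p ≠ ∞ := by
  refine ne_of_lt (lt_of_le_of_lt (lintegral_mono fun x => ?_)
    ((h.nice k).lintegral_rpow_lt_top hp.le))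
  rw [Real.enorm_eq_ofReal (h.nonneg k x)]

private theorem meas_S {ρ : ℕ → Measure (V n)} {g : ℕ → V n → ℝ} (h : Mg J ρ g) (p : ℝ) (k : ℕ) :
    Measurable (fun x => ENNReal.ofReal (g k x) ^ p) :=
  ((h.nice k).cont.measurable.ennreal_ofReal).pow_const p

private theorem key_step {ρ : ℕ → Measure (V n)} {g : ℕ → V n → ℝ} (h : Mg J ρ g) {p : ℝ}
    (hp : 1 < p) (hp2 : p < 2) {k : ℕ} (hk : k < J) :
    ENNReal.ofReal (p * (p - 1) / 2) * ∫⁻ ω, ek g p k ω ∂(om J ρ) +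
      ∫⁻ x, ENNReal.ofReal (g k x) ^ p ≤ ∫⁻ x, ENNReal.ofReal (g (k + 1) x) ^ p := by
  have hp0 : 0 < p := by linarith
  have hc : 0 < p * (p - 1) / 2 := by
    have : 0 < p - 1 := by linarith
    positivity
  have ha0 : ∀ ω : Om n J, 0 ≤ g k (Yp k ω) := fun ω => h.nonneg k _
  have hb0 : ∀ ω : Om n J, 0 ≤ g (k + 1) (Yp (k + 1) ω) := fun ω => h.nonneg (k + 1) _
  have ham := meas_s h k
  have hbm := meas_s h (k + 1)
  have hSk : ∫⁻ ω, ENNReal.ofReal (g k (Yp k ω)) ^ p ∂(om J ρ) =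
      ∫⁻ x, ENNReal.ofReal (g k x) ^ p :=
    lintegral_Yp h.prob k (G := fun x => ENNReal.ofReal (g k x) ^ p) (meas_S h p k)
  have hSk1 : ∫⁻ ω, ENNReal.ofReal (g (k + 1) (Yp (k + 1) ω)) ^ p ∂(om J ρ) =
      ∫⁻ x, ENNReal.ofReal (g (k + 1) x) ^ p :=
    lintegral_Yp h.prob (k + 1) (G := fun x => ENNReal.ofReal (g (k + 1) x) ^ p)
      (meas_S h p (k + 1))
  have hfin := fin_S h hp k
  have hHm : Measurable (fun ω : Om n J => ENNReal.ofReal (g k (Yp k ω) ^ (p - 1))) :=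
    (ham.pow_const (p - 1)).ennreal_ofReal
  have hmart : ∫⁻ ω, ENNReal.ofReal (g k (Yp k ω) ^ (p - 1)) *
      ENNReal.ofReal (g (k + 1) (Yp (k + 1) ω)) ∂(om J ρ) =
      ∫⁻ x, ENNReal.ofReal (g k x) ^ p := by
    rw [mart h.prob hk (H := fun ω => ENNReal.ofReal (g k (Yp k ω) ^ (p - 1))) hHm
      (fun ω ω' h1 h2 => by
        simp only
        rw [past_Yp le_rfl ω ω' h1 h2]) (h.nice (k + 1)) (h.nonneg (k + 1)), ← h.step k hk, ← hSk]
    refine lintegral_congr fun ω => ?_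
    rw [← ENNReal.ofReal_mul (Real.rpow_nonneg (ha0 ω) _),
      ENNReal.ofReal_rpow_of_nonneg (ha0 ω) hp0.le]
    congr 1
    rw [← Real.rpow_add_one' (ha0 ω) (by linarith)]
    congr 1
    ring
  have hpt : ∀ ω : Om n J, ENNReal.ofReal (p * (p - 1) / 2) * ek g p k ω +
      ENNReal.ofReal (g k (Yp k ω)) ^ p + ENNReal.ofReal p *
        (ENNReal.ofReal (g k (Yp k ω) ^ (p - 1)) * ENNReal.ofReal (g (k + 1) (Yp (k + 1) ω))) ≤
      ENNReal.ofReal (g (k + 1) (Yp (k + 1) ω)) ^ p +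
        ENNReal.ofReal p * ENNReal.ofReal (g k (Yp k ω)) ^ p := by
    intro ω
    have hs := sq_path hp hp2.le (ha0 ω) (hb0 ω)
    have e0 : 0 ≤ (g (k + 1) (Yp (k + 1) ω) - g k (Yp k ω)) ^ 2 *
        max (g k (Yp k ω)) (g (k + 1) (Yp (k + 1) ω)) ^ (p - 2) :=
      mul_nonneg (sq_nonneg _) (Real.rpow_nonneg (le_max_of_le_left (ha0 ω)) _)
    have e1 : 0 ≤ g k (Yp k ω) ^ (p - 1) * g (k + 1) (Yp (k + 1) ω) :=
      mul_nonneg (Real.rpow_nonneg (ha0 ω) _) (hb0 ω)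
    have e2 : 0 ≤ g k (Yp k ω) ^ p := Real.rpow_nonneg (ha0 ω) _
    have e3 : 0 ≤ g (k + 1) (Yp (k + 1) ω) ^ p := Real.rpow_nonneg (hb0 ω) _
    unfold ek
    rw [ENNReal.ofReal_rpow_of_nonneg (ha0 ω) hp0.le, ENNReal.ofReal_rpow_of_nonneg (hb0 ω) hp0.le,
      ← ENNReal.ofReal_mul (Real.rpow_nonneg (ha0 ω) _), ← ENNReal.ofReal_mul hc.le,
      ← ENNReal.ofReal_mul hp0.le, ← ENNReal.ofReal_mul hp0.le,
      ← ENNReal.ofReal_add (mul_nonneg hc.le e0) e2,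
      ← ENNReal.ofReal_add (add_nonneg (mul_nonneg hc.le e0) e2) (mul_nonneg hp0.le e1),
      ← ENNReal.ofReal_add e3 (mul_nonneg hp0.le e2)]
    exact ENNReal.ofReal_le_ofReal hs
  have hint := lintegral_mono (μ := om J ρ) hpt
  have hm1 : Measurable (fun ω : Om n J => ENNReal.ofReal (g k (Yp k ω)) ^ p) :=
    ham.ennreal_ofReal.pow_const p
  have hm2 : Measurable (fun ω : Om n J => ENNReal.ofReal (g (k + 1) (Yp (k + 1) ω)) ^ p) :=
    hbm.ennreal_ofReal.pow_const p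
  have hm3 : Measurable (fun ω : Om n J => ENNReal.ofReal (g k (Yp k ω) ^ (p - 1)) *
      ENNReal.ofReal (g (k + 1) (Yp (k + 1) ω))) := hHm.mul hbm.ennreal_ofReal
  have hmek := meas_ek (J := J) h p k
  rw [lintegral_add_right _ (hm3.const_mul (ENNReal.ofReal p)), lintegral_add_right _ hm1,
    lintegral_const_mul _ hmek, lintegral_const_mul _ hm3, lintegral_add_left hm2,
    lintegral_const_mul _ hm1, hmart, hSk, hSk1] at hint
  have hpf : ENNReal.ofReal p * ∫⁻ x, ENNReal.ofReal (g k x) ^ p ≠ ∞ :=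
    ENNReal.mul_ne_top ENNReal.ofReal_ne_top hfin
  exact (ENNReal.add_le_add_iff_right hpf).1 hint

private theorem sum_le {ρ : ℕ → Measure (V n)} {g : ℕ → V n → ℝ} (h : Mg J ρ g) {p : ℝ}
    (hp : 1 < p) (hp2 : p < 2) : ∀ j, j ≤ J →
    ENNReal.ofReal (p * (p - 1) / 2) * ∑ k ∈ Finset.range j, ∫⁻ ω, ek g p k ω ∂(om J ρ) ≤
      ∫⁻ x, ENNReal.ofReal (g j x) ^ p := by
  intro j
  induction j with
  | zero =>
    intro _
    simp
  | succ j ih =>
    intro hj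
    rw [Finset.sum_range_succ, mul_add, add_comm]
    exact (add_le_add le_rfl (ih (by omega))).trans (key_step h hp hp2 (by omega))

private theorem pt_le {ρ : ℕ → Measure (V n)} {g : ℕ → V n → ℝ} (h : Mg J ρ g) {p : ℝ}
    (hp2 : p < 2) {k : ℕ} (hk : k < J) (ω : Om n J) :
    ‖g (k + 1) (Yp (k + 1) ω) - g k (Yp k ω)‖ₑ ^ (2 : ℝ) ≤ ek g p k ω * Ms J g ω ^ (2 - p) := by
  set a := g k (Yp k ω) with ha
  set b := g (k + 1) (Yp (k + 1) ω) with hb
  have ha0 : 0 ≤ a := h.nonneg k _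
  have hb0 : 0 ≤ b := h.nonneg (k + 1) _
  have hle : ENNReal.ofReal (max a b) ≤ Ms J g ω := by
    unfold Ms
    rcases le_total a b with hab | hab
    · rw [max_eq_right hab, hb]
      exact Finset.le_sup (f := fun k => ENNReal.ofReal (g k (Yp k ω)))
        (Finset.mem_range.2 (by omega : k + 1 < J + 1))
    · rw [max_eq_left hab, ha]
      exact Finset.le_sup (f := fun k => ENNReal.ofReal (g k (Yp k ω)))
        (Finset.mem_range.2 (by omega : k < J + 1))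
  have e1 : ‖b - a‖ₑ ^ (2 : ℝ) = ENNReal.ofReal ((b - a) ^ 2) := by
    rw [← ofReal_norm, ENNReal.ofReal_rpow_of_nonneg (norm_nonneg _) (by norm_num)]
    congr 1
    rw [Real.rpow_two, Real.norm_eq_abs, sq_abs]
  have e2 : ek g p k ω = ENNReal.ofReal ((b - a) ^ 2 * max a b ^ (p - 2)) := rfl
  rw [e1, e2]
  rcases (le_max_of_le_left ha0 : 0 ≤ max a b).eq_or_lt with h0 | h0
  · have h1 : a = 0 := le_antisymm (by rw [h0]; exact le_max_left a b) ha0
    have h2 : b = 0 := le_antisymm (by rw [h0]; exact le_max_right a b) hb0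
    rw [h1, h2]
    simp
  · have e3 : (b - a) ^ 2 = ((b - a) ^ 2 * max a b ^ (p - 2)) * max a b ^ (2 - p) := by
      rw [mul_assoc, ← Real.rpow_add h0]
      have : p - 2 + (2 - p) = 0 := by ring
      rw [this, Real.rpow_zero, mul_one]
    have e4 : 0 ≤ (b - a) ^ 2 * max a b ^ (p - 2) :=
      mul_nonneg (sq_nonneg _) (Real.rpow_nonneg h0.le _)
    calc ENNReal.ofReal ((b - a) ^ 2) =
          ENNReal.ofReal ((b - a) ^ 2 * max a b ^ (p - 2)) * ENNReal.ofReal (max a b) ^ (2 - p) := by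
          rw [ENNReal.ofReal_rpow_of_nonneg h0.le (by linarith), ← ENNReal.ofReal_mul e4, ← e3]
      _ ≤ ENNReal.ofReal ((b - a) ^ 2 * max a b ^ (p - 2)) * Ms J g ω ^ (2 - p) :=
          mul_le_mul' le_rfl (ENNReal.rpow_le_rpow hle (by linarith))

theorem square {ρ : ℕ → Measure (V n)} {g : ℕ → V n → ℝ} (h : Mg J ρ g) {p : ℝ} (hp : 1 < p)
    (hp2 : p < 2) :
    ∫⁻ ω, (∑ k ∈ Finset.range J,
        ‖g (k + 1) (Yp (k + 1) ω) - g k (Yp k ω)‖ₑ ^ (2 : ℝ)) ^ (p / 2) ∂(om J ρ) ≤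
      ENNReal.ofReal (Csq p) * ∫⁻ x, ENNReal.ofReal (g J x) ^ p := by
  have hp0 : 0 < p := by linarith
  have hp1 : 0 < p - 1 := by linarith
  have hp3 : 0 < 2 - p := by linarith
  set S : ℝ≥0∞ := ∫⁻ x, ENNReal.ofReal (g J x) ^ p with hS
  set E : Om n J → ℝ≥0∞ := fun ω => ∑ k ∈ Finset.range J, ek g p k ω with hE
  have hEm : Measurable E := Finset.measurable_sum _ fun k _ => meas_ek h p k
  have hMm : Measurable (Ms J g : Om n J → ℝ≥0∞) := measurable_Ms h.nice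
  have hpt : ∀ ω : Om n J, (∑ k ∈ Finset.range J,
        ‖g (k + 1) (Yp (k + 1) ω) - g k (Yp k ω)‖ₑ ^ (2 : ℝ)) ^ (p / 2) ≤
      E ω ^ (p / 2) * Ms J g ω ^ (p * (2 - p) / 2) := by
    intro ω
    have h1 : ∑ k ∈ Finset.range J, ‖g (k + 1) (Yp (k + 1) ω) - g k (Yp k ω)‖ₑ ^ (2 : ℝ) ≤
        E ω * Ms J g ω ^ (2 - p) := by
      rw [hE, Finset.sum_mul]
      exact Finset.sum_le_sum fun k hk => pt_le h hp2 (Finset.mem_range.1 hk) ω
    refine (ENNReal.rpow_le_rpow h1 (by positivity)).trans (le_of_eq ?_)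
    rw [ENNReal.mul_rpow_of_nonneg _ _ (by positivity), ← ENNReal.rpow_mul]
    congr 2
    ring
  have hH : (2 / p).HolderConjugate (2 / (2 - p)) := by
    rw [Real.holderConjugate_iff]
    constructor
    · rw [lt_div_iff₀ hp0]
      linarith
    · rw [inv_div, inv_div]
      ring
  have hold := ENNReal.lintegral_mul_le_Lp_mul_Lq (om J ρ) hH
    (f := fun ω => E ω ^ (p / 2)) (g := fun ω => Ms J g ω ^ (p * (2 - p) / 2))
    (hEm.pow_const _).aemeasurable (hMm.pow_const _).aemeasurable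
  have hf1 : ∀ ω : Om n J, (E ω ^ (p / 2)) ^ (2 / p) = E ω := by
    intro ω
    rw [← ENNReal.rpow_mul]
    have : p / 2 * (2 / p) = 1 := by field_simp
    rw [this, ENNReal.rpow_one]
  have hg1 : ∀ ω : Om n J, (Ms J g ω ^ (p * (2 - p) / 2)) ^ (2 / (2 - p)) = Ms J g ω ^ p := by
    intro ω
    rw [← ENNReal.rpow_mul]
    congr 1
    field_simp
  simp only [hf1, hg1, Pi.mul_apply, one_div_div] at hold
  have hEint : ∫⁻ ω, E ω ∂(om J ρ) ≤ ENNReal.ofReal (2 / (p * (p - 1))) * S := by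
    have h1 : ∫⁻ ω, E ω ∂(om J ρ) = ∑ k ∈ Finset.range J, ∫⁻ ω, ek g p k ω ∂(om J ρ) :=
      lintegral_finsetSum _ fun k _ => meas_ek h p k
    have h2 := sum_le h hp hp2 J le_rfl
    rw [← h1] at h2
    have hc : 0 < p * (p - 1) / 2 := by positivity
    have h3 : ENNReal.ofReal (2 / (p * (p - 1))) * ENNReal.ofReal (p * (p - 1) / 2) = 1 := by
      rw [← ENNReal.ofReal_mul (by positivity)]
      have : 2 / (p * (p - 1)) * (p * (p - 1) / 2) = 1 := by field_simp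
      rw [this, ENNReal.ofReal_one]
    calc ∫⁻ ω, E ω ∂(om J ρ) = ENNReal.ofReal (2 / (p * (p - 1))) *
          (ENNReal.ofReal (p * (p - 1) / 2) * ∫⁻ ω, E ω ∂(om J ρ)) := by
          rw [← mul_assoc, h3, one_mul]
      _ ≤ ENNReal.ofReal (2 / (p * (p - 1))) * S := mul_le_mul' le_rfl h2
  have hMint := doob h hp
  rw [← hS] at hMint
  have hcs : ENNReal.ofReal (Csq p) = ENNReal.ofReal (2 / (p * (p - 1))) ^ (p / 2) *
      ENNReal.ofReal ((p / (p - 1)) ^ p) ^ ((2 - p) / 2) := by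
    unfold Csq
    rw [ENNReal.ofReal_mul (by positivity), ENNReal.ofReal_rpow_of_nonneg (by positivity)
      (by positivity), ENNReal.ofReal_rpow_of_nonneg (by positivity) (by positivity),
      ← Real.rpow_mul (by positivity)]
    congr 3
    ring
  calc ∫⁻ ω, (∑ k ∈ Finset.range J,
        ‖g (k + 1) (Yp (k + 1) ω) - g k (Yp k ω)‖ₑ ^ (2 : ℝ)) ^ (p / 2) ∂(om J ρ) ≤
        ∫⁻ ω, E ω ^ (p / 2) * Ms J g ω ^ (p * (2 - p) / 2) ∂(om J ρ) := lintegral_mono hpt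
    _ ≤ (∫⁻ ω, E ω ∂(om J ρ)) ^ (p / 2) * (∫⁻ ω, Ms J g ω ^ p ∂(om J ρ)) ^ ((2 - p) / 2) := hold
    _ ≤ (ENNReal.ofReal (2 / (p * (p - 1))) * S) ^ (p / 2) *
        (ENNReal.ofReal ((p / (p - 1)) ^ p) * S) ^ ((2 - p) / 2) :=
        mul_le_mul' (ENNReal.rpow_le_rpow hEint (by positivity))
          (ENNReal.rpow_le_rpow hMint (by positivity))
    _ = ENNReal.ofReal (Csq p) * S := by
        rw [ENNReal.mul_rpow_of_nonneg _ _ (by positivity),
          ENNReal.mul_rpow_of_nonneg _ _ (by positivity), hcs]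
        have h4 : S ^ (p / 2) * S ^ ((2 - p) / 2) = S := by
          rw [← ENNReal.rpow_add_of_nonneg _ _ (by positivity) (by positivity)]
          have : p / 2 + (2 - p) / 2 = 1 := by ring
          rw [this, ENNReal.rpow_one]
        calc _ = ENNReal.ofReal (2 / (p * (p - 1))) ^ (p / 2) *
              ENNReal.ofReal ((p / (p - 1)) ^ p) ^ ((2 - p) / 2) *
              (S ^ (p / 2) * S ^ ((2 - p) / 2)) := by ring
          _ = _ := by rw [h4]

end Pool.Agent.CB
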