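import Pool.Agent.CB.PathA
import Pool.Agent.CB.Gauss
import Pool.Agent.MX.Cover

/-!
# CB-PathE: looking at the path from its end point; Gaussian steps

* `reverse`: for fixed `w` substitute `y = x - ∑ w i` (translation invariance), Tonelli, Jensen
  (`Pool.Agent.MX.lintegral_rpow_le`, probability measure).
* `avg_end`: `Yp k (x - ∑ i, w i, w) = x - ∑_{i ≥ k} w i`. Downward induction on `k` (`k = J`: nothing,
  `dil 0 (gam n) = dirac 0`), for all nice `g`: resample the coordinate `k` (`lintegral_pi_resample`, or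
  its version for bounded continuous integrands), symmetry of `gam n`, and `cv_gam_gam`,
  `cv_comm`.
-/

set_option autoImplicit false

open MeasureTheory Set
open scoped ENNReal NNReal

namespace Pool.Agent.CB

variable {n J : ℕ}

theorem reverse {ρ : ℕ → Measure (V n)} (hρ : ∀ i, IsProbabilityMeasure (ρ i)) {p : ℝ}
    (hp : 1 ≤ p) {G : Om n J → ℝ≥0∞} (hG : Measurable G) :
    ∫⁻ x, (∫⁻ w, G (x - ∑ i, w i, w) ∂(Measure.pi fun i : Fin J => ρ i)) ^ p ≤
      ∫⁻ ω, G ω ^ p ∂(om J ρ) := by
  have hprob : ∀ i : Fin J, IsProbabilityMeasure (ρ i) := fun i => hρ i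
  have hpi : IsProbabilityMeasure (Measure.pi fun i : Fin J => ρ i) := inferInstance
  have hm : Measurable fun q : V n × (Fin J → V n) => G (q.1 - ∑ i, q.2 i, q.2) := by
    refine hG.comp (Measurable.prodMk ?_ measurable_snd)
    refine measurable_fst.sub (Finset.measurable_sum _ fun i _ => ?_)
    exact (measurable_pi_apply i).comp measurable_snd
  have h1 : ∀ x : V n, (∫⁻ w, G (x - ∑ i, w i, w) ∂(Measure.pi fun i : Fin J => ρ i)) ^ p ≤
      ∫⁻ w, G (x - ∑ i, w i, w) ^ p ∂(Measure.pi fun i : Fin J => ρ i) := by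
    intro x
    have h := MX.lintegral_rpow_le (Measure.pi fun i : Fin J => ρ i) hp
      (g := fun w => G (x - ∑ i, w i, w)) (hm.comp measurable_prodMk_left).aemeasurable
    rwa [measure_univ, ENNReal.one_rpow, one_mul] at h
  calc ∫⁻ x, (∫⁻ w, G (x - ∑ i, w i, w) ∂(Measure.pi fun i : Fin J => ρ i)) ^ p
      ≤ ∫⁻ x, ∫⁻ w, G (x - ∑ i, w i, w) ^ p ∂(Measure.pi fun i : Fin J => ρ i) :=
        lintegral_mono h1
    _ = ∫⁻ w, ∫⁻ x, G (x - ∑ i, w i, w) ^ p ∂volume ∂(Measure.pi fun i : Fin J => ρ i) :=
        lintegral_lintegral_swap (hm.pow_const p).aemeasurable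
    _ = ∫⁻ w, ∫⁻ x, G (x, w) ^ p ∂volume ∂(Measure.pi fun i : Fin J => ρ i) := by
        refine lintegral_congr fun w => ?_
        exact lintegral_sub_right_eq_self (fun x => G (x, w) ^ p) (∑ i, w i)
    _ = ∫⁻ ω, G ω ^ p ∂(om J ρ) := by
        unfold om
        rw [lintegral_prod_symm _ (hG.pow_const p).aemeasurable]

theorem integral_pi_resample {ρ : ℕ → Measure (V n)} (hρ : ∀ i, IsProbabilityMeasure (ρ i))
    (k : Fin J) {G : (Fin J → V n) → ℝ} (hG : Continuous G) (hb : ∃ C, ∀ w, |G w| ≤ C) :
    ∫ w, G w ∂(Measure.pi fun i : Fin J => ρ i) =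
      ∫ w, ∫ v, G (Function.update w k v) ∂(ρ k) ∂(Measure.pi fun i : Fin J => ρ i) := by
  have hprob : ∀ i : Fin J, IsProbabilityMeasure (ρ i) := fun i => hρ i
  have hpi : IsProbabilityMeasure (Measure.pi fun i : Fin J => ρ i) := inferInstance
  have hpk : IsProbabilityMeasure (ρ k) := hρ k
  have hc : Continuous fun q : (Fin J → V n) × V n => Function.update q.1 k q.2 :=
    continuous_fst.update k continuous_snd
  have key : ((Measure.pi fun i : Fin J => ρ i).prod (ρ k)).map
      (fun q : (Fin J → V n) × V n => Function.update q.1 k q.2) =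
      Measure.pi fun i : Fin J => ρ i := by
    ext s hs
    rw [Measure.map_apply hc.measurable hs, Measure.prod_apply (hc.measurable hs)]
    have h := lintegral_pi_resample hρ k (G := s.indicator 1) (measurable_one.indicator hs)
    rw [lintegral_indicator_one hs] at h
    rw [h]
    refine lintegral_congr fun w => ?_
    have hs2 : MeasurableSet ((fun v : V n => Function.update w k v) ⁻¹' s) :=
      (hc.measurable.comp measurable_prodMk_left) hs
    have h5 := lintegral_indicator_one (μ := ρ k) hs2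
    exact h5.symm
  obtain ⟨C, hC⟩ := hb
  have hint : Integrable (fun q : (Fin J → V n) × V n => G (Function.update q.1 k q.2))
      ((Measure.pi fun i : Fin J => ρ i).prod (ρ k)) :=
    Integrable.of_bound (hG.comp hc).aestronglyMeasurable C
      (Filter.Eventually.of_forall fun q => by
        rw [Real.norm_eq_abs]
        exact hC _)
  rw [← integral_prod _ hint, ← integral_map (φ := fun q : (Fin J → V n) × V n =>
    Function.update q.1 k q.2) hc.measurable.aemeasurable hG.aestronglyMeasurable, key]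

/-- Gaussian scales. -/
noncomputable def tk (σ : ℕ → ℝ) (J k : ℕ) : ℝ := Real.sqrt (∑ i ∈ Finset.Ico k J, σ i ^ 2)

private theorem cv_dil_symm (t : ℝ) {g : V n → ℝ} (hg : Nice g) (z : V n) :
    ∫ v, g (z - v) ∂(dil t (gam n)) = cv (dil t (gam n)) g z := by
  have h1 : ∫ v, g (z - v) ∂(dil t (gam n)) = ∫ y, g (z - t • y) ∂(gam n) := by
    unfold dil
    refine integral_map (measurable_const_smul t).aemeasurable ?_
    exact (hg.cont.comp (continuous_const.sub continuous_id)).aestronglyMeasurable
  rw [h1, cv_dil _ t hg.cont.measurable z]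
  have h2 : ∫ y, g (z - t • y) ∂(gam n) = ∫ y, g (z - t • y) ∂((gam n).map fun y => -y) := by
    rw [(symP_gam n).symm]
  rw [h2, integral_map (continuous_neg.measurable.aemeasurable)]
  · refine integral_congr_ae (Filter.Eventually.of_forall fun y => ?_)
    change g (z - t • -y) = g (z + t • y)
    rw [smul_neg, sub_neg_eq_add]
  · exact (hg.cont.comp (continuous_const.sub (continuous_const_smul t))).aestronglyMeasurable

private theorem Yp_end {k : ℕ} (hk : k < J) (x : V n) (w : Fin J → V n) (v : V n) :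
    Yp k (x - ∑ i, Function.update w ⟨k, hk⟩ v i, Function.update w ⟨k, hk⟩ v) =
      Yp (k + 1) (x - ∑ i, w i, w) - v := by
  unfold Yp
  have e1 : ∀ u : Fin J → V n, (x - ∑ i, u i) + ∑ i : Fin J, (if (i : ℕ) < k then u i else 0) =
      x - ∑ i : Fin J, (if (i : ℕ) < k then 0 else u i) := by
    intro u
    have : ∑ i, u i = ∑ i : Fin J, (if (i : ℕ) < k then u i else 0) +
        ∑ i : Fin J, (if (i : ℕ) < k then 0 else u i) := by
      rw [← Finset.sum_add_distrib]
      refine Finset.sum_congr rfl fun i _ => ?_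
      by_cases h : (i : ℕ) < k <;> simp [h]
    rw [this]
    abel
  have e2 : ∀ u : Fin J → V n, (x - ∑ i, u i) + ∑ i : Fin J, (if (i : ℕ) < k + 1 then u i else 0) =
      x - ∑ i : Fin J, (if (i : ℕ) < k + 1 then 0 else u i) := by
    intro u
    have : ∑ i, u i = ∑ i : Fin J, (if (i : ℕ) < k + 1 then u i else 0) +
        ∑ i : Fin J, (if (i : ℕ) < k + 1 then 0 else u i) := by
      rw [← Finset.sum_add_distrib]
      refine Finset.sum_congr rfl fun i _ => ?_
      by_cases h : (i : ℕ) < k + 1 <;> simp [h]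
    rw [this]
    abel
  change (x - ∑ i, Function.update w ⟨k, hk⟩ v i) +
    ∑ i : Fin J, (if (i : ℕ) < k then Function.update w ⟨k, hk⟩ v i else 0) =
    (x - ∑ i, w i) + ∑ i : Fin J, (if (i : ℕ) < k + 1 then w i else 0) - v
  rw [e1, e2]
  have e3 : ∑ i : Fin J, (if (i : ℕ) < k then 0 else Function.update w ⟨k, hk⟩ v i) =
      ∑ i : Fin J, (if (i : ℕ) < k + 1 then 0 else w i) +
        ∑ i : Fin J, (if i = ⟨k, hk⟩ then v else 0) := by
    rw [← Finset.sum_add_distrib]
    refine Finset.sum_congr rfl fun i _ => ?_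
    by_cases h : i = ⟨k, hk⟩
    · subst h
      simp
    · have h' : (i : ℕ) ≠ k := fun hh => h (Fin.ext hh)
      rw [Function.update_of_ne h]
      by_cases h2 : (i : ℕ) < k
      · simp [h2, h, Nat.lt_succ_of_lt h2]
      · have h3 : ¬ (i : ℕ) < k + 1 := by omega
        simp [h2, h, h3]
  rw [e3, Finset.sum_ite_eq' Finset.univ]
  simp only [Finset.mem_univ, if_true]
  abel

private theorem Yp_last (x : V n) (w : Fin J → V n) : Yp J (x - ∑ i, w i, w) = x := by
  unfold Yp
  have : ∑ i : Fin J, (if (i : ℕ) < J then w i else 0) = ∑ i, w i :=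
    Finset.sum_congr rfl fun i _ => by simp
  change (x - ∑ i, w i) + ∑ i : Fin J, (if (i : ℕ) < J then w i else 0) = x
  rw [this]
  abel

private theorem continuous_Yp (k : ℕ) (x : V n) :
    Continuous fun w : Fin J → V n => Yp k (x - ∑ i, w i, w) := by
  unfold Yp
  refine Continuous.add (continuous_const.sub (continuous_finsetSum _ fun i _ =>
    continuous_apply i)) (continuous_finsetSum _ fun i _ => ?_)
  by_cases h : (i : ℕ) < k
  · simp only [h, if_true]
    exact continuous_apply i
  · simp only [h, if_false]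
    exact continuous_const

theorem avg_end (σ : ℕ → ℝ) {k : ℕ} (hk : k ≤ J) {g : V n → ℝ} (hg : Nice g) (x : V n) :
    ∫ w, g (Yp k (x - ∑ i, w i, w)) ∂(Measure.pi fun i : Fin J => dil (σ i) (gam n)) =
      cv (dil (tk σ J k) (gam n)) g x := by
  have hρ : ∀ i : ℕ, IsProbabilityMeasure (dil (σ i) (gam n)) := fun i => isProb_dil _
  have hprob : ∀ i : Fin J, IsProbabilityMeasure (dil (σ i) (gam n)) := fun i => hρ i
  have hpi : IsProbabilityMeasure (Measure.pi fun i : Fin J => dil (σ i) (gam n)) := inferInstance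
  obtain ⟨m, hm⟩ : ∃ m, m = J - k := ⟨_, rfl⟩
  induction m generalizing k g x with
  | zero =>
    have hkJ : k = J := by omega
    subst hkJ
    have h1 : tk σ k k = 0 := by simp [tk]
    rw [h1, cv_dil _ 0 hg.cont.measurable x]
    simp only [Yp_last, zero_smul, add_zero]
    simp
  | succ m ih =>
    have hk' : k < J := by omega
    have hpk : IsProbabilityMeasure (dil (σ k) (gam n)) := hρ k
    have hn : Nice (cv (dil (σ k) (gam n)) g) := nice_cv hg
    have h1 := ih (k := k + 1) (by omega) hn x (by omega)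
    have h2 := integral_pi_resample (ρ := fun i => dil (σ i) (gam n)) hρ ⟨k, hk'⟩
      (G := fun w => g (Yp k (x - ∑ i, w i, w))) (hg.cont.comp (continuous_Yp k x)) (by
        obtain ⟨C, hC⟩ := hg.bdd
        exact ⟨C, fun w => hC _⟩)
    rw [h2]
    have h3 : ∀ w : Fin J → V n, ∫ v, g (Yp k (x - ∑ i, Function.update w ⟨k, hk'⟩ v i,
        Function.update w ⟨k, hk'⟩ v)) ∂(dil (σ k) (gam n)) =
        cv (dil (σ k) (gam n)) g (Yp (k + 1) (x - ∑ i, w i, w)) := by
      intro w
      rw [← cv_dil_symm (σ k) hg]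
      refine integral_congr_ae (Filter.Eventually.of_forall fun v => ?_)
      change g _ = g _
      rw [Yp_end hk' x w v]
    refine (integral_congr_ae (Filter.Eventually.of_forall fun w => h3 w)).trans ?_
    rw [h1, cv_gam_gam _ _ hg]
    have h4 : Real.sqrt (tk σ J (k + 1) ^ 2 + σ k ^ 2) = tk σ J k := by
      unfold tk
      rw [Real.sq_sqrt (Finset.sum_nonneg fun i _ => sq_nonneg _)]
      rw [Finset.sum_eq_sum_Ico_succ_bot hk', add_comm]
    rw [h4]

end Pool.Agent.CB
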