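import Pool.Agent.CB.PathC
import Pool.Agent.CB.PathD
import Pool.Agent.CB.PathE

/-!
# CB-PathF: Gaussian maximal function and square function along a decreasing sequence

`τ : ℕ → ℝ` is nonnegative and antitone with `τ J = 0`. Put `σ i = sqrt ((τ i ^2 - τ (i+1)^2)/2)`; then
`tk σ J k = τ k / √2` for `k ≤ J`. Let `g k = cv (dil (tk σ J k) (gam n)) f` for `k ≤ J` (for `k > J`
`tk = 0` and `g k = f`), `ρ i = dil (σ i) (gam n)`. `Mg J ρ g` holds by `cv_gam_gam`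
(`σ k ^2 + (tk (k+1))^2 = (tk k)^2`), `g J = f` (`dil 0 = dirac 0`). By `avg_end` and `cv_gam_gam`
`∫ g k (Yp k (x - ∑ w, w)) dw = cv (dil (tk k)) (g k) x = cv (dil (τ k) (gam n)) f x`.
* `gauss_path_max`: `ofReal (cv (dil (τ k)) f x) ≤ ∫⁻ Ms J g (x - ∑ w, w) dw`; `reverse`, `doob`.
* `gauss_path_sq`: the vector `(cv (dil (τ (k+1))) f x - cv (dil (τ k)) f x)_k` is the `w`-average of the
  vector of increments, so its euclidean norm is at most the average of the norm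
  (`norm_integral_le_integral_norm` in `EuclideanSpace ℝ (Fin J)`, or by duality), then `reverse` with
  `G ω = (∑ ‖..‖ₑ^2)^(1/2)` and `square`.
-/

set_option autoImplicit false

open MeasureTheory Set
open scoped ENNReal NNReal

namespace Pool.Agent.CB

variable {n : ℕ}

private noncomputable def sg (τ : ℕ → ℝ) (i : ℕ) : ℝ := Real.sqrt ((τ i ^ 2 - τ (i + 1) ^ 2) / 2)

private theorem sg_sq {τ : ℕ → ℝ} (hτ : Antitone τ) (h0 : ∀ k, 0 ≤ τ k) (i : ℕ) :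
    sg τ i ^ 2 = (τ i ^ 2 - τ (i + 1) ^ 2) / 2 := by
  unfold sg
  rw [Real.sq_sqrt]
  have h1 : τ (i + 1) ≤ τ i := hτ (Nat.le_succ i)
  have h2 : τ (i + 1) ^ 2 ≤ τ i ^ 2 := pow_le_pow_left₀ (h0 _) h1 2
  linarith

private theorem sum_sg {τ : ℕ → ℝ} (hτ : Antitone τ) (h0 : ∀ k, 0 ≤ τ k) {k J : ℕ} (hk : k ≤ J)
    (hJ : τ J = 0) : ∑ i ∈ Finset.Ico k J, sg τ i ^ 2 = τ k ^ 2 / 2 := by
  have h : ∀ m, k ≤ m → ∑ i ∈ Finset.Ico k m, sg τ i ^ 2 = (τ k ^ 2 - τ m ^ 2) / 2 := by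
    intro m hm
    induction m, hm using Nat.le_induction with
    | base => simp
    | succ m hm ih =>
      rw [Finset.sum_Ico_succ_top hm, ih, sg_sq hτ h0]
      ring
  rw [h J hk, hJ]
  ring

private noncomputable def gk (τ : ℕ → ℝ) (J : ℕ) (f : V n → ℝ) (k : ℕ) : V n → ℝ :=
  cv (dil (tk (sg τ) J k) (gam n)) f

private theorem prob_gam_dil (t : ℝ) : IsProbabilityMeasure (dil t (gam n)) := isProb_dil t

private theorem nice_gk (τ : ℕ → ℝ) (J : ℕ) {f : V n → ℝ} (hf : Nice f) (k : ℕ) :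
    Nice (gk τ J f k) := by
  have := prob_gam_dil (n := n) (tk (sg τ) J k)
  exact nice_cv hf

private theorem gk_step (τ : ℕ → ℝ) {J : ℕ} {f : V n → ℝ} (hf : Nice f) {k : ℕ} (hk : k < J) :
    gk τ J f k = cv (dil (sg τ k) (gam n)) (gk τ J f (k + 1)) := by
  unfold gk
  rw [cv_gam_gam _ _ hf]
  have h4 : Real.sqrt (sg τ k ^ 2 + tk (sg τ) J (k + 1) ^ 2) = tk (sg τ) J k := by
    unfold tk
    rw [Real.sq_sqrt (Finset.sum_nonneg fun i _ => sq_nonneg _)]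
    rw [Finset.sum_eq_sum_Ico_succ_bot hk]
  rw [h4]

private theorem gk_last (τ : ℕ → ℝ) (J : ℕ) {f : V n → ℝ} (hf : Nice f) :
    gk τ J f J = f := by
  have h1 : tk (sg τ) J J = 0 := by simp [tk]
  funext x
  unfold gk
  rw [h1, cv_dil _ 0 hf.cont.measurable x]
  simp

private theorem mg_gk (τ : ℕ → ℝ) (J : ℕ) {f : V n → ℝ} (hf : Nice f) (f0 : ∀ x, 0 ≤ f x) :
    Mg J (fun i => dil (sg τ i) (gam n)) (gk τ J f) where
  prob := fun _ => prob_gam_dil _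
  nice := fun k => nice_gk τ J hf k
  nonneg := fun _ x => cv_nonneg f0 x
  step := fun _ hk => gk_step τ hf hk

private theorem avg_gk {τ : ℕ → ℝ} (hτ : Antitone τ) (h0 : ∀ k, 0 ≤ τ k) {J : ℕ} (hJ : τ J = 0)
    {f : V n → ℝ} (hf : Nice f) {k : ℕ} (hk : k ≤ J) (x : V n) :
    ∫ w, gk τ J f k (Yp k (x - ∑ i, w i, w))
      ∂(Measure.pi fun i : Fin J => dil (sg τ i) (gam n)) = cv (dil (τ k) (gam n)) f x := by
  rw [avg_end (sg τ) hk (nice_gk τ J hf k) x]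
  unfold gk
  rw [cv_gam_gam _ _ hf]
  have h : Real.sqrt (tk (sg τ) J k ^ 2 + tk (sg τ) J k ^ 2) = τ k := by
    unfold tk
    rw [Real.sq_sqrt (Finset.sum_nonneg fun i _ => sq_nonneg _), sum_sg hτ h0 hk hJ,
      add_halves, Real.sqrt_sq (h0 k)]
  rw [h]

private theorem meas_end {J : ℕ} (x : V n) :
    Measurable fun w : Fin J → V n => ((x - ∑ i, w i, w) : Om n J) :=
  (measurable_const.sub (Finset.measurable_sum _ fun i _ => measurable_pi_apply i)).prodMk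
    measurable_id

private theorem int_gk (τ : ℕ → ℝ) {J : ℕ} {f : V n → ℝ} (hf : Nice f) (k : ℕ) (x : V n) :
    Integrable (fun w : Fin J → V n => gk τ J f k (Yp k (x - ∑ i, w i, w)))
      (Measure.pi fun i : Fin J => dil (sg τ i) (gam n)) := by
  have hprob : ∀ i : Fin J, IsProbabilityMeasure (dil (sg τ i) (gam n)) := fun i =>
    prob_gam_dil _
  have hpi : IsProbabilityMeasure (Measure.pi fun i : Fin J => dil (sg τ i) (gam n)) :=
    inferInstance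
  obtain ⟨C, hC⟩ := (nice_gk τ J hf k).bdd
  refine Integrable.of_bound (C := C) ?_ (Filter.Eventually.of_forall fun w => ?_)
  · exact ((nice_gk τ J hf k).cont.measurable.comp
      ((measurable_Yp k).comp (meas_end x))).aestronglyMeasurable
  · rw [Real.norm_eq_abs]
    exact hC _

theorem gauss_path_max {p : ℝ} (hp : 1 < p) {J : ℕ} {τ : ℕ → ℝ} (hτ : Antitone τ)
    (h0 : ∀ k, 0 ≤ τ k) (hJ : τ J = 0) {f : V n → ℝ} (hf : Nice f) (f0 : ∀ x, 0 ≤ f x) :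
    ∫⁻ x, ((Finset.range (J + 1)).sup fun k =>
        ENNReal.ofReal (cv (dil (τ k) (gam n)) f x)) ^ p ≤
      ENNReal.ofReal ((p / (p - 1)) ^ p) * ∫⁻ x, ENNReal.ofReal (f x) ^ p := by
  have hM := mg_gk τ J hf f0
  have hp0 : 0 ≤ p := by linarith
  have h1 : ∀ x, ((Finset.range (J + 1)).sup fun k =>
      ENNReal.ofReal (cv (dil (τ k) (gam n)) f x)) ≤
      ∫⁻ w, Ms J (gk τ J f) (x - ∑ i, w i, w)
        ∂(Measure.pi fun i : Fin J => dil (sg τ i) (gam n)) := by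
    intro x
    refine Finset.sup_le fun k hk => ?_
    have hk' : k ≤ J := Nat.lt_succ_iff.1 (Finset.mem_range.1 hk)
    rw [← avg_gk hτ h0 hJ hf hk' x]
    rw [ofReal_integral_eq_lintegral_ofReal (int_gk τ hf k x)
      (Filter.Eventually.of_forall fun w => hM.nonneg k _)]
    refine lintegral_mono fun w => ?_
    exact Finset.le_sup (f := fun k => ENNReal.ofReal (gk τ J f k (Yp k (x - ∑ i, w i, w)))) hk
  calc ∫⁻ x, ((Finset.range (J + 1)).sup fun k =>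
        ENNReal.ofReal (cv (dil (τ k) (gam n)) f x)) ^ p
      ≤ ∫⁻ x, (∫⁻ w, Ms J (gk τ J f) (x - ∑ i, w i, w)
        ∂(Measure.pi fun i : Fin J => dil (sg τ i) (gam n))) ^ p :=
        lintegral_mono fun x => ENNReal.rpow_le_rpow (h1 x) hp0
    _ ≤ ∫⁻ ω, Ms J (gk τ J f) ω ^ p ∂(om J fun i => dil (sg τ i) (gam n)) :=
        reverse (ρ := fun i => dil (sg τ i) (gam n)) hM.prob hp.le (measurable_Ms hM.nice)
    _ ≤ ENNReal.ofReal ((p / (p - 1)) ^ p) * ∫⁻ x, ENNReal.ofReal (gk τ J f J x) ^ p :=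
        doob hM hp
    _ = ENNReal.ofReal ((p / (p - 1)) ^ p) * ∫⁻ x, ENNReal.ofReal (f x) ^ p := by
        rw [gk_last τ J hf]

/-- The vector with given coordinates. -/
private noncomputable def vec {J : ℕ} (a : Fin J → ℝ) : EuclideanSpace ℝ (Fin J) :=
  ∑ k, a k • EuclideanSpace.single k (1 : ℝ)

private theorem vec_apply {J : ℕ} (a : Fin J → ℝ) (k : Fin J) : vec a k = a k := by
  unfold vec
  simp [Finset.sum_apply, Pi.single_apply]

private theorem enorm_vec {J : ℕ} (a : Fin J → ℝ) :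
    ‖vec a‖ₑ = (∑ k, ‖a k‖ₑ ^ (2 : ℝ)) ^ ((1 : ℝ) / 2) := by
  rw [enorm_eq_nnnorm, EuclideanSpace.nnnorm_eq, NNReal.sqrt_eq_rpow]
  have h1 : (∑ k, ‖a k‖ₑ ^ (2 : ℝ)) = ((∑ k, ‖vec a k‖₊ ^ 2 : ℝ≥0) : ℝ≥0∞) := by
    rw [ENNReal.ofNNReal_finsetSum]
    refine Finset.sum_congr rfl fun k _ => ?_
    rw [vec_apply, ENNReal.coe_pow, ENNReal.rpow_two]
    rfl
  rw [h1, ← ENNReal.coe_rpow_of_nonneg _ (by norm_num : (0 : ℝ) ≤ 1 / 2)]

theorem gauss_path_sq {p : ℝ} (hp : 1 < p) (hp2 : p < 2) {J : ℕ} {τ : ℕ → ℝ} (hτ : Antitone τ)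
    (h0 : ∀ k, 0 ≤ τ k) (hJ : τ J = 0) {f : V n → ℝ} (hf : Nice f) (f0 : ∀ x, 0 ≤ f x) :
    ∫⁻ x, (∑ k ∈ Finset.range J,
        ‖cv (dil (τ (k + 1)) (gam n)) f x - cv (dil (τ k) (gam n)) f x‖ₑ ^ (2 : ℝ)) ^ (p / 2) ≤
      ENNReal.ofReal (Csq p) * ∫⁻ x, ENNReal.ofReal (f x) ^ p := by
  have hM := mg_gk τ J hf f0
  have hp0 : 0 ≤ p := by linarith
  obtain ⟨G, hG⟩ : ∃ G : Om n J → ℝ≥0∞, G = fun ω => (∑ k ∈ Finset.range J,
      ‖gk τ J f (k + 1) (Yp (k + 1) ω) - gk τ J f k (Yp k ω)‖ₑ ^ (2 : ℝ)) ^ ((1 : ℝ) / 2) :=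
    ⟨_, rfl⟩
  have hGm : Measurable G := by
    rw [hG]
    refine Measurable.pow_const (Finset.measurable_sum _ fun k _ => ?_) _
    refine Measurable.pow_const ?_ _
    exact (((hM.nice (k + 1)).cont.measurable.comp (measurable_Yp (k + 1))).sub
      ((hM.nice k).cont.measurable.comp (measurable_Yp k))).enorm
  have h1 : ∀ x, (∑ k ∈ Finset.range J,
      ‖cv (dil (τ (k + 1)) (gam n)) f x - cv (dil (τ k) (gam n)) f x‖ₑ ^ (2 : ℝ)) ^
        ((1 : ℝ) / 2) ≤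
      ∫⁻ w, G (x - ∑ i, w i, w) ∂(Measure.pi fun i : Fin J => dil (sg τ i) (gam n)) := by
    intro x
    obtain ⟨D, hD⟩ : ∃ D : (Fin J → V n) → EuclideanSpace ℝ (Fin J), D = fun w =>
        vec fun k : Fin J => gk τ J f (k + 1) (Yp (k + 1) (x - ∑ i, w i, w)) -
          gk τ J f k (Yp k (x - ∑ i, w i, w)) := ⟨_, rfl⟩
    have hint : ∫ w, D w ∂(Measure.pi fun i : Fin J => dil (sg τ i) (gam n)) =
        vec fun k : Fin J => cv (dil (τ (k + 1)) (gam n)) f x - cv (dil (τ k) (gam n)) f x := by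
      rw [hD]
      unfold vec
      rw [integral_finsetSum]
      · refine Finset.sum_congr rfl fun k _ => ?_
        rw [integral_smul_const, integral_sub (int_gk τ hf _ x) (int_gk τ hf _ x),
          avg_gk hτ h0 hJ hf (Nat.succ_le_of_lt k.2) x, avg_gk hτ h0 hJ hf k.2.le x]
      · intro k _
        exact ((int_gk τ hf _ x).sub (int_gk τ hf _ x)).smul_const _
    have h2 := enorm_integral_le_lintegral_enorm
      (μ := Measure.pi fun i : Fin J => dil (sg τ i) (gam n)) D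
    rw [hint, enorm_vec] at h2
    rw [Finset.sum_range (fun k => ‖cv (dil (τ (k + 1)) (gam n)) f x -
      cv (dil (τ k) (gam n)) f x‖ₑ ^ (2 : ℝ))]
    refine h2.trans (le_of_eq (lintegral_congr fun w => ?_))
    rw [hD, hG]
    change ‖vec _‖ₑ = (∑ k ∈ Finset.range J, ‖gk τ J f (k + 1) (Yp (k + 1)
      (x - ∑ i, w i, w)) - gk τ J f k (Yp k (x - ∑ i, w i, w))‖ₑ ^ (2 : ℝ)) ^ ((1 : ℝ) / 2)
    rw [enorm_vec, Finset.sum_range (fun k => ‖gk τ J f (k + 1) (Yp (k + 1)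
      (x - ∑ i, w i, w)) - gk τ J f k (Yp k (x - ∑ i, w i, w))‖ₑ ^ (2 : ℝ))]
  have hpow : ∀ a : ℝ≥0∞, a ^ (p / 2) = (a ^ ((1 : ℝ) / 2)) ^ p := by
    intro a
    rw [← ENNReal.rpow_mul]
    congr 1
    ring
  calc ∫⁻ x, (∑ k ∈ Finset.range J,
        ‖cv (dil (τ (k + 1)) (gam n)) f x - cv (dil (τ k) (gam n)) f x‖ₑ ^ (2 : ℝ)) ^ (p / 2)
      ≤ ∫⁻ x, (∫⁻ w, G (x - ∑ i, w i, w)
        ∂(Measure.pi fun i : Fin J => dil (sg τ i) (gam n))) ^ p := by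
        refine lintegral_mono fun x => ?_
        simp only
        rw [hpow]
        exact ENNReal.rpow_le_rpow (h1 x) hp0
    _ ≤ ∫⁻ ω, G ω ^ p ∂(om J fun i => dil (sg τ i) (gam n)) :=
        reverse (ρ := fun i => dil (sg τ i) (gam n)) hM.prob hp.le hGm
    _ = ∫⁻ ω, (∑ k ∈ Finset.range J,
        ‖gk τ J f (k + 1) (Yp (k + 1) ω) - gk τ J f k (Yp k ω)‖ₑ ^ (2 : ℝ)) ^ (p / 2)
          ∂(om J fun i => dil (sg τ i) (gam n)) := by
        refine lintegral_congr fun ω => ?_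
        rw [hpow, hG]
    _ ≤ ENNReal.ofReal (Csq p) * ∫⁻ x, ENNReal.ofReal (gk τ J f J x) ^ p :=
        square hM hp hp2
    _ = ENNReal.ofReal (Csq p) * ∫⁻ x, ENNReal.ofReal (f x) ^ p := by
        rw [gk_last τ J hf]

end Pool.Agent.CB
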