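import Pool.Agent.CB.OrbDefs
import Pool.Agent.CB.LCmom
import Pool.Agent.CB.LCu

/-!
# CB-R2Mom: moments of the measures `Rad2`

By rotation invariance (the isometries exchanging coordinates) all coordinates of `z.1` have the same second moment, which is
`1` (sum `k+1`). Each coordinate `z.1 i` and `z.2` is a linear functional: `LC.map`, symmetric, second moment `≤ 1`: `lc_moment`.
`‖v‖^M ≤ (∑ |v i|)^M ≤ (k+1)^(M-1) ∑ |v i|^M` (or `‖v‖ ≤ (k+1) max |v i|`, `‖v‖^M ≤ (k+1)^M ∑ |v i|^M`).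
-/

set_option autoImplicit false

open MeasureTheory Set
open scoped ENNReal NNReal

namespace Pool.Agent.CB

private theorem enorm_sq_sum {m : ℕ} (v : V m) :
    ‖v‖ₑ ^ (2 : ℝ) = ∑ i, ‖v i‖ₑ ^ (2 : ℝ) := by
  have h1 : ‖v‖ ^ 2 = ∑ i, ‖v i‖ ^ 2 := EuclideanSpace.norm_sq_eq v
  have h2 : ∀ x : ℝ≥0∞, x ^ (2 : ℝ) = x ^ 2 := fun x => by
    rw [← ENNReal.rpow_natCast]; norm_num
  simp only [h2]
  rw [← ofReal_norm_eq_enorm, ← ENNReal.ofReal_pow (norm_nonneg _), h1,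
    ENNReal.ofReal_sum_of_nonneg (fun i _ => sq_nonneg _)]
  refine Finset.sum_congr rfl fun i _ => ?_
  rw [ENNReal.ofReal_pow (norm_nonneg _), ofReal_norm_eq_enorm]

private theorem enorm_pow_le {k : ℕ} (v : V (k + 1)) (M : ℕ) :
    ‖v‖ₑ ^ M ≤ ((k : ℝ≥0∞) + 1) ^ M * ∑ i, ‖v i‖ₑ ^ M := by
  obtain ⟨j, -, hj⟩ := Finset.exists_max_image (Finset.univ : Finset (Fin (k + 1)))
    (fun i => ‖v i‖ₑ) ⟨0, Finset.mem_univ _⟩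
  have h1 : ‖v‖ₑ ^ (2 : ℝ) ≤ (((k : ℝ≥0∞) + 1) * ‖v j‖ₑ) ^ (2 : ℝ) := by
    rw [enorm_sq_sum]
    calc ∑ i, ‖v i‖ₑ ^ (2 : ℝ) ≤ ∑ _i : Fin (k + 1), ‖v j‖ₑ ^ (2 : ℝ) :=
          Finset.sum_le_sum fun i _ => ENNReal.rpow_le_rpow (hj i (Finset.mem_univ _)) (by norm_num)
      _ = ((k : ℝ≥0∞) + 1) * ‖v j‖ₑ ^ (2 : ℝ) := by simp
      _ ≤ ((k : ℝ≥0∞) + 1) ^ (2 : ℝ) * ‖v j‖ₑ ^ (2 : ℝ) := by
          gcongr
          have h3 : (1 : ℝ≥0∞) ≤ (k : ℝ≥0∞) + 1 := le_add_self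
          calc ((k : ℝ≥0∞) + 1) = ((k : ℝ≥0∞) + 1) ^ (1 : ℝ) := (ENNReal.rpow_one _).symm
            _ ≤ ((k : ℝ≥0∞) + 1) ^ (2 : ℝ) :=
                ENNReal.rpow_le_rpow_of_exponent_le h3 (by norm_num)
      _ = (((k : ℝ≥0∞) + 1) * ‖v j‖ₑ) ^ (2 : ℝ) :=
          (ENNReal.mul_rpow_of_nonneg _ _ (by norm_num)).symm
  have h2 : ‖v‖ₑ ≤ ((k : ℝ≥0∞) + 1) * ‖v j‖ₑ := by
    rwa [ENNReal.rpow_le_rpow_iff (by norm_num)] at h1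
  calc ‖v‖ₑ ^ M ≤ (((k : ℝ≥0∞) + 1) * ‖v j‖ₑ) ^ M := by gcongr
    _ = ((k : ℝ≥0∞) + 1) ^ M * ‖v j‖ₑ ^ M := mul_pow _ _ _
    _ ≤ ((k : ℝ≥0∞) + 1) ^ M * ∑ i, ‖v i‖ₑ ^ M := by
        gcongr
        exact Finset.single_le_sum (f := fun i => ‖v i‖ₑ ^ M) (fun i _ => zero_le)
          (Finset.mem_univ j)

private theorem meas_coord {k : ℕ} (i : Fin (k + 1)) :
    Measurable fun z : V (k + 1) × ℝ => z.1 i := by
  have h : Continuous fun z : V (k + 1) × ℝ => z.1 i := by fun_prop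
  exact h.measurable

/-- A linear functional of a `Rad2` measure with second moment at most one. -/
private theorem func_moment {k : ℕ} {σ : Measure (V (k + 1) × ℝ)} (h : Rad2 k σ)
    (f : V (k + 1) × ℝ →ₗ[ℝ] ℝ) (hf : Measurable f)
    (h2 : ∫⁻ z, ‖f z‖ₑ ^ (2 : ℝ) ∂σ ≤ 1) (M : ℕ) (C : ℝ≥0)
    (hC : ∀ σ : Measure ℝ, IsProbabilityMeasure σ → LC σ → σ.map (fun x => -x) = σ →
      ∫⁻ x, ‖x‖ₑ ^ (2 : ℝ) ∂σ ≤ 1 → ∫⁻ x, ‖x‖ₑ ^ M ∂σ ≤ C) :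
    ∫⁻ z, ‖f z‖ₑ ^ M ∂σ ≤ C := by
  have hp := h.prob
  have e1 : IsProbabilityMeasure (σ.map f) := Measure.isProbabilityMeasure_map hf.aemeasurable
  have e2 : LC (σ.map f) := h.lc.map f hf
  have e3 : (σ.map f).map (fun x => -x) = σ.map f := by
    rw [Measure.map_map measurable_neg hf]
    have h4 : ((fun x : ℝ => -x) ∘ f) = f ∘ fun z => -z := by
      funext z
      simp
    rw [h4, ← Measure.map_map hf measurable_neg, h.symm]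
  have e4 : ∫⁻ x, ‖x‖ₑ ^ (2 : ℝ) ∂(σ.map f) ≤ 1 := by
    rw [lintegral_map (by fun_prop) hf]
    exact h2
  have e5 := hC _ e1 e2 e3 e4
  rwa [lintegral_map (by fun_prop) hf] at e5

private theorem coord_eq {k : ℕ} {σ : Measure (V (k + 1) × ℝ)} (h : Rad2 k σ)
    (i j : Fin (k + 1)) :
    ∫⁻ z, ‖z.1 i‖ₑ ^ (2 : ℝ) ∂σ = ∫⁻ z, ‖z.1 j‖ₑ ^ (2 : ℝ) ∂σ := by
  set O : V (k + 1) ≃ₗᵢ[ℝ] V (k + 1) :=
    LinearIsometryEquiv.piLpCongrLeft 2 ℝ ℝ (Equiv.swap i j) with hO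
  have h1 := h.inv O
  have hm : Measurable fun z : V (k + 1) × ℝ => ((O z.1, z.2) : V (k + 1) × ℝ) := by
    have : Continuous fun z : V (k + 1) × ℝ => ((O z.1, z.2) : V (k + 1) × ℝ) := by fun_prop
    exact this.measurable
  have hg : Measurable fun z : V (k + 1) × ℝ => ‖z.1 j‖ₑ ^ (2 : ℝ) := by
    have := meas_coord (k := k) j
    fun_prop
  conv_rhs => rw [← h1]
  rw [lintegral_map hg hm]
  refine lintegral_congr fun z => ?_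
  show ‖z.1 i‖ₑ ^ (2 : ℝ) = ‖(O z.1) j‖ₑ ^ (2 : ℝ)
  have h2 : (O z.1) j = z.1 i := by
    rw [hO, LinearIsometryEquiv.piLpCongrLeft_apply]
    simp [Equiv.piCongrLeft', Equiv.symm_swap]
  rw [h2]

private theorem coord_mom {k : ℕ} {σ : Measure (V (k + 1) × ℝ)} (h : Rad2 k σ)
    (i : Fin (k + 1)) : ∫⁻ z, ‖z.1 i‖ₑ ^ (2 : ℝ) ∂σ ≤ 1 := by
  have h1 : ∫⁻ z, ‖z.1‖ₑ ^ (2 : ℝ) ∂σ = ∑ j, ∫⁻ z, ‖z.1 j‖ₑ ^ (2 : ℝ) ∂σ := by
    rw [← lintegral_finset_sum _ (fun j _ => by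
      have := meas_coord (k := k) j
      fun_prop)]
    exact lintegral_congr fun z => enorm_sq_sum z.1
  rw [h.mom] at h1
  have h2 : ∑ j, ∫⁻ z, ‖z.1 j‖ₑ ^ (2 : ℝ) ∂σ
      = ((k : ℝ≥0∞) + 1) * ∫⁻ z, ‖z.1 i‖ₑ ^ (2 : ℝ) ∂σ := by
    rw [Finset.sum_congr rfl fun j _ => coord_eq h j i]
    simp
  rw [h2] at h1
  have h3 : ((k : ℝ≥0∞) + 1) * ∫⁻ z, ‖z.1 i‖ₑ ^ (2 : ℝ) ∂σ ≤ ((k : ℝ≥0∞) + 1) * 1 := by
    rw [← h1, mul_one]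
  have h4 : (k : ℝ≥0∞) + 1 ≠ 0 := by simp
  have h5 : (k : ℝ≥0∞) + 1 ≠ ∞ := by simp
  exact (ENNReal.mul_le_mul_iff_right h4 h5).1 h3

theorem rad2_moments (k : ℕ) :
    ∃ Cm : ℕ → ℝ≥0, ∀ σ : Measure (V (k + 1) × ℝ), Rad2 k σ → ∀ M : ℕ,
      ∫⁻ z, ‖z.1‖ₑ ^ M ∂σ ≤ Cm M ∧ ∫⁻ z, ‖z.2‖ₑ ^ M ∂σ ≤ Cm M := by
  choose C hC using lc_moment
  refine ⟨fun M => ((k : ℝ≥0) + 1) ^ M * (((k : ℝ≥0) + 1) * C M), fun σ h M => ⟨?_, ?_⟩⟩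
  · have h1 : ∀ i : Fin (k + 1), ∫⁻ z, ‖z.1 i‖ₑ ^ M ∂σ ≤ C M := by
      intro i
      refine func_moment h
        ((LinearMap.proj i).comp (((WithLp.linearEquiv 2 ℝ (Fin (k + 1) → ℝ)).toLinearMap).comp
          (LinearMap.fst ℝ (V (k + 1)) ℝ))) (meas_coord i) (coord_mom h i) M (C M) (hC M)
    calc ∫⁻ z, ‖z.1‖ₑ ^ M ∂σ
        ≤ ∫⁻ z, ((k : ℝ≥0∞) + 1) ^ M * ∑ i, ‖z.1 i‖ₑ ^ M ∂σ :=
          lintegral_mono fun z => enorm_pow_le z.1 M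
      _ = ((k : ℝ≥0∞) + 1) ^ M * ∑ i, ∫⁻ z, ‖z.1 i‖ₑ ^ M ∂σ := by
          rw [lintegral_const_mul' _ _ (by simp), lintegral_finset_sum _ (fun j _ => by
            have := meas_coord (k := k) j
            fun_prop)]
      _ ≤ ((k : ℝ≥0∞) + 1) ^ M * ∑ _i : Fin (k + 1), (C M : ℝ≥0∞) := by
          gcongr with i _
          exact h1 i
      _ = (((((k : ℝ≥0) + 1) ^ M * (((k : ℝ≥0) + 1) * C M) : ℝ≥0)) : ℝ≥0∞) := by
          simp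
  · have h1 := func_moment h (LinearMap.snd ℝ (V (k + 1)) ℝ) measurable_snd h.mom2 M (C M) (hC M)
    refine h1.trans ?_
    have h2 : C M ≤ ((k : ℝ≥0) + 1) ^ M * (((k : ℝ≥0) + 1) * C M) := by
      have h3 : (1 : ℝ≥0) ≤ (k : ℝ≥0) + 1 := le_add_self
      have h4 : (1 : ℝ≥0) ≤ ((k : ℝ≥0) + 1) ^ M := one_le_pow₀ h3
      calc C M = 1 * (1 * C M) := by ring
        _ ≤ ((k : ℝ≥0) + 1) ^ M * (((k : ℝ≥0) + 1) * C M) := by gcongr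
    exact_mod_cast h2

/-- The first marginal. -/
theorem rad2_fst {k : ℕ} {σ : Measure (V (k + 1) × ℝ)} (h : Rad2 k σ) :
    Rad (k + 1) (σ.map Prod.fst) := by
  have hp := h.prob
  refine ⟨Measure.isProbabilityMeasure_map measurable_fst.aemeasurable, ?_, ?_, ?_⟩
  · exact h.lc.map (LinearMap.fst ℝ (V (k + 1)) ℝ) measurable_fst
  · intro O
    have hm : Measurable fun z : V (k + 1) × ℝ => ((O z.1, z.2) : V (k + 1) × ℝ) := by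
      have : Continuous fun z : V (k + 1) × ℝ => ((O z.1, z.2) : V (k + 1) × ℝ) := by fun_prop
      exact this.measurable
    have hO : Measurable O := O.continuous.measurable
    rw [Measure.map_map hO measurable_fst]
    have h4 : (O ∘ Prod.fst : V (k + 1) × ℝ → V (k + 1))
        = Prod.fst ∘ fun z : V (k + 1) × ℝ => ((O z.1, z.2) : V (k + 1) × ℝ) := rfl
    rw [h4, ← Measure.map_map measurable_fst hm, h.inv O]
  · rw [lintegral_map (by fun_prop) measurable_fst, h.mom]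
    push_cast
    rfl

end Pool.Agent.CB
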