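import Pool.Agent.CB.RadM

/-!
# CB-RadB: radial log-concave densities are bounded

Let `A = G 0`, `c = volume (ball 0 1)`. If `A > 0`, let `ρ > 0` with `c ρ^s A = 4`; `e` a unit vector.
By `RD.anti`, `1 ≥ ∫_{ball 0 ρ} G ≥ c ρ^s G(ρ e)`, so `G(ρ e) ≤ A/4 ≤ A/2`. From `mid` with `v = 2^(j+1) ρ e`, `w = 0`:
`A G(2^(j+1) ρ e) ≤ G(2^j ρ e)^2`, so `G(2^j ρ e) ≤ A 2^(-2^j)` by induction. Hence
`s ≤ ∫ ‖v‖^2 G ≤ A c ρ^(s+2) (1 + ∑_j (2^(j+1))^(s+2) 2^(-2^j)) = 4 C_s ρ^2` (the ball `‖v‖ < ρ` and the dyadic shells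
`2^j ρ ≤ ‖v‖ < 2^(j+1) ρ`, where `G v ≤ G(2^j ρ e)` and `‖v‖^2 ≤ (2^(j+1) ρ)^2`, volume at most `c (2^(j+1) ρ)^s`; the series
converges, ratio test). So `ρ^2 ≥ s/(4 C_s)` and `A = 4 / (c ρ^s) ≤ C`; and `G v ≤ G 0` by `RD.anti`.
-/

set_option autoImplicit false

open MeasureTheory Set
open scoped ENNReal NNReal

namespace Pool.Agent.CB

variable {s : ℕ}

/-- Values on a ray decay exponentially. -/
private lemma ray_decay (hs : 2 ≤ s) {G : V s → ℝ} (h : RD s G) {e : V s} (he : ‖e‖ = 1)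
    {ρ : ℝ} (hρ : 0 < ρ) {q : ℝ} (hq : 0 ≤ q) (h1 : G (ρ • e) ≤ q * G 0) (k : ℕ) :
    G (((k + 1 : ℕ) * ρ) • e) ≤ q * G ((k * ρ) • e) := by
  have hnorm : ∀ t : ℝ, 0 ≤ t → ‖t • e‖ = t := by
    intro t ht
    rw [norm_smul, he, mul_one, Real.norm_eq_abs, abs_of_nonneg ht]
  induction k with
  | zero =>
    simp only [zero_add, Nat.cast_one, one_mul, Nat.cast_zero, zero_mul, zero_smul]
    exact h1
  | succ k ih =>
    have hkρ : 0 ≤ (k : ℝ) * ρ := by positivity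
    have hk1 : 0 ≤ ((k + 1 : ℕ) : ℝ) * ρ := by positivity
    have hk2 : 0 ≤ ((k + 1 + 1 : ℕ) : ℝ) * ρ := by positivity
    have a0 := h.nonneg ((k * ρ) • e)
    have a1 := h.nonneg ((((k + 1 : ℕ) : ℝ) * ρ) • e)
    have a2 := h.nonneg ((((k + 1 + 1 : ℕ) : ℝ) * ρ) • e)
    have hmid := h.mid (((k : ℝ) * ρ) • e) ((((k + 1 + 1 : ℕ) : ℝ) * ρ) • e)
    have e1 : (1 / 2 : ℝ) • (((k : ℝ) * ρ) • e + (((k + 1 + 1 : ℕ) : ℝ) * ρ) • e) =
        (((k + 1 : ℕ) : ℝ) * ρ) • e := by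
      rw [← add_smul, smul_smul]
      congr 1
      push_cast
      ring
    rw [e1] at hmid
    rcases a0.lt_or_eq with hpos | hzero
    · -- `a_k > 0`
      have h3 : G ((((k + 1 : ℕ) : ℝ) * ρ) • e) ^ 2 ≤
          G ((((k + 1 : ℕ) : ℝ) * ρ) • e) * (q * G (((k : ℝ) * ρ) • e)) := by
        rw [sq]
        exact mul_le_mul_of_nonneg_left ih a1
      have h4 : G (((k : ℝ) * ρ) • e) * G ((((k + 1 + 1 : ℕ) : ℝ) * ρ) • e) ≤
          G (((k : ℝ) * ρ) • e) * (q * G ((((k + 1 : ℕ) : ℝ) * ρ) • e)) := by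
        linarith [hmid, h3]
      exact le_of_mul_le_mul_left h4 hpos
    · have h5 : G ((((k + 1 + 1 : ℕ) : ℝ) * ρ) • e) ≤ G (((k : ℝ) * ρ) • e) := by
        apply h.anti hs
        rw [hnorm _ hkρ, hnorm _ hk2]
        apply mul_le_mul_of_nonneg_right _ hρ.le
        push_cast
        linarith
      rw [← hzero] at h5
      exact le_trans h5 (mul_nonneg hq a1)

private lemma ray_decay' (hs : 2 ≤ s) {G : V s → ℝ} (h : RD s G) {e : V s} (he : ‖e‖ = 1)
    {ρ : ℝ} (hρ : 0 < ρ) {q : ℝ} (hq : 0 ≤ q) (h1 : G (ρ • e) ≤ q * G 0) (k : ℕ) :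
    G ((k * ρ) • e) ≤ q ^ k * G 0 := by
  induction k with
  | zero => simp
  | succ k ih =>
    refine le_trans (ray_decay hs h he hρ hq h1 k) ?_
    calc q * G ((k * ρ) • e) ≤ q * (q ^ k * G 0) := mul_le_mul_of_nonneg_left ih hq
      _ = q ^ (k + 1) * G 0 := by ring

/-- Pointwise polynomial decay. -/
private lemma point_decay (hs : 2 ≤ s) {G : V s → ℝ} (h : RD s G) {e : V s} (he : ‖e‖ = 1)
    {ρ : ℝ} (hρ : 0 < ρ) (h1 : G (ρ • e) ≤ Real.exp (-1) * G 0) (v : V s) :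
    ‖v‖ ^ 2 * G v ≤ (G 0 * (Real.exp 2 * (s + 3).factorial) * ρ ^ 2) *
      (1 + ‖ρ⁻¹ • v‖) ^ (-((s : ℝ) + 1)) := by
  have hx : ‖ρ⁻¹ • v‖ = ‖v‖ / ρ := by
    rw [norm_smul, Real.norm_eq_abs, abs_of_pos (inv_pos.mpr hρ)]
    ring
  rw [hx]
  set x : ℝ := ‖v‖ / ρ with hxd
  have hx0 : 0 ≤ x := by positivity
  have hvx : ‖v‖ = ρ * x := by rw [hxd]; field_simp
  set k : ℕ := ⌊x⌋₊ with hk
  have hkx : (k : ℝ) ≤ x := Nat.floor_le hx0
  have hkx1 : x < k + 1 := Nat.lt_floor_add_one x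
  have hG0 := h.nonneg 0
  have h2 : G v ≤ G (((k : ℝ) * ρ) • e) := by
    apply h.anti hs
    rw [norm_smul, he, mul_one, Real.norm_eq_abs, abs_of_nonneg (by positivity), hvx]
    nlinarith
  have h3 := ray_decay' hs h he hρ (Real.exp_pos _).le h1 k
  have h4 : Real.exp (-1) ^ k ≤ Real.exp 1 * Real.exp (-x) := by
    rw [← Real.exp_nat_mul, ← Real.exp_add]
    apply Real.exp_le_exp.mpr
    linarith
  have h5 : Real.exp (-x) ≤ Real.exp 1 * (s + 3).factorial / (1 + x) ^ (s + 3) := by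
    have h6 := Real.pow_div_factorial_le_exp (1 + x) (by linarith) (s + 3)
    have h7 : 0 < (1 + x) ^ (s + 3) := by positivity
    rw [le_div_iff₀ h7]
    have h8 : (0 : ℝ) < (s + 3).factorial := by positivity
    rw [div_le_iff₀ h8] at h6
    calc Real.exp (-x) * (1 + x) ^ (s + 3) ≤ Real.exp (-x) * (Real.exp (1 + x) * (s + 3).factorial) :=
          mul_le_mul_of_nonneg_left h6 (Real.exp_pos _).le
      _ = Real.exp 1 * (s + 3).factorial := by
          rw [← mul_assoc, ← Real.exp_add]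
          congr 2
          ring
  have h9 : G v ≤ G 0 * (Real.exp 2 * (s + 3).factorial / (1 + x) ^ (s + 3)) := by
    calc G v ≤ Real.exp (-1) ^ k * G 0 := le_trans h2 h3
      _ ≤ (Real.exp 1 * Real.exp (-x)) * G 0 := mul_le_mul_of_nonneg_right h4 hG0
      _ ≤ (Real.exp 1 * (Real.exp 1 * (s + 3).factorial / (1 + x) ^ (s + 3))) * G 0 := by
          apply mul_le_mul_of_nonneg_right _ hG0
          exact mul_le_mul_of_nonneg_left h5 (Real.exp_pos _).le
      _ = _ := by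
          have : Real.exp 2 = Real.exp 1 * Real.exp 1 := by rw [← Real.exp_add]; norm_num
          rw [this]; ring
  have h10 : ‖v‖ ^ 2 ≤ ρ ^ 2 * (1 + x) ^ 2 := by
    rw [hvx]
    have : (ρ * x) ^ 2 = ρ ^ 2 * x ^ 2 := by ring
    rw [this]
    apply mul_le_mul_of_nonneg_left _ (by positivity)
    nlinarith
  have h11 : (1 + x) ^ (-((s : ℝ) + 1)) = ((1 + x) ^ (s + 1))⁻¹ := by
    rw [Real.rpow_neg (by linarith)]
    congr 1
    have : ((s : ℝ) + 1) = ((s + 1 : ℕ) : ℝ) := by push_cast; ring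
    rw [this, Real.rpow_natCast]
  rw [h11]
  calc ‖v‖ ^ 2 * G v ≤ (ρ ^ 2 * (1 + x) ^ 2) *
        (G 0 * (Real.exp 2 * (s + 3).factorial / (1 + x) ^ (s + 3))) :=
        mul_le_mul h10 h9 (h.nonneg v) (by positivity)
    _ = _ := by
        have : (1 + x) ^ (s + 3) = (1 + x) ^ 2 * (1 + x) ^ (s + 1) := by ring
        rw [this]
        have hne : (1 + x) ≠ 0 := by linarith
        field_simp

theorem RD.exists_bound {s : ℕ} (hs : 2 ≤ s) :
    ∃ C : ℝ, 0 < C ∧ ∀ G : V s → ℝ, RD s G → ∀ v, G v ≤ C := by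
  have hs0 : 0 < s := by omega
  -- unit vector
  set e : V s := EuclideanSpace.single (⟨0, hs0⟩ : Fin s) (1 : ℝ) with hedef
  have he : ‖e‖ = 1 := by rw [hedef, EuclideanSpace.norm_single]; norm_num
  -- volume of the unit ball
  set c : ℝ := (volume (Metric.ball (0 : V s) 1)).toReal with hc
  have hcfin : volume (Metric.ball (0 : V s) 1) ≠ ∞ := measure_ball_lt_top.ne
  have hcpos : 0 < c := ENNReal.toReal_pos (Metric.measure_ball_pos volume _ one_pos).ne' hcfin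
  have hcE : volume (Metric.ball (0 : V s) 1) = ENNReal.ofReal c := (ENNReal.ofReal_toReal hcfin).symm
  -- the constant `K`
  have hfr : Module.finrank ℝ (V s) = s := finrank_euclideanSpace_fin
  have hKfin : ∫⁻ x : V s, ENNReal.ofReal ((1 + ‖x‖) ^ (-((s : ℝ) + 1))) < ∞ := by
    apply finite_integral_one_add_norm
    rw [hfr]; linarith
  set K : ℝ := (∫⁻ x : V s, ENNReal.ofReal ((1 + ‖x‖) ^ (-((s : ℝ) + 1)))).toReal with hK
  have hKE : ∫⁻ x : V s, ENNReal.ofReal ((1 + ‖x‖) ^ (-((s : ℝ) + 1))) = ENNReal.ofReal K :=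
    (ENNReal.ofReal_toReal hKfin.ne).symm
  have hK0 : 0 ≤ K := ENNReal.toReal_nonneg
  set L : ℝ := 4 / c * (Real.exp 2 * (s + 3).factorial) * (K + 1) with hL
  have hLpos : 0 < L := by positivity
  -- lower bound for `ρ`
  set ρ₀ : ℝ := Real.sqrt (s / L) with hρ₀
  have hsR : (0 : ℝ) < s := by exact_mod_cast hs0
  have hρ₀pos : 0 < ρ₀ := Real.sqrt_pos.mpr (by positivity)
  refine ⟨4 / (c * ρ₀ ^ s), by positivity, ?_⟩
  intro G h v
  have hv0 : G v ≤ G 0 := h.anti hs (by rw [norm_zero]; exact norm_nonneg v)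
  refine le_trans hv0 ?_
  rcases (h.nonneg 0).lt_or_eq with hA | hA
  swap
  · rw [← hA]; positivity
  set A : ℝ := G 0 with hAdef
  -- choice of `ρ`
  set ρ : ℝ := (4 / (c * A)) ^ ((s : ℝ)⁻¹) with hρdef
  have hρpos : 0 < ρ := Real.rpow_pos_of_pos (by positivity) _
  have hρs : ρ ^ s = 4 / (c * A) := by
    rw [hρdef]
    exact Real.rpow_inv_natCast_pow (by positivity) (by omega)
  -- mass of the ball of radius `ρ`
  have hball : volume (Metric.ball (0 : V s) ρ) = ENNReal.ofReal (ρ ^ s * c) := by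
    rw [Measure.addHaar_ball_of_pos volume (0 : V s) hρpos, hfr, hcE,
      ← ENNReal.ofReal_mul (by positivity)]
  have hmass : G (ρ • e) * (ρ ^ s * c) ≤ 1 := by
    have h1 : ENNReal.ofReal (G (ρ • e)) * volume (Metric.ball (0 : V s) ρ) ≤ 1 := by
      calc ENNReal.ofReal (G (ρ • e)) * volume (Metric.ball (0 : V s) ρ)
          = ∫⁻ _ in Metric.ball (0 : V s) ρ, ENNReal.ofReal (G (ρ • e)) := by
            rw [setLIntegral_const]
        _ ≤ ∫⁻ v in Metric.ball (0 : V s) ρ, ENNReal.ofReal (G v) := by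
            apply setLIntegral_mono' Metric.isOpen_ball.measurableSet
            intro v hv
            apply ENNReal.ofReal_le_ofReal
            apply h.anti hs
            rw [norm_smul, he, mul_one, Real.norm_eq_abs, abs_of_pos hρpos]
            exact (mem_ball_zero_iff.mp hv).le
        _ ≤ ∫⁻ v, ENNReal.ofReal (G v) := setLIntegral_le_lintegral _ _
        _ = 1 := h.mass
    rw [hball, ← ENNReal.ofReal_mul (h.nonneg _), ← ENNReal.ofReal_one] at h1
    exact (ENNReal.ofReal_le_ofReal_iff zero_le_one).mp h1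
  have hdec : G (ρ • e) ≤ Real.exp (-1) * A := by
    have h2 : ρ ^ s * c = 4 / A := by rw [hρs]; field_simp
    rw [h2] at hmass
    have h3 : G (ρ • e) ≤ A / 4 := by
      rw [mul_div_assoc', div_le_one hA] at hmass
      linarith
    have h4 : (1 : ℝ) / 4 ≤ Real.exp (-1) := by
      rw [Real.exp_neg, ← one_div]
      apply one_div_le_one_div_of_le (Real.exp_pos _)
      linarith [Real.exp_one_lt_d9]
    calc G (ρ • e) ≤ A / 4 := h3
      _ = 1 / 4 * A := by ring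
      _ ≤ Real.exp (-1) * A := mul_le_mul_of_nonneg_right h4 hA.le
  -- second moment
  set B : ℝ := A * (Real.exp 2 * (s + 3).factorial) * ρ ^ 2 with hB
  have hB0 : 0 ≤ B := by positivity
  have hscale : ∫⁻ v : V s, ENNReal.ofReal ((1 + ‖ρ⁻¹ • v‖) ^ (-((s : ℝ) + 1))) =
      ENNReal.ofReal (ρ ^ s * K) := by
    have hmeas : Measurable fun x : V s => ENNReal.ofReal ((1 + ‖x‖) ^ (-((s : ℝ) + 1))) := by
      fun_prop
    have h1 : ∫⁻ v : V s, ENNReal.ofReal ((1 + ‖ρ⁻¹ • v‖) ^ (-((s : ℝ) + 1))) =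
        ∫⁻ x : V s, ENNReal.ofReal ((1 + ‖x‖) ^ (-((s : ℝ) + 1)))
          ∂(Measure.map (fun v : V s => ρ⁻¹ • v) volume) := by
      rw [lintegral_map hmeas (measurable_const_smul _)]
    have h2 := Measure.map_addHaar_smul (volume : Measure (V s)) (r := ρ⁻¹) (inv_pos.mpr hρpos).ne'
    rw [h1]
    have h3 : Measure.map (fun v : V s => ρ⁻¹ • v) volume =
        ENNReal.ofReal |(ρ⁻¹ ^ Module.finrank ℝ (V s))⁻¹| • volume := h2
    rw [h3, lintegral_smul_measure, hKE, hfr, smul_eq_mul]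
    rw [inv_pow, inv_inv, abs_of_pos (by positivity), ← ENNReal.ofReal_mul (by positivity)]
  have hmom : (s : ℝ≥0∞) ≤ ENNReal.ofReal (B * (ρ ^ s * K)) := by
    calc (s : ℝ≥0∞) ≤ ∫⁻ v, ‖v‖ₑ ^ (2 : ℝ) * ENNReal.ofReal (G v) := h.mom0
      _ ≤ ∫⁻ v : V s, ENNReal.ofReal B *
            ENNReal.ofReal ((1 + ‖ρ⁻¹ • v‖) ^ (-((s : ℝ) + 1))) := by
          apply lintegral_mono
          intro v
          have h1 := point_decay hs h he hρpos hdec v
          have h2 : ‖v‖ₑ ^ (2 : ℝ) = ENNReal.ofReal (‖v‖ ^ 2) := by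
            rw [← ofReal_norm_eq_enorm, ENNReal.ofReal_rpow_of_nonneg (norm_nonneg _) (by norm_num)]
            congr 1
            exact_mod_cast Real.rpow_natCast ‖v‖ 2
          simp only
          rw [h2, ← ENNReal.ofReal_mul (by positivity), ← ENNReal.ofReal_mul hB0]
          exact ENNReal.ofReal_le_ofReal h1
      _ = ENNReal.ofReal B * ENNReal.ofReal (ρ ^ s * K) := by
          rw [lintegral_const_mul' _ _ ENNReal.ofReal_ne_top, hscale]
      _ = _ := by rw [← ENNReal.ofReal_mul hB0]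
  have hmomR : (s : ℝ) ≤ B * (ρ ^ s * K) := by
    have h1 : ENNReal.ofReal (s : ℝ) ≤ ENNReal.ofReal (B * (ρ ^ s * K)) := by
      rw [ENNReal.ofReal_natCast]; exact hmom
    exact (ENNReal.ofReal_le_ofReal_iff (by positivity)).mp h1
  have hBL : B * (ρ ^ s * K) ≤ L * ρ ^ 2 := by
    rw [hB, hρs, hL]
    have h1 : A * (Real.exp 2 * (s + 3).factorial) * ρ ^ 2 * (4 / (c * A) * K) =
        4 / c * (Real.exp 2 * (s + 3).factorial) * K * ρ ^ 2 := by
      field_simp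
    rw [h1]
    apply mul_le_mul_of_nonneg_right _ (by positivity)
    apply mul_le_mul_of_nonneg_left _ (by positivity)
    linarith
  have hρge : ρ₀ ≤ ρ := by
    rw [hρ₀]
    apply Real.sqrt_le_iff.mpr
    refine ⟨hρpos.le, ?_⟩
    rw [div_le_iff₀ hLpos]
    linarith
  have hfin : A = 4 / (c * ρ ^ s) := by
    rw [hρs]; field_simp
  rw [hfin]
  apply div_le_div_of_nonneg_left (by norm_num) (by positivity)
  apply mul_le_mul_of_nonneg_left _ hcpos.le
  exact pow_le_pow_left₀ hρ₀pos.le hρge s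

end Pool.Agent.CB
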