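import Pool.Agent.CB.CDefs

/-!
# CB-RadM: radial log-concave densities are decreasing

Let `‖v‖ ≤ ‖w‖ = R`. Choose `z ⊥ v` with `‖z‖^2 = R^2 - ‖v‖^2` (`s ≥ 2`; the orthogonal
complement of the span of `v` is not zero). `v + z` and `v - z` have norm `R` and midpoint `v`, so `mid` and `rad` give
`G w ^ 2 ≤ G v ^ 2`.
-/

set_option autoImplicit false

open MeasureTheory Set
open scoped ENNReal NNReal

namespace Pool.Agent.CB

variable {s : ℕ}

private theorem exists_orth (hs : 2 ≤ s) (v : V s) : ∃ z : V s, z ≠ 0 ∧ inner ℝ v z = 0 := by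
  have h1 : Module.finrank ℝ (Submodule.span ℝ {v}) ≤ 1 := by
    have := finrank_span_le_card (R := ℝ) ({v} : Set (V s))
    simpa using this
  have h2 : Module.finrank ℝ (Submodule.span ℝ {v}) +
      Module.finrank ℝ (Submodule.span ℝ {v})ᗮ = s := by
    rw [Submodule.finrank_add_finrank_orthogonal]
    simp
  have h3 : 0 < Module.finrank ℝ (Submodule.span ℝ {v})ᗮ := by omega
  obtain ⟨z, hz⟩ := Module.finrank_pos_iff_exists_ne_zero.1 h3
  refine ⟨z, fun h => hz (Subtype.ext h), ?_⟩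
  exact (Submodule.mem_orthogonal_singleton_iff_inner_right.1 z.2)

theorem RD.anti (hs : 2 ≤ s) {G : V s → ℝ} (h : RD s G) {v w : V s} (hvw : ‖v‖ ≤ ‖w‖) :
    G w ≤ G v := by
  obtain ⟨z0, hz0, hin⟩ := exists_orth hs v
  have hn0 : 0 < ‖z0‖ := norm_pos_iff.2 hz0
  have hR : 0 ≤ ‖w‖ ^ 2 - ‖v‖ ^ 2 := by
    have := pow_le_pow_left₀ (norm_nonneg v) hvw 2
    linarith
  set c : ℝ := Real.sqrt (‖w‖ ^ 2 - ‖v‖ ^ 2) / ‖z0‖ with hc
  set z : V s := c • z0 with hz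
  have hzn : ‖z‖ ^ 2 = ‖w‖ ^ 2 - ‖v‖ ^ 2 := by
    have hc0 : 0 ≤ c := div_nonneg (Real.sqrt_nonneg _) hn0.le
    rw [hz, norm_smul, Real.norm_of_nonneg hc0, hc, div_mul_cancel₀ _ hn0.ne', Real.sq_sqrt hR]
  have hvz : inner ℝ v z = 0 := by rw [hz, inner_smul_right, hin, mul_zero]
  have h1 : ‖v + z‖ = ‖w‖ := by
    have : ‖v + z‖ ^ 2 = ‖w‖ ^ 2 := by
      rw [norm_add_sq_real, hvz, hzn]; ring
    exact (pow_left_inj₀ (norm_nonneg _) (norm_nonneg _) two_ne_zero).1 this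
  have h2 : ‖v - z‖ = ‖w‖ := by
    have : ‖v - z‖ ^ 2 = ‖w‖ ^ 2 := by
      rw [norm_sub_sq_real, hvz, hzn]; ring
    exact (pow_left_inj₀ (norm_nonneg _) (norm_nonneg _) two_ne_zero).1 this
  have hm := h.mid (v + z) (v - z)
  have e : (1 / 2 : ℝ) • (v + z + (v - z)) = v := by
    have : v + z + (v - z) = (2 : ℝ) • v := by rw [two_smul]; abel
    rw [this, smul_smul]
    norm_num
  rw [e, h.rad _ _ h1, h.rad _ _ h2] at hm
  have hm' : G w ^ 2 ≤ G v ^ 2 := by nlinarith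
  exact (pow_le_pow_iff_left₀ (h.nonneg w) (h.nonneg v) two_ne_zero).1 hm'

end Pool.Agent.CB
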