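import Pool.Agent.CB.TjB
import Pool.Agent.CB.GaussB

/-!
# CB-TeleA: the telescoping decomposition

For `f` continuous with compact support and `n ≥ 1`, for all natural `M`,
`cv (dil (exp (-M)) (gam n)) f - cv (dil (exp (M+1)) (gam n)) f = ∑_{k=-M}^{M} Qg k f`, which tends to `f`
uniformly as `M → ∞` (`cv_gam_small`, `cv_gam_large'`); `Nt μ t` is linear and
`|Nt μ t g x| ≤ 2 sup |g|` (`abs_cv_le_of_bdd`), so `Nt μ t f x = lim_M ∑_{k=-M}^M Nt μ t (Qg k f) x`. Reindex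
`k = ⌊log t⌋ + j`; for `t ∈ S`, `‖Nt μ t (Qg (⌊log t⌋ + j) f) x‖ₑ ≤ Tj μ S j f x`. So for every `M`
`‖∑_{k=-M}^M ..‖ₑ ≤ ∑' j, Tj μ S j f x`; pass to the limit.
-/

set_option autoImplicit false

open MeasureTheory Set Filter
open scoped ENNReal NNReal Topology

namespace Pool.Agent.CB

private theorem Nt_add' {n : ℕ} {μ : Measure (V n)} [IsProbabilityMeasure μ] (t : ℝ)
    {f g : V n → ℝ} (hf : Nice f) (hg : Nice g) (x : V n) :
    Nt μ t (fun y => f y + g y) x = Nt μ t f x + Nt μ t g x := by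
  have := isProb_dil (μ := μ) t
  have := isProb_dil (μ := gam n) t
  unfold Nt
  rw [cv_add hf hg, cv_add hf hg]
  ring

private theorem nice_sum {n : ℕ} (F : ℕ → V n → ℝ) (hF : ∀ i, Nice (F i)) (m : ℕ) :
    Nice (fun y => ∑ i ∈ Finset.range m, F i y) := by
  induction m with
  | zero =>
    simp only [Finset.range_zero, Finset.sum_empty]
    exact ⟨continuous_const, ⟨0, fun x => by simp⟩, integrable_zero _ _ _⟩
  | succ m ih =>
    simp only [Finset.sum_range_succ]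
    exact ih.add (hF m)

private theorem Nt_zero' {n : ℕ} {μ : Measure (V n)} (t : ℝ) (x : V n) :
    Nt μ t (fun _ => 0) x = 0 := by
  unfold Nt cv
  simp

private theorem Nt_sum' {n : ℕ} {μ : Measure (V n)} [IsProbabilityMeasure μ] (t : ℝ)
    (F : ℕ → V n → ℝ) (hF : ∀ i, Nice (F i)) (m : ℕ) (x : V n) :
    Nt μ t (fun y => ∑ i ∈ Finset.range m, F i y) x = ∑ i ∈ Finset.range m, Nt μ t (F i) x := by
  induction m with
  | zero =>
    simp only [Finset.range_zero, Finset.sum_empty]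
    exact Nt_zero' t x
  | succ m ih =>
    simp only [Finset.sum_range_succ]
    rw [Nt_add' t (nice_sum F hF m) (hF m), ih]

private theorem Nt_le' {n : ℕ} {μ : Measure (V n)} [IsProbabilityMeasure μ] (t : ℝ)
    {f : V n → ℝ} {C : ℝ} (hf : ∀ x, |f x| ≤ C) (x : V n) : |Nt μ t f x| ≤ 2 * C := by
  have := isProb_dil (μ := μ) t
  have := isProb_dil (μ := gam n) t
  unfold Nt
  have h1 := abs_cv_le_of_bdd (μ := dil t μ) hf x
  have h2 := abs_cv_le_of_bdd (μ := dil t (gam n)) hf x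
  rw [abs_le] at *
  constructor <;> linarith [h1.1, h1.2, h2.1, h2.2]

theorem tele {n : ℕ} (hn : 1 ≤ n) {μ : Measure (V n)} [IsProbabilityMeasure μ] {S : Finset ℝ}
    (hS : ∀ t ∈ S, 0 < t) {f : V n → ℝ} (hf : Continuous f) (hc : HasCompactSupport f)
    {t : ℝ} (ht : t ∈ S) (x : V n) :
    ‖Nt μ t f x‖ₑ ≤ ∑' j : ℤ, (Tj μ S j f x : ℝ≥0∞) := by
  have hnf : Nice f := Nice.of_continuous hf hc
  have key : ∀ ε : ℝ, 0 < ε → ‖Nt μ t f x‖ₑ ≤ (∑' j : ℤ, (Tj μ S j f x : ℝ≥0∞)) +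
      ENNReal.ofReal (4 * ε) := by
    intro ε hε
    obtain ⟨T1, hT1⟩ := cv_gam_large' hn hnf ε hε
    obtain ⟨T2, hT2p, hT2⟩ := cv_gam_small hf hc ε hε
    -- choose `M` large
    obtain ⟨M, hM1, hM2⟩ : ∃ M : ℕ, T1 ≤ Real.exp ((M : ℝ) + 1) ∧ Real.exp (-(M : ℝ)) ≤ T2 := by
      obtain ⟨M, hM⟩ := exists_nat_ge (max T1 (-Real.log T2))
      refine ⟨M, ?_, ?_⟩
      · have h1 : T1 ≤ M := (le_max_left _ _).trans hM
        have h2 := Real.add_one_le_exp ((M : ℝ) + 1)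
        linarith
      · have h1 : -Real.log T2 ≤ M := (le_max_right _ _).trans hM
        calc Real.exp (-(M : ℝ)) ≤ Real.exp (Real.log T2) := Real.exp_le_exp.mpr (by linarith)
          _ = T2 := Real.exp_log hT2p
    set F : ℕ → V n → ℝ := fun i => Qg (-(M : ℤ) + i) f with hF
    have hFn : ∀ i, Nice (F i) := fun i => nice_Qg _ hnf
    have hsum : ∀ y, ∑ i ∈ Finset.range (2 * M + 1), F i y =
        cv (dil (Real.exp (-(M : ℝ))) (gam n)) f y - cv (dil (Real.exp ((M : ℝ) + 1)) (gam n)) f y := by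
      intro y
      have h := Finset.sum_range_sub' (fun i : ℕ => cv (dil (Real.exp (-(M : ℝ) + i)) (gam n)) f y)
        (2 * M + 1)
      have e1 : ∀ i : ℕ, F i y = cv (dil (Real.exp (-(M : ℝ) + i)) (gam n)) f y -
          cv (dil (Real.exp (-(M : ℝ) + (i + 1 : ℕ))) (gam n)) f y := by
        intro i
        simp only [hF, Qg]
        push_cast
        rw [add_assoc]
      rw [Finset.sum_congr rfl (fun i _ => e1 i), h]
      have e2 : -(M : ℝ) + ((0 : ℕ) : ℝ) = -(M : ℝ) := by simp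
      have e3 : -(M : ℝ) + ((2 * M + 1 : ℕ) : ℝ) = (M : ℝ) + 1 := by push_cast; ring
      rw [e2, e3]
    have hns : Nice (fun y => ∑ i ∈ Finset.range (2 * M + 1), F i y) := nice_sum F hFn _
    have hr : Nice (fun y => f y - ∑ i ∈ Finset.range (2 * M + 1), F i y) := hnf.sub hns
    have hrb : ∀ y, |f y - ∑ i ∈ Finset.range (2 * M + 1), F i y| ≤ 2 * ε := by
      intro y
      rw [hsum y]
      have h1 := hT1 (Real.exp ((M : ℝ) + 1)) hM1 y
      have h2 := hT2 (Real.exp (-(M : ℝ))) (Real.exp_pos _).le hM2 y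
      rw [abs_le] at *
      constructor <;> linarith [h1.1, h1.2, h2.1, h2.2]
    have hdec : Nt μ t f x = (∑ i ∈ Finset.range (2 * M + 1), Nt μ t (F i) x) +
        Nt μ t (fun y => f y - ∑ i ∈ Finset.range (2 * M + 1), F i y) x := by
      rw [← Nt_sum' t F hFn, ← Nt_add' t hns hr]
      congr 1
      ext y
      ring
    rw [hdec]
    refine (enorm_add_le _ _).trans (add_le_add ?_ ?_)
    · refine (enorm_sum_le _ _).trans ?_
      have h1 : ∀ i : ℕ, ‖Nt μ t (F i) x‖ₑ ≤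
          (Tj μ S (-(M : ℤ) + i - ⌊Real.log t⌋) f x : ℝ≥0∞) := by
        intro i
        have h2 : ‖Nt μ t (Qg (⌊Real.log t⌋ + (-(M : ℤ) + i - ⌊Real.log t⌋)) f) x‖₊ ≤
            Tj μ S (-(M : ℤ) + i - ⌊Real.log t⌋) f x := by
          generalize -(M : ℤ) + i - ⌊Real.log t⌋ = j
          unfold Tj
          exact Finset.le_sup (f := fun t => ‖Nt μ t (Qg (⌊Real.log t⌋ + j) f) x‖₊) ht
        have e : ⌊Real.log t⌋ + (-(M : ℤ) + i - ⌊Real.log t⌋) = -(M : ℤ) + i := by ring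
        rw [e] at h2
        rw [enorm_eq_nnnorm]
        exact_mod_cast h2
      calc ∑ i ∈ Finset.range (2 * M + 1), ‖Nt μ t (F i) x‖ₑ
          ≤ ∑ i ∈ Finset.range (2 * M + 1), (Tj μ S (-(M : ℤ) + i - ⌊Real.log t⌋) f x : ℝ≥0∞) :=
            Finset.sum_le_sum fun i _ => h1 i
        _ ≤ ∑' i : ℕ, (Tj μ S (-(M : ℤ) + i - ⌊Real.log t⌋) f x : ℝ≥0∞) := ENNReal.sum_le_tsum _
        _ ≤ ∑' j : ℤ, (Tj μ S j f x : ℝ≥0∞) :=
            ENNReal.tsum_comp_le_tsum_of_injective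
              (f := fun i : ℕ => -(M : ℤ) + i - ⌊Real.log t⌋)
              (fun a b hab => by simpa using hab) (fun j => (Tj μ S j f x : ℝ≥0∞))
    · have h1 := Nt_le' (μ := μ) t hrb x
      rw [Real.enorm_eq_ofReal_abs]
      exact ENNReal.ofReal_le_ofReal (by linarith)
  apply ENNReal.le_of_forall_pos_le_add
  intro δ hδ _
  have h := key ((δ : ℝ) / 4) (by have : (0 : ℝ) < δ := by exact_mod_cast hδ
                                  positivity)
  have e : 4 * ((δ : ℝ) / 4) = δ := by ring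
  rw [e, ENNReal.ofReal_coe_nnreal] at h
  exact h

end Pool.Agent.CB
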