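import Pool.Agent.CB.Gauss

/-!
# CB-TjB: elementary properties of the pieces `Tj`

Measurability: a finite supremum of norms of continuous functions (`nice_cv`, `nice_Qg`). Subadditivity: `cv`,
hence `Qg` and `Nt`, are linear on nice functions.
-/

set_option autoImplicit false

open MeasureTheory Set
open scoped ENNReal NNReal

namespace Pool.Agent.CB

variable {n : ℕ}

private theorem prob_dil {μ : Measure (V n)} [IsProbabilityMeasure μ] (t : ℝ) :
    IsProbabilityMeasure (dil t μ) := by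
  unfold dil
  exact Measure.isProbabilityMeasure_map (by fun_prop)

theorem nice_Nt {μ : Measure (V n)} [IsProbabilityMeasure μ] (t : ℝ) {f : V n → ℝ}
    (hf : Nice f) : Nice (Nt μ t f) := by
  have := prob_dil (μ := μ) t
  have := prob_dil (μ := gam n) t
  exact (nice_cv hf).sub (nice_cv hf)

theorem measurable_Tj {μ : Measure (V n)} [IsProbabilityMeasure μ] (S : Finset ℝ) (j : ℤ)
    {f : V n → ℝ} (hf : Nice f) : Measurable (Tj μ S j f) := by
  have h : Continuous (Tj μ S j f) := by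
    unfold Tj
    refine Continuous.finset_sup_apply fun t _ => ?_
    exact (nice_Nt t (nice_Qg _ hf)).cont.nnnorm
  exact h.measurable

private theorem Qg_add (j : ℤ) {f g : V n → ℝ} (hf : Nice f) (hg : Nice g) :
    Qg j (fun y => f y + g y) = fun y => Qg j f y + Qg j g y := by
  have := prob_dil (μ := gam n) (Real.exp j)
  have := prob_dil (μ := gam n) (Real.exp (j + 1))
  funext x
  unfold Qg
  rw [cv_add hf hg, cv_add hf hg]
  ring

private theorem Nt_add {μ : Measure (V n)} [IsProbabilityMeasure μ] (t : ℝ) {f g : V n → ℝ}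
    (hf : Nice f) (hg : Nice g) (x : V n) :
    Nt μ t (fun y => f y + g y) x = Nt μ t f x + Nt μ t g x := by
  have := prob_dil (μ := μ) t
  have := prob_dil (μ := gam n) t
  unfold Nt
  rw [cv_add hf hg, cv_add hf hg]
  ring

theorem Tj_add {μ : Measure (V n)} [IsProbabilityMeasure μ] (S : Finset ℝ) (j : ℤ)
    {f g : V n → ℝ} (hf : Nice f) (hg : Nice g) (x : V n) :
    Tj μ S j (fun y => f y + g y) x ≤ Tj μ S j f x + Tj μ S j g x := by
  unfold Tj
  refine Finset.sup_le fun t ht => ?_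
  rw [Qg_add _ hf hg, Nt_add t (nice_Qg _ hf) (nice_Qg _ hg)]
  refine (nnnorm_add_le _ _).trans (add_le_add ?_ ?_)
  · exact Finset.le_sup (f := fun t => ‖Nt μ t (Qg (⌊Real.log t⌋ + j) f) x‖₊) ht
  · exact Finset.le_sup (f := fun t => ‖Nt μ t (Qg (⌊Real.log t⌋ + j) g) x‖₊) ht

/-- The piece is dominated by the vector-valued maximal functions of `μ` and of the Gaussian. -/
theorem Tj_le {μ : Measure (V n)} [IsProbabilityMeasure μ] (S : Finset ℝ) (j : ℤ)
    {f : V n → ℝ} (hf : Nice f) (x : V n) :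
    (Tj μ S j f x : ℝ≥0∞) ≤
      (∑ k ∈ S.image (fun t => ⌊Real.log t⌋),
        (MX.mx μ (S.filter fun t => ⌊Real.log t⌋ = k) (fun y => ‖Qg (k + j) f y‖ₑ) x +
          MX.mx (gam n) (S.filter fun t => ⌊Real.log t⌋ = k)
            (fun y => ‖Qg (k + j) f y‖ₑ) x) ^ (2 : ℝ)) ^ (1 / (2 : ℝ)) := by
  unfold Tj
  rw [ENNReal.coe_finset_sup]
  refine Finset.sup_le fun t ht => ?_
  have hgn := nice_Qg (⌊Real.log t⌋ + j) hf
  have htm : t ∈ S.filter fun s => ⌊Real.log s⌋ = ⌊Real.log t⌋ := Finset.mem_filter.2 ⟨ht, rfl⟩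
  have h1 : ‖Nt μ t (Qg (⌊Real.log t⌋ + j) f) x‖ₑ ≤
      MX.mx μ (S.filter fun s => ⌊Real.log s⌋ = ⌊Real.log t⌋)
        (fun y => ‖Qg (⌊Real.log t⌋ + j) f y‖ₑ) x +
      MX.mx (gam n) (S.filter fun s => ⌊Real.log s⌋ = ⌊Real.log t⌋)
        (fun y => ‖Qg (⌊Real.log t⌋ + j) f y‖ₑ) x := by
    unfold Nt
    refine (enorm_sub_le).trans (add_le_add ?_ ?_)
    · refine (enorm_cv_dil_le μ t hgn.cont.measurable x).trans ?_
      unfold MX.mx
      exact le_iSup₂_of_le t htm le_rfl
    · refine (enorm_cv_dil_le (gam n) t hgn.cont.measurable x).trans ?_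
      unfold MX.mx
      exact le_iSup₂_of_le t htm le_rfl
  refine h1.trans ?_
  rw [one_div, ENNReal.le_rpow_inv_iff (by norm_num : (0 : ℝ) < 2)]
  exact Finset.single_le_sum (f := fun k =>
    (MX.mx μ (S.filter fun t => ⌊Real.log t⌋ = k) (fun y => ‖Qg (k + j) f y‖ₑ) x +
          MX.mx (gam n) (S.filter fun t => ⌊Real.log t⌋ = k)
            (fun y => ‖Qg (k + j) f y‖ₑ) x) ^ (2 : ℝ)) (fun _ _ => zero_le)
    (Finset.mem_image_of_mem _ ht)

end Pool.Agent.CB
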