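import Pool.Agent.CB.VVa
import Pool.Agent.MX.Basic

/-!
# CB-VV: vector-valued maximal inequality for pieces in one octave

`θ = 1 - p0/2`; `v`, `u i` from `vv_factor`, `W = (∑ i, g i ^2)^(r/2)`. Hölder for the average over the probability
measure `μ` with exponents `2/p0 = 1/(1-θ)` and `1/θ`: `mx μ (S i) (g i) ≤ (mx μ (S i) (u i))^(1-θ) * (mx μ U v)^θ`,
`U = I.biUnion S`. Hence
`(∑ i, mx μ (S i) (g i)^2)^(r/2) ≤ (∑ i, mx μ (S i) (u i)^p0)^(r/2) * (mx μ U v)^(θ r)`, and by Hölder with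
exponents `2/r` and `q/(θ r)` (`r/2 + θ r/q = 1`), then `hD`, `hB`:
`∫ ≤ (D^p0 ∑ i ∫ u i^p0)^(r/2) * (B^q ∫ v^q)^(θ r/q) ≤ D^(p0 r/2) B^(θ r) (∫ W)^(r/2 + θ r/q)`.
`ENNReal.lintegral_mul_le_Lp_mul_Lq`, `Real.HolderConjugate`; no case distinction for `0`, `∞` is needed:
`ENNReal.rpow_add_of_nonneg`, `ENNReal.mul_rpow_of_nonneg`.
-/

set_option autoImplicit false

open MeasureTheory Set
open scoped ENNReal NNReal

namespace Pool.Agent.CB

variable {n : ℕ}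

/-- Hölder for the maximal function over finitely many dilations. -/
private theorem mx_holder {μ : Measure (V n)} {S U : Finset ℝ} (hSU : S ⊆ U) {a θ : ℝ}
    (ha : 0 ≤ a) (hθ : 0 ≤ θ) (haθ : a + θ = 1) {g u v : V n → ℝ≥0∞}
    (hu : Measurable u) (hv : Measurable v) (hg : ∀ x, g x = u x ^ a * v x ^ θ) (x : V n) :
    MX.mx μ S g x ≤ MX.mx μ S u x ^ a * MX.mx μ U v x ^ θ := by
  unfold MX.mx
  refine iSup₂_le fun t ht => ?_
  have hmu : Measurable fun y : V n => u (x + t • y) :=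
    hu.comp (measurable_const.add (measurable_id.const_smul t))
  have hmv : Measurable fun y : V n => v (x + t • y) :=
    hv.comp (measurable_const.add (measurable_id.const_smul t))
  calc ∫⁻ y, g (x + t • y) ∂μ = ∫⁻ y, u (x + t • y) ^ a * v (x + t • y) ^ θ ∂μ := by
        refine lintegral_congr fun y => hg _
    _ ≤ (∫⁻ y, u (x + t • y) ∂μ) ^ a * (∫⁻ y, v (x + t • y) ∂μ) ^ θ :=
        ENNReal.lintegral_mul_norm_pow_le hmu.aemeasurable hmv.aemeasurable ha hθ haθ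
    _ ≤ _ := by
        refine mul_le_mul' (ENNReal.rpow_le_rpow ?_ ha) (ENNReal.rpow_le_rpow ?_ hθ)
        · exact le_iSup₂_of_le (f := fun t (_ : t ∈ S) => ∫⁻ y, u (x + t • y) ∂μ) t ht le_rfl
        · exact le_iSup₂_of_le (f := fun t (_ : t ∈ U) => ∫⁻ y, v (x + t • y) ∂μ) t (hSU ht) le_rfl

theorem vv {μ : Measure (V n)} [IsProbabilityMeasure μ] {p0 q r : ℝ} (h0 : 1 < p0) (h1 : p0 < 2)
    (hq : 1 < q) (hr : 1 / r = 1 / 2 + (1 - p0 / 2) / q) {D B : ℝ≥0∞}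
    (hD : LocBdd p0 D μ) (hB : MX.BddF q B μ) {ι : Type} (I : Finset ι) (k : ι → ℝ)
    (S : ι → Finset ℝ) (hS : ∀ i ∈ I, ∀ t ∈ S i, Real.exp (k i) ≤ t ∧ t ≤ Real.exp (k i + 1))
    (g : ι → V n → ℝ≥0∞) (hg : ∀ i, Measurable (g i)) (hfin : ∀ i x, g i x ≠ ∞) :
    ∫⁻ x, (∑ i ∈ I, MX.mx μ (S i) (g i) x ^ (2 : ℝ)) ^ (r / 2) ≤
      (D ^ (p0 / 2) * B ^ (1 - p0 / 2)) ^ r * ∫⁻ x, (∑ i ∈ I, g i x ^ (2 : ℝ)) ^ (r / 2) := by
  classical
  obtain ⟨v, u, hv, hu, hguv, hvq, hup⟩ := vv_factor h0 h1 hq hr I g hg hfin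
  set θ : ℝ := 1 - p0 / 2 with hθdef
  have hθ : 0 < θ := by rw [hθdef]; linarith
  have ha : 0 < p0 / 2 := by linarith
  have haθ : p0 / 2 + θ = 1 := by rw [hθdef]; ring
  have hq0 : 0 < q := by linarith
  have hr0 : 0 < r := by
    have h2 : 0 < 1 / r := by
      rw [hr]; positivity
    exact one_div_pos.1 h2
  have hr2 : 0 ≤ r / 2 := by linarith
  have hsum : r / 2 + θ * r / q = 1 := by
    have h2 : r * (1 / r) = 1 := by field_simp
    rw [hr] at h2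
    calc r / 2 + θ * r / q = r * (1 / 2 + θ / q) := by ring
      _ = 1 := h2
  have hθr : 0 ≤ θ * r / q := by positivity
  set U : Finset ℝ := I.biUnion S with hU
  set W : V n → ℝ≥0∞ := fun x => (∑ i ∈ I, g i x ^ (2 : ℝ)) ^ (r / 2) with hW
  have hmM : ∀ i, Measurable (MX.mx μ (S i) (u i)) := fun i => MX.measurable_mx μ (S i) (hu i)
  have hmN : Measurable (MX.mx μ U v) := MX.measurable_mx μ U hv
  -- pointwise bound
  have hpt : ∀ x, (∑ i ∈ I, MX.mx μ (S i) (g i) x ^ (2 : ℝ)) ^ (r / 2) ≤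
      (∑ i ∈ I, MX.mx μ (S i) (u i) x ^ p0) ^ (r / 2) * (MX.mx μ U v x ^ q) ^ (θ * r / q) := by
    intro x
    have h2 : ∑ i ∈ I, MX.mx μ (S i) (g i) x ^ (2 : ℝ) ≤
        (∑ i ∈ I, MX.mx μ (S i) (u i) x ^ p0) * MX.mx μ U v x ^ (2 * θ) := by
      rw [Finset.sum_mul]
      refine Finset.sum_le_sum fun i hi => ?_
      have h3 := mx_holder (μ := μ) (Finset.subset_biUnion_of_mem S hi) ha.le hθ.le haθ (hu i) hv
        (hguv i hi) x
      calc MX.mx μ (S i) (g i) x ^ (2 : ℝ)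
          ≤ (MX.mx μ (S i) (u i) x ^ (p0 / 2) * MX.mx μ U v x ^ θ) ^ (2 : ℝ) :=
            ENNReal.rpow_le_rpow h3 (by norm_num)
        _ = MX.mx μ (S i) (u i) x ^ p0 * MX.mx μ U v x ^ (2 * θ) := by
            rw [ENNReal.mul_rpow_of_nonneg _ _ (by norm_num), ← ENNReal.rpow_mul,
              ← ENNReal.rpow_mul]
            congr 2 <;> ring
    calc (∑ i ∈ I, MX.mx μ (S i) (g i) x ^ (2 : ℝ)) ^ (r / 2)
        ≤ ((∑ i ∈ I, MX.mx μ (S i) (u i) x ^ p0) * MX.mx μ U v x ^ (2 * θ)) ^ (r / 2) :=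
          ENNReal.rpow_le_rpow h2 hr2
      _ = _ := by
          rw [ENNReal.mul_rpow_of_nonneg _ _ hr2, ← ENNReal.rpow_mul, ← ENNReal.rpow_mul]
          congr 2
          field_simp
  -- the two factors
  have hF1 : ∫⁻ x, ∑ i ∈ I, MX.mx μ (S i) (u i) x ^ p0 ≤ D ^ p0 * ∫⁻ x, W x := by
    rw [lintegral_finsetSum _ fun i _ => (hmM i).pow_const p0]
    calc ∑ i ∈ I, ∫⁻ x, MX.mx μ (S i) (u i) x ^ p0
        ≤ ∑ i ∈ I, D ^ p0 * ∫⁻ x, u i x ^ p0 := by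
          refine Finset.sum_le_sum fun i hi => hD (k i) (S i) (hS i hi) (u i) (hu i)
      _ = D ^ p0 * ∫⁻ x, ∑ i ∈ I, u i x ^ p0 := by
          rw [lintegral_finsetSum _ fun i _ => (hu i).pow_const p0, Finset.mul_sum]
      _ ≤ _ := by
          refine mul_le_mul' le_rfl (lintegral_mono fun x => hup x)
  have hF2 : ∫⁻ x, MX.mx μ U v x ^ q ≤ B ^ q * ∫⁻ x, W x := by
    have h2 := hB U (by
      intro t ht
      obtain ⟨i, hi, hti⟩ := Finset.mem_biUnion.1 ht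
      exact lt_of_lt_of_le (Real.exp_pos _) (hS i hi t hti).1) v hv
    refine h2.trans (le_of_eq ?_)
    congr 1
    exact lintegral_congr fun x => hvq x
  calc ∫⁻ x, (∑ i ∈ I, MX.mx μ (S i) (g i) x ^ (2 : ℝ)) ^ (r / 2)
      ≤ ∫⁻ x, (∑ i ∈ I, MX.mx μ (S i) (u i) x ^ p0) ^ (r / 2) *
          (MX.mx μ U v x ^ q) ^ (θ * r / q) := lintegral_mono hpt
    _ ≤ (∫⁻ x, ∑ i ∈ I, MX.mx μ (S i) (u i) x ^ p0) ^ (r / 2) *
          (∫⁻ x, MX.mx μ U v x ^ q) ^ (θ * r / q) := by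
        refine ENNReal.lintegral_mul_norm_pow_le ?_ ?_ hr2 hθr hsum
        · exact (Finset.measurable_fun_sum I fun i _ => (hmM i).pow_const p0).aemeasurable
        · exact (hmN.pow_const q).aemeasurable
    _ ≤ (D ^ p0 * ∫⁻ x, W x) ^ (r / 2) * (B ^ q * ∫⁻ x, W x) ^ (θ * r / q) := by
        refine mul_le_mul' (ENNReal.rpow_le_rpow hF1 hr2) (ENNReal.rpow_le_rpow hF2 hθr)
    _ = (D ^ (p0 / 2) * B ^ θ) ^ r * ∫⁻ x, W x := by
        rw [ENNReal.mul_rpow_of_nonneg _ _ hr2, ENNReal.mul_rpow_of_nonneg _ _ hθr,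
          ENNReal.mul_rpow_of_nonneg _ _ hr0.le, ← ENNReal.rpow_mul, ← ENNReal.rpow_mul,
          ← ENNReal.rpow_mul, ← ENNReal.rpow_mul]
        have h2 : q * (θ * r / q) = θ * r := by field_simp
        have h3 : p0 * (r / 2) = p0 / 2 * r := by ring
        rw [h2, h3]
        calc D ^ (p0 / 2 * r) * (∫⁻ x, W x) ^ (r / 2) *
              (B ^ (θ * r) * (∫⁻ x, W x) ^ (θ * r / q))
            = D ^ (p0 / 2 * r) * B ^ (θ * r) *
              ((∫⁻ x, W x) ^ (r / 2) * (∫⁻ x, W x) ^ (θ * r / q)) := by ring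
          _ = _ := by
              rw [← ENNReal.rpow_add_of_nonneg _ _ hr2 hθr, hsum, ENNReal.rpow_one]

end Pool.Agent.CB
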