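import Pool.Agent.CB.TjB
import Pool.Agent.CB.VV
import Pool.Agent.CB.GMax

/-!
# CB-TjR: the pieces `Tj` are bounded on `L^r`

`Tj_le`, `(x + y)^2 ≤ 2 x^2 + 2 y^2`, `(u + v)^(r/2) ≤ u^(r/2) + v^(r/2)` (`r ≤ 2`), `vv` for `μ` and for `gam n`
(with `I` the finite set of integers `k`, `k i = i`, `S i = S.filter (⌊log t⌋ = i)`; if `⌊log t⌋ = k`, `t > 0`
then `exp k ≤ t ≤ exp (k+1)`), and `gauss_sq` (a finite set of integers `k + j` is contained in some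
`Icc (-K0) K0`; monotonicity of the sum). `LocBdd p0 (gam n)` follows from `gauss_max` for `p0`
(the sets `S` in `LocBdd` are positive), `BddF q (gam n)` from `gauss_max` for `q`.
-/

set_option autoImplicit false

open MeasureTheory Set
open scoped ENNReal NNReal

namespace Pool.Agent.CB

private theorem tj_loc {n : ℕ} {p : ℝ} {C : ℝ≥0} {μ : Measure (V n)}
    (h : MX.BddF p (C : ℝ≥0∞) μ) : LocBdd p (C : ℝ≥0∞) μ := by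
  intro k S hS f hf
  exact h S (fun t ht => (Real.exp_pos k).trans_le (hS t ht).1) f hf

private theorem tj_range (S : Finset ℝ) (hS : ∀ t ∈ S, 0 < t) (i : ℤ) :
    ∀ t ∈ S.filter (fun t => ⌊Real.log t⌋ = i), Real.exp (i : ℝ) ≤ t ∧ t ≤ Real.exp ((i : ℝ) + 1) := by
  intro t ht
  obtain ⟨ht1, ht2⟩ := Finset.mem_filter.1 ht
  have hpos := hS t ht1
  have h1 : (i : ℝ) ≤ Real.log t := by
    rw [← ht2]
    exact Int.floor_le _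
  have h2 : Real.log t < (i : ℝ) + 1 := by
    rw [← ht2]
    exact Int.lt_floor_add_one _
  constructor
  · calc Real.exp (i : ℝ) ≤ Real.exp (Real.log t) := Real.exp_le_exp.2 h1
      _ = t := Real.exp_log hpos
  · calc t = Real.exp (Real.log t) := (Real.exp_log hpos).symm
      _ ≤ _ := Real.exp_le_exp.2 h2.le

private theorem tj_sum {n : ℕ} (I : Finset ℤ) (j : ℤ) (f : V n → ℝ) :
    ∃ K0 : ℕ, ∀ x, ∑ k ∈ I, ‖Qg (k + j) f x‖ₑ ^ (2 : ℝ) ≤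
      ∑ k ∈ Finset.Icc (-(K0 : ℤ)) K0, ‖Qg k f x‖ₑ ^ (2 : ℝ) := by
  refine ⟨I.sup fun k => (k + j).natAbs, fun x => ?_⟩
  set K0 := I.sup fun k => (k + j).natAbs with hK
  have h1 : ∑ k ∈ I, ‖Qg (k + j) f x‖ₑ ^ (2 : ℝ) =
      ∑ m ∈ I.map (addRightEmbedding j), ‖Qg m f x‖ₑ ^ (2 : ℝ) := by
    rw [Finset.sum_map]
    rfl
  rw [h1]
  refine Finset.sum_le_sum_of_subset ?_
  intro m hm
  obtain ⟨k, hk, rfl⟩ := Finset.mem_map.1 hm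
  have h2 : (k + j).natAbs ≤ K0 := Finset.le_sup (f := fun k => (k + j).natAbs) hk
  rw [Finset.mem_Icc]
  simp only [addRightEmbedding_apply]
  constructor <;> omega

private theorem tj_pt {r : ℝ} (hr : 0 < r) (hr2 : r < 2) (I : Finset ℤ) (a b : ℤ → ℝ≥0∞)
    {T : ℝ≥0∞} (hT : T ≤ (∑ k ∈ I, (a k + b k) ^ (2 : ℝ)) ^ (1 / (2 : ℝ))) :
    T ^ r ≤ ((2 : ℝ≥0∞) ^ ((2 : ℝ) - 1)) ^ (r / 2) *
      ((∑ k ∈ I, a k ^ (2 : ℝ)) ^ (r / 2) + (∑ k ∈ I, b k ^ (2 : ℝ)) ^ (r / 2)) := by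
  have hr2' : 0 ≤ r / 2 := by positivity
  calc T ^ r ≤ ((∑ k ∈ I, (a k + b k) ^ (2 : ℝ)) ^ (1 / (2 : ℝ))) ^ r :=
        ENNReal.rpow_le_rpow hT hr.le
    _ = (∑ k ∈ I, (a k + b k) ^ (2 : ℝ)) ^ (r / 2) := by
        rw [← ENNReal.rpow_mul]
        congr 1
        ring
    _ ≤ ((2 : ℝ≥0∞) ^ ((2 : ℝ) - 1) * (∑ k ∈ I, a k ^ (2 : ℝ) + ∑ k ∈ I, b k ^ (2 : ℝ))) ^ (r / 2) := by
        apply ENNReal.rpow_le_rpow _ hr2'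
        rw [← Finset.sum_add_distrib, Finset.mul_sum]
        exact Finset.sum_le_sum fun k _ => ENNReal.rpow_add_le_mul_rpow_add_rpow _ _ (by norm_num)
    _ = ((2 : ℝ≥0∞) ^ ((2 : ℝ) - 1)) ^ (r / 2) *
        (∑ k ∈ I, a k ^ (2 : ℝ) + ∑ k ∈ I, b k ^ (2 : ℝ)) ^ (r / 2) :=
        ENNReal.mul_rpow_of_nonneg _ _ hr2'
    _ ≤ _ := by
        apply mul_le_mul_right
        exact ENNReal.rpow_add_le_add_rpow _ _ hr2' (by linarith)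

theorem lr_Tj {p0 q r : ℝ} (h0 : 1 < p0) (h1 : p0 < 2) (hq : 1 < q) (hr : 1 < r) (hr2 : r < 2)
    (hrq : 1 / r = 1 / 2 + (1 - p0 / 2) / q) (D B : ℝ≥0) :
    ∃ C : ℝ, 0 < C ∧ ∀ (n : ℕ) (μ : Measure (V n)), IsProbabilityMeasure μ →
      LocBdd p0 (D : ℝ≥0∞) μ → MX.BddF q (B : ℝ≥0∞) μ →
      ∀ (S : Finset ℝ), (∀ t ∈ S, 0 < t) → ∀ (f : V n → ℝ), Nice f → ∀ (j : ℤ),
        ∫⁻ x, (Tj μ S j f x : ℝ≥0∞) ^ r ≤ ENNReal.ofReal C * ∫⁻ x, ‖f x‖ₑ ^ r := by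
  obtain ⟨D', hD'⟩ := gauss_max h0
  obtain ⟨B', hB'⟩ := gauss_max hq
  obtain ⟨Cs, hCs⟩ := gauss_sq hr hr2
  have hp1 : 0 ≤ p0 / 2 := by linarith
  have hp2 : 0 ≤ 1 - p0 / 2 := by linarith
  have hr0 : 0 ≤ r := by linarith
  have hr2' : 0 ≤ r / 2 := by linarith
  set E1 : ℝ≥0∞ := ((D : ℝ≥0∞) ^ (p0 / 2) * (B : ℝ≥0∞) ^ (1 - p0 / 2)) ^ r with hE1
  set E2 : ℝ≥0∞ := ((D' : ℝ≥0∞) ^ (p0 / 2) * (B' : ℝ≥0∞) ^ (1 - p0 / 2)) ^ r with hE2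
  set c : ℝ≥0∞ := ((2 : ℝ≥0∞) ^ ((2 : ℝ) - 1)) ^ (r / 2) with hc
  set E : ℝ≥0∞ := c * (E1 + E2) * Cs with hE
  have hfinE : ∀ D B : ℝ≥0, ((D : ℝ≥0∞) ^ (p0 / 2) * (B : ℝ≥0∞) ^ (1 - p0 / 2)) ^ r ≠ ∞ := by
    intro D B
    refine (ENNReal.rpow_lt_top_of_nonneg hr0 ?_).ne
    exact ENNReal.mul_ne_top (ENNReal.rpow_lt_top_of_nonneg hp1 ENNReal.coe_ne_top).ne
      (ENNReal.rpow_lt_top_of_nonneg hp2 ENNReal.coe_ne_top).ne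
  have hcfin : c ≠ ∞ := by
    refine (ENNReal.rpow_lt_top_of_nonneg hr2' ?_).ne
    exact (ENNReal.rpow_lt_top_of_nonneg (by norm_num) (by norm_num)).ne
  have hEfin : E ≠ ∞ := by
    refine ENNReal.mul_ne_top (ENNReal.mul_ne_top hcfin ?_) ENNReal.coe_ne_top
    exact ENNReal.add_ne_top.2 ⟨hfinE D B, hfinE D' B'⟩
  refine ⟨E.toReal + 1, by positivity, ?_⟩
  intro n μ hμ hD hB S hS f hf j
  set I := S.image (fun t => ⌊Real.log t⌋) with hI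
  set a : ℤ → V n → ℝ≥0∞ := fun k x =>
    MX.mx μ (S.filter fun t => ⌊Real.log t⌋ = k) (fun y => ‖Qg (k + j) f y‖ₑ) x with ha
  set b : ℤ → V n → ℝ≥0∞ := fun k x =>
    MX.mx (gam n) (S.filter fun t => ⌊Real.log t⌋ = k) (fun y => ‖Qg (k + j) f y‖ₑ) x with hb
  have hgm : ∀ k : ℤ, Measurable fun y => ‖Qg (k + j) f y‖ₑ := fun k =>
    (nice_Qg (k + j) hf).cont.measurable.enorm
  have ham : Measurable fun x => (∑ k ∈ I, a k x ^ (2 : ℝ)) ^ (r / 2) := by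
    apply Measurable.pow_const
    apply Finset.measurable_sum
    intro k _
    exact (MX.measurable_mx μ _ (hgm k)).pow_const _
  have hpt : ∀ x, (Tj μ S j f x : ℝ≥0∞) ^ r ≤
      c * ((∑ k ∈ I, a k x ^ (2 : ℝ)) ^ (r / 2) + (∑ k ∈ I, b k x ^ (2 : ℝ)) ^ (r / 2)) := by
    intro x
    exact tj_pt (by linarith) hr2 I (fun k => a k x) (fun k => b k x) (Tj_le S j hf x)
  have hv1 : ∫⁻ x, (∑ k ∈ I, a k x ^ (2 : ℝ)) ^ (r / 2) ≤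
      E1 * ∫⁻ x, (∑ k ∈ I, ‖Qg (k + j) f x‖ₑ ^ (2 : ℝ)) ^ (r / 2) :=
    vv h0 h1 hq hrq hD hB I (fun k : ℤ => (k : ℝ)) (fun k => S.filter fun t => ⌊Real.log t⌋ = k)
      (fun i _ => tj_range S hS i) (fun k y => ‖Qg (k + j) f y‖ₑ) hgm (fun _ _ => enorm_ne_top)
  have hv2 : ∫⁻ x, (∑ k ∈ I, b k x ^ (2 : ℝ)) ^ (r / 2) ≤
      E2 * ∫⁻ x, (∑ k ∈ I, ‖Qg (k + j) f x‖ₑ ^ (2 : ℝ)) ^ (r / 2) :=
    vv h0 h1 hq hrq (tj_loc (hD' n)) (hB' n) I (fun k : ℤ => (k : ℝ))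
      (fun k => S.filter fun t => ⌊Real.log t⌋ = k)
      (fun i _ => tj_range S hS i) (fun k y => ‖Qg (k + j) f y‖ₑ) hgm (fun _ _ => enorm_ne_top)
  obtain ⟨K0, hK0⟩ := tj_sum I j f
  have hv3 : ∫⁻ x, (∑ k ∈ I, ‖Qg (k + j) f x‖ₑ ^ (2 : ℝ)) ^ (r / 2) ≤
      Cs * ∫⁻ x, ‖f x‖ₑ ^ r := by
    refine le_trans (lintegral_mono fun x => ?_) (hCs n K0 f hf)
    exact ENNReal.rpow_le_rpow (hK0 x) hr2'
  calc ∫⁻ x, (Tj μ S j f x : ℝ≥0∞) ^ r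
      ≤ ∫⁻ x, c * ((∑ k ∈ I, a k x ^ (2 : ℝ)) ^ (r / 2) + (∑ k ∈ I, b k x ^ (2 : ℝ)) ^ (r / 2)) :=
        lintegral_mono hpt
    _ = c * ∫⁻ x, ((∑ k ∈ I, a k x ^ (2 : ℝ)) ^ (r / 2) + (∑ k ∈ I, b k x ^ (2 : ℝ)) ^ (r / 2)) :=
        lintegral_const_mul' _ _ hcfin
    _ = c * ((∫⁻ x, (∑ k ∈ I, a k x ^ (2 : ℝ)) ^ (r / 2)) +
          (∫⁻ x, (∑ k ∈ I, b k x ^ (2 : ℝ)) ^ (r / 2))) := by
        rw [lintegral_add_left ham]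
    _ ≤ c * ((E1 * (Cs * ∫⁻ x, ‖f x‖ₑ ^ r)) + (E2 * (Cs * ∫⁻ x, ‖f x‖ₑ ^ r))) := by
        apply mul_le_mul_right
        apply add_le_add
        · exact hv1.trans (mul_le_mul_right hv3 _)
        · exact hv2.trans (mul_le_mul_right hv3 _)
    _ = E * ∫⁻ x, ‖f x‖ₑ ^ r := by
        rw [hE]
        ring
    _ ≤ ENNReal.ofReal (E.toReal + 1) * ∫⁻ x, ‖f x‖ₑ ^ r := by
        apply mul_le_mul_left
        calc E = ENNReal.ofReal E.toReal := (ENNReal.ofReal_toReal hEfin).symm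
          _ ≤ _ := ENNReal.ofReal_le_ofReal (by linarith)

end Pool.Agent.CB
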