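import Pool.Agent.CB.Defs

/-!
# CB-VVa: the factorisation behind the vector-valued maximal inequality

`θ = 1 - p0/2`, so `2 (1-θ) = p0`, `1/r = 1/2 + θ/q`. Put `Σ = (∑ i ∈ I, g i ^2)^(1/2) < ∞`, `v = Σ^(r/q)`,
`u i = g i ^(1/(1-θ)) * v^(-θ/(1-θ))`, i.e. `u i = g i ^ (2/p0) * v ^ (-(2-p0)/p0)`. Where `Σ = 0` all `g i = 0` for `i ∈ I`
(and `u i = 0 * ∞ = 0`, `v = 0`); where `0 < Σ < ∞` everything is finite and `v` is not zero:
`u i^(1-θ) * v^θ = g i`, `∑ i, u i^p0 = Σ^2 v^(-2θ) = Σ^(2 - 2 θ r/q) = Σ^r`, `v^q = Σ^r`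
(`2 θ r/q = 2 - r`). `ENNReal.rpow_mul`, `ENNReal.mul_rpow_of_nonneg`, `ENNReal.rpow_add`.
-/

set_option autoImplicit false

open MeasureTheory Set
open scoped ENNReal NNReal

namespace Pool.Agent.CB

variable {n : ℕ}

theorem vv_factor {p0 q r : ℝ} (h0 : 1 < p0) (h1 : p0 < 2) (hq : 1 < q)
    (hr : 1 / r = 1 / 2 + (1 - p0 / 2) / q) {ι : Type} (I : Finset ι) (g : ι → V n → ℝ≥0∞)
    (hg : ∀ i, Measurable (g i)) (hfin : ∀ i x, g i x ≠ ∞) :
    ∃ (v : V n → ℝ≥0∞) (u : ι → V n → ℝ≥0∞), Measurable v ∧ (∀ i, Measurable (u i)) ∧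
      (∀ i ∈ I, ∀ x, g i x = u i x ^ (p0 / 2) * v x ^ (1 - p0 / 2)) ∧
      (∀ x, v x ^ q = (∑ i ∈ I, g i x ^ (2 : ℝ)) ^ (r / 2)) ∧
      ∀ x, ∑ i ∈ I, u i x ^ p0 ≤ (∑ i ∈ I, g i x ^ (2 : ℝ)) ^ (r / 2) := by
  have hq0 : 0 < q := by linarith
  have hp0 : 0 < p0 := by linarith
  have hθ : 0 < 1 - p0 / 2 := by linarith
  have hr0 : 0 < r := by
    have h2 : 0 < 1 / r := by
      rw [hr]
      positivity
    exact one_div_pos.1 h2
  have hexp : 1 + (r / (2 * q)) * (p0 - 2) = r / 2 := by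
    have h3 : 1 = r * (1 / 2 + (1 - p0 / 2) / q) := by
      rw [← hr]; field_simp
    have h4 : r * (1 / 2 + (1 - p0 / 2) / q) = r / 2 + (r / (2 * q)) * (2 - p0) := by
      field_simp
    linarith
  set S : V n → ℝ≥0∞ := fun x => ∑ i ∈ I, g i x ^ (2 : ℝ) with hS
  have hSm : Measurable S := by
    refine Finset.measurable_sum _ fun i _ => ?_
    exact (hg i).pow_const _
  have hStop : ∀ x, S x ≠ ∞ := by
    intro x
    refine ENNReal.sum_ne_top.2 fun i _ => ?_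
    exact ENNReal.rpow_ne_top_of_nonneg (by norm_num) (hfin i x)
  refine ⟨fun x => S x ^ (r / (2 * q)),
    fun i x => g i x ^ (2 / p0) * (S x ^ (r / (2 * q))) ^ (-(2 - p0) / p0),
    hSm.pow_const _, fun i => ((hg i).pow_const _).mul ((hSm.pow_const _).pow_const _),
    ?_, ?_, ?_⟩
  · intro i hi x
    by_cases h0S : S x = 0
    · have hgi : g i x = 0 := by
        have h5 : g i x ^ (2 : ℝ) = 0 := by
          have h6 := (Finset.sum_eq_zero_iff.1 h0S) i hi
          exact h6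
        exact (ENNReal.rpow_eq_zero_iff_of_pos (by norm_num)).1 h5
      simp only [hgi, h0S]
      rw [ENNReal.zero_rpow_of_pos (by positivity : 0 < r / (2 * q)),
        ENNReal.zero_rpow_of_pos (by positivity : 0 < 2 / p0), zero_mul,
        ENNReal.zero_rpow_of_pos (by positivity : 0 < p0 / 2), zero_mul]
    · set v := S x ^ (r / (2 * q)) with hv
      have hv0 : v ≠ 0 := by
        intro h7
        rcases ENNReal.rpow_eq_zero_iff.1 h7 with h8 | h8
        · exact h0S h8.1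
        · exact hStop x h8.1
      have hvt : v ≠ ∞ := ENNReal.rpow_ne_top_of_nonneg (by positivity) (hStop x)
      rw [ENNReal.mul_rpow_of_nonneg _ _ (by positivity : 0 ≤ p0 / 2), ← ENNReal.rpow_mul,
        ← ENNReal.rpow_mul, mul_assoc, ← ENNReal.rpow_add _ _ hv0 hvt]
      have e1 : 2 / p0 * (p0 / 2) = 1 := by field_simp
      have e2 : -(2 - p0) / p0 * (p0 / 2) + (1 - p0 / 2) = 0 := by
        field_simp
        ring
      rw [e1, e2, ENNReal.rpow_one, ENNReal.rpow_zero, mul_one]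
  · intro x
    show (S x ^ (r / (2 * q))) ^ q = S x ^ (r / 2)
    rw [← ENNReal.rpow_mul]
    congr 1
    field_simp
  · intro x
    show ∑ i ∈ I, (g i x ^ (2 / p0) * (S x ^ (r / (2 * q))) ^ (-(2 - p0) / p0)) ^ p0 ≤
      S x ^ (r / 2)
    by_cases h0S : S x = 0
    · have h9 : ∀ i ∈ I, (g i x ^ (2 / p0) * (S x ^ (r / (2 * q))) ^ (-(2 - p0) / p0)) ^ p0 = 0 := by
        intro i hi
        have hgi : g i x = 0 := by
          have h5 : g i x ^ (2 : ℝ) = 0 := (Finset.sum_eq_zero_iff.1 h0S) i hi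
          exact (ENNReal.rpow_eq_zero_iff_of_pos (by norm_num)).1 h5
        rw [hgi, ENNReal.zero_rpow_of_pos (by positivity : 0 < 2 / p0), zero_mul,
          ENNReal.zero_rpow_of_pos hp0]
      rw [Finset.sum_eq_zero h9]
      exact zero_le
    · set v := S x ^ (r / (2 * q)) with hv
      have hv0 : v ≠ 0 := by
        intro h7
        rcases ENNReal.rpow_eq_zero_iff.1 h7 with h8 | h8
        · exact h0S h8.1
        · exact hStop x h8.1
      have hvt : v ≠ ∞ := ENNReal.rpow_ne_top_of_nonneg (by positivity) (hStop x)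
      have h10 : ∀ i ∈ I, (g i x ^ (2 / p0) * v ^ (-(2 - p0) / p0)) ^ p0 =
          g i x ^ (2 : ℝ) * v ^ (p0 - 2) := by
        intro i _
        rw [ENNReal.mul_rpow_of_nonneg _ _ hp0.le, ← ENNReal.rpow_mul, ← ENNReal.rpow_mul]
        have e1 : 2 / p0 * p0 = 2 := by field_simp
        have e2 : -(2 - p0) / p0 * p0 = p0 - 2 := by field_simp; ring
        rw [e1, e2]
      rw [Finset.sum_congr rfl h10, ← Finset.sum_mul]
      have h11 : (∑ i ∈ I, g i x ^ (2 : ℝ)) = S x := rfl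
      rw [h11, hv, ← ENNReal.rpow_mul]
      nth_rewrite 1 [← ENNReal.rpow_one (S x)]
      rw [← ENNReal.rpow_add _ _ h0S (hStop x), hexp]

end Pool.Agent.CB
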